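import Pool.Agent.Lib.MP_4c1f79_al.StmD

/-!
# MP_4c1f79_al : piece BRK (bricks)
-/

set_option autoImplicit false

namespace Pool.Agent.Lib.MP_4c1f79_al

open Finset Module

variable {P : Type} [Fintype P] {M : Mesh P} {K : Type} [Field K]

/-- the arrows out of `p` only reach successors -/
theorem BRK_a_sum (R : Rp M K) (p : P) (x : R.T) (hx : R.e p x = x)
    (h : ∀ q, M.Ar p q → R.e q (R.a x) = 0) : R.a x = 0 := by
  rw [← R.e_sum (R.a x)]
  apply Finset.sum_eq_zero
  intro q _
  by_cases hq : M.Ar p q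
  · exact h q hq
  · rw [← hx]
    exact R.a_ar p q x hq

theorem BRK_inj (R : Rp M K) (p : P) (h : R.sc p = 0) (w : R.T) (hw : R.e p w = w)
    (ha : R.a w = 0) : w = 0 := by
  have hfin : Module.Finite K R.T := Module.Finite.of_finite
  have h1 : (LinearMap.range (R.e p) ⊓ LinearMap.ker R.a : Submodule K R.T) = ⊥ :=
    Submodule.finrank_eq_zero.1 h
  have h2 : w ∈ (LinearMap.range (R.e p) ⊓ LinearMap.ker R.a : Submodule K R.T) :=
    ⟨⟨w, hw⟩, ha⟩
  rw [h1] at h2
  exact (Submodule.mem_bot K).1 h2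

theorem BRK_one (R : Rp M K) (p : P) (h : R.sc p = 1) : ∃ v : R.T, v ≠ 0 ∧ R.e p v = v ∧
    ∀ w, R.e p w = w → R.a w = 0 → ∃ d : K, d • v = w := by
  obtain ⟨v, hv, hv2⟩ := finrank_eq_one_iff'.1 h
  obtain ⟨y, hy⟩ := v.2.1
  refine ⟨v.1, fun h => hv (Subtype.ext h), ?_, ?_⟩
  · rw [← hy, R.e_e]
  · intro w hw1 hw2
    obtain ⟨d, hd⟩ := hv2 ⟨w, ⟨w, hw1⟩, hw2⟩
    exact ⟨d, congrArg Subtype.val hd⟩

/-- the shifted brick property -/
def BRK_B (R : Rp M K) (j : ℕ) : Prop :=
  ∀ f : R.T →ₗ[K] R.T, (∀ p x, f (R.e p x) = R.e p (f x)) →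
    (∀ p, M.lv p = j → ∀ x, f (R.a (R.e p x)) = R.a (f (R.e p x))) →
    ∃ c : K, ∀ p, (M.lv p + 1 = j ∨ M.lv p = j) → ∀ x, f (R.e p x) = c • R.e p x

/-- factorisation of linear maps -/
theorem BRK_fac {V : Type} [AddCommGroup V] [Module K V] (A B : V →ₗ[K] V)
    (h : ∀ x, A x = 0 → B x = 0) : ∃ g : V →ₗ[K] V, ∀ x, g (A x) = B x := by
  obtain ⟨s, hs⟩ := LinearMap.exists_rightInverse_of_surjective A.rangeRestrict
    (LinearMap.range_rangeRestrict A)
  obtain ⟨g, hg⟩ := LinearMap.exists_extend (B ∘ₗ s)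
  refine ⟨g, ?_⟩
  intro x
  have h1 : g (A x) = B (s (A.rangeRestrict x)) := by
    have := congrArg (fun φ => φ (A.rangeRestrict x)) hg
    exact this
  have h2 : A (s (A.rangeRestrict x)) = A x := by
    have := congrArg (fun φ => ((φ (A.rangeRestrict x) : LinearMap.range A) : V)) hs
    exact this
  have h3 : A (s (A.rangeRestrict x) - x) = 0 := by rw [map_sub, h2, sub_self]
  have h4 := h _ h3
  rw [map_sub] at h4
  rw [h1]
  exact sub_eq_zero.1 h4

theorem BRK_base (R : Rp M K) (u : P) (hsc : ∀ p, R.sc p = ind {u} p) (j : ℕ)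
    (hj : j ≤ M.lv u) : BRK_B R j := by
  have hz : ∀ n : ℕ, ∀ p, M.lv p = n → M.lv p ≤ M.lv u → p ≠ u → ∀ x, R.e p x = 0 := by
    intro n
    induction n using Nat.strong_induction_on with
    | _ n ih =>
      intro p hpn hp hpu x
      have hs : R.sc p = 0 := by
        rw [hsc]
        unfold ind
        have hpu' : p ∉ ({u} : Set P) := fun h1 => hpu h1
        exact Set.indicator_of_notMem hpu' _
      apply BRK_inj R p hs _ (R.e_e p x)
      apply BRK_a_sum R p _ (R.e_e p x)
      intro q hq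
      have h1 := M.lv_ar p q hq
      exact ih (M.lv q) (by omega) q rfl (by omega) (by
        rintro rfl
        omega) _
  intro f hf1 hf2
  rcases hj.lt_or_eq with hj | hj
  · refine ⟨0, ?_⟩
    intro p hp x
    have h1 : R.e p x = 0 := hz _ p rfl (by omega) (by
      rintro rfl
      omega) x
    rw [h1, map_zero, smul_zero]
  · have hs : R.sc u = 1 := by
      rw [hsc]
      unfold ind
      exact Set.indicator_of_mem (Set.mem_singleton u) _
    obtain ⟨v, hv1, hv2, hv3⟩ := BRK_one R u hs
    have hall : ∀ w, R.e u w = w → ∃ d : K, d • v = w := by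
      intro w hw
      apply hv3 w hw
      apply BRK_a_sum R u _ hw
      intro q hq
      have h1 := M.lv_ar u q hq
      exact hz _ q rfl (by omega) (by
        rintro rfl
        omega) _
    obtain ⟨c, hc⟩ := hall (f v) (by rw [← hf1, hv2])
    refine ⟨c, ?_⟩
    intro p hp x
    by_cases hpu : p = u
    · subst hpu
      obtain ⟨d, hd⟩ := hall (R.e p x) (R.e_e p x)
      rw [← hd, map_smul, ← hc, smul_comm]
    · have h1 : R.e p x = 0 := hz _ p rfl (by omega) hpu x
      rw [h1, map_zero, smul_zero]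

theorem BRK_step (R : Rp M K) (U : Set P) (k₀ : ℕ) (u : P) (hR : R.Good U)
    (hsc : ∀ p, R.sc p = ind {u} p) (hN : NoCut M U k₀) (j : ℕ) (hj : M.lv u ≤ j)
    (hk : j + 1 ≤ k₀) (hB : BRK_B R j) : BRK_B R (j + 1) := by
  classical
  intro f hf1 hf2
  -- the component of level `j - 1`
  have hg : ∀ r : P, ∃ g : R.T →ₗ[K] R.T, r ∈ U → M.lv r + 1 = j →
      ∀ x, g (R.e r (R.a x)) = R.e r (R.a (f x)) := by
    intro r
    by_cases hr : r ∈ U ∧ M.lv r + 1 = j
    · obtain ⟨hrU, hrj⟩ := hr
      obtain ⟨p, hpU, hpr⟩ := hN r hrU (by omega)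
      have hlp : M.lv p = j + 1 := by
        have := M.lv_tau p r hpr
        omega
      obtain ⟨g, hg⟩ := BRK_fac (R.e r ∘ₗ R.a) (R.e r ∘ₗ R.a ∘ₗ f) (by
        intro x hx
        change R.e r (R.a x) = 0 at hx
        change R.e r (R.a (f x)) = 0
        -- the part on the predecessors of `r`
        have hpart : ∀ z : R.T, R.e r (R.a z) =
            R.e r (R.a (∑ q, if M.Ar q r then R.e q z else 0)) := by
          intro z
          have h1 : R.e r (R.a z) = ∑ q, R.e r (R.a (R.e q z)) := by
            conv_lhs => rw [← R.e_sum z]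
            rw [map_sum, map_sum]
          rw [h1, map_sum, map_sum]
          apply Finset.sum_congr rfl
          intro q _
          by_cases hq : M.Ar q r
          · rw [if_pos hq]
          · rw [if_neg hq, map_zero, map_zero, R.a_ar q r z hq]
        obtain ⟨x', hx'⟩ : ∃ x', x' = ∑ q, if M.Ar q r then R.e q x else 0 := ⟨_, rfl⟩
        have h1 : R.e r (R.a x') = 0 := by rw [hx', ← hpart, hx]
        have h2 : R.e r (R.a (f x)) = R.e r (R.a (f x')) := by
          have h21 : f x' = ∑ q, if M.Ar q r then R.e q (f x) else 0 := by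
            rw [hx', map_sum]
            apply Finset.sum_congr rfl
            intro q _
            by_cases hq : M.Ar q r
            · rw [if_pos hq, if_pos hq, hf1]
            · rw [if_neg hq, if_neg hq, map_zero]
          rw [h21, ← hpart]
        obtain ⟨z, hz1, hz2⟩ := hR.2 p hpU x' (by
          intro q hq
          rw [hx', map_sum]
          apply Finset.sum_eq_zero
          intro q' _
          by_cases hq' : M.Ar q' r
          · rw [if_pos hq']
            apply R.e_ne
            rintro rfl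
            exact hq ((M.mesh_ar p r q hpr).2 hq')
          · rw [if_neg hq', map_zero]) (by
          intro r' hr'
          rw [M.tau_fun p r' r hr' hpr]
          exact h1)
        rw [h2, ← hz2]
        have h3 := hf2 p hlp z
        rw [hz1] at h3
        rw [h3]
        have h4 : f z = R.e p (f z) := by
          rw [← hf1, hz1]
        rw [h4]
        exact R.mesh p r _ hpr)
      exact ⟨g, fun _ _ x => hg x⟩
    · exact ⟨0, fun h1 h2 => absurd ⟨h1, h2⟩ hr⟩
  choose g hg using hg
  let h : P → R.T →ₗ[K] R.T := fun q => if M.lv q = j then f else g q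
  let f' : R.T →ₗ[K] R.T := ∑ q, R.e q ∘ₗ h q ∘ₗ R.e q
  have hf'x : ∀ x, f' x = ∑ q, R.e q (h q (R.e q x)) := by
    intro x
    change (∑ q, R.e q ∘ₗ h q ∘ₗ R.e q) x = _
    rw [LinearMap.sum_apply]
    rfl
  have hf'e : ∀ p x, f' (R.e p x) = R.e p (h p (R.e p x)) := by
    intro p x
    rw [hf'x, Finset.sum_eq_single p]
    · rw [R.e_e]
    · intro q _ hq
      rw [R.e_ne q p x hq, map_zero, map_zero]
    · intro hp
      exact absurd (Finset.mem_univ p) hp
  have hf'1 : ∀ p x, f' (R.e p x) = R.e p (f' x) := by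
    intro p x
    rw [hf'e, hf'x, map_sum, Finset.sum_eq_single p]
    · rw [R.e_e]
    · intro q _ hq
      exact R.e_ne p q _ (Ne.symm hq)
    · intro hp
      exact absurd (Finset.mem_univ p) hp
  obtain ⟨c, hc⟩ := hB f' hf'1 (by
    intro p hp x
    rw [hf'e]
    have h1 : h p = f := if_pos hp
    rw [h1, ← hf1, R.e_e, hf'x]
    conv_rhs => rw [← R.e_sum (R.a (f (R.e p x)))]
    apply Finset.sum_congr rfl
    intro r _
    by_cases hr : M.Ar p r
    · have hlr := M.lv_ar p r hr
      have h2 : h r = g r := if_neg (by omega)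
      rw [h2]
      by_cases hrU : r ∈ U
      · rw [hg r hrU (by omega), R.e_e]
      · rw [hR.1 r hrU, hR.1 r hrU]
    · rw [R.a_ar p r x hr, map_zero, map_zero, hf1, R.a_ar p r _ hr])
  have hcj : ∀ p, M.lv p = j → ∀ x, f (R.e p x) = c • R.e p x := by
    intro p hp x
    have h1 := hc p (Or.inr hp) x
    rw [hf'e] at h1
    have h2 : h p = f := if_pos hp
    rw [h2, ← hf1, R.e_e] at h1
    exact h1
  refine ⟨c, ?_⟩
  intro p hp x
  rcases hp with hp | hp
  · exact hcj p (by omega) x
  · have hpu : p ∉ ({u} : Set P) := by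
      intro h1
      have h2 : p = u := h1
      subst h2
      omega
    have hs : R.sc p = 0 := by
      rw [hsc]
      unfold ind
      exact Set.indicator_of_notMem hpu _
    have h1 : f (R.e p x) - c • R.e p x = 0 := by
      apply BRK_inj R p hs
      · rw [map_sub, map_smul, ← hf1, R.e_e]
      · rw [map_sub, map_smul, ← hf2 p hp]
        have h2 : f (R.a (R.e p x)) = c • R.a (R.e p x) := by
          rw [← R.e_sum (R.a (R.e p x)), map_sum, Finset.smul_sum]
          apply Finset.sum_congr rfl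
          intro q _
          by_cases hq : M.Ar p q
          · have hlq := M.lv_ar p q hq
            exact hcj q (by omega) _
          · rw [R.a_ar p q x hq, map_zero, smul_zero]
        rw [h2, sub_self]
    exact sub_eq_zero.1 h1

theorem BRK_all (R : Rp M K) (U : Set P) (k₀ : ℕ) (u : P) (hR : R.Good U)
    (hsc : ∀ p, R.sc p = ind {u} p) (hN : NoCut M U k₀) : ∀ j, j ≤ k₀ → BRK_B R j := by
  intro j
  induction j with
  | zero => exact fun _ => BRK_base R u hsc 0 (Nat.zero_le _)
  | succ j ih =>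
    intro hj
    by_cases h : j + 1 ≤ M.lv u
    · exact BRK_base R u hsc (j + 1) h
    · exact BRK_step R U k₀ u hR hsc hN j (by omega) hj (ih (by omega))

theorem BRK_conc (R : Rp M K) (r : P) (hB : BRK_B R (M.lv r + 1)) : R.Onto r ∨ R.Conc r := by
  classical
  by_cases h : R.Onto r
  · exact Or.inl h
  · right
    unfold Rp.Onto at h
    push Not at h
    obtain ⟨y, hy1, hy2⟩ := h
    have hyI : y ∉ LinearMap.range (R.e r ∘ₗ R.a) := by
      rintro ⟨x, hx⟩
      exact hy2 x hx
    obtain ⟨φ, hφ1, hφ2⟩ := Submodule.exists_le_ker_of_notMem hyI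
    have hφ0 : ∀ x, φ (R.e r (R.a x)) = 0 := fun x => hφ2 ⟨x, rfl⟩
    let f : R.T →ₗ[K] R.T := (φ ∘ₗ R.e r).smulRight y
    have hf : ∀ x, f x = φ (R.e r x) • y := fun x => rfl
    obtain ⟨c, hc⟩ := hB f (by
      intro p x
      rw [hf, hf, map_smul]
      by_cases hp : p = r
      · subst hp
        rw [R.e_e, hy1]
      · rw [R.e_ne r p x (Ne.symm hp), map_zero, zero_smul]
        have h1 : R.e p y = 0 := by
          rw [← hy1]
          exact R.e_ne p r y hp
        rw [h1, smul_zero]) (by
      intro p hp x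
      have hpr : r ≠ p := by
        rintro rfl
        omega
      rw [hf, hf, hφ0, zero_smul, R.e_ne r p x hpr, map_zero, zero_smul, map_zero])
    have hy0 : y ≠ 0 := by
      intro h1
      exact hφ1 (by rw [h1, map_zero])
    have hc1 : c ≠ 0 := by
      intro h1
      have h2 := hc r (Or.inl rfl) y
      rw [hf, hy1, hy1, h1, zero_smul] at h2
      exact (smul_ne_zero hφ1 hy0) h2
    intro p hpr hp
    have hz : ∀ x, R.e p x = 0 := by
      intro x
      have h1 := hc p (by omega) x
      rw [hf, R.e_ne r p x (Ne.symm hpr), map_zero, zero_smul] at h1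
      exact (smul_eq_zero.1 h1.symm).resolve_left hc1
    have h2 : LinearMap.range (R.e p) = ⊥ := by
      rw [LinearMap.range_eq_bot]
      apply LinearMap.ext
      intro x
      exact hz x
    unfold Rp.dm
    rw [h2, finrank_bot]

theorem BRK_holds : S_BRK := by
  intro P _ M K _ R U k₀ u hR hsc hu hN
  have hB := BRK_all R U k₀ u hR hsc hN
  refine ⟨?_, ?_⟩
  · intro k hk f hf1 hf2
    obtain ⟨c, hc⟩ := hB (k + 1) hk f hf1 hf2
    refine ⟨c, ?_⟩
    intro p hp x
    exact hc p (by omega) x
  · intro r hr hk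
    exact BRK_conc R r (hB (M.lv r + 1) (by omega))

end Pool.Agent.Lib.MP_4c1f79_al
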