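import Pool.Agent.Lib.MP_4c1f79_al.StmB

/-!
# [CCD] The canonical counts and dimensions
-/

set_option autoImplicit false

namespace Pool.Agent.Lib.MP_4c1f79_al

open Finset Module

theorem CCD_holds (hUNI : S_UNI) (hISO : S_ISO) : S_CCD := by
  intro P _ M s K _ D U hA m N hN
  have h : ∃ N : FM M s K D, N.GT U m := ⟨N, hN⟩
  have h1 : N.Iso h.choose := hUNI P M s K D U hA m N h.choose hN h.choose_spec
  have h2 := (hISO P M s K D).1 N h.choose h1
  refine ⟨fun d => ?_, ?_⟩
  · unfold Cc
    rw [dif_pos h]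
    exact h2.1 d
  · unfold Dd
    rw [dif_pos h]
    funext p
    exact h2.2.1 p

end Pool.Agent.Lib.MP_4c1f79_al
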