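import Pool.Agent.Lib.MP_4c1f79_al.StmE

/-!
# MP_4c1f79_al : piece COA (the core lemma with a common summand)
-/

set_option autoImplicit false

namespace Pool.Agent.Lib.MP_4c1f79_al

open Finset Module

/-- all sums of members of finite sets lie in a finite set -/
private theorem coa_sums {ι : Type} (B : Finset ι) (C : ι → Finset (Polynomial ℕ)) :
    ∃ Fs : Finset (Polynomial ℕ), ∀ c : ι → Polynomial ℕ, (∀ i ∈ B, c i ∈ C i) →
      ∑ i ∈ B, c i ∈ Fs := by
  classical
  induction B using Finset.induction_on with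
  | empty => exact ⟨{0}, fun c _ => by simp⟩
  | insert i B hi ih =>
    obtain ⟨Fs, hFs⟩ := ih
    refine ⟨Finset.image₂ (· + ·) (C i) Fs, fun c hc => ?_⟩
    rw [Finset.sum_insert hi]
    exact Finset.mem_image₂_of_mem (hc i (Finset.mem_insert_self i B))
      (hFs c fun j hj => hc j (Finset.mem_insert_of_mem hj))

private theorem coa_cntP {P : Type} [Fintype P] {M : Mesh P} {s : Equiv.Perm P} {K : Type}
    [Field K] {D : Fd K} (N : FM M s K D) (d : P → ℕ) : N.cntP (fun _ => True) d = N.cnt d := by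
  rw [FM.cntP, FM.cnt]
  exact Nat.card_congr (Equiv.subtypeEquivRight fun W => by simp)

private theorem coa_cntP2 {P : Type} [Fintype P] {M : Mesh P} {s : Equiv.Perm P} {K : Type}
    [Field K] {D : Fd K} (N : FM M s K D) (d : P → ℕ) :
    N.cntP (fun _ => True ∧ True) d = N.cnt d := by
  rw [FM.cntP, FM.cnt]
  exact Nat.card_congr (Equiv.subtypeEquivRight fun W => by simp)

/-- the Euler form does not see a change of the left argument at `a`, if the right argument
vanishes up to the level of `a` -/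
private theorem coa_eul {P : Type} [Fintype P] (M : Mesh P) (a : P) (x x' y : P → ℤ)
    (hx : ∀ p, p ≠ a → x p = x' p) (hy : ∀ p, M.lv p ≤ M.lv a → y p = 0) :
    eul M x y = eul M x' y := by
  classical
  rw [eul, eul]
  congr 1
  · congr 1
    · refine Finset.sum_congr rfl fun p _ => ?_
      by_cases hp : p = a
      · rw [hp, hy a le_rfl, mul_zero, mul_zero]
      · rw [hx p hp]
    · refine Finset.sum_congr rfl fun p _ => Finset.sum_congr rfl fun q _ => ?_
      by_cases hp : p = a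
      · by_cases h : M.Ar p q
        · have h1 := M.lv_ar p q h
          rw [hp] at h1
          rw [hy q (by omega), mul_zero, mul_zero]
        · rw [if_neg h, if_neg h]
      · rw [hx p hp]
  · refine Finset.sum_congr rfl fun p _ => Finset.sum_congr rfl fun q _ => ?_
    by_cases hp : p = a
    · by_cases h : M.Tau p q
      · have h1 := M.lv_tau p q h
        rw [hp] at h1
        rw [hy q (by omega), mul_zero, mul_zero]
      · rw [if_neg h, if_neg h]
    · rw [hx p hp]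

/-- no sub has a nonzero dimension at a position where the module vanishes -/
private theorem coa_cnt0 {P : Type} [Fintype P] {M : Mesh P} {s : Equiv.Perm P} {K : Type}
    [Field K] {D : Fd K} (N : FM M s K D) (d : P → ℕ) (p : P) (h : N.toRp.dm p = 0)
    (hd : d p ≠ 0) : N.cnt d = 0 := by
  rw [FM.cnt]
  have : IsEmpty {W : Submodule K N.T // N.St W ∧ ∀ p, N.toRp.dmS W p = d p} := by
    refine ⟨fun W => hd ?_⟩
    rw [← W.2.2 p]
    have h1 : N.toRp.dmS W.1 p ≤ N.toRp.dm p := by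
      rw [Rp.dmS, Rp.dm]
      apply Submodule.finrank_mono
      exact LinearMap.map_le_range
    omega
  exact Nat.card_of_isEmpty

private theorem coa_ind_same {P : Type} (a : P) : ind {a} a = 1 := by
  rw [ind, Set.indicator_of_mem (Set.mem_singleton a)]
  rfl

private theorem coa_ind_ne {P : Type} {a p : P} (h : p ≠ a) : ind {a} p = 0 := by
  rw [ind, Set.indicator_of_notMem]
  exact h

private theorem coa_ind_s {P : Type} (s : Equiv.Perm P) (a : P) (h : s a = a) (p : P) :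
    ind {a} (s p) = ind {a} p := by
  by_cases hp : p = a
  · rw [hp, h]
  · rw [coa_ind_ne hp, coa_ind_ne]
    intro h1
    exact hp (s.injective (h1.trans h.symm))

theorem COA_holds (hCOR : S_COR) (hSPC : S_SPC) (hUNI : S_UNI) (hEXM : S_EXM) (hISO : S_ISO)
    (hBND : S_BND) (hDQ2 : S_DQ2) : S_COA := by
  classical
  intro P _ M s r U a b x hA hC hdm1 m hms hmU hmlv hPm hPab d
  have hlb : M.lv b = M.lv a + 2 := M.lv_tau b a hC.tau
  have hlx : M.lv x = M.lv a + 1 := by
    have h1 := M.lv_ar b x hC.ar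
    omega
  by_cases hda : d a = 0
  swap
  · -- the case `d a ≠ 0`
    obtain ⟨Fs, hFs⟩ := hPab fun p => d p + ind {a} p
    refine ⟨Fs, fun K _ D hr N N' hN hN' => ?_⟩
    obtain ⟨f, hf, hf2⟩ := hFs K D hr N hN
    refine ⟨f, hf, ?_⟩
    have h0 : N'.toRp.dm a = 0 := by
      refine (hBND P M).2 K N'.toRp (M.lv a + 1) (fun p hp => ?_) a (by omega)
      rw [hN'.2]
      have h1 : m p = 0 := by
        by_contra h
        have := hmlv p h
        omega
      have h2 : ind {x} p = 0 := by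
        apply coa_ind_ne
        rintro rfl
        omega
      show m p + ind {x} p = 0
      rw [h1, h2]
    rw [hf2, coa_cnt0 N' d a h0 hda, zero_add]
  -- the case `d a = 0`
  obtain ⟨bd, hbd⟩ := (hBND P M).1 m
  choose F hF using hPm
  have hcor : ∀ d₁ : P → ℕ, ∃ Fs : Finset (Polynomial ℕ), ∀ (K : Type) [Field K] (D : Fd K),
    D.r = r → ∀ Na Nb Nx : FM M s K D, Na.GT U (ind {a}) → Nb.GT U (ind {b}) →
    Nx.GT U (ind {x}) → ∃ f ∈ Fs,
    (Na.prod Nb).cnt (fun p => (d - d₁) p + ind {a} p) = Nx.cnt (d - d₁) + f.eval D.q := by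
    intro d₁
    refine hCOR P M s r U a b x hA hC hdm1 (d - d₁) ?_
    rw [Pi.sub_apply, hda, Nat.zero_sub]
  choose G hG using hcor
  obtain ⟨B, hB⟩ : ∃ B : Finset (P → ℕ), B = (box d).filter
    (fun d₁ => ∀ p, M.lv p ≤ M.lv a → d₁ p = 0) := ⟨_, rfl⟩
  have hBmem : ∀ d₁, d₁ ∈ B ↔ d₁ ≤ d ∧ ∀ p, M.lv p ≤ M.lv a → d₁ p = 0 := by
    intro d₁
    rw [hB, Finset.mem_filter, mem_box]
  obtain ⟨Fs, hFs⟩ := coa_sums B fun d₁ =>
    Finset.image₂ (fun (v : P → ℕ) (c : Polynomial ℕ) =>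
      Polynomial.X ^ (eul M (fun p => (d p : ℤ) - (d₁ p : ℤ))
        (fun p => (v p : ℤ) - (d₁ p : ℤ))).toNat * c) (box bd)
      (Finset.image₂ (· * ·) (F d₁) (G d₁))
  refine ⟨Fs, fun K _ D hr N N' hN hN' => ?_⟩
  have hA' : Adm M s D.r U := hr ▸ hA
  obtain ⟨A, hAg⟩ := hEXM P M s K D U hA' m hms hmU
  obtain ⟨Na, hNa⟩ := hEXM P M s K D U hA' (ind {a}) (coa_ind_s s a hC.sa)
    (fun p hp => coa_ind_ne (by rintro rfl; exact hp hC.ua))
  obtain ⟨Nb, hNb⟩ := hEXM P M s K D U hA' (ind {b}) (coa_ind_s s b hC.sb)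
    (fun p hp => coa_ind_ne (by rintro rfl; exact hp hC.ub))
  obtain ⟨Nx, hNx⟩ := hEXM P M s K D U hA' (ind {x}) (coa_ind_s s x hC.sx)
    (fun p hp => coa_ind_ne (by rintro rfl; exact hp hC.ux))
  obtain ⟨-, hq2, hq3, -, -⟩ := hDQ2 P M K
  have hab : (Na.prod Nb).GT U (fun p => ind {a} p + ind {b} p) := by
    refine ⟨hq3 _ _ U hNa.1 hNb.1, fun p => ?_⟩
    have h1 := hq2 Na.toRp Nb.toRp p
    rw [hNa.2, hNb.2] at h1
    exact h1
  have hP1 : (A.prod (Na.prod Nb)).GT U (fun p => m p + ind {a} p + ind {b} p) := by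
    refine ⟨hq3 _ _ U hAg.1 hab.1, fun p => ?_⟩
    have h1 := hq2 A.toRp (Na.prod Nb).toRp p
    rw [hAg.2, hab.2, ← add_assoc] at h1
    exact h1
  have hP2 : (A.prod Nx).GT U (fun p => m p + ind {x} p) := by
    refine ⟨hq3 _ _ U hAg.1 hNx.1, fun p => ?_⟩
    have h1 := hq2 A.toRp Nx.toRp p
    rw [hAg.2, hNx.2] at h1
    exact h1
  have hi1 : N.Iso (A.prod (Na.prod Nb)) := hUNI P M s K D U hA' _ _ _ hN hP1
  have hi2 : N'.Iso (A.prod Nx) := hUNI P M s K D U hA' _ _ _ hN' hP2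
  have hA0 : ∀ p, M.lv p ≤ M.lv a → A.toRp.dm p = 0 := by
    intro p hp
    refine (hBND P M).2 K A.toRp (M.lv a + 1) (fun q hq => ?_) p (by omega)
    rw [hAg.2]
    by_contra h
    have := hmlv q h
    omega
  have hT1 : ∀ p r, M.Tau p r → (Na.prod Nb).toRp.sc p ≠ 0 → A.toRp.dm r = 0 := by
    intro p r hpr hsc
    apply hA0
    have h1 := M.lv_tau p r hpr
    have h2 : p = a ∨ p = b := by
      by_contra h
      push Not at h
      apply hsc
      rw [hab.2]
      show ind {a} p + ind {b} p = 0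
      rw [coa_ind_ne h.1, coa_ind_ne h.2]
    rcases h2 with rfl | rfl <;> omega
  have hT2 : ∀ p r, M.Tau p r → Nx.toRp.sc p ≠ 0 → A.toRp.dm r = 0 := by
    intro p r hpr hsc
    apply hA0
    have h1 := M.lv_tau p r hpr
    have h2 : p = x := by
      by_contra h
      apply hsc
      rw [hNx.2, coa_ind_ne h]
    rw [h2] at h1
    omega
  have key1 := (hSPC P M s K D A (Na.prod Nb) U hAg.1 hab.1.1 hT1 (fun _ => True)
    (fun _ => True) (fun p => d p + ind {a} p)).1
  have key2 := (hSPC P M s K D A Nx U hAg.1 hNx.1.1 hT2 (fun _ => True)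
    (fun _ => True) d).1
  rw [coa_cntP2] at key1 key2
  simp only [coa_cntP] at key1 key2
  -- restrict both sums to `B`
  have hA1 : ∀ d₁ : P → ℕ, ¬ (∀ p, M.lv p ≤ M.lv a → d₁ p = 0) → A.cnt d₁ = 0 := by
    intro d₁ h
    push Not at h
    obtain ⟨p, hp, hp2⟩ := h
    exact coa_cnt0 A d₁ p (hA0 p hp) hp2
  have hB1 : B ⊆ box (fun p => d p + ind {a} p) := by
    intro d₁ h
    rw [mem_box]
    intro p
    exact le_trans (((hBmem d₁).1 h).1 p) (Nat.le_add_right _ _)
  have hB2 : B ⊆ box d := by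
    intro d₁ h
    rw [mem_box]
    exact ((hBmem d₁).1 h).1
  rw [← Finset.sum_subset hB1 (fun d₁ h1 h2 => by
    rw [hA1 d₁ (fun h3 => h2 ((hBmem d₁).2 ⟨fun p => ?_, h3⟩)), zero_mul, mul_zero]
    rw [mem_box] at h1
    by_cases hp : p = a
    · rw [hp, h3 a le_rfl]
      exact Nat.zero_le _
    · have h4 := h1 p
      have h5 : d₁ p ≤ d p + ind {a} p := h4
      rw [coa_ind_ne hp] at h5
      exact h5)] at key1
  rw [← Finset.sum_subset hB2 (fun d₁ h1 h2 => by
    rw [hA1 d₁ (fun h3 => h2 ((hBmem d₁).2 ⟨mem_box.1 h1, h3⟩)), zero_mul, mul_zero])] at key2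
  choose f hf hf2 using fun d₁ => hF d₁ K D hr A hAg
  choose g hg hg2 using fun d₁ => hG d₁ K D hr Na Nb Nx hNa hNb hNx
  refine ⟨∑ d₁ ∈ B, Polynomial.X ^ (eul M (fun p => (d p : ℤ) - (d₁ p : ℤ))
        (fun p => (A.toRp.dm p : ℤ) - (d₁ p : ℤ))).toNat * (f d₁ * g d₁), ?_, ?_⟩
  · apply hFs
    intro d₁ _
    have hdm : A.toRp.dm ∈ box bd := by
      rw [mem_box]
      exact hbd K A.toRp fun p => (hAg.2 p).le
    exact Finset.mem_image₂_of_mem (f := fun (v : P → ℕ) (c : Polynomial ℕ) =>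
      Polynomial.X ^ (eul M (fun p => (d p : ℤ) - (d₁ p : ℤ))
        (fun p => (v p : ℤ) - (d₁ p : ℤ))).toNat * c) hdm
        (Finset.mem_image₂_of_mem (hf d₁) (hg d₁))
  · rw [((hISO P M s K D).1 _ _ hi1).1, ((hISO P M s K D).1 _ _ hi2).1, key1, key2,
      Polynomial.eval_finsetSum, ← Finset.sum_add_distrib]
    refine Finset.sum_congr rfl fun d₁ hd₁ => ?_
    obtain ⟨hle, hz⟩ := (hBmem d₁).1 hd₁
    rw [Polynomial.eval_mul, Polynomial.eval_mul, Polynomial.eval_pow, Polynomial.eval_X]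
    have he : eul M (fun p => ((d p + ind {a} p : ℕ) : ℤ) - (d₁ p : ℤ))
        (fun p => (A.toRp.dm p : ℤ) - (d₁ p : ℤ))
        = eul M (fun p => (d p : ℤ) - (d₁ p : ℤ))
        (fun p => (A.toRp.dm p : ℤ) - (d₁ p : ℤ)) := by
      apply coa_eul M a
      · intro p hp
        show ((d p + ind {a} p : ℕ) : ℤ) - (d₁ p : ℤ) = (d p : ℤ) - (d₁ p : ℤ)
        rw [coa_ind_ne hp, add_zero]
      · intro p hp
        show (A.toRp.dm p : ℤ) - (d₁ p : ℤ) = 0
        rw [hA0 p hp, hz p hp]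
        simp
    have hs : (fun p => d p + ind {a} p) - d₁ = fun p => (d - d₁) p + ind {a} p := by
      funext p
      show d p + ind {a} p - d₁ p = d p - d₁ p + ind {a} p
      have h1 : d₁ p ≤ d p := hle p
      omega
    rw [he, hs, hg2, ← hf2]
    ring

end Pool.Agent.Lib.MP_4c1f79_al
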