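import Pool.Agent.Lib.MP_4c1f79_al.StmE

/-!
# MP_4c1f79_al, piece [CR1]: structure of the modules with socle `a`, `b`, `x`
-/

set_option autoImplicit false

namespace Pool.Agent.Lib.MP_4c1f79_al

open Finset Module

namespace CR1p

variable {P : Type} [Fintype P] {M : Mesh P} {s : Equiv.Perm P} {K : Type} [Field K] {D : Fd K}

theorem ind_self (a : P) : ind ({a} : Set P) a = 1 := by simp [ind]

theorem ind_ne {a p : P} (h : p ≠ a) : ind ({a} : Set P) p = 0 := by simp [ind, h]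

/-! ### Isomorphisms -/

theorem comp_mem {X Y Z : FM M s K D} {g : Y.T →ₗ[K] Z.T} {f : X.T →ₗ[K] Y.T}
    (hg : g ∈ FM.HmF Y Z) (hf : f ∈ FM.HmF X Y) : g.comp f ∈ FM.HmF X Z := by
  refine ⟨⟨fun p x => ?_, fun x => ?_⟩, fun x => ?_⟩
  · show g (f (X.e p x)) = Z.e p (g (f x))
    rw [hf.1.1, hg.1.1]
  · show g (f (X.a x)) = Z.a (g (f x))
    rw [hf.1.2, hg.1.2]
  · show g (f (X.F x)) = Z.F (g (f x))
    rw [hf.2, hg.2]

theorem iso_trans {X Y Z : FM M s K D} (h : X.Iso Y) (h' : Y.Iso Z) : X.Iso Z := by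
  obtain ⟨f, hf, bf⟩ := h
  obtain ⟨g, hg, bg⟩ := h'
  exact ⟨g.comp f, comp_mem hg hf, bg.comp bf⟩

theorem sub_eq {N Y : FM M s K D} {Z Z' : Submodule K N.T} (h : Z = Z') (hZ : N.St Z)
    (hZ' : N.St Z') (i : (N.sub Z hZ).Iso Y) : (N.sub Z' hZ').Iso Y := by
  subst h
  exact i

theorem quo_eq {N Y : FM M s K D} {Z Z' : Submodule K N.T} (h : Z = Z') (hZ : N.St Z)
    (hZ' : N.St Z') (i : Y.Iso (N.quo Z hZ)) : Y.Iso (N.quo Z' hZ') := by
  subst h
  exact i

/-- projection -/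
def pr (X : FM M s K D) (V : Submodule K X.T) (hV : X.St V) : X.T →ₗ[K] (X.quo V hV).T := V.mkQ

/-- the projection to a quotient is a morphism -/
theorem pr_mem (X : FM M s K D) (V : Submodule K X.T) (hV : X.St V) :
    pr X V hV ∈ FM.HmF X (X.quo V hV) :=
  ⟨⟨fun _ _ => rfl, fun _ => rfl⟩, fun _ => rfl⟩

theorem pr_zero (X : FM M s K D) (V : Submodule K X.T) (hV : X.St V) (y : X.T) :
    pr X V hV y = 0 ↔ y ∈ V := Submodule.Quotient.mk_eq_zero _

theorem pr_surj (X : FM M s K D) (V : Submodule K X.T) (hV : X.St V) :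
    Function.Surjective (pr X V hV) := Submodule.mkQ_surjective _

theorem iso_bot (N : FM M s K D) (S O : Submodule K N.T) (hS : N.St S) (hO : N.St O)
    (h : S = ⊥) : (N.sub O hO).Iso (N.subq S O hS hO) := by
  refine ⟨pr (N.sub O hO) (S.comap O.subtype) (FM.St.comap hO hS), pr_mem _ _ _, ?_,
    pr_surj _ _ _⟩
  rw [injective_iff_map_eq_zero]
  intro y hy
  have h1 : y ∈ S.comap O.subtype := (pr_zero _ _ _ y).mp hy
  have h2 : y.1 ∈ S := h1
  rw [h, Submodule.mem_bot] at h2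
  exact Subtype.ext h2

theorem iso_top (N : FM M s K D) (S O : Submodule K N.T) (hS : N.St S) (hO : N.St O)
    (h : O = ⊤) : (N.subq S O hS hO).Iso (N.quo S hS) := by
  subst h
  have hc : (S.comap (⊤ : Submodule K N.T).subtype) ≤ S.comap (⊤ : Submodule K N.T).subtype :=
    le_rfl
  refine ⟨(Submodule.mapQ (S.comap (⊤ : Submodule K N.T).subtype) S
    (⊤ : Submodule K N.T).subtype hc : (N.subq S ⊤ hS hO).T →ₗ[K] (N.quo S hS).T),
    ⟨⟨fun p x => ?_, fun x => ?_⟩, fun x => ?_⟩, ?_, ?_⟩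
  · obtain ⟨x, rfl⟩ := Submodule.mkQ_surjective _ x
    rfl
  · obtain ⟨x, rfl⟩ := Submodule.mkQ_surjective _ x
    rfl
  · obtain ⟨x, rfl⟩ := Submodule.mkQ_surjective _ x
    rfl
  · intro x y hxy
    obtain ⟨x, rfl⟩ := Submodule.mkQ_surjective _ x
    obtain ⟨y, rfl⟩ := Submodule.mkQ_surjective _ y
    have h1 : S.mkQ x.1 = S.mkQ y.1 := hxy
    have h2 : x.1 - y.1 ∈ S := (Submodule.Quotient.eq S).mp h1
    exact (Submodule.Quotient.eq _).mpr h2
  · intro y
    obtain ⟨y, rfl⟩ := Submodule.mkQ_surjective _ y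
    exact ⟨Submodule.mkQ _ ⟨y, trivial⟩, rfl⟩

/-! ### Representations with simple socle -/

theorem a_single (R : Rp M K) (p x₀ : P) (z : R.T) (hz : R.e p z = z)
    (h : ∀ q, M.Ar p q → q ≠ x₀ → ∀ y, R.e q y = 0) : R.a z = R.e x₀ (R.a z) := by
  classical
  have h1 := R.e_sum (R.a z)
  rw [Finset.sum_eq_single x₀] at h1
  · exact h1.symm
  · intro q _ hq
    by_cases hA : M.Ar p q
    · exact h q hA hq _
    · rw [← hz]
      exact R.a_ar p q z hA
  · intro h2
    exact absurd (Finset.mem_univ _) h2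

theorem a_none (R : Rp M K) (p : P) (z : R.T) (hz : R.e p z = z)
    (h : ∀ q, M.Ar p q → ∀ y, R.e q y = 0) : R.a z = 0 := by
  classical
  rw [← R.e_sum (R.a z)]
  apply Finset.sum_eq_zero
  intro q _
  by_cases hA : M.Ar p q
  · exact h q hA _
  · rw [← hz]
    exact R.a_ar p q z hA

theorem low (hBND : S_BND) (hDQ3 : S_DQ3) (R : Rp M K) (u : P)
    (hs : ∀ p, R.sc p = ind {u} p) (p : P) (hp : M.lv p < M.lv u) : ∀ y, R.e p y = 0 := by
  have h1 := (hBND P M).2 K R (M.lv u) (fun q hq => by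
    rw [hs q]
    apply ind_ne
    rintro rfl
    exact lt_irrefl _ hq) p hp
  exact ((hDQ3 P M K).2.2.2.1 R p).mp h1

theorem a_u (hBND : S_BND) (hDQ3 : S_DQ3) (R : Rp M K) (u : P)
    (hs : ∀ p, R.sc p = ind {u} p) (y : R.T) : R.a (R.e u y) = 0 := by
  apply a_none R u _ (R.e_e u y)
  intro q hq
  apply low hBND hDQ3 R u hs
  have := M.lv_ar u q hq
  omega

theorem dm_u (hBND : S_BND) (hDQ3 : S_DQ3) (R : Rp M K) (u : P)
    (hs : ∀ p, R.sc p = ind {u} p) : R.dm u = 1 := by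
  have h1 := hs u
  rw [ind_self] at h1
  rw [← h1]
  unfold Rp.dm Rp.sc
  rw [inf_eq_left.mpr]
  rintro _ ⟨y, rfl⟩
  exact a_u hBND hDQ3 R u hs y

/-- no socle at `p`: `a` is injective there -/
theorem inj_at (hDQ3 : S_DQ3) (R : Rp M K) (p : P) (h : R.sc p = 0) (x : R.T)
    (hx : R.e p x = x) (ha : R.a x = 0) : x = 0 :=
  ((hDQ3 P M K).2.2.2.2.1 R p).mp h x hx ha

/-- the positions of level `lv u` other than `u` are zero -/
theorem lev (hBND : S_BND) (hDQ3 : S_DQ3) (R : Rp M K) (u : P)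
    (hs : ∀ p, R.sc p = ind {u} p) (p : P) (hp : M.lv p = M.lv u) (hne : p ≠ u) :
    ∀ y, R.e p y = 0 := by
  intro y
  apply inj_at hDQ3 R p (by rw [hs p, ind_ne hne]) _ (R.e_e p y)
  apply a_none R p _ (R.e_e p y)
  intro q hq
  apply low hBND hDQ3 R u hs
  have := M.lv_ar p q hq
  omega

theorem st_range (N : FM M s K D) (u : P) (hu : s u = u) (ha : ∀ y, N.a (N.e u y) = 0) :
    N.St (LinearMap.range (N.e u)) := by
  refine ⟨⟨?_, ?_⟩, ?_⟩
  · rintro p _ ⟨y, rfl⟩
    by_cases hp : p = u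
    · subst hp
      exact ⟨N.e p y, rfl⟩
    · rw [N.e_ne p u y hp]
      exact Submodule.zero_mem _
  · rintro _ ⟨y, rfl⟩
    rw [ha y]
    exact Submodule.zero_mem _
  · rintro _ ⟨y, rfl⟩
    rw [N.F_e u y, hu]
    exact ⟨N.F y, rfl⟩

theorem st_bot (N : FM M s K D) : N.St ⊥ := by
  refine ⟨⟨?_, ?_⟩, ?_⟩
  · intro p x hx
    rw [(Submodule.mem_bot K).mp hx, map_zero]
    exact Submodule.zero_mem _
  · intro x hx
    rw [(Submodule.mem_bot K).mp hx, map_zero]
    exact Submodule.zero_mem _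
  · intro x hx
    rw [(Submodule.mem_bot K).mp hx, map_zero]
    exact Submodule.zero_mem _

theorem st_top (N : FM M s K D) : N.St ⊤ :=
  ⟨⟨fun _ _ _ => trivial, fun _ _ => trivial⟩, fun _ _ => trivial⟩

theorem map_ne (R : Rp M K) (u p : P) (h : p ≠ u) :
    (LinearMap.range (R.e u)).map (R.e p) = ⊥ := by
  rw [eq_bot_iff]
  rintro _ ⟨_, ⟨y, rfl⟩, rfl⟩
  rw [R.e_ne p u y h]
  exact Submodule.zero_mem _

theorem map_self (R : Rp M K) (u : P) :
    (LinearMap.range (R.e u)).map (R.e u) = LinearMap.range (R.e u) := by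
  apply le_antisymm
  · rintro _ ⟨_, ⟨y, rfl⟩, rfl⟩
    exact ⟨_, rfl⟩
  · rintro _ ⟨y, rfl⟩
    exact ⟨R.e u y, ⟨y, rfl⟩, R.e_e u y⟩

theorem dmS_range (R : Rp M K) (u : P) (h : R.dm u = 1) (p : P) :
    R.dmS (LinearMap.range (R.e u)) p = ind {u} p := by
  by_cases hp : p = u
  · subst hp
    rw [ind_self]
    unfold Rp.dmS
    rw [map_self]
    exact h
  · rw [ind_ne hp]
    unfold Rp.dmS
    rw [map_ne R u p hp]
    exact finrank_bot K R.T

theorem orb_single (b : P) (hb : s b = b) : Orb s ({b} : Set P) := by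
  refine ⟨b, ?_⟩
  ext x
  constructor
  · intro hx
    exact ⟨0, hx⟩
  · rintro ⟨i, rfl⟩
    exact Function.iterate_fixed hb i

/-- `⟨1_u, 1_a⟩` at positions `u` of `U` other than `a` and `b`. -/
theorem eul_ind (U : Set P) (a b x : P) (hc : Cfg M s U a b x) (u : P) (hu : u ∈ U)
    (ha : u ≠ a) (hb : u ≠ b) : eulN M (ind {u}) (ind {a}) = - (ind {x} u : ℤ) := by
  classical
  unfold eulN eul
  have h1 : ∑ p, (ind ({u} : Set P) p : ℤ) * (ind ({a} : Set P) p : ℤ) = 0 := by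
    apply Finset.sum_eq_zero
    intro p _
    by_cases hp : p = u
    · subst hp
      rw [ind_ne ha]
      simp
    · rw [ind_ne hp]
      simp
  have h2 : ∑ p, ∑ q, (if M.Ar p q then (ind ({u} : Set P) p : ℤ) * (ind ({a} : Set P) q : ℤ)
      else 0) = if M.Ar u a then 1 else 0 := by
    rw [Finset.sum_eq_single u, Finset.sum_eq_single a]
    · rw [ind_self, ind_self]
      simp
    · intro q _ hq
      rw [ind_ne hq]
      simp
    · intro h
      exact absurd (Finset.mem_univ _) h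
    · intro p _ hp
      apply Finset.sum_eq_zero
      intro q _
      rw [ind_ne hp]
      simp
    · intro h
      exact absurd (Finset.mem_univ _) h
  have h3 : ∑ p, ∑ q, (if M.Tau p q then (ind ({u} : Set P) p : ℤ) * (ind ({a} : Set P) q : ℤ)
      else 0) = 0 := by
    apply Finset.sum_eq_zero
    intro p _
    apply Finset.sum_eq_zero
    intro q _
    by_cases hp : p = u
    · by_cases hq : q = a
      · subst hp hq
        rw [if_neg]
        intro hT
        exact hb (M.tau_inj p b q hT hc.tau)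
      · rw [ind_ne hq]
        simp
    · rw [ind_ne hp]
      simp
  rw [h1, h2, h3]
  by_cases hx : u = x
  · subst hx
    rw [ind_self, if_pos ((M.mesh_ar b a u hc.tau).mp hc.ar)]
    simp
  · rw [ind_ne hx, if_neg]
    · simp
    · intro hA
      exact hx (hc.pred u hu hA)

end CR1p

open CR1p

theorem CR1_holds (hGC1 : S_GC1) (hGC2 : S_GC2) (hGC3 : S_GC3) (hUNI : S_UNI) (hEMB : S_EMB)
    (hBND : S_BND) (hDQ1 : S_DQ1) (hDQ3 : S_DQ3) : S_CR1 := by
  intro P _ M s K _ D U a b x hadm hc Na Nb Nx hNa hNb hNx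
  classical
  -- levels
  have lb : M.lv b = M.lv a + 2 := M.lv_tau b a hc.tau
  have lx : M.lv b = M.lv x + 1 := M.lv_ar b x hc.ar
  have hab : a ≠ b := fun h => by rw [h] at lb; omega
  have hxa : x ≠ a := fun h => by rw [h] at lx; omega
  have hxb : x ≠ b := fun h => by rw [h] at lx; omega
  have outU : ∀ N : FM M s K D, N.toRp.Good U → ∀ p, p ∉ U → ∀ y, N.e p y = 0 :=
    fun N h p hp y => h.1 p hp y
  -- facts on Na
  have aA : ∀ y, Na.a (Na.e a y) = 0 := a_u hBND hDQ3 Na.toRp a hNa.2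
  have Nax : ∀ z, Na.e x z = z → Na.e a (Na.a z) = 0 → z = 0 := by
    intro z hz h0
    apply inj_at hDQ3 Na.toRp x (by rw [hNa.2 x, ind_ne hxa]) z hz
    rw [a_single Na.toRp x a z hz]
    · exact h0
    · intro q hq hqa
      apply lev hBND hDQ3 Na.toRp a hNa.2 q _ hqa
      have := M.lv_ar x q hq
      omega
  have eb0 : ∀ y, Na.e b y = 0 := by
    intro y
    apply inj_at hDQ3 Na.toRp b (by rw [hNa.2 b, ind_ne hab.symm]) _ (Na.e_e b y)
    have h1 : Na.a (Na.e b y) = Na.e x (Na.a (Na.e b y)) := by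
      apply a_single Na.toRp b x _ (Na.e_e b y)
      intro q hq hqx
      apply outU Na hNa.1 q
      intro hqU
      exact hqx (hc.succ q hqU hq)
    rw [h1]
    apply Nax _ (Na.e_e x _)
    rw [← h1]
    exact Na.mesh b a y hc.tau
  have hB : Na.St (LinearMap.range (Na.e a)) := st_range Na a hc.sa aA
  have dmA : Na.toRp.dm a = 1 := dm_u hBND hDQ3 Na.toRp a hNa.2
  -- the restriction to {a, b}
  have rs : ∀ p, s p ∈ ({a, b} : Set P) ↔ p ∈ ({a, b} : Set P) := by
    intro p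
    constructor
    · rintro (h | h)
      · left
        exact s.injective (h.trans hc.sa.symm)
      · right
        exact s.injective (h.trans hc.sb.symm)
    · rintro (h | h)
      · left
        rw [h]
        exact hc.sa
      · right
        rw [h]
        exact hc.sb
  have hadm' : Adm M s D.r (U \ {a, b}) :=
    ⟨hadm.sym, hadm.per, fun p => by
      rw [Set.mem_diff, Set.mem_diff, hadm.stab p, rs p]⟩
  have grdA : Na.Grd {a, b} (LinearMap.range (Na.e a)) := by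
    refine ⟨hB.1.1, hB.2, ?_, rs⟩
    rintro p hp _ ⟨y, rfl⟩
    apply Na.e_ne p a y
    rintro rfl
    exact hp (Or.inl rfl)
  have grdX : Nx.Grd {a, b} ⊥ := by
    refine ⟨(st_bot Nx).1.1, (st_bot Nx).2, ?_, rs⟩
    intro p _ y hy
    rw [(Submodule.mem_bot K).mp hy, map_zero]
  obtain ⟨gA1, gA2, gA3, gA4, gA5, gA6, gA7, gA8, gA9, gA10, gA11⟩ := hGC1 P M s K D Na {a, b} _ grdA
  obtain ⟨gX1, gX2, gX3, gX4, gX5, gX6, gX7, gX8, gX9, gX10, gX11⟩ := hGC1 P M s K D Nx {a, b} _ grdX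
  have genA : Na.gen (LinearMap.range (Na.e a)) = LinearMap.range (Na.e a) :=
    le_antisymm (gA3 _ hB le_rfl) gA2
  have genX : Nx.gen ⊥ = ⊥ := le_antisymm (gX3 _ (st_bot Nx) le_rfl) gX2
  have cogA : Na.cog {a, b} (LinearMap.range (Na.e a)) = ⊤ := by
    rw [eq_top_iff]
    apply gA6 _ (st_top Na)
    rintro p (rfl | hp)
    · rintro _ ⟨y, _, rfl⟩
      exact ⟨Na.e p y, ⟨y, rfl⟩, Na.e_e p y⟩
    · rintro _ ⟨y, _, rfl⟩
      have hp' : p = b := hp
      rw [hp', eb0 y]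
      exact Submodule.zero_mem _
  have resA : Na.Res {a, b} (LinearMap.range (Na.e a)) (Na.gen (LinearMap.range (Na.e a))) := by
    intro p _
    rw [genA]
  have resX : Nx.Res {a, b} ⊥ (Nx.gen ⊥) := by
    intro p _
    rw [genX]
  have tauA : ∀ p ∈ U, p ∉ ({a, b} : Set P) → ∀ r ∈ ({a, b} : Set P), M.Tau p r →
      ∀ y ∈ LinearMap.range (Na.e a), Na.e r y = 0 := by
    rintro p _ hp r (rfl | hr) hT y hy
    · exact absurd (Or.inr (M.tau_inj p b r hT hc.tau)) hp
    · have hr' : r = b := hr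
      rw [hr']
      exact eb0 y
  have tauX : ∀ p ∈ U, p ∉ ({a, b} : Set P) → ∀ r ∈ ({a, b} : Set P), M.Tau p r →
      ∀ y ∈ (⊥ : Submodule K Nx.T), Nx.e r y = 0 := by
    intro p _ _ r _ _ y hy
    rw [(Submodule.mem_bot K).mp hy, map_zero]
  have goodA := hGC2 P M s K D Na U {a, b} _ grdA hNa.1 resA tauA gA1 gA4
  have goodX := hGC2 P M s K D Nx U {a, b} _ grdX hNx.1 resX tauX gX1 gX4
  obtain ⟨scA, dzA, -⟩ := hGC3 P M s K D Na U {a, b} _ grdA hNa.1 resA tauA gA1 gA4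
  obtain ⟨scX, dzX, dsX⟩ := hGC3 P M s K D Nx U {a, b} _ grdX hNx.1 resX tauX gX1 gX4
  -- socle of a module which vanishes at a position
  have sc0 : ∀ (R : Rp M K) (u : P), R.dm u = 0 → R.sc u = 0 := by
    intro R u h
    rw [(hDQ3 P M K).2.2.2.2.1]
    intro y hy _
    rw [← hy]
    exact ((hDQ3 P M K).2.2.2.1 R u).mp h y
  have indx : ∀ u, u ∉ U \ ({a, b} : Set P) → ind ({x} : Set P) u = 0 := by
    intro u hu
    apply ind_ne
    rintro rfl
    apply hu
    refine ⟨hc.ux, ?_⟩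
    rintro (h | h)
    · exact hxa h
    · exact hxb h
  have gtA : (Na.subq _ _ gA1 gA4).GT (U \ {a, b}) (ind {x}) := by
    refine ⟨goodA, fun u => ?_⟩
    by_cases hu : u ∈ U \ ({a, b} : Set P)
    · have h1 := scA u hu
      have hua : u ≠ a := fun h => hu.2 (Or.inl h)
      have hub : u ≠ b := fun h => hu.2 (Or.inr h)
      have h2 : Na.toRp.dmS (Na.gen (LinearMap.range (Na.e a))) = ind {a} := by
        funext p
        rw [genA]
        exact dmS_range Na.toRp a dmA p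
      rw [h2, eul_ind U a b x hc u hu.1 hua hub, hNa.2 u, ind_ne hua] at h1
      have h3 : ((Na.subq _ _ gA1 gA4).toRp.sc u : ℤ) = ((ind {x} u : ℕ) : ℤ) := by
        rw [h1]
        simp
      exact_mod_cast h3
    · rw [sc0 _ u (dzA u hu), indx u hu]
  have dbot : ∀ u, Nx.toRp.dmS (Nx.gen ⊥) u = 0 := by
    intro u
    rw [genX]
    unfold Rp.dmS
    rw [Submodule.map_bot]
    exact finrank_bot K Nx.T
  have gtX : (Nx.subq _ _ gX1 gX4).GT (U \ {a, b}) (ind {x}) := by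
    refine ⟨goodX, fun u => ?_⟩
    by_cases hu : u ∈ U \ ({a, b} : Set P)
    · have h1 := scX u hu
      have h2 : Nx.toRp.dmS (Nx.gen ⊥) = fun _ => 0 := funext dbot
      have h3 : eulN M (ind {u}) (fun _ => 0) = 0 := by
        unfold eulN eul
        simp
      rw [h2, h3, hNx.2 u] at h1
      have h4 : ((Nx.subq _ _ gX1 gX4).toRp.sc u : ℤ) = ((ind {x} u : ℕ) : ℤ) := by
        rw [h1]
        simp
      exact_mod_cast h4
    · rw [sc0 _ u (dzX u hu), indx u hu]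
  -- the isomorphism
  have iso1 : (Nx.sub (Nx.cog {a, b} ⊥) gX4).Iso (Na.quo (LinearMap.range (Na.e a)) hB) := by
    apply quo_eq genA gA1 hB
    exact iso_trans (iso_bot Nx _ _ gX1 gX4 genX)
      (iso_trans (hUNI P M s K D (U \ {a, b}) hadm' (ind {x}) _ _ gtX gtA)
        (iso_top Na _ _ gA1 gA4 cogA))
  -- facts on Nx
  have eXa : ∀ y, Nx.e a y = 0 := low hBND hDQ3 Nx.toRp x hNx.2 a (by omega)
  have aX : ∀ y, Nx.a (Nx.e x y) = 0 := a_u hBND hDQ3 Nx.toRp x hNx.2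
  have dmX : Nx.toRp.dm x = 1 := dm_u hBND hDQ3 Nx.toRp x hNx.2
  have xnot : x ∉ ({a, b} : Set P) := by
    rintro (h | h)
    · exact hxa h
    · exact hxb h
  have xZ : ∀ y, Nx.e x y ∈ Nx.cog {a, b} ⊥ := by
    intro y
    apply gX7 _ ⟨x, xnot, Nx.e_e x y⟩
    rw [aX y]
    exact Submodule.zero_mem _
  have bX : ∀ y, Nx.a (Nx.e b y) = Nx.e x (Nx.a (Nx.e b y)) := by
    intro y
    apply a_single Nx.toRp b x _ (Nx.e_e b y)
    intro q hq hqx
    apply outU Nx hNx.1 q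
    intro hqU
    exact hqx (hc.succ q hqU hq)
  -- Nx(b) is one-dimensional
  have dmXb : Nx.toRp.dm b = 1 := by
    rw [← dmX]
    have hmaps : ∀ y ∈ LinearMap.range (Nx.e b), Nx.a y ∈ LinearMap.range (Nx.e x) := by
      rintro _ ⟨y, rfl⟩
      rw [bX y]
      exact ⟨_, rfl⟩
    have hbij : Function.Bijective (Nx.a.restrict hmaps) := by
      constructor
      · rw [injective_iff_map_eq_zero]
        rintro ⟨y, hy⟩ h0
        obtain ⟨z, rfl⟩ := hy
        have h1 : Nx.a (Nx.e b z) = 0 := congrArg Subtype.val h0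
        apply Subtype.ext
        exact inj_at hDQ3 Nx.toRp b (by rw [hNx.2 b, ind_ne hxb.symm]) _ (Nx.e_e b z) h1
      · rintro ⟨_, ⟨y, rfl⟩⟩
        obtain ⟨z, hz1, hz2⟩ := hNx.1.2 b hc.ub (Nx.e x y)
          (fun q hq => by
            apply Nx.e_ne q x y
            rintro rfl
            exact hq hc.ar)
          (fun r _ => by rw [aX y, map_zero])
        exact ⟨⟨z, ⟨z, hz1⟩⟩, Subtype.ext hz2⟩
    exact (LinearEquiv.ofBijective _ hbij).finrank_eq
  -- the quotient Nx / Z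
  have zb : Nx.toRp.dmS (Nx.cog {a, b} ⊥) b = 0 := by
    have h1 := gX5 b (Or.inr rfl)
    rw [Submodule.map_bot, le_bot_iff] at h1
    unfold Rp.dmS
    rw [h1]
    exact finrank_bot K Nx.T
  have scQ : ∀ p, (Nx.quo (Nx.cog {a, b} ⊥) gX4).toRp.sc p = ind {b} p := by
    intro p
    by_cases hp : p = b
    · subst hp
      rw [ind_self]
      have h1 := (hDQ1 P M K).2.1 Nx.toRp (Nx.cog {a, p} ⊥) gX4.1 p
      rw [zb, dmXb, add_zero] at h1
      rw [← h1]
      have h3 : (LinearMap.range ((Nx.quo (Nx.cog {a, p} ⊥) gX4).e p) ⊓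
          LinearMap.ker (Nx.quo (Nx.cog {a, p} ⊥) gX4).a : Submodule K _)
          = LinearMap.range ((Nx.quo (Nx.cog {a, p} ⊥) gX4).e p) := by
        rw [inf_eq_left]
        rintro _ ⟨y, rfl⟩
        obtain ⟨y, rfl⟩ := pr_surj Nx _ gX4 y
        have h2 : Nx.a (Nx.e p y) ∈ Nx.cog {a, p} ⊥ := by
          rw [bX y]
          exact xZ _
        exact (pr_zero Nx _ gX4 _).mpr h2
      show finrank K (LinearMap.range ((Nx.quo (Nx.cog {a, p} ⊥) gX4).e p) ⊓
          LinearMap.ker (Nx.quo (Nx.cog {a, p} ⊥) gX4).a : Submodule K _) = _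
      rw [h3]
      rfl
    · rw [ind_ne hp, (hDQ3 P M K).2.2.2.2.1]
      intro y hy h0
      obtain ⟨y, rfl⟩ := Submodule.mkQ_surjective _ y
      rw [← hy]
      have h1 : Nx.a y ∈ Nx.cog {a, b} ⊥ := (Submodule.Quotient.mk_eq_zero _).mp h0
      have h2 : Nx.a (Nx.e p y) ∈ Nx.cog {a, b} ⊥ := by
        have h3 : (Nx.quo (Nx.cog {a, b} ⊥) gX4).a ((Nx.quo (Nx.cog {a, b} ⊥) gX4).e p
            (Submodule.mkQ _ y)) = 0 := by
          rw [hy]
          exact h0
        exact (Submodule.Quotient.mk_eq_zero _).mp h3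
      by_cases hpa : p = a
      · subst hpa
        have h4 : Nx.e p y ∈ Nx.cog {p, b} ⊥ := by
          rw [eXa y]
          exact Submodule.zero_mem _
        exact (Submodule.Quotient.mk_eq_zero _).mpr h4
      · have h4 : Nx.e p y ∈ Nx.cog {a, b} ⊥ := by
          refine gX7 _ ⟨p, ?_, Nx.e_e p y⟩ h2
          rintro (h | h)
          · exact hpa h
          · exact hp h
        exact (Submodule.Quotient.mk_eq_zero _).mpr h4
  have supQ : (Nx.quo (Nx.cog {a, b} ⊥) gX4).toRp.Sup U := by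
    intro p hp y
    obtain ⟨y, rfl⟩ := Submodule.mkQ_surjective _ y
    have h4 : Nx.e p y ∈ Nx.cog {a, b} ⊥ := by
      rw [outU Nx hNx.1 p hp y]
      exact Submodule.zero_mem _
    exact (Submodule.Quotient.mk_eq_zero _).mpr h4
  obtain ⟨g, hg, ginj⟩ := hEMB P M s K D U (Nx.quo (Nx.cog {a, b} ⊥) gX4) Nb {b}
    (orb_single b hc.sb) hNb supQ scQ
  have hf := comp_mem hg (pr_mem Nx _ gX4)
  have hker : Nx.cog {a, b} ⊥ = LinearMap.ker (g.comp (pr Nx (Nx.cog {a, b} ⊥) gX4)) := by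
    ext y
    rw [LinearMap.mem_ker, LinearMap.comp_apply, ← pr_zero Nx _ gX4 y]
    constructor
    · intro h
      rw [h, map_zero]
    · intro h
      exact ginj (h.trans (map_zero g).symm)
  have hZ : Nx.St (LinearMap.ker (g.comp (pr Nx (Nx.cog {a, b} ⊥) gX4))) := by
    rw [← hker]
    exact gX4
  refine ⟨hB, _, hf, hZ, fun p => dmS_range Na.toRp a dmA p, ?_, dmA, ?_, ?_,
    sub_eq hker gX4 hZ iso1⟩
  · intro W hW hne
    have h1 : W.map (Na.e a) ≤ LinearMap.range (Na.e a) := by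
      rintro _ ⟨y, _, rfl⟩
      exact ⟨y, rfl⟩
    have h2 : W.map (Na.e a) = LinearMap.range (Na.e a) := by
      apply Submodule.eq_of_le_of_finrank_le h1
      have h3 : finrank K (LinearMap.range (Na.e a)) = 1 := dmA
      rw [h3]
      exact Submodule.one_le_finrank_iff.mpr hne
    rw [← h2]
    rintro _ ⟨y, hy, rfl⟩
    exact hW.1.1 a y hy
  · rw [(hDQ3 P M K).2.2.2.1]
    exact low hBND hDQ3 Nb.toRp b hNb.2 a (by omega)
  · rw [(hDQ3 P M K).2.2.2.1]
    exact eXa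

end Pool.Agent.Lib.MP_4c1f79_al
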