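import Pool.Agent.Lib.MP_4c1f79_al.StmE

/-!
# MP_4c1f79_al, piece [CR2]: the core lemma for one field
-/

set_option autoImplicit false

namespace Pool.Agent.Lib.MP_4c1f79_al

open Finset Module

namespace CR2p

variable {P : Type} [Fintype P] {M : Mesh P} {s : Equiv.Perm P} {K : Type} [Field K] {D : Fd K}

/-! ### Counting -/

theorem card_fib {A ι : Type} [Finite A] (g : A → ι) (T : Finset ι) (h : ∀ x, g x ∈ T) :
    Nat.card A = ∑ t ∈ T, Nat.card {x : A // g x = t} := by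
  classical
  let _ : Fintype A := Fintype.ofFinite A
  rw [Nat.card_eq_fintype_card, ← Finset.card_univ,
    Finset.card_eq_sum_card_fiberwise (f := g) (s := univ) (t := T) (fun x _ => h x)]
  apply Finset.sum_congr rfl
  intro t _
  rw [Nat.card_eq_fintype_card, Fintype.card_subtype]

theorem sub_fin (R : Rp M K) : Finite (Submodule K R.T) :=
  Finite.of_injective (fun W : Submodule K R.T => (W : Set R.T)) SetLike.coe_injective

/-- counting submodules by a vector -/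
theorem card_box (R : Rp M K) (A : Submodule K R.T → Prop) (g : Submodule K R.T → P → ℕ)
    (T : Finset (P → ℕ)) (h : ∀ W, A W → g W ∈ T) :
    Nat.card {W : Submodule K R.T // A W}
      = ∑ t ∈ T, Nat.card {W : Submodule K R.T // A W ∧ ∀ p, g W p = t p} := by
  have := sub_fin R
  rw [card_fib (fun W : {W : Submodule K R.T // A W} => g W.1) T (fun W => h W.1 W.2)]
  apply Finset.sum_congr rfl
  intro t _
  apply Nat.card_congr
  exact
    { toFun := fun W => ⟨W.1.1, W.1.2, fun p => congrFun W.2 p⟩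
      invFun := fun W => ⟨⟨W.1, W.2.1⟩, funext W.2.2⟩
      left_inv := fun _ => rfl
      right_inv := fun _ => rfl }

theorem card_iff (R : Rp M K) (A B : Submodule K R.T → Prop) (h : ∀ W, A W ↔ B W) :
    Nat.card {W : Submodule K R.T // A W} = Nat.card {W : Submodule K R.T // B W} := by
  have : A = B := funext fun W => propext (h W)
  rw [this]

theorem card_none (R : Rp M K) (A : Submodule K R.T → Prop) (h : ∀ W, ¬ A W) :
    Nat.card {W : Submodule K R.T // A W} = 0 := by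
  have : IsEmpty {W : Submodule K R.T // A W} := ⟨fun W => h W.1 W.2⟩
  exact Nat.card_of_isEmpty

/-! ### Stable subspaces -/

theorem st_comap (N₁ N₂ : FM M s K D) (W : Submodule K (N₁.T × N₂.T))
    (h : (N₁.prod N₂).St W) : N₁.St (W.comap (LinearMap.inl K N₁.T N₂.T)) := by
  refine ⟨⟨fun p x hx => ?_, fun x hx => ?_⟩, fun x hx => ?_⟩
  · have h1 : (N₁.prod N₂).toRp.e p ((x, 0) : N₁.T × N₂.T) ∈ W := h.1.1 p _ hx
    have h2 : (N₁.prod N₂).toRp.e p ((x, 0) : N₁.T × N₂.T) = ((N₁.e p x, 0) : N₁.T × N₂.T) :=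
      Prod.ext rfl (map_zero (N₂.e p))
    rw [h2] at h1
    exact h1
  · have h1 : (N₁.prod N₂).toRp.a ((x, 0) : N₁.T × N₂.T) ∈ W := h.1.2 _ hx
    have h2 : (N₁.prod N₂).toRp.a ((x, 0) : N₁.T × N₂.T) = ((N₁.a x, 0) : N₁.T × N₂.T) :=
      Prod.ext rfl (map_zero N₂.a)
    rw [h2] at h1
    exact h1
  · have h1 : (N₁.prod N₂).F ((x, 0) : N₁.T × N₂.T) ∈ W := h.2 _ hx
    have h2 : (N₁.prod N₂).F ((x, 0) : N₁.T × N₂.T) = ((N₁.F x, 0) : N₁.T × N₂.T) :=
      Prod.ext rfl (map_zero N₂.F)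
    rw [h2] at h1
    exact h1

theorem st_snd (N₁ N₂ : FM M s K D) (W : Submodule K (N₁.T × N₂.T))
    (h : (N₁.prod N₂).St W) : N₂.St (W.map (LinearMap.snd K N₁.T N₂.T)) := by
  refine ⟨⟨fun p x hx => ?_, fun x hx => ?_⟩, fun x hx => ?_⟩
  · obtain ⟨w, hw, rfl⟩ := hx
    exact ⟨_, h.1.1 p w hw, rfl⟩
  · obtain ⟨w, hw, rfl⟩ := hx
    exact ⟨_, h.1.2 w hw, rfl⟩
  · obtain ⟨w, hw, rfl⟩ := hx
    exact ⟨_, h.2 w hw, rfl⟩

theorem st_map {X Y : FM M s K D} {f : X.T →ₗ[K] Y.T} (hf : f ∈ FM.HmF X Y)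
    {W : Submodule K X.T} (h : X.St W) : Y.St (W.map f) := by
  refine ⟨⟨fun p x hx => ?_, fun x hx => ?_⟩, fun x hx => ?_⟩
  · obtain ⟨w, hw, rfl⟩ := hx
    exact ⟨_, h.1.1 p w hw, hf.1.1 p w⟩
  · obtain ⟨w, hw, rfl⟩ := hx
    exact ⟨_, h.1.2 w hw, hf.1.2 w⟩
  · obtain ⟨w, hw, rfl⟩ := hx
    exact ⟨_, h.2 w hw, hf.2 w⟩

theorem st_cmp {X Y : FM M s K D} {f : X.T →ₗ[K] Y.T} (hf : f ∈ FM.HmF X Y)
    {W : Submodule K Y.T} (h : Y.St W) : X.St (W.comap f) := by
  refine ⟨⟨fun p x hx => ?_, fun x hx => ?_⟩, fun x hx => ?_⟩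
  · show f (X.e p x) ∈ W
    rw [hf.1.1 p x]
    exact h.1.1 p _ hx
  · show f (X.a x) ∈ W
    rw [hf.1.2 x]
    exact h.1.2 _ hx
  · show f (X.F x) ∈ W
    rw [hf.2 x]
    exact h.2 _ hx

theorem st_inf {X : FM M s K D} {W V : Submodule K X.T} (hW : X.St W) (hV : X.St V) :
    X.St (W ⊓ V) :=
  ⟨⟨fun p x hx => ⟨hW.1.1 p x hx.1, hV.1.1 p x hx.2⟩,
    fun x hx => ⟨hW.1.2 x hx.1, hV.1.2 x hx.2⟩⟩, fun x hx => ⟨hW.2 x hx.1, hV.2 x hx.2⟩⟩

/-- inclusion -/
def inc (X : FM M s K D) (V : Submodule K X.T) (hV : X.St V) : (X.sub V hV).T →ₗ[K] X.T :=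
  V.subtype

/-- projection -/
def pr (X : FM M s K D) (V : Submodule K X.T) (hV : X.St V) : X.T →ₗ[K] (X.quo V hV).T := V.mkQ

/-- the inclusion of a sub is a morphism -/
theorem inc_mem (X : FM M s K D) (V : Submodule K X.T) (hV : X.St V) :
    inc X V hV ∈ FM.HmF (X.sub V hV) X :=
  ⟨⟨fun _ _ => rfl, fun _ => rfl⟩, fun _ => rfl⟩

/-- the projection to a quotient is a morphism -/
theorem pr_mem (X : FM M s K D) (V : Submodule K X.T) (hV : X.St V) :
    pr X V hV ∈ FM.HmF X (X.quo V hV) :=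
  ⟨⟨fun _ _ => rfl, fun _ => rfl⟩, fun _ => rfl⟩

theorem comp_mem {X Y Z : FM M s K D} {g : Y.T →ₗ[K] Z.T} {f : X.T →ₗ[K] Y.T}
    (hg : g ∈ FM.HmF Y Z) (hf : f ∈ FM.HmF X Y) : g.comp f ∈ FM.HmF X Z := by
  refine ⟨⟨fun p x => ?_, fun x => ?_⟩, fun x => ?_⟩
  · show g (f (X.e p x)) = Z.e p (g (f x))
    rw [hf.1.1, hg.1.1]
  · show g (f (X.a x)) = Z.a (g (f x))
    rw [hf.1.2, hg.1.2]
  · show g (f (X.F x)) = Z.F (g (f x))
    rw [hf.2, hg.2]

/-! ### Dimensions -/

theorem fr_inj {V W : Type} [AddCommGroup V] [Module K V] [AddCommGroup W] [Module K W]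
    (f : V →ₗ[K] W) (hf : Function.Injective f) (S : Submodule K V) :
    finrank K (S.map f) = finrank K S :=
  (S.equivMapOfInjective f hf).finrank_eq.symm

/-- isomorphisms preserve the dimension vectors of subspaces -/
theorem dmS_map {X Y : Rp M K} {f : X.T →ₗ[K] Y.T} (hf : f ∈ Rp.Hm X Y)
    (hi : Function.Injective f) (W : Submodule K X.T) (p : P) :
    Y.dmS (W.map f) p = X.dmS W p := by
  unfold Rp.dmS
  have h1 : (W.map f).map (Y.e p) = (W.map (X.e p)).map f := by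
    rw [← Submodule.map_comp, ← Submodule.map_comp]
    congr 1
    ext x
    exact (hf.1 p x).symm
  rw [h1, fr_inj f hi]

/-- rank and nullity -/
theorem dmS_rn {X Y : Rp M K} {f : X.T →ₗ[K] Y.T} (hf : f ∈ Rp.Hm X Y) {W : Submodule K X.T}
    (hW : X.St W) (p : P) :
    X.dmS (W ⊓ LinearMap.ker f) p + Y.dmS (W.map f) p = X.dmS W p := by
  have := (Module.Finite.of_finite : Module.Finite K X.T)
  unfold Rp.dmS
  have h1 : (W.map f).map (Y.e p) = (W.map (X.e p)).map f := by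
    rw [← Submodule.map_comp, ← Submodule.map_comp]
    congr 1
    ext x
    exact (hf.1 p x).symm
  have h2 : (W ⊓ LinearMap.ker f).map (X.e p) = W.map (X.e p) ⊓ LinearMap.ker f := by
    ext y
    constructor
    · rintro ⟨x, ⟨hx1, hx2⟩, rfl⟩
      refine ⟨⟨x, hx1, rfl⟩, ?_⟩
      show f (X.e p x) = 0
      rw [hf.1 p x, show f x = 0 from hx2, map_zero]
    · rintro ⟨⟨x, hx1, rfl⟩, hx2⟩
      exact ⟨X.e p x, ⟨hW.1 p x hx1, hx2⟩, X.e_e p x⟩
  rw [h1, h2]
  have h3 := LinearMap.finrank_range_add_finrank_ker (f.domRestrict (W.map (X.e p)))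
  rw [LinearMap.range_domRestrict, LinearMap.ker_domRestrict] at h3
  have h4 : finrank K ((LinearMap.ker f).comap (W.map (X.e p)).subtype)
      = finrank K (W.map (X.e p) ⊓ LinearMap.ker f : Submodule K X.T) := by
    rw [← fr_inj (W.map (X.e p)).subtype (Submodule.injective_subtype _)
      ((LinearMap.ker f).comap (W.map (X.e p)).subtype), Submodule.map_comap_subtype]
  rw [h4] at h3
  omega

/-- uniqueness of subs with given dimension vector in a thin module -/
theorem uniq (R : Rp M K) (V Z Z' : Submodule K R.T) (hV : ∀ p, R.dmS V p ≤ 1) (hZV : Z ≤ V)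
    (hZV' : Z' ≤ V) (hZ : R.St Z) (hZ' : R.St Z') (h : ∀ p, R.dmS Z p = R.dmS Z' p) : Z = Z' := by
  have := (Module.Finite.of_finite : Module.Finite K R.T)
  have key : ∀ p, Z.map (R.e p) = Z'.map (R.e p) := by
    intro p
    have h1 : Z.map (R.e p) ≤ V.map (R.e p) := Submodule.map_mono hZV
    have h2 : Z'.map (R.e p) ≤ V.map (R.e p) := Submodule.map_mono hZV'
    have h3 : finrank K (V.map (R.e p)) ≤ 1 := hV p
    have h4 : finrank K (Z.map (R.e p)) = finrank K (Z'.map (R.e p)) := h p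
    rcases Nat.eq_zero_or_pos (finrank K (Z.map (R.e p))) with h5 | h5
    · have h6 : Z.map (R.e p) = ⊥ := Submodule.finrank_eq_zero.1 h5
      have h7 : Z'.map (R.e p) = ⊥ := Submodule.finrank_eq_zero.1 (h4 ▸ h5)
      rw [h6, h7]
    · have h6 : Z.map (R.e p) = V.map (R.e p) :=
        Submodule.eq_of_le_of_finrank_le h1 (by omega)
      have h7 : Z'.map (R.e p) = V.map (R.e p) :=
        Submodule.eq_of_le_of_finrank_le h2 (by omega)
      rw [h6, h7]
  have key2 : ∀ A B : Submodule K R.T, R.St B → (∀ p, A.map (R.e p) = B.map (R.e p)) → A ≤ B := by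
    intro A B hB hAB x hx
    rw [← R.e_sum x]
    apply Submodule.sum_mem
    intro p _
    have h1 : R.e p x ∈ A.map (R.e p) := ⟨x, hx, rfl⟩
    rw [hAB p] at h1
    obtain ⟨y, hy, hxy⟩ := h1
    rw [← hxy]
    exact hB.1 p y hy
  exact le_antisymm (key2 Z Z' hZ' key) (key2 Z' Z hZ fun p => (key p).symm)

/-- the dimension of a thin module -/
theorem fr_le (R : Rp M K) (h : ∀ p, R.dm p ≤ 1) : finrank K R.T ≤ Fintype.card P := by
  have := (Module.Finite.of_finite : Module.Finite K R.T)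
  let g : R.T →ₗ[K] ((p : P) → LinearMap.range (R.e p)) :=
    LinearMap.pi fun p => (R.e p).rangeRestrict
  have hg : Function.Injective g := by
    intro x y hxy
    rw [← R.e_sum x, ← R.e_sum y]
    apply Finset.sum_congr rfl
    intro p _
    exact congrArg Subtype.val (congrFun hxy p)
  have h1 := LinearMap.finrank_le_finrank_of_injective hg
  rw [Module.finrank_pi_fintype] at h1
  refine h1.trans ?_
  calc ∑ p, finrank K (LinearMap.range (R.e p)) ≤ ∑ _p : P, 1 := Finset.sum_le_sum fun p _ => h p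
    _ = Fintype.card P := by simp

/-! ### Isomorphisms -/

/-- a surjective morphism induces an isomorphism -/
theorem quo_iso (X Y : FM M s K D) (g : X.T →ₗ[K] Y.T) (hg : g ∈ FM.HmF X Y)
    (hs : Function.Surjective g) (V : Submodule K X.T) (hV : X.St V)
    (hk : ∀ x, x ∈ V ↔ g x = 0) : (X.quo V hV).Iso Y := by
  have hle : V ≤ LinearMap.ker g := fun x hx => (hk x).1 hx
  refine ⟨(V.liftQ g hle : (X.quo V hV).T →ₗ[K] Y.T), ⟨⟨fun p x => ?_, fun x => ?_⟩, fun x => ?_⟩,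
    ?_, ?_⟩
  · obtain ⟨x, rfl⟩ := Submodule.mkQ_surjective V x
    exact hg.1.1 p x
  · obtain ⟨x, rfl⟩ := Submodule.mkQ_surjective V x
    exact hg.1.2 x
  · obtain ⟨x, rfl⟩ := Submodule.mkQ_surjective V x
    exact hg.2 x
  · have h1 : LinearMap.ker (V.liftQ g hle) = ⊥ := by
      apply Submodule.ker_liftQ_eq_bot
      intro x hx
      exact (hk x).2 hx
    exact LinearMap.ker_eq_bot.1 h1
  · intro y
    obtain ⟨x, rfl⟩ := hs y
    exact ⟨V.mkQ x, rfl⟩

theorem hmF_fin (X Y : FM M s K D) : Finite (FM.HmF X Y) := by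
  have : Finite (X.T →ₗ[K] Y.T) := DFunLike.finite _
  infer_instance

theorem card_hmF_le (T X Y : FM M s K D) (h : X.Iso Y) :
    Nat.card (FM.HmF T X) ≤ Nat.card (FM.HmF T Y) := by
  obtain ⟨f, hf, hb⟩ := h
  have := hmF_fin T Y
  apply Nat.card_le_card_of_injective
    (fun g : FM.HmF T X => (⟨f.comp g.1, comp_mem hf g.2⟩ : FM.HmF T Y))
  intro g g' hgg
  apply Subtype.ext
  ext x
  have h1 := congrArg Subtype.val hgg
  exact hb.1 (LinearMap.congr_fun h1 x)

/-! ### The correspondence between the subs of `Z = ker f` and the subs of `Na` above `B` -/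

theorem inc_inj (X : FM M s K D) (V : Submodule K X.T) (hV : X.St V) :
    Function.Injective (inc X V hV) := Submodule.injective_subtype V

theorem inc_range (X : FM M s K D) (V : Submodule K X.T) (hV : X.St V) (x : X.T) :
    x ∈ V ↔ ∃ y, inc X V hV y = x :=
  ⟨fun h => ⟨⟨x, h⟩, rfl⟩, fun ⟨y, hy⟩ => hy ▸ y.2⟩

theorem pr_surj (X : FM M s K D) (V : Submodule K X.T) (hV : X.St V) :
    Function.Surjective (pr X V hV) := Submodule.mkQ_surjective V

theorem pr_zero (X : FM M s K D) (V : Submodule K X.T) (hV : X.St V) (x : X.T) :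
    pr X V hV x = 0 ↔ x ∈ V := Submodule.Quotient.mk_eq_zero V

theorem dmS_le (R : Rp M K) (W : Submodule K R.T) (p : P) : R.dmS W p ≤ R.dm p := by
  have := (Module.Finite.of_finite : Module.Finite K R.T)
  unfold Rp.dmS Rp.dm
  apply Submodule.finrank_mono
  rintro y ⟨x, _, rfl⟩
  exact ⟨x, rfl⟩

section

variable {Na Nx : FM M s K D} {B : Submodule K Na.T} {hB : Na.St B} {Z : Submodule K Nx.T}
  {hZ : Nx.St Z} {φ : (Nx.sub Z hZ).T →ₗ[K] (Na.quo B hB).T}

/-- from `Z₁` to `N₁` -/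
theorem cor_to (hφ : φ ∈ FM.HmF (Nx.sub Z hZ) (Na.quo B hB)) (hφb : Function.Bijective φ)
    (Z₁ : Submodule K Nx.T) (h₁ : Nx.St Z₁) (hle : Z₁ ≤ Z) :
    ∃ N₁ : Submodule K Na.T, Na.St N₁ ∧ B ≤ N₁ ∧
      ∀ p, Na.toRp.dmS N₁ p = Nx.toRp.dmS Z₁ p + Na.toRp.dmS B p := by
  refine ⟨((Z₁.comap (inc Nx Z hZ)).map φ).comap (pr Na B hB), ?_, ?_, ?_⟩
  · exact st_cmp (pr_mem Na B hB) (st_map hφ (st_cmp (inc_mem Nx Z hZ) h₁))
  · intro x hx
    show pr Na B hB x ∈ (Z₁.comap (inc Nx Z hZ)).map φ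
    rw [(pr_zero Na B hB x).2 hx]
    exact Submodule.zero_mem _
  · intro p
    have hst : Na.St (((Z₁.comap (inc Nx Z hZ)).map φ).comap (pr Na B hB)) :=
      st_cmp (pr_mem Na B hB) (st_map hφ (st_cmp (inc_mem Nx Z hZ) h₁))
    have h1 := dmS_rn (pr_mem Na B hB).1 hst.1 p
    have h2 : ((Z₁.comap (inc Nx Z hZ)).map φ).comap (pr Na B hB) ⊓
        LinearMap.ker (pr Na B hB) = B := by
      ext x
      constructor
      · rintro ⟨_, hx⟩
        exact (pr_zero Na B hB x).1 hx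
      · intro hx
        refine ⟨?_, (pr_zero Na B hB x).2 hx⟩
        show pr Na B hB x ∈ (Z₁.comap (inc Nx Z hZ)).map φ
        rw [(pr_zero Na B hB x).2 hx]
        exact Submodule.zero_mem _
    have h3 : (((Z₁.comap (inc Nx Z hZ)).map φ).comap (pr Na B hB)).map
        (pr Na B hB) = (Z₁.comap (inc Nx Z hZ)).map φ :=
      Submodule.map_comap_eq_of_surjective (pr_surj Na B hB) _
    rw [h2, h3, dmS_map hφ.1 hφb.1] at h1
    have h4 : (Nx.sub Z hZ).toRp.dmS (Z₁.comap (inc Nx Z hZ)) p = Nx.toRp.dmS Z₁ p := by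
      rw [← dmS_map (inc_mem Nx Z hZ).1 (inc_inj Nx Z hZ) (Z₁.comap (inc Nx Z hZ)) p]
      congr 1
      ext x
      constructor
      · rintro ⟨y, hy, rfl⟩
        exact hy
      · intro hx
        obtain ⟨y, hy⟩ := (inc_range Nx Z hZ x).1 (hle hx)
        refine ⟨y, ?_, hy⟩
        show inc Nx Z hZ y ∈ Z₁
        rw [hy]
        exact hx
    rw [h4] at h1
    omega

/-- from `N₁` to `Z₁` -/
theorem cor_from (hφ : φ ∈ FM.HmF (Nx.sub Z hZ) (Na.quo B hB)) (hφb : Function.Bijective φ)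
    (N₁ : Submodule K Na.T) (h₁ : Na.St N₁) (hle : B ≤ N₁) :
    ∃ (Z₁ : Submodule K Nx.T) (hZ₁ : Nx.St Z₁), Z₁ ≤ Z ∧
      (∀ p, Na.toRp.dmS N₁ p = Nx.toRp.dmS Z₁ p + Na.toRp.dmS B p) ∧
      (Nx.subq Z₁ Z hZ₁ hZ).Iso (Na.quo N₁ h₁) := by
  have hst1 : (Na.quo B hB).St (N₁.map (pr Na B hB)) := st_map (pr_mem Na B hB) h₁
  have hst2 : (Nx.sub Z hZ).St ((N₁.map (pr Na B hB)).comap φ) := st_cmp hφ hst1
  have hst3 : Nx.St (((N₁.map (pr Na B hB)).comap φ).map (inc Nx Z hZ)) :=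
    st_map (inc_mem Nx Z hZ) hst2
  refine ⟨((N₁.map (pr Na B hB)).comap φ).map (inc Nx Z hZ), hst3, ?_, ?_, ?_⟩
  · rintro x ⟨y, _, rfl⟩
    exact (inc_range Nx Z hZ _).2 ⟨y, rfl⟩
  · intro p
    have h1 := dmS_rn (pr_mem Na B hB).1 h₁.1 p
    have h2 : N₁ ⊓ LinearMap.ker (pr Na B hB) = B := by
      ext x
      constructor
      · rintro ⟨_, hx⟩
        exact (pr_zero Na B hB x).1 hx
      · intro hx
        exact ⟨hle hx, (pr_zero Na B hB x).2 hx⟩
    have h3 : (Nx.toRp.dmS (((N₁.map (pr Na B hB)).comap φ).map (inc Nx Z hZ)) p)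
        = (Nx.sub Z hZ).toRp.dmS ((N₁.map (pr Na B hB)).comap φ) p :=
      dmS_map (inc_mem Nx Z hZ).1 (inc_inj Nx Z hZ) _ p
    have h4 : (Na.quo B hB).toRp.dmS (N₁.map (pr Na B hB)) p
        = (Nx.sub Z hZ).toRp.dmS ((N₁.map (pr Na B hB)).comap φ) p := by
      rw [← dmS_map hφ.1 hφb.1 ((N₁.map (pr Na B hB)).comap φ) p,
        Submodule.map_comap_eq_of_surjective hφb.2]
    rw [h2, h4, ← h3] at h1
    omega
  · -- the isomorphism of the quotients
    have hle' : B ≤ LinearMap.ker (pr Na N₁ h₁) := fun x hx => (pr_zero Na N₁ h₁ x).2 (hle hx)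
    let fac : (Na.quo B hB).T →ₗ[K] (Na.quo N₁ h₁).T := B.liftQ (pr Na N₁ h₁) hle'
    have hfp : ∀ x, fac (pr Na B hB x) = pr Na N₁ h₁ x := fun _ => rfl
    have hfac : fac ∈ FM.HmF (Na.quo B hB) (Na.quo N₁ h₁) := by
      refine ⟨⟨fun p y => ?_, fun y => ?_⟩, fun y => ?_⟩
      · obtain ⟨x, rfl⟩ := pr_surj Na B hB y
        rfl
      · obtain ⟨x, rfl⟩ := pr_surj Na B hB y
        rfl
      · obtain ⟨x, rfl⟩ := pr_surj Na B hB y
        rfl
    have hfs : Function.Surjective fac := by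
      intro y
      obtain ⟨x, rfl⟩ := pr_surj Na N₁ h₁ y
      exact ⟨pr Na B hB x, rfl⟩
    have hfk : ∀ y, fac y = 0 ↔ y ∈ N₁.map (pr Na B hB) := by
      intro y
      constructor
      · intro hy
        obtain ⟨x, rfl⟩ := pr_surj Na B hB y
        rw [hfp, pr_zero] at hy
        exact ⟨x, hy, rfl⟩
      · rintro ⟨x, hx, rfl⟩
        rw [hfp, pr_zero]
        exact hx
    apply quo_iso (Nx.sub Z hZ) (Na.quo N₁ h₁) (fac.comp φ) (comp_mem hfac hφ)
    · exact hfs.comp hφb.2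
    · intro x
      show inc Nx Z hZ x ∈ ((N₁.map (pr Na B hB)).comap φ).map (inc Nx Z hZ) ↔ fac (φ x) = 0
      rw [hfk]
      constructor
      · rintro ⟨y, hy, hxy⟩
        rw [inc_inj Nx Z hZ hxy] at hy
        exact hy
      · intro hx
        exact ⟨x, hx, rfl⟩

end

omit [Fintype P] in
theorem ind_self (a : P) : ind ({a} : Set P) a = 1 := by simp [ind]

omit [Fintype P] in
theorem ind_ne {a p : P} (h : p ≠ a) : ind ({a} : Set P) p = 0 := by simp [ind, h]

theorem hm_bound (X Y : Rp M K) (n : ℕ) (hX : finrank K X.T ≤ n) (hY : finrank K Y.T ≤ n) :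
    finrank K (Rp.Hm X Y) ≤ n ^ 2 := by
  have := (Module.Finite.of_finite : Module.Finite K X.T)
  have := (Module.Finite.of_finite : Module.Finite K Y.T)
  refine (Submodule.finrank_le _).trans ?_
  rw [Module.finrank_linearMap, sq]
  exact Nat.mul_le_mul hX hY

end CR2p

open CR2p in
theorem CR2_holds (hCR1 : S_CR1) (hTOR : S_TOR) (hFIB : S_FIB) (hHF : S_HF) (hISO : S_ISO)
    (hDQ1 : S_DQ1) (hDQ2 : S_DQ2) (hDQ3 : S_DQ3) : S_CR2 := by
  classical
  intro P _ M s K _ D U a b x hA hC Na Nb Nx hNa hNb hNx hda hdb d hd0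
  obtain ⟨hB, f, hf, hZ, c1, c2, c3, c4, c5, φ, hφ, hφb⟩ :=
    hCR1 P M s K D U a b x hA hC Na Nb Nx hNa hNb hNx
  have hdimP : ∀ (W : Submodule K (Na.T × Nb.T)) (p : P), (Na.prod Nb).St W →
      (Na.prod Nb).toRp.dmS W p
        = Na.toRp.dmS (W.comap (LinearMap.inl K Na.T Nb.T)) p
          + Nb.toRp.dmS (W.map (LinearMap.snd K Na.T Nb.T)) p := by
    intro W p hW
    exact (hDQ2 P M K).2.2.2.2 Na.toRp Nb.toRp W p hW.1
  have hdimX : ∀ (W : Submodule K Nx.T) (p : P), Nx.St W →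
      Nx.toRp.dmS (W ⊓ LinearMap.ker f) p + Nb.toRp.dmS (W.map f) p = Nx.toRp.dmS W p :=
    fun W p hW => dmS_rn hf.1 hW.1 p
  have hNb0 : ∀ W, Nb.toRp.dmS W a = 0 := fun W =>
    Nat.le_zero.1 ((dmS_le Nb.toRp W a).trans c4.le)
  -- thinness
  have tNa : ∀ p, Na.toRp.dmS ⊤ p ≤ 1 := fun p => (dmS_le Na.toRp ⊤ p).trans (hda p)
  have tNb : ∀ p, Nb.toRp.dmS ⊤ p ≤ 1 := fun p => (dmS_le Nb.toRp ⊤ p).trans (hdb p)
  have tZ : ∀ p, Nx.toRp.dmS (LinearMap.ker f) p ≤ 1 := by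
    intro p
    obtain ⟨N₁, _, _, h3⟩ := cor_to hφ hφb (LinearMap.ker f) hZ le_rfl
    have h4 := h3 p
    have h5 := (dmS_le Na.toRp N₁ p).trans (hda p)
    omega
  -- the two functions of `t`
  obtain ⟨F₁, hF₁⟩ : ∃ F₁ : (P → ℕ) → ℕ, ∀ t, F₁ t = Nat.card {W : Submodule K (Na.prod Nb).T //
      ((Na.prod Nb).St W ∧ ∀ p, (Na.prod Nb).toRp.dmS W p = d p + ind {a} p) ∧
      ∀ p, Na.toRp.dmS (Submodule.comap (LinearMap.inl K Na.T Nb.T) W) p - ind {a} p = t p} :=
    ⟨_, fun _ => rfl⟩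
  obtain ⟨F₂, hF₂⟩ : ∃ F₂ : (P → ℕ) → ℕ, ∀ t, F₂ t = Nat.card {W : Submodule K Nx.T //
      (Nx.St W ∧ ∀ p, Nx.toRp.dmS W p = d p) ∧
      ∀ p, Nx.toRp.dmS (W ⊓ LinearMap.ker f) p = t p} := ⟨_, fun _ => rfl⟩
  have hgeq : ∀ W : Submodule K (Na.prod Nb).T, (Na.prod Nb).St W →
      (∀ p, (Na.prod Nb).toRp.dmS W p = d p + ind {a} p) → ∀ p,
      ind {a} p ≤ Na.toRp.dmS (Submodule.comap (LinearMap.inl K Na.T Nb.T) W) p := by
    intro W hW hd p
    by_cases hp : p = a
    · rw [hp]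
      have h1 := hdimP W a hW
      have h2 := hNb0 (W.map (LinearMap.snd K Na.T Nb.T))
      rw [hd a, hd0, h2] at h1
      omega
    · rw [ind_ne hp]
      exact Nat.zero_le _
  have hsum1 : (Na.prod Nb).cnt (fun p => d p + ind {a} p) = ∑ t ∈ box d, F₁ t := by
    have h1 := card_box (Na.prod Nb).toRp
      (fun W => (Na.prod Nb).St W ∧ ∀ p, (Na.prod Nb).toRp.dmS W p = d p + ind {a} p)
      (fun W p => Na.toRp.dmS (Submodule.comap (LinearMap.inl K Na.T Nb.T) W) p - ind {a} p)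
      (box d) (by
        rintro W ⟨hW, hd⟩
        rw [mem_box]
        intro p
        show Na.toRp.dmS (Submodule.comap (LinearMap.inl K Na.T Nb.T) W) p - ind {a} p ≤ d p
        have h1 := hdimP W p hW
        rw [hd p] at h1
        omega)
    have h2 : ∑ t ∈ box d, F₁ t = ∑ t ∈ box d, Nat.card {W : Submodule K (Na.prod Nb).T //
      ((Na.prod Nb).St W ∧ ∀ p, (Na.prod Nb).toRp.dmS W p = d p + ind {a} p) ∧
      ∀ p, Na.toRp.dmS (Submodule.comap (LinearMap.inl K Na.T Nb.T) W) p - ind {a} p = t p} :=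
      Finset.sum_congr rfl fun t _ => hF₁ t
    rw [h2]
    exact h1
  have hsum2 : Nx.cnt d = ∑ t ∈ box d, F₂ t := by
    have h1 := card_box Nx.toRp (fun W => Nx.St W ∧ ∀ p, Nx.toRp.dmS W p = d p)
      (fun W p => Nx.toRp.dmS (W ⊓ LinearMap.ker f) p) (box d) (by
        rintro W ⟨hW, hd⟩
        rw [mem_box]
        intro p
        show Nx.toRp.dmS (W ⊓ LinearMap.ker f) p ≤ d p
        have h1 := hdimX W p hW
        rw [hd p] at h1
        omega)
    have h2 : ∑ t ∈ box d, F₂ t = ∑ t ∈ box d, Nat.card {W : Submodule K Nx.T //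
      (Nx.St W ∧ ∀ p, Nx.toRp.dmS W p = d p) ∧
      ∀ p, Nx.toRp.dmS (W ⊓ LinearMap.ker f) p = t p} := Finset.sum_congr rfl fun t _ => hF₂ t
    rw [h2]
    exact h1
  -- the main claim
  have key : ∀ t ∈ box d, F₁ t = F₂ t ∨
      (F₂ t = 0 ∧ ∃ n, n ≤ Fintype.card P ^ 2 ∧ F₁ t = D.q ^ n) := by
    intro t ht
    rw [mem_box] at ht
    have ht' : ∀ p, t p ≤ d p := ht
    by_cases hex : ∃ (N₁ : Submodule K Na.T) (N₂ : Submodule K Nb.T), Na.St N₁ ∧ Nb.St N₂ ∧
        (∀ p, Na.toRp.dmS N₁ p = t p + ind {a} p) ∧ ∀ p, Nb.toRp.dmS N₂ p = d p - t p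
    · obtain ⟨N₁, N₂, h₁, h₂, hd₁, hd₂⟩ := hex
      have hBN : LinearMap.range (Na.e a) ≤ N₁ := by
        apply c2 N₁ h₁
        intro h
        have h3 : Na.toRp.dmS N₁ a = 0 := by
          unfold Rp.dmS
          rw [h]
          exact finrank_bot K _
        rw [hd₁, ind_self] at h3
        omega
      obtain ⟨Z₁, hZ₁, hZle, hZd, hiso⟩ := cor_from hφ hφb N₁ h₁ hBN
      have hZt : ∀ p, Nx.toRp.dmS Z₁ p = t p := by
        intro p
        have h3 := hZd p
        rw [hd₁ p, c1 p] at h3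
        omega
      have e1 : F₁ t = Nat.card (FM.HmF (Nb.sub N₂ h₂) (Na.quo N₁ h₁)) := by
        rw [hF₁, ← hFIB P M s K D Na Nb N₁ N₂ h₁ h₂]
        apply card_iff (Na.prod Nb).toRp
        intro W
        constructor
        · rintro ⟨⟨hW, hWd⟩, hWt⟩
          have h3 : ∀ p, Na.toRp.dmS (Submodule.comap (LinearMap.inl K Na.T Nb.T) W) p
              = t p + ind {a} p := by
            intro p
            have h4 := hWt p
            have h5 := hgeq W hW hWd p
            omega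
          refine ⟨hW, ?_, ?_⟩
          · exact uniq Na.toRp ⊤ _ N₁ tNa le_top le_top (st_comap Na Nb W hW).1 h₁.1
              fun p => by rw [h3 p, hd₁ p]
          · apply uniq Nb.toRp ⊤ _ N₂ tNb le_top le_top (st_snd Na Nb W hW).1 h₂.1
            intro p
            have h4 := hdimP W p hW
            have h5 := hWd p
            have h6 := h3 p
            rw [hd₂ p]
            omega
        · rintro ⟨hW, hW1, hW2⟩
          have hW1' : Submodule.comap (LinearMap.inl K Na.T Nb.T) W = N₁ := hW1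
          refine ⟨⟨hW, fun p => ?_⟩, fun p => ?_⟩
          · rw [hdimP W p hW, hW1, hW2, hd₁, hd₂]
            have := ht' p
            omega
          · rw [hW1', hd₁]
            omega
      have e2 : F₂ t = Nat.card {W : Submodule K Nx.T // Nx.St W ∧ W ⊓ LinearMap.ker f = Z₁ ∧
          W.map f = N₂} := by
        rw [hF₂]
        apply card_iff Nx.toRp
        intro W
        constructor
        · rintro ⟨⟨hW, hWd⟩, hWt⟩
          refine ⟨hW, ?_, ?_⟩
          · exact uniq Nx.toRp (LinearMap.ker f) _ Z₁ tZ inf_le_right hZle (st_inf hW hZ).1 hZ₁.1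
              fun p => by rw [hWt p, hZt p]
          · apply uniq Nb.toRp ⊤ _ N₂ tNb le_top le_top (st_map hf hW).1 h₂.1
            intro p
            have h4 := hdimX W p hW
            have h5 := hWd p
            have h6 := hWt p
            rw [hd₂ p]
            omega
        · rintro ⟨hW, hW1, hW2⟩
          refine ⟨⟨hW, fun p => ?_⟩, fun p => ?_⟩
          · rw [← hdimX W p hW, hW1, hW2, hZt, hd₂]
            have := ht' p
            omega
          · rw [hW1, hZt]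
      rcases hTOR P M s K D Nx Nb f hf hZ Z₁ hZ₁ hZle N₂ h₂ with h3 | h3
      · right
        refine ⟨e2.trans h3, _, ?_, e1.trans (hHF P M s K D _ _)⟩
        apply hm_bound
        · have := (Module.Finite.of_finite : Module.Finite K Nb.T)
          exact (Submodule.finrank_le N₂).trans (fr_le Nb.toRp hdb)
        · have := (Module.Finite.of_finite : Module.Finite K Na.T)
          exact (Submodule.finrank_quotient_le N₁).trans (fr_le Na.toRp hda)
      · left
        rw [e1, e2, h3]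
        apply le_antisymm
        · exact card_hmF_le _ _ _ ((hISO P M s K D).2.2.1 _ _ hiso)
        · exact card_hmF_le _ _ _ hiso
    · left
      have e1 : F₁ t = 0 := by
        rw [hF₁]
        apply card_none (Na.prod Nb).toRp
        rintro W ⟨⟨hW, hWd⟩, hWt⟩
        apply hex
        refine ⟨_, _, st_comap Na Nb W hW, st_snd Na Nb W hW, fun p => ?_, fun p => ?_⟩
        · have h4 := hWt p
          have h5 := hgeq W hW hWd p
          omega
        · have h4 := hWt p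
          have h5 := hgeq W hW hWd p
          have h6 := hdimP W p hW
          have h7 := hWd p
          omega
      have e2 : F₂ t = 0 := by
        rw [hF₂]
        apply card_none Nx.toRp
        rintro W ⟨⟨hW, hWd⟩, hWt⟩
        obtain ⟨N₁, h₁, _, h3⟩ := cor_to hφ hφb (W ⊓ LinearMap.ker f) (st_inf hW hZ) inf_le_right
        apply hex
        refine ⟨N₁, _, h₁, st_map hf hW, fun p => ?_, fun p => ?_⟩
        · rw [h3 p, hWt p, c1 p]
        · have h4 := hWt p
          have h6 := hdimX W p hW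
          have h7 := hWd p
          omega
      rw [e1, e2]
  have key2 : ∀ t, ∃ n, n ≤ Fintype.card P ^ 2 ∧
      (t ∈ box d → F₁ t = F₂ t + if F₁ t ≠ F₂ t then D.q ^ n else 0) := by
    intro t
    by_cases ht : t ∈ box d
    · rcases key t ht with h | ⟨h1, n, hn, h2⟩
      · exact ⟨0, Nat.zero_le _, fun _ => by rw [if_neg (not_not.2 h), h, add_zero]⟩
      · refine ⟨n, hn, fun _ => ?_⟩
        have h3 : F₁ t ≠ F₂ t := by
          rw [h1, h2]
          exact pow_ne_zero _ (by have := D.q_gt; omega)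
        rw [if_pos h3, h1, h2, zero_add]
    · exact ⟨0, Nat.zero_le _, fun h => absurd h ht⟩
  choose n hn hn' using key2
  refine ⟨(box d).filter fun t => F₁ t ≠ F₂ t, n, Finset.filter_subset _ _, hn, ?_⟩
  rw [hsum1, hsum2, Finset.sum_filter, ← Finset.sum_add_distrib]
  exact Finset.sum_congr rfl fun t ht => hn' t ht

end Pool.Agent.Lib.MP_4c1f79_al
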