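import Pool.Agent.Lib.MP_4c1f79_al.StmB

/-!
# MP_4c1f79_al : piece CSP (the splitting formula for the canonical counts)
-/

set_option autoImplicit false

namespace Pool.Agent.Lib.MP_4c1f79_al

open Finset Module

private theorem csp_cntP {P : Type} [Fintype P] {M : Mesh P} {s : Equiv.Perm P} {K : Type}
    [Field K] {D : Fd K} (N : FM M s K D) (d : P → ℕ) : N.cntP (fun _ => True) d = N.cnt d := by
  rw [FM.cntP, FM.cnt]
  exact Nat.card_congr (Equiv.subtypeEquivRight fun W => by simp)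

private theorem csp_cntP2 {P : Type} [Fintype P] {M : Mesh P} {s : Equiv.Perm P} {K : Type}
    [Field K] {D : Fd K} (N : FM M s K D) (d : P → ℕ) :
    N.cntP (fun _ => True ∧ True) d = N.cnt d := by
  rw [FM.cntP, FM.cnt]
  exact Nat.card_congr (Equiv.subtypeEquivRight fun W => by simp)

theorem CSP_holds (hCCD : S_CCD) (hEXM : S_EXM) (hSPC : S_SPC) (hDQ2 : S_DQ2) : S_CSP := by
  intro P _ M s K _ D U hA m₁ m₂ h1 h2 hU1 hU2
  obtain ⟨N₁, hN₁⟩ := hEXM P M s K D U hA m₁ h1 hU1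
  obtain ⟨N₂, hN₂⟩ := hEXM P M s K D U hA m₂ h2 hU2
  obtain ⟨q1, q2, q3, -, -⟩ := hDQ2 P M K
  have hN : (N₁.prod N₂).GT U (fun p => m₁ p + m₂ p) :=
    ⟨q3 N₁.toRp N₂.toRp U hN₁.1 hN₂.1, fun p => by
      have := q2 N₁.toRp N₂.toRp p
      rw [hN₁.2, hN₂.2] at this
      exact this⟩
  obtain ⟨c1, d1⟩ := hCCD P M s K D U hA m₁ N₁ hN₁
  obtain ⟨c2, d2⟩ := hCCD P M s K D U hA m₂ N₂ hN₂
  obtain ⟨c, dd⟩ := hCCD P M s K D U hA _ _ hN
  refine ⟨fun p => ?_, fun hT d => ?_⟩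
  · rw [← dd, ← d1, ← d2]
    exact q1 N₁.toRp N₂.toRp p
  · have key := hSPC P M s K D N₁ N₂ U hN₁.1 hN₂.1.1 (fun p r hpr hsc => by
      rw [d1]
      exact hT p r hpr (by rw [← hN₂.2]; exact hsc)) (fun _ => True) (fun _ => True) d
    rw [csp_cntP2] at key
    simp only [csp_cntP] at key
    rw [c] at key
    simp only [c1, c2, d1] at key
    exact key

end Pool.Agent.Lib.MP_4c1f79_al
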