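import Pool.Agent.Lib.MP_4c1f79_al.StmA

/-!
# MP_4c1f79_al : [DES] descent for semilinear maps
-/

set_option autoImplicit false

namespace Pool.Agent.Lib.MP_4c1f79_al

open Finset Module

private theorem DES_order (K : Type) [Field K] (D : Fd K) (m : ℕ) (hm : 0 < m) (hmr : m < D.r) :
    ¬ ∀ c : K, (⇑D.φ)^[m] c = c := by
  intro h
  have hfin : Finite K := by
    apply Nat.finite_of_card_ne_zero
    rw [D.card_K]
    exact pow_ne_zero _ (by have := D.q_gt; omega)
  obtain ⟨g, hg⟩ : ∃ g : RingAut K, g = D.φ := ⟨_, rfl⟩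
  have hpow : ∀ (n : ℕ) (c : K), (g ^ n) c = (⇑D.φ)^[n] c := by
    intro n
    induction n with
    | zero => intro c; rfl
    | succ n ih =>
      intro c
      rw [pow_succ, RingAut.mul_apply, ih, Function.iterate_succ_apply, hg]
  have hgm : g ^ m = 1 := by
    apply RingEquiv.ext
    intro c
    rw [hpow, h]
    rfl
  have hord : Nat.card (Subgroup.zpowers g) ≤ m := by
    rw [Nat.card_zpowers]
    exact Nat.le_of_dvd hm (orderOf_dvd_of_pow_eq_one hgm)
  have hfin2 : Finite (Subgroup.zpowers g) := by
    apply Set.Finite.to_subtype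
    rw [finite_zpowers]
    exact isOfFinOrder_iff_pow_eq_one.2 ⟨m, hm, hgm⟩
  have _ : Fintype (Subgroup.zpowers g) := Fintype.ofFinite _
  have h1 := FixedPoints.finrank_eq_card (Subgroup.zpowers g) K
  have h2 : Nat.card K = Nat.card (FixedPoints.subfield (Subgroup.zpowers g) K) ^
      finrank (FixedPoints.subfield (Subgroup.zpowers g) K) K := Module.natCard_eq_pow_finrank
  have h3 : Nat.card (FixedPoints.subfield (Subgroup.zpowers g) K) = D.q := by
    rw [← D.card_fix]
    apply Nat.card_congr
    refine Equiv.subtypeEquivRight ?_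
    intro c
    constructor
    · intro hc
      have h4 := hc ⟨g, Subgroup.mem_zpowers g⟩
      rw [hg] at h4
      exact h4
    · intro hc
      have h5 : Subgroup.zpowers g ≤ MulAction.stabilizer (RingAut K) c := by
        rw [Subgroup.zpowers_le, MulAction.mem_stabilizer_iff, hg]
        exact hc
      intro y
      exact h5 y.2
  rw [D.card_K, h3, h1, ← Nat.card_eq_fintype_card] at h2
  have h6 := Nat.pow_right_injective D.q_gt h2
  omega

/-- the powers of `φ` as characters -/
private def DES_chi (K : Type) [Field K] (D : Fd K) (i : Fin D.r) : K →* K where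
  toFun := (⇑D.φ)^[i]
  map_one' := iterate_map_one D.φ _
  map_mul' := iterate_map_mul D.φ _

private theorem DES_inj (K : Type) [Field K] (D : Fd K) : Function.Injective (DES_chi K D) := by
  have key : ∀ i j : Fin D.r, i.1 < j.1 → DES_chi K D i ≠ DES_chi K D j := by
    intro i j hij h
    apply DES_order K D (j.1 - i.1) (by omega) (by omega)
    intro c
    have h1 : (⇑D.φ)^[i] c = (⇑D.φ)^[j] c := DFunLike.congr_fun h c
    have h2 : (⇑D.φ)^[j] c = (⇑D.φ)^[i] ((⇑D.φ)^[j.1 - i.1] c) := by
      rw [← Function.iterate_add_apply]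
      congr 1
      omega
    rw [h2] at h1
    exact (D.φ.injective.iterate i.1 h1).symm
  intro i j h
  rcases lt_trichotomy i.1 j.1 with h1 | h1 | h1
  · exact absurd h (key i j h1)
  · exact Fin.ext h1
  · exact absurd h.symm (key j i h1)

private theorem DES_iter {K : Type} [Field K] {D : Fd K} {V : Type} [AddCommGroup V] [Module K V]
    (G : V →ₛₗ[(D.φ : K →+* K)] V) (n : ℕ) (c : K) (x : V) :
    (⇑G)^[n] (c • x) = (⇑D.φ)^[n] c • (⇑G)^[n] x := by
  induction n generalizing c x with
  | zero => rfl
  | succ n ih =>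
    rw [Function.iterate_succ_apply, Function.iterate_succ_apply, Function.iterate_succ_apply,
      LinearMap.map_smulₛₗ, ih]
    rfl

private theorem DES_span {K : Type} [Field K] {D : Fd K} {V : Type} [AddCommGroup V] [Module K V]
    (G : V →ₛₗ[(D.φ : K →+* K)] V) (hG : ∀ x, (⇑G)^[D.r] x = x) :
    Submodule.span K {x : V | G x = x} = ⊤ := by
  by_contra hne
  obtain ⟨l, hl0, hl⟩ := Submodule.exists_le_ker_of_lt_top _ (lt_top_iff_ne_top.2 hne)
  apply hl0
  ext x
  -- the relation
  have hrel : ∀ c : K, ∑ i : Fin D.r, l ((⇑G)^[i] x) * (⇑D.φ)^[i] c = 0 := by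
    intro c
    have hfix : G (∑ i ∈ range D.r, (⇑G)^[i] (c • x)) = ∑ i ∈ range D.r, (⇑G)^[i] (c • x) := by
      rw [map_sum]
      have h1 := Finset.sum_range_succ (fun i => (⇑G)^[i] (c • x)) D.r
      have h2 := Finset.sum_range_succ' (fun i => (⇑G)^[i] (c • x)) D.r
      rw [h1] at h2
      simp only [hG, Function.iterate_zero, id_eq] at h2
      have h3 := add_right_cancel h2
      rw [h3]
      apply Finset.sum_congr rfl
      intro i _
      rw [Function.iterate_succ_apply']
    have h4 : l (∑ i ∈ range D.r, (⇑G)^[i] (c • x)) = 0 :=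
      LinearMap.mem_ker.1 (hl (Submodule.subset_span hfix))
    rw [map_sum, Finset.sum_range] at h4
    rw [← h4]
    apply Finset.sum_congr rfl
    intro i _
    rw [DES_iter, map_smul, smul_eq_mul, mul_comm]
  have hli := (linearIndependent_monoidHom K K).comp (DES_chi K D) (DES_inj K D)
  rw [Fintype.linearIndependent_iff] at hli
  have h5 := hli (fun i => l ((⇑G)^[i] x)) (by
    funext c
    rw [Finset.sum_apply]
    exact hrel c) ⟨0, D.r_pos⟩
  exact h5

private theorem DES_card {K : Type} [Field K] {D : Fd K} {V : Type} [AddCommGroup V] [Module K V]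
    [Finite V] (G : V →ₛₗ[(D.φ : K →+* K)] V)
    (hs : Submodule.span K {x : V | G x = x} = ⊤) :
    Nat.card {x : V // G x = x} = D.q ^ finrank K V := by
  obtain ⟨B, hB, hBs, hBl⟩ := exists_linearIndependent K {x : V | G x = x}
  rw [hs] at hBs
  have hfB : Finite B := Set.toFinite B |>.to_subtype
  have _ : Fintype B := Fintype.ofFinite _
  let b : Basis B K V := Basis.mk hBl (by rw [Subtype.range_coe, hBs])
  have hb : ∀ i : B, G (b i) = b i := by
    intro i
    have h1 : b i = i := Basis.mk_apply _ _ _
    rw [h1]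
    exact hB i.2
  have hG : ∀ c : B → K, G (∑ i, c i • b i) = ∑ i, D.φ (c i) • b i := by
    intro c
    rw [map_sum]
    apply Finset.sum_congr rfl
    intro i _
    rw [LinearMap.map_smulₛₗ, hb]
    rfl
  have e : {x : V // G x = x} ≃ (B → {c : K // D.φ c = c}) :=
    { toFun := fun x i => ⟨b.repr x.1 i, by
        have h1 : G (∑ i, b.repr x.1 i • b i) = ∑ i, b.repr x.1 i • b i := by
          rw [b.sum_repr]
          exact x.2
        rw [hG] at h1
        have h2 := congrArg (fun y => b.repr y i) h1
        simp only [b.repr_sum_self] at h2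
        exact h2⟩
      invFun := fun c => ⟨∑ i, (c i : K) • b i, by
        rw [hG]
        exact Finset.sum_congr rfl fun i _ => by rw [(c i).2]⟩
      left_inv := fun x => Subtype.ext (b.sum_repr x.1)
      right_inv := fun c => by
        funext i
        apply Subtype.ext
        show b.repr (∑ i, (c i : K) • b i) i = c i
        rw [b.repr_sum_self] }
  rw [Nat.card_congr e, Nat.card_fun, D.card_fix, finrank_eq_nat_card_basis b]

theorem DES_holds : S_DES := by
  intro K _ D V _ _ _ G hG
  have hs := DES_span G hG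
  exact ⟨DES_card G hs, hs⟩

end Pool.Agent.Lib.MP_4c1f79_al
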