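import Pool.Agent.Lib.MP_4c1f79_al.StmD

/-!
# MP_4c1f79_al : piece DIM (exactness in numbers)
-/

set_option autoImplicit false

namespace Pool.Agent.Lib.MP_4c1f79_al

open Finset Module

section

variable {P : Type} [Fintype P] {M : Mesh P} {K : Type} [Field K]

/-- rank and nullity for the restriction of a linear map to a subspace -/
private theorem dim_rn {T T' : Type} [AddCommGroup T] [Module K T] [AddCommGroup T'] [Module K T']
    [Module.Finite K T] (f : T →ₗ[K] T') (V : Submodule K T) :
    finrank K (V.map f) + finrank K (V ⊓ LinearMap.ker f : Submodule K T) = finrank K V := by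
  have h1 := LinearMap.finrank_range_add_finrank_ker (f.comp V.subtype)
  have h2 : LinearMap.range (f.comp V.subtype) = V.map f := by
    rw [LinearMap.range_comp, Submodule.range_subtype]
  have h3 : LinearMap.ker (f.comp V.subtype) = (LinearMap.ker f).comap V.subtype :=
    LinearMap.ker_comp _ _
  have h4 : finrank K (LinearMap.ker (f.comp V.subtype)) =
      finrank K (V ⊓ LinearMap.ker f : Submodule K T) := by
    rw [h3, ← Submodule.map_comap_subtype]
    exact (LinearEquiv.finrank_eq (Submodule.equivMapOfInjective V.subtype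
      V.injective_subtype _))
  rw [← h1, h2, h4]

/-- the vectors supported on the successors of `p` -/
private def dim_Y (R : Rp M K) (p : P) : Submodule K R.T where
  carrier := {y | ∀ q, ¬ M.Ar p q → R.e q y = 0}
  zero_mem' := fun q _ => map_zero _
  add_mem' := fun {x y} hx hy q hq => by rw [map_add, hx q hq, hy q hq, add_zero]
  smul_mem' := fun c x hx q hq => by rw [map_smul, hx q hq, smul_zero]

private theorem dim_mem {R : Rp M K} {p : P} {x : R.T} :
    x ∈ LinearMap.range (R.e p) ↔ R.e p x = x := by
  constructor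
  · rintro ⟨y, rfl⟩
    exact R.e_e p y
  · intro h
    exact ⟨x, h⟩

/-- the dimension of `dim_Y` -/
private theorem dim_Y_rank (R : Rp M K) (p : P) : finrank K (dim_Y R p) = sA M R.dm p := by
  classical
  have hfin : Module.Finite K R.T := Module.Finite.of_finite
  let f : dim_Y R p →ₗ[K] (∀ q : {q // M.Ar p q}, LinearMap.range (R.e q.1)) :=
    LinearMap.pi fun q => ((R.e q.1).rangeRestrict).comp (dim_Y R p).subtype
  have hf : ∀ y q, ((f y q : LinearMap.range (R.e q.1)) : R.T) = R.e q.1 y.1 := fun y q => rfl
  have hbij : Function.Bijective f := by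
    constructor
    · rw [← LinearMap.ker_eq_bot, LinearMap.ker_eq_bot']
      intro y hy
      apply Subtype.ext
      show y.1 = 0
      rw [← R.e_sum y.1]
      refine Finset.sum_eq_zero fun q _ => ?_
      by_cases hq : M.Ar p q
      · rw [← hf y ⟨q, hq⟩, hy]
        rfl
      · exact y.2 q hq
    · intro v
      have key : ∀ q' : P, R.e q' (∑ q : {q // M.Ar p q}, (v q : R.T)) =
          if h : M.Ar p q' then (v ⟨q', h⟩ : R.T) else 0 := by
        intro q'
        rw [map_sum]
        split_ifs with h
        · rw [Finset.sum_eq_single (⟨q', h⟩ : {q // M.Ar p q})]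
          · exact dim_mem.1 (v ⟨q', h⟩).2
          · intro q _ hq
            rw [← dim_mem.1 (v q).2]
            exact R.e_ne q' q.1 _ fun e => hq (Subtype.ext e.symm)
          · intro h'
            exact absurd (Finset.mem_univ _) h'
        · refine Finset.sum_eq_zero fun q _ => ?_
          rw [← dim_mem.1 (v q).2]
          exact R.e_ne q' q.1 _ fun e => h (e ▸ q.2)
      refine ⟨⟨∑ q : {q // M.Ar p q}, (v q : R.T), fun q hq => ?_⟩, ?_⟩
      · rw [key, dif_neg hq]
      · funext q
        apply Subtype.ext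
        rw [hf, key, dif_pos q.2]
  rw [LinearEquiv.finrank_eq (LinearEquiv.ofBijective f hbij), Module.finrank_pi_fintype]
  unfold sA Rp.dm
  rw [← Finset.sum_filter, Finset.sum_subtype (univ.filter (M.Ar p)) (p := M.Ar p)
    (fun q => by simp)]

private theorem dim_rest {R : Rp M K} {p r : P} (h : M.Tau p r) (x : R.T) :
    ∃ y ∈ dim_Y R p, R.e r (R.a y) = R.e r (R.a x) := by
  classical
  refine ⟨∑ q, if M.Ar p q then R.e q x else 0, fun q hq => ?_, ?_⟩
  · rw [map_sum]
    refine Finset.sum_eq_zero fun q' _ => ?_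
    split_ifs with h'
    · exact R.e_ne q q' x (fun e => hq (e ▸ h'))
    · exact map_zero _
  · conv_rhs => rw [← R.e_sum x]
    rw [map_sum, map_sum, map_sum, map_sum]
    refine Finset.sum_congr rfl fun q _ => ?_
    split_ifs with h'
    · rfl
    · rw [map_zero, map_zero]
      exact (R.a_ar q r x fun h2 => h' ((M.mesh_ar p r q h).2 h2)).symm

end

/-- PIECE DIM -/
theorem DIM_holds : S_DIM := by
  classical
  intro P _ M K _ R p hgood
  have hfin : Module.Finite K R.T := Module.Finite.of_finite
  -- the kernel of `a` at `p`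
  have h1 := dim_rn R.a (LinearMap.range (R.e p))
  have h1' : finrank K ((LinearMap.range (R.e p)).map R.a) + R.sc p = R.dm p := h1
  have hY := dim_Y_rank R p
  have himg : ∀ y : R.T, y ∈ (LinearMap.range (R.e p)).map R.a ↔
      y ∈ dim_Y R p ∧ ∀ r, M.Tau p r → R.e r (R.a y) = 0 := by
    intro y
    constructor
    · rintro ⟨x, hx, rfl⟩
      have hx' : R.e p x = x := dim_mem.1 hx
      refine ⟨fun q hq => ?_, fun r hr => ?_⟩
      · rw [← hx']
        exact R.a_ar p q x hq
      · rw [← hx']
        exact R.mesh p r x hr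
    · rintro ⟨hy1, hy2⟩
      obtain ⟨x, hx1, hx2⟩ := hgood y hy1 hy2
      exact ⟨x, dim_mem.2 hx1, hx2⟩
  by_cases hr : ∃ r, M.Tau p r
  · obtain ⟨r, hr⟩ := hr
    have hsT : sT M R.dm p = R.dm r := by
      unfold sT
      rw [Finset.sum_eq_single r, if_pos hr]
      · intro r' _ hr'
        rw [if_neg fun h => hr' (M.tau_fun p r' r h hr)]
      · intro h
        exact absurd (Finset.mem_univ _) h
    have h2 := dim_rn ((R.e r).comp R.a) (dim_Y R p)
    have hker : (dim_Y R p ⊓ LinearMap.ker ((R.e r).comp R.a) : Submodule K R.T) =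
        (LinearMap.range (R.e p)).map R.a := by
      ext y
      rw [himg]
      constructor
      · rintro ⟨hy1, hy2⟩
        refine ⟨hy1, fun r' hr' => ?_⟩
        rw [M.tau_fun p r' r hr' hr]
        exact hy2
      · rintro ⟨hy1, hy2⟩
        exact ⟨hy1, hy2 r hr⟩
    rw [hker, hY] at h2
    have hle : (dim_Y R p).map ((R.e r).comp R.a) ≤ LinearMap.range (R.e r) := by
      rintro _ ⟨y, -, rfl⟩
      exact ⟨R.a y, rfl⟩
    have h3 : finrank K ((dim_Y R p).map ((R.e r).comp R.a)) ≤ R.dm r :=
      Submodule.finrank_mono hle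
    rw [hsT]
    refine ⟨by omega, fun h => ?_⟩
    have h4 : finrank K ((dim_Y R p).map ((R.e r).comp R.a)) = R.dm r := by
      rcases h r hr with h5 | h5
      · have h6 : (dim_Y R p).map ((R.e r).comp R.a) = LinearMap.range (R.e r) := by
          refine le_antisymm hle fun y hy => ?_
          obtain ⟨x, hx⟩ := h5 y (dim_mem.1 hy)
          obtain ⟨z, hz1, hz2⟩ := dim_rest (R := R) hr x
          exact ⟨z, hz1, hz2.trans hx⟩
        rw [h6]
        rfl
      · omega
    omega
  · have hsT : sT M R.dm p = 0 := by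
      unfold sT
      refine Finset.sum_eq_zero fun r _ => ?_
      rw [if_neg fun h => hr ⟨r, h⟩]
    have hZ : (LinearMap.range (R.e p)).map R.a = dim_Y R p := by
      ext y
      rw [himg]
      exact ⟨fun h => h.1, fun h => ⟨h, fun r h' => absurd ⟨r, h'⟩ hr⟩⟩
    rw [hZ, hY] at h1'
    rw [hsT]
    exact ⟨by omega, fun _ => by omega⟩

end Pool.Agent.Lib.MP_4c1f79_al
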