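import Pool.Agent.Lib.MP_4c1f79_al.StmD

/-!
# MP_4c1f79_al : piece DMS (dimension vectors of good representations)
-/

set_option autoImplicit false

namespace Pool.Agent.Lib.MP_4c1f79_al

open Finset Module

/-- the zero representation -/
private def dmsZero {P : Type} [Fintype P] (M : Mesh P) (K : Type) [Field K] : Rp M K where
  T := PUnit
  e _ := 0
  a := 0
  e_e _ _ := rfl
  e_ne _ _ _ _ := rfl
  e_sum _ := rfl
  a_ar _ _ _ _ := rfl
  mesh _ _ _ _ := rfl

private theorem dms_ex (hDQ2 : S_DQ2) {P : Type} [Fintype P] {M : Mesh P} {K : Type} [Field K]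
    {U : Set P} (Ru : P → Rp M K) (hRu : ∀ u ∈ U, (Ru u).Good U ∧ ∀ p, (Ru u).sc p = ind {u} p) :
    ∀ n : ℕ, ∀ m : P → ℕ, ∑ p, m p = n → (∀ p, p ∉ U → m p = 0) →
      ∃ R : Rp M K, R.Good U ∧ (∀ p, R.sc p = m p) ∧ ∀ p, R.dm p = ∑ u, m u * (Ru u).dm p := by
  classical
  obtain ⟨q1, q2, q3, -, -⟩ := hDQ2 P M K
  intro n
  induction n with
  | zero =>
    intro m hm _
    have h0 : ∀ p, m p = 0 := fun p => by
      have := Finset.sum_eq_zero_iff.1 hm p (Finset.mem_univ p)
      exact this
    have hsub : Subsingleton (dmsZero M K).T := inferInstanceAs (Subsingleton PUnit)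
    refine ⟨dmsZero M K, ⟨fun p _ x => rfl, fun p _ y _ _ => ⟨0, rfl, rfl⟩⟩, fun p => ?_,
      fun p => ?_⟩
    · rw [h0, Rp.sc]
      exact Module.finrank_zero_of_subsingleton
    · rw [Rp.dm]
      simp only [h0, zero_mul, Finset.sum_const_zero]
      exact Module.finrank_zero_of_subsingleton
  | succ n ih =>
    intro m hm hU
    obtain ⟨u, hu⟩ : ∃ u, m u ≠ 0 := by
      by_contra h
      push Not at h
      simp [h] at hm
    have huU : u ∈ U := by
      by_contra h
      exact hu (hU u h)
    obtain ⟨m', hm'⟩ : ∃ m' : P → ℕ, ∀ p, m p = m' p + ind {u} p := by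
      refine ⟨fun p => m p - ind {u} p, fun p => ?_⟩
      by_cases hp : p = u
      · subst hp
        have h1 : ind {p} p = 1 := by
          rw [ind, Set.indicator_of_mem (Set.mem_singleton p)]; rfl
        simp only [h1]
        omega
      · have h1 : ind {u} p = 0 := by
          rw [ind, Set.indicator_of_notMem (by simpa using hp)]
        simp only [h1]
        omega
    have hind : ∀ f : P → ℕ, ∑ p, ind {u} p * f p = f u := by
      intro f
      rw [Finset.sum_eq_single u]
      · rw [ind, Set.indicator_of_mem (Set.mem_singleton u)]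
        simp
      · intro b _ hb
        rw [ind, Set.indicator_of_notMem (by simpa using hb), zero_mul]
      · intro h
        exact absurd (Finset.mem_univ u) h
    have hsum : ∑ p, m' p = n := by
      have h1 : ∑ p, m p = ∑ p, m' p + ∑ p, ind {u} p * 1 := by
        rw [← Finset.sum_add_distrib]
        exact Finset.sum_congr rfl fun p _ => by rw [hm' p, mul_one]
      rw [hm, hind] at h1
      omega
    obtain ⟨R', hg, hsc, hdm⟩ := ih m' hsum fun p hp => by
      have h1 := hU p hp
      rw [hm'] at h1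
      omega
    obtain ⟨hg2, hsc2⟩ := hRu u huU
    refine ⟨R'.prod (Ru u), q3 _ _ U hg hg2, fun p => ?_, fun p => ?_⟩
    · rw [q2, hsc, hsc2, hm']
    · rw [q1, hdm]
      have h1 : ∑ v, m v * (Ru v).dm p = ∑ v, m' v * (Ru v).dm p
          + ∑ v, ind {u} v * (Ru v).dm p := by
        rw [← Finset.sum_add_distrib]
        exact Finset.sum_congr rfl fun v _ => by rw [hm' v, add_mul]
      rw [h1, hind fun v => (Ru v).dm p]

theorem DMS_holds (hMON : S_MON) (hDQ2 : S_DQ2) : S_DMS := by
  intro P _ M K _ U R hR Ru hRu p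
  have hsc0 : ∀ u, u ∉ U → R.sc u = 0 := by
    intro u hu
    have h1 : LinearMap.range (R.e u) = ⊥ := by
      rw [LinearMap.range_eq_bot]
      exact LinearMap.ext fun x => hR.1 u hu x
    rw [Rp.sc, h1, bot_inf_eq]
    exact finrank_bot K R.T
  obtain ⟨R', hg, hsc, hdm⟩ := dms_ex hDQ2 Ru hRu _ R.sc rfl hsc0
  have h1 := hMON P M K R R' U hR hg.1 (fun p => (hsc p).le) p
  have h2 := hMON P M K R' R U hg hR.1 (fun p => (hsc p).ge) p
  rw [← hdm]
  exact le_antisymm h2 h1

end Pool.Agent.Lib.MP_4c1f79_al
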