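import Pool.Agent.Lib.MP_4c1f79_al.StmA

/-!
# [J4 DQ1] Dimension vectors of subs and quotients
-/

set_option autoImplicit false

namespace Pool.Agent.Lib.MP_4c1f79_al

open Finset Module

private theorem DQ1_map {P : Type} [Fintype P] {M : Mesh P} {K : Type} [Field K] (R : Rp M K)
    (W : Submodule K R.T) (h : R.St W) (p : P) :
    W.map (R.e p) = W ⊓ LinearMap.range (R.e p) := by
  ext x
  rw [Submodule.mem_map, Submodule.mem_inf, LinearMap.mem_range]
  constructor
  · rintro ⟨y, hy, rfl⟩
    exact ⟨h.1 p y hy, y, rfl⟩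
  · rintro ⟨hx, y, rfl⟩
    exact ⟨R.e p y, hx, R.e_e p y⟩

theorem DQ1_holds : S_DQ1 := by
  intro P _ M K _
  have hfin : ∀ R : Rp M K, Module.Finite K R.T := fun R => Module.Finite.of_finite
  refine ⟨?_, ?_, ?_, ?_, ?_, ?_⟩
  · intro R W h p
    have := hfin R
    rw [Rp.dm, Rp.dmS]
    have h1 : (LinearMap.range ((R.sub W h).e p)).map W.subtype = W.map (R.e p) := by
      ext x
      rw [Submodule.mem_map, Submodule.mem_map]
      constructor
      · rintro ⟨y, ⟨z, rfl⟩, rfl⟩
        exact ⟨z.1, z.2, rfl⟩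
      · rintro ⟨y, hy, rfl⟩
        exact ⟨⟨R.e p y, h.1 p y hy⟩, ⟨⟨y, hy⟩, rfl⟩, rfl⟩
    rw [← h1]
    exact (Submodule.finrank_map_subtype_eq W _).symm
  · intro R W h p
    have := hfin R
    have h1 : LinearMap.range (W.mkQ.comp (LinearMap.range (R.e p)).subtype) =
        LinearMap.range (W.mapQ W (R.e p) (fun x hx => h.1 p x hx)) := by
      ext x
      rw [LinearMap.mem_range, LinearMap.mem_range]
      constructor
      · rintro ⟨⟨_, ⟨y, rfl⟩⟩, rfl⟩
        exact ⟨W.mkQ y, rfl⟩
      · rintro ⟨y, rfl⟩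
        obtain ⟨y, rfl⟩ := W.mkQ_surjective y
        exact ⟨⟨R.e p y, ⟨y, rfl⟩⟩, rfl⟩
    have h2 : (LinearMap.ker (W.mkQ.comp (LinearMap.range (R.e p)).subtype)).map
        (LinearMap.range (R.e p)).subtype = W.map (R.e p) := by
      rw [DQ1_map R W h p]
      ext x
      rw [Submodule.mem_map, Submodule.mem_inf]
      constructor
      · rintro ⟨y, hy, rfl⟩
        rw [LinearMap.mem_ker, LinearMap.comp_apply, Submodule.mkQ_apply,
          Submodule.Quotient.mk_eq_zero] at hy
        exact ⟨hy, y.2⟩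
      · rintro ⟨hx, hr⟩
        refine ⟨⟨x, hr⟩, ?_, rfl⟩
        rw [LinearMap.mem_ker, LinearMap.comp_apply, Submodule.mkQ_apply,
          Submodule.Quotient.mk_eq_zero]
        exact hx
    have h3 := LinearMap.finrank_range_add_finrank_ker
      (W.mkQ.comp (LinearMap.range (R.e p)).subtype)
    rw [h1, ← Submodule.finrank_map_subtype_eq (LinearMap.range (R.e p)) (LinearMap.ker _),
      h2] at h3
    exact h3
  · intro R p
    rw [Rp.dm, Rp.dmS, Submodule.map_top]
  · intro R W h p
    rw [Rp.dmS, DQ1_map R W h p]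
  · intro R W W' h p
    have := hfin R
    exact Submodule.finrank_mono (Submodule.map_mono h)
  · intro R W W' h h' hle hd
    have := hfin R
    apply le_antisymm hle
    intro x hx
    have h1 : ∀ p, R.e p x ∈ W := by
      intro p
      have h2 : W.map (R.e p) = W'.map (R.e p) :=
        Submodule.eq_of_le_of_finrank_eq (Submodule.map_mono hle) (hd p)
      have h3 : R.e p x ∈ W'.map (R.e p) := Submodule.mem_map_of_mem hx
      rw [← h2, DQ1_map R W h p] at h3
      exact h3.1
    rw [← R.e_sum x]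
    exact Submodule.sum_mem _ fun p _ => h1 p

end Pool.Agent.Lib.MP_4c1f79_al
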