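import Pool.Agent.Lib.MP_4c1f79_al.StmA

/-!
# [J4 DQ2] Products
-/

set_option autoImplicit false

namespace Pool.Agent.Lib.MP_4c1f79_al

open Finset Module

private theorem DQ2_rank {K A B : Type} [Field K] [AddCommGroup A] [Module K A] [AddCommGroup B]
    [Module K B] [Module.Finite K A] [Module.Finite K B] (V : Submodule K (A × B)) :
    finrank K V = finrank K (V.comap (LinearMap.inl K A B)) +
      finrank K (V.map (LinearMap.snd K A B)) := by
  have h1 : LinearMap.range ((LinearMap.snd K A B).comp V.subtype) =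
      V.map (LinearMap.snd K A B) := by
    rw [LinearMap.range_comp, Submodule.range_subtype]
  have h2 : (LinearMap.ker ((LinearMap.snd K A B).comp V.subtype)).map V.subtype =
      (V.comap (LinearMap.inl K A B)).map (LinearMap.inl K A B) := by
    ext x
    rw [Submodule.mem_map, Submodule.mem_map]
    constructor
    · rintro ⟨y, hy, rfl⟩
      rw [LinearMap.mem_ker] at hy
      have h3 : (y : A × B).2 = 0 := hy
      refine ⟨(y : A × B).1, ?_, ?_⟩
      · rw [Submodule.mem_comap, LinearMap.inl_apply]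
        have h4 : ((y : A × B).1, (0 : B)) = (y : A × B) := Prod.ext rfl h3.symm
        rw [h4]
        exact y.2
      · exact Prod.ext rfl h3.symm
    · rintro ⟨y, hy, rfl⟩
      exact ⟨⟨(y, 0), hy⟩, rfl, rfl⟩
  have h3 := LinearMap.finrank_range_add_finrank_ker ((LinearMap.snd K A B).comp V.subtype)
  have h4 : finrank K (V.comap (LinearMap.inl K A B)) =
      finrank K ((V.comap (LinearMap.inl K A B)).map (LinearMap.inl K A B)) :=
    (Submodule.equivMapOfInjective _ LinearMap.inl_injective _).finrank_eq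
  rw [h1, ← Submodule.finrank_map_subtype_eq V (LinearMap.ker _), h2, ← h4, add_comm] at h3
  exact h3.symm

theorem DQ2_holds : S_DQ2 := by
  intro P _ M K _
  have hfin : ∀ R : Rp M K, Module.Finite K R.T := fun R => Module.Finite.of_finite
  refine ⟨?_, ?_, ?_, ?_, ?_⟩
  · intro R₁ R₂ p
    have := hfin R₁
    have := hfin R₂
    have h := DQ2_rank (LinearMap.range ((R₁.e p).prodMap (R₂.e p)))
    have h1 : (LinearMap.range ((R₁.e p).prodMap (R₂.e p))).comap
        (LinearMap.inl K R₁.T R₂.T) = LinearMap.range (R₁.e p) := by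
      ext x
      constructor
      · rintro ⟨⟨y, z⟩, hy⟩
        exact ⟨y, congrArg Prod.fst hy⟩
      · rintro ⟨y, rfl⟩
        exact ⟨(y, 0), Prod.ext rfl (map_zero (R₂.e p))⟩
    have h2 : (LinearMap.range ((R₁.e p).prodMap (R₂.e p))).map
        (LinearMap.snd K R₁.T R₂.T) = LinearMap.range (R₂.e p) := by
      ext x
      constructor
      · rintro ⟨_, ⟨⟨y, z⟩, rfl⟩, rfl⟩
        exact ⟨z, rfl⟩
      · rintro ⟨y, rfl⟩
        exact ⟨(0, R₂.e p y), ⟨(0, y), Prod.ext (map_zero (R₁.e p)) rfl⟩, rfl⟩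
    rw [h1, h2] at h
    exact h
  · intro R₁ R₂ p
    have := hfin R₁
    have := hfin R₂
    have h := DQ2_rank (LinearMap.range ((R₁.e p).prodMap (R₂.e p)) ⊓
      LinearMap.ker (R₁.a.prodMap R₂.a))
    have h1 : (LinearMap.range ((R₁.e p).prodMap (R₂.e p)) ⊓
        LinearMap.ker (R₁.a.prodMap R₂.a)).comap (LinearMap.inl K R₁.T R₂.T) =
        LinearMap.range (R₁.e p) ⊓ LinearMap.ker R₁.a := by
      ext x
      constructor
      · rintro ⟨⟨⟨y, z⟩, hy⟩, hk⟩
        exact ⟨⟨y, congrArg Prod.fst hy⟩, congrArg Prod.fst hk⟩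
      · rintro ⟨⟨y, rfl⟩, hk⟩
        exact ⟨⟨(y, 0), Prod.ext rfl (map_zero (R₂.e p))⟩, Prod.ext hk (map_zero R₂.a)⟩
    have h2 : (LinearMap.range ((R₁.e p).prodMap (R₂.e p)) ⊓
        LinearMap.ker (R₁.a.prodMap R₂.a)).map (LinearMap.snd K R₁.T R₂.T) =
        LinearMap.range (R₂.e p) ⊓ LinearMap.ker R₂.a := by
      ext x
      constructor
      · rintro ⟨⟨u, v⟩, ⟨⟨⟨y, z⟩, hy⟩, hk⟩, rfl⟩
        exact ⟨⟨z, congrArg Prod.snd hy⟩, congrArg Prod.snd hk⟩
      · rintro ⟨⟨y, rfl⟩, hk⟩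
        exact ⟨(0, R₂.e p y), ⟨⟨(0, y), Prod.ext (map_zero (R₁.e p)) rfl⟩,
          Prod.ext (map_zero R₁.a) hk⟩, rfl⟩
    rw [h1, h2] at h
    exact h
  · intro R₁ R₂ U h₁ h₂
    refine ⟨?_, ?_⟩
    · rintro p hp ⟨x, y⟩
      exact Prod.ext (h₁.1 p hp x) (h₂.1 p hp y)
    · rintro p hp ⟨y, z⟩ hy hr
      obtain ⟨u, hu, hu'⟩ := h₁.2 p hp y (fun q hq => congrArg Prod.fst (hy q hq))
        (fun r hpr => congrArg Prod.fst (hr r hpr))
      obtain ⟨v, hv, hv'⟩ := h₂.2 p hp z (fun q hq => congrArg Prod.snd (hy q hq))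
        (fun r hpr => congrArg Prod.snd (hr r hpr))
      exact ⟨(u, v), Prod.ext hu hv, Prod.ext hu' hv'⟩
  · intro R₁ R₂ U h
    refine ⟨⟨?_, ?_⟩, ⟨?_, ?_⟩⟩
    · intro p hp x
      exact congrArg Prod.fst (h.1 p hp (x, 0))
    · intro p hp y hy hr
      obtain ⟨x, hx, hx'⟩ := h.2 p hp (y, 0)
        (fun q hq => Prod.ext (hy q hq) (map_zero (R₂.e q)))
        (fun r hpr => Prod.ext (hr r hpr) (by
          change R₂.e r (R₂.a 0) = 0
          rw [map_zero, map_zero]))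
      exact ⟨x.1, congrArg Prod.fst hx, congrArg Prod.fst hx'⟩
    · intro p hp x
      exact congrArg Prod.snd (h.1 p hp (0, x))
    · intro p hp y hy hr
      obtain ⟨x, hx, hx'⟩ := h.2 p hp (0, y)
        (fun q hq => Prod.ext (map_zero (R₁.e q)) (hy q hq))
        (fun r hpr => Prod.ext (by
          change R₁.e r (R₁.a 0) = 0
          rw [map_zero, map_zero]) (hr r hpr))
      exact ⟨x.2, congrArg Prod.snd hx, congrArg Prod.snd hx'⟩
  · intro R₁ R₂ W p hW
    have := hfin R₁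
    have := hfin R₂
    have h := DQ2_rank (W.map ((R₁.e p).prodMap (R₂.e p)))
    have h1 : (W.map ((R₁.e p).prodMap (R₂.e p))).comap (LinearMap.inl K R₁.T R₂.T) =
        (W.comap (LinearMap.inl K R₁.T R₂.T)).map (R₁.e p) := by
      ext x
      constructor
      · rintro ⟨⟨y, z⟩, hy, hyz⟩
        have h3 : R₁.e p y = x := congrArg Prod.fst hyz
        have h4 : ((R₁.e p).prodMap (R₂.e p)) (y, z) ∈ W := hW.1 p (y, z) hy
        rw [hyz] at h4
        refine ⟨x, h4, ?_⟩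
        rw [← h3]
        exact R₁.e_e p y
      · rintro ⟨y, hy, rfl⟩
        exact ⟨(y, 0), hy, Prod.ext rfl (map_zero (R₂.e p))⟩
    have h2 : (W.map ((R₁.e p).prodMap (R₂.e p))).map (LinearMap.snd K R₁.T R₂.T) =
        (W.map (LinearMap.snd K R₁.T R₂.T)).map (R₂.e p) := by
      ext x
      constructor
      · rintro ⟨_, ⟨⟨y, z⟩, hy, rfl⟩, rfl⟩
        exact ⟨z, ⟨(y, z), hy, rfl⟩, rfl⟩
      · rintro ⟨_, ⟨⟨y, z⟩, hy, rfl⟩, rfl⟩
        exact ⟨(R₁.e p y, R₂.e p z), ⟨(y, z), hy, rfl⟩, rfl⟩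
    rw [h1, h2] at h
    exact h

end Pool.Agent.Lib.MP_4c1f79_al
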