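import Pool.Agent.Lib.MP_4c1f79_al.StmA

set_option autoImplicit false

namespace Pool.Agent.Lib.MP_4c1f79_al

open Finset Module

theorem DQ3_inf {K T T' : Type} [Field K] [AddCommGroup T] [Module K T] [Finite T]
    [AddCommGroup T'] [Module K T'] (f : T →ₗ[K] T') (A : Submodule K T) :
    finrank K (A.map f) + finrank K (A ⊓ LinearMap.ker f : Submodule K T) = finrank K A := by
  have h1 := LinearMap.finrank_range_add_finrank_ker (f.domRestrict A)
  have h2 : LinearMap.range (f.domRestrict A) = A.map f := by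
    ext y
    constructor
    · rintro ⟨x, rfl⟩
      exact ⟨x.1, x.2, rfl⟩
    · rintro ⟨x, hx, rfl⟩
      exact ⟨⟨x, hx⟩, rfl⟩
  have h3 : (LinearMap.ker (f.domRestrict A)).map A.subtype = A ⊓ LinearMap.ker f := by
    ext y
    constructor
    · rintro ⟨x, hx, rfl⟩
      exact ⟨x.2, hx⟩
    · rintro ⟨hy1, hy2⟩
      exact ⟨⟨y, hy1⟩, hy2, rfl⟩
  have h4 := Submodule.finrank_map_subtype_eq A (LinearMap.ker (f.domRestrict A))
  rw [h3] at h4
  rw [h2, ← h4] at h1
  exact h1

theorem DQ3_holds : S_DQ3 := by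
  intro P _ M K _
  have c4 : ∀ (R : Rp M K) (p : P), R.dm p = 0 ↔ ∀ x, R.e p x = 0 := by
    intro R p
    unfold Rp.dm
    rw [Submodule.finrank_eq_zero]
    constructor
    · intro h x
      have : R.e p x ∈ LinearMap.range (R.e p) := ⟨x, rfl⟩
      rw [h] at this
      exact (Submodule.mem_bot K).1 this
    · intro h
      rw [eq_bot_iff]
      rintro _ ⟨x, rfl⟩
      exact (Submodule.mem_bot K).2 (h x)
  have c5 : ∀ (R : Rp M K) (p : P),
      R.sc p = 0 ↔ ∀ x, R.e p x = x → R.a x = 0 → x = 0 := by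
    intro R p
    unfold Rp.sc
    rw [Submodule.finrank_eq_zero]
    constructor
    · intro h x h1 h2
      have : x ∈ (LinearMap.range (R.e p) ⊓ LinearMap.ker R.a : Submodule K R.T) :=
        ⟨⟨x, h1⟩, h2⟩
      rw [h] at this
      exact (Submodule.mem_bot K).1 this
    · intro h
      rw [eq_bot_iff]
      rintro _ ⟨⟨x, rfl⟩, h2⟩
      exact (Submodule.mem_bot K).2 (h _ (R.e_e p x) h2)
  refine ⟨?_, ?_, ?_, c4, c5, ?_⟩
  · intro R W h V p
    have key : (V.map ((R.quo W h).e p)) = ((V.comap W.mkQ).map (R.e p)).map W.mkQ := by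
      ext y
      constructor
      · rintro ⟨v, hv, rfl⟩
        obtain ⟨x, rfl⟩ := W.mkQ_surjective v
        exact ⟨R.e p x, ⟨x, hv, rfl⟩, rfl⟩
      · rintro ⟨_, ⟨x, hx, rfl⟩, rfl⟩
        exact ⟨W.mkQ x, hx, rfl⟩
    have key2 : ((V.comap W.mkQ).map (R.e p)) ⊓ LinearMap.ker W.mkQ = W.map (R.e p) := by
      rw [Submodule.ker_mkQ]
      ext y
      constructor
      · rintro ⟨⟨x, hx, rfl⟩, hy⟩
        exact ⟨R.e p x, hy, R.e_e p x⟩
      · rintro ⟨x, hx, rfl⟩
        refine ⟨⟨x, ?_, rfl⟩, h.1 p x hx⟩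
        change W.mkQ x ∈ V
        have : W.mkQ x = 0 := (Submodule.Quotient.mk_eq_zero W).2 hx
        rw [this]
        exact V.zero_mem
    have := DQ3_inf W.mkQ ((V.comap W.mkQ).map (R.e p))
    rw [key2] at this
    unfold Rp.dmS
    rw [key]
    exact this
  · intro R W h V p
    have key : ((V.map ((R.sub W h).e p)).map W.subtype) = (V.map W.subtype).map (R.e p) := by
      ext y
      constructor
      · rintro ⟨_, ⟨v, hv, rfl⟩, rfl⟩
        exact ⟨v.1, ⟨v, hv, rfl⟩, rfl⟩
      · rintro ⟨_, ⟨v, hv, rfl⟩, rfl⟩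
        exact ⟨(R.sub W h).e p v, ⟨v, hv, rfl⟩, rfl⟩
    have h4 := Submodule.finrank_map_subtype_eq W (V.map ((R.sub W h).e p))
    exact ((congrArg (fun A : Submodule K R.T => finrank K A) key).symm.trans h4).symm
  · intro R W h p
    have h4 := Submodule.finrank_map_subtype_eq W
      (LinearMap.range ((R.sub W h).e p) ⊓ LinearMap.ker (R.sub W h).a : Submodule K W)
    unfold Rp.sc
    refine le_trans (le_of_eq h4.symm) ?_
    apply Submodule.finrank_mono
    rintro _ ⟨v, ⟨⟨x, rfl⟩, hv⟩, rfl⟩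
    refine ⟨⟨x.1, rfl⟩, ?_⟩
    have : (R.sub W h).a ((R.sub W h).e p x) = 0 := hv
    exact congrArg Subtype.val this
  · intro R hR
    have ind : ∀ (n : ℕ) (p : P) (x : R.T), M.lv p ≤ n → R.e p x = x → x = 0 := by
      intro n
      induction n with
      | zero =>
        intro p x hp hx
        refine (c5 R p).1 (hR p) x hx ?_
        rw [← R.e_sum (R.a x)]
        apply Finset.sum_eq_zero
        intro q _
        by_cases hq : M.Ar p q
        · have := M.lv_ar p q hq
          omega
        · have := R.a_ar p q x hq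
          rwa [hx] at this
      | succ n ih =>
        intro p x hp hx
        refine (c5 R p).1 (hR p) x hx ?_
        rw [← R.e_sum (R.a x)]
        apply Finset.sum_eq_zero
        intro q _
        by_cases hq : M.Ar p q
        · have := M.lv_ar p q hq
          exact ih q _ (by omega) (R.e_e q _)
        · have := R.a_ar p q x hq
          rwa [hx] at this
    intro x
    rw [← R.e_sum x]
    apply Finset.sum_eq_zero
    intro p _
    exact ind _ p _ le_rfl (R.e_e p x)

end Pool.Agent.Lib.MP_4c1f79_al
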