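import Pool.Agent.Lib.MP_4c1f79_al.Stm8

set_option autoImplicit false

namespace Pool.Agent.Lib.MP_4c1f79_al

open Finset Module

section

variable {P : Type} [Fintype P] {M : Mesh P} {K : Type} [Field K]

/-- The elements whose component at `p` is in `C p`. -/
def E8a_W (R : Rp M K) (C : P → Submodule K R.T) : Submodule K R.T where
  carrier := {x | ∀ p, R.e p x ∈ C p}
  zero_mem' := fun p => by
    rw [map_zero]
    exact (C p).zero_mem
  add_mem' := fun {x y} hx hy p => by
    rw [map_add]
    exact (C p).add_mem (hx p) (hy p)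
  smul_mem' := fun c x hx p => by
    rw [map_smul]
    exact (C p).smul_mem c (hx p)

theorem E8a_St (R : Rp M K) (C : P → Submodule K R.T)
    (h : ∀ p q, M.Ar p q → ∀ x, R.e p x ∈ C p → R.e q (R.a (R.e p x)) ∈ C q) :
    R.St (E8a_W R C) := by
  constructor
  · intro p x hx q
    by_cases hq : q = p
    · subst hq
      rw [R.e_e]
      exact hx q
    · rw [R.e_ne q p x hq]
      exact (C q).zero_mem
  · intro x hx q
    have : R.e q (R.a x) = ∑ p, R.e q (R.a (R.e p x)) := by
      conv_lhs => rw [← R.e_sum x]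
      rw [map_sum, map_sum]
    rw [this]
    refine (C q).sum_mem fun p _ => ?_
    by_cases hp : M.Ar p q
    · exact h p q hp x (hx p)
    · rw [R.a_ar p q x hp]
      exact (C q).zero_mem

theorem E8a_gen_St (R : Rp M K) (B : Submodule K R.T) : R.St (R.gen B) := by
  constructor
  · intro p x hx
    refine (Submodule.mem_sInf).2 fun W hW => ?_
    exact hW.1.1 p x ((Submodule.mem_sInf).1 hx W hW)
  · intro x hx
    refine (Submodule.mem_sInf).2 fun W hW => ?_
    exact hW.1.2 x ((Submodule.mem_sInf).1 hx W hW)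

theorem E8a_le_gen (R : Rp M K) (B : Submodule K R.T) : B ≤ R.gen B :=
  le_sInf fun _ hW => hW.2

theorem E8a_gen_le (R : Rp M K) (B W : Submodule K R.T) (h : R.St W) (h' : B ≤ W) :
    R.gen B ≤ W := sInf_le ⟨h, h'⟩

end

variable {K : Type} [Field K]

theorem E8a_mem_B (R : Rp M8 K) (k : Fin 30) (hk : (k : ℕ) ≤ 12) (x : R.T) :
    R.e (6, k) x ∈ B12 R := by
  have h1 : LinearMap.range (R.e (6, k)) ≤ B12 R :=
    le_iSup_of_le k (le_iSup_of_le hk le_rfl)
  exact h1 ⟨x, rfl⟩

theorem E8a_B_le (R : Rp M8 K) (C : P8 → Submodule K R.T)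
    (h : ∀ k : Fin 30, (k : ℕ) ≤ 12 → C (6, k) = ⊤) : B12 R ≤ E8a_W R C := by
  refine iSup_le fun k => iSup_le fun hk => ?_
  rintro _ ⟨x, rfl⟩ p
  by_cases hp : p = (6, k)
  · subst hp
    rw [h k hk]
    trivial
  · rw [R.e_ne p (6, k) x hp]
    exact (C p).zero_mem

open Classical in
/-- The components of `S12`. -/
noncomputable def E8a_C (R : Rp M8 K) (p : P8) : Submodule K R.T :=
  if 12 < (p.2 : ℕ) then ⊥
  else if p.1 = 6 then ⊤
  else if (p.2 : ℕ) = 12 then ⊥
  else if (p.2 : ℕ) = 11 then
    (if p.1 = 5 then (LinearMap.range (R.e ((6, 12) : P8))).map R.a else ⊥)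
  else ⊤

open Classical in
/-- The components of a space contained in `cog`. -/
noncomputable def E8a_C' (R : Rp M8 K) (p : P8) : Submodule K R.T :=
  if 14 < (p.2 : ℕ) then ⊥
  else if p.1 = 6 ∧ 12 < (p.2 : ℕ) then ⊥
  else ⊤

theorem E8a_eB6 : ∀ v : Fin 8, eB 6 v = true → v = 5 := by decide

theorem E8a_eB6' : ∀ v : Fin 8, eB v 6 = true → v = 5 := by decide

theorem E8a_Ar (p q : P8) : M8.Ar p q ↔ eB p.1 q.1 = true ∧ (p.2 : ℕ) = q.2 + 1 := Iff.rfl

theorem E8a_a612 (R : Rp M8 K) (x : R.T) :
    R.e (5, 11) (R.a (R.e (6, 12) x)) = R.a (R.e (6, 12) x) := by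
  conv_rhs => rw [← R.e_sum (R.a (R.e (6, 12) x))]
  symm
  refine Finset.sum_eq_single ((5, 11) : P8) (fun q _ hq => ?_) (fun h => (h (mem_univ _)).elim)
  refine R.a_ar _ _ _ fun h => hq ?_
  rw [E8a_Ar] at h
  have h1 := E8a_eB6 _ h.1
  have h2 : (q.2 : ℕ) = 11 := by
    have := h.2
    simp at this
    omega
  exact Prod.ext h1 (Fin.ext h2)

theorem E8a_holds (hT8a : S_T8a) (hFID : S_FID) (hFI8 : S_FI8) (hGC1 : S_GC1) (hDQ1 : S_DQ1) :
    S_E8a := by
  intro K _ D hr N hN
  obtain ⟨-, -, fF, fSt, fgen, -, -, -⟩ := hFID P8 M8 K D hr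
  have hs8 : ∀ p : P8, s8 p = p := hFI8.1
  have hT := hT8a K N.toRp hN.1 hN.2
  set R := N.toRp with hR
  have z0 : ∀ p : P8, R.dm p = 0 → ∀ x, R.e p x = 0 := by
    intro p hp x
    have : LinearMap.range (R.e p) = ⊥ := Submodule.finrank_eq_zero.1 hp
    have h1 : R.e p x ∈ LinearMap.range (R.e p) := ⟨x, rfl⟩
    rw [this] at h1
    exact (Submodule.mem_bot K).1 h1
  have e514 : ∀ x, R.e ((5, 14) : P8) x = 0 := z0 _ (by rw [hT]; decide)
  have sSt : R.St (S12 R) := E8a_gen_St R _
  have BS : B12 R ≤ S12 R := E8a_le_gen R _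
  -- the space `W`
  have WSt : R.St (E8a_W R (E8a_C R)) := by
    apply E8a_St
    intro p q hpq x hx
    rw [E8a_Ar] at hpq
    by_cases h1 : 12 < (q.2 : ℕ)
    · have : R.e p x = 0 := by
        unfold E8a_C at hx
        rw [if_pos (by omega)] at hx
        exact (Submodule.mem_bot K).1 hx
      rw [this, map_zero, map_zero]
      exact Submodule.zero_mem _
    by_cases h2 : q.1 = 6
    · unfold E8a_C
      rw [if_neg h1, if_pos h2]
      trivial
    by_cases h3 : (q.2 : ℕ) = 12
    · have : R.e p x = 0 := by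
        unfold E8a_C at hx
        rw [if_pos (by omega)] at hx
        exact (Submodule.mem_bot K).1 hx
      rw [this, map_zero, map_zero]
      exact Submodule.zero_mem _
    by_cases h4 : (q.2 : ℕ) = 11
    · by_cases h5 : p.1 = 6
      · have e1 : q.1 = 5 := E8a_eB6 _ (h5 ▸ hpq.1)
        have e2 : p = (6, 12) := Prod.ext h5 (Fin.ext (by
          show (p.2 : ℕ) = 12
          omega))
        have e3 : q = (5, 11) := Prod.ext e1 (Fin.ext h4)
        subst e2
        subst e3
        rw [E8a_a612]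
        unfold E8a_C
        rw [if_neg h1, if_neg h2, if_neg h3, if_pos h4, if_pos e1]
        exact ⟨R.e (6, 12) x, ⟨x, rfl⟩, rfl⟩
      · have : R.e p x = 0 := by
          unfold E8a_C at hx
          rw [if_neg (by omega), if_neg h5, if_pos (by omega)] at hx
          exact (Submodule.mem_bot K).1 hx
        rw [this, map_zero, map_zero]
        exact Submodule.zero_mem _
    · unfold E8a_C
      rw [if_neg h1, if_neg h2, if_neg h3, if_neg h4]
      trivial
  have SW : S12 R ≤ E8a_W R (E8a_C R) := by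
    apply E8a_gen_le R _ _ WSt
    apply E8a_B_le
    intro k hk
    unfold E8a_C
    rw [if_neg (by simpa using hk), if_pos rfl]
  have Sz : ∀ p : P8, E8a_C R p = ⊥ → (S12 R).map (R.e p) = ⊥ := by
    intro p hp
    rw [eq_bot_iff]
    rintro _ ⟨x, hx, rfl⟩
    have := SW hx p
    rw [hp] at this
    exact this
  have C12 : ∀ p : P8, 12 < (p.2 : ℕ) → E8a_C R p = ⊥ := by
    intro p hp
    unfold E8a_C
    rw [if_pos hp]
  have S6 : ∀ k : Fin 30, (k : ℕ) ≤ 12 →
      (S12 R).map (R.e (6, k)) = LinearMap.range (R.e (6, k)) ∧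
      (B12 R).map (R.e (6, k)) = LinearMap.range (R.e (6, k)) := by
    intro k hk
    constructor
    · apply le_antisymm
      · rintro _ ⟨x, _, rfl⟩
        exact ⟨x, rfl⟩
      · rintro _ ⟨x, rfl⟩
        exact ⟨R.e (6, k) x, BS (E8a_mem_B R k hk x), R.e_e _ _⟩
    · apply le_antisymm
      · rintro _ ⟨x, _, rfl⟩
        exact ⟨x, rfl⟩
      · rintro _ ⟨x, rfl⟩
        exact ⟨R.e (6, k) x, E8a_mem_B R k hk x, R.e_e _ _⟩
  have hGrd : N.Grd R6 (B12 R) := by
    have hb : ∀ x ∈ B12 R, ∀ p : P8, (p.1 = 6 ∧ (p.2 : ℕ) ≤ 12 ∨ R.e p x = 0) := by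
      intro x hx p
      by_cases hp : p.1 = 6 ∧ (p.2 : ℕ) ≤ 12
      · exact Or.inl hp
      · right
        have h1 : B12 R ≤ E8a_W R (fun p => if p.1 = 6 ∧ (p.2 : ℕ) ≤ 12 then ⊤ else ⊥) := by
          apply E8a_B_le
          intro k hk
          rw [if_pos ⟨rfl, hk⟩]
        have h2 := h1 hx p
        simp only [if_neg hp] at h2
        exact (Submodule.mem_bot K).1 h2
    refine ⟨?_, ?_, ?_, ?_⟩
    · intro p x hx
      rcases hb x hx p with ⟨h1, h2⟩ | h
      · obtain ⟨v, k⟩ := p
        have h1' : v = 6 := h1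
        subst h1'
        exact E8a_mem_B R k h2 x
      · have h' : N.e p x = 0 := h
        rw [h']
        exact Submodule.zero_mem _
    · intro x hx
      rw [fF s8 N x]
      exact hx
    · intro p hp x hx
      rcases hb x hx p with ⟨h1, h2⟩ | h
      · exact (hp h1).elim
      · exact h
    · intro p
      rw [hs8]
  have hSB : ∀ p ∈ R6, (S12 R).map (R.e p) = (B12 R).map (R.e p) := by
    rintro ⟨v, k⟩ hp
    have hv : v = 6 := hp
    subst hv
    by_cases hk : (k : ℕ) ≤ 12
    · rw [(S6 k hk).1, (S6 k hk).2]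
    · have h1 := Sz (6, k) (C12 _ (by simpa using hk))
      rw [h1]
      symm
      rw [eq_bot_iff, ← h1]
      exact Submodule.map_mono BS
  refine ⟨fgen s8 N _, sSt, hGrd, ?_, ?_, ?_, ?_, ?_, ?_⟩
  · exact hSB
  · intro p hp hp'
    have : (S12 R).map (R.e p) = ⊥ := by
      apply Sz
      unfold E8a_C
      by_cases h : 12 < (p.2 : ℕ)
      · rw [if_pos h]
      · rw [if_neg h, if_neg hp, if_pos (by omega)]
    show finrank K ((S12 R).map (R.e p)) = 0
    rw [this, finrank_bot]
  · have h1 : (S12 R).map (R.e (5, 11)) = (LinearMap.range (R.e ((6, 12) : P8))).map R.a := by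
      apply le_antisymm
      · rintro _ ⟨x, hx, rfl⟩
        have := SW hx (5, 11)
        unfold E8a_C at this
        rw [if_neg (by decide), if_neg (by decide), if_neg (by decide), if_pos (by decide),
          if_pos rfl] at this
        exact this
      · rintro _ ⟨_, ⟨x, rfl⟩, rfl⟩
        refine ⟨R.a (R.e (6, 12) x), sSt.2 _ (BS (E8a_mem_B R 12 (by decide) x)), ?_⟩
        exact E8a_a612 R x
    have h2 : finrank K ((LinearMap.range (R.e ((6, 12) : P8))).map R.a)
        = finrank K (LinearMap.range (R.e ((6, 12) : P8))) := by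
      have hsc : R.sc ((6, 12) : P8) = 0 := by
        rw [hN.2]
        simp [ind]
      have hbot : (LinearMap.range (R.e ((6, 12) : P8)) ⊓ LinearMap.ker R.a : Submodule K R.T)
          = ⊥ := Submodule.finrank_eq_zero.1 hsc
      have e1 := LinearMap.finrank_range_of_inj
        (f := R.a.domRestrict (LinearMap.range (R.e ((6, 12) : P8)))) (by
          rw [← LinearMap.ker_eq_bot, eq_bot_iff]
          rintro ⟨x, hx⟩ hx'
          have h3 : x ∈ (LinearMap.range (R.e ((6, 12) : P8)) ⊓ LinearMap.ker R.a :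
              Submodule K R.T) := ⟨hx, hx'⟩
          rw [hbot] at h3
          exact (Submodule.mem_bot K).2 (Subtype.ext ((Submodule.mem_bot K).1 h3)))
      have e2 : LinearMap.range (R.a.domRestrict (LinearMap.range (R.e ((6, 12) : P8))))
          = (LinearMap.range (R.e ((6, 12) : P8))).map R.a := by
        ext y
        constructor
        · rintro ⟨x, rfl⟩
          exact ⟨x.1, x.2, rfl⟩
        · rintro ⟨x, hx, rfl⟩
          exact ⟨⟨x, hx⟩, rfl⟩
      rw [← e2]
      exact e1
    show finrank K ((S12 R).map (R.e (5, 11))) = 1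
    rw [h1, h2]
    show R.dm ((6, 12) : P8) = 1
    rw [hT]
    decide
  · intro v hv5 hv6
    have : (S12 R).map (R.e (v, 11)) = ⊥ := by
      apply Sz
      unfold E8a_C
      have a1 : ¬ 12 < ((11 : Fin 30) : ℕ) := by decide
      have a2 : ¬ ((11 : Fin 30) : ℕ) = 12 := by decide
      have a3 : ((11 : Fin 30) : ℕ) = 11 := by decide
      rw [if_neg a1, if_neg hv6, if_neg a2, if_pos a3, if_neg hv5]
    show finrank K ((S12 R).map (R.e (v, 11))) = 0
    rw [this, finrank_bot]
  · intro k
    show finrank K ((S12 R).map (R.e (6, k))) = _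
    split_ifs with hk
    · rw [(S6 k hk).1]
      exact hT (6, k)
    · rw [Sz (6, k) (C12 _ (by simpa using hk)), finrank_bot]
  · intro p hp hp' x hx
    have W'St : R.St (E8a_W R (E8a_C' R)) := by
      apply E8a_St
      intro p q hpq x hx
      rw [E8a_Ar] at hpq
      by_cases h1 : 14 < (q.2 : ℕ)
      · have : R.e p x = 0 := by
          unfold E8a_C' at hx
          rw [if_pos (by omega)] at hx
          exact (Submodule.mem_bot K).1 hx
        rw [this, map_zero, map_zero]
        exact Submodule.zero_mem _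
      by_cases h2 : q.1 = 6 ∧ 12 < (q.2 : ℕ)
      · have : R.e p x = 0 := by
          by_cases h3 : 14 < (p.2 : ℕ)
          · unfold E8a_C' at hx
            rw [if_pos h3] at hx
            exact (Submodule.mem_bot K).1 hx
          · have e1 : p.1 = 5 := E8a_eB6' _ (h2.1 ▸ hpq.1)
            have e2 : p = (5, 14) := Prod.ext e1 (Fin.ext (by
              show (p.2 : ℕ) = 14
              omega))
            rw [e2]
            exact e514 x
        rw [this, map_zero, map_zero]
        exact Submodule.zero_mem _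
      · unfold E8a_C'
        rw [if_neg h1, if_neg h2]
        trivial
    have hxW : x ∈ E8a_W R (E8a_C' R) := by
      intro q
      by_cases hq : q = p
      · subst hq
        unfold E8a_C'
        rw [if_neg (by omega), if_neg (fun h => hp h.1)]
        trivial
      · have : R.e q x = 0 := by
          have hx' : R.e p x = x := hx
          rw [← hx']
          exact R.e_ne q p x hq
        rw [this]
        exact Submodule.zero_mem _
    have hmem : E8a_W R (E8a_C' R) ≤ N.cog R6 (B12 R) := by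
      refine le_sSup ⟨(fSt s8 N _).2 W'St, ?_⟩
      rintro ⟨v, k⟩ hv
      have hv' : v = 6 := hv
      subst hv'
      by_cases hk : (k : ℕ) ≤ 12
      · have h3 := (S6 k hk).2
        have h4 : (B12 R).map (N.e (6, k)) = LinearMap.range (R.e (6, k)) := h3
        rw [h4]
        rintro _ ⟨y, _, rfl⟩
        exact ⟨y, rfl⟩
      · rintro _ ⟨y, hy, rfl⟩
        have h3 := hy (6, k)
        have h4 : E8a_C' R (6, k) = ⊥ := by
          unfold E8a_C'
          by_cases h5 : 14 < (k : ℕ)
          · rw [if_pos h5]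
          · rw [if_neg h5, if_pos ⟨rfl, by simpa using hk⟩]
        rw [h4] at h3
        have h5 : N.e (6, k) y = 0 := (Submodule.mem_bot K).1 h3
        rw [h5]
        exact Submodule.zero_mem _
    exact hmem hxW

end Pool.Agent.Lib.MP_4c1f79_al
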