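import Pool.Agent.Lib.MP_4c1f79_al.Stm8

/-!
# MP_4c1f79_al, piece E8c: the type of `T`
-/

set_option autoImplicit false

namespace Pool.Agent.Lib.MP_4c1f79_al

open Finset Module

section

variable {K : Type} [Field K] {D : Fd K}

private def E8c_ok (p : P8) : Prop := p.1 ≠ 6 ∧ 12 ≤ (p.2 : ℕ) ∧ (p.2 : ℕ) ≤ 14

private theorem E8c_ri {V W : Type} [AddCommGroup V] [Module K V] [AddCommGroup W] [Module K W]
    (h : V →ₗ[K] W) : ∃ l : W →ₗ[K] V, ∀ y ∈ LinearMap.range h, h (l y) = y := by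
  obtain ⟨g, hg⟩ := h.rangeRestrict.exists_rightInverse_of_surjective h.range_rangeRestrict
  obtain ⟨l, hl⟩ := LinearMap.exists_extend g
  refine ⟨l, fun y hy => ?_⟩
  have h1 : l y = g ⟨y, hy⟩ := LinearMap.congr_fun hl ⟨y, hy⟩
  rw [h1]
  exact congrArg Subtype.val (LinearMap.congr_fun hg ⟨y, hy⟩)

open Classical in
private theorem E8c_lam {N T : FM M8 s8 K D} {κ : N.T →ₗ[K] T.T} (h : TK N T κ) :
    ∃ L : T.T →ₗ[K] N.T, (∀ p y, L (T.e p y) = N.e p (L y)) ∧
      (∀ p, E8c_ok p → ∀ y, κ (L (T.e p y)) = T.e p y) ∧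
      ∀ p, E8c_ok p → ∀ x, L (κ (N.e p x)) = N.e p x := by
  choose l hl using fun p : P8 => E8c_ri (κ ∘ₗ N.e p)
  obtain ⟨L, hL⟩ : ∃ L : T.T →ₗ[K] N.T, ∀ y, L y =
      ∑ p, if E8c_ok p then N.e p (l p (T.e p y)) else 0 := by
    refine ⟨∑ p, if E8c_ok p then (N.e p) ∘ₗ (l p) ∘ₗ (T.e p) else 0, fun y => ?_⟩
    rw [LinearMap.sum_apply]
    refine Finset.sum_congr rfl fun p _ => ?_
    split_ifs <;> rfl
  have L0 : ∀ q y, L (T.e q y) = if E8c_ok q then N.e q (l q (T.e q y)) else 0 := by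
    intro q y
    rw [hL, Finset.sum_eq_single q]
    · rw [T.e_e]
    · intro p _ hp
      rw [T.e_ne p q y hp, map_zero, map_zero]
      split_ifs <;> rfl
    · intro hq
      exact absurd (Finset.mem_univ q) hq
  have L1 : ∀ q y, L (T.e q y) = N.e q (L y) := by
    intro q y
    rw [L0, hL, map_sum, Finset.sum_eq_single q]
    · split_ifs
      · rw [N.e_e]
      · rw [map_zero]
    · intro p _ hp
      split_ifs
      · exact N.e_ne q p _ (Ne.symm hp)
      · exact map_zero _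
    · intro hq
      exact absurd (Finset.mem_univ q) hq
  have L2 : ∀ p, E8c_ok p → ∀ y, κ (L (T.e p y)) = T.e p y := by
    intro p hp y
    rw [L0, if_pos hp]
    obtain ⟨x, hx, hx2⟩ := h.sur p hp.1 hp.2.1 hp.2.2 (T.e p y) (T.e_e p y)
    exact hl p (T.e p y) ⟨x, by rw [LinearMap.comp_apply, hx, hx2]⟩
  refine ⟨L, L1, L2, fun p hp x => ?_⟩
  have h1 : L (κ (N.e p x)) - N.e p x = 0 := by
    apply h.inj p hp.1 hp.2.1 hp.2.2
    · rw [map_sub, ← L1, ← h.e, N.e_e]
    · rw [map_sub, h.e, L2 p hp, sub_self]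
  exact sub_eq_zero.1 h1

private theorem E8c_rig {N T : FM M8 s8 K D} {κ : N.T →ₗ[K] T.T} (h : TK N T κ)
    (hN : N.toRp.Rig N.toRp 12) : T.toRp.Rig T.toRp 12 := by
  obtain ⟨L, L1, L2, L3⟩ := E8c_lam h
  intro g
  obtain ⟨f', hf', hf2⟩ := hN (L ∘ₗ g ∘ₗ κ)
  have hc : ∀ p x, f' (N.e p x) = N.e p (f' x) := by
    intro p x
    have e1 : f' (N.e p x) = N.e p (f' (N.e p x)) := by
      conv_lhs => rw [← N.e_sum (f' (N.e p x))]
      rw [Finset.sum_eq_single p]
      · intro q _ hq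
        exact hf' p q (fun e => hq e.symm) x
      · intro hq
        exact absurd (Finset.mem_univ p) hq
    have e2 : N.e p (f' x) = N.e p (f' (N.e p x)) := by
      conv_lhs => rw [← N.e_sum x]
      rw [map_sum, map_sum, Finset.sum_eq_single p]
      · intro q _ hq
        exact hf' q p hq x
      · intro hq
        exact absurd (Finset.mem_univ p) hq
    rw [e1, e2]
  refine ⟨κ ∘ₗ f' ∘ₗ L, ?_, ?_⟩
  · intro p q hpq x
    show T.e q (κ (f' (L (T.e p x)))) = 0
    rw [← h.e, L1, hf' p q hpq, map_zero]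
  · intro p q hp hpq y
    have hp' : (p.2 : ℕ) = 13 := hp
    have hq' : (p.2 : ℕ) = q.2 + 1 := hpq.2
    show T.e q (g (T.e p y)) = T.e q (T.a (κ (f' (L (T.e p y)))) - κ (f' (L (T.a (T.e p y)))))
    by_cases h6 : p.1 = 6
    · have h0 : T.e p y = 0 := h.good.1 p (fun hU => hU h6) y
      rw [h0]
      simp only [map_zero, sub_zero]
    by_cases h7 : q.1 = 6
    · rw [h.good.1 q (fun hU => hU h7), h.good.1 q (fun hU => hU h7)]
    have okp : E8c_ok p := ⟨h6, by omega, by omega⟩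
    have okq : E8c_ok q := ⟨h7, by omega, by omega⟩
    obtain ⟨x, hx⟩ : ∃ x, x = L (T.e p y) := ⟨_, rfl⟩
    have hx1 : N.e p x = x := by rw [hx, ← L1, T.e_e]
    have hx2 : κ x = T.e p y := by rw [hx, L2 p okp]
    rw [← hx, ← hx2]
    have e1 : T.a (κ x) = κ (N.a x) := by
      rw [← hx1, h.a p h6 (by omega) (by omega)]
    have e2 : T.a (κ (f' x)) = κ (N.a (f' x)) := by
      rw [← hx1, hc, h.a p h6 (by omega) (by omega)]
    have l1 : T.e q (g (κ x)) = κ (N.e q (L (g (κ x)))) := by rw [← L1, L2 q okq]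
    have l2 := hf2 p q hp hpq x
    rw [hx1] at l2
    have l3 : N.e q (L (g (κ x))) = N.e q (N.a (f' x) - f' (N.a x)) := l2
    rw [l1, l3, e1, e2, map_sub, map_sub, map_sub, ← h.e, ← h.e]
    congr 1
    rw [← hc, ← hc, ← L1, ← h.e, L3 q okq]

private theorem E8c_dm {N T : FM M8 s8 K D} {κ : N.T →ₗ[K] T.T} (h : TK N T κ) (p : P8)
    (hp : E8c_ok p) : T.toRp.dm p = N.toRp.dm p := by
  have h1 : Function.Injective (κ.domRestrict (LinearMap.range (N.e p))) := by
    rw [injective_iff_map_eq_zero]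
    rintro ⟨_, y, rfl⟩ hx
    exact Subtype.ext (h.inj p hp.1 hp.2.1 hp.2.2 (N.e p y) (N.e_e p y) hx)
  have h2 : (LinearMap.range (N.e p)).map κ = LinearMap.range (T.e p) := by
    apply le_antisymm
    · rintro _ ⟨_, ⟨x, rfl⟩, rfl⟩
      exact ⟨κ x, (h.e p x).symm⟩
    · rintro _ ⟨y, rfl⟩
      obtain ⟨x, hx, hx2⟩ := h.sur p hp.1 hp.2.1 hp.2.2 (T.e p y) (T.e_e p y)
      exact ⟨x, ⟨x, hx⟩, hx2⟩
  show finrank K (LinearMap.range (T.e p)) = finrank K (LinearMap.range (N.e p))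
  rw [← h2, ← LinearMap.range_domRestrict, LinearMap.finrank_range_of_inj h1]

end

/-- the parity of a row -/
private def E8c_od (v : Fin 8) : ℕ := if v = 0 ∨ v = 2 ∨ v = 4 ∨ v = 6 then 0 else 1

private theorem E8c_od_lt (v : Fin 8) : E8c_od v < 2 := by
  unfold E8c_od
  split_ifs <;> omega

private theorem E8c_adj : ∀ v w : Fin 8, eB v w = true → (E8c_od v + E8c_od w) % 2 = 1 := by
  decide

private theorem E8c_T8 : ∀ (v : Fin 8) (k : Fin 30), ((k : ℕ) + E8c_od v) % 2 = 1 →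
    tval T8 v k = 0 := by
  decide +kernel

private theorem E8c_E7 : ∀ (u : Fin 8) (l : Fin 30), ((l : ℕ) + E8c_od u) % 2 = 0 → ∀ v : Fin 8,
    ((E8c_od v = 1 ∨ v = 6) → tval (shT l (E7b u)) v 12 = 0) ∧
    ((E8c_od v = 0 ∨ v = 6) → tval (shT l (E7b u)) v 13 = 0) := by
  decide +kernel

private theorem E8c_e8 (u w : P8) (hu : ((u.2 : ℕ) + E8c_od u.1) % 2 = 0)
    (hw : ((w.2 : ℕ) + E8c_od w.1) % 2 = 0) :
    ((∑ v : Fin 8, ((tval (shT u.2 (E7b u.1)) v 12 : ℤ) * tval (shT w.2 (E7b w.1)) v 12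
        + (tval (shT u.2 (E7b u.1)) v 13 : ℤ) * tval (shT w.2 (E7b w.1)) v 13))
      - ∑ v : Fin 8, ∑ v' : Fin 8, if eB v v' = true then
        (tval (shT u.2 (E7b u.1)) v 13 : ℤ) * tval (shT w.2 (E7b w.1)) v' 12 else 0) = e8 u w := by
  have hx := E8c_E7 u.1 u.2 hu
  have hy := E8c_E7 w.1 w.2 hw
  have x12 : ∀ v : Fin 8, tval (shT u.2 (E7b u.1)) v 12 =
      if v = 0 ∨ v = 2 ∨ v = 4 then b8 u v else 0 := by
    intro v
    unfold b8
    split_ifs with hv
    · rfl
    · apply (hx v).1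
      revert hv
      clear hx hy
      revert v
      decide
  have y12 : ∀ v : Fin 8, tval (shT w.2 (E7b w.1)) v 12 =
      if v = 0 ∨ v = 2 ∨ v = 4 then b8 w v else 0 := by
    intro v
    unfold b8
    split_ifs with hv
    · rfl
    · apply (hy v).1
      revert hv
      clear hx hy x12
      revert v
      decide
  have x13 : ∀ v : Fin 8, tval (shT u.2 (E7b u.1)) v 13 =
      if v = 1 ∨ v = 3 ∨ v = 5 ∨ v = 7 then b8 u v else 0 := by
    intro v
    by_cases hv : v = 1 ∨ v = 3 ∨ v = 5 ∨ v = 7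
    · rw [if_pos hv]
      unfold b8
      rw [if_neg]
      revert hv
      clear hx hy x12 y12
      revert v
      decide
    · rw [if_neg hv]
      apply (hx v).2
      revert hv
      clear hx hy x12 y12
      revert v
      decide
  have y13 : ∀ v : Fin 8, tval (shT w.2 (E7b w.1)) v 13 =
      if v = 1 ∨ v = 3 ∨ v = 5 ∨ v = 7 then b8 w v else 0 := by
    intro v
    by_cases hv : v = 1 ∨ v = 3 ∨ v = 5 ∨ v = 7
    · rw [if_pos hv]
      unfold b8
      rw [if_neg]
      revert hv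
      clear hx hy x12 y12 x13
      revert v
      decide
    · rw [if_neg hv]
      apply (hy v).2
      revert hv
      clear hx hy x12 y12 x13
      revert v
      decide
  have u6 : b8 u 6 = 0 := (hx 6).2 (Or.inr rfl)
  have w6 : b8 w 6 = 0 := (hy 6).2 (Or.inr rfl)
  unfold e8
  congr 1
  · refine Finset.sum_congr rfl fun v _ => ?_
    rw [x12, y12, x13, y13]
    revert u6 w6
    clear hx hy x12 y12 x13 y13
    intro u6 w6
    fin_cases v <;> simp [u6]
  · refine Finset.sum_congr rfl fun v _ => Finset.sum_congr rfl fun v' _ => ?_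
    rw [x13, y12]
    clear hx hy x12 y12 x13 y13
    by_cases h1 : eB v v' = true
    · by_cases h2 : v = 1 ∨ v = 3 ∨ v = 5 ∨ v = 7
      · by_cases h3 : v' ≠ 6
        · have h4 : v' = 0 ∨ v' = 2 ∨ v' = 4 := by
            revert h1 h2 h3
            clear u6 w6
            revert v v'
            decide
          rw [if_pos h1, if_pos h2, if_pos h4, if_pos ⟨h2, h1, h3⟩]
        · have h4 : ¬ (v' = 0 ∨ v' = 2 ∨ v' = 4) := by
            intro h5
            apply h3
            rintro rfl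
            revert h5
            decide
          have h5 : ¬ ((v = 1 ∨ v = 3 ∨ v = 5 ∨ v = 7) ∧ eB v v' = true ∧ v' ≠ 6) :=
            fun h => h3 h.2.2
          rw [if_neg h5, if_neg h4]
          simp
      · have h5 : ¬ ((v = 1 ∨ v = 3 ∨ v = 5 ∨ v = 7) ∧ eB v v' = true ∧ v' ≠ 6) :=
          fun h => h2 h.1
        rw [if_neg h5, if_neg h2]
        simp
    · rw [if_neg h1, if_neg (fun h => h1 h.2.1)]

private theorem E8c_one :
    ((∑ v : Fin 8, ((tval T8 v 12 : ℤ) * tval T8 v 12 + (tval T8 v 13 : ℤ) * tval T8 v 13))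
      - ∑ v : Fin 8, ∑ w : Fin 8, if eB v w = true then
        (tval T8 v 13 : ℤ) * tval T8 w 12 else 0) = 1 := by
  decide +kernel

theorem E8c_holds (hE8a : S_E8a) (hE8n : S_E8n) (hBRK : S_BRK) (hRG1 : S_RG1) (hRG2 : S_RG2)
    (hRG3 : S_RG3) (hRTR : S_RTR) (hRPE : S_RPE) (hDMS : S_DMS) (hT8a : S_T8a) (hT8d : S_T8d)
    (hSAG : S_SAG) (hEU1 : S_EU1) (_hFID : S_FID) (_hFI8 : S_FI8) (_hDQ3 : S_DQ3) : S_E8c := by
  classical
  intro K _ D hr N T κ hN hT
  have hfin : Finite K := by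
    apply Nat.finite_of_card_ne_zero
    rw [D.card_K]
    have := D.q_gt
    positivity
  obtain ⟨-, hSt, -, -, s1, s2, s3, s4, -⟩ := hE8a K D hr N hN
  have hdm : ∀ p : P8, N.toRp.dm p = tval T8 p.1 p.2 := hT8a K N.toRp hN.1 hN.2
  -- rigidity
  have hcut : NoCut M8 Set.univ 29 := by
    rintro ⟨v, k⟩ - hk
    have hk' : (k : ℕ) + 2 ≤ 29 := hk
    exact ⟨(v, ⟨k + 2, by omega⟩), Set.mem_univ _, rfl, rfl⟩
  obtain ⟨hbr, -⟩ := hBRK P8 M8 K N.toRp Set.univ 29 (2, 0) hN.1 hN.2 (Set.mem_univ _) hcut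
  have he2 : ∀ x y : P8 → ℕ, e2 M8 12 x y =
      (∑ v : Fin 8, ((x (v, ⟨12, by omega⟩) : ℤ) * y (v, ⟨12, by omega⟩)
        + (x (v, ⟨13, by omega⟩) : ℤ) * y (v, ⟨13, by omega⟩)))
      - ∑ v : Fin 8, ∑ w : Fin 8, if eB v w = true then
        (x (v, ⟨13, by omega⟩) : ℤ) * y (w, ⟨12, by omega⟩) else 0 := fun x y =>
    (hSAG 8 30 eB eB_symm y).2.2.2.2 x 12 (by omega)
  have hrigN : N.toRp.Rig N.toRp 12 := by
    apply hRG1 P8 M8 K N.toRp 12 (hbr 12 (by omega))
    rw [he2]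
    simp only [hdm]
    exact E8c_one
  have hrigT := E8c_rig hT hrigN
  -- the socle of `T` lies in `U7`
  have hU : ∀ u, T.toRp.sc u ≠ 0 → u ∈ U7 := by
    intro u hu
    by_contra hn
    apply hu
    have h0 := hT.good.1 u hn
    have h1 : (LinearMap.range (T.e u) ⊓ LinearMap.ker T.a : Submodule K T.T) = ⊥ := by
      rw [eq_bot_iff]
      rintro _ ⟨⟨x, rfl⟩, -⟩
      exact h0 x
    show finrank K (LinearMap.range (T.e u) ⊓ LinearMap.ker T.a : Submodule K T.T) = 0
    rw [h1, finrank_bot]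
  have hI : ∀ u, ∃ R : Rp M8 K, u ∈ U7 → R.Good U7 ∧ ∀ p, R.sc p = ind {u} p := by
    intro u
    by_cases hu : u ∈ U7
    · obtain ⟨R, hR⟩ := hRPE P8 M8 K U7 (ind {u}) (fun p hp => by
        rw [ind, Set.indicator_of_notMem]
        rintro rfl
        exact hp hu)
      exact ⟨R, fun _ => hR⟩
    · exact ⟨N.toRp, fun h => absurd h hu⟩
  choose I hI using hI
  have hIdm : ∀ u ∈ U7, ∀ p : P8, (p.2 : ℕ) ≤ 14 →
      (I u).dm p = tval (shT u.2 (E7b u.1)) p.1 p.2 := fun u hu =>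
    hT8d K (I u) u hu (hI u hu).1 (hI u hu).2
  -- the support of the socle of `T`
  have hyle : ∀ p : P8, N.toRp.dmS (S12 N.toRp) p ≤ tval T8 p.1 p.2 := by
    intro p
    rw [← hdm]
    exact Submodule.finrank_mono LinearMap.map_le_range
  have hsc : ∀ u ∈ U7, (T.toRp.sc u : ℤ) = ind {((2, 0) : P8)} u
      - ((N.toRp.dmS (S12 N.toRp) u : ℤ) - (sA M8 (N.toRp.dmS (S12 N.toRp)) u : ℤ)
        + (sT M8 (N.toRp.dmS (S12 N.toRp)) u : ℤ)) := by
    intro u hu
    rw [hT.sc u hu, hEU1]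
  generalize hy : N.toRp.dmS (S12 N.toRp) = y at s1 s2 s3 s4 hyle hsc
  obtain ⟨A1, A2, A3, A4, -⟩ := hSAG 8 30 eB eB_symm y
  have hpar : ∀ p : P8, T.toRp.sc p ≠ 0 → ((p.2 : ℕ) + E8c_od p.1) % 2 = 0 := by
    rintro ⟨v, k⟩ hp
    by_contra hn
    have hn' : ((k : ℕ) + E8c_od v) % 2 = 1 := by
      have : ¬ ((k : ℕ) + E8c_od v) % 2 = 0 := hn
      omega
    apply hp
    have hz : ∀ (w : Fin 8) (l : Fin 30), ((l : ℕ) + E8c_od w) % 2 = 1 → y (w, l) = 0 := by
      intro w l hl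
      have h1 := hyle (w, l)
      rw [E8c_T8 w l hl] at h1
      exact Nat.le_zero.1 h1
    have e1 : y (v, k) = 0 := hz v k hn'
    have e2 : sA M8 y (v, k) = 0 := by
      obtain ⟨k, hk⟩ := k
      cases k with
      | zero => exact A2 v hk
      | succ k =>
        refine (A1 v k hk).trans (Finset.sum_eq_zero fun w _ => ?_)
        split_ifs with hw
        · apply hz
          have h1 := E8c_adj v w hw
          simp only at hn' ⊢
          omega
        · rfl
    have e3 : sT M8 y (v, k) = 0 := by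
      by_cases hk2 : (k : ℕ) < 2
      · exact A4 v k hk2
      · obtain ⟨k, hk⟩ := k
        obtain ⟨j, rfl⟩ : ∃ j, k = j + 2 := ⟨k - 2, by simp only at hk2; omega⟩
        refine (A3 v j hk).trans (hz v _ ?_)
        simp only at hn' ⊢
        omega
    have e4 : ind {((2, 0) : P8)} (v, k) = 0 := by
      rw [ind, Set.indicator_of_notMem]
      intro h
      rw [Set.mem_singleton_iff, Prod.mk.injEq] at h
      rw [h.1, h.2] at hn'
      revert hn'
      decide
    have h1 := hsc (v, k) (hU _ hp)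
    rw [e1, e2, e3, e4] at h1
    simpa using h1
  have hlev : ∀ p : P8, T.toRp.sc p ≠ 0 → (p.2 : ℕ) ≤ 12 := by
    rintro ⟨v, k⟩ hp
    have hv : v ≠ 6 := hU _ hp
    by_contra hn
    apply hp
    have hk : 13 ≤ (k : ℕ) := by
      have : ¬ ((k : ℕ) ≤ 12) := hn
      omega
    have e1 : y (v, k) = 0 := s1 (v, k) hv (by simp only; omega)
    have e4 : ind {((2, 0) : P8)} (v, k) = 0 := by
      rw [ind, Set.indicator_of_notMem]
      intro h
      rw [Set.mem_singleton_iff, Prod.mk.injEq] at h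
      rw [h.2] at hk
      revert hk
      decide
    have h1 := hsc (v, k) (hU _ hp)
    obtain ⟨k, hk0⟩ := k
    simp only at hk
    obtain ⟨j, rfl⟩ : ∃ j, k = j + 2 := ⟨k - 2, by omega⟩
    have a1 : sA M8 y (v, ⟨j + 2, hk0⟩) = ∑ w, if eB v w = true then y (w, ⟨j + 1, by omega⟩)
        else 0 := A1 v (j + 1) hk0
    have a3 : sT M8 y (v, ⟨j + 2, hk0⟩) = y (v, ⟨j, by omega⟩) := A3 v j hk0
    rw [e1, e4, a1, a3] at h1
    by_cases hj : 12 ≤ j
    · rw [Finset.sum_eq_zero, s1 _ hv hj] at h1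
      · simpa using h1
      · intro w _
        split_ifs
        · by_cases hw : w = 6
          · subst hw
            rw [s4, if_neg]
            simp only
            omega
          · exact s1 _ hw (by simp only; omega)
        · rfl
    · obtain rfl : j = 11 := by omega
      have a4 : ∀ w, (if eB v w = true then y (w, (⟨11 + 1, by omega⟩ : Fin 30)) else 0) =
          if w = 6 then (if v = 5 then 1 else 0) else 0 := by
        intro w
        by_cases hw : w = 6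
        · subst hw
          rw [if_pos rfl, s4]
          have h3 : eB v 6 = true ↔ v = 5 := by
            clear * - hv
            revert v
            decide
          simp only [h3]
          rfl
        · rw [if_neg hw, s1 _ hw (by simp only; omega)]
          simp
      have a5 : y (v, (⟨11, by omega⟩ : Fin 30)) = if v = 5 then 1 else 0 := by
        by_cases h5 : v = 5
        · subst h5
          rw [if_pos rfl]
          exact s2
        · rw [if_neg h5]
          exact s3 v h5 hv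
      rw [Finset.sum_congr rfl fun w _ => a4 w, Finset.sum_ite_eq', a5] at h1
      simp only [Finset.mem_univ, if_true] at h1
      have h2 : (T.toRp.sc (v, ⟨11 + 2, hk0⟩) : ℤ) = 0 := by
        rw [h1]
        push_cast
        ring
      exact_mod_cast h2
  apply hE8n T.toRp.sc
  · intro p hp
    refine ⟨hU p hp, hlev p hp, ?_⟩
    have h1 := hpar p hp
    have h2 : p.1 ≠ 6 := hU p hp
    obtain ⟨v, k⟩ := p
    simp only at h1 h2 ⊢
    clear * - h1 h2
    have h3 : (v = 0 ∨ v = 2 ∨ v = 4) ∧ E8c_od v = 0 ∨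
        (v = 1 ∨ v = 3 ∨ v = 5 ∨ v = 7) ∧ E8c_od v = 1 := by
      clear h1
      revert v
      decide
    rcases h3 with ⟨h3, h4⟩ | ⟨h3, h4⟩
    · left
      exact ⟨h3, by omega⟩
    · right
      exact ⟨h3, by omega⟩
  · intro v hv
    have hlv : ∀ l : Fin 30, (l : ℕ) = 12 ∨ (l : ℕ) = 13 →
        ∑ u, T.toRp.sc u * tval (shT u.2 (E7b u.1)) v l = tval T8 v l := by
      intro l hl
      have h1 := E8c_dm hT (v, l) ⟨hv, by simp only; omega, by simp only; omega⟩
      rw [hdm, hDMS P8 M8 K U7 T.toRp hT.good I hI] at h1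
      refine Eq.trans (Finset.sum_congr rfl fun u _ => ?_) h1
      by_cases hu : T.toRp.sc u = 0
      · rw [hu, zero_mul, zero_mul]
      · rw [hIdm u (hU u hu) (v, l) (by simp only; omega)]
    unfold b8
    by_cases h4 : v = 0 ∨ v = 2 ∨ v = 4
    · simp only [if_pos h4]
      exact hlv ⟨12, by omega⟩ (Or.inl rfl)
    · simp only [if_neg h4]
      exact hlv ⟨13, by omega⟩ (Or.inr rfl)
  · intro u w hu hw
    have hu7 := hU u hu
    have hw7 := hU w hw
    obtain ⟨ι, hι, ρ, hρ, hιρ⟩ := hRTR P8 M8 K T.toRp (I u) U7 u hT.good (hI u hu7).1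
      (hI u hu7).2 hu
    obtain ⟨ι', hι', ρ', hρ', hιρ'⟩ := hRTR P8 M8 K T.toRp (I w) U7 w hT.good (hI w hw7).1
      (hI w hw7).2 hw
    have h1 := hRG2 P8 M8 K (I u) (I w) 12 (hRG3 P8 M8 K T.toRp T.toRp (I u) (I w) 12 hrigT
      ι hι ρ hρ hιρ ι' hι' ρ' hρ' hιρ')
    rw [he2] at h1
    rw [← E8c_e8 u w (hpar u hu) (hpar w hw)]
    have hu12 : ∀ v : Fin 8, (I u).dm (v, ⟨12, by omega⟩) = tval (shT u.2 (E7b u.1)) v 12 :=
      fun v => hIdm u hu7 (v, ⟨12, by omega⟩) (by simp only; omega)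
    have hu13 : ∀ v : Fin 8, (I u).dm (v, ⟨13, by omega⟩) = tval (shT u.2 (E7b u.1)) v 13 :=
      fun v => hIdm u hu7 (v, ⟨13, by omega⟩) (by simp only; omega)
    have hw12 : ∀ v : Fin 8, (I w).dm (v, ⟨12, by omega⟩) = tval (shT w.2 (E7b w.1)) v 12 :=
      fun v => hIdm w hw7 (v, ⟨12, by omega⟩) (by simp only; omega)
    have hw13 : ∀ v : Fin 8, (I w).dm (v, ⟨13, by omega⟩) = tval (shT w.2 (E7b w.1)) v 13 :=
      fun v => hIdm w hw7 (v, ⟨13, by omega⟩) (by simp only; omega)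
    simp only [hu12, hu13, hw12, hw13] at h1
    exact h1

end Pool.Agent.Lib.MP_4c1f79_al
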