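import Pool.Agent.Lib.MP_4c1f79_al.Stm8

/-!
# MP_4c1f79_al, piece [E8d]: transfer to `J`
-/

set_option autoImplicit false

namespace Pool.Agent.Lib.MP_4c1f79_al

open Finset Module

namespace E8dp

/-! ### General facts -/

section General

variable {P : Type} [Fintype P] {M : Mesh P} {K : Type} [Field K]

theorem sum_e_zero (R : Rp M K) (x : R.T) (h : ∀ p, R.e p x = 0) : x = 0 := by
  rw [← R.e_sum x]
  exact Finset.sum_eq_zero fun p _ => h p

theorem e_zero {R : Rp M K} {p q : P} {x : R.T} (hx : R.e p x = x) (h : q ≠ p) :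
    R.e q x = 0 := by
  rw [← hx]
  exact R.e_ne q p x h

theorem gen_st (R : Rp M K) (B : Submodule K R.T) : R.St (R.gen B) := by
  refine ⟨fun p x hx => ?_, fun x hx => ?_⟩
  · rw [Rp.gen, Submodule.mem_sInf] at hx ⊢
    exact fun W hW => hW.1.1 p x (hx W hW)
  · rw [Rp.gen, Submodule.mem_sInf] at hx ⊢
    exact fun W hW => hW.1.2 x (hx W hW)

theorem le_gen (R : Rp M K) (B : Submodule K R.T) : B ≤ R.gen B :=
  le_sInf fun _ hW => hW.2

theorem gen_le {R : Rp M K} {B W : Submodule K R.T} (hW : R.St W) (h : B ≤ W) : R.gen B ≤ W :=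
  sInf_le ⟨hW, h⟩

theorem st_sup {R : Rp M K} {V W : Submodule K R.T} (hV : R.St V) (hW : R.St W) :
    R.St (V ⊔ W) := by
  refine ⟨fun p x hx => ?_, fun x hx => ?_⟩
  · obtain ⟨v, hv, w, hw, rfl⟩ := Submodule.mem_sup.1 hx
    rw [map_add]
    exact Submodule.add_mem_sup (hV.1 p v hv) (hW.1 p w hw)
  · obtain ⟨v, hv, w, hw, rfl⟩ := Submodule.mem_sup.1 hx
    rw [map_add]
    exact Submodule.add_mem_sup (hV.2 v hv) (hW.2 w hw)

theorem st_add {R : Rp M K} {V : Submodule K R.T} (hV : R.St V) {p : P} {v : R.T}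
    (hv : R.e p v = v) (ha : R.a v ∈ V) : R.St (V ⊔ K ∙ v) := by
  refine ⟨fun q x hx => ?_, fun x hx => ?_⟩
  · obtain ⟨w, hw, z, hz, rfl⟩ := Submodule.mem_sup.1 hx
    obtain ⟨c, rfl⟩ := Submodule.mem_span_singleton.1 hz
    rw [map_add, map_smul]
    refine Submodule.add_mem_sup (hV.1 q w hw) (Submodule.smul_mem _ c ?_)
    by_cases h : q = p
    · subst h
      rw [hv]
      exact Submodule.mem_span_singleton_self v
    · rw [e_zero hv h]
      exact Submodule.zero_mem _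
  · obtain ⟨w, hw, z, hz, rfl⟩ := Submodule.mem_sup.1 hx
    obtain ⟨c, rfl⟩ := Submodule.mem_span_singleton.1 hz
    rw [map_add, map_smul]
    exact Submodule.mem_sup_left (add_mem (hV.2 w hw) (Submodule.smul_mem _ c ha))

theorem st_bot (R : Rp M K) : R.St ⊥ := by
  refine ⟨fun p x hx => ?_, fun x hx => ?_⟩
  · rw [Submodule.mem_bot] at hx ⊢
    rw [hx, map_zero]
  · rw [Submodule.mem_bot] at hx ⊢
    rw [hx, map_zero]

theorem gen_bot (R : Rp M K) : R.gen ⊥ = ⊥ := le_bot_iff.1 (gen_le (st_bot R) le_rfl)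

theorem gen_add (R : Rp M K) (B : Submodule K R.T) {p : P} {v : R.T} (hv : R.e p v = v) :
    R.gen (B ⊔ K ∙ v) = R.gen B ⊔ R.gen (K ∙ R.a v) ⊔ K ∙ v := by
  apply le_antisymm
  · apply gen_le
    · apply st_add (st_sup (gen_st _ _) (gen_st _ _)) hv
      exact Submodule.mem_sup_right (le_gen _ _ (Submodule.mem_span_singleton_self _))
    · apply sup_le
      · exact (le_gen R B).trans (le_sup_left.trans le_sup_left)
      · exact le_sup_right
  · apply sup_le (sup_le ?_ ?_) ?_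
    · exact gen_le (gen_st _ _) (le_sup_left.trans (le_gen _ _))
    · apply gen_le (gen_st _ _)
      rw [Submodule.span_singleton_le_iff_mem]
      exact (gen_st _ _).2 _ (le_gen _ _
        (Submodule.mem_sup_right (Submodule.mem_span_singleton_self _)))
    · exact le_sup_right.trans (le_gen _ _)

theorem gen_add' (R : Rp M K) {p : P} {v : R.T} (hv : R.e p v = v) :
    R.gen (K ∙ v) = R.gen (K ∙ R.a v) ⊔ K ∙ v := by
  have h := gen_add R ⊥ hv
  rwa [gen_bot, bot_sup_eq, bot_sup_eq] at h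

theorem dmS_add_ne (R : Rp M K) (V : Submodule K R.T) {p q : P} {v : R.T} (hv : R.e p v = v)
    (h : q ≠ p) : R.dmS (V ⊔ K ∙ v) q = R.dmS V q := by
  unfold Rp.dmS
  rw [Submodule.map_sup, Submodule.map_span, Set.image_singleton, e_zero hv h,
    Submodule.span_zero_singleton, sup_bot_eq]

theorem dmS_add_eq (R : Rp M K) (V : Submodule K R.T) {p : P} {v : R.T} (hv : R.e p v = v)
    (h0 : v ≠ 0) (hV : R.dmS V p = 0) : R.dmS (V ⊔ K ∙ v) p = 1 := by
  have hf : Module.Finite K R.T := Module.Finite.of_finite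
  have h1 : V.map (R.e p) = ⊥ := Submodule.finrank_eq_zero.1 hV
  unfold Rp.dmS
  rw [Submodule.map_sup, h1, bot_sup_eq, Submodule.map_span, Set.image_singleton, hv]
  exact finrank_span_singleton h0

theorem st_map {R R' : Rp M K} {f : R.T →ₗ[K] R'.T} (hf : f ∈ Rp.Hm R R')
    {W : Submodule K R.T} (h : R.St W) : R'.St (W.map f) := by
  refine ⟨fun p x hx => ?_, fun x hx => ?_⟩
  · obtain ⟨w, hw, rfl⟩ := hx
    exact ⟨_, h.1 p w hw, hf.1 p w⟩
  · obtain ⟨w, hw, rfl⟩ := hx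
    exact ⟨_, h.2 w hw, hf.2 w⟩

theorem st_cmp {R R' : Rp M K} {f : R.T →ₗ[K] R'.T} (hf : f ∈ Rp.Hm R R')
    {W : Submodule K R'.T} (h : R'.St W) : R.St (W.comap f) := by
  refine ⟨fun p x hx => ?_, fun x hx => ?_⟩
  · show f (R.e p x) ∈ W
    rw [hf.1 p x]
    exact h.1 p _ hx
  · show f (R.a x) ∈ W
    rw [hf.2 x]
    exact h.2 _ hx

theorem gen_map {R R' : Rp M K} {f : R.T →ₗ[K] R'.T} (hf : f ∈ Rp.Hm R R') (x : R.T) :
    R'.gen (K ∙ f x) = (R.gen (K ∙ x)).map f := by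
  apply le_antisymm
  · apply gen_le (st_map hf (gen_st _ _))
    rw [Submodule.span_singleton_le_iff_mem]
    exact ⟨x, le_gen _ _ (Submodule.mem_span_singleton_self x), rfl⟩
  · rw [Submodule.map_le_iff_le_comap]
    apply gen_le (st_cmp hf (gen_st _ _))
    rw [Submodule.span_singleton_le_iff_mem]
    exact le_gen _ _ (Submodule.mem_span_singleton_self _)

theorem dmS_map {R R' : Rp M K} {f : R.T →ₗ[K] R'.T} (hf : f ∈ Rp.Hm R R')
    (hi : Function.Injective f) (W : Submodule K R.T) (p : P) :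
    R'.dmS (W.map f) p = R.dmS W p := by
  unfold Rp.dmS
  have h1 : (W.map f).map (R'.e p) = (W.map (R.e p)).map f := by
    rw [← Submodule.map_comp, ← Submodule.map_comp]
    congr 1
    ext x
    exact (hf.1 p x).symm
  rw [h1]
  exact (LinearEquiv.finrank_eq (Submodule.equivMapOfInjective f hi (W.map (R.e p)))).symm

end General

/-! ### The concrete quiver -/

theorem ar8 (p q : P8) : M8.Ar p q ↔ eB p.1 q.1 = true ∧ (p.2 : ℕ) = q.2 + 1 := Iff.rfl

theorem tau8 (p r : P8) : M8.Tau p r ↔ p.1 = r.1 ∧ (p.2 : ℕ) = r.2 + 2 := Iff.rfl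

theorem lv8 (p : P8) : M8.lv p = p.2 := rfl

theorem eB6 (w : Fin 8) (h : eB 6 w = true) : w = 5 := by
  revert w; decide

theorem eB_6 (v : Fin 8) (h : eB v 6 = true) : v = 5 := by
  revert v; decide

/-- the position `(5, 13)` -/
def p5 : P8 := (5, 13)

theorem ar_st (q : P8) (h : M8.Ar st8 q) : q = p5 := by
  obtain ⟨h1, h2⟩ := (ar8 _ _).1 h
  have h3 := eB6 _ h1
  have h4 : (q.2 : ℕ) = 13 := by
    have : ((st8.2 : Fin 30) : ℕ) = 14 := rfl
    omega
  exact Prod.ext h3 (Fin.ext h4)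

theorem mT8_6 (p : P8) (h : p.1 = 6) : mT8 p = 0 := by
  unfold mT8 ind
  apply Set.indicator_of_notMem
  intro hp
  rcases hp with hp | hp | hp
  · rw [hp] at h
    exact absurd h (by decide)
  · rw [hp] at h
    exact absurd h (by decide)
  · have hp' : p = ((7, 5) : P8) := hp
    rw [hp'] at h
    exact absurd h (by decide)

theorem st_U7 : st8 ∉ U7 := fun h => h rfl

theorem st_W8 : st8 ∈ W8 := Or.inr rfl

variable {K : Type} [Field K] {D : Fd K}

theorem a_st (R : Rp M8 K) (v : R.T) (hv : R.e st8 v = v) : R.e p5 (R.a v) = R.a v := by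
  conv_rhs => rw [← R.e_sum (R.a v)]
  rw [Finset.sum_eq_single p5]
  · intro q _ hq
    rw [← hv]
    exact R.a_ar st8 q v fun h => hq (ar_st q h)
  · intro h
    exact absurd (Finset.mem_univ _) h

theorem sc_inj (hDQ3 : S_DQ3) (R : Rp M8 K) (p : P8) (h : R.sc p = 0) (x : R.T)
    (hx : R.e p x = x) (ha : R.a x = 0) : x = 0 :=
  ((hDQ3 P8 M8 K).2.2.2.2.1 R p).1 h x hx ha

/-- the largest sub zero at `*` -/
theorem grd_bot (hFI8 : S_FI8) (J : FM M8 s8 K D) : J.Grd {st8} (⊥ : Submodule K J.T) where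
  e p x hx := by
    rw [Submodule.mem_bot] at hx ⊢
    rw [hx, map_zero]
  F x hx := by
    rw [Submodule.mem_bot] at hx ⊢
    rw [hx, map_zero]
  sup p _ x hx := by
    rw [Submodule.mem_bot] at hx
    rw [hx, map_zero]
  rs p := by rw [hFI8.1 p]

theorem exists_psi (hUNI : S_UNI) (hGC1 : S_GC1) (hFID : S_FID) (hFI8 : S_FI8) (hDQ3 : S_DQ3)
    (hr : D.r = 1) (T J : FM M8 s8 K D) (hT : T.GT U7 mT8) (hJ : J.GT W8 mT8) :
    ∃ ψ : T.T →ₗ[K] J.T, ψ ∈ Rp.Hm T.toRp J.toRp ∧ Function.Injective ψ ∧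
      (∀ W : Submodule K J.T, J.toRp.St W → (∀ x ∈ W, J.e st8 x = 0) →
        W ≤ LinearMap.range ψ) ∧ ∀ t, J.e st8 (ψ t) = 0 := by
  obtain ⟨-, -, -, hst, hcog, huni, hup, -⟩ :=
    hGC1 P8 M8 s8 K D J {st8} ⊥ (grd_bot hFI8 J)
  have hc0 : ∀ x ∈ J.cog {st8} ⊥, J.e st8 x = 0 := by
    intro x hx
    have h1 := hcog st8 rfl (Submodule.mem_map_of_mem hx)
    rw [Submodule.map_bot, Submodule.mem_bot] at h1
    exact h1
  have hgood : (J.sub (J.cog {st8} ⊥) hst).toRp.Good U7 := by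
    refine ⟨fun p hp x => ?_, fun p hp y hy1 hy2 => ?_⟩
    · apply Subtype.ext
      show J.e p x.1 = 0
      by_cases h : p = st8
      · rw [h]
        exact hc0 x.1 x.2
      · apply hJ.1.1 p
        intro h2
        rcases h2 with h2 | h2
        · exact hp h2
        · exact h h2
    · have hpW : p ∈ W8 := Or.inl hp
      have hps : p ∉ ({st8} : Set P8) := by
        intro h
        have h' : p = st8 := h
        rw [h'] at hp
        exact st_U7 hp
      obtain ⟨x, hx1, hx2⟩ := hJ.1.2 p hpW y.1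
        (fun q hq => congrArg Subtype.val (hy1 q hq))
        (fun r hr => congrArg Subtype.val (hy2 r hr))
      have hxc : x ∈ J.cog {st8} ⊥ := hup x ⟨p, hps, hx1⟩ (by rw [hx2]; exact y.2)
      exact ⟨⟨x, hxc⟩, Subtype.ext hx1, Subtype.ext hx2⟩
  have hsc : ∀ p, (J.sub (J.cog {st8} ⊥) hst).toRp.sc p = mT8 p := by
    intro p
    by_cases hp : p.1 = 6
    · rw [mT8_6 p hp]
      have hpU : p ∉ U7 := fun h => h hp
      apply ((hDQ3 P8 M8 K).2.2.2.2.1 _ p).2
      intro x hx _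
      rw [← hx]
      exact hgood.1 p hpU x
    · rw [← hJ.2 p]
      have hps : p ∉ ({st8} : Set P8) := by
        intro h
        have h' : p = st8 := h
        rw [h'] at hp
        exact hp rfl
      have hmap : Submodule.map (J.cog {st8} ⊥).subtype
          (LinearMap.range ((J.sub (J.cog {st8} ⊥) hst).toRp.e p) ⊓
            LinearMap.ker (J.sub (J.cog {st8} ⊥) hst).toRp.a)
          = LinearMap.range (J.e p) ⊓ LinearMap.ker J.a := by
        ext x
        constructor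
        · rintro ⟨z, ⟨⟨w, hw⟩, hz2⟩, rfl⟩
          refine ⟨⟨w.1, ?_⟩, ?_⟩
          · exact congrArg Subtype.val hw
          · exact congrArg Subtype.val hz2
        · rintro ⟨⟨w, hw⟩, hx2⟩
          have hx1 : J.e p x = x := by rw [← hw, J.e_e]
          have hx2' : J.a x = 0 := hx2
          have hxc : x ∈ J.cog {st8} ⊥ :=
            hup x ⟨p, hps, hx1⟩ (by rw [hx2']; exact Submodule.zero_mem _)
          refine ⟨⟨x, hxc⟩, ⟨⟨⟨x, hxc⟩, Subtype.ext hx1⟩, ?_⟩, rfl⟩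
          exact Subtype.ext hx2'
      show finrank K _ = finrank K _
      rw [← hmap]
      exact LinearEquiv.finrank_eq (Submodule.equivMapOfInjective _
        (Submodule.injective_subtype _) _)
  have hadm : Adm M8 s8 D.r U7 := by
    rw [hr]
    exact hFI8.2.1 U7
  obtain ⟨f, hf, hfb⟩ := hUNI P8 M8 s8 K D U7 hadm mT8 T (J.sub (J.cog {st8} ⊥) hst) hT
    ⟨hgood, hsc⟩
  refine ⟨(J.cog {st8} ⊥).subtype ∘ₗ f, ⟨fun p x => ?_, fun x => ?_⟩, ?_, ?_, ?_⟩
  · exact congrArg Subtype.val (hf.1.1 p x)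
  · exact congrArg Subtype.val (hf.1.2 x)
  · exact (Submodule.injective_subtype _).comp hfb.1
  · intro W hW h0 x hx
    have hWS : J.St W := ((hFID P8 M8 K D hr).2.2.2.1 s8 J W).2 hW
    have hxc : x ∈ J.cog {st8} ⊥ := by
      apply huni W hWS _ hx
      intro p hp
      have hp' : p = st8 := hp
      rw [hp']
      rintro y ⟨w, hw, rfl⟩
      rw [h0 w hw]
      exact Submodule.zero_mem _
    obtain ⟨t, ht⟩ := hfb.2 ⟨x, hxc⟩
    exact ⟨t, congrArg Subtype.val ht⟩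
  · intro t
    exact hc0 _ (f t).2

/-! ### Linear maps from linear relations -/

theorem lin_choose {V W : Type} [AddCommGroup V] [Module K V] [AddCommGroup W] [Module K W]
    (S : V → W → Prop) (hadd : ∀ v v' w w', S v w → S v' w' → S (v + v') (w + w'))
    (hsmul : ∀ (c : K) v w, S v w → S (c • v) (c • w)) (hex : ∀ v, ∃ w, S v w)
    (huq : ∀ v w w', S v w → S v w' → w = w') : ∃ f : V →ₗ[K] W, ∀ v, S v (f v) := by
  choose g hg using hex
  exact ⟨{ toFun := g
           map_add' := fun v v' => huq _ _ _ (hg (v + v')) (hadd _ _ _ _ (hg v) (hg v'))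
           map_smul' := fun c v => huq _ _ _ (hg (c • v)) (hsmul c _ _ (hg v)) }, hg⟩

/-- the map `j` -/
theorem exists_j (hDQ3 : S_DQ3) (N T J : FM M8 s8 K D) (κ : N.T →ₗ[K] T.T) (hκ : TK N T κ)
    (hJ : J.GT W8 mT8) (ψ : T.T →ₗ[K] J.T) (hψ : ψ ∈ Rp.Hm T.toRp J.toRp) :
    ∃ j : N.T →ₗ[K] J.T, ∀ v, J.e st8 (j v) = j v ∧ J.a (j v) = ψ (κ (N.a (N.e st8 v))) := by
  apply lin_choose (fun v x => J.e st8 x = x ∧ J.a x = ψ (κ (N.a (N.e st8 v))))
  · intro v v' w w' h h'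
    refine ⟨?_, ?_⟩
    · rw [map_add, h.1, h'.1]
    · rw [map_add, h.2, h'.2, map_add, map_add, map_add, map_add]
  · intro c v w h
    refine ⟨?_, ?_⟩
    · rw [map_smul, h.1]
    · rw [map_smul, h.2, map_smul, map_smul, map_smul, map_smul]
  · intro v
    have h1 : N.e p5 (N.a (N.e st8 v)) = N.a (N.e st8 v) :=
      a_st N.toRp _ (N.e_e st8 v)
    have h2 : J.e p5 (ψ (κ (N.a (N.e st8 v)))) = ψ (κ (N.a (N.e st8 v))) := by
      rw [← hψ.1, ← hκ.e, h1]
    apply hJ.1.2 st8 st_W8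
    · intro q hq
      apply e_zero h2
      rintro rfl
      exact hq ⟨by decide, by decide⟩
    · intro r hr
      apply hJ.1.1 r
      obtain ⟨h3, h4⟩ := (tau8 _ _).1 hr
      have h5 : ((st8.2 : Fin 30) : ℕ) = 14 := rfl
      intro h6
      rcases h6 with h6 | h6
      · exact h6 h3.symm
      · rw [h6] at h4
        omega
  · intro v w w' h h'
    have h0 : w - w' = 0 := by
      apply sc_inj hDQ3 J.toRp st8
      · rw [hJ.2]
        exact mT8_6 _ rfl
      · rw [map_sub, h.1, h'.1]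
      · rw [map_sub, h.2, h'.2, sub_self]
    exact sub_eq_zero.1 h0

/-- The positions where `κ` is bijective. -/
def PiK (p : P8) : Prop := p.1 ≠ 6 ∧ 12 ≤ (p.2 : ℕ) ∧ (p.2 : ℕ) ≤ 14

theorem e_fam (R : Rp M8 K) (X : P8 → R.T) (h : ∀ p, R.e p (X p) = X p) (q : P8) :
    R.e q (∑ p, X p) = X q := by
  rw [map_sum, Finset.sum_eq_single q]
  · exact h q
  · intro p _ hp
    exact e_zero (h p) hp.symm
  · intro h'
    exact absurd (Finset.mem_univ _) h'

theorem uniqK {N T : FM M8 s8 K D} {κ : N.T →ₗ[K] T.T} (hκ : TK N T κ) (x x' : N.T)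
    (h0 : ∀ p, ¬ PiK p → N.e p x = N.e p x')
    (h1 : ∀ p, PiK p → κ (N.e p x) = κ (N.e p x')) : x = x' := by
  have h2 : x - x' = 0 := by
    apply sum_e_zero N.toRp
    intro p
    by_cases hp : PiK p
    · apply hκ.inj p hp.1 hp.2.1 hp.2.2
      · exact N.e_e p _
      · rw [map_sub, map_sub, h1 p hp, sub_self]
    · rw [map_sub, h0 p hp, sub_self]
  exact sub_eq_zero.1 h2

theorem exists_lam {N T : FM M8 s8 K D} {κ : N.T →ₗ[K] T.T} (hκ : TK N T κ) :
    ∃ lam : T.T →ₗ[K] N.T, ∀ t, (∀ p, ¬ PiK p → N.e p (lam t) = 0) ∧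
      ∀ p, PiK p → κ (N.e p (lam t)) = T.e p t := by
  classical
  apply lin_choose (fun t x => (∀ p, ¬ PiK p → N.e p x = 0) ∧
      ∀ p, PiK p → κ (N.e p x) = T.e p t)
  · intro v v' w w' h h'
    refine ⟨fun p hp => ?_, fun p hp => ?_⟩
    · rw [map_add, h.1 p hp, h'.1 p hp, add_zero]
    · rw [map_add, map_add, h.2 p hp, h'.2 p hp, map_add]
  · intro c v w h
    refine ⟨fun p hp => ?_, fun p hp => ?_⟩
    · rw [map_smul, h.1 p hp, smul_zero]
    · rw [map_smul, map_smul, h.2 p hp, map_smul]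
  · intro t
    have hX : ∀ p, ∃ x, N.e p x = x ∧ (PiK p → κ x = T.e p t) ∧ (¬ PiK p → x = 0) := by
      intro p
      by_cases hp : PiK p
      · obtain ⟨x, hx1, hx2⟩ := hκ.sur p hp.1 hp.2.1 hp.2.2 (T.e p t) (T.e_e p t)
        exact ⟨x, hx1, fun _ => hx2, fun h => absurd hp h⟩
      · exact ⟨0, map_zero _, fun h => absurd h hp, fun _ => rfl⟩
    choose X hX1 hX2 hX3 using hX
    refine ⟨∑ p, X p, fun p hp => ?_, fun p hp => ?_⟩
    · rw [e_fam N.toRp X hX1 p]
      exact hX3 p hp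
    · rw [e_fam N.toRp X hX1 p]
      exact hX2 p hp
  · intro t x x' h h'
    apply uniqK hκ
    · intro p hp
      rw [h.1 p hp, h'.1 p hp]
    · intro p hp
      rw [h.2 p hp, h'.2 p hp]

section Lam

variable {N T : FM M8 s8 K D} {κ : N.T →ₗ[K] T.T} {lam : T.T →ₗ[K] N.T}

theorem lam_e (hκ : TK N T κ) (hl : ∀ t, (∀ p, ¬ PiK p → N.e p (lam t) = 0) ∧
      ∀ p, PiK p → κ (N.e p (lam t)) = T.e p t) (q : P8) (t : T.T) :
    lam (T.e q t) = N.e q (lam t) := by
  apply uniqK hκ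
  · intro p hp
    rw [(hl _).1 p hp]
    by_cases h : p = q
    · subst h
      rw [N.e_e, (hl _).1 p hp]
    · rw [N.e_ne p q _ h]
  · intro p hp
    rw [(hl _).2 p hp]
    by_cases h : p = q
    · subst h
      rw [N.e_e, T.e_e, (hl _).2 p hp]
    · rw [N.e_ne p q _ h, T.e_ne p q _ h, map_zero]

theorem lam_kap (hκ : TK N T κ) (hl : ∀ t, (∀ p, ¬ PiK p → N.e p (lam t) = 0) ∧
      ∀ p, PiK p → κ (N.e p (lam t)) = T.e p t) (x : N.T)
    (hx : ∀ p, ¬ PiK p → N.e p x = 0) : lam (κ x) = x := by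
  apply uniqK hκ
  · intro p hp
    rw [(hl _).1 p hp, hx p hp]
  · intro p hp
    rw [(hl _).2 p hp, hκ.e]

theorem kap_lam (hκ : TK N T κ) (hl : ∀ t, (∀ p, ¬ PiK p → N.e p (lam t) = 0) ∧
      ∀ p, PiK p → κ (N.e p (lam t)) = T.e p t) (p : P8) (hp : PiK p) (t : T.T)
    (ht : T.e p t = t) : κ (lam t) = t := by
  conv_lhs => rw [← ht]
  rw [lam_e hκ hl, (hl t).2 p hp, ht]

end Lam

/-- nothing of the rows `≠ 6` of level `≤ 14` maps to `(6, 13)` -/
theorem e613 (hE8a : S_E8a) (hGC1 : S_GC1) (hr : D.r = 1) (N : FM M8 s8 K D)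
    (hN : N.GT Set.univ (ind {((2, 0) : P8)})) (p : P8) (hp : p.1 ≠ 6) (hp2 : (p.2 : ℕ) ≤ 14)
    (z : N.T) (hz : N.e p z = z) : N.e ((6, 13) : P8) (N.a z) = 0 := by
  obtain ⟨-, -, hgrd, -, -, -, -, -, hin⟩ := hE8a K D hr N hN
  obtain ⟨-, -, -, hst, hcog, -⟩ := hGC1 P8 M8 s8 K D N R6 (B12 N.toRp) hgrd
  have h1 : z ∈ N.cog R6 (B12 N.toRp) := hin p hp hp2 z hz
  have h2 : N.a z ∈ N.cog R6 (B12 N.toRp) := hst.1.2 z h1
  have h3 := hcog ((6, 13) : P8) rfl (Submodule.mem_map_of_mem h2)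
  obtain ⟨b, hb, hb2⟩ := h3
  have h4 : B12 N.toRp ≤ LinearMap.ker (N.e ((6, 13) : P8)) := by
    refine iSup_le fun k => iSup_le fun hk => ?_
    rintro x ⟨y, rfl⟩
    show N.e ((6, 13) : P8) (N.e (6, k) y) = 0
    apply N.e_ne
    intro h
    have h5 : (13 : Fin 30) = k := congrArg Prod.snd h
    rw [← h5] at hk
    exact absurd hk (by decide)
  rw [← hb2]
  exact h4 hb

/-- the endomorphism part -/
theorem endo (hE8a : S_E8a) (hGC1 : S_GC1) (hBRK : S_BRK) (hDQ3 : S_DQ3) (hr : D.r = 1)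
    (N T J : FM M8 s8 K D) (hN : N.GT Set.univ (ind {((2, 0) : P8)})) (hJ : J.GT W8 mT8)
    (κ : N.T →ₗ[K] T.T) (hκ : TK N T κ) (ψ : T.T →ₗ[K] J.T) (hψ : ψ ∈ Rp.Hm T.toRp J.toRp)
    (hi : Function.Injective ψ)
    (hmax : ∀ W : Submodule K J.T, J.toRp.St W → (∀ x ∈ W, J.e st8 x = 0) →
        W ≤ LinearMap.range ψ) (h0 : ∀ t, J.e st8 (ψ t) = 0)
    (h13 : ∀ y, J.e p5 y = y → y ∈ LinearMap.range ψ)
    (j : N.T →ₗ[K] J.T)
    (hj : ∀ v, J.e st8 (j v) = j v ∧ J.a (j v) = ψ (κ (N.a (N.e st8 v))))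
    (hji : ∀ v, N.e st8 v = v → j v = 0 → v = 0)
    (ε : J.T →ₗ[K] J.T) (hε : ε ∈ Rp.Hm J.toRp J.toRp)
    (hεj : ∀ v, N.e st8 v = v → ∃ v', N.e st8 v' = v' ∧ ε (j v) = j v') :
    ∃ c : K, ∀ y, J.e st8 y = y → ε y = c • y := by
  -- the induced endomorphism of `T`
  obtain ⟨ε', hε'⟩ : ∃ ε' : T.T →ₗ[K] T.T, ∀ t, ψ (ε' t) = ε (ψ t) := by
    apply lin_choose (fun t t' => ψ t' = ε (ψ t))
    · intro v v' w w' h h'
      rw [map_add, h, h', map_add, map_add]
    · intro c v w h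
      rw [map_smul, h, map_smul, map_smul]
    · intro t
      have h1 : (LinearMap.range ψ).map ε ≤ LinearMap.range ψ := by
        apply hmax
        · apply st_map hε
          have h2 : T.toRp.St ⊤ := ⟨fun _ _ _ => Submodule.mem_top, fun _ _ => Submodule.mem_top⟩
          have h3 := st_map hψ h2
          rwa [Submodule.map_top] at h3
        · rintro x ⟨y, ⟨t, rfl⟩, rfl⟩
          rw [← hε.1, h0, map_zero]
      exact h1 (Submodule.mem_map_of_mem ⟨t, rfl⟩)
    · intro v w w' h h'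
      exact hi (h.trans h'.symm)
  have hε'e : ∀ p t, ε' (T.e p t) = T.e p (ε' t) := by
    intro p t
    apply hi
    rw [hε', hψ.1, hε.1, ← hε', hψ.1]
  have hε'a : ∀ t, ε' (T.a t) = T.a (ε' t) := by
    intro t
    apply hi
    rw [hε', hψ.2, hε.2, ← hε', hψ.2]
  -- the endomorphism at `*`
  obtain ⟨G, hG⟩ : ∃ G : N.T →ₗ[K] N.T, ∀ x, N.e st8 (G x) = G x ∧
      j (G x) = ε (j (N.e st8 x)) := by
    apply lin_choose (fun x z => N.e st8 z = z ∧ j z = ε (j (N.e st8 x)))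
    · intro v v' w w' h h'
      refine ⟨?_, ?_⟩
      · rw [map_add, h.1, h'.1]
      · rw [map_add, h.2, h'.2, map_add, map_add, map_add]
    · intro c v w h
      refine ⟨?_, ?_⟩
      · rw [map_smul, h.1]
      · rw [map_smul, h.2, map_smul, map_smul, map_smul]
    · intro v
      obtain ⟨v', h1, h2⟩ := hεj (N.e st8 v) (N.e_e st8 v)
      exact ⟨v', h1, h2.symm⟩
    · intro v w w' h h'
      have h1 : w - w' = 0 := by
        apply hji
        · rw [map_sub, h.1, h'.1]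
        · rw [map_sub, h.2, h'.2, sub_self]
      exact sub_eq_zero.1 h1
  obtain ⟨lam, hl⟩ := exists_lam hκ
  have hG0 : ∀ x, N.e st8 x = 0 → G x = 0 := by
    intro x hx
    apply hji _ (hG x).1
    rw [(hG x).2, hx, map_zero, map_zero]
  have hbr : N.toRp.Brick 13 := by
    refine (hBRK P8 M8 K N.toRp Set.univ 29 ((2, 0) : P8) hN.1 hN.2 (Set.mem_univ _) ?_).1 13
      (by norm_num)
    intro r _ hr2
    have hr3 : (r.2 : ℕ) + 2 ≤ 29 := hr2
    exact ⟨(r.1, ⟨(r.2 : ℕ) + 2, by omega⟩), Set.mem_univ _, rfl, rfl⟩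
  have hlam13 : ∀ x, lam (ε' (κ (N.e p5 x))) = N.e p5 (lam (ε' (κ x))) := by
    intro x
    rw [hκ.e, hε'e, lam_e hκ hl]
  have hp5 : PiK p5 := ⟨by decide, by decide, by decide⟩
  have hp5s : st8 ≠ p5 := by decide
  obtain ⟨c, hc⟩ := hbr (lam ∘ₗ ε' ∘ₗ κ + G) (by
    intro p x
    show lam (ε' (κ (N.e p x))) + G (N.e p x) = N.e p (lam (ε' (κ x)) + G x)
    rw [hκ.e, hε'e, lam_e hκ hl, map_add]
    congr 1
    by_cases h : p = st8
    · rw [h, (hG x).1]
      have h2 : G (N.e st8 x - x) = 0 := by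
        apply hG0
        rw [map_sub, N.e_e, sub_self]
      rw [map_sub] at h2
      exact sub_eq_zero.1 h2
    · rw [e_zero (hG x).1 h]
      apply hG0
      exact N.e_ne st8 p x (fun h' => h h'.symm)) (by
    intro p hp x
    have hp' : (p.2 : ℕ) = 14 := hp
    show lam (ε' (κ (N.a (N.e p x)))) + G (N.a (N.e p x))
      = N.a (lam (ε' (κ (N.e p x))) + G (N.e p x))
    have hGa : G (N.a (N.e p x)) = 0 := by
      apply hG0
      apply N.a_ar
      intro h
      obtain ⟨-, h2⟩ := (ar8 _ _).1 h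
      have h3 : ((st8.2 : Fin 30) : ℕ) = 14 := rfl
      omega
    rw [hGa, add_zero]
    by_cases h6 : p.1 = 6
    · have hps : p = st8 := Prod.ext h6 (Fin.ext hp')
      subst hps
      have h1 : κ (N.e st8 x) = 0 := hκ.zero st8 (fun h => h.1 rfl) x
      rw [h1, map_zero, map_zero, zero_add]
      have h2 : ε' (κ (N.a (N.e st8 x))) = κ (N.a (G (N.e st8 x))) := by
        apply hi
        have h3 := (hj (N.e st8 x)).2
        rw [N.e_e] at h3
        have h4 := (hj (G (N.e st8 x))).2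
        rw [(hG _).1] at h4
        rw [hε', ← h3, hε.2, ← h4, (hG _).2, N.e_e]
      rw [h2]
      apply lam_kap hκ hl
      intro q hq
      apply e_zero (a_st N.toRp _ (hG _).1)
      rintro rfl
      exact hq hp5
    · have hGp : G (N.e p x) = 0 := by
        apply hG0
        apply N.e_ne
        intro h
        rw [← h] at h6
        exact h6 rfl
      rw [hGp, add_zero]
      have hPp : PiK p := ⟨h6, by omega, by omega⟩
      have ht : T.e p (ε' (κ (N.e p x))) = ε' (κ (N.e p x)) := by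
        rw [← hε'e, ← hκ.e, N.e_e]
      have hz : N.e p (lam (ε' (κ (N.e p x)))) = lam (ε' (κ (N.e p x))) := by
        rw [← lam_e hκ hl, ht]
      have h1 : κ (N.a (lam (ε' (κ (N.e p x))))) = ε' (κ (N.a (N.e p x))) := by
        rw [← hz, hκ.a p h6 (by omega) (by omega), hz, kap_lam hκ hl p hPp _ ht,
          hκ.a p h6 (by omega) (by omega), hε'a]
      rw [← h1]
      apply lam_kap hκ hl
      intro q hq
      by_cases har : M8.Ar p q
      · obtain ⟨h3, h4⟩ := (ar8 _ _).1 har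
        have h5 : (q.2 : ℕ) = 13 := by omega
        have h7 : q.1 = 6 := by
          by_contra h7
          exact hq ⟨h7, by omega, by omega⟩
        have h8 : q = ((6, 13) : P8) := Prod.ext h7 (Fin.ext h5)
        rw [h8]
        exact e613 hE8a hGC1 hr N hN p h6 (by omega) _ hz
      · rw [← hz]
        exact N.a_ar p q _ har)
  -- the scalar
  have hc5 : ∀ t, T.e p5 t = t → ε' t = c • t := by
    intro t ht
    obtain ⟨x, hx1, hx2⟩ := hκ.sur p5 hp5.1 hp5.2.1 hp5.2.2 t ht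
    have h1 := hc p5 (Or.inl rfl) x
    rw [hx1] at h1
    have h2 : lam (ε' (κ x)) + G x = c • x := h1
    have h3 : G x = 0 := hG0 x (e_zero hx1 hp5s)
    rw [h3, add_zero] at h2
    have h4 := congrArg κ h2
    rw [map_smul, hx2] at h4
    rw [← h4]
    refine (kap_lam hκ hl p5 hp5 _ ?_).symm
    rw [← hε'e, ht]
  refine ⟨c, fun y hy => ?_⟩
  have hay : J.e p5 (J.a y) = J.a y := a_st J.toRp y hy
  obtain ⟨t, ht⟩ := h13 _ hay
  have ht5 : T.e p5 t = t := by
    apply hi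
    rw [hψ.1, ht, hay]
  have h1 : ε (J.a y) = c • J.a y := by
    rw [← ht, ← hε', hc5 t ht5, map_smul]
  have h2 : ε y - c • y = 0 := by
    apply sc_inj hDQ3 J.toRp st8
    · rw [hJ.2]
      exact mT8_6 _ rfl
    · rw [map_sub, map_smul, hy, ← hε.1, hy]
    · rw [map_sub, map_smul, ← hε.2, h1, sub_self]
  exact sub_eq_zero.1 h2

end E8dp

open E8dp in
theorem E8d_holds (hE8a : S_E8a) (hE8b : S_E8b) (hE8c : S_E8c) (hUNI : S_UNI) (hGC1 : S_GC1)
    (hGC2 : S_GC2) (hGC3 : S_GC3) (hBRK : S_BRK) (hFID : S_FID) (hFI8 : S_FI8) (hGNV : S_GNV)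
    (hDQ1 : S_DQ1) (hDQ3 : S_DQ3) : S_E8d := by
  intro K _ D hr N J hN hJ
  obtain ⟨T, κ, hκ⟩ := hE8b K D hr N hN
  have hTsc := hE8c K D hr N T κ hN hκ
  refine ⟨fun u hu => ?_, ?_⟩
  · rw [← hκ.sc u hu, hTsc u]
  obtain ⟨ψ, hψ, hi, hmax, h0⟩ := exists_psi hUNI hGC1 hFID hFI8 hDQ3 hr T J ⟨hκ.good, hTsc⟩ hJ
  obtain ⟨j, hj⟩ := exists_j hDQ3 N T J κ hκ hJ ψ hψ
  have hNsc : N.toRp.sc st8 = 0 := by
    rw [hN.2]
    unfold ind
    apply Set.indicator_of_notMem
    intro h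
    have h' : st8 = ((2, 0) : P8) := h
    exact absurd h' (by decide)
  have hN5 : ∀ v, N.e st8 v = v → v ≠ 0 → κ (N.a v) ≠ 0 := by
    intro v hv hv0 h
    apply hv0
    apply sc_inj hDQ3 N.toRp st8 hNsc v hv
    exact hκ.inj p5 (by decide) (by decide) (by decide) _ (a_st N.toRp v hv) h
  have hja : ∀ v, N.e st8 v = v → J.a (j v) = ψ (κ (N.a v)) := by
    intro v hv
    have h1 := (hj v).2
    rwa [hv] at h1
  have hji : ∀ v, N.e st8 v = v → j v = 0 → v = 0 := by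
    intro v hv hjv
    by_contra hv0
    apply hN5 v hv hv0
    apply hi
    rw [← hja v hv, hjv, map_zero, map_zero]
  have h13 : ∀ y, J.e p5 y = y → y ∈ LinearMap.range ψ := by
    intro y hy
    by_cases hy0 : y = 0
    · rw [hy0]
      exact Submodule.zero_mem _
    · obtain ⟨g1, g2, -, g4, -, -⟩ := hGNV P8 M8 K J.toRp p5 y hy hy0
      apply hmax _ g1 _ g2
      intro x hx
      have h1 := g4 st8 (by decide) (by decide)
      have hf : Module.Finite K J.T := Module.Finite.of_finite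
      have h2 : (J.toRp.gen (K ∙ y)).map (J.e st8) = ⊥ := Submodule.finrank_eq_zero.1 h1
      have h3 : J.e st8 x ∈ (J.toRp.gen (K ∙ y)).map (J.e st8) := Submodule.mem_map_of_mem hx
      rw [h2, Submodule.mem_bot] at h3
      exact h3
  refine ⟨j, fun v => (hj v).1, hji, ?_, ?_⟩
  · intro v hv hv0 p
    obtain ⟨-, -, -, -, -, -, -, hS6, -⟩ := hE8a K D hr N hN
    have hTst : T.toRp.dmS (T.toRp.gen (K ∙ κ (N.a v))) st8 = 0 := by
      have h1 : (T.toRp.gen (K ∙ κ (N.a v))).map (T.e st8) = ⊥ := by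
        rw [eq_bot_iff]
        rintro _ ⟨x, _, rfl⟩
        rw [hκ.good.1 st8 st_U7 x]
        exact Submodule.zero_mem _
      unfold Rp.dmS
      rw [h1]
      exact finrank_bot K T.T
    have hjv0 : j v ≠ 0 := fun h => hv0 (hji v hv h)
    have hgen := hκ.gen p5 (by decide) (by decide) (by decide) (N.a v) (a_st N.toRp v hv)
    rw [gen_add N.toRp (B12 N.toRp) hv, gen_add' J.toRp (hj v).1, hja v hv, gen_map hψ]
    by_cases hp : p = st8
    · subst hp
      rw [dmS_add_eq N.toRp _ hv hv0, dmS_add_eq J.toRp _ (hj v).1 hjv0]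
      · have h1 := hS6 14
        have h2 : N.toRp.dmS (S12 N.toRp) st8 = 0 := h1
        rw [h2]
      · rw [dmS_map hψ hi, hTst]
      · have h1 := hS6 14
        have h2 : N.toRp.dmS (S12 N.toRp) st8 = 0 := h1
        have h3 := hgen st8
        rw [h2, hTst] at h3
        exact h3
    · rw [dmS_add_ne N.toRp _ hv hp, dmS_add_ne J.toRp _ (hj v).1 hp, dmS_map hψ hi]
      exact hgen p
  · intro ε hε hεj
    exact endo hE8a hGC1 hBRK hDQ3 hr N T J hN hJ κ hκ ψ hψ hi hmax h0 h13 j hj hji ε hε hεj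

end Pool.Agent.Lib.MP_4c1f79_al
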