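import Pool.Agent.Lib.MP_4c1f79_al.Stm8

/-!
# MP_4c1f79_al : the piece E8e

Counts of the subs whose part at the position `st8` is a given line.
-/

set_option autoImplicit false

namespace Pool.Agent.Lib.MP_4c1f79_al

open Finset Module

section E8eaux

variable {P : Type} [Fintype P] {M : Mesh P} {K : Type} [Field K] {D : Fd K}

theorem E8e_eul_add (M : Mesh P) (x y z : P → ℕ) :
    eulN M x (fun p => y p + z p) = eulN M x y + eulN M x z := by
  classical
  unfold eulN eul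
  have e1 : (∑ p, (x p : ℤ) * ((y p + z p : ℕ) : ℤ))
      = (∑ p, (x p : ℤ) * (y p : ℤ)) + ∑ p, (x p : ℤ) * (z p : ℤ) := by
    rw [← Finset.sum_add_distrib]
    apply Finset.sum_congr rfl
    intro p _
    push_cast
    ring
  have e2 : ∀ S : P → P → Prop, (∑ p, ∑ q, if S p q then (x p : ℤ) * ((y q + z q : ℕ) : ℤ) else 0)
      = (∑ p, ∑ q, if S p q then (x p : ℤ) * (y q : ℤ) else 0)
        + ∑ p, ∑ q, if S p q then (x p : ℤ) * (z q : ℤ) else 0 := by
    intro S
    rw [← Finset.sum_add_distrib]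
    apply Finset.sum_congr rfl
    intro p _
    rw [← Finset.sum_add_distrib]
    apply Finset.sum_congr rfl
    intro q _
    split_ifs
    · push_cast
      ring
    · ring
  rw [e1, e2, e2]
  ring

theorem E8e_map_bot (R : Rp M K) (W : Submodule K R.T) (p : P) (h : ∀ x ∈ W, R.e p x = 0) :
    W.map (R.e p) = ⊥ := by
  rw [eq_bot_iff]
  rintro _ ⟨x, hx, rfl⟩
  exact h x hx

/-- Properties of the span of a vector at the position `q`. -/
theorem E8e_span (R : Rp M K) {q : P} {v : R.T} (hv : R.e q v = v) :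
    (∀ x ∈ K ∙ v, R.e q x = x) ∧ (∀ p, p ≠ q → ∀ x ∈ K ∙ v, R.e p x = 0) ∧
    (K ∙ v).map (R.e q) = K ∙ v := by
  have h1 : ∀ x ∈ K ∙ v, R.e q x = x := by
    intro x hx
    obtain ⟨t, rfl⟩ := Submodule.mem_span_singleton.1 hx
    rw [map_smul, hv]
  refine ⟨h1, ?_, ?_⟩
  · intro p hp x hx
    rw [← h1 x hx, R.e_ne p q x hp]
  · apply le_antisymm
    · rintro _ ⟨x, hx, rfl⟩
      rw [h1 x hx]
      exact hx
    · intro x hx
      exact ⟨x, hx, h1 x hx⟩

theorem E8e_B12_le (R : Rp M8 K) (k : Fin 30) (hk : (k : ℕ) ≤ 12) :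
    LinearMap.range (R.e (6, k)) ≤ B12 R :=
  le_iSup₂ (f := fun (k : Fin 30) (_ : (k : ℕ) ≤ 12) => LinearMap.range (R.e (6, k))) k hk

theorem E8e_B12_zero (R : Rp M8 K) (p : P8) (hp : ¬ (p.1 = 6 ∧ (p.2 : ℕ) ≤ 12)) (x : R.T)
    (hx : x ∈ B12 R) : R.e p x = 0 := by
  have h : B12 R ≤ LinearMap.ker (R.e p) := by
    unfold B12
    refine iSup₂_le ?_
    intro k hk
    rintro _ ⟨y, rfl⟩
    rw [LinearMap.mem_ker]
    apply R.e_ne
    rintro rfl
    exact hp ⟨rfl, hk⟩
  exact h hx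

theorem E8e_map1 (R : Rp M8 K) (v : R.T) (k : Fin 30) (hk : (k : ℕ) ≤ 12) :
    (B12 R ⊔ K ∙ v).map (R.e (6, k)) = LinearMap.range (R.e (6, k)) := by
  apply le_antisymm LinearMap.map_le_range
  rintro _ ⟨y, rfl⟩
  exact ⟨R.e (6, k) y, (le_sup_left : B12 R ≤ _) (E8e_B12_le R k hk ⟨y, rfl⟩), R.e_e _ _⟩

theorem E8e_st8 : ¬ (st8.1 = 6 ∧ (st8.2 : ℕ) ≤ 12) := by decide

theorem E8e_map2 (R : Rp M8 K) {v : R.T} (hv : R.e st8 v = v) :
    (B12 R ⊔ K ∙ v).map (R.e st8) = K ∙ v := by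
  rw [Submodule.map_sup, E8e_map_bot R _ st8 (fun x hx => E8e_B12_zero R st8 E8e_st8 x hx),
    (E8e_span R hv).2.2, bot_sup_eq]

theorem E8e_map3 (R : Rp M8 K) {v : R.T} (hv : R.e st8 v = v) (p : P8)
    (hp : ¬ (p.1 = 6 ∧ (p.2 : ℕ) ≤ 12)) (hp' : p ≠ st8) (x : R.T) (hx : x ∈ B12 R ⊔ K ∙ v) :
    R.e p x = 0 := by
  obtain ⟨b, hb, c, hc, rfl⟩ := Submodule.mem_sup.1 hx
  rw [map_add, E8e_B12_zero R p hp b hb, (E8e_span R hv).2.1 p hp' c hc, add_zero]

theorem E8e_grd (hs8 : ∀ p : P8, s8 p = p) {N : FM M8 s8 K D} (hF : ∀ x, N.F x = x) {q : P8}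
    {v : N.T} (hv : N.e q v = v) : N.Grd {q} (K ∙ v) where
  e p x hx := by
    by_cases hp : p = q
    · subst hp
      rw [(E8e_span N.toRp hv).1 x hx]
      exact hx
    · rw [(E8e_span N.toRp hv).2.1 p hp x hx]
      exact Submodule.zero_mem _
  F x hx := by
    rw [hF]
    exact hx
  sup p hp x hx := (E8e_span N.toRp hv).2.1 p hp x hx
  rs p := by rw [hs8]

theorem E8e_tau {p r : P8} (h : M8.Tau p r) : p.1 = r.1 ∧ (p.2 : ℕ) = r.2 + 2 := h

theorem E8e_U7a : (Set.univ \ R6 : Set P8) = U7 := by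
  ext p
  simp [R6, U7]

theorem E8e_U7b : (W8 \ {st8} : Set P8) = U7 := by
  ext p
  simp only [W8, U7, Set.mem_sdiff, Set.mem_ofPred_eq, Set.mem_singleton_iff]
  constructor
  · rintro ⟨h | h, h'⟩
    · exact h
    · exact absurd h h'
  · intro h
    refine ⟨Or.inl h, ?_⟩
    rintro rfl
    exact h rfl

theorem E8e_not_W8 (k : Fin 30) (hk : (k : ℕ) ≠ 14) : ((6, k) : P8) ∉ W8 := by
  rintro (h | h)
  · exact h rfl
  · apply hk
    have h2 := congrArg (fun p : P8 => (p.2 : ℕ)) h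
    exact h2

end E8eaux

theorem E8e_holds (hE8a : S_E8a) (hE8d : S_E8d) (hRST : S_RST) (hUNI : S_UNI) (hISO : S_ISO)
    (hFID : S_FID) (hFI8 : S_FI8) (hGNV : S_GNV) (hT8a : S_T8a) (hDQ1 : S_DQ1) : S_E8e := by
  classical
  have _h1 := hDQ1
  intro K _ D hD N J hN hJ
  obtain ⟨hA, j, hj1, hj2, hB, hj3⟩ := hE8d K D hD N J hN hJ
  refine ⟨j, hj1, hj2, hj3, ?_⟩
  intro d hd v hv hv0
  obtain ⟨-, -, hF, -, hgen, -⟩ := hFID P8 M8 K D hD
  obtain ⟨hs8, hadm, -, -⟩ := hFI8
  obtain ⟨-, -, a3, -, -, -, -, a8, -⟩ := hE8a K D hD N hN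
  have hdm := hT8a K N.toRp hN.1 hN.2
  have fN : Module.Finite K N.T := Module.Finite.of_finite
  have fJ : Module.Finite K J.T := Module.Finite.of_finite
  have hjv0 : j v ≠ 0 := fun h => hv0 (hj2 v hv h)
  obtain ⟨-, g2, g3, -⟩ := hGNV P8 M8 K J.toRp st8 (j v) (hj1 v) hjv0
  have hBv := hB v hv hv0
  have hN1 : N.gen (B12 N.toRp ⊔ K ∙ v) = N.toRp.gen (B12 N.toRp ⊔ K ∙ v) := hgen s8 N _
  have hJ1 : J.gen (K ∙ j v) = J.toRp.gen (K ∙ j v) := hgen s8 J _
  have hle : B12 N.toRp ⊔ K ∙ v ≤ N.gen (B12 N.toRp ⊔ K ∙ v) := le_sInf fun W h => h.2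
  have hJle : K ∙ j v ≤ J.gen (K ∙ j v) := le_sInf fun W h => h.2
  have hmem6 : ∀ k : Fin 30, ((6, k) : P8) ∈ R6 := fun k => rfl
  -- the three cases for the positions of row six
  have cases6 : ∀ (C : P8 → Prop), (∀ k : Fin 30, (k : ℕ) ≤ 12 → C (6, k)) → C st8 →
      (∀ k : Fin 30, ¬ (k : ℕ) ≤ 12 → (k : ℕ) ≠ 14 → C (6, k)) → ∀ p ∈ R6, C p := by
    intro C c1 c2 c3
    rintro ⟨i, k⟩ hp
    have hi : i = 6 := hp
    subst hi
    by_cases h1 : (k : ℕ) ≤ 12
    · exact c1 k h1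
    · by_cases h2 : (k : ℕ) = 14
      · have h3 : k = 14 := Fin.ext h2
        subst h3
        exact c2
      · exact c3 k h1 h2
  have hne : ∀ k : Fin 30, (k : ℕ) ≠ 14 → ((6, k) : P8) ≠ st8 := by
    intro k hk h
    apply hk
    exact congrArg (fun p : P8 => (p.2 : ℕ)) h
  -- the part of `B` at the other positions
  have hBbot : ∀ k : Fin 30, ¬ (k : ℕ) ≤ 12 → (k : ℕ) ≠ 14 →
      (B12 N.toRp ⊔ K ∙ v).map (N.e (6, k)) = ⊥ := by
    intro k h1 h2
    exact E8e_map_bot N.toRp _ _ (E8e_map3 N.toRp hv (6, k) (fun h => h1 h.2) (hne k h2))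
  -- the conditions agree
  have hcnt : N.cntP (fun W => W.map (N.e st8) = K ∙ v) d
      = N.cntP (N.Res R6 (B12 N.toRp ⊔ K ∙ v)) d := by
    unfold FM.cntP
    apply Nat.card_congr
    apply Equiv.subtypeEquivRight
    intro W
    constructor
    · rintro ⟨h1, h2, h3⟩
      refine ⟨h1, ?_, h3⟩
      apply cases6
      · intro k hk
        rw [E8e_map1 N.toRp v k hk]
        apply Submodule.eq_of_le_of_finrank_eq LinearMap.map_le_range
        have e1 : finrank K (W.map (N.e (6, k))) = d (6, k) := h3 (6, k)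
        have e2 : finrank K (LinearMap.range (N.e (6, k))) = tval T8 6 k := hdm (6, k)
        rw [e1, e2, hd k, if_neg (by omega), if_pos (by omega)]
      · rw [E8e_map2 N.toRp hv]
        exact h2
      · intro k hk hk'
        rw [hBbot k hk hk']
        have e1 : finrank K (W.map (N.e (6, k))) = d (6, k) := h3 (6, k)
        rw [hd k, if_neg hk'] at e1
        have e2 : finrank K (W.map (N.e (6, k))) = 0 := by
          rw [e1]
          split_ifs with h
          · have h13 : (k : ℕ) = 13 := by omega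
            rw [h13]
            decide
          · rfl
        exact Submodule.finrank_eq_zero.1 e2
    · rintro ⟨h1, h2, h3⟩
      refine ⟨h1, ?_, h3⟩
      rw [← E8e_map2 N.toRp hv]
      exact h2 st8 (hmem6 14)
  -- `B` is graded
  have hGrd : N.Grd R6 (B12 N.toRp ⊔ K ∙ v) := by
    have hspan := E8e_grd hs8 (hF s8 N) hv
    refine ⟨?_, ?_, ?_, ?_⟩
    · intro p x hx
      obtain ⟨b, hb, c, hc, rfl⟩ := Submodule.mem_sup.1 hx
      rw [map_add]
      exact Submodule.add_mem _ ((le_sup_left : B12 N.toRp ≤ _) (a3.e p b hb))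
        ((le_sup_right : K ∙ v ≤ _) (hspan.e p c hc))
    · intro x hx
      rw [hF s8 N]
      exact hx
    · intro p hp x hx
      refine E8e_map3 N.toRp hv p (fun h => hp h.1) ?_ x hx
      rintro rfl
      exact hp (hmem6 14)
    · intro p
      rw [hs8]
  -- the part of `gen B` on row six
  have hRes : N.Res R6 (B12 N.toRp ⊔ K ∙ v) (N.gen (B12 N.toRp ⊔ K ∙ v)) := by
    apply cases6
    · intro k hk
      apply le_antisymm
      · rw [E8e_map1 N.toRp v k hk]
        exact LinearMap.map_le_range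
      · exact Submodule.map_mono hle
    · symm
      apply Submodule.eq_of_le_of_finrank_eq (Submodule.map_mono hle)
      rw [E8e_map2 N.toRp hv, finrank_span_singleton hv0]
      have e1 : finrank K ((N.toRp.gen (B12 N.toRp ⊔ K ∙ v)).map (N.e st8))
          = N.toRp.dmS (S12 N.toRp) st8 + J.toRp.dmS (J.toRp.gen (K ∙ j v)) st8 := hBv st8
      rw [hN1, e1, g3]
      have e2 : N.toRp.dmS (S12 N.toRp) st8 = 0 := by
        have e3 := a8 14
        rw [if_neg (by decide)] at e3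
        exact e3
      rw [e2]
    · intro k hk hk'
      rw [hBbot k hk hk', ← Submodule.finrank_eq_zero (R := K)]
      have e1 : finrank K ((N.toRp.gen (B12 N.toRp ⊔ K ∙ v)).map (N.e (6, k)))
          = N.toRp.dmS (S12 N.toRp) (6, k) + J.toRp.dmS (J.toRp.gen (K ∙ j v)) (6, k) :=
        hBv (6, k)
      rw [hN1, e1, a8 k, if_neg hk, zero_add]
      unfold Rp.dmS
      rw [E8e_map_bot J.toRp _ (6, k) (fun x _ => hJ.1.1 (6, k) (E8e_not_W8 k hk') x),
        finrank_bot]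
  -- the restriction theorem for `N`
  obtain ⟨G, m', hG, hm1, hm2, -, hG2⟩ := (hRST P8 M8 s8 K D N Set.univ R6
    (B12 N.toRp ⊔ K ∙ v) hGrd hN.1 (by
      intro p _ hp r hr hpr
      exact absurd ((E8e_tau hpr).1.trans hr) hp)).2 hRes
  -- the restriction theorem for `J`
  have hJRes : J.Res {st8} (K ∙ j v) (J.gen (K ∙ j v)) := by
    intro p hp
    have hp' : p = st8 := hp
    subst hp'
    symm
    apply Submodule.eq_of_le_of_finrank_eq (Submodule.map_mono hJle)
    rw [(E8e_span J.toRp (hj1 v)).2.2, finrank_span_singleton hjv0]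
    have e1 : finrank K ((J.toRp.gen (K ∙ j v)).map (J.e st8)) = 1 := g3
    rw [hJ1, e1]
  obtain ⟨G', m'', hG', hm1', hm2', -, hG2'⟩ := (hRST P8 M8 s8 K D J W8 {st8}
    (K ∙ j v) (E8e_grd hs8 (hF s8 J) (hj1 v)) hJ.1 (by
      intro p hpW hp r hr hpr
      have hr' : r = st8 := hr
      subst hr'
      rcases hpW with h | h
      · exact absurd (E8e_tau hpr).1 h
      · exact absurd h hp)).2 hJRes
  rw [E8e_U7a] at hG hm1 hm2
  rw [E8e_U7b] at hG' hm1' hm2'
  -- the types agree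
  have hmm : m' = m'' := by
    funext u
    by_cases hu : u ∈ U7
    · have t1 := hm1 u hu
      have t2 := hm1' u hu
      have t3 := hA u hu
      have t4 : N.toRp.dmS (N.gen (B12 N.toRp ⊔ K ∙ v))
          = fun p => N.toRp.dmS (S12 N.toRp) p + J.toRp.dmS (J.toRp.gen (K ∙ j v)) p := by
        funext p
        rw [hN1]
        exact hBv p
      rw [t4, E8e_eul_add, hN.2 u] at t1
      rw [hJ1, hJ.2 u] at t2
      have t5 : (m' u : ℤ) = m'' u := by
        rw [t1, t2, t3]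
        ring
      exact_mod_cast t5
    · rw [hm2 u hu, hm2' u hu]
  rw [← hmm] at hG'
  have hiso := hUNI P8 M8 s8 K D U7 (by rw [hD]; exact hadm U7) m' G G' hG hG'
  have hcc := ((hISO P8 M8 s8 K D).1 G G' hiso).1
  -- the comparison
  have hdms : ∀ p, N.toRp.dmS (N.gen (B12 N.toRp ⊔ K ∙ v)) p
      = N.toRp.dmS (S12 N.toRp) p + J.toRp.dmS (J.gen (K ∙ j v)) p := by
    intro p
    rw [hN1, hJ1]
    exact hBv p
  rw [hcnt]
  constructor
  · intro hle12
    by_cases hall : ∀ p, N.toRp.dmS (N.gen (B12 N.toRp ⊔ K ∙ v)) p ≤ d p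
    · rw [(hG2 d).1 hall, (hG2' (fun p => d p - N.toRp.dmS (S12 N.toRp) p)).1 (by
        intro p
        have := hall p
        rw [hdms p] at this
        omega), hcc]
      congr 1
      funext p
      rw [hdms p]
      omega
    · rw [(hG2 d).2 hall, (hG2' (fun p => d p - N.toRp.dmS (S12 N.toRp) p)).2 (by
        intro h
        apply hall
        intro p
        have h1 := h p
        have h2 := hle12 p
        have h3 : J.toRp.dmS (J.gen (K ∙ j v)) p ≤ d p - N.toRp.dmS (S12 N.toRp) p := h1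
        rw [hdms p]
        omega)]
  · intro hnot
    apply (hG2 d).2
    intro h
    apply hnot
    intro p
    have := h p
    rw [hdms p] at this
    omega

end Pool.Agent.Lib.MP_4c1f79_al
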