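import Pool.Agent.Lib.MP_4c1f79_al.Stm8

/-!
# MP_4c1f79_al : piece E8g (helper68)
-/

set_option autoImplicit false

namespace Pool.Agent.Lib.MP_4c1f79_al

open Module

private theorem e8g_ind (w u : P8) : ind {w} u = if u = w then 1 else 0 := by
  unfold ind
  rw [Set.indicator_apply]
  simp only [Set.mem_singleton_iff, Pi.one_apply]

private theorem e8g_num : ∀ w : P8, w.1 ≠ 6 → 5 ≤ (w.2 : ℕ) → (w.2 : ℕ) < 14 →
    tval (shT w.2 (E7b w.1)) 5 13 ≤ if w ∈ Q8 then 1 else 0 := by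
  decide +kernel

/-- images of stable subspaces under morphisms -/
private theorem e8g_map {K : Type} [Field K] {R R₁ : Rp M8 K} {π : R.T →ₗ[K] R₁.T}
    (hπ : π ∈ Rp.Hm R R₁) {G : Submodule K R.T} (hG : R.St G) : R₁.St (G.map π) := by
  constructor
  · rintro p _ ⟨x, hx, rfl⟩
    exact ⟨R.e p x, hG.1 p x hx, hπ.1 p x⟩
  · rintro _ ⟨x, hx, rfl⟩
    exact ⟨R.a x, hG.2 x hx, hπ.2 x⟩

/-- a nonzero image in a module with simple socle `u` -/
private theorem e8g_low (hDQ3 : S_DQ3) {K : Type} [Field K] {R R₁ : Rp M8 K}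
    {π : R.T →ₗ[K] R₁.T} (hπ : π ∈ Rp.Hm R R₁) {G : Submodule K R.T} (hG : R.St G) (u : P8)
    (hsc : ∀ p, R₁.sc p = ind {u} p) (v : R.T) (hv : v ∈ G) (hne : π v ≠ 0) :
    1 ≤ R.dmS G u := by
  have hfin : Module.Finite K R.T := Module.Finite.of_finite
  obtain ⟨_, _, d3, _, d5, d6⟩ := hDQ3 P8 M8 K
  have hG' := e8g_map hπ hG
  have h1 : ¬ ∀ p, (R₁.sub (G.map π) hG').sc p = 0 := by
    intro h
    have h2 := d6 _ h (⟨π v, ⟨v, hv, rfl⟩⟩ : G.map π)
    exact hne (congrArg Subtype.val h2)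
  push Not at h1
  obtain ⟨p, hp⟩ := h1
  have hpu : p = u := by
    by_contra hpu
    have h2 := d3 R₁ (G.map π) hG' p
    rw [hsc, e8g_ind, if_neg hpu] at h2
    omega
  subst hpu
  have h3 : ¬ ∀ x : G.map π, (R₁.sub (G.map π) hG').e p x = x →
      (R₁.sub (G.map π) hG').a x = 0 → x = 0 := fun h => hp ((d5 _ p).2 h)
  push Not at h3
  obtain ⟨x, hx1, _, hx3⟩ := h3
  obtain ⟨g, hg, hgx⟩ := x.2
  have hx1' : R₁.e p (x : R₁.T) = x := congrArg Subtype.val hx1
  have h4 : R.e p g ≠ 0 := by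
    intro h
    apply hx3
    apply Subtype.ext
    rw [← hx1', ← hgx, ← hπ.1, h, map_zero]
    rfl
  unfold Rp.dmS
  rw [Submodule.one_le_finrank_iff]
  intro h
  rw [Submodule.eq_bot_iff] at h
  exact h4 (h _ ⟨g, hg, rfl⟩)

theorem E8g_holds (hE8m : S_E8m) (hGNV : S_GNV) (hUPB : S_UPB) (hRPE : S_RPE) (hT8e : S_T8e)
    (hSAG : S_SAG) (hFID : S_FID) (hFI8 : S_FI8) (hDQ1 : S_DQ1) (hDQ2 : S_DQ2) (hDQ3 : S_DQ3)
    (hBND : S_BND) : S_E8g := by
  intro K _ D hD J1 J2 J3 g1 g2 g3 v1 v2 v3 e1 e2 e3 n1 n3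
  have hKfin : Finite K := by
    apply Nat.finite_of_card_ne_zero
    rw [D.card_K]
    have := D.q_gt
    positivity
  set R : Rp M8 K := J1.toRp.prod (J2.toRp.prod J3.toRp) with hR
  set v : R.T := (v1, (v2, v3)) with hv
  have hfin : Module.Finite K R.T := Module.Finite.of_finite
  obtain ⟨q1, q2, q3, q4, q5, q6⟩ := hDQ1 P8 M8 K
  obtain ⟨p1, p2, p3, p4, p5⟩ := hDQ2 P8 M8 K
  obtain ⟨d1, d2, d3, d4, d5, d6⟩ := hDQ3 P8 M8 K
  obtain ⟨_, hbel⟩ := hBND P8 M8
  -- the socle and the support of `R`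
  have hsc : ∀ p, R.sc p = ind {((3, 5) : P8)} p + (ind {((5, 5) : P8)} p
      + ind {((7, 5) : P8)} p) := by
    intro p
    rw [hR, p2, p2, g1.2, g2.2, g3.2]
  have hgood : R.Good W8 := p3 _ _ _ g1.1 (p3 _ _ _ g2.1 g3.1)
  have hsc0 : ∀ p : P8, (p.2 : ℕ) ≠ 5 → R.sc p = 0 := by
    intro p hp
    have h1 : ∀ w : P8, (w.2 : ℕ) = 5 → p ≠ w := by
      rintro w hw rfl
      exact hp hw
    rw [hsc, e8g_ind, e8g_ind, e8g_ind, if_neg (h1 _ rfl), if_neg (h1 _ rfl),
      if_neg (h1 _ rfl)]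
  -- `v`
  have hev : R.e st8 v = v := by
    show (J1.e st8 v1, (J2.e st8 v2, J3.e st8 v3)) = (v1, (v2, v3))
    rw [e1, e2, e3]
  have hv0 : v ≠ 0 := by
    intro h
    exact n1 (congrArg Prod.fst h)
  obtain ⟨hst, hvG, hdv, hup, _, hin⟩ := hGNV P8 M8 K R st8 v hev hv0
  set G := R.gen (K ∙ v) with hG
  have hmin : ∀ W : Submodule K R.T, R.St W → v ∈ W → G ≤ W := by
    intro W hW hvW
    rw [hG]
    unfold Rp.gen
    exact sInf_le ⟨hW, by rwa [Submodule.span_singleton_le_iff_mem]⟩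
  have hle : ∀ p, R.dmS G p ≤ R.dm p := by
    intro p
    rw [← q3 R p]
    exact q5 R G ⊤ le_top p
  -- (2)
  have hc2 : ∀ k : Fin 30, ((6, k) : P8) ≠ st8 → R.dmS G (6, k) = 0 := by
    intro k hk
    have h1 : ((6, k) : P8) ∉ W8 := by
      rintro (h | h)
      · exact h rfl
      · exact hk h
    have h2 := (d4 R (6, k)).2 (hgood.1 _ h1)
    have h3 := hle (6, k)
    omega
  -- (3)
  have hc3 : ∀ p : P8, p ≠ st8 → 14 ≤ (p.2 : ℕ) → R.dmS G p = 0 := fun p h1 h2 => hup p h1 h2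
  -- (4)
  have hc4 : ∀ p : P8, (p.2 : ℕ) < 5 → R.dmS G p = 0 := by
    intro p hp
    have h1 := hbel K R 5 (fun p' (hp' : (p'.2 : ℕ) < 5) => hsc0 p' (by omega)) p hp
    have h3 := hle p
    omega
  -- (5)
  have hc5 : ∀ p : P8, p ≠ st8 → R.dmS G p ≤ if p ∈ Q8 then 1 else 0 := by
    intro w hw
    by_cases h6 : w.1 = 6
    · have h1 := hc2 w.2 (by rw [← h6]; exact hw)
      rw [← h6] at h1
      have h2 : R.dmS G w = 0 := h1
      omega
    · by_cases h14 : 14 ≤ (w.2 : ℕ)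
      · rw [hc3 w hw h14]
        exact Nat.zero_le _
      · by_cases h5 : (w.2 : ℕ) < 5
        · rw [hc4 w h5]
          exact Nat.zero_le _
        · obtain ⟨R', hR'1, hR'2⟩ := hRPE P8 M8 K W8 (ind {w}) (by
            intro p hp
            rw [e8g_ind, if_neg]
            rintro rfl
            exact hp (Or.inl h6))
          have h1 := hT8e K R' w h6 hR'1 hR'2
          have h2 := hUPB P8 M8 K R' (R.sub G hst) W8 w st8 hR'1 hR'2 (by
            intro p hp x
            exact Subtype.ext (hgood.1 p hp x.1)) (⟨v, hvG⟩ : G)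
            (Subtype.ext hev) (by
              intro W hW hvW
              have h3 : R.St (W.map G.subtype) := by
                constructor
                · rintro p _ ⟨x, hx, rfl⟩
                  exact ⟨_, hW.1 p x hx, rfl⟩
                · rintro _ ⟨x, hx, rfl⟩
                  exact ⟨_, hW.2 x hx, rfl⟩
              have h4 := hmin _ h3 ⟨_, hvW, rfl⟩
              rw [eq_top_iff]
              intro x _
              obtain ⟨y, hy, hyx⟩ := h4 x.2
              have h5 : y = x := Subtype.ext hyx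
              rw [← h5]
              exact hy)
          rw [q1 R G hst w, h1] at h2
          exact h2.trans (e8g_num w h6 (by omega) (by omega))
  -- (6)
  have hc6 : R.dmS G (5, 13) = 1 := by
    have h1 := hc5 (5, 13) (by decide)
    rw [if_pos (by decide)] at h1
    have h2 : R.a v ≠ 0 := by
      intro h
      exact hv0 ((d5 R st8).1 (hsc0 st8 (by decide)) v hev h)
    have h3 : R.e (5, 13) (R.a v) = R.a v := by
      have h4 := R.e_sum (R.a v)
      rw [Finset.sum_eq_single (5, 13)] at h4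
      · exact h4
      · intro p _ hp
        have h5 := R.a_ar st8 p v (by
          rintro ⟨h6, h7⟩
          apply hp
          have h8 : ∀ w : Fin 8, eB 6 w = true → w = 5 := by decide
          exact Prod.ext (h8 p.1 h6) (Fin.ext (by
            have h9 : (14 : ℕ) = (p.2 : ℕ) + 1 := h7
            show (p.2 : ℕ) = 13
            omega)))
        rwa [hev] at h5
      · intro h
        exact absurd (Finset.mem_univ _) h
    have h4 : 1 ≤ R.dmS G (5, 13) := by
      unfold Rp.dmS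
      rw [Submodule.one_le_finrank_iff]
      intro h
      rw [Submodule.eq_bot_iff] at h
      exact h2 (h _ ⟨R.a v, hst.2 v hvG, h3⟩)
    omega
  -- the projections
  have hπ1 : (LinearMap.fst K J1.T (J2.T × J3.T)) ∈ Rp.Hm R J1.toRp :=
    ⟨fun p x => rfl, fun x => rfl⟩
  have hπ2 : ((LinearMap.fst K J2.T J3.T) ∘ₗ (LinearMap.snd K J1.T (J2.T × J3.T))) ∈
      Rp.Hm R J2.toRp := ⟨fun p x => rfl, fun x => rfl⟩
  have hπ3 : ((LinearMap.snd K J2.T J3.T) ∘ₗ (LinearMap.snd K J1.T (J2.T × J3.T))) ∈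
      Rp.Hm R J3.toRp := ⟨fun p x => rfl, fun x => rfl⟩
  have hc7 : R.dmS G (3, 5) = 1 := by
    have h1 := hc5 (3, 5) (by decide)
    rw [if_pos (by decide)] at h1
    have h2 := e8g_low hDQ3 hπ1 hst (3, 5) g1.2 v hvG n1
    omega
  have hc8 : R.dmS G (7, 5) = 1 := by
    have h1 := hc5 (7, 5) (by decide)
    rw [if_pos (by decide)] at h1
    have h2 := e8g_low hDQ3 hπ3 hst (7, 5) g3.2 v hvG n3
    omega
  have hc9 : ∀ (v : Fin 8) (k : ℕ) (h : k + 2 < 30), v ≠ 6 → 6 ≤ k + 2 → (v ≠ 5 ∨ k ≠ 13) →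
      R.dmS G (v, ⟨k + 2, h⟩) + R.dmS G (v, ⟨k, by omega⟩)
        ≤ ∑ w, if eB v w = true then R.dmS G (w, ⟨k + 1, by omega⟩) else 0 := by
    intro v k h h6 h7 _
    have h8 := hin (v, ⟨k + 2, h⟩) (v, ⟨k, by omega⟩) ⟨rfl, rfl⟩ (by
      intro h9
      exact h6 (congrArg Prod.fst h9)) (hsc0 _ (by
        show k + 2 ≠ 5
        omega))
    have h9 := (hSAG 8 30 eB eB_symm (R.dmS G)).1 v (k + 1) h
    rw [← h9]
    exact h8
  have key := hE8m (R.dmS G) hdv hc2 hc3 hc4 hc5 hc6 hc7 hc8 hc9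
  constructor
  · intro n2 p
    have h1 := hc5 (5, 5) (by decide)
    rw [if_pos (by decide)] at h1
    have h2 := e8g_low hDQ3 hπ2 hst (5, 5) g2.2 v hvG n2
    exact congrFun (key.1 (by omega)) p
  · intro n2 p
    refine congrFun (key.2 ?_) p
    -- `G` is contained in the kernel of the second projection
    have h1 : R.St (LinearMap.ker
        ((LinearMap.fst K J2.T J3.T) ∘ₗ (LinearMap.snd K J1.T (J2.T × J3.T)))) := by
      constructor
      · intro p x hx
        have hx' : x.2.1 = 0 := hx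
        show J2.e p x.2.1 = 0
        rw [hx', map_zero]
      · intro x hx
        have hx' : x.2.1 = 0 := hx
        show J2.a x.2.1 = 0
        rw [hx', map_zero]
    have h2 := hmin _ h1 n2
    have hlow : ∀ (J : FM M8 s8 K D) (u : P8), (u.2 : ℕ) = 5 → u ≠ (5, 5) →
        (∀ p, J.toRp.sc p = ind {u} p) → ∀ x, J.e (5, 5) x = 0 := by
      intro J u hu1 hu2 hJ x
      have h3 : ∀ p : P8, (p.2 : ℕ) < 5 → J.toRp.dm p = 0 :=
        hbel K J.toRp 5 (fun p' (hp' : (p'.2 : ℕ) < 5) => by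
          rw [hJ, e8g_ind, if_neg]
          rintro rfl
          omega)
      have h4 : J.toRp.sc (5, 5) = 0 := by
        rw [hJ, e8g_ind, if_neg (fun h => hu2 h.symm)]
      apply (d5 J.toRp (5, 5)).1 h4
      · exact J.e_e _ _
      · rw [← J.e_sum (J.a (J.e (5, 5) x))]
        refine Finset.sum_eq_zero fun q _ => ?_
        by_cases har : M8.Ar (5, 5) q
        · have h5 := M8.lv_ar _ _ har
          have h6 : (5 : ℕ) = (q.2 : ℕ) + 1 := h5
          exact (d4 J.toRp q).1 (h3 q (by omega)) _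
        · exact J.a_ar _ _ _ har
    unfold Rp.dmS
    have h3 : G.map (R.e (5, 5)) = ⊥ := by
      rw [Submodule.eq_bot_iff]
      rintro _ ⟨x, hx, rfl⟩
      have h4 : x.2.1 = 0 := h2 hx
      show (J1.e (5, 5) x.1, (J2.e (5, 5) x.2.1, J3.e (5, 5) x.2.2)) = 0
      rw [h4, map_zero, hlow J1 (3, 5) rfl (by decide) g1.2, hlow J3 (7, 5) rfl (by decide) g3.2]
      rfl
    rw [h3]
    exact finrank_bot K R.T

end Pool.Agent.Lib.MP_4c1f79_al
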