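import Pool.Agent.Lib.MP_4c1f79_al.Stm8

/-!
# MP_4c1f79_al : piece E8h (helper68)
-/

set_option autoImplicit false

namespace Pool.Agent.Lib.MP_4c1f79_al

/-- the sum over the successors, computable -/
private def e8h_A (y : P8 → ℕ) (v : Fin 8) (k : ℕ) : ℕ :=
  if h : k < 30 then ∑ w, if eB v w = true then y (w, ⟨k, h⟩) else 0 else 0

/-- the value at `τ`, computable -/
private def e8h_T (y : P8 → ℕ) (v : Fin 8) (k : ℕ) : ℕ :=
  if h : k < 30 then y (v, ⟨k, h⟩) else 0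

private def e8h_sA (y : P8 → ℕ) (u : P8) : ℕ :=
  if (u.2 : ℕ) = 0 then 0 else e8h_A y u.1 ((u.2 : ℕ) - 1)

private def e8h_sT (y : P8 → ℕ) (u : P8) : ℕ :=
  if (u.2 : ℕ) < 2 then 0 else e8h_T y u.1 ((u.2 : ℕ) - 2)

private theorem e8h_sA_eq (hSAG : S_SAG) (y : P8 → ℕ) (u : P8) : sA M8 y u = e8h_sA y u := by
  obtain ⟨h1, h2, _, _, _⟩ := hSAG 8 30 eB eB_symm y
  obtain ⟨v, k, hk⟩ := u
  unfold e8h_sA e8h_A
  rcases k with _ | k
  · exact h2 v (by norm_num)
  · have h3 := h1 v k hk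
    dsimp only
    rw [if_neg (Nat.succ_ne_zero k), dif_pos (by omega)]
    exact h3

private theorem e8h_sT_eq (hSAG : S_SAG) (y : P8 → ℕ) (u : P8) : sT M8 y u = e8h_sT y u := by
  obtain ⟨_, _, h1, h2, _⟩ := hSAG 8 30 eB eB_symm y
  obtain ⟨v, k, hk⟩ := u
  unfold e8h_sT e8h_T
  dsimp only
  by_cases h : k < 2
  · rw [if_pos h]
    exact h2 v ⟨k, hk⟩ h
  · rw [if_neg h, dif_pos (by omega)]
    obtain ⟨j, rfl⟩ : ∃ j, k = j + 2 := ⟨k - 2, by omega⟩
    exact h1 v j hk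

private theorem e8h_ind (E : Set P8) (u : P8) [Decidable (u ∈ E)] :
    ind E u = if u ∈ E then 1 else 0 := by
  unfold ind
  rw [Set.indicator_apply]
  split_ifs <;> rfl

private theorem e8h_mT (u : P8) :
    mT8 u = if u = (3, 5) ∨ u = (5, 5) ∨ u = (7, 5) then 1 else 0 := by
  classical
  unfold mT8
  rw [e8h_ind]
  simp only [Set.mem_insert_iff, Set.mem_singleton_iff]

private theorem e8h_one (w u : P8) : ind {w} u = if u = w then 1 else 0 := by
  classical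
  rw [e8h_ind]
  simp only [Set.mem_singleton_iff]

private theorem e8h_num1 : ∀ u : P8, u.1 ≠ 6 →
    (if u = (3, 5) ∨ u = (5, 5) ∨ u = (7, 5) then 1 else 0) + e8h_sA s123 u
      = (if u = (2, 6) then 1 else 0) + (if u = (4, 6) then 1 else 0) + s123 u
        + e8h_sT s123 u := by
  decide +kernel

private theorem e8h_num2 : ∀ u : P8, u.1 ≠ 6 →
    (if u = (3, 5) ∨ u = (5, 5) ∨ u = (7, 5) then 1 else 0) + e8h_sA s13 u
      = (if u = (2, 6) then 1 else 0) + (if u = (5, 5) then 1 else 0)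
        + (if u = (5, 7) then 1 else 0) + s13 u + e8h_sT s13 u := by
  decide +kernel

theorem E8h_holds (hEU1 : S_EU1) (hSAG : S_SAG) : S_E8h := by
  intro u hu
  constructor
  · have h1 := e8h_num1 u hu
    rw [hEU1, e8h_sA_eq hSAG, e8h_sT_eq hSAG, e8h_mT, e8h_one, e8h_one]
    omega
  · have h1 := e8h_num2 u hu
    rw [hEU1, e8h_sA_eq hSAG, e8h_sT_eq hSAG, e8h_mT, e8h_one, e8h_one, e8h_one]
    omega

end Pool.Agent.Lib.MP_4c1f79_al
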