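import Pool.Agent.Lib.MP_4c1f79_al.Stm8

/-!
# MP_4c1f79_al : piece E8i (the counts depend only on the support of the vector)
-/

set_option autoImplicit false

namespace Pool.Agent.Lib.MP_4c1f79_al

open Finset Module

/-- images of stable subspaces under automorphisms -/
private theorem e8i_st {P : Type} [Fintype P] {M : Mesh P} {s : Equiv.Perm P} {K : Type} [Field K]
    {D : Fd K} (X : FM M s K D) (φ : X.T ≃ₗ[K] X.T) (he : ∀ p x, φ (X.e p x) = X.e p (φ x))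
    (ha : ∀ x, φ (X.a x) = X.a (φ x)) (hF : ∀ x, φ (X.F x) = X.F (φ x))
    (W : Submodule K X.T) (h : X.St W) : X.St (W.map (φ : X.T →ₗ[K] X.T)) := by
  refine ⟨⟨?_, ?_⟩, ?_⟩
  · rintro p _ ⟨x, hx, rfl⟩
    exact ⟨X.e p x, h.1.1 p x hx, he p x⟩
  · rintro _ ⟨x, hx, rfl⟩
    exact ⟨X.a x, h.1.2 x hx, ha x⟩
  · rintro _ ⟨x, hx, rfl⟩
    exact ⟨X.F x, h.2 x hx, hF x⟩

private theorem e8i_map {P : Type} [Fintype P] {M : Mesh P} {s : Equiv.Perm P} {K : Type} [Field K]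
    {D : Fd K} (X : FM M s K D) (φ : X.T ≃ₗ[K] X.T) (he : ∀ p x, φ (X.e p x) = X.e p (φ x))
    (W : Submodule K X.T) (p : P) :
    (W.map (φ : X.T →ₗ[K] X.T)).map (X.e p) = (W.map (X.e p)).map (φ : X.T →ₗ[K] X.T) := by
  rw [← Submodule.map_comp, ← Submodule.map_comp]
  congr 1
  ext x
  exact (he p x).symm

private theorem e8i_cnt {P : Type} [Fintype P] {M : Mesh P} {s : Equiv.Perm P} {K : Type} [Field K]
    {D : Fd K} (X : FM M s K D) (φ : X.T ≃ₗ[K] X.T) (he : ∀ p x, φ (X.e p x) = X.e p (φ x))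
    (ha : ∀ x, φ (X.a x) = X.a (φ x)) (hF : ∀ x, φ (X.F x) = X.F (φ x)) (Rs : Set P)
    (B : Submodule K X.T) (d : P → ℕ) :
    X.cntP (X.Res Rs B) d = X.cntP (X.Res Rs (B.map (φ : X.T →ₗ[K] X.T))) d := by
  rw [FM.cntP, FM.cntP]
  refine Nat.card_congr (Equiv.subtypeEquiv (Submodule.orderIsoMapComap φ).toEquiv ?_)
  intro W
  have hW : (Submodule.orderIsoMapComap φ).toEquiv W = W.map (φ : X.T →ₗ[K] X.T) := rfl
  rw [hW]
  refine and_congr ?_ (and_congr ?_ ?_)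
  · constructor
    · exact e8i_st X φ he ha hF W
    · intro h
      have h1 := e8i_st X φ.symm
        (fun p x => by rw [LinearEquiv.symm_apply_eq, he, LinearEquiv.apply_symm_apply])
        (fun x => by rw [LinearEquiv.symm_apply_eq, ha, LinearEquiv.apply_symm_apply])
        (fun x => by rw [LinearEquiv.symm_apply_eq, hF, LinearEquiv.apply_symm_apply]) _ h
      have h2 : (W.map (φ : X.T →ₗ[K] X.T)).map (φ.symm : X.T →ₗ[K] X.T) = W := by
        rw [← Submodule.map_comp]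
        have h3 : ((φ.symm : X.T →ₗ[K] X.T) ∘ₗ (φ : X.T →ₗ[K] X.T)) = LinearMap.id := by
          ext x
          exact φ.symm_apply_apply x
        rw [h3, Submodule.map_id]
      rw [h2] at h1
      exact h1
  · rw [FM.Res, FM.Res]
    refine forall_congr' fun p => forall_congr' fun _ => ?_
    rw [e8i_map X φ he, e8i_map X φ he]
    exact (Submodule.map_injective_of_injective φ.injective).eq_iff.symm
  · refine forall_congr' fun p => ?_
    rw [Rp.dmS, Rp.dmS, e8i_map X φ he]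
    rw [LinearEquiv.finrank_map_eq φ]

private theorem e8i_span {K : Type} [Field K] {T : Type} [AddCommGroup T] [Module K T]
    (φ : T ≃ₗ[K] T) (w : T) : (K ∙ w).map (φ : T →ₗ[K] T) = K ∙ (φ w) := by
  rw [Submodule.map_span, Set.image_singleton]
  rfl

/-- proportional vectors -/
private theorem e8i_prop {K : Type} [Field K] (R : Rp M8 K) (p : P8) (h : R.dm p ≤ 1)
    (v v' : R.T) (hv : R.e p v = v) (hv' : R.e p v' = v') (h0 : v = 0 ↔ v' = 0) :
    ∃ c : K, c ≠ 0 ∧ v' = c • v := by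
  by_cases hz : v = 0
  · exact ⟨1, one_ne_zero, by rw [hz, h0.1 hz, smul_zero]⟩
  · rw [Rp.dm] at h
    obtain ⟨u, hu⟩ := finrank_le_one_iff.1 h
    obtain ⟨c, hc⟩ := hu ⟨v, v, hv⟩
    obtain ⟨c', hc'⟩ := hu ⟨v', v', hv'⟩
    have h1 : c • (u : R.T) = v := congrArg Subtype.val hc
    have h2 : c' • (u : R.T) = v' := congrArg Subtype.val hc'
    have hc0 : c ≠ 0 := by
      rintro rfl
      rw [zero_smul] at h1
      exact hz h1.symm
    have hc0' : c' ≠ 0 := by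
      rintro rfl
      rw [zero_smul] at h2
      exact hz (h0.2 h2.symm)
    refine ⟨c' * c⁻¹, mul_ne_zero hc0' (inv_ne_zero hc0), ?_⟩
    rw [← h1, ← h2, smul_smul, mul_assoc, inv_mul_cancel₀ hc0, mul_one]

theorem E8i_holds (hFID : S_FID) (hFI8 : S_FI8) (hBND : S_BND) (hDQ1 : S_DQ1) (hDQ3 : S_DQ3) :
    S_E8i := by
  intro K _ D hr J1 J2 J3 hd1 hd2 hd3 v1 v1' v2 v2' v3 v3' h1 h2 h3 h1' h2' h3' z1 z2 z3 d
  obtain ⟨-, -, hF, -⟩ := hFID P8 M8 K D hr
  obtain ⟨c1, hc1, e1⟩ := e8i_prop J1.toRp st8 hd1 v1 v1' h1 h1' z1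
  obtain ⟨c2, hc2, e2⟩ := e8i_prop J2.toRp st8 hd2 v2 v2' h2 h2' z2
  obtain ⟨c3, hc3, e3⟩ := e8i_prop J3.toRp st8 hd3 v3 v3' h3 h3' z3
  rw [CJ, CJ]
  obtain ⟨φ, hφ⟩ : ∃ φ : (J1.prod (J2.prod J3)).T ≃ₗ[K] (J1.prod (J2.prod J3)).T,
      ∀ x, φ x = (c1 • x.1, (c2 • x.2.1, c3 • x.2.2)) :=
    ⟨LinearEquiv.prodCongr (LinearEquiv.smulOfNeZero K J1.T c1 hc1)
      (LinearEquiv.prodCongr (LinearEquiv.smulOfNeZero K J2.T c2 hc2)
        (LinearEquiv.smulOfNeZero K J3.T c3 hc3)), fun x => rfl⟩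
  have key : (K ∙ ((v1, (v2, v3)) : (J1.prod (J2.prod J3)).T)).map
      (φ : (J1.prod (J2.prod J3)).T →ₗ[K] (J1.prod (J2.prod J3)).T)
      = K ∙ ((v1', (v2', v3')) : (J1.prod (J2.prod J3)).T) := by
    refine (e8i_span φ _).trans ?_
    have h5 : φ ((v1, (v2, v3)) : (J1.prod (J2.prod J3)).T)
        = ((v1', (v2', v3')) : (J1.prod (J2.prod J3)).T) := by
      rw [hφ]
      exact Prod.ext e1.symm (Prod.ext e2.symm e3.symm)
    rw [h5]
    rfl
  refine (e8i_cnt (J1.prod (J2.prod J3)) φ ?_ ?_ ?_ {st8}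
    (K ∙ ((v1, (v2, v3)) : (J1.prod (J2.prod J3)).T)) d).trans
    (congrArg (fun B => (J1.prod (J2.prod J3)).cntP ((J1.prod (J2.prod J3)).Res {st8} B) d) key)
  · intro p x
    rw [hφ, hφ]
    refine Prod.ext ?_ (Prod.ext ?_ ?_)
    · exact (map_smul (J1.e p) c1 x.1).symm
    · exact (map_smul (J2.e p) c2 x.2.1).symm
    · exact (map_smul (J3.e p) c3 x.2.2).symm
  · intro x
    rw [hφ, hφ]
    refine Prod.ext ?_ (Prod.ext ?_ ?_)
    · exact (map_smul J1.a c1 x.1).symm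
    · exact (map_smul J2.a c2 x.2.1).symm
    · exact (map_smul J3.a c3 x.2.2).symm
  · intro x
    rw [hF, hF]

end Pool.Agent.Lib.MP_4c1f79_al
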