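import Pool.Agent.Lib.MP_4c1f79_al.Stm8

/-!
# MP_4c1f79_al : piece E8j (the bracket)
-/

set_option autoImplicit false

namespace Pool.Agent.Lib.MP_4c1f79_al

open Finset Module

/-- all sums of members of finite sets lie in a finite set -/
private theorem E8j_sums {ι : Type} (B : Finset ι) (C : ι → Finset (Polynomial ℕ)) :
    ∃ Fs : Finset (Polynomial ℕ), ∀ c : ι → Polynomial ℕ, (∀ i ∈ B, c i ∈ C i) →
      ∑ i ∈ B, c i ∈ Fs := by
  classical
  induction B using Finset.induction_on with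
  | empty => exact ⟨{0}, fun c _ => by simp⟩
  | insert i B hi ih =>
    obtain ⟨Fs, hFs⟩ := ih
    refine ⟨Finset.image₂ (· + ·) (C i) Fs, fun c hc => ?_⟩
    rw [Finset.sum_insert hi]
    exact Finset.mem_image₂_of_mem (hc i (Finset.mem_insert_self i B))
      (hFs c fun j hj => hc j (Finset.mem_insert_of_mem hj))

section gen

variable {P : Type} [Fintype P] {M : Mesh P} {s : Equiv.Perm P} {K : Type} [Field K] {D : Fd K}

private theorem E8j_map (N : FM M s K D) (p : P) (v : N.T) (hv : N.e p v = v) :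
    (K ∙ v).map (N.e p) = K ∙ v := by
  rw [Submodule.map_span, Set.image_singleton, hv]

/-- pointwise form of `Res` for one position and one vector -/
private theorem E8j_res (N : FM M s K D) (p : P) (v : N.T) (hv : N.e p v = v)
    (W : Submodule K N.T) (hW : ∀ x ∈ W, N.e p x ∈ W) (h : N.Res {p} (K ∙ v) W) :
    v ∈ W ∧ ∀ x ∈ W, ∃ c : K, N.e p x = c • v := by
  have h1 := h p rfl
  rw [E8j_map N p v hv] at h1
  constructor
  · have h2 : v ∈ W.map (N.e p) := by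
      rw [h1]
      exact Submodule.mem_span_singleton_self v
    obtain ⟨w, hw, hwv⟩ := h2
    rw [← hwv]
    exact hW w hw
  · intro x hx
    have h2 : N.e p x ∈ (K ∙ v) := by
      rw [← h1]
      exact Submodule.mem_map_of_mem hx
    obtain ⟨c, hc⟩ := Submodule.mem_span_singleton.1 h2
    exact ⟨c, hc.symm⟩

private theorem E8j_res' (N : FM M s K D) (p : P) (v : N.T) (hv : N.e p v = v)
    (W : Submodule K N.T) (h1 : v ∈ W) (h2 : ∀ x ∈ W, ∃ c : K, N.e p x = c • v) :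
    N.Res {p} (K ∙ v) W := by
  rintro q hq
  have hq' : q = p := hq
  subst hq'
  rw [E8j_map N q v hv]
  apply le_antisymm
  · rintro _ ⟨x, hx, rfl⟩
    obtain ⟨c, hc⟩ := h2 x hx
    rw [hc]
    exact Submodule.smul_mem _ c (Submodule.mem_span_singleton_self v)
  · rw [Submodule.span_le, Set.singleton_subset_iff]
    exact ⟨v, h1, hv⟩

private theorem E8j_bot (N : FM M s K D) (p : P) (W : Submodule K N.T) :
    N.Res {p} ⊥ W ↔ ∀ x ∈ W, N.e p x = 0 := by
  constructor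
  · intro h x hx
    have h1 := h p rfl
    rw [Submodule.map_bot] at h1
    have h2 : N.e p x ∈ W.map (N.e p) := Submodule.mem_map_of_mem hx
    rw [h1] at h2
    exact h2
  · intro h q hq
    have hq' : q = p := hq
    subst hq'
    rw [Submodule.map_bot, eq_bot_iff]
    rintro _ ⟨x, hx, rfl⟩
    exact h x hx

/-- `(z, (x, y)) ↦ (x, (y, z))` -/
private def E8j_phi (K A B C : Type) [Field K] [AddCommGroup A] [AddCommGroup B] [AddCommGroup C]
    [Module K A] [Module K B] [Module K C] : (C × (A × B)) ≃ₗ[K] (A × (B × C)) where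
  toFun x := (x.2.1, (x.2.2, x.1))
  invFun y := (y.2.2, (y.1, y.2.1))
  map_add' _ _ := rfl
  map_smul' _ _ := rfl
  left_inv _ := rfl
  right_inv _ := rfl

/-- the vector -/
private def E8j_v (J1 J2 J3 : FM M s K D) (v1 : J1.T) (v2 : J2.T) (v3 : J3.T) (t : K) :
    (J1.prod (J2.prod J3)).T := ((v1, (v2, t • v3)) : J1.T × (J2.T × J3.T))

private theorem E8j_line (N : FM M s K D) (p : P) (v x : N.T) (hv : N.e p v = v)
    (hx : N.e p x = x) (h0 : v ≠ 0) (hd : N.toRp.dm p ≤ 1) : ∃ t : K, x = t • v := by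
  have hfin : Finite N.T := inferInstance
  have h1 : finrank K (LinearMap.range (N.e p)) ≤ 1 := hd
  have h2 := finrank_le_one_iff.1 h1
  obtain ⟨⟨w, hw⟩, h3⟩ := h2
  obtain ⟨c, hc⟩ := h3 ⟨v, v, hv⟩
  obtain ⟨d, hd⟩ := h3 ⟨x, x, hx⟩
  have hc' : c • w = v := congrArg Subtype.val hc
  have hd' : d • w = x := congrArg Subtype.val hd
  have hc0 : c ≠ 0 := by
    rintro rfl
    rw [zero_smul] at hc'
    exact h0 hc'.symm
  refine ⟨d * c⁻¹, ?_⟩
  rw [← hc', smul_smul, mul_assoc, inv_mul_cancel₀ hc0, mul_one, hd']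

/-- the bijection of subs -/
private theorem E8j_count (J1 J2 J3 : FM M s K D) (p : P) (v1 : J1.T) (v2 : J2.T) (v3 : J3.T)
    (h1 : J1.e p v1 = v1) (h2 : J2.e p v2 = v2) (h3 : J3.e p v3 = v3) (n1 : v1 ≠ 0)
    (n3 : v3 ≠ 0) (hd : J3.toRp.dm p ≤ 1) (d : P → ℕ) :
    (J3.prod (J1.prod J2)).cntP (fun W =>
      J3.Res {p} ⊥ (W.comap (LinearMap.inl K J3.T (J1.prod J2).T)) ∧
      (J1.prod J2).Res {p} (K ∙ ((v1, v2) : J1.T × J2.T))
        (W.map (LinearMap.snd K J3.T (J1.prod J2).T))) d =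
    Nat.card (Σ t : K, {W : Submodule K (J1.prod (J2.prod J3)).T //
      (J1.prod (J2.prod J3)).St W ∧
      (J1.prod (J2.prod J3)).Res {p} (K ∙ E8j_v J1 J2 J3 v1 v2 v3 t) W ∧
      ∀ q, (J1.prod (J2.prod J3)).toRp.dmS W q = d q}) := by
  let φ : (J3.prod (J1.prod J2)).T ≃ₗ[K] (J1.prod (J2.prod J3)).T := E8j_phi K J1.T J2.T J3.T
  have φe : ∀ q x, φ ((J3.prod (J1.prod J2)).e q x) = (J1.prod (J2.prod J3)).e q (φ x) :=
    fun q x => rfl
  have φa : ∀ x, φ ((J3.prod (J1.prod J2)).a x) = (J1.prod (J2.prod J3)).a (φ x) := fun x => rfl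
  have φF : ∀ x, φ ((J3.prod (J1.prod J2)).F x) = (J1.prod (J2.prod J3)).F (φ x) := fun x => rfl
  have hvt : ∀ t : K, (J1.prod (J2.prod J3)).e p (E8j_v J1 J2 J3 v1 v2 v3 t) =
      E8j_v J1 J2 J3 v1 v2 v3 t := by
    intro t
    refine Prod.ext h1 (Prod.ext h2 ?_)
    show J3.e p (t • v3) = t • v3
    rw [map_smul, h3]
  have hv12 : (J1.prod J2).e p ((v1, v2) : J1.T × J2.T) = ((v1, v2) : J1.T × J2.T) :=
    Prod.ext h1 h2
  have hSt : ∀ W : Submodule K (J1.prod (J2.prod J3)).T, (J1.prod (J2.prod J3)).St W ↔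
      (J3.prod (J1.prod J2)).St (W.comap φ.toLinearMap) := by
    intro W
    constructor
    · rintro ⟨⟨e1, e2⟩, e3⟩
      exact ⟨⟨fun q x hx => e1 q _ hx, fun x hx => e2 _ hx⟩, fun x hx => e3 _ hx⟩
    · rintro ⟨⟨e1, e2⟩, e3⟩
      exact ⟨⟨fun q x hx => e1 q (φ.symm x) hx, fun x hx => e2 (φ.symm x) hx⟩,
        fun x hx => e3 (φ.symm x) hx⟩
  have hdm : ∀ (W : Submodule K (J1.prod (J2.prod J3)).T) (q : P),
      (J3.prod (J1.prod J2)).toRp.dmS (W.comap φ.toLinearMap) q =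
        (J1.prod (J2.prod J3)).toRp.dmS W q := by
    intro W q
    have e1 : ((W.comap φ.toLinearMap).map ((J3.prod (J1.prod J2)).e q)).map φ.toLinearMap =
        W.map ((J1.prod (J2.prod J3)).e q) := by
      apply le_antisymm
      · rintro _ ⟨_, ⟨x, hx, rfl⟩, rfl⟩
        exact ⟨φ x, hx, rfl⟩
      · rintro _ ⟨x, hx, rfl⟩
        exact ⟨_, ⟨φ.symm x, hx, rfl⟩, rfl⟩
    unfold Rp.dmS
    rw [← e1]
    exact (LinearEquiv.finrank_map_eq φ _).symm
  unfold FM.cntP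
  symm
  refine Nat.card_eq_of_bijective (fun x : (Σ t : K, {W : Submodule K (J1.prod (J2.prod J3)).T //
      (J1.prod (J2.prod J3)).St W ∧
      (J1.prod (J2.prod J3)).Res {p} (K ∙ E8j_v J1 J2 J3 v1 v2 v3 t) W ∧
      ∀ q, (J1.prod (J2.prod J3)).toRp.dmS W q = d q}) =>
    (⟨x.2.1.comap φ.toLinearMap, ?_, ?_, ?_⟩ :
      {W : Submodule K (J3.prod (J1.prod J2)).T // (J3.prod (J1.prod J2)).St W ∧
      (J3.Res {p} ⊥ (W.comap (LinearMap.inl K J3.T (J1.prod J2).T)) ∧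
      (J1.prod J2).Res {p} (K ∙ ((v1, v2) : J1.T × J2.T))
        (W.map (LinearMap.snd K J3.T (J1.prod J2).T))) ∧
      ∀ q, (J3.prod (J1.prod J2)).toRp.dmS W q = d q})) ⟨?_, ?_⟩
  · exact (hSt _).1 x.2.2.1
  · obtain ⟨t, W, hW1, hW2, hW3⟩ := x
    obtain ⟨r1, r2⟩ := E8j_res _ p _ (hvt t) W (hW1.1.1 p) hW2
    constructor
    · rw [E8j_bot]
      intro x hx
      obtain ⟨c, hc⟩ := r2 _ hx
      have c1 : J1.e p 0 = c • v1 := congrArg Prod.fst hc
      have c3 : J3.e p x = c • (t • v3) := congrArg (fun y => y.2.2) hc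
      rw [map_zero] at c1
      have c0 : c = 0 := (smul_eq_zero.1 c1.symm).resolve_right n1
      rw [c3, c0, zero_smul]
    · apply E8j_res' _ p _ hv12
      · exact ⟨φ.symm (E8j_v J1 J2 J3 v1 v2 v3 t), r1, rfl⟩
      · rintro _ ⟨x, hx, rfl⟩
        obtain ⟨c, hc⟩ := r2 _ hx
        have c1 : J1.e p x.2.1 = c • v1 := congrArg Prod.fst hc
        have c2 : J2.e p x.2.2 = c • v2 := congrArg (fun y => y.2.1) hc
        exact ⟨c, Prod.ext c1 c2⟩
  · intro q
    rw [hdm]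
    exact x.2.2.2.2 q
  · rintro ⟨t, W, hW1, hW2, hW3⟩ ⟨t', W', hW1', hW2', hW3'⟩ h
    have e1 : W.comap φ.toLinearMap = W'.comap φ.toLinearMap := congrArg Subtype.val h
    have e2 : W = W' := Submodule.comap_injective_of_surjective φ.surjective e1
    subst e2
    obtain ⟨r1, r2⟩ := E8j_res _ p _ (hvt t) W (hW1.1.1 p) hW2
    obtain ⟨r1', r2'⟩ := E8j_res _ p _ (hvt t') W (hW1.1.1 p) hW2'
    obtain ⟨c, hc⟩ := r2 _ r1'
    rw [hvt t'] at hc
    have c1 : v1 = c • v1 := congrArg Prod.fst hc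
    have c3 : t' • v3 = c • (t • v3) := congrArg (fun y => y.2.2) hc
    have hc1 : c = 1 := by
      have h5 : (c - 1) • v1 = 0 := by
        rw [sub_smul, one_smul, ← c1, sub_self]
      have h6 := (smul_eq_zero.1 h5).resolve_right n1
      exact sub_eq_zero.1 h6
    have ht : t = t' := by
      rw [hc1, one_smul] at c3
      have h5 : (t' - t) • v3 = 0 := by
        rw [sub_smul, c3, sub_self]
      have h6 := (smul_eq_zero.1 h5).resolve_right n3
      exact (sub_eq_zero.1 h6).symm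
    subst ht
    rfl
  · rintro ⟨W', hW1, ⟨hA, hB⟩, hW3⟩
    have hYst : ∀ y ∈ W'.map (LinearMap.snd K J3.T (J1.prod J2).T),
        (J1.prod J2).e p y ∈ W'.map (LinearMap.snd K J3.T (J1.prod J2).T) := by
      rintro _ ⟨x, hx, rfl⟩
      exact ⟨_, hW1.1.1 p x hx, rfl⟩
    obtain ⟨b1, b2⟩ := E8j_res _ p _ hv12 _ hYst hB
    rw [E8j_bot] at hA
    obtain ⟨x, hx, hx2⟩ := b1
    have hxs := hW1.1.1 p x hx
    obtain ⟨t, ht⟩ := E8j_line J3 p v3 (J3.e p x.1) h3 (J3.e_e p _) n3 hd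
    have hvW : φ.symm (E8j_v J1 J2 J3 v1 v2 v3 t) ∈ W' := by
      have e1 : φ.symm (E8j_v J1 J2 J3 v1 v2 v3 t) = (J3.prod (J1.prod J2)).e p x := by
        have e2 : x.2 = ((v1, v2) : J1.T × J2.T) := hx2
        refine Prod.ext ht.symm ?_
        show ((v1, v2) : J1.T × J2.T) = (J1.prod J2).e p x.2
        rw [e2]
        exact hv12.symm
      rw [e1]
      exact hxs
    refine ⟨⟨t, ⟨W'.comap φ.symm.toLinearMap, ?_, ?_, ?_⟩⟩, ?_⟩
    · rw [hSt]
      exact hW1
    · apply E8j_res' _ p _ (hvt t)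
      · exact hvW
      · intro y hy
        have hy' : φ.symm y ∈ W' := hy
        obtain ⟨c, hc⟩ := b2 (φ.symm y).2 ⟨_, hy', rfl⟩
        refine ⟨c, ?_⟩
        have e1 : (J3.prod (J1.prod J2)).e p (φ.symm y) -
            c • φ.symm (E8j_v J1 J2 J3 v1 v2 v3 t) ∈ W' :=
          Submodule.sub_mem _ (hW1.1.1 p _ hy') (Submodule.smul_mem _ c hvW)
        have e2 : (J3.prod (J1.prod J2)).e p (φ.symm y) -
            c • φ.symm (E8j_v J1 J2 J3 v1 v2 v3 t) =
            (LinearMap.inl K J3.T (J1.prod J2).T) (J3.e p y.2.2 - c • (t • v3)) := by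
          exact Prod.ext rfl (sub_eq_zero.2 hc)
        rw [e2] at e1
        have e3 := hA _ e1
        rw [map_sub, J3.e_e, map_smul, map_smul, h3, sub_eq_zero] at e3
        have c1 : J1.e p y.1 = c • v1 := congrArg Prod.fst hc
        have c2 : J2.e p y.2.1 = c • v2 := congrArg Prod.snd hc
        exact Prod.ext c1 (Prod.ext c2 e3)
    · intro q
      rw [← hdm]
      exact hW3 q
    · apply Subtype.ext
      rfl

end gen

theorem E8j_holds (hE8i : S_E8i) (hFID : S_FID) (hFI8 : S_FI8) (hSPC : S_SPC) (hRSP : S_RSP)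
    (hISO : S_ISO) (hBND : S_BND) (hDQ1 : S_DQ1) (hDQ2 : S_DQ2) (hDQ3 : S_DQ3) : S_E8j := by
  classical
  intro hPos d
  have hW8 : W8 \ {st8} = U7 := by
    ext p
    constructor
    · rintro ⟨h1, h2⟩
      rcases h1 with h1 | h1
      · exact h1
      · exact absurd h1 h2
    · intro h
      refine ⟨Or.inl h, ?_⟩
      rintro rfl
      exact h rfl
  have hPos' : PosC M8 s8 1 (W8 \ {st8}) := by
    rw [hW8]
    exact hPos
  have hR := hRSP P8 M8 s8 1 W8 {st8} hPos'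
  have hR3 := fun d₁ => hR (ind {((7, 5) : P8)}) d₁
  have hR12 := fun d₁ => hR (fun p => ind {((3, 5) : P8)} p + ind {((5, 5) : P8)} p) d₁
  choose F hF using hR3
  choose G hG using hR12
  obtain ⟨b, hb⟩ := (hBND P8 M8).1 (ind {((7, 5) : P8)})
  obtain ⟨Fs, hFs⟩ := E8j_sums (box d) fun d₁ =>
    Finset.image₂ (fun (v : P8 → ℕ) (c : Polynomial ℕ) =>
      Polynomial.X ^ (eul M8 (fun p => (d p : ℤ) - (d₁ p : ℤ))
        (fun p => (v p : ℤ) - (d₁ p : ℤ))).toNat * c) (box b)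
      (Finset.image₂ (· * ·) (F d₁) (G (d - d₁)))
  refine ⟨Fs, fun K _ D hr J1 J2 J3 hJ1 hJ2 hJ3 hm1 hm2 hm3 v1 v2 v3 h1 h2 h3 n1 n2 n3 => ?_⟩
  obtain ⟨-, hqK, hFx, -⟩ := hFID P8 M8 K D hr
  obtain ⟨-, hdsc, hdgood, -, -⟩ := hDQ2 P8 M8 K
  obtain ⟨hs8, -, -, -⟩ := hFI8
  -- the product of the first two
  have hGT12 : (J1.prod J2).GT W8 (fun p => ind {((3, 5) : P8)} p + ind {((5, 5) : P8)} p) := by
    refine ⟨hdgood J1.toRp J2.toRp W8 hJ1.1 hJ2.1, fun p => ?_⟩
    show (J1.toRp.prod J2.toRp).sc p = _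
    rw [hdsc, hJ1.2, hJ2.2]
  have hv12 : (J1.prod J2).e st8 ((v1, v2) : J1.T × J2.T) = ((v1, v2) : J1.T × J2.T) :=
    Prod.ext h1 h2
  -- graded subspaces
  have hGrd : ∀ (N : FM M8 s8 K D) (v : N.T), N.e st8 v = v → N.Grd {st8} (K ∙ v) := by
    intro N v hv
    refine ⟨?_, ?_, ?_, ?_⟩
    · intro p x hx
      obtain ⟨c, rfl⟩ := Submodule.mem_span_singleton.1 hx
      by_cases hp : p = st8
      · subst hp
        rw [map_smul, hv]
        exact hx
      · rw [map_smul, ← hv, N.e_ne p st8 _ hp, smul_zero]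
        exact Submodule.zero_mem _
    · intro x hx
      rw [hFx]
      exact hx
    · intro p hp x hx
      obtain ⟨c, rfl⟩ := Submodule.mem_span_singleton.1 hx
      rw [map_smul, ← hv, N.e_ne p st8 _ hp, smul_zero]
    · intro p
      rw [hs8]
  have hGrd0 : J3.Grd {st8} ⊥ := by
    refine ⟨?_, ?_, ?_, ?_⟩
    · intro p x hx
      rw [(Submodule.mem_bot K).1 hx, map_zero]
      exact Submodule.zero_mem _
    · intro x hx
      rw [hFx]
      exact hx
    · intro p _ x hx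
      rw [(Submodule.mem_bot K).1 hx, map_zero]
    · intro p
      rw [hs8]
  have hTau : ∀ (N : FM M8 s8 K D) (B : Submodule K N.T), ∀ p ∈ W8, p ∉ ({st8} : Set P8) →
      ∀ x ∈ ({st8} : Set P8), M8.Tau p x → ∀ y ∈ B, N.e x y = 0 := by
    intro N B p hp hp2 x hx hT
    exfalso
    have hx' : x = st8 := hx
    subst hx'
    have e1 : p.1 = 6 := hT.1
    rcases hp with hp | hp
    · exact hp e1
    · exact hp2 hp
  -- the hypothesis of the splitting formula
  have hTsc : ∀ p r, M8.Tau p r → (J1.prod J2).toRp.sc p ≠ 0 → J3.toRp.dm r = 0 := by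
    intro p r hT hsc
    have e1 : M8.lv p = 5 := by
      rw [hGT12.2] at hsc
      by_contra hne
      apply hsc
      have e2 : p ∉ ({((3, 5) : P8)} : Set P8) := by
        rintro rfl
        exact hne rfl
      have e3 : p ∉ ({((5, 5) : P8)} : Set P8) := by
        rintro rfl
        exact hne rfl
      show ind {((3, 5) : P8)} p + ind {((5, 5) : P8)} p = 0
      rw [ind, ind, Set.indicator_of_notMem e2, Set.indicator_of_notMem e3, add_zero]
    have e2 := M8.lv_tau p r hT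
    refine (hBND P8 M8).2 K J3.toRp 5 (fun q hq => ?_) r (by omega)
    rw [hJ3.2, ind]
    apply Set.indicator_of_notMem
    rintro rfl
    exact absurd hq (by decide)
  have key := (hSPC P8 M8 s8 K D J3 (J1.prod J2) W8 hJ3.1 hGT12.1.1 hTsc
    (fun X => J3.Res {st8} ⊥ X)
    (fun Y => (J1.prod J2).Res {st8} (K ∙ ((v1, v2) : J1.T × J2.T)) Y) d).1
  rw [E8j_count J1 J2 J3 st8 v1 v2 v3 h1 h2 h3 n1 n3 hm3 d] at key
  -- the sum over `t`
  have hKfin : Finite K := by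
    apply Nat.finite_of_card_ne_zero
    rw [D.card_K]
    have := D.q_gt
    positivity
  let _ : Fintype K := Fintype.ofFinite K
  have hsum : Nat.card (Σ t : K, {W : Submodule K (J1.prod (J2.prod J3)).T //
      (J1.prod (J2.prod J3)).St W ∧
      (J1.prod (J2.prod J3)).Res {st8} (K ∙ E8j_v J1 J2 J3 v1 v2 v3 t) W ∧
      ∀ q, (J1.prod (J2.prod J3)).toRp.dmS W q = d q}) =
      ∑ t : K, CJ J1 J2 J3 v1 v2 (t • v3) d := by
    rw [Nat.card_sigma]
    rfl
  have ht : ∀ t : K, t ≠ 0 → CJ J1 J2 J3 v1 v2 (t • v3) d = CJ J1 J2 J3 v1 v2 v3 d := by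
    intro t ht
    refine hE8i K D hr J1 J2 J3 hm1 hm2 hm3 v1 v1 v2 v2 (t • v3) v3 h1 h2 ?_ h1 h2 h3 Iff.rfl
      Iff.rfl ?_ d
    · rw [map_smul, h3]
    · constructor
      · intro h
        exact (smul_eq_zero.1 h).resolve_left ht
      · intro h
        rw [h, smul_zero]
  have hsum2 : ∑ t : K, CJ J1 J2 J3 v1 v2 (t • v3) d =
      (D.q - 1) * CJ J1 J2 J3 v1 v2 v3 d + CJ J1 J2 J3 v1 v2 0 d := by
    rw [← Finset.add_sum_erase _ _ (Finset.mem_univ (0 : K)), zero_smul,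
      Finset.sum_congr rfl (fun t h => ht t (Finset.ne_of_mem_erase h)), Finset.sum_const,
      Finset.card_erase_of_mem (Finset.mem_univ _), Finset.card_univ, smul_eq_mul, add_comm,
      hqK, Nat.card_eq_fintype_card]
  rw [hsum, hsum2] at key
  -- the polynomials
  choose f hf hf2 using fun d₁ => hF d₁ K D hr J3 hJ3 ⊥ hGrd0 (hTau J3 ⊥)
  choose g hg hg2 using fun d₁ => hG d₁ K D hr (J1.prod J2) hGT12
    (K ∙ ((v1, v2) : J1.T × J2.T)) (hGrd (J1.prod J2) _ hv12) (hTau (J1.prod J2) _)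
  refine ⟨∑ d₁ ∈ box d, Polynomial.X ^ (eul M8 (fun p => (d p : ℤ) - (d₁ p : ℤ))
        (fun p => (J3.toRp.dm p : ℤ) - (d₁ p : ℤ))).toNat * (f d₁ * g (d - d₁)), ?_, ?_⟩
  · apply hFs
    intro d₁ _
    have hdm : J3.toRp.dm ∈ box b := by
      rw [mem_box]
      exact hb K J3.toRp fun p => (hJ3.2 p).le
    exact Finset.mem_image₂_of_mem (f := fun (v : P8 → ℕ) (c : Polynomial ℕ) =>
      Polynomial.X ^ (eul M8 (fun p => (d p : ℤ) - (d₁ p : ℤ))
        (fun p => (v p : ℤ) - (d₁ p : ℤ))).toNat * c) hdm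
        (Finset.mem_image₂_of_mem (hf d₁) (hg (d - d₁)))
  · rw [key, Polynomial.eval_finsetSum]
    refine Finset.sum_congr rfl fun d₁ _ => ?_
    rw [Polynomial.eval_mul, Polynomial.eval_mul, Polynomial.eval_pow, Polynomial.eval_X]
    congr 1
    congr 1
    · exact hf2 d₁
    · exact hg2 (d - d₁)

end Pool.Agent.Lib.MP_4c1f79_al
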