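import Pool.Agent.Lib.MP_4c1f79_al.Stm8

/-!
# MP_4c1f79_al : piece E8k (the difference of the counts for two special vectors)
-/

set_option autoImplicit false

namespace Pool.Agent.Lib.MP_4c1f79_al

open Finset Module

private theorem E8k_ind {p q : P8} : ind {q} p = if p = q then 1 else 0 := by
  unfold ind
  by_cases h : p = q
  · rw [if_pos h, Set.indicator_of_mem (Set.mem_singleton_iff.2 h)]
    rfl
  · rw [if_neg h, Set.indicator_of_notMem (fun h1 => h (Set.mem_singleton_iff.1 h1))]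

private theorem E8k_aux (hRST : S_RST) (hFID : S_FID) (hFI8 : S_FI8) (hDQ2 : S_DQ2) {K : Type}
    [Field K] (D : Fd K) (hr : D.r = 1) (J1 J2 J3 : FM M8 s8 K D)
    (h1 : J1.GT W8 (ind {((3, 5) : P8)})) (h2 : J2.GT W8 (ind {((5, 5) : P8)}))
    (h3 : J3.GT W8 (ind {((7, 5) : P8)})) (w1 : J1.T) (w2 : J2.T) (w3 : J3.T)
    (e1 : J1.e st8 w1 = w1) (e2 : J2.e st8 w2 = w2) (e3 : J3.e st8 w3 = w3) (hne : w1 ≠ 0)
    (sv m : P8 → ℕ) (hs1 : sv st8 = 1)
    (hs : ∀ p, (J1.prod (J2.prod J3)).toRp.dmS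
      ((J1.prod (J2.prod J3)).toRp.gen (K ∙ ((w1, (w2, w3)) : J1.T × (J2.T × J3.T)))) p = sv p)
    (hm : ∀ u ∈ U7, (mT8 u : ℤ) - eulN M8 (ind {u}) sv = (m u : ℕ))
    (hm0 : ∀ u, u ∉ U7 → m u = 0) :
    ∃ G : FM M8 s8 K D, G.GT U7 m ∧ ∀ d : P8 → ℕ,
      ((∀ p, sv p ≤ d p) → CJ J1 J2 J3 w1 w2 w3 d = G.cnt (fun p => d p - sv p)) ∧
      (¬ (∀ p, sv p ≤ d p) → CJ J1 J2 J3 w1 w2 w3 d = 0) := by
  obtain ⟨-, -, fidF, -, fidgen, -⟩ := hFID P8 M8 K D hr
  obtain ⟨fi1, fi2, -⟩ := hFI8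
  obtain ⟨-, q2, q3, -⟩ := hDQ2 P8 M8 K
  obtain ⟨J, hJ⟩ : ∃ J : FM M8 s8 K D, J = J1.prod (J2.prod J3) := ⟨_, rfl⟩
  have key : ∀ (J : FM M8 s8 K D) (v : J.T), J.e st8 v = v → v ≠ 0 → J.toRp.Good W8 →
      (∀ u, J.toRp.sc u = mT8 u) → (∀ p, J.toRp.dmS (J.toRp.gen (K ∙ v)) p = sv p) →
      ∃ G : FM M8 s8 K D, G.GT U7 m ∧ ∀ d : P8 → ℕ,
      ((∀ p, sv p ≤ d p) → J.cntP (J.Res {st8} (K ∙ v)) d = G.cnt (fun p => d p - sv p)) ∧
      (¬ (∀ p, sv p ≤ d p) → J.cntP (J.Res {st8} (K ∙ v)) d = 0) := by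
    intro J v hv hv0 hgood hsc hs
    have hvp : ∀ p, p ≠ st8 → J.e p v = 0 := by
      intro p hp
      rw [← hv, J.e_ne p st8 v hp]
    have hgrd : J.Grd {st8} (K ∙ v) := by
      refine ⟨?_, ?_, ?_, ?_⟩
      · intro p x hx
        obtain ⟨c, rfl⟩ := Submodule.mem_span_singleton.1 hx
        rw [map_smul]
        by_cases hp : p = st8
        · rw [hp, hv]
          exact hx
        · rw [hvp p hp, smul_zero]
          exact Submodule.zero_mem _
      · intro x hx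
        rw [fidF]
        exact hx
      · intro p hp x hx
        obtain ⟨c, rfl⟩ := Submodule.mem_span_singleton.1 hx
        rw [map_smul, hvp p (fun h => hp (Set.mem_singleton_iff.2 h)), smul_zero]
      · intro p
        rw [fi1]
    have hgen : J.gen (K ∙ v) = J.toRp.gen (K ∙ v) := fidgen s8 J _
    have htau : ∀ p ∈ W8, p ∉ ({st8} : Set P8) → ∀ r ∈ ({st8} : Set P8), M8.Tau p r →
        ∀ x ∈ (K ∙ v : Submodule K J.T), J.e r x = 0 := by
      intro p hp hp1 r hr1 ht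
      rw [Set.mem_singleton_iff.1 hr1] at ht
      have h4 : p.1 = 6 := ht.1
      rcases hp with h5 | h5
      · exact absurd h4 h5
      · exact absurd (Set.mem_singleton_iff.2 h5) hp1
    obtain ⟨-, r2⟩ := hRST P8 M8 s8 K D J W8 {st8} (K ∙ v) hgrd hgood htau
    have hBg : (K ∙ v : Submodule K J.T) ≤ J.gen (K ∙ v) := le_sInf fun W hW => hW.2
    have hres : J.Res {st8} (K ∙ v) (J.gen (K ∙ v)) := by
      intro p hp
      rw [Set.mem_singleton_iff.1 hp]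
      symm
      apply Submodule.eq_of_le_of_finrank_eq (Submodule.map_mono hBg)
      have e4 : (K ∙ v : Submodule K J.T).map (J.e st8) = K ∙ v := by
        rw [Submodule.map_span, Set.image_singleton, hv]
      rw [e4, finrank_span_singleton hv0]
      have e5 := hs st8
      rw [hs1, ← hgen] at e5
      exact e5.symm
    obtain ⟨G, m', g1, g2, g3, -, g5⟩ := r2 hres
    have hU : W8 \ {st8} = U7 := by
      ext p
      constructor
      · rintro ⟨h4 | h4, h5⟩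
        · exact h4
        · exact absurd (Set.mem_singleton_iff.2 h4) h5
      · intro h4
        refine ⟨Or.inl h4, fun h5 => ?_⟩
        rw [Set.mem_singleton_iff.1 h5] at h4
        exact h4 rfl
    rw [hU] at g1 g2 g3
    have hdm : J.toRp.dmS (J.gen (K ∙ v)) = sv := by
      funext p
      rw [hgen]
      exact hs p
    rw [hdm] at g2 g5
    have hm' : ∀ u, m' u = m u := by
      intro u
      by_cases hu : u ∈ U7
      · have h4 := g2 u hu
        rw [hsc] at h4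
        have h5 := h4.trans (hm u hu)
        exact_mod_cast h5
      · rw [g3 u hu, hm0 u hu]
    exact ⟨G, ⟨g1.1, fun p => (g1.2 p).trans (hm' p)⟩, g5⟩
  refine key (J1.prod (J2.prod J3)) ((w1, (w2, w3)) : J1.T × (J2.T × J3.T)) ?_ ?_ ?_ ?_ hs
  · exact Prod.ext e1 (Prod.ext e2 e3)
  · intro h
    exact hne (congrArg (fun x : J1.T × (J2.T × J3.T) => x.1) h)
  · exact q3 _ _ _ h1.1 (q3 _ _ _ h2.1 h3.1)
  · intro u
    have a1 : (J1.prod (J2.prod J3)).toRp.sc u = J1.toRp.sc u + (J2.prod J3).toRp.sc u :=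
      q2 _ _ u
    have a2 : (J2.prod J3).toRp.sc u = J2.toRp.sc u + J3.toRp.sc u := q2 _ _ u
    rw [a1, a2, h1.2, h2.2, h3.2, E8k_ind, E8k_ind, E8k_ind]
    unfold mT8 ind
    by_cases b1 : u = (3, 5)
    · subst b1
      rw [Set.indicator_of_mem (by simp)]
      decide
    by_cases b2 : u = (5, 5)
    · subst b2
      rw [Set.indicator_of_mem (by simp)]
      decide
    by_cases b3 : u = (7, 5)
    · subst b3
      rw [Set.indicator_of_mem (by simp)]
      decide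
    rw [Set.indicator_of_notMem (by simp [b1, b2, b3]), if_neg b1, if_neg b2, if_neg b3]
    norm_num

theorem E8k_holds (hE8g : S_E8g) (hE8h : S_E8h) (hRST : S_RST) (hCOA : S_COA) (hT8f : S_T8f)
    (_hUNI : S_UNI) (_hISO : S_ISO) (hFID : S_FID) (hFI8 : S_FI8) (_hDQ1 : S_DQ1)
    (hDQ2 : S_DQ2) : S_E8k := by
  classical
  intro hPosC d
  have hcfg : Cfg M8 s8 U7 (5, 5) (5, 7) (4, 6) := by
    refine ⟨hFI8.1 _, hFI8.1 _, hFI8.1 _, ?_, ?_, ?_, ?_, ?_, ?_, ?_⟩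
    · show (5 : Fin 8) ≠ 6
      decide
    · show (5 : Fin 8) ≠ 6
      decide
    · show (4 : Fin 8) ≠ 6
      decide
    · exact ⟨rfl, rfl⟩
    · exact ⟨rfl, rfl⟩
    · rintro ⟨v, k⟩ hy ⟨h1, h2⟩
      have h3 : v ≠ 6 := hy
      have h4 : eB 5 v = true := h1
      have h5 : 7 = (k : ℕ) + 1 := h2
      have h6 : ∀ v : Fin 8, v ≠ 6 → eB 5 v = true → v = 4 := by decide
      rw [h6 v h3 h4]
      congr 1
      apply Fin.ext
      show (k : ℕ) = 6
      omega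
    · rintro ⟨v, k⟩ hy ⟨h1, h2⟩
      have h3 : v ≠ 6 := hy
      have h4 : eB v 5 = true := h1
      have h5 : (k : ℕ) = 5 + 1 := h2
      have h6 : ∀ v : Fin 8, v ≠ 6 → eB v 5 = true → v = 4 := by decide
      rw [h6 v h3 h4]
      congr 1
      exact Fin.ext h5
  have hthin : ∀ (K : Type) [Field K] (D : Fd K), D.r = 1 → ∀ N : FM M8 s8 K D,
      (N.GT U7 (ind {((5, 5) : P8)}) ∨ N.GT U7 (ind {((5, 7) : P8)})) →
      ∀ p, N.toRp.dm p ≤ 1 := by
    rintro K _ D - N (h | h)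
    · exact hT8f K N.toRp (5, 5) (Or.inl rfl) h.1 h.2
    · exact hT8f K N.toRp (5, 7) (Or.inr rfl) h.1 h.2
  obtain ⟨Fs1, hFs1⟩ := hCOA P8 M8 s8 1 U7 (5, 5) (5, 7) (4, 6) (hFI8.2.1 U7) hcfg hthin
    (ind {((2, 6) : P8)}) (fun p => by rw [hFI8.1]) (fun p hp => by
      rw [E8k_ind, if_neg]
      rintro rfl
      exact hp (by show (2 : Fin 8) ≠ 6; decide)) (fun p hp => by
      rw [E8k_ind] at hp
      have h1 : p = (2, 6) := by
        by_contra h2
        exact hp (if_neg h2)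
      rw [h1]
      show 5 < 6
      norm_num) (hPosC _) (hPosC _) (fun p => d p - s123 p)
  obtain ⟨Fs2, hFs2⟩ := hPosC (fun u => ind {((2, 6) : P8)} u + ind {((5, 5) : P8)} u
    + ind {((5, 7) : P8)} u) (fun p => d p - s13 p)
  refine ⟨Fs1 ∪ insert 0 Fs2, ?_⟩
  intro K _ D hr J1 J2 J3 h1 h2 h3 v1 v2 v3 e1 e2 e3 n1 n2 n3
  have hst : st8 = ((6, 14) : P8) := rfl
  have hz1 : ∀ u, u ∉ U7 → (ind {((2, 6) : P8)} u + ind {((4, 6) : P8)} u : ℕ) = 0 := by
    intro u hu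
    rw [E8k_ind, E8k_ind, if_neg, if_neg]
    · rintro rfl
      exact hu (by show (4 : Fin 8) ≠ 6; decide)
    · rintro rfl
      exact hu (by show (2 : Fin 8) ≠ 6; decide)
  have hz2 : ∀ u, u ∉ U7 → (ind {((2, 6) : P8)} u + ind {((5, 5) : P8)} u
      + ind {((5, 7) : P8)} u : ℕ) = 0 := by
    intro u hu
    rw [E8k_ind, E8k_ind, E8k_ind, if_neg, if_neg, if_neg]
    · rintro rfl
      exact hu (by show (5 : Fin 8) ≠ 6; decide)
    · rintro rfl
      exact hu (by show (5 : Fin 8) ≠ 6; decide)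
    · rintro rfl
      exact hu (by show (2 : Fin 8) ≠ 6; decide)
  obtain ⟨G, hG, hGd⟩ := E8k_aux hRST hFID hFI8 hDQ2 D hr J1 J2 J3 h1 h2 h3 v1 v2 v3 e1 e2 e3 n1
    s123 (fun u => ind {((2, 6) : P8)} u + ind {((4, 6) : P8)} u) (by unfold s123; rw [if_pos (Or.inl rfl)])
    ((hE8g K D hr J1 J2 J3 h1 h2 h3 v1 v2 v3 e1 e2 e3 n1 n3).1 n2)
    (fun u hu => (hE8h u hu).1) hz1
  obtain ⟨G', hG', hGd'⟩ := E8k_aux hRST hFID hFI8 hDQ2 D hr J1 J2 J3 h1 h2 h3 v1 0 v3 e1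
    (map_zero _) e3 n1
    s13 (fun u => ind {((2, 6) : P8)} u + ind {((5, 5) : P8)} u + ind {((5, 7) : P8)} u)
    (by unfold s13; rw [if_pos ⟨Or.inl rfl, by decide⟩])
    ((hE8g K D hr J1 J2 J3 h1 h2 h3 v1 0 v3 e1 (map_zero _) e3 n1 n3).2 rfl)
    (fun u hu => (hE8h u hu).2) hz2
  have hss : ∀ p, s123 p = s13 p + ind {((5, 5) : P8)} p := by
    intro p
    rw [E8k_ind]
    unfold s123 s13
    by_cases hp : p = (5, 5)
    · subst hp
      rw [if_pos (Or.inr (by decide)), if_neg (fun h => h.2 rfl), if_pos rfl]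
    · rw [if_neg hp]
      by_cases hq : p = st8 ∨ p ∈ Q8
      · rw [if_pos hq, if_pos ⟨hq, hp⟩, add_zero]
      · rw [if_neg hq, if_neg (fun h => hq h.1), add_zero]
  by_cases hle : ∀ p, s123 p ≤ d p
  · have hle' : ∀ p, s13 p ≤ d p := fun p => by
      have := hss p
      have := hle p
      omega
    obtain ⟨f, hf, hfe⟩ := hFs1 K D hr G' G hG' hG
    refine ⟨f, Finset.mem_union_left _ hf, ?_⟩
    rw [(hGd d).1 hle, (hGd' d).1 hle', ← hfe]
    congr 1
    funext p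
    have := hss p
    have := hle p
    omega
  · rw [(hGd d).2 hle]
    by_cases hle' : ∀ p, s13 p ≤ d p
    · obtain ⟨f, hf, hfe⟩ := hFs2 K D hr G' hG'
      refine ⟨f, Finset.mem_union_right _ (Finset.mem_insert_of_mem hf), ?_⟩
      rw [(hGd' d).1 hle', zero_add]
      exact hfe
    · refine ⟨0, Finset.mem_union_right _ (Finset.mem_insert_self _ _), ?_⟩
      rw [(hGd' d).2 hle', Polynomial.eval_zero, add_zero]

end Pool.Agent.Lib.MP_4c1f79_al
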