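import Pool.Agent.Lib.MP_4c1f79_al.Stm8

/-!
# MP_4c1f79_al : piece E8l (lines in a plane in general position)
-/

set_option autoImplicit false

namespace Pool.Agent.Lib.MP_4c1f79_al

open Finset Module

theorem E8l_one {K : Type} [Field K] {T Y : Type} [AddCommGroup T] [Module K T] [Finite T]
    [AddCommGroup Y] [Module K Y] (X : Submodule K T) (c : T →ₗ[K] Y)
    (h : finrank K (X.map c) ≤ 1) (v : T) (hv : v ∈ X) (hcv : c v ≠ 0) (w : T) (hw : w ∈ X) :
    ∃ a : K, c w = a • c v := by
  have hfin : Finite (X.map c) := by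
    apply Finite.of_surjective (fun x : X => (⟨c x.1, Submodule.mem_map_of_mem x.2⟩ : X.map c))
    rintro ⟨_, ⟨x, hx, rfl⟩⟩
    exact ⟨⟨x, hx⟩, rfl⟩
  have hfin2 : Module.Finite K (X.map c) := Module.Finite.of_finite
  obtain ⟨y, hy⟩ := finrank_le_one_iff.1 h
  obtain ⟨r, hr⟩ := hy ⟨c v, Submodule.mem_map_of_mem hv⟩
  obtain ⟨t, ht⟩ := hy ⟨c w, Submodule.mem_map_of_mem hw⟩
  have hr' : r • y.1 = c v := congrArg Subtype.val hr
  have ht' : t • y.1 = c w := congrArg Subtype.val ht
  have hr0 : r ≠ 0 := by
    rintro rfl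
    rw [zero_smul] at hr'
    exact hcv hr'.symm
  refine ⟨t * r⁻¹, ?_⟩
  rw [← hr', ← ht', smul_smul, mul_assoc, inv_mul_cancel₀ hr0, mul_one]

theorem E8l_ker {K : Type} [Field K] {T Y : Type} [AddCommGroup T] [Module K T] [Finite T]
    [AddCommGroup Y] [Module K Y] (X : Submodule K T) (c : T →ₗ[K] Y)
    (h : finrank K (X.map c) ≤ 1) (h2 : finrank K X = 2) : ∃ v ∈ X, v ≠ 0 ∧ c v = 0 := by
  have hfin : Module.Finite K T := Module.Finite.of_finite
  have h3 := LinearMap.finrank_range_add_finrank_ker (c.domRestrict X)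
  rw [LinearMap.range_domRestrict] at h3
  have h4 : LinearMap.ker (c.domRestrict X) ≠ ⊥ := by
    intro h5
    rw [h5, finrank_bot] at h3
    omega
  obtain ⟨v, hv, hv0⟩ := Submodule.exists_mem_ne_zero_of_ne_bot h4
  exact ⟨v.1, v.2, fun h => hv0 (Subtype.ext h), hv⟩

theorem E8l_holds : S_E8l := by
  classical
  intro K _ _ T Y1 Y2 Y3 _ _ _ _ _ _ _ _ _ X c1 c2 c3 hX h1 h2 h3 h12 h13 h23 Γ g hΓ
  have hfin : Module.Finite K T := Module.Finite.of_finite
  have hfK : Fintype K := Fintype.ofFinite K
  obtain ⟨v1, hv1X, hv10, hv11⟩ := E8l_ker X c1 h1 hX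
  obtain ⟨v2, hv2X, hv20, hv22⟩ := E8l_ker X c2 h2 hX
  have c21 : c2 v1 ≠ 0 := fun h => hv10 (h12 v1 hv1X hv11 h)
  have c31 : c3 v1 ≠ 0 := fun h => hv10 (h13 v1 hv1X hv11 h)
  have c12 : c1 v2 ≠ 0 := fun h => hv20 (h12 v2 hv2X h hv22)
  have c32 : c3 v2 ≠ 0 := fun h => hv20 (h23 v2 hv2X hv22 h)
  obtain ⟨s, hs⟩ := E8l_one X c3 h3 v1 hv1X c31 v2 hv2X
  have hs0 : s ≠ 0 := by
    rintro rfl
    rw [zero_smul] at hs
    exact c32 hs
  have hvt : ∀ t : K, v2 + t • v1 ∈ X := fun t => X.add_mem hv2X (X.smul_mem t hv1X)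
  have hvt0 : ∀ t : K, v2 + t • v1 ≠ 0 := by
    intro t h
    have := congrArg c1 h
    rw [map_add, map_smul, hv11, smul_zero, add_zero, map_zero] at this
    exact c12 this
  -- the lines
  let e : Option K → Submodule K T := fun x =>
    match x with
    | none => K ∙ v1
    | some t => K ∙ (v2 + t • v1)
  have hbij : Set.BijOn e Set.univ {L : Submodule K T | L ≤ X ∧ finrank K L = 1} := by
    refine ⟨?_, ?_, ?_⟩
    · intro x _
      cases x with
      | none =>
        exact ⟨(Submodule.span_singleton_le_iff_mem _ _).2 hv1X, finrank_span_singleton hv10⟩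
      | some t =>
        exact ⟨(Submodule.span_singleton_le_iff_mem _ _).2 (hvt t),
          finrank_span_singleton (hvt0 t)⟩
    · intro x _ y _ hxy
      have key : ∀ t : K, K ∙ v1 ≠ K ∙ (v2 + t • v1) := by
        intro t h
        have h4 : v2 + t • v1 ∈ K ∙ v1 := by
          rw [h]
          exact Submodule.mem_span_singleton_self _
        obtain ⟨r, hr⟩ := Submodule.mem_span_singleton.1 h4
        have := congrArg c1 hr
        rw [map_smul, map_add, map_smul, hv11, smul_zero, smul_zero, add_zero] at this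
        exact c12 this.symm
      cases x with
      | none =>
        cases y with
        | none => rfl
        | some t => exact absurd hxy (key t)
      | some t =>
        cases y with
        | none => exact absurd hxy.symm (key t)
        | some t' =>
          have hxy' : K ∙ (v2 + t • v1) = K ∙ (v2 + t' • v1) := hxy
          have h4 : v2 + t • v1 ∈ K ∙ (v2 + t' • v1) := by
            rw [← hxy']
            exact Submodule.mem_span_singleton_self _
          obtain ⟨r, hr⟩ := Submodule.mem_span_singleton.1 h4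
          have e1 := congrArg c1 hr
          rw [map_smul, map_add, map_add, map_smul, map_smul, hv11, smul_zero, smul_zero,
            add_zero] at e1
          have hr1 : r = 1 := by
            have : (r - 1) • c1 v2 = 0 := by rw [sub_smul, one_smul, e1, sub_self]
            rcases smul_eq_zero.1 this with h | h
            · exact sub_eq_zero.1 h
            · exact absurd h c12
          rw [hr1, one_smul] at hr
          have e2 : (t' - t) • v1 = 0 := by
            rw [sub_smul]
            exact sub_eq_zero.2 (add_left_cancel hr)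
          rcases smul_eq_zero.1 e2 with h | h
          · rw [sub_eq_zero.1 h]
          · exact absurd h hv10
    · rintro L ⟨hLX, hL⟩
      obtain ⟨w, hw0, hw⟩ := finrank_eq_one_iff'.1 hL
      have hLw : L = K ∙ w.1 := by
        apply le_antisymm
        · intro z hz
          obtain ⟨r, hr⟩ := hw ⟨z, hz⟩
          exact Submodule.mem_span_singleton.2 ⟨r, congrArg Subtype.val hr⟩
        · exact (Submodule.span_singleton_le_iff_mem _ _).2 w.2
      have hwX : w.1 ∈ X := hLX w.2
      have hw0' : w.1 ≠ 0 := fun h => hw0 (Subtype.ext h)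
      obtain ⟨b, hb⟩ := E8l_one X c1 h1 v2 hv2X c12 w.1 hwX
      obtain ⟨a, ha⟩ := E8l_one X c2 h2 v1 hv1X c21 w.1 hwX
      have hwab : w.1 = b • v2 + a • v1 := by
        have h4 : w.1 - (b • v2 + a • v1) = 0 := by
          apply h12
          · exact X.sub_mem hwX (X.add_mem (X.smul_mem _ hv2X) (X.smul_mem _ hv1X))
          · rw [map_sub, map_add, map_smul, map_smul, hv11, smul_zero, add_zero, hb, sub_self]
          · rw [map_sub, map_add, map_smul, map_smul, hv22, smul_zero, zero_add, ha, sub_self]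
        exact sub_eq_zero.1 h4
      by_cases hb0 : b = 0
      · refine ⟨none, Set.mem_univ _, ?_⟩
        change K ∙ v1 = L
        rw [hLw, hwab, hb0, zero_smul, zero_add]
        have ha0 : a ≠ 0 := by
          rintro rfl
          apply hw0'
          rw [hwab, hb0, zero_smul, zero_smul, zero_add]
        exact (Submodule.span_singleton_smul_eq (IsUnit.mk0 a ha0) v1).symm
      · refine ⟨some (b⁻¹ * a), Set.mem_univ _, ?_⟩
        change K ∙ (v2 + (b⁻¹ * a) • v1) = L
        have h5 : b • (v2 + (b⁻¹ * a) • v1) = w.1 := by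
          rw [smul_add, smul_smul, ← mul_assoc, mul_inv_cancel₀ hb0, one_mul, hwab]
        rw [hLw, ← h5]
        exact (Submodule.span_singleton_smul_eq (IsUnit.mk0 b hb0) _).symm
  have hsum : ∑ᶠ L ∈ {L : Submodule K T | L ≤ X ∧ finrank K L = 1}, Γ L =
      Γ (K ∙ v1) + ∑ t : K, Γ (K ∙ (v2 + t • v1)) := by
    rw [← finsum_mem_eq_of_bijOn (f := fun x => Γ (e x)) e hbij (fun _ _ => rfl),
      finsum_mem_univ, finsum_eq_sum_of_fintype, Fintype.sum_option]
  have hg : ∀ {a b c a' b' c' : Prop}, a = a' → b = b' → c = c' → g a b c = g a' b' c' := by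
    rintro a b c _ _ _ rfl rfl rfl
    rfl
  have g1 : Γ (K ∙ v1) = g True False False := by
    rw [hΓ v1 hv1X hv10]
    exact hg (eq_true hv11) (eq_false c21) (eq_false c31)
  have g2 : Γ (K ∙ (v2 + (0 : K) • v1)) = g False True False := by
    rw [hΓ _ (hvt 0) (hvt0 0)]
    rw [zero_smul, add_zero]
    exact hg (eq_false c12) (eq_true hv22) (eq_false c32)
  have hc1 : ∀ t : K, c1 (v2 + t • v1) ≠ 0 := by
    intro t
    rw [map_add, map_smul, hv11, smul_zero, add_zero]
    exact c12
  have hc2 : ∀ t : K, t ≠ 0 → c2 (v2 + t • v1) ≠ 0 := by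
    intro t ht
    rw [map_add, map_smul, hv22, zero_add]
    exact smul_ne_zero ht c21
  have hc3 : ∀ t : K, c3 (v2 + t • v1) = (s + t) • c3 v1 := by
    intro t
    rw [map_add, map_smul, hs, add_smul]
  have g3 : Γ (K ∙ (v2 + (-s) • v1)) = g False False True := by
    rw [hΓ _ (hvt _) (hvt0 _)]
    exact hg (eq_false (hc1 _)) (eq_false (hc2 _ (neg_ne_zero.2 hs0)))
      (eq_true (by rw [hc3, add_neg_cancel, zero_smul]))
  have g4 : ∀ t : K, t ≠ 0 → t ≠ -s → Γ (K ∙ (v2 + t • v1)) = g False False False := by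
    intro t ht hts
    rw [hΓ _ (hvt _) (hvt0 _)]
    have h7 : c3 (v2 + t • v1) ≠ 0 := by
      rw [hc3]
      apply smul_ne_zero _ c31
      intro h
      exact hts (eq_neg_of_add_eq_zero_right h)
    exact hg (eq_false (hc1 _)) (eq_false (hc2 _ ht)) (eq_false h7)
  have hterm : ∀ t : K, Γ (K ∙ (v2 + t • v1)) + (if t = 0 then g False False False else 0) +
      (if t = -s then g False False False else 0) = g False False False +
      (if t = 0 then g False True False else 0) + (if t = -s then g False False True else 0) := by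
    intro t
    by_cases ht : t = 0
    · subst ht
      have h6 : (0 : K) ≠ -s := fun h => hs0 (by rw [← neg_neg s, ← h, neg_zero])
      rw [g2, if_pos rfl, if_pos rfl, if_neg h6, if_neg h6]
      omega
    · by_cases hts : t = -s
      · subst hts
        rw [g3, if_neg ht, if_neg ht, if_pos rfl, if_pos rfl]
        omega
      · rw [g4 t ht hts, if_neg ht, if_neg ht, if_neg hts, if_neg hts]
  have hsumt := Finset.sum_congr (rfl : (Finset.univ : Finset K) = Finset.univ)
    (fun t _ => hterm t)
  simp only [Finset.sum_add_distrib, Finset.sum_ite_eq', Finset.mem_univ, if_true,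
    Finset.sum_const, Finset.card_univ, smul_eq_mul] at hsumt
  rw [hsum, g1, Nat.card_eq_fintype_card]
  omega

end Pool.Agent.Lib.MP_4c1f79_al
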