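import Pool.Agent.Lib.MP_4c1f79_al.Stm8

/-!
# MP_4c1f79_al : piece E8m (helper68)
-/

set_option autoImplicit false

namespace Pool.Agent.Lib.MP_4c1f79_al

private theorem e8m_aux (s : P8 → ℕ) (_h0 : s st8 = 1)
    (hb : ∀ p : P8, p ≠ st8 → s p ≤ if p ∈ Q8 then 1 else 0) (h513 : s (5, 13) = 1)
    (h35 : s (3, 5) = 1) (h75 : s (7, 5) = 1)
    (hin : ∀ (v : Fin 8) (k : ℕ) (h : k + 2 < 30), v ≠ 6 → 6 ≤ k + 2 → (v ≠ 5 ∨ k ≠ 13) →
    s (v, ⟨k + 2, h⟩) + s (v, ⟨k, by omega⟩)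
      ≤ ∑ w, if eB v w = true then s (w, ⟨k + 1, by omega⟩) else 0) :
    s (4, 12) = 1 ∧ s (3, 11) = 1 ∧ s (2, 10) = 1 ∧ s (1, 9) = 1 ∧ s (7, 9) = 1 ∧
    s (0, 8) = 1 ∧ s (2, 8) = 1 ∧ s (1, 7) = 1 ∧ s (3, 7) = 1 ∧ s (2, 6) = 1 ∧ s (4, 6) = 1 := by
  have z : ∀ p : P8, p ≠ st8 → p ∉ Q8 → s p = 0 := by
    intro p h1 h2
    have := hb p h1
    rw [if_neg h2] at this
    omega
  have b : ∀ p : P8, p ≠ st8 → s p ≤ 1 := by
    intro p h1
    have := hb p h1
    split_ifs at this <;> omega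
  have b1 := b (4, 12) (by decide)
  have b2 := b (3, 11) (by decide)
  have b3 := b (2, 10) (by decide)
  have b4 := b (1, 9) (by decide)
  have b5 := b (7, 9) (by decide)
  have b6 := b (0, 8) (by decide)
  have b7 := b (2, 8) (by decide)
  have b8 := b (1, 7) (by decide)
  have b9 := b (3, 7) (by decide)
  have b10 := b (2, 6) (by decide)
  have b11 := b (4, 6) (by decide)
  have z1 := z (6, 12) (by decide) (by decide)
  have z2 := z (5, 11) (by decide) (by decide)
  have z3 := z (4, 10) (by decide) (by decide)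
  have z4 := z (3, 9) (by decide) (by decide)
  have z5 := z (7, 7) (by decide) (by decide)
  have z6 := z (4, 8) (by decide) (by decide)
  have z7 := z (5, 7) (by decide) (by decide)
  have i1 := hin 5 11 (by norm_num) (by decide) (by norm_num) (Or.inr (by norm_num))
  have i2 := hin 4 10 (by norm_num) (by decide) (by norm_num) (Or.inl (by decide))
  have i3 := hin 3 9 (by norm_num) (by decide) (by norm_num) (Or.inl (by decide))
  have i4 := hin 2 8 (by norm_num) (by decide) (by norm_num) (Or.inl (by decide))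
  have i5 := hin 7 5 (by norm_num) (by decide) (by norm_num) (Or.inl (by decide))
  have i6 := hin 3 5 (by norm_num) (by decide) (by norm_num) (Or.inl (by decide))
  have i7 := hin 2 6 (by norm_num) (by decide) (by norm_num) (Or.inl (by decide))
  have i8 := hin 3 7 (by norm_num) (by decide) (by norm_num) (Or.inl (by decide))
  have i9 := hin 1 7 (by norm_num) (by decide) (by norm_num) (Or.inl (by decide))
  have i10 := hin 7 7 (by norm_num) (by decide) (by norm_num) (Or.inl (by decide))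
  have i11 := hin 4 6 (by norm_num) (by decide) (by norm_num) (Or.inl (by decide))
  have key : ∀ (v : Fin 8) (f : Fin 8 → ℕ), (∑ w, if eB v w = true then f w else 0) =
      (if eB v 0 then f 0 else 0) + (if eB v 1 then f 1 else 0) + (if eB v 2 then f 2 else 0) +
      (if eB v 3 then f 3 else 0) + (if eB v 4 then f 4 else 0) + (if eB v 5 then f 5 else 0) +
      (if eB v 6 then f 6 else 0) + (if eB v 7 then f 7 else 0) := by
    intro v f
    rw [Fin.sum_univ_eight]
  rw [key] at i1 i2 i3 i4 i5 i6 i7 i8 i9 i10 i11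
  change s (5, 13) + s (5, 11) ≤ 0 + 0 + 0 + 0 + s (4, 12) + 0 + s (6, 12) + 0 at i1
  change s (4, 12) + s (4, 10) ≤ 0 + 0 + 0 + s (3, 11) + 0 + s (5, 11) + 0 + 0 at i2
  change s (3, 11) + s (3, 9) ≤ 0 + 0 + s (2, 10) + 0 + s (4, 10) + 0 + 0 + 0 at i3
  change s (2, 10) + s (2, 8) ≤ 0 + s (1, 9) + 0 + s (3, 9) + 0 + 0 + 0 + s (7, 9) at i4
  change s (7, 7) + s (7, 5) ≤ 0 + 0 + s (2, 6) + 0 + 0 + 0 + 0 + 0 at i5
  change s (3, 7) + s (3, 5) ≤ 0 + 0 + s (2, 6) + 0 + s (4, 6) + 0 + 0 + 0 at i6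
  change s (2, 8) + s (2, 6) ≤ 0 + s (1, 7) + 0 + s (3, 7) + 0 + 0 + 0 + s (7, 7) at i7
  change s (3, 9) + s (3, 7) ≤ 0 + 0 + s (2, 8) + 0 + s (4, 8) + 0 + 0 + 0 at i8
  change s (1, 9) + s (1, 7) ≤ s (0, 8) + 0 + s (2, 8) + 0 + 0 + 0 + 0 + 0 at i9
  change s (7, 9) + s (7, 7) ≤ 0 + 0 + s (2, 8) + 0 + 0 + 0 + 0 + 0 at i10
  change s (4, 8) + s (4, 6) ≤ 0 + 0 + 0 + s (3, 7) + 0 + s (5, 7) + 0 + 0 at i11
  omega

theorem E8m_holds : S_E8m := by
  intro s h0 h6 h14 h5 hb h513 h35 h75 hin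
  obtain ⟨a1, a2, a3, a4, a5, a6, a7, a8, a9, a10, a11⟩ := e8m_aux s h0 hb h513 h35 h75 hin
  have z : ∀ p : P8, p ≠ st8 → p ∉ Q8 → s p = 0 := by
    intro p h1 h2
    have := hb p h1
    rw [if_neg h2] at this
    omega
  have hQ : ∀ p : P8, p ∈ Q8 → p ≠ (5, 5) → s p = 1 := by
    intro p hp hne
    unfold Q8 at hp
    simp only [List.mem_cons, List.not_mem_nil, or_false] at hp
    rcases hp with rfl | rfl | rfl | rfl | rfl | rfl | rfl | rfl | rfl | rfl | rfl | rfl | rfl |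
      rfl | rfl
    all_goals first | assumption | exact absurd rfl hne
  constructor
  · intro h55
    funext p
    unfold s123
    by_cases h1 : p = st8
    · rw [if_pos (Or.inl h1), h1, h0]
    · by_cases h2 : p ∈ Q8
      · rw [if_pos (Or.inr h2)]
        by_cases h3 : p = (5, 5)
        · rw [h3, h55]
        · exact hQ p h2 h3
      · rw [if_neg (by rintro (h | h) <;> contradiction)]
        exact z p h1 h2
  · intro h55
    funext p
    unfold s13
    by_cases h3 : p = (5, 5)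
    · rw [if_neg (fun h => h.2 h3), h3, h55]
    · by_cases h1 : p = st8
      · rw [if_pos ⟨Or.inl h1, h3⟩, h1, h0]
      · by_cases h2 : p ∈ Q8
        · rw [if_pos ⟨Or.inr h2, h3⟩]
          exact hQ p h2 h3
        · rw [if_neg (by rintro ⟨h | h, _⟩ <;> contradiction)]
          exact z p h1 h2

end Pool.Agent.Lib.MP_4c1f79_al
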