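import Pool.Agent.Lib.MP_4c1f79_al.Stm8

/-!
# MP_4c1f79_al : piece E8p
-/

set_option autoImplicit false

namespace Pool.Agent.Lib.MP_4c1f79_al

open Finset Module

theorem E8p_holds (hTHN : S_THN) (hPEM : S_PEM) (hMON : S_MON) (hRPE : S_RPE) (_hFID : S_FID)
    (hFI8 : S_FI8) (hT8c : S_T8c) : S_E8p := by
  intro hPos m hm
  obtain ⟨hs, hadm, horb, -⟩ := hFI8
  refine hPEM P8 M8 s8 1 _ (hadm _) m fun E hE hEU hEm => ?_
  obtain ⟨u, rfl⟩ := (horb E).1 hE
  have hu : u ≠ (2, 0) := by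
    rintro rfl
    exact hEm _ rfl hm
  intro d
  have hdiff : ({p : P8 | p.1 ≠ 6 ∨ (p.2 : ℕ) ≤ 14} : Set P8) \ {p : P8 | p.1 = 6 ∧ (p.2 : ℕ) ≤ 14}
      = U7 := by
    ext p
    constructor
    · rintro ⟨h1, h2⟩
      change p.1 ≠ 6
      intro h6
      rcases h1 with h1 | h1
      · exact h1 h6
      · exact h2 ⟨h6, h1⟩
    · intro h
      exact ⟨Or.inl h, fun h' => h h'.1⟩
  refine hTHN P8 M8 s8 1 {p : P8 | p.1 ≠ 6 ∨ (p.2 : ℕ) ≤ 14} {p : P8 | p.1 = 6 ∧ (p.2 : ℕ) ≤ 14}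
    {u} (hadm _) (fun p => by rw [hs]) (fun p hp => Or.inr hp.2) hE hEU d ?_ ?_ ?_
  · intro p hp hpR x hx htau
    exfalso
    have h1 : p.1 = x.1 := htau.1
    rcases hp with hp | hp
    · exact hp (h1.trans hx.1)
    · exact hpR ⟨h1.trans hx.1, hp⟩
  · intro K _ D hD N hN p hp
    by_cases hd : d p = 0
    · exact Or.inl hd
    right
    have hfin : Finite K := by
      apply Nat.finite_of_card_ne_zero
      rw [D.card_K]
      exact pow_ne_zero _ (by have := D.q_gt; omega)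
    obtain ⟨R, hR, hRs⟩ := hRPE P8 M8 K Set.univ (ind {u}) (fun p hp => absurd (Set.mem_univ p) hp)
    have h1 := hMON P8 M8 K R N.toRp Set.univ hR (fun p hp => absurd (Set.mem_univ p) hp)
      (fun p => by rw [hN.2 p, hRs p]) p
    have h2 : R.dm p ≤ 1 := by
      have hp' : p = (6, p.2) := Prod.ext hp.1 rfl
      rw [hp']
      exact hT8c K R u hR hRs hu p.2 hp.2
    omega
  · intro m' _
    rw [hdiff]
    exact hPos m'

end Pool.Agent.Lib.MP_4c1f79_al
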