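import Pool.Agent.Lib.MP_4c1f79_al.Stm8

/-!
# [J4 E8q] Windows with a piece of row `6`
-/

set_option autoImplicit false

namespace Pool.Agent.Lib.MP_4c1f79_al

open Finset Module

theorem E8q_holds (hTH1 : S_TH1) (hMON : S_MON) (hRPE : S_RPE) (_hFID : S_FID) (hFI8 : S_FI8)
    (hT8b : S_T8b) (hT8c : S_T8c) : S_E8q := by
  intro hC t ht
  obtain ⟨hs, hadm, horb, _⟩ := hFI8
  refine hTH1 P8 M8 s8 1 _ {p : P8 | p.1 = 6 ∧ (t < (p.2 : ℕ) ∧ (p.2 : ℕ) ≤ 14)} (hadm _)
    ?_ ?_ ?_ ?_ ?_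
  · intro p
    rw [hs p]
  · rintro p ⟨_, hp⟩
    exact Or.inr hp
  · rintro p hpU hpR x hx hT
    have h1 : p.1 = x.1 := hT.1
    rcases hpU with h | h
    · exact h (h1.trans hx.1)
    · exact hpR ⟨h1.trans hx.1, h⟩
  · intro E hE hEU K _ D hr N hN p hp
    obtain ⟨u, rfl⟩ := (horb E).1 hE
    have hfin : Finite K := by
      apply Nat.finite_of_card_ne_zero
      rw [D.card_K]
      exact pow_ne_zero _ (by have := D.q_gt; omega)
    have hp6 : p = (6, p.2) := Prod.ext hp.1 rfl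
    by_cases hu : u = (2, 0)
    · subst hu
      obtain ⟨R, hR, hRs⟩ := hRPE P8 M8 K
        {p : P8 | p.1 ≠ 6 ∨ (4 < (p.2 : ℕ) ∧ (p.2 : ℕ) ≤ 14)} (ind {((2, 0) : P8)}) (by
          intro q hq
          rw [ind, Set.indicator_of_notMem]
          intro h
          rw [Set.mem_singleton_iff] at h
          subst h
          exact hq (Or.inl (by decide)))
      have h1 := hMON P8 M8 K R N.toRp _ hR (by
        intro q hq x
        apply hN.1.1 q
        intro hqU
        apply hq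
        rcases hqU with h | h
        · exact Or.inl h
        · exact Or.inr ⟨lt_of_le_of_lt ht h.1, h.2⟩) (by
        intro q
        rw [hN.2 q, hRs q]) p
      rw [hp6] at h1 ⊢
      exact h1.trans (hT8b K R hR hRs p.2 hp.2.2)
    · obtain ⟨R, hR, hRs⟩ := hRPE P8 M8 K Set.univ (ind {u}) (by
          intro q hq
          exact absurd (Set.mem_univ q) hq)
      have h1 := hMON P8 M8 K R N.toRp _ hR (by
        intro q hq
        exact absurd (Set.mem_univ q) hq) (by
        intro q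
        rw [hN.2 q, hRs q]) p
      rw [hp6] at h1 ⊢
      exact h1.trans (hT8c K R u hR hRs hu p.2 hp.2.2)
  · have h1 : ({p : P8 | p.1 ≠ 6 ∨ (t < (p.2 : ℕ) ∧ (p.2 : ℕ) ≤ 14)} \
        {p : P8 | p.1 = 6 ∧ (t < (p.2 : ℕ) ∧ (p.2 : ℕ) ≤ 14)}) = U7 := by
      ext p
      constructor
      · rintro ⟨h | h, h2⟩
        · exact h
        · intro h6
          exact h2 ⟨h6, h⟩
      · intro h
        exact ⟨Or.inl h, fun h2 => h h2.1⟩
    rw [h1]
    exact hC

end Pool.Agent.Lib.MP_4c1f79_al
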