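import Pool.Agent.Lib.MP_4c1f79_al.Stm8

/-!
# [J4 E8r] The non-special dimension vectors
-/

set_option autoImplicit false

namespace Pool.Agent.Lib.MP_4c1f79_al

open Finset Module

private theorem E8r_tab1 : ∀ k : Fin 30, (k : ℕ) ≠ 14 → tval T8 6 k ≤ 1 := by decide +kernel

private theorem E8r_tab2 : ∀ k : Fin 30, (k : ℕ) = 14 → tval T8 6 k = 2 := by decide +kernel

private theorem E8r_tab3 : ∀ k : Fin 30, (k : ℕ) < 14 → tval T8 6 k ≠ 0 →
    4 ≤ (k : ℕ) ∧ tval T8 6 ((k : ℕ) - 1) = 0 := by decide +kernel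

theorem E8r_holds (hTHN : S_THN) (hFI8 : S_FI8) (hE8p : S_E8p) (hE8q : S_E8q) (hT8a : S_T8a)
    (hDQ1 : S_DQ1) : S_E8r := by
  classical
  intro hU7 d hd
  obtain ⟨hs, hadm, horb, -⟩ := hFI8
  have hdm : ∀ (K : Type) [Field K] (D : Fd K) (N : FM M8 s8 K D),
      N.GT Set.univ (ind {((2, 0) : P8)}) → ∀ p : P8, N.toRp.dm p = tval T8 p.1 p.2 :=
    fun K _ D N hN => hT8a K N.toRp hN.1 hN.2
  by_cases hA : ∃ k : Fin 30, tval T8 6 k < d (6, k)
  · -- no subs at all
    obtain ⟨k, hk⟩ := hA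
    refine ⟨{0}, fun K _ D hD N hN => ⟨0, Finset.mem_singleton_self _, ?_⟩⟩
    rw [Polynomial.eval_zero, FM.cnt]
    have h1 : IsEmpty {W : Submodule K N.T // N.St W ∧ ∀ p, N.toRp.dmS W p = d p} := by
      refine ⟨fun W => ?_⟩
      obtain ⟨W, -, hW⟩ := W
      obtain ⟨-, -, h3, -, h5, -⟩ := hDQ1 P8 M8 K
      have h6 := h5 N.toRp W ⊤ le_top (6, k)
      rw [h3, hW, hdm K D N hN] at h6
      have h7 : tval T8 ((6, k) : P8).1 ((6, k) : P8).2 = tval T8 6 k := rfl
      rw [h7] at h6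
      omega
    exact Nat.card_of_isEmpty
  push Not at hA
  have hTau : ∀ p x : P8, M8.Tau p x → p.1 = x.1 ∧ (p.2 : ℕ) = x.2 + 2 := fun p x h => h
  have hdrow : ∀ (K : Type) [Field K] (D : Fd K) (N : FM M8 s8 K D),
      N.GT Set.univ (ind {((2, 0) : P8)}) → ∀ p : P8, p.1 = 6 → (p.2 : ℕ) ≠ 14 →
      d p = 0 ∨ N.toRp.dm p ≤ d p := by
    intro K _ D N hN p hp hp14
    rw [hdm K D N hN p]
    obtain ⟨v, k⟩ := p
    have hv : v = 6 := hp
    subst hv
    have h1 := E8r_tab1 k hp14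
    have h2 : tval T8 ((6, k) : P8).1 ((6, k) : P8).2 = tval T8 6 k := rfl
    rw [h2]
    omega
  by_cases hB1 : d (6, 14) = 1
  swap
  · -- the whole row
    have h1 := hTHN P8 M8 s8 1 Set.univ R6 {((2, 0) : P8)} (hadm _)
      (fun p => by rw [hs]) (Set.subset_univ _) ((horb _).2 ⟨_, rfl⟩) (Set.subset_univ _) d
      (fun p _ hp x hx hpx => absurd ((hTau p x hpx).1.trans hx) hp)
      (fun K _ D hD N hN p hp => by
        by_cases h14 : (p.2 : ℕ) = 14
        · rw [hdm K D N hN p]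
          obtain ⟨v, k⟩ := p
          have hv : v = 6 := hp
          subst hv
          have hk : k = 14 := Fin.ext h14
          subst hk
          have h2 : tval T8 ((6, 14) : P8).1 ((6, 14) : P8).2 = 2 := E8r_tab2 14 rfl
          rw [h2]
          have h3 := hA 14
          have h4 : tval T8 6 ((14 : Fin 30) : ℕ) = 2 := E8r_tab2 14 rfl
          rw [h4] at h3
          omega
        · exact hdrow K D N hN p hp h14)
      (fun m' _ => by
        have h2 : (Set.univ \ R6 : Set P8) = U7 := by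
          ext p
          simp [R6, U7]
        rw [h2]
        exact hU7 m')
    exact h1
  by_cases hB2 : ∃ k : Fin 30, 14 < (k : ℕ) ∧ d (6, k) ≠ 0
  · -- the part above level 14
    obtain ⟨k, hk, hk0⟩ := hB2
    exact hTHN P8 M8 s8 1 Set.univ {p : P8 | p.1 = 6 ∧ 14 < (p.2 : ℕ)} {((2, 0) : P8)} (hadm _)
      (fun p => by rw [hs]) (Set.subset_univ _) ((horb _).2 ⟨_, rfl⟩) (Set.subset_univ _) d
      (fun p _ hp x hx hpx => by
        exfalso
        apply hp
        obtain ⟨h2, h3⟩ := hTau p x hpx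
        obtain ⟨h4, h5⟩ := hx
        refine ⟨h2.trans h4, ?_⟩
        show 14 < (p.2 : ℕ)
        have h6 : 14 < (x.2 : ℕ) := h5
        omega)
      (fun K _ D hD N hN p hp => hdrow K D N hN p hp.1 (by
        have h6 : 14 < (p.2 : ℕ) := hp.2
        omega))
      (fun m' hm' => by
        have h2 : (Set.univ \ {p : P8 | p.1 = 6 ∧ 14 < (p.2 : ℕ)} : Set P8) =
            {p : P8 | p.1 ≠ 6 ∨ (p.2 : ℕ) ≤ 14} := by
          ext p
          simp only [Set.mem_diff, Set.mem_univ, true_and, Set.mem_setOf_eq]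
          constructor
          · intro h
            by_cases h6 : p.1 = 6
            · right
              by_contra h7
              exact h ⟨h6, by omega⟩
            · exact Or.inl h6
          · rintro (h | h) ⟨h6, h7⟩
            · exact h h6
            · omega
        rw [h2]
        exact hE8p hU7 m' (hm' ⟨(6, k), ⟨rfl, hk⟩, hk0⟩ (2, 0) rfl))
  push Not at hB2
  -- a zero below level 14
  have hB3 : ∃ t : Fin 30, 4 ≤ (t : ℕ) ∧ (t : ℕ) < 14 ∧ d (6, t) = 0 ∧
      ∀ k : Fin 30, (k : ℕ) + 1 = t → d (6, k) = 0 := by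
    by_contra hcon
    apply hd
    intro k
    by_cases h14 : (k : ℕ) = 14
    · have hk : k = 14 := Fin.ext h14
      subst hk
      rw [if_pos h14, hB1]
    · rw [if_neg h14]
      by_cases hlt : (k : ℕ) < 14
      · rw [if_pos hlt]
        by_contra hne
        have h1 := hA k
        have h2 := E8r_tab1 k h14
        obtain ⟨h3, h4⟩ := E8r_tab3 k hlt (by omega)
        apply hcon
        refine ⟨k, h3, hlt, by omega, fun j hj => ?_⟩
        have h5 := hA j
        have h6 : (j : ℕ) = k - 1 := by omega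
        rw [h6, h4] at h5
        omega
      · rw [if_neg hlt]
        exact hB2 k (by omega)
  obtain ⟨t, ht4, ht14, ht0, ht1⟩ := hB3
  exact hTHN P8 M8 s8 1 Set.univ {p : P8 | p.1 = 6 ∧ ((p.2 : ℕ) ≤ t ∨ 14 < (p.2 : ℕ))}
    {((2, 0) : P8)} (hadm _)
    (fun p => by rw [hs]) (Set.subset_univ _) ((horb _).2 ⟨_, rfl⟩) (Set.subset_univ _) d
    (fun p _ hp x hx hpx => by
      obtain ⟨h2, h3⟩ := hTau p x hpx
      obtain ⟨h4, h5⟩ := hx
      have h6 : ¬ ((p.2 : ℕ) ≤ t ∨ 14 < (p.2 : ℕ)) := fun h => hp ⟨h2.trans h4, h⟩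
      have h7 : (x.2 : ℕ) ≤ t ∨ 14 < (x.2 : ℕ) := h5
      obtain ⟨v, k⟩ := x
      have hv : v = 6 := h4
      subst hv
      have h8 : (p.2 : ℕ) = (k : ℕ) + 2 := h3
      have h9 : (k : ℕ) ≤ t ∨ 14 < (k : ℕ) := h7
      have h10 : (k : ℕ) = t ∨ (k : ℕ) + 1 = t := by omega
      rcases h10 with h10 | h10
      · have hk : k = t := Fin.ext h10
        rw [hk]
        exact ht0
      · exact ht1 k h10)
    (fun K _ D hD N hN p hp => hdrow K D N hN p hp.1 (by
      have h6 : (p.2 : ℕ) ≤ t ∨ 14 < (p.2 : ℕ) := hp.2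
      omega))
    (fun m' hm' => by
      have h2 : (Set.univ \ {p : P8 | p.1 = 6 ∧ ((p.2 : ℕ) ≤ t ∨ 14 < (p.2 : ℕ))} : Set P8) =
          {p : P8 | p.1 ≠ 6 ∨ ((t : ℕ) < (p.2 : ℕ) ∧ (p.2 : ℕ) ≤ 14)} := by
        ext p
        simp only [Set.mem_diff, Set.mem_univ, true_and, Set.mem_setOf_eq]
        constructor
        · intro h
          by_cases h6 : p.1 = 6
          · right
            by_contra h7
            exact h ⟨h6, by omega⟩
          · exact Or.inl h6
        · rintro (h | h) ⟨h6, h7⟩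
          · exact h h6
          · omega
      rw [h2]
      exact hE8q hU7 t ht4 m')

end Pool.Agent.Lib.MP_4c1f79_al
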