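import Pool.Agent.Lib.MP_4c1f79_al.Stm8

/-!
# [J4 E8s] The special vectors
-/

set_option autoImplicit false

namespace Pool.Agent.Lib.MP_4c1f79_al

open Finset Module

/-- Decomposition of the count by the line at `*`. -/
private theorem E8s_cnt {K : Type} [Field K] {D : Fd K} (N : FM M8 s8 K D) (d : P8 → ℕ)
    (hd : d st8 = 1) :
    N.cnt d = ∑ᶠ L ∈ {L : Submodule K N.T | L ≤ LinearMap.range (N.e st8) ∧ finrank K L = 1},
      N.cntP (fun W => W.map (N.e st8) = L) d := by
  classical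
  have hfS : Finite (Submodule K N.T) :=
    Finite.of_injective (fun p : Submodule K N.T => (p : Set N.T)) SetLike.coe_injective
  let S : Set (Submodule K N.T) :=
    {L | L ≤ LinearMap.range (N.e st8) ∧ finrank K L = 1}
  let Ω : Type := {W : Submodule K N.T // N.St W ∧ ∀ p, N.toRp.dmS W p = d p}
  have hmem : ∀ W : Ω, W.1.map (N.e st8) ∈ S := by
    intro W
    refine ⟨?_, ?_⟩
    · rintro _ ⟨x, _, rfl⟩
      exact ⟨x, rfl⟩
    · have h1 := W.2.2 st8
      rw [hd] at h1
      exact h1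
  let f : Ω → S := fun W => ⟨W.1.map (N.e st8), hmem W⟩
  have : Fintype S := Fintype.ofFinite S
  have hfΩ : Finite Ω := inferInstance
  have h1 : N.cnt d = Nat.card (Σ L : S, {W : Ω // f W = L}) :=
    Nat.card_congr (Equiv.sigmaFiberEquiv f).symm
  have h2 : ∀ L : S, Nat.card {W : Ω // f W = L} =
      N.cntP (fun W => W.map (N.e st8) = (L : Submodule K N.T)) d := by
    intro L
    apply Nat.card_congr
    exact
      { toFun := fun W => ⟨W.1.1, W.1.2.1, congrArg Subtype.val W.2, W.1.2.2⟩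
        invFun := fun W => ⟨⟨W.1, W.2.1, W.2.2.2⟩, Subtype.ext W.2.2.1⟩
        left_inv := fun W => rfl
        right_inv := fun W => rfl }
  rw [h1, Nat.card_sigma, Finset.sum_congr rfl fun L _ => h2 L]
  rw [← finsum_set_coe_eq_finsum_mem, finsum_eq_sum_of_fintype]

/-- A vector in a one-dimensional range. -/
private theorem E8s_line {K V : Type} [Field K] [AddCommGroup V] [Module K V]
    [Module.Finite K V] (E : V →ₗ[K] V) (hE : finrank K (LinearMap.range E) ≤ 1) (x y : V)
    (hx : E x = x) (hy : E y = y) (hx0 : x ≠ 0) : ∃ c : K, y = c • x := by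
  have hx1 : (⟨x, x, hx⟩ : LinearMap.range E) ≠ 0 := by
    intro h
    exact hx0 (congrArg Subtype.val h)
  have h1 : finrank K (LinearMap.range E) = 1 := by
    apply le_antisymm hE
    rw [Nat.one_le_iff_ne_zero]
    intro h0
    have := Module.finrank_zero_iff.1 h0
    exact hx1 (Subsingleton.elim _ _)
  obtain ⟨c, hc⟩ := (finrank_eq_one_iff_of_nonzero' _ hx1).1 h1 ⟨y, y, hy⟩
  exact ⟨c, (congrArg Subtype.val hc).symm⟩

theorem E8s_holds (hE8e : S_E8e) (hE8i : S_E8i) (hE8j : S_E8j) (hE8k : S_E8k) (hE8l : S_E8l)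
    (hRSP : S_RSP) (hEXM : S_EXM) (hT8a : S_T8a) (hT8e : S_T8e) (hFID : S_FID) (hFI8 : S_FI8)
    (_hDQ1 : S_DQ1) (hDQ2 : S_DQ2) : S_E8s := by
  classical
  intro hC d hd
  obtain ⟨hs, hadm, _, _⟩ := hFI8
  choose F1 hF1 using hE8j hC
  choose F3 hF3 using hE8k hC
  have hW : W8 \ {st8} = U7 := by
    ext p
    constructor
    · rintro ⟨h | h, h2⟩
      · exact h
      · exact absurd h h2
    · intro h
      refine ⟨Or.inl h, ?_⟩
      rintro rfl
      exact h rfl
  have hR2 := hRSP P8 M8 s8 1 W8 {st8} (by rw [hW]; exact hC) mT8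
  choose F2 hF2 using hR2
  refine ⟨insert 0 ((box d).biUnion fun d' => (F1 d' ×ˢ (F2 d' ×ˢ F3 d')).image
    fun f => f.1 + f.2.1 + f.2.2), ?_⟩
  intro K _ D hr N hN
  have hfinK : Finite K := by
    apply Nat.finite_of_card_ne_zero
    rw [D.card_K]
    exact pow_ne_zero _ (by have := D.q_gt; omega)
  have hcard : Nat.card K = D.q := by rw [D.card_K, hr, pow_one]
  have hFN : Module.Finite K N.T := Module.Finite.of_finite
  -- the modules `J1, J2, J3`
  have hex : ∀ u : P8, u ∈ W8 → ∃ J : FM M8 s8 K D, J.GT W8 (ind {u}) := by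
    intro u hu
    apply hEXM P8 M8 s8 K D W8 (by rw [hr]; exact hadm _) (ind {u})
    · intro p
      rw [hs p]
    · intro p hp
      rw [ind, Set.indicator_of_notMem]
      intro h
      rw [Set.mem_singleton_iff] at h
      exact hp (h ▸ hu)
  obtain ⟨J1, hJ1⟩ := hex (3, 5) (Or.inl (by decide))
  obtain ⟨J2, hJ2⟩ := hex (5, 5) (Or.inl (by decide))
  obtain ⟨J3, hJ3⟩ := hex (7, 5) (Or.inl (by decide))
  have hFJ1 : Module.Finite K J1.T := Module.Finite.of_finite
  have hFJ2 : Module.Finite K J2.T := Module.Finite.of_finite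
  have hFJ3 : Module.Finite K J3.T := Module.Finite.of_finite
  have e1 : J1.toRp.dm st8 = 1 := by
    rw [hT8e K J1.toRp (3, 5) (by decide : ((3 : Fin 8) ≠ 6)) hJ1.1 hJ1.2]
    decide
  have e2 : J2.toRp.dm st8 = 1 := by
    rw [hT8e K J2.toRp (5, 5) (by decide : ((5 : Fin 8) ≠ 6)) hJ2.1 hJ2.2]
    decide
  have e3 : J3.toRp.dm st8 = 1 := by
    rw [hT8e K J3.toRp (7, 5) (by decide : ((7 : Fin 8) ≠ 6)) hJ3.1 hJ3.2]
    decide
  have hne : ∀ J : FM M8 s8 K D, J.toRp.dm st8 = 1 → ∃ w : J.T, J.e st8 w = w ∧ w ≠ 0 := by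
    intro J hJ
    have h1 : LinearMap.range (J.e st8) ≠ ⊥ := by
      intro h
      rw [Rp.dm, h, finrank_bot] at hJ
      exact zero_ne_one hJ
    obtain ⟨w, ⟨y, hy⟩, hw⟩ := Submodule.exists_mem_ne_zero_of_ne_bot h1
    exact ⟨w, by rw [← hy, J.e_e], hw⟩
  obtain ⟨w1, hw1, hw10⟩ := hne J1 e1
  obtain ⟨w2, hw2, hw20⟩ := hne J2 e2
  obtain ⟨w3, hw3, hw30⟩ := hne J3 e3
  -- the product
  obtain ⟨_, hsc, hgood, _, _⟩ := hDQ2 P8 M8 K
  have hJ : (J1.prod (J2.prod J3)).GT W8 mT8 := by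
    refine ⟨hgood _ _ _ hJ1.1 (hgood _ _ _ hJ2.1 hJ3.1), ?_⟩
    intro p
    have h1 : (J1.prod (J2.prod J3)).toRp.sc p = J1.toRp.sc p + (J2.toRp.sc p + J3.toRp.sc p) :=
      (hsc J1.toRp (J2.prod J3).toRp p).trans (congrArg _ (hsc J2.toRp J3.toRp p))
    rw [h1, hJ1.2, hJ2.2, hJ3.2, mT8]
    simp only [ind, Set.indicator_apply, Set.mem_singleton_iff, Set.mem_insert_iff, Pi.one_apply]
    by_cases h35 : p = (3, 5)
    · subst h35
      simp
    · by_cases h55 : p = (5, 5)
      · subst h55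
        simp
      · by_cases h75 : p = (7, 5)
        · subst h75
          simp
        · simp [h35, h55, h75]
  obtain ⟨j, hj1, hj2, hj3, hj4⟩ := hE8e K D hr N _ hN hJ
  by_cases hle : ∀ p, N.toRp.dmS (S12 N.toRp) p ≤ d p
  swap
  · refine ⟨0, Finset.mem_insert_self _ _, ?_⟩
    rw [E8s_cnt N d (hd 14), Polynomial.eval_zero]
    have h0 : ∀ L : Submodule K N.T,
        (∑ᶠ (_ : L ∈ {L : Submodule K N.T | L ≤ LinearMap.range (N.e st8) ∧ finrank K L = 1}),
          N.cntP (fun W => W.map (N.e st8) = L) d) = 0 := by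
      intro L
      by_cases hL : L ∈ {L : Submodule K N.T |
          L ≤ LinearMap.range (N.e st8) ∧ finrank K L = 1}
      · rw [finsum_eq_if, if_pos hL]
        obtain ⟨hL1, hL2⟩ := hL
        obtain ⟨v, hv0, hv⟩ := finrank_eq_one_iff'.1 hL2
        have hLv : L = K ∙ (v : N.T) := by
          apply le_antisymm
          · intro x hx
            obtain ⟨c, hc⟩ := hv ⟨x, hx⟩
            rw [Submodule.mem_span_singleton]
            exact ⟨c, congrArg Subtype.val hc⟩
          · rw [Submodule.span_singleton_le_iff_mem]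
            exact v.2
        have hve : N.e st8 (v : N.T) = v := by
          obtain ⟨y, hy⟩ := hL1 v.2
          rw [← hy, N.e_e]
        rw [hLv]
        exact (hj4 d hd v hve (fun h => hv0 (Subtype.ext h))).2 hle
      · rw [finsum_eq_if, if_neg hL]
    rw [finsum_congr h0, finsum_zero]
  -- the main case
  let d' : P8 → ℕ := fun p => d p - N.toRp.dmS (S12 N.toRp) p
  let c1 : N.T →ₗ[K] J1.T := (LinearMap.fst K J1.T (J2.T × J3.T)).comp j
  let c2 : N.T →ₗ[K] J2.T := ((LinearMap.fst K J2.T J3.T).comp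
    (LinearMap.snd K J1.T (J2.T × J3.T))).comp j
  let c3 : N.T →ₗ[K] J3.T := ((LinearMap.snd K J2.T J3.T).comp
    (LinearMap.snd K J1.T (J2.T × J3.T))).comp j
  have hjc : ∀ v, j v = ((c1 v, (c2 v, c3 v)) : J1.T × (J2.T × J3.T)) := fun v => rfl
  have hc1 : ∀ v, J1.e st8 (c1 v) = c1 v := fun v => congrArg Prod.fst (hj1 v)
  have hc2 : ∀ v, J2.e st8 (c2 v) = c2 v := fun v => congrArg (fun x => x.2.1) (hj1 v)
  have hc3 : ∀ v, J3.e st8 (c3 v) = c3 v := fun v => congrArg (fun x => x.2.2) (hj1 v)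
  let X : Submodule K N.T := LinearMap.range (N.e st8)
  have hX : ∀ v ∈ X, N.e st8 v = v := by
    rintro _ ⟨y, rfl⟩
    exact N.e_e _ _
  have hX2 : finrank K X = 2 := by
    have := hT8a K N.toRp hN.1 hN.2 st8
    exact this.trans (by decide)
  have hr1 : finrank K (X.map c1) ≤ 1 := by
    rw [← e1]
    apply Submodule.finrank_mono
    rintro _ ⟨v, _, rfl⟩
    exact ⟨c1 v, hc1 v⟩
  have hr2 : finrank K (X.map c2) ≤ 1 := by
    rw [← e2]
    apply Submodule.finrank_mono
    rintro _ ⟨v, _, rfl⟩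
    exact ⟨c2 v, hc2 v⟩
  have hr3 : finrank K (X.map c3) ≤ 1 := by
    rw [← e3]
    apply Submodule.finrank_mono
    rintro _ ⟨v, _, rfl⟩
    exact ⟨c3 v, hc3 v⟩
  -- two components zero
  have h12 : ∀ v ∈ X, c1 v = 0 → c2 v = 0 → v = 0 := by
    intro v hv h1 h2
    by_contra hv0
    have h3 : c3 v ≠ 0 := by
      intro h3
      apply hv0
      apply hj2 v (hX v hv)
      rw [hjc, h1, h2, h3]
      rfl
    let ε : (J1.prod (J2.prod J3)).T →ₗ[K] (J1.prod (J2.prod J3)).T :=
      { toFun := fun x => ((0, (0, x.2.2)) : J1.T × (J2.T × J3.T))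
        map_add' := fun x y => Prod.ext (add_zero _).symm (Prod.ext (add_zero _).symm rfl)
        map_smul' := fun c x => Prod.ext (smul_zero c).symm
          (Prod.ext (smul_zero c).symm rfl) }
    have hε : ε ∈ Rp.Hm (J1.prod (J2.prod J3)).toRp (J1.prod (J2.prod J3)).toRp := by
      constructor
      · intro p x
        exact Prod.ext (map_zero (J1.e p)).symm (Prod.ext (map_zero (J2.e p)).symm rfl)
      · intro x
        exact Prod.ext (map_zero J1.a).symm (Prod.ext (map_zero J2.a).symm rfl)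
    obtain ⟨c, hc⟩ := hj3 ε hε (by
      intro v' hv'
      obtain ⟨t, ht⟩ := E8s_line (J3.e st8) e3.le _ _ (hc3 v) (hc3 v') h3
      refine ⟨t • v, ?_, ?_⟩
      · rw [map_smul, hX v hv]
      · rw [map_smul]
        change ((0, (0, c3 v')) : J1.T × (J2.T × J3.T)) = (t • c1 v, (t • c2 v, t • c3 v))
        rw [h1, h2, smul_zero, smul_zero, ← ht])
    have k1 := hc (w1, (0, 0)) (Prod.ext hw1 (Prod.ext (map_zero (J2.e st8)) (map_zero (J3.e st8))))
    have k3 := hc (0, (0, w3)) (Prod.ext (map_zero (J1.e st8)) (Prod.ext (map_zero (J2.e st8)) hw3))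
    have k1' : (0 : J1.T) = c • w1 := congrArg Prod.fst k1
    have k3' : w3 = c • w3 := congrArg (fun x => x.2.2) k3
    have hc0 : c = 0 := (smul_eq_zero.1 k1'.symm).resolve_right hw10
    rw [hc0, zero_smul] at k3'
    exact hw30 k3'
  have h13 : ∀ v ∈ X, c1 v = 0 → c3 v = 0 → v = 0 := by
    intro v hv h1 h3
    by_contra hv0
    have h2 : c2 v ≠ 0 := by
      intro h2
      apply hv0
      apply hj2 v (hX v hv)
      rw [hjc, h1, h2, h3]
      rfl
    let ε : (J1.prod (J2.prod J3)).T →ₗ[K] (J1.prod (J2.prod J3)).T :=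
      { toFun := fun x => ((0, (x.2.1, 0)) : J1.T × (J2.T × J3.T))
        map_add' := fun x y => Prod.ext (add_zero _).symm (Prod.ext rfl (add_zero _).symm)
        map_smul' := fun c x => Prod.ext (smul_zero c).symm
          (Prod.ext rfl (smul_zero c).symm) }
    have hε : ε ∈ Rp.Hm (J1.prod (J2.prod J3)).toRp (J1.prod (J2.prod J3)).toRp := by
      constructor
      · intro p x
        exact Prod.ext (map_zero (J1.e p)).symm (Prod.ext rfl (map_zero (J3.e p)).symm)
      · intro x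
        exact Prod.ext (map_zero J1.a).symm (Prod.ext rfl (map_zero J3.a).symm)
    obtain ⟨c, hc⟩ := hj3 ε hε (by
      intro v' hv'
      obtain ⟨t, ht⟩ := E8s_line (J2.e st8) e2.le _ _ (hc2 v) (hc2 v') h2
      refine ⟨t • v, ?_, ?_⟩
      · rw [map_smul, hX v hv]
      · rw [map_smul]
        change ((0, (c2 v', 0)) : J1.T × (J2.T × J3.T)) = (t • c1 v, (t • c2 v, t • c3 v))
        rw [h1, h3, smul_zero, smul_zero, ← ht])
    have k1 := hc (w1, (0, 0)) (Prod.ext hw1 (Prod.ext (map_zero (J2.e st8)) (map_zero (J3.e st8))))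
    have k3 := hc (0, (w2, 0)) (Prod.ext (map_zero (J1.e st8)) (Prod.ext hw2 (map_zero (J3.e st8))))
    have k1' : (0 : J1.T) = c • w1 := congrArg Prod.fst k1
    have k3' : w2 = c • w2 := congrArg (fun x => x.2.1) k3
    have hc0 : c = 0 := (smul_eq_zero.1 k1'.symm).resolve_right hw10
    rw [hc0, zero_smul] at k3'
    exact hw20 k3'
  have h23 : ∀ v ∈ X, c2 v = 0 → c3 v = 0 → v = 0 := by
    intro v hv h2 h3
    by_contra hv0
    have h1 : c1 v ≠ 0 := by
      intro h1
      apply hv0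
      apply hj2 v (hX v hv)
      rw [hjc, h1, h2, h3]
      rfl
    let ε : (J1.prod (J2.prod J3)).T →ₗ[K] (J1.prod (J2.prod J3)).T :=
      { toFun := fun x => ((x.1, (0, 0)) : J1.T × (J2.T × J3.T))
        map_add' := fun x y => Prod.ext rfl (Prod.ext (add_zero _).symm (add_zero _).symm)
        map_smul' := fun c x => Prod.ext rfl
          (Prod.ext (smul_zero c).symm (smul_zero c).symm) }
    have hε : ε ∈ Rp.Hm (J1.prod (J2.prod J3)).toRp (J1.prod (J2.prod J3)).toRp := by
      constructor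
      · intro p x
        exact Prod.ext rfl (Prod.ext (map_zero (J2.e p)).symm (map_zero (J3.e p)).symm)
      · intro x
        exact Prod.ext rfl (Prod.ext (map_zero J2.a).symm (map_zero J3.a).symm)
    obtain ⟨c, hc⟩ := hj3 ε hε (by
      intro v' hv'
      obtain ⟨t, ht⟩ := E8s_line (J1.e st8) e1.le _ _ (hc1 v) (hc1 v') h1
      refine ⟨t • v, ?_, ?_⟩
      · rw [map_smul, hX v hv]
      · rw [map_smul]
        change ((c1 v', (0, 0)) : J1.T × (J2.T × J3.T)) = (t • c1 v, (t • c2 v, t • c3 v))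
        rw [h2, h3, smul_zero, smul_zero, ← ht])
    have k1 := hc (0, (w2, 0)) (Prod.ext (map_zero (J1.e st8)) (Prod.ext hw2 (map_zero (J3.e st8))))
    have k3 := hc (w1, (0, 0)) (Prod.ext hw1 (Prod.ext (map_zero (J2.e st8)) (map_zero (J3.e st8))))
    have k1' : (0 : J2.T) = c • w2 := congrArg (fun x => x.2.1) k1
    have k3' : w1 = c • w1 := congrArg Prod.fst k3
    have hc0 : c = 0 := (smul_eq_zero.1 k1'.symm).resolve_right hw20
    rw [hc0, zero_smul] at k3'
    exact hw10 k3'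
  let g : Prop → Prop → Prop → ℕ := fun p1 p2 p3 =>
    CJ J1 J2 J3 (if p1 then 0 else w1) (if p2 then 0 else w2) (if p3 then 0 else w3) d'
  have hg : ∀ v ∈ X, v ≠ 0 →
      N.cntP (fun W => W.map (N.e st8) = K ∙ v) d = g (c1 v = 0) (c2 v = 0) (c3 v = 0) := by
    intro v hv hv0
    rw [(hj4 d hd v (hX v hv) hv0).1 hle]
    apply hE8i K D hr J1 J2 J3 e1.le e2.le e3.le (c1 v) _ (c2 v) _ (c3 v) _ (hc1 v) (hc2 v)
      (hc3 v)
    · split_ifs
      · exact map_zero _
      · exact hw1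
    · split_ifs
      · exact map_zero _
      · exact hw2
    · split_ifs
      · exact map_zero _
      · exact hw3
    · split_ifs with h
      · exact ⟨fun _ => rfl, fun _ => h⟩
      · exact ⟨fun h' => absurd h' h, fun h' => absurd h' hw10⟩
    · split_ifs with h
      · exact ⟨fun _ => rfl, fun _ => h⟩
      · exact ⟨fun h' => absurd h' h, fun h' => absurd h' hw20⟩
    · split_ifs with h
      · exact ⟨fun _ => rfl, fun _ => h⟩
      · exact ⟨fun h' => absurd h' h, fun h' => absurd h' hw30⟩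
  have hmain := hE8l K N.T J1.T J2.T J3.T X c1 c2 c3 hX2 hr1 hr2 hr3 h12 h13 h23
    (fun L => N.cntP (fun W => W.map (N.e st8) = L) d) g hg
  rw [← E8s_cnt N d (hd 14), hcard] at hmain
  have g0 : g False False False = CJ J1 J2 J3 w1 w2 w3 d' := by
    simp only [g, if_false]
  have g1 : g True False False = CJ J1 J2 J3 0 w2 w3 d' := by
    simp only [g, if_false, if_true]
  have g2 : g False True False = CJ J1 J2 J3 w1 0 w3 d' := by
    simp only [g, if_false, if_true]
  have g3 : g False False True = CJ J1 J2 J3 w1 w2 0 d' := by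
    simp only [g, if_false, if_true]
  rw [g0, g1, g2, g3] at hmain
  obtain ⟨f1, hf1, hf1'⟩ := hF1 d' K D hr J1 J2 J3 hJ1 hJ2 hJ3 e1.le e2.le e3.le w1 w2 w3
    hw1 hw2 hw3 hw10 hw20 hw30
  obtain ⟨f3, hf3, hf3'⟩ := hF3 d' K D hr J1 J2 J3 hJ1 hJ2 hJ3 w1 w2 w3
    hw1 hw2 hw3 hw10 hw20 hw30
  -- the count for `(0, w2, w3)`
  obtain ⟨_, _, hFx, _, _, _, _, _⟩ := hFID P8 M8 K D hr
  have hv : ∀ y ∈ (K ∙ ((0, (w2, w3)) : J1.T × (J2.T × J3.T)) :
      Submodule K (J1.T × (J2.T × J3.T))), ∀ p : P8,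
      ((p = st8 ∧ (J1.prod (J2.prod J3)).e p y = y) ∨
        (p ≠ st8 ∧ (J1.prod (J2.prod J3)).e p y = 0)) := by
    intro y hy p
    obtain ⟨t, rfl⟩ := Submodule.mem_span_singleton.1 hy
    by_cases hp : p = st8
    · subst hp
      left
      refine ⟨rfl, ?_⟩
      change (J1.e st8 (t • 0), (J2.e st8 (t • w2), J3.e st8 (t • w3))) =
        (t • (0 : J1.T), (t • w2, t • w3))
      rw [smul_zero, map_zero, map_smul, map_smul, hw2, hw3]
    · right
      refine ⟨hp, ?_⟩
      have q2 : J2.e p w2 = 0 := by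
        rw [← hw2]
        exact J2.e_ne p st8 _ hp
      have q3 : J3.e p w3 = 0 := by
        rw [← hw3]
        exact J3.e_ne p st8 _ hp
      change (J1.e p (t • 0), (J2.e p (t • w2), J3.e p (t • w3))) =
        ((0 : J1.T), ((0 : J2.T), (0 : J3.T)))
      rw [smul_zero, map_zero, map_smul, map_smul, q2, q3, smul_zero, smul_zero]
  obtain ⟨f2, hf2, hf2'⟩ := hF2 d' K D hr (J1.prod (J2.prod J3)) hJ
    (K ∙ ((0, (w2, w3)) : J1.T × (J2.T × J3.T)))
    { e := by
        intro p x hx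
        rcases hv x hx p with ⟨_, h⟩ | ⟨_, h⟩
        · rw [h]
          exact hx
        · rw [h]
          exact Submodule.zero_mem _
      F := by
        intro x hx
        rw [hFx]
        exact hx
      sup := by
        intro p hp x hx
        rcases hv x hx p with ⟨h, _⟩ | ⟨_, h⟩
        · exact absurd h hp
        · exact h
      rs := by
        intro p
        rw [hs p] }
    (by
      intro p hpW hpR x hx hT y _
      exfalso
      rw [Set.mem_singleton_iff] at hx
      subst hx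
      have h1 : p.1 = st8.1 := hT.1
      rcases hpW with h | h
      · exact h h1
      · exact hpR h)
  refine ⟨f1 + f2 + f3, ?_, ?_⟩
  · rw [Finset.mem_insert]
    right
    rw [Finset.mem_biUnion]
    refine ⟨d', mem_box.2 (fun p => Nat.sub_le _ _), ?_⟩
    rw [Finset.mem_image]
    exact ⟨(f1, (f2, f3)), by
      rw [Finset.mem_product, Finset.mem_product]
      exact ⟨hf1, hf2, hf3⟩, rfl⟩
  · rw [Polynomial.eval_add, Polynomial.eval_add, ← hf1', ← hf2']
    have hf2'' : CJ J1 J2 J3 0 w2 w3 d' = (J1.prod (J2.prod J3)).cntP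
      ((J1.prod (J2.prod J3)).Res {st8} (K ∙ ((0, (w2, w3)) : J1.T × (J2.T × J3.T)))) d' := rfl
    rw [← hf2'']
    rw [hf3'] at hmain
    have hq := D.q_gt
    obtain ⟨q, hq'⟩ : ∃ q, D.q = q + 1 := ⟨D.q - 1, by omega⟩
    rw [hq'] at hmain ⊢
    rw [Nat.add_sub_cancel]
    rw [add_mul, one_mul] at hmain
    omega

end Pool.Agent.Lib.MP_4c1f79_al
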