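import Pool.Agent.Lib.MP_4c1f79_al.StmE

/-!
# MP_4c1f79_al : the piece EMB

An `F`-module supported on `U` whose socle type is `ind E` embeds into the good one.
-/

set_option autoImplicit false

namespace Pool.Agent.Lib.MP_4c1f79_al

open Finset Module

section EMBaux

variable {P : Type} [Fintype P] {M : Mesh P} {s : Equiv.Perm P} {K : Type} [Field K] {D : Fd K}

/-- The graded socle. -/
def EMBV (N : FM M s K D) : Submodule K N.T where
  carrier := {x | ∀ p, N.a (N.e p x) = 0}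
  zero_mem' := fun p => by rw [map_zero, map_zero]
  add_mem' := fun {x y} hx hy p => by rw [map_add, map_add, hx p, hy p, add_zero]
  smul_mem' := fun c x hx p => by rw [map_smul, map_smul, hx p, smul_zero]

theorem EMBV_a (N : FM M s K D) {x : N.T} (hx : x ∈ EMBV N) : N.a x = 0 := by
  rw [← N.e_sum x, map_sum]
  exact Finset.sum_eq_zero fun p _ => hx p

theorem EMBV_St (N : FM M s K D) : N.St (EMBV N) := by
  refine ⟨⟨?_, ?_⟩, ?_⟩
  · intro p x hx q
    by_cases h : q = p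
    · subst h
      rw [N.e_e]
      exact hx q
    · rw [N.e_ne q p x h, map_zero]
  · intro x hx
    rw [EMBV_a N hx]
    exact Submodule.zero_mem _
  · intro x hx p
    have h := N.F_e (s.symm p) x
    rw [Equiv.apply_symm_apply] at h
    rw [← h, ← N.F_a, hx, map_zero]

theorem EMB_fix (hDES : S_DES) (hDQ3 : S_DQ3) (N : FM M s K D) (p₀ : P)
    (h : N.toRp.sc p₀ ≠ 0) : ∃ y ∈ EMBV N, N.F y = y ∧ N.e p₀ y ≠ 0 := by
  by_contra hcon
  push Not at hcon
  apply h
  rw [(hDQ3 P M K).2.2.2.2.1 N.toRp p₀]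
  intro x hx hax
  have hxV : x ∈ EMBV N := by
    intro p
    by_cases hp : p = p₀
    · subst hp
      rw [hx]
      exact hax
    · rw [← hx, N.e_ne p p₀ x hp, map_zero]
  have st := EMBV_St N
  obtain ⟨_, hspan⟩ := hDES K D (EMBV N) (N.sub (EMBV N) st).F (N.sub (EMBV N) st).F_r
  have hle : (Submodule.span K {z : (EMBV N) | (N.sub (EMBV N) st).F z = z})
      ≤ LinearMap.ker (N.e p₀ ∘ₗ (EMBV N).subtype) := by
    rw [Submodule.span_le]
    intro z hz
    have h1 : N.F z.1 = z.1 := congrArg Subtype.val hz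
    exact hcon z.1 z.2 h1
  have h2 : (⟨x, hxV⟩ : EMBV N) ∈ LinearMap.ker (N.e p₀ ∘ₗ (EMBV N).subtype) :=
    hle (hspan.ge Submodule.mem_top)
  have h3 : N.e p₀ x = 0 := h2
  rw [← hx, h3]

theorem EMB_F0 (N : FM M s K D) {x : N.T} (h : N.F x = 0) : x = 0 := by
  have h1 := N.F_r x
  obtain ⟨n, hn⟩ : ∃ n, D.r = n + 1 := ⟨D.r - 1, by have := D.r_pos; omega⟩
  rw [hn, Function.iterate_succ_apply, h] at h1
  have h2 : ∀ n : ℕ, (⇑N.F)^[n] (0 : N.T) = 0 := by
    intro n
    induction n with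
    | zero => rfl
    | succ n ih => rw [Function.iterate_succ_apply, map_zero, ih]
  rw [h2] at h1
  exact h1.symm

theorem EMB_ne (N : FM M s K D) {y : N.T} (hy : N.F y = y) {p₀ : P} (h : N.e p₀ y ≠ 0)
    (i : ℕ) : N.e ((⇑s)^[i] p₀) y ≠ 0 := by
  induction i with
  | zero => exact h
  | succ i ih =>
    intro h0
    apply ih
    apply EMB_F0 N
    rw [N.F_e, hy, ← Function.iterate_succ_apply' (⇑s) i p₀]
    exact h0

theorem EMB_dual {V : Type} [AddCommGroup V] [Module K V] {v : V} (hv : v ≠ 0) :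
    ∃ l : V →ₗ[K] K, l v = 1 := by
  obtain ⟨l, hl⟩ := LinearMap.exists_leftInverse_of_injective (LinearMap.toSpanSingleton K V v)
    (LinearMap.ker_toSpanSingleton K hv)
  refine ⟨l, ?_⟩
  have h := congrArg (fun f => f (1 : K)) hl
  simpa using h

theorem EMB_one {V : Type} [AddCommGroup V] [Module K V] (S : Submodule K V)
    (hS : finrank K S = 1) {v w : V} (hv : v ∈ S) (hv0 : v ≠ 0) (hw : w ∈ S) :
    ∃ c : K, w = c • v := by
  have h0 : (⟨v, hv⟩ : S) ≠ 0 := by
    intro h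
    exact hv0 (congrArg Subtype.val h)
  obtain ⟨c, hc⟩ := (finrank_eq_one_iff_of_nonzero' (⟨v, hv⟩ : S) h0).1 hS ⟨w, hw⟩
  exact ⟨c, (congrArg Subtype.val hc).symm⟩

end EMBaux

theorem EMB_holds (hEXF : S_EXF) (hDES : S_DES) (hSOC : S_SOC) (hDQ3 : S_DQ3) : S_EMB := by
  classical
  intro P _ M s K _ D U X N E hE hN hX hsc
  obtain ⟨p₀, hp₀⟩ := id hE
  have hp₀E : p₀ ∈ E := by
    rw [hp₀]
    exact ⟨0, rfl⟩
  have ind1 : ∀ p ∈ E, ind E p = 1 := fun p hp => by simp [ind, hp]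
  have ind0 : ∀ p, p ∉ E → ind E p = 0 := fun p hp => by simp [ind, hp]
  obtain ⟨y, hyV, hyF, hy0⟩ := EMB_fix hDES hDQ3 X p₀ (by
    rw [hsc, ind1 p₀ hp₀E]
    exact one_ne_zero)
  obtain ⟨y', hyV', hyF', hy0'⟩ := EMB_fix hDES hDQ3 N p₀ (by
    rw [hN.2, ind1 p₀ hp₀E]
    exact one_ne_zero)
  have hyE : ∀ p ∈ E, X.e p y ≠ 0 := by
    intro p hp
    rw [hp₀] at hp
    obtain ⟨i, rfl⟩ := hp
    exact EMB_ne X hyF hy0 i
  have hyE' : ∀ p, p ∉ E → N.e p y' = 0 := by
    intro p hp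
    have h1 : N.toRp.sc p = 0 := by rw [hN.2 p, ind0 p hp]
    exact ((hDQ3 P M K).2.2.2.2.1 N.toRp p).1 h1 (N.e p y') (N.e_e p y') (hyV' p)
  have hlam : ∀ p, ∃ l : X.T →ₗ[K] K, p ∈ E → l (X.e p y) = 1 := by
    intro p
    by_cases hp : p ∈ E
    · obtain ⟨l, hl⟩ := EMB_dual (K := K) (hyE p hp)
      exact ⟨l, fun _ => hl⟩
    · exact ⟨0, fun h => absurd h hp⟩
  choose l hl using hlam
  have key : ∀ w ∈ EMBV X, ∀ p, X.e p w = l p (X.e p w) • X.e p y := by
    intro w hw p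
    by_cases hp : p ∈ E
    · have h1 : finrank K (LinearMap.range (X.e p) ⊓ LinearMap.ker X.a : Submodule K X.T) = 1 := by
        have := hsc p
        rw [ind1 p hp] at this
        exact this
      obtain ⟨c, hc⟩ := EMB_one (LinearMap.range (X.e p) ⊓ LinearMap.ker X.a) h1
        (v := X.e p y) (w := X.e p w) ⟨⟨y, rfl⟩, hyV p⟩ (hyE p hp) ⟨⟨w, rfl⟩, hw p⟩
      have h2 : l p (X.e p w) = c := by
        rw [hc, map_smul, hl p hp, smul_eq_mul, mul_one]
      rw [h2]
      exact hc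
    · have h1 : X.toRp.sc p = 0 := by rw [hsc p, ind0 p hp]
      have h2 := ((hDQ3 P M K).2.2.2.2.1 X.toRp p).1 h1 (X.e p w) (X.e_e p w) (hw p)
      rw [h2, map_zero, zero_smul]
  have st := EMBV_St X
  let g : (X.sub (EMBV X) st).T →ₗ[K] N.T :=
    ∑ p, (l p ∘ₗ X.e p ∘ₗ (EMBV X).subtype).smulRight (N.e p y')
  have g_apply : ∀ w : (EMBV X), g w = ∑ p, l p (X.e p w.1) • N.e p y' := by
    intro w
    change (∑ p, (l p ∘ₗ X.e p ∘ₗ (EMBV X).subtype).smulRight (N.e p y')) w = _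
    rw [LinearMap.sum_apply]
    rfl
  have g_mem : g ∈ FM.HmF (X.sub (EMBV X) st) N := by
    refine ⟨⟨?_, ?_⟩, ?_⟩
    · intro q w
      change g (⟨X.e q w.1, st.1.1 q w.1 w.2⟩ : EMBV X) = N.e q (g w)
      rw [g_apply, g_apply w, map_sum, Finset.sum_eq_single q, Finset.sum_eq_single q]
      · rw [map_smul, N.e_e]
        change l q (X.e q (X.e q w.1)) • _ = _
        rw [X.e_e]
      · intro p _ hp
        rw [map_smul, N.e_ne q p _ (fun h => hp h.symm), smul_zero]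
      · intro h
        exact absurd (Finset.mem_univ q) h
      · intro p _ hp
        change l p (X.e p (X.e q w.1)) • _ = _
        rw [X.e_ne p q _ hp, map_zero, zero_smul]
      · intro h
        exact absurd (Finset.mem_univ q) h
    · intro w
      change g (⟨X.a w.1, st.1.2 w.1 w.2⟩ : EMBV X) = N.a (g w)
      rw [g_apply, g_apply w, map_sum, Finset.sum_eq_zero, Finset.sum_eq_zero]
      · intro p _
        rw [map_smul, hyV' p, smul_zero]
      · intro p _
        change l p (X.e p (X.a w.1)) • _ = _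
        rw [EMBV_a X w.2, map_zero, map_zero, zero_smul]
    · intro w
      change g (⟨X.F w.1, st.2 w.1 w.2⟩ : EMBV X) = N.F (g w)
      rw [g_apply, g_apply w, map_sum, ← Equiv.sum_comp s]
      apply Finset.sum_congr rfl
      intro p _
      change l (s p) (X.e (s p) (X.F w.1)) • N.e (s p) y' = N.F (l p (X.e p w.1) • N.e p y')
      rw [map_smulₛₗ, N.F_e, hyF', ← X.F_e, key w.1 w.2 p, map_smulₛₗ, X.F_e, hyF, map_smul]
      by_cases hp : s p ∈ E
      · rw [hl (s p) hp]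
        congr 1
        have hpE : l p (X.e p w.1) = l p (l p (X.e p w.1) • X.e p y) := by
          rw [← key w.1 w.2 p]
        rw [smul_eq_mul, mul_one, ← hpE]
      · rw [hyE' (s p) hp, smul_zero, smul_zero]
  obtain ⟨f, hf, hf2⟩ := hEXF P M s K D N X U hN.1 hX (EMBV X) st g g_mem
  refine ⟨f, hf, ?_⟩
  rw [← LinearMap.ker_eq_bot]
  by_contra hker
  have hst : X.St (LinearMap.ker f) := by
    refine ⟨⟨?_, ?_⟩, ?_⟩
    · intro p x hx
      have h1 : f x = 0 := hx
      change f (X.e p x) = 0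
      rw [hf.1.1 p x, h1, map_zero]
    · intro x hx
      have h1 : f x = 0 := hx
      change f (X.a x) = 0
      rw [hf.1.2 x, h1, map_zero]
    · intro x hx
      have h1 : f x = 0 := hx
      change f (X.F x) = 0
      rw [hf.2 x, h1, map_zero]
  have h1 := hSOC P M s K D X E hE hsc (LinearMap.ker f) hst hker p₀ hp₀E (X.e p₀ y)
    (X.e_e p₀ y) (hyV p₀)
  have h2 : f (X.e p₀ y) = 0 := h1
  have hmem : X.e p₀ y ∈ EMBV X := st.1.1 p₀ y hyV
  have h3 : g (⟨X.e p₀ y, hmem⟩ : EMBV X) = 0 := by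
    rw [← hf2 (⟨X.e p₀ y, hmem⟩ : EMBV X)]
    exact h2
  rw [g_apply, Finset.sum_eq_single p₀] at h3
  · have h4 : l p₀ (X.e p₀ (X.e p₀ y)) • N.e p₀ y' = 0 := h3
    rw [X.e_e, hl p₀ hp₀E, one_smul] at h4
    exact hy0' h4
  · intro p _ hp
    change l p (X.e p (X.e p₀ y)) • _ = _
    rw [X.e_ne p p₀ _ hp, map_zero, zero_smul]
  · intro h
    exact absurd (Finset.mem_univ p₀) h

end Pool.Agent.Lib.MP_4c1f79_al
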