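import Pool.Agent.Lib.MP_4c1f79_al.StmG

/-!
# MP_4c1f79_al : piece EU1 (helper68)
-/

set_option autoImplicit false

namespace Pool.Agent.Lib.MP_4c1f79_al

theorem EU1_holds : S_EU1 := by
  classical
  intro P _ M u y
  have h1 : ∀ p : P, ((ind ({u} : Set P) p : ℕ) : ℤ) = if p = u then 1 else 0 := by
    intro p
    unfold ind
    rw [Set.indicator_apply]
    simp only [Set.mem_singleton_iff]
    split_ifs <;> simp
  unfold eulN eul sA sT
  simp only [h1]
  have e1 : ∑ p, (if p = u then (1 : ℤ) else 0) * (y p : ℤ) = (y u : ℤ) := by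
    simp only [ite_mul, one_mul, zero_mul, Finset.sum_ite_eq', Finset.mem_univ, if_true]
  have e2 : ∀ R : P → P → Prop, ∑ p, ∑ q, (if R p q then
      (if p = u then (1 : ℤ) else 0) * (y q : ℤ) else 0) =
      ((∑ q, if R u q then y q else 0 : ℕ) : ℤ) := by
    intro R
    rw [Finset.sum_eq_single u]
    · rw [Nat.cast_sum]
      refine Finset.sum_congr rfl fun q _ => ?_
      rw [if_pos rfl, one_mul]
      split_ifs <;> simp
    · intro p _ hp
      refine Finset.sum_eq_zero fun q _ => ?_
      rw [if_neg hp, zero_mul, ite_self]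
    · intro h
      exact absurd (Finset.mem_univ u) h
  rw [e1, e2 M.Ar, e2 M.Tau]

end Pool.Agent.Lib.MP_4c1f79_al
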