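import Pool.Agent.Lib.MP_4c1f79_al.StmA

/-!
# MP_4c1f79_al : the piece EUL

Euler characteristic: if the first and the second cohomology of the pair `(X, Y)` vanish, then the
dimension of the space of morphisms is the value of the Euler form.
-/

set_option autoImplicit false

namespace Pool.Agent.Lib.MP_4c1f79_al

open Finset Module

section EULaux

variable {P : Type} [Fintype P] {M : Mesh P} {K : Type} [Field K]

theorem EUL_ext {X Y : Rp M K} {f g : X.T →ₗ[K] Y.T}
    (h : ∀ p r x, Y.e r (f (X.e p x)) = Y.e r (g (X.e p x))) : f = g := by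
  apply LinearMap.ext
  intro x
  have key : ∀ p, f (X.e p x) = g (X.e p x) := by
    intro p
    rw [← Y.e_sum (f (X.e p x)), ← Y.e_sum (g (X.e p x))]
    exact Finset.sum_congr rfl fun r _ => h p r x
  rw [← X.e_sum x, map_sum, map_sum]
  exact Finset.sum_congr rfl fun p _ => key p

theorem EUL_eq {X Y : Rp M K} {f : X.T →ₗ[K] Y.T} (hf : f ∈ shp X Y (fun p q => p = q))
    (p : P) (x : X.T) : f (X.e p x) = Y.e p (f x) := by
  classical
  have h1 : f (X.e p x) = Y.e p (f (X.e p x)) := by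
    conv_lhs => rw [← Y.e_sum (f (X.e p x))]
    rw [Finset.sum_eq_single p]
    · intro q _ hq
      exact hf p q (fun h => hq h.symm) x
    · intro h
      exact absurd (Finset.mem_univ p) h
  have h2 : Y.e p (f x) = Y.e p (f (X.e p x)) := by
    conv_lhs => rw [← X.e_sum x]
    rw [map_sum, map_sum, Finset.sum_eq_single p]
    · intro q _ hq
      exact hf q p hq x
    · intro h
      exact absurd (Finset.mem_univ p) h
  rw [h1, h2]

theorem EUL_d0mem {X Y : Rp M K} {f : X.T →ₗ[K] Y.T} (hf : f ∈ shp X Y (fun p q => p = q)) :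
    Y.a ∘ₗ f - f ∘ₗ X.a ∈ shp X Y M.Ar := by
  intro p q hpq x
  rw [LinearMap.sub_apply, LinearMap.comp_apply, LinearMap.comp_apply, map_sub, EUL_eq hf p x,
    Y.a_ar p q _ hpq, ← EUL_eq hf q, X.a_ar p q _ hpq, map_zero, sub_zero]

/-- The first differential. -/
noncomputable def EULd0 (X Y : Rp M K) :
    shp X Y (fun p q => p = q) →ₗ[K] shp X Y M.Ar where
  toFun f := ⟨Y.a ∘ₗ f.1 - f.1 ∘ₗ X.a, EUL_d0mem f.2⟩
  map_add' f g := by
    apply Subtype.ext
    apply LinearMap.ext
    intro x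
    simp
    abel
  map_smul' c f := by
    apply Subtype.ext
    apply LinearMap.ext
    intro x
    simp [smul_sub]

open Classical in
/-- The projection of the space of all linear maps onto the maps of the shape `M.Tau`. -/
noncomputable def EULpr (X Y : Rp M K) (h : X.T →ₗ[K] Y.T) : X.T →ₗ[K] Y.T :=
  ∑ p, ∑ r, if M.Tau p r then Y.e r ∘ₗ h ∘ₗ X.e p else 0

theorem EULpr_apply (X Y : Rp M K) (h : X.T →ₗ[K] Y.T) (p r : P) (x : X.T) (hpr : M.Tau p r) :
    Y.e r (EULpr X Y h (X.e p x)) = Y.e r (h (X.e p x)) := by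
  classical
  unfold EULpr
  rw [LinearMap.sum_apply, map_sum, Finset.sum_eq_single p]
  · rw [LinearMap.sum_apply, map_sum, Finset.sum_eq_single r]
    · rw [if_pos hpr]
      simp [Y.e_e, X.e_e]
    · intro r' _ hr'
      by_cases h' : M.Tau p r'
      · exact absurd (M.tau_fun p r' r h' hpr) hr'
      · rw [if_neg h', LinearMap.zero_apply, map_zero]
    · intro h'
      exact absurd (Finset.mem_univ r) h'
  · intro p' _ hp'
    rw [LinearMap.sum_apply, map_sum]
    apply Finset.sum_eq_zero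
    intro r' _
    by_cases h' : M.Tau p' r'
    · rw [if_pos h']
      simp [X.e_ne p' p x hp']
    · rw [if_neg h', LinearMap.zero_apply, map_zero]
  · intro h'
    exact absurd (Finset.mem_univ p) h'

theorem EULpr_mem (X Y : Rp M K) (h : X.T →ₗ[K] Y.T) : EULpr X Y h ∈ shp X Y M.Tau := by
  classical
  intro p r hpr x
  unfold EULpr
  rw [LinearMap.sum_apply, map_sum]
  apply Finset.sum_eq_zero
  intro p' _
  rw [LinearMap.sum_apply, map_sum]
  apply Finset.sum_eq_zero
  intro r' _
  by_cases h' : M.Tau p' r'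
  · rw [if_pos h']
    by_cases hp' : p' = p
    · subst hp'
      have hr' : r ≠ r' := by
        rintro rfl
        exact hpr h'
      simp [Y.e_ne r r' _ hr']
    · simp [X.e_ne p' p x hp']
  · rw [if_neg h', LinearMap.zero_apply, map_zero]

theorem EULpr_add (X Y : Rp M K) (h k : X.T →ₗ[K] Y.T) :
    EULpr X Y (h + k) = EULpr X Y h + EULpr X Y k := by
  apply EUL_ext
  intro p r x
  by_cases hpr : M.Tau p r
  · rw [EULpr_apply X Y _ p r x hpr, LinearMap.add_apply, map_add, LinearMap.add_apply, map_add,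
      EULpr_apply X Y _ p r x hpr, EULpr_apply X Y _ p r x hpr]
  · rw [EULpr_mem X Y _ p r hpr x, LinearMap.add_apply, map_add, EULpr_mem X Y _ p r hpr x,
      EULpr_mem X Y _ p r hpr x, add_zero]

theorem EULpr_smul (X Y : Rp M K) (c : K) (h : X.T →ₗ[K] Y.T) :
    EULpr X Y (c • h) = c • EULpr X Y h := by
  apply EUL_ext
  intro p r x
  by_cases hpr : M.Tau p r
  · rw [EULpr_apply X Y _ p r x hpr, LinearMap.smul_apply, map_smul, LinearMap.smul_apply,
      map_smul, EULpr_apply X Y _ p r x hpr]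
  · rw [EULpr_mem X Y _ p r hpr x, LinearMap.smul_apply, map_smul, EULpr_mem X Y _ p r hpr x,
      smul_zero]

/-- The second differential. -/
noncomputable def EULd1 (X Y : Rp M K) : shp X Y M.Ar →ₗ[K] shp X Y M.Tau where
  toFun g := ⟨EULpr X Y (Y.a ∘ₗ g.1 + g.1 ∘ₗ X.a), EULpr_mem X Y _⟩
  map_add' f g := by
    apply Subtype.ext
    change EULpr X Y _ = EULpr X Y _ + EULpr X Y _
    rw [← EULpr_add]
    congr 1
    apply LinearMap.ext
    intro x
    simp
    abel
  map_smul' c f := by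
    apply Subtype.ext
    change EULpr X Y _ = c • EULpr X Y _
    rw [← EULpr_smul]
    congr 1
    apply LinearMap.ext
    intro x
    simp [smul_add]

theorem EUL_ker0 (X Y : Rp M K) : LinearMap.ker (EULd0 X Y)
    = Submodule.comap (shp X Y (fun p q => p = q)).subtype (Rp.Hm X Y) := by
  ext f
  rw [LinearMap.mem_ker, Submodule.mem_comap]
  constructor
  · intro h
    refine ⟨fun p x => EUL_eq f.2 p x, fun x => ?_⟩
    have h1 := congrArg (fun z => (z : X.T →ₗ[K] Y.T) x) (congrArg Subtype.val h)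
    have h2 : Y.a (f.1 x) - f.1 (X.a x) = 0 := h1
    exact (sub_eq_zero.1 h2).symm
  · intro h
    apply Subtype.ext
    apply LinearMap.ext
    intro x
    change Y.a (f.1 x) - f.1 (X.a x) = 0
    rw [sub_eq_zero]
    exact (h.2 x).symm

theorem EUL_Hm_le (X Y : Rp M K) : Rp.Hm X Y ≤ shp X Y (fun p q => p = q) := by
  intro f hf p q hpq x
  rw [hf.1 p x]
  exact Y.e_ne q p _ (fun h => hpq h.symm)

theorem EULd1_eq (X Y : Rp M K) (g : shp X Y M.Ar) (h : X.T →ₗ[K] Y.T)
    (hh : h ∈ shp X Y M.Tau) : (EULd1 X Y g).1 = h ↔ ∀ p r, M.Tau p r → ∀ x,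
      Y.e r (Y.a (g.1 (X.e p x)) + g.1 (X.a (X.e p x))) = Y.e r (h (X.e p x)) := by
  constructor
  · intro h1 p r hpr x
    rw [← h1]
    exact (EULpr_apply X Y (Y.a ∘ₗ g.1 + g.1 ∘ₗ X.a) p r x hpr).symm
  · intro h1
    apply EUL_ext
    intro p r x
    by_cases hpr : M.Tau p r
    · rw [← h1 p r hpr x]
      exact EULpr_apply X Y (Y.a ∘ₗ g.1 + g.1 ∘ₗ X.a) p r x hpr
    · rw [hh p r hpr x]
      exact EULpr_mem X Y _ p r hpr x

end EULaux

theorem EUL_holds (hLD : S_LD) : S_EUL := by
  classical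
  intro P _ M K _ X Y H1 H2
  have fX : Module.Finite K X.T := Module.Finite.of_finite
  have fY : Module.Finite K Y.T := Module.Finite.of_finite
  have e0 := hLD P M K X Y (fun p q => p = q)
  have e1 := hLD P M K X Y M.Ar
  have e2 := hLD P M K X Y M.Tau
  have r0 := LinearMap.finrank_range_add_finrank_ker (EULd0 X Y)
  have r1 := LinearMap.finrank_range_add_finrank_ker (EULd1 X Y)
  -- the kernel of `d0`
  have k0 : finrank K (LinearMap.ker (EULd0 X Y)) = finrank K (Rp.Hm X Y) := by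
    rw [EUL_ker0]
    exact (Submodule.comapSubtypeEquivOfLe (EUL_Hm_le X Y)).finrank_eq
  -- exactness in the middle
  have k1 : LinearMap.ker (EULd1 X Y) = LinearMap.range (EULd0 X Y) := by
    ext g
    rw [LinearMap.mem_ker, LinearMap.mem_range]
    have z0 : (0 : X.T →ₗ[K] Y.T) ∈ shp X Y M.Tau := Submodule.zero_mem _
    constructor
    · intro h
      have h1 : (EULd1 X Y g).1 = 0 := by rw [h]; rfl
      rw [EULd1_eq X Y g 0 z0] at h1
      obtain ⟨f, hf, hf2⟩ := H1 g.1 g.2 (fun p r hpr x => by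
        rw [h1 p r hpr x, LinearMap.zero_apply, map_zero])
      refine ⟨⟨f, hf⟩, ?_⟩
      apply Subtype.ext
      apply LinearMap.ext
      intro x
      exact (hf2 x).symm
    · rintro ⟨f, rfl⟩
      apply Subtype.ext
      change (EULd1 X Y (EULd0 X Y f)).1 = 0
      rw [EULd1_eq X Y _ 0 z0]
      intro p r hpr x
      change Y.e r (Y.a (Y.a (f.1 (X.e p x)) - f.1 (X.a (X.e p x)))
        + (Y.a (f.1 (X.a (X.e p x))) - f.1 (X.a (X.a (X.e p x))))) = _
      rw [LinearMap.zero_apply, map_zero]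
      have m1 : Y.e r (Y.a (Y.a (f.1 (X.e p x)))) = 0 := by
        rw [EUL_eq f.2 p x]
        exact Y.mesh p r _ hpr
      have m2 : Y.e r (f.1 (X.a (X.a (X.e p x)))) = 0 := by
        rw [← EUL_eq f.2 r, X.mesh p r x hpr, map_zero]
      simp only [map_sub, map_add, m1, m2]
      abel
  -- surjectivity
  have s1 : LinearMap.range (EULd1 X Y) = ⊤ := by
    rw [LinearMap.range_eq_top]
    intro h
    obtain ⟨g, hg, hg2⟩ := H2 h.1
    refine ⟨⟨g, hg⟩, ?_⟩
    apply Subtype.ext
    rw [EULd1_eq X Y _ h.1 h.2]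
    exact hg2
  rw [s1, finrank_top, k1] at r1
  rw [k0] at r0
  have t0 : (∑ p, ∑ q, if p = q then X.dm p * Y.dm q else 0) = ∑ p, X.dm p * Y.dm p := by
    apply Finset.sum_congr rfl
    intro p _
    rw [Finset.sum_ite_eq]
    simp
  have e0' : finrank K (shp X Y (fun p q => p = q)) = ∑ p, X.dm p * Y.dm p := by
    rw [e0]
    exact t0
  unfold eulN eul
  have c0 : (∑ p, (X.dm p : ℤ) * (Y.dm p : ℤ)) = (finrank K (shp X Y (fun p q => p = q)) : ℤ) := by
    rw [e0']
    push_cast
    rfl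
  have c1 : (∑ p, ∑ q, if M.Ar p q then (X.dm p : ℤ) * (Y.dm q : ℤ) else 0)
      = (finrank K (shp X Y M.Ar) : ℤ) := by
    rw [e1]
    push_cast
    rfl
  have c2 : (∑ p, ∑ q, if M.Tau p q then (X.dm p : ℤ) * (Y.dm q : ℤ) else 0)
      = (finrank K (shp X Y M.Tau) : ℤ) := by
    rw [e2]
    push_cast
    rfl
  have r0' : (finrank K (LinearMap.range (EULd0 X Y)) : ℤ) + finrank K (Rp.Hm X Y)
      = finrank K (shp X Y (fun p q => p = q)) := by exact_mod_cast r0
  have r1' : (finrank K (shp X Y M.Tau) : ℤ) + finrank K (LinearMap.range (EULd0 X Y))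
      = finrank K (shp X Y M.Ar) := by exact_mod_cast r1
  have fin : (finrank K (Rp.Hm X Y) : ℤ)
      = finrank K (shp X Y (fun p q => p = q)) - finrank K (shp X Y M.Ar)
        + finrank K (shp X Y M.Tau) := by linarith
  rw [fin, ← c0, ← c1, ← c2]

end Pool.Agent.Lib.MP_4c1f79_al
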