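import Pool.Agent.Lib.MP_4c1f79_al.StmB

/-!
# MP_4c1f79_al : piece EXF (good `F`-modules are injective)
-/

set_option autoImplicit false

namespace Pool.Agent.Lib.MP_4c1f79_al

open Finset Module

variable {P : Type} [Fintype P] {M : Mesh P} {s : Equiv.Perm P} {K : Type} [Field K] {D : Fd K}

/-- the inverse of `F` -/
def EXF_Fi (X : FM M s K D) : X.T → X.T := (⇑X.F)^[D.r - 1]

theorem EXF_Fi_F (X : FM M s K D) (x : X.T) : EXF_Fi X (X.F x) = x := by
  have h1 := X.F_r x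
  have h2 : D.r = (D.r - 1) + 1 := by
    have := D.r_pos
    omega
  rw [h2, Function.iterate_succ_apply] at h1
  exact h1

theorem EXF_F_Fi (X : FM M s K D) (x : X.T) : X.F (EXF_Fi X x) = x := by
  have h1 := X.F_r x
  have h2 : D.r = (D.r - 1) + 1 := by
    have := D.r_pos
    omega
  rw [h2, Function.iterate_succ_apply'] at h1
  exact h1

/-- `N.F ∘ f ∘ X.F⁻¹` as a linear map -/
def EXF_G0 (X N : FM M s K D) (f : X.T →ₗ[K] N.T) : X.T →ₗ[K] N.T where
  toFun x := N.F (f (EXF_Fi X x))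
  map_add' x y := by
    have h1 : EXF_Fi X (x + y) = EXF_Fi X x + EXF_Fi X y := by
      have h2 : X.F (EXF_Fi X x + EXF_Fi X y) = x + y := by
        rw [map_add, EXF_F_Fi, EXF_F_Fi]
      rw [← h2, EXF_Fi_F]
    rw [h1, map_add, map_add]
  map_smul' c x := by
    have h1 : EXF_Fi X (c • x) = D.φ.symm c • EXF_Fi X x := by
      have h2 : X.F (D.φ.symm c • EXF_Fi X x) = c • x := by
        rw [X.F.map_smulₛₗ, EXF_F_Fi]
        congr 1
        exact D.φ.apply_symm_apply c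
      rw [← h2, EXF_Fi_F]
    rw [h1, map_smul, N.F.map_smulₛₗ]
    congr 1
    exact D.φ.apply_symm_apply c

theorem EXF_G0_F (X N : FM M s K D) (f : X.T →ₗ[K] N.T) (x : X.T) :
    EXF_G0 X N f (X.F x) = N.F (f x) := by
  change N.F (f (EXF_Fi X (X.F x))) = N.F (f x)
  rw [EXF_Fi_F]

theorem EXF_G0_mem (X N : FM M s K D) (f : X.T →ₗ[K] N.T) (hf : f ∈ Rp.Hm X.toRp N.toRp) :
    EXF_G0 X N f ∈ Rp.Hm X.toRp N.toRp := by
  refine ⟨?_, ?_⟩
  · intro p x
    obtain ⟨y, rfl⟩ : ∃ y, x = X.F y := ⟨EXF_Fi X x, (EXF_F_Fi X x).symm⟩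
    have h1 : X.e p (X.F y) = X.F (X.e (s.symm p) y) := by
      rw [X.F_e, Equiv.apply_symm_apply]
    rw [h1, EXF_G0_F, EXF_G0_F, hf.1, N.F_e, Equiv.apply_symm_apply]
  · intro x
    obtain ⟨y, rfl⟩ : ∃ y, x = X.F y := ⟨EXF_Fi X x, (EXF_F_Fi X x).symm⟩
    rw [← X.F_a, EXF_G0_F, EXF_G0_F, hf.2, N.F_a]

/-- the semilinear map on the space of morphisms -/
def EXF_G (X N : FM M s K D) :
    (Rp.Hm X.toRp N.toRp) →ₛₗ[(D.φ : K →+* K)] (Rp.Hm X.toRp N.toRp) where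
  toFun f := ⟨EXF_G0 X N f.1, EXF_G0_mem X N f.1 f.2⟩
  map_add' f g := by
    apply Subtype.ext
    apply LinearMap.ext
    intro x
    change N.F ((f.1 + g.1) (EXF_Fi X x)) = N.F (f.1 (EXF_Fi X x)) + N.F (g.1 (EXF_Fi X x))
    rw [LinearMap.add_apply, map_add]
  map_smul' c f := by
    apply Subtype.ext
    apply LinearMap.ext
    intro x
    change N.F ((c • f.1) (EXF_Fi X x)) = D.φ c • N.F (f.1 (EXF_Fi X x))
    rw [LinearMap.smul_apply, N.F.map_smulₛₗ]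
    rfl

theorem EXF_G_iter (X N : FM M s K D) (n : ℕ) (f : Rp.Hm X.toRp N.toRp) (y : X.T) :
    ((⇑(EXF_G X N))^[n] f).1 ((⇑X.F)^[n] y) = (⇑N.F)^[n] (f.1 y) := by
  induction n with
  | zero => rfl
  | succ n ih =>
    rw [Function.iterate_succ_apply', Function.iterate_succ_apply',
      Function.iterate_succ_apply', ← ih]
    exact EXF_G0_F X N _ _

theorem EXF_holds (hEXT : S_EXT) (hTRC : S_TRC) : S_EXF := by
  intro P _ M s K _ D N X U hN hX W hW g hg
  obtain ⟨f₀, hf₀, hfg⟩ := hEXT P M K N.toRp X.toRp U hN hX W hW.1 g hg.1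
  have hiter : ∀ (n : ℕ) (x : X.T), x ∈ W → (⇑X.F)^[n] x ∈ W := by
    intro n
    induction n with
    | zero => exact fun x hx => hx
    | succ n ih =>
      intro x hx
      rw [Function.iterate_succ_apply]
      exact ih _ (hW.2 x hx)
  have hFi : ∀ x ∈ W, EXF_Fi X x ∈ W := fun x hx => hiter _ x hx
  let L : Submodule K (Rp.Hm X.toRp N.toRp) :=
    { carrier := {h | ∀ w ∈ W, h.1 w = 0}
      zero_mem' := fun w _ => rfl
      add_mem' := fun {a b} ha hb w hw => by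
        change a.1 w + b.1 w = 0
        rw [ha w hw, hb w hw, add_zero]
      smul_mem' := fun c a ha w hw => by
        change c • a.1 w = 0
        rw [ha w hw, smul_zero] }
  have hL : ∀ x : Rp.Hm X.toRp N.toRp, x ∈ L ↔ ∀ w ∈ W, x.1 w = 0 := fun x => Iff.rfl
  obtain ⟨x, hx1, hx2⟩ := (hTRC K D).2 (Rp.Hm X.toRp N.toRp) (EXF_G X N) (by
      intro f
      apply Subtype.ext
      apply LinearMap.ext
      intro y
      have h1 := EXF_G_iter X N D.r f y
      rw [X.F_r, N.F_r] at h1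
      exact h1) L ⟨f₀, hf₀⟩ (by
      intro h hh
      rw [hL] at hh ⊢
      intro w hw
      change N.F (h.1 (EXF_Fi X w)) = 0
      rw [hh _ (hFi w hw), map_zero]) (by
      rw [hL]
      intro w hw
      change N.F (f₀ (EXF_Fi X w)) - f₀ w = 0
      have h1 := hfg ⟨w, hw⟩
      have h2 := hfg ⟨EXF_Fi X w, hFi w hw⟩
      have h3 : f₀ w = g ⟨w, hw⟩ := h1
      have h4 : f₀ (EXF_Fi X w) = g ⟨EXF_Fi X w, hFi w hw⟩ := h2
      rw [h3, h4]
      have h5 := hg.2 ⟨EXF_Fi X w, hFi w hw⟩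
      have h6 : (X.sub W hW).F ⟨EXF_Fi X w, hFi w hw⟩ = (⟨w, hw⟩ : W) :=
        Subtype.ext (EXF_F_Fi X w)
      rw [h6] at h5
      rw [← h5, sub_self])
  refine ⟨x.1, ⟨x.2, ?_⟩, ?_⟩
  · intro y
    have h1 : (EXF_G X N x).1 (X.F y) = N.F (x.1 y) := EXF_G0_F X N x.1 y
    rw [hx2] at h1
    exact h1
  · intro w
    rw [hL] at hx1
    have h1 := hx1 w.1 w.2
    have h2 : x.1 w.1 - f₀ w.1 = 0 := h1
    have h3 := sub_eq_zero.1 h2
    exact h3.trans (hfg w)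

end Pool.Agent.Lib.MP_4c1f79_al
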