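import Pool.Agent.Lib.MP_4c1f79_al.StmB

/-!
# [J4 EXT] Good modules are injective
-/

set_option autoImplicit false

namespace Pool.Agent.Lib.MP_4c1f79_al

open Finset Module

/-- lifting with prescribed values on a subspace -/
private theorem EXT_lift {K V R T : Type} [Field K] [AddCommGroup V] [Module K V]
    [AddCommGroup R] [Module K R] [AddCommGroup T] [Module K T] (A : R →ₗ[K] T) (B : V →ₗ[K] T)
    (hAB : ∀ x, ∃ z, A z = B x) (W : Submodule K V) (g : W →ₗ[K] R)
    (hg : ∀ w : W, A (g w) = B w) :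
    ∃ h : V →ₗ[K] R, (∀ x, A (h x) = B x) ∧ ∀ w : W, h w = g w := by
  obtain ⟨h₀, hh₀⟩ := Module.projective_lifting_property A.rangeRestrict
    (B.codRestrict (LinearMap.range A) fun x => by
      obtain ⟨z, hz⟩ := hAB x
      exact ⟨z, hz⟩) A.surjective_rangeRestrict
  have h1 : ∀ x, A (h₀ x) = B x := by
    intro x
    have h2 := LinearMap.congr_fun hh₀ x
    exact congrArg Subtype.val h2
  obtain ⟨k, hk⟩ := LinearMap.exists_extend
    ((g - h₀.comp W.subtype).codRestrict (LinearMap.ker A) fun w => by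
      rw [LinearMap.mem_ker, LinearMap.sub_apply, map_sub, hg, LinearMap.comp_apply, h1]
      exact sub_self _)
  refine ⟨h₀ + (LinearMap.ker A).subtype.comp k, fun x => ?_, fun w => ?_⟩
  · have h2 : A (k x) = 0 := (k x).2
    rw [LinearMap.add_apply, map_add, h1]
    show B x + A (k x) = B x
    rw [h2, add_zero]
  · have h2 := LinearMap.congr_fun hk w
    have h3 : ((k w : LinearMap.ker A) : R) = g w - h₀ w := congrArg Subtype.val h2
    rw [LinearMap.add_apply]
    show h₀ w + ((k w : LinearMap.ker A) : R) = g w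
    rw [h3]
    abel

private theorem EXT_ind {P : Type} [Fintype P] {M : Mesh P} {K : Type} [Field K] (R X : Rp M K)
    (U : Set P) (hR : R.Good U) (hX : X.Sup U) (W : Submodule K X.T) (hW : X.St W)
    (g : (X.sub W hW).T →ₗ[K] R.T) (hg : g ∈ Rp.Hm (X.sub W hW) R) (n : ℕ) :
    ∃ f : X.T →ₗ[K] R.T, (∀ p x, f (X.e p x) = R.e p (f x)) ∧
      (∀ (w : X.T) (hw : w ∈ W), f w = g ⟨w, hw⟩) ∧
      ∀ p, M.lv p < n → ∀ x, f (X.a (X.e p x)) = R.a (f (X.e p x)) := by
  classical
  have ge : ∀ p (w : X.T) (hw : w ∈ W), g ⟨X.e p w, hW.1 p w hw⟩ = R.e p (g ⟨w, hw⟩) :=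
    fun p w hw => hg.1 p ⟨w, hw⟩
  have ga : ∀ (w : X.T) (hw : w ∈ W), g ⟨X.a w, hW.2 w hw⟩ = R.a (g ⟨w, hw⟩) :=
    fun w hw => hg.2 ⟨w, hw⟩
  -- a family of maps, one for each position
  have key : ∀ h : P → X.T →ₗ[K] R.T, (∀ p (w : X.T) (hw : w ∈ W),
      R.e p (h p (X.e p w)) = R.e p (g ⟨w, hw⟩)) →
      ∃ f : X.T →ₗ[K] R.T, (∀ p x, f (X.e p x) = R.e p (h p (X.e p x))) ∧
        (∀ p x, f (X.e p x) = R.e p (f x)) ∧ ∀ (w : X.T) (hw : w ∈ W), f w = g ⟨w, hw⟩ := by
    intro h hh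
    have h1 : ∀ p x, (∑ q, (R.e q).comp ((h q).comp (X.e q)) : X.T →ₗ[K] R.T) (X.e p x) =
        R.e p (h p (X.e p x)) := by
      intro p x
      rw [LinearMap.sum_apply, Finset.sum_eq_single p]
      · rw [LinearMap.comp_apply, LinearMap.comp_apply, X.e_e]
      · intro q _ hq
        rw [LinearMap.comp_apply, LinearMap.comp_apply, X.e_ne q p x hq, map_zero, map_zero]
      · intro hp
        exact absurd (Finset.mem_univ p) hp
    refine ⟨∑ q, (R.e q).comp ((h q).comp (X.e q)), h1, fun p x => ?_, fun w hw => ?_⟩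
    · rw [h1, LinearMap.sum_apply, map_sum, Finset.sum_eq_single p]
      · rw [LinearMap.comp_apply, LinearMap.comp_apply, R.e_e]
      · intro q _ hq
        rw [LinearMap.comp_apply, LinearMap.comp_apply, R.e_ne p q _ (Ne.symm hq)]
      · intro hp
        exact absurd (Finset.mem_univ p) hp
    · rw [LinearMap.sum_apply]
      have h2 : ∀ q, ((R.e q).comp ((h q).comp (X.e q))) w = R.e q (g ⟨w, hw⟩) :=
        fun q => hh q w hw
      rw [Finset.sum_congr rfl fun q _ => h2 q, R.e_sum]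
  induction n with
  | zero =>
    obtain ⟨f₀, hf₀⟩ := LinearMap.exists_extend (p := W) g
    have hf₀' : ∀ (w : X.T) (hw : w ∈ W), f₀ w = g ⟨w, hw⟩ := fun w hw =>
      LinearMap.congr_fun hf₀ ⟨w, hw⟩
    obtain ⟨f, -, hf2, hf3⟩ := key (fun _ => f₀) (fun p w hw => by
      rw [hf₀' _ (hW.1 p w hw), ge, R.e_e])
    exact ⟨f, hf2, hf3, fun p hp => absurd hp (Nat.not_lt_zero _)⟩
  | succ n ih =>
    obtain ⟨f, hf1, hf2, hf3⟩ := ih
    -- support of `a x`
    have hsup : ∀ (φ ψ : X.T →ₗ[K] R.T) (p : P) (x : X.T),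
        (∀ q, M.Ar p q → ∀ y, φ (X.e q y) = ψ (X.e q y)) →
        φ (X.a (X.e p x)) = ψ (X.a (X.e p x)) := by
      intro φ ψ p x h
      have h1 := X.e_sum (X.a (X.e p x))
      rw [← h1, map_sum, map_sum]
      refine Finset.sum_congr rfl fun q _ => ?_
      by_cases hq : M.Ar p q
      · exact h q hq _
      · rw [X.a_ar p q x hq, map_zero, map_zero]
    have hstep : ∀ p, ∃ h : X.T →ₗ[K] R.T, M.lv p = n →
        (∀ x, R.e p (h x) = h x) ∧ (∀ x, R.a (h (X.e p x)) = f (X.a (X.e p x))) ∧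
        ∀ (w : X.T) (hw : w ∈ W), h (X.e p w) = R.e p (g ⟨w, hw⟩) := by
      intro p
      by_cases hp : M.lv p = n
      swap
      · exact ⟨0, fun h => absurd h hp⟩
      by_cases hpU : p ∈ U
      swap
      · refine ⟨0, fun _ => ⟨fun x => ?_, fun x => ?_, fun w hw => ?_⟩⟩
        · rw [LinearMap.zero_apply, map_zero]
        · rw [hX p hpU x, map_zero, map_zero, map_zero, map_zero]
        · rw [LinearMap.zero_apply, ← ge p w hw]
          have h1 : (⟨X.e p w, hW.1 p w hw⟩ : W) = 0 := Subtype.ext (hX p hpU w)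
          rw [h1]
          exact (map_zero g).symm
      obtain ⟨h, hh1, hh2⟩ := EXT_lift (R.a.comp (LinearMap.range (R.e p)).subtype)
        (f.comp (X.a.comp (X.e p))) (fun x => by
          obtain ⟨z, hz1, hz2⟩ := hR.2 p hpU (f (X.a (X.e p x))) (fun q hq => by
            rw [← hf1, X.a_ar p q x hq, map_zero]) (fun r hr => by
            have h1 : R.a (f (X.a (X.e p x))) = f (X.a (X.a (X.e p x))) := by
              refine (hsup (f.comp X.a) (R.a.comp f) p x fun q hq y => ?_).symm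
              have h2 := M.lv_ar p q hq
              exact hf3 q (by omega) y
            rw [h1, ← hf1, X.mesh p r x hr, map_zero])
          exact ⟨⟨z, z, hz1⟩, hz2⟩) W
        (((R.e p).comp g).codRestrict (LinearMap.range (R.e p)) fun w => ⟨g w, rfl⟩)
        (fun w => by
          show R.a (R.e p (g w)) = f (X.a (X.e p w))
          have h1 : R.e p (g w) = g ⟨X.e p w, hW.1 p w w.2⟩ := (ge p w w.2).symm
          rw [h1, ← ga (X.e p w) (hW.1 p w w.2), hf2 _ (hW.2 _ (hW.1 p w w.2))])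
      refine ⟨(LinearMap.range (R.e p)).subtype.comp h, fun _ => ⟨fun x => ?_, fun x => ?_,
        fun w hw => ?_⟩⟩
      · show R.e p (h x : R.T) = h x
        obtain ⟨y, hy⟩ := (h x).2
        rw [← hy, R.e_e]
      · have h1 : R.a (h (X.e p x) : R.T) = f (X.a (X.e p (X.e p x))) := hh1 (X.e p x)
        rw [X.e_e] at h1
        exact h1
      · have h1 : (h (X.e p w) : R.T) = R.e p (g ⟨X.e p w, hW.1 p w hw⟩) :=
          congrArg Subtype.val (hh2 ⟨X.e p w, hW.1 p w hw⟩)
        rw [ge p w hw, R.e_e] at h1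
        exact h1
    choose h hh using hstep
    obtain ⟨f', hf'1, hf'2, hf'3⟩ := key (fun p => if M.lv p = n then h p else f)
      (fun p w hw => by
        by_cases hp : M.lv p = n
        · rw [if_pos hp, (hh p hp).2.2 w hw, R.e_e]
        · rw [if_neg hp, hf2 _ (hW.1 p w hw), ge, R.e_e])
    refine ⟨f', hf'2, hf'3, fun p hp x => ?_⟩
    have h1 : f' (X.a (X.e p x)) = f (X.a (X.e p x)) := by
      refine hsup f' f p x fun q hq y => ?_
      have h2 := M.lv_ar p q hq
      rw [hf'1, if_neg (by omega), ← hf1, X.e_e]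
    rw [h1, hf'1]
    by_cases hpn : M.lv p = n
    · rw [if_pos hpn, (hh p hpn).1, (hh p hpn).2.1]
    · rw [if_neg hpn, ← hf1, X.e_e, hf3 p (by omega)]

theorem EXT_holds : S_EXT := by
  intro P _ M K _ R X U hR hX W hW g hg
  obtain ⟨f, hf1, hf2, hf3⟩ := EXT_ind R X U hR hX W hW g hg (∑ p, (M.lv p + 1))
  refine ⟨f, ⟨hf1, fun x => ?_⟩, fun w => hf2 w.1 w.2⟩
  have h1 : ∀ p, M.lv p < ∑ p, (M.lv p + 1) := by
    intro p
    have h2 : M.lv p + 1 ≤ ∑ p, (M.lv p + 1) :=
      Finset.single_le_sum (f := fun p => M.lv p + 1) (fun _ _ => Nat.zero_le _)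
        (Finset.mem_univ p)
    omega
  have h2 := X.e_sum x
  rw [← h2, map_sum, map_sum, map_sum, map_sum]
  exact Finset.sum_congr rfl fun p _ => hf3 p (h1 p) x

end Pool.Agent.Lib.MP_4c1f79_al
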