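import Pool.Agent.Lib.MP_4c1f79_al.StmG2

/-! [J4 FAM] Subs are the same as stable families. -/

set_option autoImplicit false

namespace Pool.Agent.Lib.MP_4c1f79_al

open Finset Module

theorem FAM_holds : S_FAM := by
  intro P _ M s K _ D N d
  have hmem : ∀ (C : P → Submodule K N.T) (x : N.T),
      x ∈ (⨅ p, (C p).comap (N.e p) : Submodule K N.T) ↔ ∀ p, N.e p x ∈ C p := by
    intro C x
    simp only [Submodule.mem_iInf, Submodule.mem_comap]
  have hfam : ∀ W : Submodule K N.T, N.St W → N.Fam fun p => W.map (N.e p) := by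
    intro W hW
    refine ⟨fun p => LinearMap.map_le_range, ?_, ?_⟩
    · rintro p q _ x ⟨w, hw, rfl⟩
      exact ⟨N.a (N.e p w), hW.1.2 _ (hW.1.1 p w hw), rfl⟩
    · rintro p x ⟨w, hw, rfl⟩
      exact ⟨N.F w, hW.2 w hw, (N.F_e p w).symm⟩
  have hst : ∀ C : P → Submodule K N.T, N.Fam C → N.St (⨅ p, (C p).comap (N.e p)) := by
    intro C hC
    refine ⟨⟨?_, ?_⟩, ?_⟩
    · intro p x hx
      rw [hmem] at hx ⊢
      intro q
      by_cases hpq : q = p
      · subst hpq
        rw [N.e_e]
        exact hx q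
      · rw [N.e_ne q p x hpq]
        exact (C q).zero_mem
    · intro x hx
      rw [hmem] at hx ⊢
      intro q
      have h1 : N.e q (N.a x) = ∑ p, N.e q (N.a (N.e p x)) := by
        conv_lhs => rw [← N.e_sum x]
        rw [map_sum, map_sum]
      rw [h1]
      refine Submodule.sum_mem _ fun p _ => ?_
      by_cases hpq : M.Ar p q
      · exact hC.2.1 p q hpq _ (hx p)
      · rw [N.a_ar p q x hpq]
        exact (C q).zero_mem
    · intro x hx
      rw [hmem] at hx ⊢
      intro q
      have h1 := hC.2.2 (s.symm q) _ (hx (s.symm q))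
      rw [N.F_e, s.apply_symm_apply] at h1
      exact h1
  have hl : ∀ W : Submodule K N.T, N.St W → (⨅ p, (W.map (N.e p)).comap (N.e p)) = W := by
    intro W hW
    ext x
    rw [hmem]
    constructor
    · intro h
      rw [← N.e_sum x]
      refine Submodule.sum_mem _ fun p _ => ?_
      obtain ⟨w, hw, hwx⟩ := h p
      rw [← hwx]
      exact hW.1.1 p w hw
    · intro h p
      exact ⟨x, h, rfl⟩
  have hr : ∀ C : P → Submodule K N.T, N.Fam C → ∀ p,
      (⨅ p, (C p).comap (N.e p) : Submodule K N.T).map (N.e p) = C p := by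
    intro C hC p
    ext y
    constructor
    · rintro ⟨w, hw, rfl⟩
      exact (hmem C w).1 hw p
    · intro hy
      obtain ⟨z, hz⟩ := hC.1 p hy
      have h1 : N.e p y = y := by rw [← hz, N.e_e]
      refine ⟨y, (hmem C y).2 fun q => ?_, h1⟩
      by_cases hpq : q = p
      · subst hpq
        rw [h1]
        exact hy
      · rw [← hz, N.e_ne q p z hpq]
        exact (C q).zero_mem
  exact Nat.card_congr
    { toFun := fun W => ⟨fun p => W.1.map (N.e p), hfam W.1 W.2.1, W.2.2⟩
      invFun := fun C => ⟨⨅ p, (C.1 p).comap (N.e p), hst C.1 C.2.1, fun p => by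
        show finrank K ((⨅ p, (C.1 p).comap (N.e p) : Submodule K N.T).map (N.e p)) = d p
        rw [hr C.1 C.2.1 p]
        exact C.2.2 p⟩
      left_inv := fun W => Subtype.ext (hl W.1 W.2.1)
      right_inv := fun C => Subtype.ext (funext fun p => hr C.1 C.2.1 p) }

end Pool.Agent.Lib.MP_4c1f79_al
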