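import Pool.Agent.Lib.MP_4c1f79_al.StmF

/-!
# MP_4c1f79_al : F4, the dimensions of the module of type `ind bF` on the rows `0, 4`
-/

set_option autoImplicit false

namespace Pool.Agent.Lib.MP_4c1f79_al

open Finset Module

private theorem FD1_sum (f : Fin 6 × Fin 12 → ℕ) :
    ∑ u, ind bF u * f u = f (1, 0) + f (3, 0) := by
  classical
  have h1 : ∀ u, ind bF u * f u = if u ∈ ({(1, 0), (3, 0)} : Finset (Fin 6 × Fin 12)) then f u
      else 0 := by
    intro u
    by_cases h : u ∈ ({(1, 0), (3, 0)} : Finset (Fin 6 × Fin 12))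
    · have hb : u ∈ bF := by
        rw [Finset.mem_insert, Finset.mem_singleton] at h
        rcases h with rfl | rfl
        · exact ⟨Or.inl rfl, rfl⟩
        · exact ⟨Or.inr rfl, rfl⟩
      rw [if_pos h, ind, Set.indicator_of_mem hb, Pi.one_apply, one_mul]
    · have hb : u ∉ bF := by
        rintro ⟨h1 | h1, h2⟩
        · exact h (by
            rw [Finset.mem_insert]
            exact Or.inl (Prod.ext h1 h2))
        · exact h (by
            rw [Finset.mem_insert, Finset.mem_singleton]
            exact Or.inr (Prod.ext h1 h2))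
      rw [if_neg h, ind, Set.indicator_of_notMem hb, zero_mul]
  rw [Finset.sum_congr rfl fun u _ => h1 u, ← Finset.sum_filter, Finset.filter_mem_eq_inter,
    Finset.univ_inter, Finset.sum_insert (by decide), Finset.sum_singleton]

theorem FD1_holds (hTBM : S_TBM) : S_FD1 := by
  intro K _ D N hN k
  have hfin : Finite K := by
    apply Nat.finite_of_card_ne_zero
    rw [D.card_K]
    have := D.q_gt
    exact pow_ne_zero _ (by omega)
  have hG : N.toRp.Good (winB (WF fun _ => false)) := by
    rw [WF_none]
    exact hN.1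
  have h := hTBM 6 12 eF eF_symm (WF fun _ => false) (fun v l => TF v l) 11 (by norm_num) ncF K
    N.toRp hG (fun v l _ => okF v l)
  have hs : ∀ p : Fin 6 × Fin 12, N.toRp.dm p = tval (TF 1 0) p.1 p.2 + tval (TF 3 0) p.1 p.2 := by
    intro p
    refine (h p (by omega)).trans ?_
    have h2 : ∀ u, N.toRp.sc u = ind bF u := hN.2
    refine (Finset.sum_congr rfl fun u _ => ?_).trans
      (FD1_sum fun u => tval (TF u.1 u.2) p.1 p.2)
    exact congrArg (fun z => z * tval (TF u.1 u.2) p.1 p.2) (h2 u)
  rw [hs, hs]
  exact xF_tab k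

end Pool.Agent.Lib.MP_4c1f79_al
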