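import Pool.Agent.Lib.MP_4c1f79_al.StmF

/-!
# [J4 FD2] Thinness on the rows `0, 4`
-/

set_option autoImplicit false

namespace Pool.Agent.Lib.MP_4c1f79_al

open Finset Module

private theorem FD2_sF2 (u : Fin 6 × Fin 12) : sF (sF u) = u := sF_per u

private theorem FD2_orb (u x : Fin 6 × Fin 12) :
    (∃ i : ℕ, x = (⇑sF)^[i] u) ↔ (x = u ∨ x = sF u) := by
  constructor
  · rintro ⟨i, rfl⟩
    induction i with
    | zero => exact Or.inl rfl
    | succ i ih =>
      rw [Function.iterate_succ_apply']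
      rcases ih with h | h
      · exact Or.inr (by rw [h])
      · exact Or.inl (by rw [h, FD2_sF2])
  · rintro (h | h)
    · exact ⟨0, h⟩
    · exact ⟨1, h⟩

private theorem FD2_thin (v : Fin 6) (l : Fin 12) (h : ¬ ((v = 1 ∨ v = 3) ∧ l = 0))
    (w : Fin 6) (hw : w = 0 ∨ w = 4) (k : ℕ) (hk : k ≤ 5) :
    tval (TF v l) w k + (if sgF v = v then 0 else tval (TF (sgF v) l) w k) ≤ 1 :=
  thinF v l h w hw ⟨k, by omega⟩

private theorem FD2_tb : ∀ w : Fin 6, (w = 0 ∨ w = 4) → ∀ k : Fin 6,
    tval (TFb 1) w k + tval (TFb 3) w k ≤ 1 := by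
  decide +kernel

private theorem FD2_ind_ne {E : Set (Fin 6 × Fin 12)} {u : Fin 6 × Fin 12} (h : ind E u ≠ 0) :
    u ∈ E := by
  by_contra hc
  exact h (Set.indicator_of_notMem hc _)

private theorem FD2_ind_le (E : Set (Fin 6 × Fin 12)) (u : Fin 6 × Fin 12) : ind E u ≤ 1 := by
  by_cases h : u ∈ E
  · rw [ind, Set.indicator_of_mem h]; exact le_rfl
  · rw [ind, Set.indicator_of_notMem h]; exact Nat.zero_le _

private theorem FD2_sum (E : Set (Fin 6 × Fin 12)) (u : Fin 6 × Fin 12)
    (hE : ∀ x ∈ E, x = u ∨ x = sF u) (f : Fin 6 × Fin 12 → ℕ) :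
    ∑ x, ind E x * f x ≤ f u + (if sF u = u then 0 else f (sF u)) := by
  classical
  have h1 : ∀ x, ind E x * f x ≤ (if x = u then f u else 0)
      + (if x = sF u then (if sF u = u then 0 else f (sF u)) else 0) := by
    intro x
    by_cases hx : x ∈ E
    · have h2 : ind E x * f x ≤ f x := by
        calc ind E x * f x ≤ 1 * f x := Nat.mul_le_mul_right _ (FD2_ind_le E x)
          _ = f x := one_mul _
      rcases eq_or_ne x u with h | h
      · rw [if_pos h]
        rw [h] at h2 ⊢
        exact h2.trans (Nat.le_add_right _ _)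
      · have h3 : x = sF u := (hE x hx).resolve_left h
        rw [if_neg h, if_pos h3, if_neg (h3 ▸ h), zero_add, ← h3]
        exact h2
    · rw [ind, Set.indicator_of_notMem hx, zero_mul]
      exact Nat.zero_le _
  calc ∑ x, ind E x * f x ≤ ∑ x, ((if x = u then f u else 0)
      + (if x = sF u then (if sF u = u then 0 else f (sF u)) else 0)) :=
        Finset.sum_le_sum fun x _ => h1 x
    _ = f u + (if sF u = u then 0 else f (sF u)) := by
        rw [Finset.sum_add_distrib, Finset.sum_ite_eq' Finset.univ u,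
          Finset.sum_ite_eq' Finset.univ (sF u), if_pos (Finset.mem_univ _),
          if_pos (Finset.mem_univ _)]

theorem FD2_holds (hTBM : S_TBM) (hMON : S_MON) (hRPE : S_RPE) (hDQ3 : S_DQ3) : S_FD2 := by
  intro A hA E hE hEW hc K _ D N hN p hp
  haveI : Finite K := by
    apply Nat.finite_of_card_ne_zero
    rw [D.card_K]
    exact pow_ne_zero _ (by have := D.q_gt; omega)
  by_cases hpW : p ∈ (winB (WF A) : Set (Fin 6 × Fin 12))
  swap
  · have h0 : N.toRp.dm p = 0 :=
      ((hDQ3 (Fin 6 × Fin 12) MF K).2.2.2.1 N.toRp p).2 (hN.1.1 p hpW)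
    omega
  have hp5 : (p.2 : ℕ) ≤ 5 := by
    rw [mem_WF] at hpW
    by_contra h
    exact hpW ⟨hp, hA _ (by omega)⟩
  obtain ⟨u, hu⟩ := hE
  have hEm : ∀ x, x ∈ E ↔ (x = u ∨ x = sF u) := by
    intro x
    rw [hu]
    exact FD2_orb u x
  by_cases hb : E = bF
  · -- second case
    have hA01 : A 0 = true ∧ A 1 = true := hc.resolve_left (fun h => h hb)
    have hm0 : ∀ q, q ∉ (winB (WF fun k => decide (k ≤ 1) || decide (5 < k)) :
        Set (Fin 6 × Fin 12)) → ind bF q = 0 := by
      intro q hq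
      rw [mem_WF, not_not] at hq
      by_contra h
      have h1 := FD2_ind_ne h
      rcases hq.1 with h2 | h2 <;> rcases h1.1 with h3 | h3 <;> rw [h2] at h3 <;>
        exact absurd h3 (by decide)
    obtain ⟨R, hR1, hR2⟩ := hRPE (Fin 6 × Fin 12) MF K
      (winB (WF fun k => decide (k ≤ 1) || decide (5 < k))) (ind bF) hm0
    have h1 : N.toRp.dm p ≤ R.dm p := by
      refine hMON (Fin 6 × Fin 12) MF K R N.toRp _ hR1 ?_ ?_ p
      · intro q hq x
        refine hN.1.1 q ?_ x
        rw [mem_WF, not_not] at hq ⊢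
        refine ⟨hq.1, ?_⟩
        have h2 := hq.2
        rw [Bool.or_eq_true, decide_eq_true_iff, decide_eq_true_iff] at h2
        rcases h2 with h2 | h2
        · rcases Nat.le_one_iff_eq_zero_or_eq_one.1 h2 with h3 | h3 <;> rw [h3]
          · exact hA01.1
          · exact hA01.2
        · exact hA _ h2
      · intro q
        rw [hN.2 q, hR2 q, hb]
    have h2 : R.dm p = ∑ x : Fin 6 × Fin 12, R.sc x * tval (TFb x.1) p.1 p.2 :=
      hTBM 6 12 eF eF_symm (WF fun k => decide (k ≤ 1) || decide (5 < k))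
      (fun v _ => TFb v) 5 (by norm_num) ncFb K R hR1 (by
        intro v l hvl0
        have hvl : R.sc (v, l) ≠ 0 := hvl0
        rw [hR2] at hvl
        have h3 := FD2_ind_ne hvl
        have h4 : (l : ℕ) = 0 := by
          have : l = 0 := h3.2
          rw [this]; rfl
        rw [h4]
        exact okFb v h3.1) p hp5
    rw [h2] at h1
    have h3 : ∑ x : Fin 6 × Fin 12, R.sc x * tval (TFb x.1) p.1 p.2
        ≤ tval (TFb 1) p.1 p.2 + tval (TFb 3) p.1 p.2 := by
      have h4 := FD2_sum bF ((1, 0) : Fin 6 × Fin 12) (by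
        intro x hx
        have h5 : x.2 = 0 := hx.2
        rcases hx.1 with h6 | h6
        · exact Or.inl (Prod.ext h6 h5)
        · refine Or.inr (Prod.ext ?_ ?_)
          · rw [h6]; decide
          · rw [h5]; decide) (fun x => tval (TFb x.1) p.1 p.2)
      have h5 : sF ((1, 0) : Fin 6 × Fin 12) = (3, 0) := by decide
      rw [h5, if_neg (by decide)] at h4
      calc ∑ x : Fin 6 × Fin 12, R.sc x * tval (TFb x.1) p.1 p.2
          = ∑ x : Fin 6 × Fin 12, ind bF x * tval (TFb x.1) p.1 p.2 := by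
            refine Finset.sum_congr rfl fun x _ => ?_
            rw [hR2]
        _ ≤ _ := h4
    have h4 := FD2_tb p.1 hp ⟨p.2, by omega⟩
    have h5 : tval (TFb 1) p.1 p.2 + tval (TFb 3) p.1 p.2 ≤ 1 := h4
    omega
  · -- first case
    obtain ⟨R, hR1, hR2⟩ := hRPE (Fin 6 × Fin 12) MF K
      (winB (WF fun _ => false)) (ind E) (by
        intro q hq
        rw [WF_none] at hq
        exact absurd (Set.mem_univ q) hq)
    have h1 : N.toRp.dm p ≤ R.dm p := by
      refine hMON (Fin 6 × Fin 12) MF K R N.toRp _ hR1 ?_ ?_ p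
      · intro q hq x
        rw [WF_none] at hq
        exact absurd (Set.mem_univ q) hq
      · intro q
        rw [hN.2 q, hR2 q]
    have h2 : R.dm p = ∑ x : Fin 6 × Fin 12, R.sc x * tval (TF x.1 x.2) p.1 p.2 :=
      hTBM 6 12 eF eF_symm (WF fun _ => false) (fun v l => TF v l) 11 (by norm_num)
      ncF K R hR1 (fun v l _ => okF v l) p (by omega)
    rw [h2] at h1
    have h3 : ∑ x : Fin 6 × Fin 12, R.sc x * tval (TF x.1 x.2) p.1 p.2
        ≤ tval (TF u.1 u.2) p.1 p.2
          + (if sF u = u then 0 else tval (TF (sF u).1 (sF u).2) p.1 p.2) := by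
      have h4 := FD2_sum E u (fun x hx => (hEm x).1 hx) (fun x => tval (TF x.1 x.2) p.1 p.2)
      calc ∑ x : Fin 6 × Fin 12, R.sc x * tval (TF x.1 x.2) p.1 p.2
          = ∑ x : Fin 6 × Fin 12, ind E x * tval (TF x.1 x.2) p.1 p.2 := by
            refine Finset.sum_congr rfl fun x _ => ?_
            rw [hR2]
        _ ≤ _ := h4
    have hu1 : ¬ ((u.1 = 1 ∨ u.1 = 3) ∧ u.2 = 0) := by
      rintro ⟨h5, h6⟩
      apply hb
      ext x
      rw [hEm]
      have h7 : ∀ a : Fin 6, (a = 1 ∨ a = 3) → ∀ x : Fin 6 × Fin 12,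
          (x = (a, 0) ∨ x = sF (a, 0)) ↔ ((x.1 = 1 ∨ x.1 = 3) ∧ x.2 = 0) := by decide
      have h8 : u = (u.1, 0) := Prod.ext rfl h6
      rw [h8]
      exact h7 u.1 h5 x
    have h4 := FD2_thin u.1 u.2 hu1 p.1 hp p.2 hp5
    have h5 : (if sF u = u then 0 else tval (TF (sF u).1 (sF u).2) p.1 p.2)
        = (if sgF u.1 = u.1 then 0 else tval (TF (sgF u.1) u.2) p.1 p.2) := by
      have h6 : (sF u = u) ↔ (sgF u.1 = u.1) := by
        constructor
        · intro h; exact congrArg Prod.fst h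
        · intro h; exact Prod.ext h rfl
      by_cases h7 : sF u = u
      · rw [if_pos h7, if_pos (h6.1 h7)]
      · rw [if_neg h7, if_neg (fun h => h7 (h6.2 h))]
        rfl
    rw [h5] at h3
    omega

end Pool.Agent.Lib.MP_4c1f79_al
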