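import Pool.Agent.Lib.MP_4c1f79_al.StmF

/-!
# MP_4c1f79_al : FD3, two thin modules over the rows 1, 2, 3, 5
-/

set_option autoImplicit false

namespace Pool.Agent.Lib.MP_4c1f79_al

open Finset Module

private theorem FD3_tab : ∀ (l : Fin 12) (v : Fin 6) (k : Fin 12), (l = 2 ∨ l = 4) →
    tval (TF5 l) v k ≤ 1 := by
  decide +kernel

theorem FD3_holds (hTBB : S_TBB) : S_FD3 := by
  intro K _ D N hN p
  have key : ∀ l : Fin 12, (l = 2 ∨ l = 4) → N.GT U4F (ind {(5, l)}) → N.toRp.dm p ≤ 1 := by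
    intro l hl h
    have h1 : N.toRp.Good (winB (WF fun _ => true)) := by
      rw [WF_all]
      exact h.1
    have h2 := hTBB 6 12 eF eF_symm (WF fun _ => true) (TF5 l) 5 l 11 (by norm_num) (okF5 l)
      ncF5 K N.toRp h1 h.2 p (by omega)
    exact h2.le.trans (FD3_tab l p.1 p.2 hl)
  rcases hN with h | h
  · exact key 2 (Or.inl rfl) h
  · exact key 4 (Or.inr rfl) h

end Pool.Agent.Lib.MP_4c1f79_al
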