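import Pool.Agent.Lib.MP_4c1f79_al.StmF

/-!
# MP_4c1f79_al : piece FGR (the graded subspace on the rows 0, 4 for F4)
-/

set_option autoImplicit false

namespace Pool.Agent.Lib.MP_4c1f79_al

open Finset Module

private theorem fgr_map {P : Type} [Fintype P] [DecidableEq P] {M : Mesh P} {K : Type} [Field K]
    (R : Rp M K) (S : Submodule K R.T) (q : P) (h : ∀ y ∈ S, R.e q y = y) (p : P) :
    S.map (R.e p) = if p = q then S else ⊥ := by
  by_cases hp : p = q
  · subst hp
    rw [if_pos rfl]
    ext y
    rw [Submodule.mem_map]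
    constructor
    · rintro ⟨z, hz, rfl⟩
      rw [h z hz]
      exact hz
    · intro hy
      exact ⟨y, hy, h y hy⟩
  · rw [if_neg hp, Submodule.eq_bot_iff]
    rintro _ ⟨y, hy, rfl⟩
    rw [← h y hy]
    exact R.e_ne p q y hp

theorem FGR_holds (_hDQ1 : S_DQ1) : S_FGR := by
  intro K _ D hr N x hx _
  have s05 : sF (0, 5) = (4, 5) := by decide
  have s45 : sF (4, 5) = (0, 5) := by decide
  have s01 : sF (0, 1) = (4, 1) := by decide
  have s41 : sF (4, 1) = (0, 1) := by decide
  have s03 : sF (0, 3) = (4, 3) := by decide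
  have s43 : sF (4, 3) = (0, 3) := by decide
  have hFx : N.e (4, 5) (N.F x) = N.F x := by rw [← s05, ← N.F_e, hx]
  have hFF : ∀ y, N.F (N.F y) = y := by
    intro y
    have h1 := N.F_r y
    rw [hr] at h1
    exact h1
  have hB : BxF N x = Submodule.span K {x} ⊔ Submodule.span K {N.F x}
      ⊔ LinearMap.range (N.e (0, 1)) ⊔ LinearMap.range (N.e (0, 3)) ⊔
      LinearMap.range (N.e (4, 1)) ⊔ LinearMap.range (N.e (4, 3)) := by
    unfold BxF
    rw [Submodule.span_insert]
  have hsp : ∀ (p : Fin 6 × Fin 12) (z : N.T), N.e p z = z → ∀ y ∈ Submodule.span K {z},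
      N.e p y = y := by
    intro p z hz y hy
    obtain ⟨c, rfl⟩ := Submodule.mem_span_singleton.1 hy
    rw [map_smul, hz]
  have hrg : ∀ (p : Fin 6 × Fin 12), ∀ y ∈ LinearMap.range (N.e p), N.e p y = y := by
    rintro p _ ⟨y, rfl⟩
    exact N.e_e p y
  have hmap : ∀ p, (BxF N x).map (N.e p) = (if p = (0, 5) then Submodule.span K {x} else ⊥)
      ⊔ (if p = (4, 5) then Submodule.span K {N.F x} else ⊥)
      ⊔ (if p = (0, 1) then LinearMap.range (N.e (0, 1)) else ⊥)
      ⊔ (if p = (0, 3) then LinearMap.range (N.e (0, 3)) else ⊥)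
      ⊔ (if p = (4, 1) then LinearMap.range (N.e (4, 1)) else ⊥)
      ⊔ (if p = (4, 3) then LinearMap.range (N.e (4, 3)) else ⊥) := by
    intro p
    rw [hB, Submodule.map_sup, Submodule.map_sup, Submodule.map_sup, Submodule.map_sup,
      Submodule.map_sup, fgr_map N.toRp _ (0, 5) (hsp _ _ hx), fgr_map N.toRp _ (4, 5) (hsp _ _ hFx),
      fgr_map N.toRp _ (0, 1) (hrg _), fgr_map N.toRp _ (0, 3) (hrg _),
      fgr_map N.toRp _ (4, 1) (hrg _), fgr_map N.toRp _ (4, 3) (hrg _)]
  refine ⟨⟨?_, ?_, ?_, fun p => LF_stab p⟩, ?_, ?_⟩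
  · intro p y hy
    have h1 : (BxF N x).map (N.e p) ≤ BxF N x := by
      rw [hmap, hB]
      have l1 : ∀ (c : Prop) [Decidable c] (S T : Submodule K N.T), S ≤ T →
          (if c then S else ⊥) ≤ T := by
        intro c _ S T h
        split_ifs
        · exact h
        · exact bot_le
      refine sup_le (sup_le (sup_le (sup_le (sup_le ?_ ?_) ?_) ?_) ?_) ?_
      · exact l1 _ _ _ (le_sup_of_le_left (le_sup_of_le_left (le_sup_of_le_left
          (le_sup_of_le_left le_sup_left))))
      · exact l1 _ _ _ (le_sup_of_le_left (le_sup_of_le_left (le_sup_of_le_left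
          (le_sup_of_le_left le_sup_right))))
      · exact l1 _ _ _ (le_sup_of_le_left (le_sup_of_le_left (le_sup_of_le_left le_sup_right)))
      · exact l1 _ _ _ (le_sup_of_le_left (le_sup_of_le_left le_sup_right))
      · exact l1 _ _ _ (le_sup_of_le_left le_sup_right)
      · exact l1 _ _ _ le_sup_right
    exact h1 ⟨y, hy, rfl⟩
  · have h1 : BxF N x ≤ (BxF N x).comap N.F := by
      have hr1 : ∀ p q : Fin 6 × Fin 12, sF p = q → LinearMap.range (N.e q) ≤ BxF N x →
          LinearMap.range (N.e p) ≤ (BxF N x).comap N.F := by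
        rintro p q rfl hq _ ⟨y, rfl⟩
        rw [Submodule.mem_comap]
        apply hq
        exact ⟨N.F y, (N.F_e p y).symm⟩
      have i1 : LinearMap.range (N.e (0, 1)) ≤ BxF N x := by
        rw [hB]
        exact le_sup_of_le_left (le_sup_of_le_left (le_sup_of_le_left le_sup_right))
      have i2 : LinearMap.range (N.e (0, 3)) ≤ BxF N x := by
        rw [hB]
        exact le_sup_of_le_left (le_sup_of_le_left le_sup_right)
      have i3 : LinearMap.range (N.e (4, 1)) ≤ BxF N x := by
        rw [hB]
        exact le_sup_of_le_left le_sup_right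
      have i4 : LinearMap.range (N.e (4, 3)) ≤ BxF N x := by
        rw [hB]
        exact le_sup_right
      have i5 : x ∈ BxF N x := by
        have : Submodule.span K {x} ≤ BxF N x := by
          rw [hB]
          exact le_sup_of_le_left (le_sup_of_le_left (le_sup_of_le_left
            (le_sup_of_le_left le_sup_left)))
        exact this (Submodule.mem_span_singleton_self x)
      have i6 : N.F x ∈ BxF N x := by
        have : Submodule.span K {N.F x} ≤ BxF N x := by
          rw [hB]
          exact le_sup_of_le_left (le_sup_of_le_left (le_sup_of_le_left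
            (le_sup_of_le_left le_sup_right)))
        exact this (Submodule.mem_span_singleton_self _)
      conv_lhs => rw [hB]
      refine sup_le (sup_le (sup_le (sup_le (sup_le ?_ ?_) ?_) ?_) ?_) ?_
      · rw [Submodule.span_singleton_le_iff_mem, Submodule.mem_comap]
        exact i6
      · rw [Submodule.span_singleton_le_iff_mem, Submodule.mem_comap, hFF]
        exact i5
      · exact hr1 _ _ s01 i3
      · exact hr1 _ _ s03 i4
      · exact hr1 _ _ s41 i1
      · exact hr1 _ _ s43 i2
    exact fun y hy => h1 hy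
  · intro p hp y hy
    have h1 : (BxF N x).map (N.e p) = ⊥ := by
      rw [hmap]
      have h2 : p.1 ≠ 0 ∧ p.1 ≠ 4 := by
        constructor
        · exact fun h => hp (Or.inl h)
        · exact fun h => hp (Or.inr h)
      have h3 : ∀ k : Fin 12, p ≠ (0, k) ∧ p ≠ (4, k) := fun k =>
        ⟨fun h => h2.1 (by rw [h]), fun h => h2.2 (by rw [h])⟩
      rw [if_neg (h3 5).1, if_neg (h3 5).2, if_neg (h3 1).1, if_neg (h3 3).1, if_neg (h3 1).2,
        if_neg (h3 3).2]
      simp
    have h2 : N.e p y ∈ (BxF N x).map (N.e p) := ⟨y, hy, rfl⟩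
    rw [h1, Submodule.mem_bot] at h2
    exact h2
  · intro k
    rw [hmap]
    fin_cases k <;> simp
  · intro k
    rw [hmap]
    fin_cases k <;> simp

end Pool.Agent.Lib.MP_4c1f79_al
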