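import Pool.Agent.Lib.MP_4c1f79_al.Stm8

/-!
# MP_4c1f79_al : the trivial Frobenius data for the grid of type E8 (S_FI8)
-/

set_option autoImplicit false

namespace Pool.Agent.Lib.MP_4c1f79_al

open Finset Module

private theorem FI8_s8 : s8 = Equiv.refl P8 := by
  ext p
  · rfl
  · rfl

theorem FI8_holds (hFID : S_FID) : S_FI8 := by
  have hs : ∀ p : P8, s8 p = p := fun p => by
    rw [FI8_s8]
    rfl
  refine ⟨hs, ?_, ?_, ?_⟩
  · intro U
    refine ⟨?_, ?_, ?_⟩
    · refine ⟨fun p q => ?_, fun p q => ?_, fun p => ?_⟩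
      · rw [hs, hs]
      · rw [hs, hs]
      · rw [hs]
    · intro p
      exact hs p
    · intro p
      rw [hs]
  · intro E
    have hit : ∀ (i : ℕ) (p : P8), (⇑s8)^[i] p = p := by
      intro i
      induction i with
      | zero => intro p; rfl
      | succ i ih =>
        intro p
        rw [Function.iterate_succ_apply, hs, ih]
    constructor
    · rintro ⟨p, rfl⟩
      refine ⟨p, ?_⟩
      ext x
      constructor
      · rintro ⟨i, hi⟩
        rw [hit] at hi
        exact hi
      · intro hx
        exact ⟨0, hx⟩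
    · rintro ⟨p, rfl⟩
      refine ⟨p, ?_⟩
      ext x
      constructor
      · intro hx
        exact ⟨0, hx⟩
      · rintro ⟨i, hi⟩
        rw [hit] at hi
        exact hi
  · intro K _ D hD R
    have h := (hFID P8 M8 K D hD).2.2.2.2.2.2.1 R
    rw [FI8_s8]
    exact h

end Pool.Agent.Lib.MP_4c1f79_al
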