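import Pool.Agent.Lib.MP_4c1f79_al.StmA

/-!
# MP_4c1f79_al : fibres of the intersection and projection map (S_FIB)

Submodules of `N₁ × N₂` with given intersection `W₁` and projection `W₂` are graphs of the maps
`W₂ → N₁ / W₁`.
-/

set_option autoImplicit false

namespace Pool.Agent.Lib.MP_4c1f79_al

open Finset Module

section graph

variable {K A B : Type} [Field K] [AddCommGroup A] [AddCommGroup B] [Module K A] [Module K B]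

/-- The graph of a map `W₂ → A / W₁`. -/
def fibGr (W₁ : Submodule K A) (W₂ : Submodule K B) (φ : W₂ →ₗ[K] (A ⧸ W₁)) :
    Submodule K (A × B) where
  carrier := {z | ∃ h : z.2 ∈ W₂, φ ⟨z.2, h⟩ = W₁.mkQ z.1}
  zero_mem' := by
    refine ⟨W₂.zero_mem, ?_⟩
    have : φ ⟨(0 : A × B).2, W₂.zero_mem⟩ = φ 0 := rfl
    rw [this, map_zero]
    exact (map_zero _).symm
  add_mem' := by
    rintro z z' ⟨h, e⟩ ⟨h', e'⟩
    refine ⟨W₂.add_mem h h', ?_⟩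
    have : φ ⟨(z + z').2, W₂.add_mem h h'⟩ = φ (⟨z.2, h⟩ + ⟨z'.2, h'⟩) := rfl
    rw [this, map_add, e, e', ← map_add]
    rfl
  smul_mem' := by
    rintro c z ⟨h, e⟩
    refine ⟨W₂.smul_mem c h, ?_⟩
    have : φ ⟨(c • z).2, W₂.smul_mem c h⟩ = φ (c • ⟨z.2, h⟩) := rfl
    rw [this, map_smul, e, ← map_smul]
    rfl

theorem mem_fibGr {W₁ : Submodule K A} {W₂ : Submodule K B} {φ : W₂ →ₗ[K] (A ⧸ W₁)} {z : A × B} :
    z ∈ fibGr W₁ W₂ φ ↔ ∃ h : z.2 ∈ W₂, φ ⟨z.2, h⟩ = W₁.mkQ z.1 := Iff.rfl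

theorem fibGr_comap (W₁ : Submodule K A) (W₂ : Submodule K B) (φ : W₂ →ₗ[K] (A ⧸ W₁)) :
    (fibGr W₁ W₂ φ).comap (LinearMap.inl K A B) = W₁ := by
  ext x
  rw [Submodule.mem_comap, mem_fibGr]
  constructor
  · rintro ⟨h, e⟩
    have h0 : φ ⟨((LinearMap.inl K A B) x).2, h⟩ = φ 0 := rfl
    rw [h0, map_zero] at e
    exact (Submodule.Quotient.mk_eq_zero _).1 e.symm
  · intro hx
    refine ⟨W₂.zero_mem, ?_⟩
    have h0 : φ ⟨((LinearMap.inl K A B) x).2, W₂.zero_mem⟩ = φ 0 := rfl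
    rw [h0, map_zero]
    exact ((Submodule.Quotient.mk_eq_zero _).2 hx).symm

theorem fibGr_map (W₁ : Submodule K A) (W₂ : Submodule K B) (φ : W₂ →ₗ[K] (A ⧸ W₁)) :
    (fibGr W₁ W₂ φ).map (LinearMap.snd K A B) = W₂ := by
  ext y
  rw [Submodule.mem_map]
  constructor
  · rintro ⟨z, ⟨h, -⟩, rfl⟩
    exact h
  · intro hy
    obtain ⟨x, hx⟩ := W₁.mkQ_surjective (φ ⟨y, hy⟩)
    exact ⟨(x, y), ⟨hy, hx.symm⟩, rfl⟩

theorem fibGr_ex (W₁ : Submodule K A) (W₂ : Submodule K B) (W : Submodule K (A × B))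
    (h1 : W.comap (LinearMap.inl K A B) = W₁) (h2 : W.map (LinearMap.snd K A B) = W₂) :
    ∃ φ : W₂ →ₗ[K] (A ⧸ W₁), fibGr W₁ W₂ φ = W := by
  have ex : ∀ y : W₂, ∃ x : A, (x, (y : B)) ∈ W := by
    intro y
    have hy : (y : B) ∈ W.map (LinearMap.snd K A B) := by
      rw [h2]
      exact y.2
    obtain ⟨z, hz, hzy⟩ := hy
    refine ⟨z.1, ?_⟩
    have : (z.1, (y : B)) = z := Prod.ext rfl hzy.symm
    rw [this]
    exact hz
  have un : ∀ x x' : A, ∀ y : B, (x, y) ∈ W → (x', y) ∈ W → W₁.mkQ x = W₁.mkQ x' := by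
    intro x x' y h h'
    have hs : (x, y) - (x', y) ∈ W := W.sub_mem h h'
    have hs' : x - x' ∈ W₁ := by
      rw [← h1, Submodule.mem_comap]
      have : (LinearMap.inl K A B) (x - x') = (x, y) - (x', y) := by
        refine Prod.ext rfl ?_
        exact (sub_self y).symm
      rw [this]
      exact hs
    exact (Submodule.Quotient.eq W₁).2 hs'
  choose g hg using ex
  let φ : W₂ →ₗ[K] (A ⧸ W₁) :=
    { toFun := fun y => W₁.mkQ (g y)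
      map_add' := by
        intro y y'
        rw [← map_add]
        exact un _ _ _ (hg (y + y')) (W.add_mem (hg y) (hg y'))
      map_smul' := by
        intro c y
        rw [← map_smul]
        exact un _ _ _ (hg (c • y)) (W.smul_mem c (hg y)) }
  refine ⟨φ, ?_⟩
  ext z
  rw [mem_fibGr]
  constructor
  · rintro ⟨h, e⟩
    have e' : W₁.mkQ (g ⟨z.2, h⟩) = W₁.mkQ z.1 := e
    have hd : g ⟨z.2, h⟩ - z.1 ∈ W₁ := (Submodule.Quotient.eq W₁).1 e'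
    rw [← h1, Submodule.mem_comap] at hd
    have hz : z = (g ⟨z.2, h⟩, z.2) - (LinearMap.inl K A B) (g ⟨z.2, h⟩ - z.1) := by
      refine Prod.ext ?_ ?_
      · change z.1 = g ⟨z.2, h⟩ - (g ⟨z.2, h⟩ - z.1)
        abel
      · change z.2 = z.2 - 0
        rw [sub_zero]
    rw [hz]
    exact W.sub_mem (hg ⟨z.2, h⟩) hd
  · intro hz
    have h : z.2 ∈ W₂ := by
      rw [← h2]
      exact ⟨z, hz, rfl⟩
    exact ⟨h, un _ _ _ (hg ⟨z.2, h⟩) hz⟩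

theorem fibGr_inj (W₁ : Submodule K A) (W₂ : Submodule K B) (φ ψ : W₂ →ₗ[K] (A ⧸ W₁))
    (h : fibGr W₁ W₂ φ = fibGr W₁ W₂ ψ) : φ = ψ := by
  ext y
  obtain ⟨x, hx⟩ := W₁.mkQ_surjective (φ y)
  have hm : (x, (y : B)) ∈ fibGr W₁ W₂ φ := ⟨y.2, hx.symm⟩
  rw [h] at hm
  obtain ⟨hy, e⟩ := hm
  exact hx.symm.trans e.symm

end graph

theorem FIB_holds : S_FIB := by
  intro P _ M s K _ D N₁ N₂ W₁ W₂ h₁ h₂
  symm
  have key : ∀ φ : W₂ →ₗ[K] (N₁.T ⧸ W₁),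
      (N₁.prod N₂).St (fibGr W₁ W₂ φ) ↔ φ ∈ FM.HmF (N₂.sub W₂ h₂) (N₁.quo W₁ h₁) := by
    intro φ
    constructor
    · rintro ⟨⟨he, ha⟩, hF⟩
      have lift : ∀ y : W₂, ∃ x : N₁.T, φ y = W₁.mkQ x := fun y =>
        (W₁.mkQ_surjective (φ y)).imp fun x hx => hx.symm
      refine ⟨⟨?_, ?_⟩, ?_⟩
      · intro p (y : W₂)
        obtain ⟨x, hx⟩ := lift y
        obtain ⟨hy, e⟩ := he p (x, (y : N₂.T)) ⟨y.2, hx⟩
        have e1 : φ ⟨N₂.e p y, h₂.1.1 p y y.2⟩ = W₁.mkQ (N₁.e p x) := e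
        refine e1.trans ?_
        have e2 : (N₁.quo W₁ h₁).e p (φ y) = (N₁.quo W₁ h₁).e p (W₁.mkQ x) := by rw [hx]
        exact e2.symm
      · intro (y : W₂)
        obtain ⟨x, hx⟩ := lift y
        obtain ⟨hy, e⟩ := ha (x, (y : N₂.T)) ⟨y.2, hx⟩
        have e1 : φ ⟨N₂.a y, h₂.1.2 y y.2⟩ = W₁.mkQ (N₁.a x) := e
        refine e1.trans ?_
        have e2 : (N₁.quo W₁ h₁).a (φ y) = (N₁.quo W₁ h₁).a (W₁.mkQ x) := by rw [hx]
        exact e2.symm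
      · intro (y : W₂)
        obtain ⟨x, hx⟩ := lift y
        obtain ⟨hy, e⟩ := hF (x, (y : N₂.T)) ⟨y.2, hx⟩
        have e1 : φ ⟨N₂.F y, h₂.2 y y.2⟩ = W₁.mkQ (N₁.F x) := e
        refine e1.trans ?_
        have e2 : (N₁.quo W₁ h₁).F (φ y) = (N₁.quo W₁ h₁).F (W₁.mkQ x) := by rw [hx]
        exact e2.symm
    · rintro ⟨⟨he, ha⟩, hF⟩
      refine ⟨⟨?_, ?_⟩, ?_⟩
      · rintro p z ⟨h, e⟩
        refine ⟨h₂.1.1 p z.2 h, ?_⟩
        have e1 : φ ⟨N₂.e p z.2, h₂.1.1 p z.2 h⟩ = (N₁.quo W₁ h₁).e p (φ ⟨z.2, h⟩) :=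
          he p ⟨z.2, h⟩
        refine e1.trans ?_
        rw [e]
        rfl
      · rintro z ⟨h, e⟩
        refine ⟨h₂.1.2 z.2 h, ?_⟩
        have e1 : φ ⟨N₂.a z.2, h₂.1.2 z.2 h⟩ = (N₁.quo W₁ h₁).a (φ ⟨z.2, h⟩) :=
          ha ⟨z.2, h⟩
        refine e1.trans ?_
        rw [e]
        rfl
      · rintro z ⟨h, e⟩
        refine ⟨h₂.2 z.2 h, ?_⟩
        have e1 : φ ⟨N₂.F z.2, h₂.2 z.2 h⟩ = (N₁.quo W₁ h₁).F (φ ⟨z.2, h⟩) :=
          hF ⟨z.2, h⟩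
        refine e1.trans ?_
        rw [e]
        rfl
  let Φ : FM.HmF (N₂.sub W₂ h₂) (N₁.quo W₁ h₁) → {W : Submodule K (N₁.T × N₂.T) //
      (N₁.prod N₂).St W ∧ W.comap (LinearMap.inl K N₁.T N₂.T) = W₁ ∧
        W.map (LinearMap.snd K N₁.T N₂.T) = W₂} :=
    fun φ => ⟨fibGr W₁ W₂ φ.1, (key φ.1).2 φ.2, fibGr_comap W₁ W₂ φ.1, fibGr_map W₁ W₂ φ.1⟩
  refine Nat.card_congr (Equiv.ofBijective Φ ⟨?_, ?_⟩)
  · intro φ ψ h
    exact Subtype.ext (fibGr_inj W₁ W₂ φ.1 ψ.1 (congrArg Subtype.val h))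
  · rintro ⟨W, hW, h1, h2⟩
    obtain ⟨φ, hφ⟩ := fibGr_ex W₁ W₂ W h1 h2
    refine ⟨⟨φ, (key φ).1 ?_⟩, Subtype.ext hφ⟩
    rw [hφ]
    exact hW

end Pool.Agent.Lib.MP_4c1f79_al
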