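import Pool.Agent.Lib.MP_4c1f79_al.StmG

/-!
# MP_4c1f79_al : piece FID (the trivial Frobenius)
-/

set_option autoImplicit false

namespace Pool.Agent.Lib.MP_4c1f79_al

open Finset Module

theorem FID_holds : S_FID := by
  classical
  intro P _ M K _ D hr
  have hφ : ∀ c, D.φ c = c := by
    intro c
    have h := D.φ_r c
    rw [hr] at h
    exact h
  have hF : ∀ (s : Equiv.Perm P) (N : FM M s K D) (x : N.T), N.F x = x := by
    intro s N x
    have h := N.F_r x
    rw [hr] at h
    exact h
  have hS : ∀ (s : Equiv.Perm P) (N : FM M s K D) (W : Submodule K N.T),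
      N.St W ↔ N.toRp.St W := by
    intro s N W
    constructor
    · intro h
      exact h.1
    · intro h
      exact ⟨h, fun x hx => by rw [hF]; exact hx⟩
  refine ⟨hφ, ?_, hF, hS, ?_, ?_, ?_, ?_⟩
  · have h := D.card_K
    rw [hr, pow_one] at h
    exact h.symm
  · intro s N B
    rw [FM.gen, Rp.gen]
    congr 1
    ext W
    exact and_congr (hS s N W) Iff.rfl
  · intro s N N' f
    constructor
    · intro h
      exact h.1
    · intro h
      exact ⟨h, fun x => by rw [hF, hF]⟩
  · intro R
    refine ⟨{ toRp := R
              F := { toFun := fun x => x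
                     map_add' := fun x y => rfl
                     map_smul' := fun c x => ?_ }
              F_e := fun p x => rfl
              F_a := fun x => rfl
              F_r := fun x => ?_ }, rfl⟩
    · show c • x = (D.φ : K →+* K) c • x
      have h : (D.φ : K →+* K) c = c := hφ c
      rw [h]
    · rw [hr]
      rfl
  · intro E
    constructor
    · rintro ⟨p, rfl⟩
      refine ⟨p, ?_⟩
      ext x
      constructor
      · rintro ⟨i, rfl⟩
        show _ = p
        rw [Equiv.coe_refl, Function.iterate_id, id]
      · intro h
        exact ⟨0, h⟩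
    · rintro ⟨p, rfl⟩
      refine ⟨p, ?_⟩
      ext x
      constructor
      · intro h
        exact ⟨0, h⟩
      · rintro ⟨i, rfl⟩
        show _ = p
        rw [Equiv.coe_refl, Function.iterate_id, id]

end Pool.Agent.Lib.MP_4c1f79_al
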