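import Pool.Agent.Lib.MP_4c1f79_al.StmF

/-!
# [J4 FNV] The basis `y₁, y₃` exists for every good module of type `ind bF`
-/

set_option autoImplicit false

namespace Pool.Agent.Lib.MP_4c1f79_al

open Finset Module

section
variable {P : Type} [Fintype P] {M : Mesh P} {s : Equiv.Perm P} {K : Type} [Field K] {D : Fd K}

private theorem FNV_gen (Q N : FM M s K D) (f : Q.T →ₗ[K] N.T) (hf : f ∈ FM.HmF Q N)
    (B : Submodule K Q.T) : N.gen (B.map f) = (Q.gen B).map f := by
  have hSt : ∀ V : Submodule K Q.T, Q.St V → N.St (V.map f) := by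
    rintro V ⟨⟨h1, h2⟩, h3⟩
    refine ⟨⟨?_, ?_⟩, ?_⟩
    · rintro p _ ⟨x, hx, rfl⟩
      exact ⟨Q.e p x, h1 p x hx, hf.1.1 p x⟩
    · rintro _ ⟨x, hx, rfl⟩
      exact ⟨Q.a x, h2 x hx, hf.1.2 x⟩
    · rintro _ ⟨x, hx, rfl⟩
      exact ⟨Q.F x, h3 x hx, hf.2 x⟩
  have hSc : ∀ V : Submodule K N.T, N.St V → Q.St (V.comap f) := by
    rintro V ⟨⟨h1, h2⟩, h3⟩
    refine ⟨⟨?_, ?_⟩, ?_⟩
    · intro p x hx
      rw [Submodule.mem_comap, hf.1.1 p x]
      exact h1 p _ hx
    · intro x hx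
      rw [Submodule.mem_comap, hf.1.2 x]
      exact h2 _ hx
    · intro x hx
      rw [Submodule.mem_comap, hf.2 x]
      exact h3 _ hx
  have hgSt : Q.St (Q.gen B) := by
    refine ⟨⟨?_, ?_⟩, ?_⟩
    · intro p x hx
      rw [FM.gen, Submodule.mem_sInf] at hx ⊢
      intro W hW
      exact hW.1.1.1 p x (hx W hW)
    · intro x hx
      rw [FM.gen, Submodule.mem_sInf] at hx ⊢
      intro W hW
      exact hW.1.1.2 x (hx W hW)
    · intro x hx
      rw [FM.gen, Submodule.mem_sInf] at hx ⊢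
      intro W hW
      exact hW.1.2 x (hx W hW)
  have hB : B ≤ Q.gen B := le_sInf fun W hW => hW.2
  apply le_antisymm
  · exact sInf_le ⟨hSt _ hgSt, Submodule.map_mono hB⟩
  · refine le_sInf fun W hW => ?_
    rw [Submodule.map_le_iff_le_comap]
    refine sInf_le ⟨hSc W hW.1, ?_⟩
    rw [← Submodule.map_le_iff_le_comap]
    exact hW.2

private theorem FNV_dmS (Q N : FM M s K D) (f : Q.T →ₗ[K] N.T) (hf : f ∈ FM.HmF Q N)
    (hi : Function.Injective f) (V : Submodule K Q.T) (p : P) :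
    N.toRp.dmS (V.map f) p = Q.toRp.dmS V p := by
  have h1 : (V.map f).map (N.e p) = (V.map (Q.e p)).map f := by
    rw [← Submodule.map_comp, ← Submodule.map_comp]
    congr 1
    exact LinearMap.ext fun x => (hf.1.1 p x).symm
  rw [Rp.dmS, Rp.dmS, h1]
  exact (Submodule.equivMapOfInjective f hi _).finrank_eq.symm

private theorem FNV_rng (Q N : FM M s K D) (f : Q.T →ₗ[K] N.T) (hf : f ∈ FM.HmF Q N)
    (hi : Function.Injective f) (p : P) (h : Q.toRp.dm p = N.toRp.dm p) :
    (LinearMap.range (Q.e p)).map f = LinearMap.range (N.e p) := by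
  haveI : Module.Finite K N.T := Module.Finite.of_finite
  apply Submodule.eq_of_le_of_finrank_eq
  · rintro _ ⟨_, ⟨x, rfl⟩, rfl⟩
    exact ⟨f x, (hf.1.1 p x).symm⟩
  · exact (Submodule.equivMapOfInjective f hi _).finrank_eq.symm.trans h

end

theorem FNV_holds (hFQM : S_FQM) (hEMB : S_EMB) (hFD1 : S_FD1) (hDQ1 : S_DQ1) (hGC1 : S_GC1)
    (hFGR : S_FGR) : S_FNV := by
  intro K _ D hr N hN
  obtain ⟨Q, y₁, y₃, hsc, h01, h03, h41, h43, hB⟩ := hFQM K D hr
  obtain ⟨f, hf, hi⟩ := hEMB (Fin 6 × Fin 12) MF sF K D Set.univ Q N bF orb_bF hN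
    (fun p hp => absurd (Set.mem_univ p) hp) hsc
  haveI : Module.Finite K N.T := Module.Finite.of_finite
  have hD1 := hFD1 K D N hN
  -- the subspace generated by the rows
  have hBx : ∀ x : Q.T, BxF N (f x) = (BxF Q x).map f := by
    intro x
    have e1 := FNV_rng Q N f hf hi (0, 1) (h01.trans (hD1 1).1.symm)
    have e2 := FNV_rng Q N f hf hi (0, 3) (h03.trans (hD1 3).1.symm)
    have e3 := FNV_rng Q N f hf hi (4, 1) (h41.trans (hD1 1).2.symm)
    have e4 := FNV_rng Q N f hf hi (4, 3) (h43.trans (hD1 3).2.symm)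
    have e5 : (Submodule.span K {x, Q.F x}).map f = Submodule.span K {f x, N.F (f x)} := by
      rw [Submodule.map_span, Set.image_pair, hf.2 x]
    rw [BxF, BxF, Submodule.map_sup, Submodule.map_sup, Submodule.map_sup, Submodule.map_sup,
      e1, e2, e3, e4, e5]
  have hgen : ∀ (x : Q.T) (p : Fin 6 × Fin 12),
      N.toRp.dmS (N.gen (BxF N (f x))) p = Q.toRp.dmS (Q.gen (BxF Q x)) p := by
    intro x p
    rw [hBx, FNV_gen Q N f hf, FNV_dmS Q N f hf hi]
  have hc : ∀ c : K, c • f y₁ + f y₃ = f (c • y₁ + y₃) := by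
    intro c
    rw [map_add, map_smul]
  have hBN : BasF N (f y₁) (f y₃) := by
    refine ⟨?_, ?_, ?_, ?_, ?_, ?_⟩
    · rw [← hf.1.1, hB.e1]
    · rw [← hf.1.1, hB.e3]
    · have h1 := hB.li.map' f (LinearMap.ker_eq_bot.2 hi)
      have h2 : (⇑f ∘ ![y₁, y₃]) = ![f y₁, f y₃] := by
        funext i
        fin_cases i <;> rfl
      rwa [h2] at h1
    · intro p
      rw [hgen, hB.g0]
    · intro c h1 p
      rw [hc, hgen, hB.g1 c h1]
    · intro c h1 p
      rw [hc, hgen, hB.g2 c h1]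
  -- the last item
  have hRes : ∀ (x : N.T) (i : Fin 3), N.e (0, 5) x = x → x ≠ 0 →
      (∀ p, N.toRp.dmS (N.gen (BxF N x)) p = gamF i p) →
      N.Res LF (BxF N x) (N.gen (BxF N x)) := by
    intro x i hx hx0 hg p hp
    obtain ⟨hG, hG0, hG4⟩ := hFGR K D hr N x hx hx0
    have hle : BxF N x ≤ N.gen (BxF N x) := le_sInf fun W hW => hW.2
    have hFx : N.F x ≠ 0 := by
      intro h
      apply hx0
      have h2 := N.F_r x
      rw [hr] at h2
      have h3 : N.F (N.F x) = x := h2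
      rw [← h3, h, map_zero]
    symm
    apply Submodule.eq_of_le_of_finrank_eq (Submodule.map_mono hle)
    have h1 : finrank K ((N.gen (BxF N x)).map (N.e p)) = gamF i p := hg p
    rw [h1]
    obtain ⟨v, k⟩ := p
    have hgam : ∀ (i : Fin 3) (v : Fin 6) (k : Fin 12), (v = 0 ∨ v = 4) →
        gamF i (v, k) = if k = 1 ∨ k = 3 then 1 else if k = 5 then 1 else 0 := by
      decide +kernel
    rw [hgam i v k hp]
    have hxF : ∀ k : Fin 12, (k = 1 ∨ k = 3) → xF k = 1 := by decide +kernel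
    rcases hp with h2 | h2
    · have h3 : v = 0 := h2
      subst h3
      rw [hG0 k]
      by_cases h4 : k = 1 ∨ k = 3
      · rw [if_pos h4, if_pos h4]
        have h6 : finrank K (LinearMap.range (N.e (0, k))) = xF k := (hD1 k).1
        rw [h6, hxF k h4]
      · rw [if_neg h4, if_neg h4]
        by_cases h5 : k = 5
        · rw [if_pos h5, if_pos h5]
          exact finrank_span_singleton hx0
        · rw [if_neg h5, if_neg h5]
          exact finrank_bot K _
    · have h3 : v = 4 := h2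
      subst h3
      rw [hG4 k]
      by_cases h4 : k = 1 ∨ k = 3
      · rw [if_pos h4, if_pos h4]
        have h6 : finrank K (LinearMap.range (N.e (4, k))) = xF k := (hD1 k).2
        rw [h6, hxF k h4]
      · rw [if_neg h4, if_neg h4]
        by_cases h5 : k = 5
        · rw [if_pos h5, if_pos h5]
          exact finrank_span_singleton hFx
        · rw [if_neg h5, if_neg h5]
          exact finrank_bot K _
  have hli := LinearIndependent.pair_iff.1 hBN.li
  refine ⟨f y₁, f y₃, hBN, ?_, ?_⟩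
  · refine hRes _ 0 hBN.e1 ?_ hBN.g0
    intro h
    have h1 := hli 1 0 (by rw [h, smul_zero, zero_smul, add_zero])
    exact one_ne_zero h1.1
  · intro c
    have h2 : N.e (0, 5) (c • f y₁ + f y₃) = c • f y₁ + f y₃ := by
      rw [map_add, map_smul, hBN.e1, hBN.e3]
    have h3 : c • f y₁ + f y₃ ≠ 0 := by
      intro h
      have h1 := hli c 1 (by rw [one_smul]; exact h)
      exact one_ne_zero h1.2
    by_cases hc1 : c * D.φ c = 1
    · exact hRes _ 1 h2 h3 (hBN.g1 c hc1)
    · exact hRes _ 2 h2 h3 (hBN.g2 c hc1)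

end Pool.Agent.Lib.MP_4c1f79_al
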