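import Pool.Agent.Lib.MP_4c1f79_al.StmF

/-!
# MP_4c1f79_al : the explicit model for the F4 block
-/

set_option autoImplicit false

namespace Pool.Agent.Lib.MP_4c1f79_al

open Finset Module

namespace FQM

/-- The labels: `false` the first copy, `true` the reflected copy. -/
abbrev J : Type := Bool × Fin 13

/-- Positions of the labels of the first copy. -/
def ps : Fin 13 → Fin 6 × Fin 12 :=
  ![(1, 0), (0, 1), (2, 1), (1, 2), (3, 2), (5, 2), (2, 3), (2, 3), (4, 3), (1, 4), (3, 4),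
    (0, 5), (4, 5)]

/-- Positions of the labels. -/
def pos (l : J) : Fin 6 × Fin 12 := if l.1 = true then sF (ps l.2) else ps l.2

/-- `A i j` is the coefficient of `i` in the image of `j`. -/
def A (i j : Fin 13) : ℤ :=
  if (i = 2 ∧ j = 3) ∨ (i = 5 ∧ j = 6) then -1
  else if (i = 0 ∧ (j = 1 ∨ j = 2)) ∨ (i = 1 ∧ j = 3) ∨ (i = 2 ∧ (j = 4 ∨ j = 5)) ∨
    (i = 4 ∧ (j = 6 ∨ j = 8)) ∨ (i = 3 ∧ j = 7) ∨ (i = 5 ∧ j = 7) ∨ (i = 6 ∧ j = 9) ∨
    (i = 7 ∧ j = 10) ∨ (i = 9 ∧ j = 11) ∨ (i = 10 ∧ j = 12) then 1 else 0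

theorem A_ar : ∀ (b : Bool) (i j : Fin 13), A i j ≠ 0 → MF.Ar (pos (b, j)) (pos (b, i)) := by
  decide +kernel

theorem A_mesh : ∀ (b : Bool) (i k : Fin 13), MF.Tau (pos (b, k)) (pos (b, i)) →
    ∑ j, A i j * A j k = 0 := by
  decide +kernel

theorem sF_sF (p : Fin 6 × Fin 12) : sF (sF p) = p := sF_per p

theorem pos_not (b : Bool) (j : Fin 13) : pos (b, j) = sF (pos (!b, j)) := by
  cases b
  · simp [pos, sF_sF]
  · simp [pos]

variable {K : Type} [Field K]

/-- The idempotents. -/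
def eM (p : Fin 6 × Fin 12) : (J → K) →ₗ[K] (J → K) where
  toFun f := fun l => if pos l = p then f l else 0
  map_add' f g := by
    funext l
    by_cases h : pos l = p <;> simp [h]
  map_smul' c f := by
    funext l
    by_cases h : pos l = p <;> simp [h]

theorem eM_apply (p : Fin 6 × Fin 12) (f : J → K) (l : J) :
    eM p f l = if pos l = p then f l else 0 := rfl

/-- The arrows. -/
def aM : (J → K) →ₗ[K] (J → K) where
  toFun f := fun l => ∑ j, (A l.2 j : K) * f (l.1, j)
  map_add' f g := by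
    funext l
    simp [mul_add, Finset.sum_add_distrib]
  map_smul' c f := by
    funext l
    simp only [Pi.smul_apply, smul_eq_mul, RingHom.id_apply, Finset.mul_sum]
    exact Finset.sum_congr rfl fun j _ => by ring

theorem aM_apply (f : J → K) (l : J) : aM f l = ∑ j, (A l.2 j : K) * f (l.1, j) := rfl

theorem aM_ar (p q : Fin 6 × Fin 12) (x : J → K) (h : ¬ MF.Ar p q) :
    eM q (aM (eM p x)) = 0 := by
  funext l
  rw [eM_apply]
  split_ifs with h1
  · rw [aM_apply]
    refine Finset.sum_eq_zero fun j _ => ?_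
    rw [eM_apply]
    split_ifs with h2
    · by_cases h3 : A l.2 j = 0
      · simp [h3]
      · exact absurd (h1 ▸ h2 ▸ A_ar l.1 l.2 j h3) h
    · simp
  · rfl

theorem aM_mesh (p r : Fin 6 × Fin 12) (x : J → K) (h : MF.Tau p r) :
    eM r (aM (aM (eM p x))) = 0 := by
  funext l
  rw [eM_apply]
  split_ifs with h1
  · rw [aM_apply]
    have h2 : ∀ j, (A l.2 j : K) * aM (eM p x) (l.1, j)
        = ∑ k, ((A l.2 j * A j k : ℤ) : K) * eM p x (l.1, k) := by
      intro j
      rw [aM_apply, Finset.mul_sum]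
      exact Finset.sum_congr rfl fun k _ => by push_cast; ring
    rw [Finset.sum_congr rfl fun j _ => h2 j, Finset.sum_comm]
    refine Finset.sum_eq_zero fun k _ => ?_
    rw [← Finset.sum_mul]
    rw [eM_apply]
    split_ifs with h3
    · have h4 := A_mesh l.1 l.2 k (by rw [h3, h1]; exact h)
      rw [← Int.cast_sum, h4]
      simp
    · simp
  · rfl

/-- The model. -/
noncomputable def Q (D : Fd K) (h2 : D.r = 2) : FM MF sF K D where
  T := J → K
  fn := by
    have : Finite K := Nat.finite_of_card_ne_zero (by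
      rw [D.card_K]
      exact pow_ne_zero _ (by have := D.q_gt; omega))
    infer_instance
  e := eM
  a := aM
  e_e p x := by
    funext l
    rw [eM_apply, eM_apply]
    split_ifs <;> rfl
  e_ne p q x hpq := by
    funext l
    rw [eM_apply, eM_apply]
    split_ifs with h3 h4
    · exact absurd (h3.symm.trans h4) hpq
    · rfl
    · rfl
  e_sum x := by
    funext l
    rw [Finset.sum_apply]
    simp only [eM_apply]
    simp
  a_ar p q x hpq := aM_ar p q x hpq
  mesh p r x hpr := aM_mesh p r x hpr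
  F :=
    { toFun := fun f l => D.φ (f (!l.1, l.2))
      map_smul' := fun c f => by
        funext l
        simp
      map_add' := fun f g => by
        funext l
        simp }
  F_e p x := by
    funext l
    show D.φ (eM p x (!l.1, l.2)) = eM (sF p) (fun l => D.φ (x (!l.1, l.2))) l
    rw [eM_apply, eM_apply]
    have h : pos l = sF p ↔ pos (!l.1, l.2) = p := by
      rw [show pos l = sF (pos (!l.1, l.2)) from pos_not l.1 l.2]
      exact sF.injective.eq_iff
    by_cases h3 : pos (!l.1, l.2) = p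
    · rw [if_pos h3, if_pos (h.2 h3)]
    · rw [if_neg h3, if_neg (fun h4 => h3 (h.1 h4)), map_zero]
  F_a x := by
    funext l
    show D.φ (aM x (!l.1, l.2)) = aM (fun l => D.φ (x (!l.1, l.2))) l
    rw [aM_apply, aM_apply, map_sum]
    refine Finset.sum_congr rfl fun j _ => ?_
    rw [map_mul, map_intCast]
  F_r x := by
    rw [h2]
    funext l
    have h3 := D.φ_r (x l)
    rw [h2] at h3
    show D.φ (D.φ (x (!!l.1, l.2))) = x l
    rw [Bool.not_not]
    exact h3

/-! ## Dimensions and socle -/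

theorem aM_ev (f : J → K) (b : Bool) : ∀ i : Fin 13, aM f (b, i) =
    (![f (b, 1) + f (b, 2), f (b, 3), -f (b, 3) + f (b, 4) + f (b, 5), f (b, 7),
      f (b, 6) + f (b, 8), -f (b, 6) + f (b, 7), f (b, 9), f (b, 10), 0, f (b, 11), f (b, 12),
      0, 0] : Fin 13 → K) i := by
  intro i
  rw [aM_apply, show (Finset.univ : Finset (Fin 13)) = {0, 1, 2, 3, 4, 5, 6, 7, 8, 9, 10, 11, 12}
    from by decide]
  fin_cases i <;> (simp [A]; try ring)

theorem cst (W : Submodule K (J → K)) (Fr : J → Prop) [DecidablePred Fr] (t : J → J) (κ : J → K)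
    (ht : ∀ l, ¬ Fr l → Fr (t l) ∧ pos (t l) = pos l)
    (hW : ∀ f, f ∈ W ↔ ∀ l, ¬ Fr l → f l = κ l * f (t l)) (p : Fin 6 × Fin 12) :
    finrank K (W.map (eM p)) = Fintype.card {l // Fr l ∧ pos l = p} := by
  classical
  let ρ : (J → K) →ₗ[K] ({l // Fr l ∧ pos l = p} → K) := LinearMap.funLeft K K Subtype.val
  have hbij : Function.Bijective (ρ.domRestrict (W.map (eM p))) := by
    constructor
    · rw [← LinearMap.ker_eq_bot, LinearMap.ker_eq_bot']
      rintro ⟨f, hf⟩ h0
      obtain ⟨g, hg, rfl⟩ := hf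
      apply Subtype.ext
      funext l
      show eM p g l = 0
      have h1 : ∀ l, Fr l → pos l = p → g l = 0 := by
        intro l hl hp
        have := congrFun h0 ⟨l, hl, hp⟩
        simpa [ρ, LinearMap.funLeft_apply, eM_apply, hp] using this
      rw [eM_apply]
      split_ifs with hp
      · by_cases hl : Fr l
        · exact h1 l hl hp
        · rw [(hW g).1 hg l hl, h1 (t l) (ht l hl).1 ((ht l hl).2.trans hp), mul_zero]
      · rfl
    · intro h
      let f : J → K := fun l => if hp : pos l = p then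
        (if hl : Fr l then h ⟨l, hl, hp⟩ else κ l * h ⟨t l, (ht l hl).1, (ht l hl).2.trans hp⟩)
        else 0
      have hf : f ∈ W := by
        rw [hW]
        intro l hl
        by_cases hp : pos l = p
        · have hp' : pos (t l) = p := (ht l hl).2.trans hp
          simp only [f, dif_pos hp, dif_neg hl, dif_pos hp', dif_pos (ht l hl).1]
        · have hp' : pos (t l) ≠ p := fun h => hp ((ht l hl).2.symm.trans h)
          simp only [f, dif_neg hp, dif_neg hp', mul_zero]
      refine ⟨⟨eM p f, Submodule.mem_map_of_mem hf⟩, ?_⟩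
      funext ⟨l, hl, hp⟩
      simp [ρ, LinearMap.funLeft_apply, eM_apply, hp, f, hl]
  rw [LinearEquiv.finrank_eq (LinearEquiv.ofBijective _ hbij), Module.finrank_fintype_fun_eq_card]

theorem dim_range (p : Fin 6 × Fin 12) :
    finrank K (LinearMap.range (eM (K := K) p)) = Fintype.card {l : J // pos l = p} := by
  have h := cst (K := K) ⊤ (fun _ => True) id 0 (fun l hl => absurd trivial hl)
    (fun f => ⟨fun _ l hl => absurd trivial hl, fun _ => Submodule.mem_top⟩) p
  rw [Submodule.map_top] at h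
  rw [h]
  exact Fintype.card_congr (Equiv.subtypeEquivRight fun l => by simp)

/-- Pivots. -/
def piv : Fin 13 → Fin 13 := ![0, 0, 0, 1, 2, 2, 4, 3, 4, 6, 7, 9, 10]

theorem piv_spec : ∀ j : Fin 13, j ≠ 0 → A (piv j) j = 1 ∧
    ∀ j' : Fin 13, j' ≠ j → ps j' = ps j → A (piv j) j' = 0 := by
  decide +kernel

theorem pos_inj (b : Bool) (j j' : Fin 13) (h : pos (b, j') = pos (b, j)) : ps j' = ps j := by
  cases b
  · simpa [pos] using h
  · exact sF.injective (by simpa [pos] using h)

theorem soc_zero (p : Fin 6 × Fin 12) (f : J → K) (h1 : eM p f = f) (h2 : aM f = 0) (b : Bool)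
    (j : Fin 13) (hj : j ≠ 0) : f (b, j) = 0 := by
  by_cases hp : pos (b, j) = p
  · have h3 := congrFun h2 (b, piv j)
    rw [aM_apply] at h3
    rw [Finset.sum_eq_single j] at h3
    · simpa [(piv_spec j hj).1] using h3
    · intro j' _ hne
      by_cases hp' : pos (b, j') = p
      · have := (piv_spec j hj).2 j' hne (pos_inj b j j' (hp'.trans hp.symm))
        simp [this]
      · have : f (b, j') = 0 := by
          rw [← h1, eM_apply, if_neg hp']
        simp [this]
    · intro h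
      exact absurd (Finset.mem_univ j) h
  · rw [← h1, eM_apply, if_neg hp]

theorem pos_zero : ∀ b : Bool, ((pos (b, 0)).1 = 1 ∨ (pos (b, 0)).1 = 3) ∧ (pos (b, 0)).2 = 0 := by
  decide

theorem pos_lv : ∀ (b : Bool) (j : Fin 13), (pos (b, j)).2 = 0 → j = 0 := by
  decide +kernel

theorem A_zero : ∀ i : Fin 13, A i 0 = 0 := by decide

theorem card_pos0 : ∀ p : Fin 6 × Fin 12, ((p.1 = 1 ∨ p.1 = 3) ∧ p.2 = 0) →
    Fintype.card {l : J // pos l = p} = 1 := by
  decide +kernel

theorem card_pos1 : Fintype.card {l : J // pos l = (0, 1)} = 1 ∧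
    Fintype.card {l : J // pos l = (0, 3)} = 1 ∧ Fintype.card {l : J // pos l = (4, 1)} = 1 ∧
    Fintype.card {l : J // pos l = (4, 3)} = 1 := by
  decide +kernel

theorem sc_Q (D : Fd K) (h2 : D.r = 2) (p : Fin 6 × Fin 12) :
    (Q D h2).toRp.sc p = ind bF p := by
  show finrank K (LinearMap.range (eM (K := K) p) ⊓ LinearMap.ker aM : Submodule K (J → K)) = _
  by_cases hp : p ∈ bF
  · have h1 : ind bF p = 1 := by simp [ind, hp]
    rw [h1, ← card_pos0 p hp, ← dim_range (K := K) p]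
    have hle : (LinearMap.range (eM (K := K) p) ⊓ LinearMap.ker aM : Submodule K (J → K))
        = LinearMap.range (eM (K := K) p) := inf_eq_left.2 ?_
    · rw [hle]
    rintro _ ⟨x, rfl⟩
    show aM (eM p x) = 0
    funext l
    rw [aM_apply]
    refine Finset.sum_eq_zero fun j _ => ?_
    by_cases hj : pos (l.1, j) = p
    · have : j = 0 := pos_lv l.1 j (by rw [hj]; exact hp.2)
      simp [this, A_zero]
    · simp [eM_apply, hj]
  · have h1 : ind bF p = 0 := by simp [ind, hp]
    rw [h1]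
    have : (LinearMap.range (eM (K := K) p) ⊓ LinearMap.ker aM : Submodule K (J → K)) = ⊥ := by
      rw [eq_bot_iff]
      rintro f ⟨⟨x, hx⟩, hf⟩
      rw [Submodule.mem_bot]
      have h3 : eM p f = f := by
        rw [← hx]
        funext l
        rw [eM_apply, eM_apply]
        split_ifs <;> rfl
      have h4 : aM f = 0 := hf
      funext l
      obtain ⟨b, j⟩ := l
      by_cases hj : j = 0
      · subst hj
        have h5 : pos (b, 0) ≠ p := by
          rintro rfl
          exact hp (pos_zero b)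
        rw [← h3, eM_apply, if_neg h5]
        rfl
      · exact soc_zero p f h3 h4 b j hj
    rw [this, finrank_bot]

/-! ## The generated subs -/

/-- Basis vectors. -/
def dl (l : J) : J → K := Pi.single l 1

theorem dl_apply (l l' : J) : (dl l : J → K) l' = if l' = l then 1 else 0 := by
  simp [dl, Pi.single_apply]

theorem mem_of (W : Submodule K (J → K)) (f : J → K) (h : ∀ l, f l ≠ 0 → dl l ∈ W) : f ∈ W := by
  have h1 : f = ∑ l, f l • dl l := by
    funext l
    rw [Finset.sum_apply]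
    simp [dl_apply]
  rw [h1]
  refine Submodule.sum_mem _ fun l _ => ?_
  by_cases hl : f l = 0
  · rw [hl, zero_smul]
    exact W.zero_mem
  · exact W.smul_mem _ (h l hl)

theorem a8 (b : Bool) : aM (dl (b, 8) : J → K) = dl (b, 4) := by
  funext ⟨b', i⟩
  rw [aM_ev]
  fin_cases i <;> simp [dl_apply]

theorem a4 (b : Bool) : aM (dl (b, 4) : J → K) = dl (b, 2) := by
  funext ⟨b', i⟩
  rw [aM_ev]
  fin_cases i <;> simp [dl_apply]

theorem a2 (b : Bool) : aM (dl (b, 2) : J → K) = dl (b, 0) := by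
  funext ⟨b', i⟩
  rw [aM_ev]
  fin_cases i <;> simp [dl_apply]

theorem a11 (b : Bool) : aM (dl (b, 11) : J → K) = dl (b, 9) := by
  funext ⟨b', i⟩
  rw [aM_ev]
  fin_cases i <;> simp [dl_apply]

theorem a12 (b : Bool) : aM (dl (b, 12) : J → K) = dl (b, 10) := by
  funext ⟨b', i⟩
  rw [aM_ev]
  fin_cases i <;> simp [dl_apply]

theorem a9 (b : Bool) : aM (dl (b, 9) : J → K) = dl (b, 6) := by
  funext ⟨b', i⟩
  rw [aM_ev]
  fin_cases i <;> simp [dl_apply]

theorem a10 (b : Bool) : aM (dl (b, 10) : J → K) = dl (b, 7) := by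
  funext ⟨b', i⟩
  rw [aM_ev]
  fin_cases i <;> simp [dl_apply]

theorem a6 (b : Bool) : aM (dl (b, 6) : J → K) = dl (b, 4) - dl (b, 5) := by
  funext ⟨b', i⟩
  rw [aM_ev]
  fin_cases i <;> simp [dl_apply]

theorem a7 (b : Bool) : aM (dl (b, 7) : J → K) = dl (b, 3) + dl (b, 5) := by
  funext ⟨b', i⟩
  rw [aM_ev]
  fin_cases i <;> simp [dl_apply]

theorem e_dl (p : Fin 6 × Fin 12) (l : J) : eM p (dl l : J → K) = if pos l = p then dl l else 0 := by
  funext l'
  rw [eM_apply]
  by_cases h : pos l = p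
  · rw [if_pos h]
    by_cases h' : l' = l
    · simp [h', h]
    · simp [dl_apply, h']
  · rw [if_neg h]
    by_cases h' : l' = l
    · simp [h', h]
    · simp [dl_apply, h']

/-- The map `F` of the model. -/
def Fm (D : Fd K) (x : J → K) : J → K := fun l => D.φ (x (!l.1, l.2))

theorem Fm_apply (D : Fd K) (x : J → K) (l : J) : Fm D x l = D.φ (x (!l.1, l.2)) := rfl

theorem F_dl (D : Fd K) (b : Bool) (j : Fin 13) :
    Fm D (dl (b, j) : J → K) = (dl (!b, j) : J → K) := by
  funext ⟨b', j'⟩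
  show D.φ ((dl (b, j) : J → K) (!b', j')) = _
  rw [dl_apply, dl_apply]
  have : ((!b', j') = (b, j)) ↔ ((b', j') = (!b, j)) := by
    cases b <;> cases b' <;> simp
  by_cases h : (!b', j') = (b, j)
  · rw [if_pos h, if_pos (this.1 h), map_one]
  · rw [if_neg h, if_neg (fun h' => h (this.2 h')), map_zero]

/-- Stable subspaces of the model. -/
structure StM (D : Fd K) (W : Submodule K (J → K)) : Prop where
  e : ∀ p, ∀ x ∈ W, eM p x ∈ W
  a : ∀ x ∈ W, aM x ∈ W
  F : ∀ x ∈ W, Fm D x ∈ W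

/-- `BxF` in the model. -/
def BB (D : Fd K) (x : J → K) : Submodule K (J → K) :=
  Submodule.span K {x, Fm D x} ⊔ LinearMap.range (eM (0, 1)) ⊔ LinearMap.range (eM (0, 3)) ⊔
    LinearMap.range (eM (4, 1)) ⊔ LinearMap.range (eM (4, 3))

theorem gen_eq (D : Fd K) (h2 : D.r = 2) (x : J → K) (W : Submodule K (J → K)) (h1 : StM D W)
    (h3 : BB D x ≤ W) (h4 : ∀ W' : Submodule K (J → K), StM D W' → BB D x ≤ W' → W ≤ W') :
    (Q D h2).gen (BxF (Q D h2) x) = W :=
  le_antisymm (sInf_le ⟨⟨⟨h1.e, h1.a⟩, h1.F⟩, h3⟩)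
    (le_sInf fun W' h => h4 W' ⟨h.1.1.1, h.1.1.2, h.1.2⟩ h.2)

/-- The low part is generated by the rows. -/
theorem low (D : Fd K) (x : J → K) (W : Submodule K (J → K))
    (hW : StM D W) (hB : BB D x ≤ W) (b : Bool) :
    dl (b, 8) ∈ W ∧ dl (b, 4) ∈ W ∧ dl (b, 2) ∈ W ∧ dl (b, 1) ∈ W ∧ dl (b, 0) ∈ W := by
  have hr : ∀ (p : Fin 6 × Fin 12) (l : J), pos l = p →
      (dl l : J → K) ∈ LinearMap.range (eM (K := K) p) := by
    intro p l hl
    refine ⟨(dl l : J → K), ?_⟩
    rw [e_dl, if_pos hl]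
  have h8 : (dl (b, 8) : J → K) ∈ W := by
    apply hB
    cases b
    · exact Submodule.mem_sup_right (hr (4, 3) _ (by decide))
    · exact Submodule.mem_sup_left (Submodule.mem_sup_left
        (Submodule.mem_sup_right (hr (0, 3) _ (by decide))))
  have h1 : (dl (b, 1) : J → K) ∈ W := by
    apply hB
    cases b
    · exact Submodule.mem_sup_left (Submodule.mem_sup_left (Submodule.mem_sup_left
        (Submodule.mem_sup_right (hr (0, 1) _ (by decide)))))
    · exact Submodule.mem_sup_left (Submodule.mem_sup_right (hr (4, 1) _ (by decide)))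
  have h4 : (dl (b, 4) : J → K) ∈ W := by
    rw [← a8]; exact hW.a _ h8
  have h3 : (dl (b, 2) : J → K) ∈ W := by
    rw [← a4]; exact hW.a _ h4
  have h0 : (dl (b, 0) : J → K) ∈ W := by
    rw [← a2]; exact hW.a _ h3
  exact ⟨h8, h4, h3, h1, h0⟩

/-- The subspace of case `0`. -/
def W0 : Submodule K (J → K) where
  carrier := {f | ∀ b, f (b, 3) = 0 ∧ f (b, 7) = 0 ∧ f (b, 10) = 0 ∧ f (b, 12) = 0}
  zero_mem' := fun b => ⟨rfl, rfl, rfl, rfl⟩
  add_mem' := fun {f g} hf hg b => by
    obtain ⟨h1, h2, h3, h4⟩ := hf b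
    obtain ⟨h1', h2', h3', h4'⟩ := hg b
    simp [h1, h2, h3, h4, h1', h2', h3', h4']
  smul_mem' := fun c f hf b => by
    obtain ⟨h1, h2, h3, h4⟩ := hf b
    simp [h1, h2, h3, h4]

theorem mem_W0 (f : J → K) : f ∈ (W0 : Submodule K (J → K)) ↔
    ∀ b, f (b, 3) = 0 ∧ f (b, 7) = 0 ∧ f (b, 10) = 0 ∧ f (b, 12) = 0 := Iff.rfl

/-- The subspace of case `2`. -/
def W2 (κ : Bool → K) : Submodule K (J → K) where
  carrier := {f | ∀ b, f (b, 11) = κ b * f (!b, 12) ∧ f (b, 9) = κ b * f (!b, 10) ∧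
    f (b, 6) = κ b * f (!b, 7)}
  zero_mem' := fun b => by simp
  add_mem' := fun {f g} hf hg b => by
    obtain ⟨h1, h2, h3⟩ := hf b
    obtain ⟨h1', h2', h3'⟩ := hg b
    simp only [Pi.add_apply, h1, h2, h3, h1', h2', h3', mul_add, and_self]
  smul_mem' := fun c f hf b => by
    obtain ⟨h1, h2, h3⟩ := hf b
    simp only [Pi.smul_apply, smul_eq_mul, h1, h2, h3]
    refine ⟨by ring, by ring, by ring⟩

theorem mem_W2 (κ : Bool → K) (f : J → K) : f ∈ W2 κ ↔
    ∀ b, f (b, 11) = κ b * f (!b, 12) ∧ f (b, 9) = κ b * f (!b, 10) ∧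
      f (b, 6) = κ b * f (!b, 7) := Iff.rfl

/-- The subspace of case `1`. -/
def W1 (κ : Bool → K) : Submodule K (J → K) where
  carrier := {f | f ∈ W2 κ ∧ f (false, 5) = - κ false * f (true, 5)}
  zero_mem' := ⟨Submodule.zero_mem _, by simp⟩
  add_mem' := fun {f g} hf hg => ⟨Submodule.add_mem _ hf.1 hg.1, by
    simp only [Pi.add_apply, hf.2, hg.2]; ring⟩
  smul_mem' := fun c f hf => ⟨Submodule.smul_mem _ c hf.1, by
    simp only [Pi.smul_apply, smul_eq_mul, hf.2]; ring⟩

theorem mem_W1 (κ : Bool → K) (f : J → K) : f ∈ W1 κ ↔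
    f ∈ W2 κ ∧ f (false, 5) = - κ false * f (true, 5) := Iff.rfl

theorem St_W0 (D : Fd K) : StM D (W0 : Submodule K (J → K)) := by
  refine ⟨?_, ?_, ?_⟩
  · intro p x hx b
    obtain ⟨h3, h7, h10, h12⟩ := (mem_W0 x).1 hx b
    simp only [eM_apply, h3, h7, h10, h12, ite_self, and_self]
  · intro x hx b
    obtain ⟨h3, h7, h10, h12⟩ := (mem_W0 x).1 hx b
    simp only [aM_ev]
    simp [h7, h10, h12]
  · intro x hx b
    obtain ⟨h3, h7, h10, h12⟩ := (mem_W0 x).1 hx (!b)
    simp only [Fm_apply, h3, h7, h10, h12, map_zero, and_self]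

theorem pos_11 (b : Bool) : pos (!b, 12) = pos (b, 11) := by cases b <;> decide

theorem pos_9 (b : Bool) : pos (!b, 10) = pos (b, 9) := by cases b <;> decide

theorem pos_6 (b : Bool) : pos (!b, 7) = pos (b, 6) := by cases b <;> decide

theorem St_W2 (D : Fd K) (κ : Bool → K) (hκ : ∀ b, D.φ (κ b) = κ (!b)) :
    StM D (W2 κ : Submodule K (J → K)) := by
  refine ⟨?_, ?_, ?_⟩
  · intro p x hx b
    obtain ⟨h11, h9, h6⟩ := (mem_W2 κ x).1 hx b
    simp only [eM_apply, h11, h9, h6, pos_11, pos_9, pos_6, mul_ite, mul_zero, and_self]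
  · intro x hx b
    obtain ⟨h11, h9, h6⟩ := (mem_W2 κ x).1 hx b
    simp only [aM_ev]
    simp [h11, h9]
  · intro x hx b
    obtain ⟨h11, h9, h6⟩ := (mem_W2 κ x).1 hx (!b)
    have hb := hκ (!b)
    rw [Bool.not_not] at hb
    simp only [Fm_apply, h11, h9, h6, map_mul, hb, Bool.not_not, and_self]

theorem St_W1 (D : Fd K) (κ : Bool → K) (hκ : ∀ b, D.φ (κ b) = κ (!b))
    (h1 : κ false * κ true = 1) : StM D (W1 κ : Submodule K (J → K)) := by
  have hS := St_W2 D κ hκ
  refine ⟨?_, ?_, ?_⟩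
  · intro p x hx
    refine ⟨hS.e p x hx.1, ?_⟩
    have hp : pos (true, 5) = pos (false, 5) := by decide
    rw [eM_apply, eM_apply, hp, hx.2]
    split_ifs
    · rfl
    · simp
  · intro x hx
    refine ⟨hS.a x hx.1, ?_⟩
    obtain ⟨_, _, h6⟩ := (mem_W2 κ x).1 hx.1 false
    obtain ⟨_, _, h6'⟩ := (mem_W2 κ x).1 hx.1 true
    rw [aM_ev, aM_ev]
    simp only [Bool.not_false, Bool.not_true] at h6 h6'
    simp [h6, h6']
    linear_combination (- x (false, 7)) * h1
  · intro x hx
    refine ⟨hS.F x hx.1, ?_⟩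
    have h5 := hx.2
    have hb := hκ false
    rw [Bool.not_false] at hb
    simp only [Fm_apply, Bool.not_false, Bool.not_true]
    rw [h5, map_mul, map_neg, hb]
    linear_combination (- D.φ (x (true, 5))) * h1

theorem pos_row : ∀ (b : Bool) (j : Fin 13), (j ≠ 0 ∧ j ≠ 1 ∧ j ≠ 2 ∧ j ≠ 4 ∧ j ≠ 8) →
    pos (b, j) ≠ (0, 1) ∧ pos (b, j) ≠ (0, 3) ∧ pos (b, j) ≠ (4, 1) ∧ pos (b, j) ≠ (4, 3) := by
  decide +kernel

theorem B_le (D : Fd K) (x : J → K) (W : Submodule K (J → K))
    (hW : StM D W) (hx : x ∈ W)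
    (h : ∀ f : J → K, (∀ (b : Bool) (j : Fin 13), (j ≠ 0 ∧ j ≠ 1 ∧ j ≠ 2 ∧ j ≠ 4 ∧ j ≠ 8) →
      f (b, j) = 0) → f ∈ W) : BB D x ≤ W := by
  have hr : ∀ p : Fin 6 × Fin 12, (∀ (b : Bool) (j : Fin 13),
      (j ≠ 0 ∧ j ≠ 1 ∧ j ≠ 2 ∧ j ≠ 4 ∧ j ≠ 8) → pos (b, j) ≠ p) →
      LinearMap.range (eM p) ≤ W := by
    rintro p hp _ ⟨g, rfl⟩
    apply h
    intro b j hj
    rw [eM_apply, if_neg (hp b j hj)]
  refine sup_le (sup_le (sup_le (sup_le ?_ (hr _ fun b j hj => (pos_row b j hj).1))
    (hr _ fun b j hj => (pos_row b j hj).2.1)) (hr _ fun b j hj => (pos_row b j hj).2.2.1))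
    (hr _ fun b j hj => (pos_row b j hj).2.2.2)
  rw [Submodule.span_le]
  intro y hy
  rcases hy with rfl | hy
  · exact hx
  · rw [Set.mem_singleton_iff] at hy
    rw [hy]
    exact hW.F x hx

/-- The vectors `κ b • (b, j₁) + (!b, j₂)`. -/
def vv (κ : Bool → K) (b : Bool) (j₁ j₂ : Fin 13) : J → K := κ b • dl (b, j₁) + dl (!b, j₂)

theorem vv_apply (κ : Bool → K) (b : Bool) (j₁ j₂ : Fin 13) (l : J) :
    vv κ b j₁ j₂ l = κ b * (if l = (b, j₁) then 1 else 0) + (if l = (!b, j₂) then 1 else 0) := by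
  simp [vv, dl_apply]

theorem F_vv (D : Fd K) (κ : Bool → K) (hκ : ∀ b, D.φ (κ b) = κ (!b))
    (j₁ j₂ : Fin 13) : Fm D (vv κ false j₁ j₂) = vv κ true j₁ j₂ := by
  have h : Fm D (vv κ false j₁ j₂) = D.φ (κ false) • Fm D (dl (false, j₁) : J → K)
      + Fm D (dl (!false, j₂) : J → K) := by
    funext l
    show D.φ (vv κ false j₁ j₂ (!l.1, l.2)) = D.φ (κ false) * D.φ ((dl (false, j₁) : J → K)
      (!l.1, l.2)) + D.φ ((dl (!false, j₂) : J → K) (!l.1, l.2))
    rw [← map_mul, ← map_add]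
    rfl
  rw [h, F_dl, F_dl, hκ false]
  rfl

theorem x_mem (D : Fd K) (x : J → K) : x ∈ BB D x ∧ Fm D x ∈ BB D x := by
  have h : ∀ y ∈ ({x, Fm D x} : Set (J → K)), y ∈ BB D x := fun y hy =>
    Submodule.mem_sup_left (Submodule.mem_sup_left (Submodule.mem_sup_left
      (Submodule.mem_sup_left (Submodule.subset_span hy))))
  exact ⟨h x (Set.mem_insert _ _), h _ (Set.mem_insert_of_mem _ (Set.mem_singleton _))⟩

theorem gen_0 (D : Fd K) (h2 : D.r = 2) :
    (Q D h2).gen (BxF (Q D h2) (dl (false, 11) : J → K)) = (W0 : Submodule K (J → K)) := by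
  refine gen_eq D h2 _ _ (St_W0 D) (B_le D _ _ (St_W0 D) ?_ ?_) ?_
  · rw [mem_W0]
    intro b
    simp [dl_apply]
  · intro f hf b
    exact ⟨hf b 3 (by decide), hf b 7 (by decide), hf b 10 (by decide), hf b 12 (by decide)⟩
  · intro W hW hB f hf
    have hl := low D _ W hW hB
    have h11 : ∀ b, (dl (b, 11) : J → K) ∈ W := by
      intro b
      cases b
      · exact hB (x_mem D _).1
      · have := hB (x_mem D _).2
        rwa [F_dl] at this
    have h9 : ∀ b, (dl (b, 9) : J → K) ∈ W := fun b => by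
      rw [← a11]; exact hW.a _ (h11 b)
    have h6 : ∀ b, (dl (b, 6) : J → K) ∈ W := fun b => by
      rw [← a9]; exact hW.a _ (h9 b)
    have h5 : ∀ b, (dl (b, 5) : J → K) ∈ W := fun b => by
      have h := hW.a _ (h6 b)
      rw [a6] at h
      have h' := W.sub_mem (hl b).2.1 h
      simpa using h'
    refine mem_of W f ?_
    rintro ⟨b, j⟩ hb
    obtain ⟨k3, k7, k10, k12⟩ := (mem_W0 f).1 hf b
    obtain ⟨m8, m4, m2, m1, m0⟩ := hl b
    fin_cases j
    · exact m0
    · exact m1
    · exact m2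
    · exact absurd k3 hb
    · exact m4
    · exact h5 b
    · exact h6 b
    · exact absurd k7 hb
    · exact m8
    · exact h9 b
    · exact absurd k10 hb
    · exact h11 b
    · exact absurd k12 hb

/-- The common part of the cases `1` and `2`. -/
theorem up (D : Fd K) (κ : Bool → K) (hκ : ∀ b, D.φ (κ b) = κ (!b))
    (W : Submodule K (J → K)) (hW : StM D W)
    (hB : BB D (vv κ false 11 12) ≤ W) (b : Bool) :
    vv κ b 11 12 ∈ W ∧ vv κ b 9 10 ∈ W ∧ vv κ b 6 7 ∈ W ∧ (dl (b, 3) : J → K) ∈ W ∧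
      (dl (!b, 5) - κ b • dl (b, 5) : J → K) ∈ W := by
  have hl := low D _ W hW hB
  have h11 : ∀ b, vv κ b 11 12 ∈ W := by
    intro b
    cases b
    · exact hB (x_mem D _).1
    · have := hB (x_mem D _).2
      rwa [F_vv D κ hκ] at this
  have ha : ∀ b j₁ j₂, aM (vv κ b j₁ j₂) = κ b • aM (dl (b, j₁)) + aM (dl (!b, j₂)) := by
    intro b j₁ j₂
    rw [vv, map_add, map_smul]
  have h9 : ∀ b, vv κ b 9 10 ∈ W := fun b => by
    have h : aM (vv κ b 11 12) ∈ W := hW.a _ (h11 b)
    rwa [ha, a11, a12] at h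
  have h6 : ∀ b, vv κ b 6 7 ∈ W := fun b => by
    have h : aM (vv κ b 9 10) ∈ W := hW.a _ (h9 b)
    rwa [ha, a9, a10] at h
  have h5 : ∀ b, (dl (!b, 3) : J → K) + (dl (!b, 5) - κ b • dl (b, 5)) ∈ W := fun b => by
    have h : aM (vv κ b 6 7) ∈ W := hW.a _ (h6 b)
    rw [ha, a6, a7] at h
    have h' := W.sub_mem h (W.smul_mem (κ b) (hl b).2.1)
    convert h' using 1
    module
  have h53 : ∀ b, (dl (!b, 5) - κ b • dl (b, 5) : J → K) ∈ W := fun b => by
    have h : eM (5, 2) ((dl (!b, 3) : J → K) + (dl (!b, 5) - κ b • dl (b, 5))) ∈ W :=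
      hW.e _ _ (h5 b)
    rw [map_add, map_sub, map_smul, e_dl, e_dl, e_dl, if_neg, if_pos, if_pos, zero_add] at h
    · exact h
    · cases b <;> decide
    · cases b <;> decide
    · cases b <;> decide
  have h3 : ∀ b, (dl (!b, 3) : J → K) ∈ W := fun b => by
    have := W.sub_mem (h5 b) (h53 b)
    simpa using this
  have h3' := h3 (!b)
  rw [Bool.not_not] at h3'
  exact ⟨h11 b, h9 b, h6 b, h3', h53 b⟩

/-- Subtract the combination of the special vectors. -/
theorem red (κ : Bool → K) (W : Submodule K (J → K)) (h11 : ∀ b, vv κ b 11 12 ∈ W)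
    (h9 : ∀ b, vv κ b 9 10 ∈ W) (h6 : ∀ b, vv κ b 6 7 ∈ W) (f : J → K) (hf : f ∈ W2 κ)
    (hlow : ∀ g : J → K, (∀ (b : Bool) (j : Fin 13), (j = 6 ∨ j = 7 ∨ j = 9 ∨ j = 10 ∨ j = 11 ∨
      j = 12) → g (b, j) = 0) → g (false, 5) = f (false, 5) → g (true, 5) = f (true, 5) →
      g ∈ W) : f ∈ W := by
  set g : J → K := f - (f (true, 12) • vv κ false 11 12 + f (false, 12) • vv κ true 11 12
    + f (true, 10) • vv κ false 9 10 + f (false, 10) • vv κ true 9 10
    + f (true, 7) • vv κ false 6 7 + f (false, 7) • vv κ true 6 7) with hg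
  have hgW : g ∈ W := by
    obtain ⟨k11, k9, k6⟩ := (mem_W2 κ f).1 hf false
    obtain ⟨k11', k9', k6'⟩ := (mem_W2 κ f).1 hf true
    simp only [Bool.not_false, Bool.not_true] at k11 k9 k6 k11' k9' k6'
    apply hlow
    · rintro b j (rfl | rfl | rfl | rfl | rfl | rfl) <;> cases b <;>
        simp [hg, vv_apply, k11, k9, k6, k11', k9', k6'] <;> ring
    · simp [hg, vv_apply]
    · simp [hg, vv_apply]
  have : f = g + (f (true, 12) • vv κ false 11 12 + f (false, 12) • vv κ true 11 12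
    + f (true, 10) • vv κ false 9 10 + f (false, 10) • vv κ true 9 10
    + f (true, 7) • vv κ false 6 7 + f (false, 7) • vv κ true 6 7) := by
    rw [hg]; abel
  rw [this]
  refine W.add_mem hgW ?_
  refine W.add_mem (W.add_mem (W.add_mem (W.add_mem (W.add_mem ?_ ?_) ?_) ?_) ?_) ?_
  · exact W.smul_mem _ (h11 _)
  · exact W.smul_mem _ (h11 _)
  · exact W.smul_mem _ (h9 _)
  · exact W.smul_mem _ (h9 _)
  · exact W.smul_mem _ (h6 _)
  · exact W.smul_mem _ (h6 _)

theorem gen_2 (D : Fd K) (h2 : D.r = 2) (κ : Bool → K) (hκ : ∀ b, D.φ (κ b) = κ (!b))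
    (h1 : κ false * κ true ≠ 1) :
    (Q D h2).gen (BxF (Q D h2) (vv κ false 11 12)) = W2 κ := by
  refine gen_eq D h2 _ _ (St_W2 D κ hκ) (B_le D _ _ (St_W2 D κ hκ) ?_ ?_) ?_
  · rw [mem_W2]
    intro b
    cases b <;> simp [vv_apply]
  · intro f hf b
    simp only [hf b 11 (by decide), hf (!b) 12 (by decide), hf b 9 (by decide),
      hf (!b) 10 (by decide), hf b 6 (by decide), hf (!b) 7 (by decide), mul_zero, and_self]
  · intro W hW hB f hf
    have hl := low D _ W hW hB
    have hu := up D κ hκ W hW hB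
    have h5f : (dl (false, 5) : J → K) ∈ W := by
      have k1 := (hu false).2.2.2.2
      have k2 := (hu true).2.2.2.2
      simp only [Bool.not_false, Bool.not_true] at k1 k2
      have k3 := W.add_mem k2 (W.smul_mem (κ true) k1)
      have k4 : (dl (false, 5) - κ true • dl (true, 5) +
          κ true • (dl (true, 5) - κ false • dl (false, 5)) : J → K)
          = (1 - κ false * κ true) • (dl (false, 5) : J → K) := by module
      rw [k4] at k3
      exact (W.smul_mem_iff (sub_ne_zero.2 (Ne.symm h1))).1 k3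
    have h5t : (dl (true, 5) : J → K) ∈ W := by
      have k1 := (hu false).2.2.2.2
      simp only [Bool.not_false] at k1
      have k3 := W.add_mem k1 (W.smul_mem (κ false) h5f)
      simpa using k3
    refine red κ W (fun b => (hu b).1) (fun b => (hu b).2.1) (fun b => (hu b).2.2.1) f hf ?_
    intro g hg _ _
    refine mem_of W g ?_
    rintro ⟨b, j⟩ hb
    obtain ⟨m8, m4, m2, m1, m0⟩ := hl b
    fin_cases j
    · exact m0
    · exact m1
    · exact m2
    · exact (hu b).2.2.2.1
    · exact m4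
    · cases b
      · exact h5f
      · exact h5t
    · exact absurd (hg b 6 (by decide)) hb
    · exact absurd (hg b 7 (by decide)) hb
    · exact m8
    · exact absurd (hg b 9 (by decide)) hb
    · exact absurd (hg b 10 (by decide)) hb
    · exact absurd (hg b 11 (by decide)) hb
    · exact absurd (hg b 12 (by decide)) hb

theorem gen_1 (D : Fd K) (h2 : D.r = 2) (κ : Bool → K) (hκ : ∀ b, D.φ (κ b) = κ (!b))
    (h1 : κ false * κ true = 1) :
    (Q D h2).gen (BxF (Q D h2) (vv κ false 11 12)) = W1 κ := by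
  refine gen_eq D h2 _ _ (St_W1 D κ hκ h1) (B_le D _ _ (St_W1 D κ hκ h1) ?_ ?_) ?_
  · rw [mem_W1, mem_W2]
    refine ⟨?_, ?_⟩
    · intro b
      cases b <;> simp [vv_apply]
    · simp [vv_apply]
  · intro f hf
    rw [mem_W1, mem_W2]
    refine ⟨fun b => ?_, ?_⟩
    · simp only [hf b 11 (by decide), hf (!b) 12 (by decide), hf b 9 (by decide),
        hf (!b) 10 (by decide), hf b 6 (by decide), hf (!b) 7 (by decide), mul_zero, and_self]
    · simp only [hf false 5 (by decide), hf true 5 (by decide), mul_zero]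
  · rintro W hW hB f ⟨hf, hf5⟩
    have hl := low D _ W hW hB
    have hu := up D κ hκ W hW hB
    have k1 := (hu false).2.2.2.2
    simp only [Bool.not_false] at k1
    refine red κ W (fun b => (hu b).1) (fun b => (hu b).2.1) (fun b => (hu b).2.2.1) f hf ?_
    intro g hg hgf hgt
    set g' : J → K := g - f (true, 5) • (dl (true, 5) - κ false • dl (false, 5)) with hg'
    have hg'W : g' ∈ W := by
      refine mem_of W g' ?_
      rintro ⟨b, j⟩ hb
      obtain ⟨m8, m4, m2, m1, m0⟩ := hl b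
      have hz : ∀ j : Fin 13, (j = 6 ∨ j = 7 ∨ j = 9 ∨ j = 10 ∨ j = 11 ∨ j = 12) →
          g' (b, j) = 0 := by
        intro j hj
        have hj5 : j ≠ 5 := by rcases hj with rfl | rfl | rfl | rfl | rfl | rfl <;> decide
        simp [hg', hg b j hj, dl_apply, hj5]
      fin_cases j
      · exact m0
      · exact m1
      · exact m2
      · exact (hu b).2.2.2.1
      · exact m4
      · exfalso
        apply hb
        cases b
        · simp [hg', dl_apply, hgf, hf5, mul_comm]
        · simp [hg', dl_apply, hgt]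
      · exact absurd (hz 6 (by decide)) hb
      · exact absurd (hz 7 (by decide)) hb
      · exact m8
      · exact absurd (hz 9 (by decide)) hb
      · exact absurd (hz 10 (by decide)) hb
      · exact absurd (hz 11 (by decide)) hb
      · exact absurd (hz 12 (by decide)) hb
    have : g = g' + f (true, 5) • (dl (true, 5) - κ false • dl (false, 5)) := by
      rw [hg']; abel
    rw [this]
    exact W.add_mem hg'W (W.smul_mem _ k1)

/-! ## The dimension vectors -/

theorem dim_0 (p : Fin 6 × Fin 12) :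
    finrank K ((W0 : Submodule K (J → K)).map (eM p)) = gamF 0 p := by
  have h := cst (K := K) W0 (fun l => l.2 ≠ 3 ∧ l.2 ≠ 7 ∧ l.2 ≠ 10 ∧ l.2 ≠ 12)
    (fun l => if l.2 = 7 then (l.1, 6) else (!l.1, if l.2 = 12 then 11 else
      if l.2 = 10 then 9 else 4)) 0 (by decide +kernel) ?_ p
  · rw [h]
    clear h
    revert p
    decide +kernel
  · intro f
    rw [mem_W0]
    constructor
    · rintro hf ⟨b, j⟩ hj
      obtain ⟨h3, h7, h10, h12⟩ := hf b
      have hj' : j = 3 ∨ j = 7 ∨ j = 10 ∨ j = 12 := by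
        by_contra hne
        push Not at hne
        exact hj hne
      rcases hj' with rfl | rfl | rfl | rfl <;> simp [h3, h7, h10, h12]
    · intro hf b
      have h3 := hf (b, 3) (by simp)
      have h7 := hf (b, 7) (by simp)
      have h10 := hf (b, 10) (by simp)
      have h12 := hf (b, 12) (by simp)
      simp only [Pi.zero_apply, zero_mul] at h3 h7 h10 h12
      exact ⟨h3, h7, h10, h12⟩

/-- Partners. -/
def t2 (l : J) : J := (!l.1, if l.2 = 11 then 12 else if l.2 = 9 then 10 else 7)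

theorem W2_iff (κ : Bool → K) (f : J → K) : f ∈ W2 κ ↔
    ∀ l : J, ¬ (l.2 ≠ 6 ∧ l.2 ≠ 9 ∧ l.2 ≠ 11) → f l = κ l.1 * f (t2 l) := by
  rw [mem_W2]
  constructor
  · rintro hf ⟨b, j⟩ hj
    obtain ⟨h11, h9, h6⟩ := hf b
    have hj' : j = 6 ∨ j = 9 ∨ j = 11 := by
      by_contra hne
      push Not at hne
      exact hj hne
    rcases hj' with rfl | rfl | rfl <;> simp [h11, h9, h6, t2]
  · intro hf b
    have h6 := hf (b, 6) (by simp)
    have h9 := hf (b, 9) (by simp)
    have h11 := hf (b, 11) (by simp)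
    simp [t2] at h6 h9 h11
    exact ⟨h11, h9, h6⟩

theorem dim_2 (κ : Bool → K) (p : Fin 6 × Fin 12) :
    finrank K ((W2 κ : Submodule K (J → K)).map (eM p)) = gamF 2 p := by
  rw [cst (K := K) (W2 κ) (fun l => l.2 ≠ 6 ∧ l.2 ≠ 9 ∧ l.2 ≠ 11) t2 (fun l => κ l.1)
    (by decide +kernel) (W2_iff κ) p]
  revert p
  decide +kernel

theorem dim_1 (κ : Bool → K) (p : Fin 6 × Fin 12) :
    finrank K ((W1 κ : Submodule K (J → K)).map (eM p)) = gamF 1 p := by
  have h := cst (K := K) (W1 κ) (fun l => (l.2 ≠ 6 ∧ l.2 ≠ 9 ∧ l.2 ≠ 11) ∧ l ≠ (false, 5))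
    (fun l => if l = (false, 5) then (true, 5) else t2 l)
    (fun l => if l = (false, 5) then - κ false else κ l.1) (by decide +kernel) ?_ p
  · rw [h]
    clear h
    revert p
    decide +kernel
  · intro f
    rw [mem_W1, W2_iff]
    constructor
    · rintro ⟨hf, h5⟩ l hl
      by_cases hl5 : l = (false, 5)
      · rw [if_pos hl5, if_pos hl5, hl5]
        exact h5
      · rw [if_neg hl5, if_neg hl5]
        exact hf l fun h => hl ⟨h, hl5⟩
    · intro hf
      refine ⟨fun l hl => ?_, ?_⟩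
      · have h1 := hf l fun h => hl h.1
        have hl5 : l ≠ (false, 5) := by
          rintro rfl
          exact hl (by decide)
        rwa [if_neg hl5, if_neg hl5] at h1
      · have h1 := hf (false, 5) (fun h => h.2 rfl)
        rwa [if_pos rfl, if_pos rfl] at h1

theorem bas (D : Fd K) (h2 : D.r = 2) :
    BasF (Q D h2) (dl (false, 11) : J → K) (dl (true, 12) : J → K) where
  e1 := by
    show eM (0, 5) (dl (false, 11) : J → K) = dl (false, 11)
    rw [e_dl, if_pos (by decide)]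
  e3 := by
    show eM (0, 5) (dl (true, 12) : J → K) = dl (true, 12)
    rw [e_dl, if_pos (by decide)]
  li := by
    show LinearIndependent K ![(dl (false, 11) : J → K), (dl (true, 12) : J → K)]
    rw [LinearIndependent.pair_iff]
    intro a b h
    have h1 := congrFun h (false, 11)
    have h3 := congrFun h (true, 12)
    simp [dl_apply] at h1 h3
    exact ⟨h1, h3⟩
  g0 p := by
    rw [gen_0 D h2]
    exact dim_0 p
  g1 c hc p := by
    have hφ : D.φ (D.φ c) = c := by
      have h3 := D.φ_r c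
      rw [h2] at h3
      exact h3
    have h := gen_1 D h2 (fun b => if b = true then D.φ c else c)
      (by intro b; cases b <;> simp [hφ]) (by simpa using hc)
    have hx : (c • (dl (false, 11) : J → K) + (dl (true, 12) : J → K))
        = vv (fun b => if b = true then D.φ c else c) false 11 12 := by
      simp [vv]
    show (Q D h2).toRp.dmS ((Q D h2).gen (BxF (Q D h2)
      (c • (dl (false, 11) : J → K) + (dl (true, 12) : J → K)))) p = _
    rw [hx, h]
    exact dim_1 _ p
  g2 c hc p := by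
    have hφ : D.φ (D.φ c) = c := by
      have h3 := D.φ_r c
      rw [h2] at h3
      exact h3
    have h := gen_2 D h2 (fun b => if b = true then D.φ c else c)
      (by intro b; cases b <;> simp [hφ]) (by simpa using hc)
    have hx : (c • (dl (false, 11) : J → K) + (dl (true, 12) : J → K))
        = vv (fun b => if b = true then D.φ c else c) false 11 12 := by
      simp [vv]
    show (Q D h2).toRp.dmS ((Q D h2).gen (BxF (Q D h2)
      (c • (dl (false, 11) : J → K) + (dl (true, 12) : J → K)))) p = _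
    rw [hx, h]
    exact dim_2 _ p

end FQM

theorem FQM_holds : S_FQM := by
  intro K _ D h2
  refine ⟨FQM.Q D h2, (FQM.dl (false, 11) : FQM.J → K), (FQM.dl (true, 12) : FQM.J → K),
    FQM.sc_Q D h2, ?_, ?_, ?_, ?_, FQM.bas D h2⟩
  · exact (FQM.dim_range (K := K) (0, 1)).trans FQM.card_pos1.1
  · exact (FQM.dim_range (K := K) (0, 3)).trans FQM.card_pos1.2.1
  · exact (FQM.dim_range (K := K) (4, 1)).trans FQM.card_pos1.2.2.1
  · exact (FQM.dim_range (K := K) (4, 3)).trans FQM.card_pos1.2.2.2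

end Pool.Agent.Lib.MP_4c1f79_al
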