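import Pool.Agent.Lib.MP_4c1f79_al.StmF

/-!
# MP_4c1f79_al : [FS0] the special vectors of the F4 block
-/

set_option autoImplicit false

namespace Pool.Agent.Lib.MP_4c1f79_al

open Finset Module

theorem FS0_diff : (Set.univ : Set (Fin 6 × Fin 12)) \ LF = U4F := by
  ext p
  simp only [Set.mem_sdiff, Set.mem_univ, true_and, LF, U4F, Set.mem_ofPred_eq]
  tauto

theorem FS0_cfg : Cfg MF sF U4F (5, 2) (5, 4) (2, 3) where
  sa := by decide
  sb := by decide
  sx := by decide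
  ua := by constructor <;> decide
  ub := by constructor <;> decide
  ux := by constructor <;> decide
  tau := by decide
  ar := by decide
  succ := by
    show ∀ y : Fin 6 × Fin 12, (y.1 ≠ 0 ∧ y.1 ≠ 4) → MF.Ar (5, 4) y → y = (2, 3)
    decide +kernel
  pred := by
    show ∀ y : Fin 6 × Fin 12, (y.1 ≠ 0 ∧ y.1 ≠ 4) → MF.Ar y (5, 2) → y = (2, 3)
    decide +kernel

theorem FS0_gam : ∀ p : Fin 6 × Fin 12, gamF 2 p = gamF 1 p + if p = (5, 2) then 1 else 0 := by
  decide +kernel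

theorem FS0_ind (p q : Fin 6 × Fin 12) : ind {q} p = if p = q then 1 else 0 := by
  by_cases h : p = q
  · simp [ind, h]
  · simp [ind, h]

theorem FS0_holds (hRST : S_RST) (hCCD : S_CCD) (hCOA : S_COA) (hFD3 : S_FD3) (hFNV : S_FNV)
    (hFPT : S_FPT) (hFGR : S_FGR) (hFTY : S_FTY) : S_FS0 := by
  classical
  intro hP d hd
  -- the restriction theorem for one line
  have key : ∀ (K : Type) [Field K] (D : Fd K), D.r = 2 → ∀ N : FM MF sF K D,
      N.GT Set.univ (ind bF) → ∀ x : N.T, N.e (0, 5) x = x → x ≠ 0 →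
      N.Res LF (BxF N x) (N.gen (BxF N x)) → ∀ i : Fin 3,
      (∀ p, N.toRp.dmS (N.gen (BxF N x)) p = gamF i p) →
      ∃ G : FM MF sF K D, G.GT U4F (mtF i) ∧
        N.cntP (N.Res LF (BxF N x)) d
          = if (∀ p, gamF i p ≤ d p) then G.cnt (fun p => d p - gamF i p) else 0 := by
    intro K _ D hr N hN x hx hx0 hres i hdim
    have hG := (hFGR K D hr N x hx hx0).1
    obtain ⟨-, h2⟩ := hRST _ MF sF K D N Set.univ LF (BxF N x) hG hN.1 (by
      intro p _ hp r hr' ht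
      exfalso
      apply hp
      have h1 : p.1 = r.1 := ht.1
      show p.1 = 0 ∨ p.1 = 4
      rw [h1]
      exact hr')
    obtain ⟨G, m', hGT, hm1, hm2, -, hcnt⟩ := h2 hres
    rw [FS0_diff] at hGT hm1 hm2
    have hdim' : N.toRp.dmS (N.gen (BxF N x)) = gamF i := funext hdim
    have hm : m' = mtF i := by
      funext u
      by_cases hu : u ∈ U4F
      · have h3 := hm1 u hu
        rw [hdim', hN.2 u, (hFTY i).1 u hu] at h3
        exact_mod_cast h3
      · rw [hm2 u hu, (hFTY i).2 u hu]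
    rw [hm] at hGT
    refine ⟨G, hGT, ?_⟩
    simp only [hdim'] at hcnt
    split_ifs with h4
    · exact (hcnt d).1 h4
    · exact (hcnt d).2 h4
  -- the finite sets of polynomials
  have hPos : ∀ i : Fin 3, ∃ Fs : Finset (Polynomial ℕ), ∀ (K : Type) [Field K] (D : Fd K),
      D.r = 2 → ∀ G : FM MF sF K D, G.GT U4F (mtF i) →
      ∃ f ∈ Fs, (if (∀ p, gamF i p ≤ d p) then G.cnt (fun p => d p - gamF i p) else 0)
        = f.eval D.q := by
    intro i
    by_cases h : ∀ p, gamF i p ≤ d p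
    · obtain ⟨Fs, hFs⟩ := hP (mtF i) (fun p => d p - gamF i p)
      refine ⟨Fs, fun K _ D hr G hG => ?_⟩
      rw [if_pos h]
      exact hFs K D hr G hG
    · refine ⟨{0}, fun K _ D hr G hG => ⟨0, by simp, ?_⟩⟩
      rw [if_neg h]
      simp
  obtain ⟨F0, hF0⟩ := hPos 0
  obtain ⟨F1, hF1⟩ := hPos 1
  obtain ⟨F2, hF2⟩ := hPos 2
  -- the core lemma
  have hm1 : mtF 1 = fun p => ind {(2, 3)} p + ind {(5, 2)} p + ind {(5, 4)} p := by
    funext p
    simp [mtF]
  have hm2 : mtF 2 = fun p => ind {(2, 3)} p + ind {(2, 3)} p := by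
    funext p
    simp [mtF]
  obtain ⟨Fc, hFc⟩ := hCOA _ MF sF 2 U4F (5, 2) (5, 4) (2, 3) adm_U4F FS0_cfg
    (fun K _ D _ N hN => hFD3 K D N hN) (ind {(2, 3)})
    (by
      intro p
      rw [FS0_ind, FS0_ind]
      revert p
      decide +kernel)
    (by
      intro p hp
      rw [FS0_ind, if_neg]
      rintro rfl
      exact hp ⟨by decide, by decide⟩)
    (by
      intro p hp
      rw [FS0_ind] at hp
      have : p = (2, 3) := by
        by_contra h
        exact hp (if_neg h)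
      subst this
      show (2 : ℕ) < 3
      decide)
    (hP _) (hP _) (fun p => d p - gamF 2 p)
  -- the counts
  have main : ∀ (K : Type) [Field K] (D : Fd K), D.r = 2 → ∀ N : FM MF sF K D,
      N.GT Set.univ (ind bF) → ∃ G0 G1 G2 : FM MF sF K D, G0.GT U4F (mtF 0) ∧
        G1.GT U4F (mtF 1) ∧ G2.GT U4F (mtF 2) ∧
        N.cnt d + (D.q + 1) *
            (if (∀ p, gamF 2 p ≤ d p) then G2.cnt (fun p => d p - gamF 2 p) else 0)
          = (if (∀ p, gamF 0 p ≤ d p) then G0.cnt (fun p => d p - gamF 0 p) else 0)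
            + (D.q + 1) *
              (if (∀ p, gamF 1 p ≤ d p) then G1.cnt (fun p => d p - gamF 1 p) else 0)
            + D.q ^ 2 *
              (if (∀ p, gamF 2 p ≤ d p) then G2.cnt (fun p => d p - gamF 2 p) else 0) := by
    intro K _ D hr N hN
    obtain ⟨y₁, y₃, hB, hR1, hR3⟩ := hFNV K D hr N hN
    have hli := LinearIndependent.pair_iff.1 hB.li
    have hy1 : y₁ ≠ 0 := by
      rintro rfl
      exact one_ne_zero (hli 1 0 (by simp)).1
    have hy3 : ∀ c : K, c • y₁ + y₃ ≠ 0 := by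
      intro c hc
      exact one_ne_zero (hli c 1 (by rw [one_smul]; exact hc)).2
    have hex : ∀ c : K, N.e (0, 5) (c • y₁ + y₃) = c • y₁ + y₃ := by
      intro c
      rw [map_add, map_smul, hB.e1, hB.e3]
    have hadm : Adm MF sF D.r U4F := hr ▸ adm_U4F
    have huni : ∀ (i : Fin 3) (G G' : FM MF sF K D), G.GT U4F (mtF i) → G'.GT U4F (mtF i) →
        ∀ d' : Fin 6 × Fin 12 → ℕ, G.cnt d' = G'.cnt d' := by
      intro i G G' hG hG' d'
      rw [(hCCD _ MF sF K D U4F hadm (mtF i) G hG).1 d',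
        (hCCD _ MF sF K D U4F hadm (mtF i) G' hG').1 d']
    obtain ⟨G0, hG0, h0⟩ := key K D hr N hN y₁ hB.e1 hy1 hR1 0 hB.g0
    obtain ⟨G1, hG1, h1⟩ := key K D hr N hN ((1 : K) • y₁ + y₃) (hex 1) (hy3 1) (hR3 1) 1
      (hB.g1 1 (by simp))
    obtain ⟨G2, hG2, h2⟩ := key K D hr N hN ((0 : K) • y₁ + y₃) (hex 0) (hy3 0) (hR3 0) 2
      (hB.g2 0 (by simp))
    refine ⟨G0, G1, G2, hG0, hG1, hG2, ?_⟩
    refine hFPT K D hr N hN y₁ y₃ hB.e1 hB.e3 hB.li d hd _ _ _ h0 ?_ ?_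
    · intro c hc
      obtain ⟨G, hG, h⟩ := key K D hr N hN (c • y₁ + y₃) (hex c) (hy3 c) (hR3 c) 1 (hB.g1 c hc)
      rw [h, huni 1 G G1 hG hG1]
    · intro c hc
      obtain ⟨G, hG, h⟩ := key K D hr N hN (c • y₁ + y₃) (hex c) (hy3 c) (hR3 c) 2 (hB.g2 c hc)
      rw [h, huni 2 G G2 hG hG2]
  by_cases h2 : ∀ p, gamF 2 p ≤ d p
  · refine ⟨((F0 ×ˢ Fc) ×ˢ F2).image fun t => t.1.1 + (Polynomial.X + 1) * t.1.2
      + Polynomial.X ^ 2 * t.2, ?_⟩
    intro K _ D hr N hN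
    obtain ⟨G0, G1, G2, hG0, hG1, hG2, hmain⟩ := main K D hr N hN
    obtain ⟨f0, hf0, e0⟩ := hF0 K D hr G0 hG0
    obtain ⟨f2, hf2, e2⟩ := hF2 K D hr G2 hG2
    obtain ⟨fc, hfc, ec⟩ := hFc K D hr G1 G2 (hm1 ▸ hG1) (hm2 ▸ hG2)
    have h1 : ∀ p, gamF 1 p ≤ d p := fun p => le_trans (by rw [FS0_gam p]; exact Nat.le_add_right _ _)
      (h2 p)
    have hd1 : (fun p => d p - gamF 1 p) = fun p => (d p - gamF 2 p) + ind {(5, 2)} p := by
      funext p
      have h3 := FS0_gam p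
      have h4 := h2 p
      rw [FS0_ind]
      omega
    rw [e0, e2, if_pos h1, hd1, ec] at hmain
    rw [if_pos h2] at e2
    rw [e2] at hmain
    refine ⟨f0 + (Polynomial.X + 1) * fc + Polynomial.X ^ 2 * f2,
      Finset.mem_image.2 ⟨((f0, fc), f2), ?_, rfl⟩, ?_⟩
    · simp only [Finset.mem_product]
      exact ⟨⟨hf0, hfc⟩, hf2⟩
    · simp only [Polynomial.eval_add, Polynomial.eval_mul, Polynomial.eval_X, Polynomial.eval_one,
        Polynomial.eval_pow]
      nlinarith [hmain]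
  · refine ⟨(F0 ×ˢ F1).image fun t => t.1 + (Polynomial.X + 1) * t.2, ?_⟩
    intro K _ D hr N hN
    obtain ⟨G0, G1, G2, hG0, hG1, hG2, hmain⟩ := main K D hr N hN
    obtain ⟨f0, hf0, e0⟩ := hF0 K D hr G0 hG0
    obtain ⟨f1, hf1, e1⟩ := hF1 K D hr G1 hG1
    rw [e0, e1, if_neg h2, mul_zero, mul_zero, add_zero, add_zero] at hmain
    refine ⟨f0 + (Polynomial.X + 1) * f1, Finset.mem_image.2 ⟨(f0, f1), ?_, rfl⟩, ?_⟩
    · simp only [Finset.mem_product]
      exact ⟨hf0, hf1⟩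
    · simp only [Polynomial.eval_add, Polynomial.eval_mul, Polynomial.eval_X, Polynomial.eval_one]
      exact hmain

theorem F_holds (hFW2 : S_FW2) (hFS0 : S_FS0) : S_F := by
  intro hP d
  by_cases h : patF d
  · exact hFS0 hP d h
  · exact hFW2 hP d h

end Pool.Agent.Lib.MP_4c1f79_al
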