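import Pool.Agent.Lib.MP_4c1f79_al.StmF

/-!
# MP_4c1f79_al : FTY, the types of the subquotients by computation
-/

set_option autoImplicit false

namespace Pool.Agent.Lib.MP_4c1f79_al

open Finset Module

/-- The Euler form with a unit vector on the left. -/
private theorem FTY_eu {P : Type} [Fintype P] (M : Mesh P) [DecidableRel M.Ar]
    [DecidableRel M.Tau] (u : P) (y : P → ℕ) :
    eulN M (ind {u}) y
      = (y u : ℤ) - ((∑ q, if M.Ar u q then y q else 0 : ℕ) : ℤ)
        + ((∑ r, if M.Tau u r then y r else 0 : ℕ) : ℤ) := by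
  classical
  have hi : ∀ p, ((ind ({u} : Set P) p : ℕ) : ℤ) = if p = u then 1 else 0 := by
    intro p
    unfold ind
    by_cases h : p = u
    · rw [if_pos h, Set.indicator_of_mem (by simpa using h)]
      simp
    · rw [if_neg h, Set.indicator_of_notMem (by simpa using h)]
      simp
  unfold eulN eul
  have h1 : ∑ p, ((ind ({u} : Set P) p : ℕ) : ℤ) * (y p : ℤ) = (y u : ℤ) := by
    rw [Finset.sum_eq_single u]
    · rw [hi, if_pos rfl, one_mul]
    · intro p _ hp
      rw [hi, if_neg hp, zero_mul]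
    · intro h
      exact absurd (Finset.mem_univ _) h
  have h2 : ∀ R : P → P → Prop, [DecidableRel R] →
      (∑ p, ∑ q, @ite ℤ (R p q) (Classical.propDecidable _)
        (((ind ({u} : Set P) p : ℕ) : ℤ) * (y q : ℤ)) 0)
        = ((∑ q, if R u q then y q else 0 : ℕ) : ℤ) := by
    intro R _
    rw [Finset.sum_eq_single u]
    · push_cast
      apply Finset.sum_congr rfl
      intro q _
      by_cases h : R u q
      · rw [if_pos h, if_pos h, hi, if_pos rfl, one_mul]
      · rw [if_neg h, if_neg h]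
    · intro p _ hp
      apply Finset.sum_eq_zero
      intro q _
      by_cases h : R p q
      · rw [if_pos h, hi, if_neg hp, zero_mul]
      · rw [if_neg h]
    · intro h
      exact absurd (Finset.mem_univ _) h
  rw [h1, h2 M.Ar, h2 M.Tau]

/-- The numerical types. -/
private def FTY_mt (i : Fin 3) (u : Fin 6 × Fin 12) : ℕ :=
  if i = 0 then (if u = (1, 2) ∨ u = (3, 2) ∨ u = (1, 4) ∨ u = (3, 4) then 1 else 0)
  else if i = 1 then (if u = (2, 3) then 1 else 0) + (if u = (5, 2) then 1 else 0)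
    + (if u = (5, 4) then 1 else 0)
  else (if u = (2, 3) then 1 else 0) + (if u = (2, 3) then 1 else 0)

private theorem FTY_num : ∀ (i : Fin 3) (u : Fin 6 × Fin 12), (u.1 ≠ 0 ∧ u.1 ≠ 4) →
    (if (u.1 = 1 ∨ u.1 = 3) ∧ u.2 = 0 then 1 else 0)
      + (∑ q, if MF.Ar u q then gamF i q else 0)
      = FTY_mt i u + gamF i u + ∑ r, if MF.Tau u r then gamF i r else 0 := by
  decide +kernel

private theorem FTY_zero : ∀ (i : Fin 3) (u : Fin 6 × Fin 12), ¬ (u.1 ≠ 0 ∧ u.1 ≠ 4) →
    FTY_mt i u = 0 := by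
  decide +kernel

private theorem FTY_ind {P : Type} (S : Set P) (p : P) [Decidable (p ∈ S)] :
    ind S p = if p ∈ S then 1 else 0 := by
  unfold ind
  by_cases h : p ∈ S
  · rw [if_pos h, Set.indicator_of_mem h]
    rfl
  · rw [if_neg h, Set.indicator_of_notMem h]

private theorem FTY_mtF (i : Fin 3) (u : Fin 6 × Fin 12) : mtF i u = FTY_mt i u := by
  classical
  unfold mtF FTY_mt
  simp only [FTY_ind, Set.mem_insert_iff, Set.mem_singleton_iff]

theorem FTY_holds : S_FTY := by
  classical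
  intro i
  refine ⟨?_, ?_⟩
  · intro u hu
    have h1 := FTY_num i u hu
    rw [FTY_eu, FTY_mtF]
    have h2 : ind bF u = if (u.1 = 1 ∨ u.1 = 3) ∧ u.2 = 0 then 1 else 0 := by
      rw [FTY_ind]
      exact if_congr Iff.rfl rfl rfl
    rw [h2]
    have h3 : (((if (u.1 = 1 ∨ u.1 = 3) ∧ u.2 = 0 then 1 else 0)
      + (∑ q, if MF.Ar u q then gamF i q else 0) : ℕ) : ℤ)
      = ((FTY_mt i u + gamF i u + ∑ r, if MF.Tau u r then gamF i r else 0 : ℕ) : ℤ) := by
      rw [h1]
    rw [Nat.cast_add, Nat.cast_add, Nat.cast_add] at h3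
    linarith
  · intro u hu
    rw [FTY_mtF]
    exact FTY_zero i u hu

end Pool.Agent.Lib.MP_4c1f79_al
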