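import Pool.Agent.Lib.MP_4c1f79_al.StmB

/-!
# MP_4c1f79_al : existence of the fundamental modules (S_FUN)

The module of the functions on the paths which end in `E`, with the mesh relations.
-/

set_option autoImplicit false

namespace Pool.Agent.Lib.MP_4c1f79_al

open Finset Module

section paths

variable {P : Type} (M : Mesh P) (U E : Set P)

/-- The list is a nonempty path with entries in `U` and last entry in `E`. -/
def FUN_ok : List P → Prop
  | [] => False
  | [p] => p ∈ E
  | p :: q :: l => p ∈ U ∧ M.Ar p q ∧ FUN_ok (q :: l)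

theorem FUN_ok_mem (hEU : E ⊆ U) {p : P} {l : List P} (h : FUN_ok M U E (p :: l)) : p ∈ U := by
  cases l with
  | nil => exact hEU h
  | cons q l => exact h.1

theorem FUN_len {l : List P} : ∀ {p : P}, FUN_ok M U E (p :: l) → l.length ≤ M.lv p := by
  induction l with
  | nil => intro p _; exact Nat.zero_le _
  | cons q l ih =>
    intro p h
    have h1 := ih h.2.2
    have h2 := M.lv_ar p q h.2.1
    rw [List.length_cons]
    omega

theorem FUN_ok_map (s : Equiv.Perm P) (hs : Sym M s) (hU : ∀ p, s p ∈ U ↔ p ∈ U)
    (hE : ∀ p, s p ∈ E ↔ p ∈ E) (l : List P) :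
    FUN_ok M U E (l.map (s.symm)) ↔ FUN_ok M U E l := by
  have hU' : ∀ p, s.symm p ∈ U ↔ p ∈ U := fun p => by
    rw [← hU (s.symm p), s.apply_symm_apply]
  have hE' : ∀ p, s.symm p ∈ E ↔ p ∈ E := fun p => by
    rw [← hE (s.symm p), s.apply_symm_apply]
  have hA' : ∀ p q, M.Ar (s.symm p) (s.symm q) ↔ M.Ar p q := fun p q => by
    rw [← hs.ar (s.symm p), s.apply_symm_apply, s.apply_symm_apply]
  induction l with
  | nil => exact Iff.rfl
  | cons p l ih =>
    cases l with
    | nil => exact hE' p
    | cons q l =>
      show (s.symm p ∈ U ∧ M.Ar (s.symm p) (s.symm q) ∧ FUN_ok M U E ((q :: l).map s.symm)) ↔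
        (p ∈ U ∧ M.Ar p q ∧ FUN_ok M U E (q :: l))
      exact and_congr (hU' p) (and_congr (hA' p q) ih)

variable [Fintype P] [DecidableEq P] (K : Type) [Field K]

/-- The space of functions. -/
def FUN_T : Submodule K (List P → K) where
  carrier := {f | (∀ l, ¬ FUN_ok M U E l → f l = 0) ∧
    ∀ l₁ l₂ p r, M.Tau p r → ∑ q, f (l₁ ++ p :: q :: r :: l₂) = 0}
  zero_mem' := ⟨fun _ _ => rfl, fun _ _ _ _ _ => by simp⟩
  add_mem' := by
    rintro f g ⟨hf, hf'⟩ ⟨hg, hg'⟩
    refine ⟨fun l hl => ?_, fun l₁ l₂ p r h => ?_⟩
    · rw [Pi.add_apply, hf l hl, hg l hl, add_zero]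
    · simp only [Pi.add_apply]
      rw [Finset.sum_add_distrib, hf' l₁ l₂ p r h, hg' l₁ l₂ p r h, add_zero]
  smul_mem' := by
    rintro c f ⟨hf, hf'⟩
    refine ⟨fun l hl => ?_, fun l₁ l₂ p r h => ?_⟩
    · rw [Pi.smul_apply, hf l hl, smul_zero]
    · simp only [Pi.smul_apply]
      rw [← Finset.smul_sum, hf' l₁ l₂ p r h, smul_zero]

variable {M U E K}

omit [DecidableEq P] in
theorem mem_FUN_T {f : List P → K} : f ∈ FUN_T M U E K ↔ (∀ l, ¬ FUN_ok M U E l → f l = 0) ∧
    ∀ l₁ l₂ p r, M.Tau p r → ∑ q, f (l₁ ++ p :: q :: r :: l₂) = 0 := Iff.rfl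

omit [Fintype P] [DecidableEq P] in
theorem FUN_aux_nil : ¬ FUN_ok M U E ([] : List P) := fun h => h

/-- The idempotents. -/
def FUN_e (K : Type) [Field K] (p : P) : (List P → K) →ₗ[K] (List P → K) where
  toFun f l := if l.head? = some p then f l else 0
  map_add' f g := by
    funext l
    by_cases h : l.head? = some p <;> simp [h]
  map_smul' c f := by
    funext l
    by_cases h : l.head? = some p <;> simp [h]

/-- The arrows. -/
def FUN_a (P : Type) [Fintype P] (K : Type) [Field K] : (List P → K) →ₗ[K] (List P → K) where
  toFun f l :=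
    match l with
    | [] => 0
    | q :: l => ∑ p, f (p :: q :: l)
  map_add' f g := by
    funext l
    cases l with
    | nil => exact (add_zero (0 : K)).symm
    | cons q l =>
      show ∑ p, (f + g) (p :: q :: l) = ∑ p, f (p :: q :: l) + ∑ p, g (p :: q :: l)
      rw [← Finset.sum_add_distrib]
      rfl
  map_smul' c f := by
    funext l
    cases l with
    | nil => exact (smul_zero c).symm
    | cons q l =>
      show ∑ p, (c • f) (p :: q :: l) = c • ∑ p, f (p :: q :: l)
      rw [Finset.smul_sum]
      rfl

omit [Fintype P] in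
theorem FUN_e_nil (p : P) (f : List P → K) : FUN_e K p f [] = 0 := rfl

omit [Fintype P] in
theorem FUN_e_cons (p q : P) (l : List P) (f : List P → K) :
    FUN_e K p f (q :: l) = if q = p then f (q :: l) else 0 := by
  show (if (q :: l).head? = some p then f (q :: l) else 0) = _
  rw [List.head?_cons]
  by_cases h : q = p
  · rw [if_pos h, if_pos (by rw [h])]
  · rw [if_neg h, if_neg (fun h' => h (Option.some.inj h'))]

omit [DecidableEq P] in
theorem FUN_a_nil (f : List P → K) : FUN_a P K f [] = 0 := rfl

omit [DecidableEq P] in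
theorem FUN_a_cons (q : P) (l : List P) (f : List P → K) :
    FUN_a P K f (q :: l) = ∑ p, f (p :: q :: l) := rfl

omit [DecidableEq P] in
theorem FUN_a_mem {f : List P → K} (hf : f ∈ FUN_T M U E K) : FUN_a P K f ∈ FUN_T M U E K := by
  refine ⟨fun l hl => ?_, fun l₁ l₂ p r h => ?_⟩
  · cases l with
    | nil => rfl
    | cons q l =>
      rw [FUN_a_cons]
      exact Finset.sum_eq_zero fun p _ => hf.1 _ fun h => hl h.2.2
  · cases l₁ with
    | nil =>
      show ∑ q, FUN_a P K f (p :: q :: r :: l₂) = 0
      simp only [FUN_a_cons]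
      rw [Finset.sum_comm]
      exact Finset.sum_eq_zero fun p' _ => hf.2 [p'] l₂ p r h
    | cons p₁ l₁ =>
      show ∑ q, FUN_a P K f (p₁ :: (l₁ ++ p :: q :: r :: l₂)) = 0
      simp only [FUN_a_cons]
      rw [Finset.sum_comm]
      exact Finset.sum_eq_zero fun p' _ => hf.2 (p' :: p₁ :: l₁) l₂ p r h

theorem FUN_e_mem (p : P) {f : List P → K} (hf : f ∈ FUN_T M U E K) :
    FUN_e K p f ∈ FUN_T M U E K := by
  refine ⟨fun l hl => ?_, fun l₁ l₂ p' r h => ?_⟩
  · cases l with
    | nil => rfl
    | cons q l =>
      rw [FUN_e_cons, hf.1 _ hl, ite_self]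
  · cases l₁ with
    | nil =>
      show ∑ q, FUN_e K p f (p' :: q :: r :: l₂) = 0
      simp only [FUN_e_cons]
      by_cases hp : p' = p
      · simp only [if_pos hp]
        exact hf.2 [] l₂ p' r h
      · simp only [if_neg hp]
        exact Finset.sum_const_zero
    | cons p₁ l₁ =>
      show ∑ q, FUN_e K p f (p₁ :: (l₁ ++ p' :: q :: r :: l₂)) = 0
      simp only [FUN_e_cons]
      by_cases hp : p₁ = p
      · simp only [if_pos hp]
        exact hf.2 (p₁ :: l₁) l₂ p' r h
      · simp only [if_neg hp]
        exact Finset.sum_const_zero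

/-- The representation. -/
def FUN_R (M : Mesh P) (U E : Set P) (K : Type) [Field K] [Finite (FUN_T M U E K)] : Rp M K where
  T := FUN_T M U E K
  e p := (FUN_e K p).restrict fun _ hf => FUN_e_mem p hf
  a := (FUN_a P K).restrict fun _ hf => FUN_a_mem hf
  e_e p x := by
    apply Subtype.ext
    show FUN_e K p (FUN_e K p x.1) = FUN_e K p x.1
    funext l
    cases l with
    | nil => rfl
    | cons q l =>
      rw [FUN_e_cons, FUN_e_cons]
      by_cases h : q = p
      · rw [if_pos h]
      · rw [if_neg h, if_neg h]
  e_ne p q x hpq := by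
    apply Subtype.ext
    show FUN_e K p (FUN_e K q x.1) = 0
    funext l
    cases l with
    | nil => rfl
    | cons q' l =>
      rw [FUN_e_cons, FUN_e_cons]
      by_cases h : q' = p
      · rw [if_pos h, if_neg (fun h' => hpq (h.symm.trans h'))]
        rfl
      · rw [if_neg h]
        rfl
  e_sum x := by
    apply Subtype.ext
    rw [AddSubmonoidClass.coe_finsetSum]
    show ∑ p, FUN_e K p x.1 = x.1
    funext l
    rw [Finset.sum_apply]
    cases l with
    | nil =>
      rw [x.2.1 _ FUN_aux_nil]
      exact Finset.sum_eq_zero fun p _ => rfl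
    | cons q l =>
      simp only [FUN_e_cons]
      rw [Finset.sum_ite_eq, if_pos (Finset.mem_univ q)]
  a_ar p q x hpq := by
    apply Subtype.ext
    show FUN_e K q (FUN_a P K (FUN_e K p x.1)) = 0
    funext l
    cases l with
    | nil => rfl
    | cons q' l =>
      rw [FUN_e_cons]
      by_cases h : q' = q
      · subst h
        rw [if_pos rfl, FUN_a_cons]
        refine Finset.sum_eq_zero fun p' _ => ?_
        rw [FUN_e_cons]
        by_cases h' : p' = p
        · subst h'
          rw [if_pos rfl]
          exact x.2.1 _ fun h => hpq h.2.1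
        · rw [if_neg h']
      · rw [if_neg h]
        rfl
  mesh p r x hpr := by
    apply Subtype.ext
    show FUN_e K r (FUN_a P K (FUN_a P K (FUN_e K p x.1))) = 0
    funext l
    cases l with
    | nil => rfl
    | cons q' l =>
      rw [FUN_e_cons]
      by_cases h : q' = r
      · subst h
        rw [if_pos rfl, FUN_a_cons]
        simp only [FUN_a_cons, FUN_e_cons]
        simp only [Finset.sum_ite_eq', Finset.mem_univ, if_true]
        exact x.2.2 [] l p q' hpr
      · rw [if_neg h]
        rfl

/-- The Frobenius map on functions. -/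
def FUN_F (φ : K ≃+* K) (s : Equiv.Perm P) (f : List P → K) (l : List P) : K :=
  φ (f (l.map s.symm))

omit [DecidableEq P] in
theorem FUN_F_mem (φ : K ≃+* K) (s : Equiv.Perm P) (hs : Sym M s) (hU : ∀ p, s p ∈ U ↔ p ∈ U)
    (hE : ∀ p, s p ∈ E ↔ p ∈ E) {f : List P → K} (hf : f ∈ FUN_T M U E K) :
    FUN_F φ s f ∈ FUN_T M U E K := by
  refine ⟨fun l hl => ?_, fun l₁ l₂ p r h => ?_⟩
  · show φ (f (l.map s.symm)) = 0
    rw [hf.1 _ (fun h => hl ((FUN_ok_map M U E s hs hU hE l).1 h)), map_zero]
  · show ∑ q, φ (f ((l₁ ++ p :: q :: r :: l₂).map s.symm)) = 0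
    rw [← map_sum]
    have h1 : ∀ q, f ((l₁ ++ p :: q :: r :: l₂).map s.symm)
        = f (l₁.map s.symm ++ s.symm p :: s.symm q :: s.symm r :: l₂.map s.symm) := by
      intro q
      rw [List.map_append]
      rfl
    rw [Finset.sum_congr rfl fun q _ => h1 q,
      Equiv.sum_comp s.symm (fun q => f (l₁.map s.symm ++ s.symm p :: q :: s.symm r ::
        l₂.map s.symm)), hf.2 _ _ _ _ ?_, map_zero]
    rw [← hs.tau, s.apply_symm_apply, s.apply_symm_apply]
    exact h

omit [Fintype P] [DecidableEq P] in
theorem FUN_F_iter (φ : K ≃+* K) (s : Equiv.Perm P) (n : ℕ) (f : List P → K) (l : List P) :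
    ((FUN_F φ s)^[n] f) l = (⇑φ)^[n] (f (l.map ((⇑s.symm)^[n]))) := by
  induction n generalizing f l with
  | zero =>
    show f l = f (l.map id)
    rw [List.map_id]
  | succ n ih =>
    rw [Function.iterate_succ_apply, ih]
    show (⇑φ)^[n] (φ (f ((l.map ((⇑s.symm)^[n])).map s.symm))) = _
    rw [← Function.iterate_succ_apply, List.map_map]
    congr 3
    rw [← Function.iterate_succ']

end paths

theorem FUN_finite {P : Type} [Fintype P] (M : Mesh P) (U E : Set P) (K : Type) [Field K]
    [Finite K] : Finite (FUN_T M U E K) := by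
  classical
  obtain ⟨B, hB⟩ : ∃ B : ℕ, ∀ p, M.lv p ≤ B :=
    ⟨Finset.univ.sup M.lv, fun p => Finset.le_sup (Finset.mem_univ p)⟩
  have hfin : Finite {l : List P // l.length ≤ B + 1} :=
    (List.finite_length_le P (B + 1)).to_subtype
  let Φ : FUN_T M U E K → ({l : List P // l.length ≤ B + 1} → K) := fun f l => f.1 l.1
  refine Finite.of_injective Φ ?_
  intro f g h
  apply Subtype.ext
  funext l
  by_cases hl : l.length ≤ B + 1
  · exact congrFun h ⟨l, hl⟩
  · have hno : ¬ FUN_ok M U E l := by
      intro hok
      cases l with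
      | nil => exact hok
      | cons p l =>
        have h1 := FUN_len M U E hok
        have h2 := hB p
        rw [List.length_cons] at hl
        omega
    rw [f.2.1 _ hno, g.2.1 _ hno]

theorem FUN_holds : S_FUN := by
  intro P _ M s K _ D U hA E hEU hE
  classical
  have hK : Finite K := by
    apply Nat.finite_of_card_ne_zero
    rw [D.card_K]
    exact pow_ne_zero _ (by have := D.q_gt; omega)
  haveI := FUN_finite M U E K
  let R : Rp M K := FUN_R M U E K
  have hFm : ∀ f ∈ FUN_T M U E K, FUN_F D.φ s f ∈ FUN_T M U E K := fun f hf =>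
    FUN_F_mem D.φ s hA.sym hA.stab hE hf
  let F : R.T →ₛₗ[(D.φ : K →+* K)] R.T :=
    { toFun := fun x => ⟨FUN_F D.φ s x.1, hFm x.1 x.2⟩
      map_add' := fun x y => Subtype.ext (funext fun l => map_add D.φ _ _)
      map_smul' := fun c x => Subtype.ext (funext fun l => map_mul D.φ _ _) }
  have hper : ∀ n : ℕ, ∀ p, (⇑s)^[n] p = p → (⇑s.symm)^[n] p = p := by
    intro n p h
    have h1 : Function.LeftInverse ((⇑s.symm)^[n]) ((⇑s)^[n]) :=
      Function.LeftInverse.iterate s.symm_apply_apply n
    have h2 := h1 p
    rw [h] at h2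
    exact h2
  have hFit : ∀ n : ℕ, ∀ x : R.T, ((⇑F)^[n] x).1 = (FUN_F D.φ s)^[n] x.1 := by
    intro n
    induction n with
    | zero => intro x; rfl
    | succ n ih =>
      intro x
      rw [Function.iterate_succ_apply, Function.iterate_succ_apply, ih]
      rfl
  let N : FM M s K D :=
    { toRp := R
      F := F
      F_e := by
        intro p x
        apply Subtype.ext
        show FUN_F D.φ s (FUN_e K p x.1) = FUN_e K (s p) (FUN_F D.φ s x.1)
        funext l
        cases l with
        | nil => exact map_zero D.φ
        | cons q l =>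
          rw [FUN_e_cons]
          show D.φ (FUN_e K p x.1 (s.symm q :: l.map s.symm)) = _
          rw [FUN_e_cons]
          by_cases h : q = s p
          · rw [if_pos h, if_pos (by rw [h, s.symm_apply_apply])]
            rfl
          · rw [if_neg h, if_neg (fun h' => h (by rw [← h', s.apply_symm_apply])), map_zero]
      F_a := by
        intro x
        apply Subtype.ext
        show FUN_F D.φ s (FUN_a P K x.1) = FUN_a P K (FUN_F D.φ s x.1)
        funext l
        cases l with
        | nil => exact map_zero D.φ
        | cons q l =>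
          show D.φ (∑ p, x.1 (p :: s.symm q :: l.map s.symm))
            = ∑ p, D.φ (x.1 (s.symm p :: s.symm q :: l.map s.symm))
          rw [map_sum, Equiv.sum_comp s.symm
            (fun p => D.φ (x.1 (p :: s.symm q :: l.map s.symm)))]
      F_r := by
        intro x
        apply Subtype.ext
        rw [hFit]
        funext l
        rw [FUN_F_iter, D.φ_r]
        have : ∀ l : List P, l.map ((⇑s.symm)^[D.r]) = l := by
          intro l
          conv_rhs => rw [← List.map_id l]
          exact List.map_congr_left fun p _ => hper _ p (hA.per p)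
        exact congrArg x.1 (this l) }
  refine ⟨N, ⟨?_, ?_⟩, ?_⟩
  · intro p hp x
    apply Subtype.ext
    show FUN_e K p x.1 = 0
    funext l
    cases l with
    | nil => rfl
    | cons q l =>
      rw [FUN_e_cons]
      by_cases h : q = p
      · rw [if_pos h]
        exact x.2.1 _ fun h' => hp (h ▸ FUN_ok_mem M U E hEU h')
      · rw [if_neg h]
        rfl
  · intro p hp (y : FUN_T M U E K) hy1 hy2
    have hy1' : ∀ q l, ¬ M.Ar p q → y.1 (q :: l) = 0 := by
      intro q l h
      have h1 : FUN_e K q y.1 = 0 := congrArg Subtype.val (hy1 q h)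
      have h2 := congrFun h1 (q :: l)
      rw [FUN_e_cons, if_pos rfl] at h2
      exact h2
    have hy2' : ∀ r l, M.Tau p r → ∑ q, y.1 (q :: r :: l) = 0 := by
      intro r l h
      have h1 : FUN_e K r (FUN_a P K y.1) = 0 := congrArg Subtype.val (hy2 r h)
      have h2 := congrFun h1 (r :: l)
      rw [FUN_e_cons, if_pos rfl] at h2
      exact h2
    let x : List P → K := fun l =>
      match l with
      | [] => 0
      | p' :: l => if p' = p then y.1 l else 0
    have hxc : ∀ p' l, x (p' :: l) = if p' = p then y.1 l else 0 := fun _ _ => rfl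
    have hx : x ∈ FUN_T M U E K := by
      refine ⟨fun l hl => ?_, fun l₁ l₂ p' r h => ?_⟩
      · cases l with
        | nil => rfl
        | cons p' l =>
          rw [hxc]
          by_cases h : p' = p
          · subst h
            rw [if_pos rfl]
            cases l with
            | nil => exact y.2.1 _ FUN_aux_nil
            | cons q l =>
              by_cases h1 : M.Ar p' q
              · exact y.2.1 _ fun h2 => hl ⟨hp, h1, h2⟩
              · exact hy1' q l h1
          · rw [if_neg h]
      · cases l₁ with
        | nil =>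
          show ∑ q, x (p' :: q :: r :: l₂) = 0
          simp only [hxc]
          by_cases h1 : p' = p
          · subst h1
            simp only [if_pos]
            exact hy2' r l₂ h
          · simp only [if_neg h1]
            exact Finset.sum_const_zero
        | cons p₁ l₁ =>
          show ∑ q, x (p₁ :: (l₁ ++ p' :: q :: r :: l₂)) = 0
          simp only [hxc]
          by_cases h1 : p₁ = p
          · simp only [if_pos h1]
            exact y.2.2 l₁ l₂ p' r h
          · simp only [if_neg h1]
            exact Finset.sum_const_zero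
    refine ⟨(⟨x, hx⟩ : FUN_T M U E K), ?_, ?_⟩
    · apply Subtype.ext
      show FUN_e K p x = x
      funext l
      cases l with
      | nil => rfl
      | cons q l =>
        rw [FUN_e_cons, hxc]
        by_cases h : q = p
        · rw [if_pos h]
        · rw [if_neg h, if_neg h]
    · apply Subtype.ext
      show FUN_a P K x = y.1
      funext l
      cases l with
      | nil => exact (y.2.1 _ FUN_aux_nil).symm
      | cons q l =>
        rw [FUN_a_cons]
        simp only [hxc]
        rw [Finset.sum_ite_eq', if_pos (Finset.mem_univ p)]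
  · intro p
    have hker : ∀ f : FUN_T M U E K, f ∈ (LinearMap.range (R.e p) ⊓ LinearMap.ker R.a :
        Submodule K R.T) ↔ FUN_e K p f.1 = f.1 ∧ FUN_a P K f.1 = 0 := by
      intro f
      constructor
      · intro h
        obtain ⟨⟨g, hg⟩, h2⟩ := h
        have h3 : R.e p f = f := by
          have h4 := R.e_e p g
          rw [hg] at h4
          exact h4
        exact ⟨congrArg Subtype.val h3, congrArg Subtype.val h2⟩
      · rintro ⟨h1, h2⟩
        exact ⟨⟨f, Subtype.ext h1⟩, Subtype.ext h2⟩
    have hsupp : ∀ f : FUN_T M U E K, FUN_e K p f.1 = f.1 → FUN_a P K f.1 = 0 →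
        ∀ l, l ≠ [p] → f.1 l = 0 := by
      intro f h1 h2 l hl
      cases l with
      | nil => exact f.2.1 _ FUN_aux_nil
      | cons q l =>
        by_cases h : q = p
        · subst h
          cases l with
          | nil => exact absurd rfl hl
          | cons q' l =>
            have h3 := congrFun h2 (q' :: l)
            rw [FUN_a_cons, ← h1] at h3
            simp only [FUN_e_cons] at h3
            rw [Finset.sum_ite_eq', if_pos (Finset.mem_univ q)] at h3
            exact h3
        · have h3 := congrFun h1 (q :: l)
          rw [FUN_e_cons, if_neg h] at h3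
          exact h3.symm
    show finrank K (LinearMap.range (R.e p) ⊓ LinearMap.ker R.a : Submodule K R.T) = ind E p
    by_cases hpE : p ∈ E
    · have hi : ind E p = 1 := by
        unfold ind
        rw [Set.indicator_of_mem hpE]
        rfl
      rw [hi]
      have hd : (fun l : List P => if l = [p] then (1 : K) else 0) ∈ FUN_T M U E K := by
        refine ⟨fun l hl => ?_, fun l₁ l₂ p' r h => ?_⟩
        · beta_reduce
          rw [if_neg]
          rintro rfl
          exact hl hpE
        · refine Finset.sum_eq_zero fun q _ => ?_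
          beta_reduce
          rw [if_neg]
          intro h1
          have h2 := congrArg List.length h1
          simp at h2
          omega
      have hd1 : FUN_e K p (fun l : List P => if l = [p] then (1 : K) else 0)
          = fun l : List P => if l = [p] then (1 : K) else 0 := by
        funext l
        cases l with
        | nil => rfl
        | cons q l =>
          rw [FUN_e_cons]
          by_cases h : q = p
          · rw [if_pos h]
          · rw [if_neg h, if_neg]
            intro h'
            exact h (List.cons.inj h').1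
      have hd2 : FUN_a P K (fun l : List P => if l = [p] then (1 : K) else 0) = 0 := by
        funext l
        cases l with
        | nil => rfl
        | cons q l =>
          rw [FUN_a_cons]
          refine Finset.sum_eq_zero fun q' _ => ?_
          rw [if_neg]
          intro h'
          exact absurd (List.cons.inj h').2 (List.cons_ne_nil _ _)
      let δ : FUN_T M U E K := ⟨_, hd⟩
      refine finrank_eq_one (⟨δ, (hker δ).2 ⟨hd1, hd2⟩⟩ : (LinearMap.range (R.e p) ⊓
        LinearMap.ker R.a : Submodule K R.T)) ?_ ?_
      · intro h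
        have h1 : δ = 0 := congrArg Subtype.val h
        have h2 := congrFun (congrArg Subtype.val h1) [p]
        have h3 : (1 : K) = 0 := by
          have h4 : δ.1 [p] = 1 := if_pos rfl
          rw [← h4]
          exact h2
        exact one_ne_zero h3
      · rintro ⟨f, hf⟩
        obtain ⟨h1, h2⟩ := (hker f).1 hf
        refine ⟨f.1 [p], ?_⟩
        apply Subtype.ext
        apply Subtype.ext
        show f.1 [p] • (fun l : List P => if l = [p] then (1 : K) else 0) = f.1
        funext l
        rw [Pi.smul_apply]
        by_cases h : l = [p]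
        · rw [if_pos h, h, smul_eq_mul, mul_one]
        · rw [if_neg h, smul_zero, hsupp f h1 h2 l h]
    · have hi : ind E p = 0 := by
        unfold ind
        rw [Set.indicator_of_notMem hpE]
      rw [hi]
      have hbot : (LinearMap.range (R.e p) ⊓ LinearMap.ker R.a : Submodule K R.T) = ⊥ := by
        rw [eq_bot_iff]
        intro f hf
        obtain ⟨h1, h2⟩ := (hker f).1 hf
        rw [Submodule.mem_bot]
        apply Subtype.ext
        show f.1 = 0
        funext l
        by_cases h : l = [p]
        · rw [h]
          exact f.2.1 _ hpE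
        · exact hsupp f h1 h2 l h
      rw [hbot]
      exact finrank_bot K _

end Pool.Agent.Lib.MP_4c1f79_al
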