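import Pool.Agent.Lib.MP_4c1f79_al.StmF

/-!
# MP_4c1f79_al : piece FW1 (positivity over the windows with cut rows, type F4)
-/

set_option autoImplicit false

namespace Pool.Agent.Lib.MP_4c1f79_al

open Finset Module

private theorem fw1_sub (A : ℕ → Bool) :
    RF (fun k => !A k) ⊆ (winB (WF A) : Set (Fin 6 × Fin 12)) := by
  intro p hp
  rw [mem_WF]
  rintro ⟨_, h2⟩
  have h3 : (!A p.2) = true := hp.2
  rw [h2] at h3
  exact absurd h3 (by decide)

private theorem fw1_diff (A : ℕ → Bool) :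
    (winB (WF A) : Set (Fin 6 × Fin 12)) \ RF (fun k => !A k) = U4F := by
  rw [WF_diff, ← WF_all]
  congr 2
  funext k
  cases A k <;> rfl

private theorem fw1_tau (A : ℕ → Bool) (p : Fin 6 × Fin 12)
    (hp : p ∈ (winB (WF A) : Set (Fin 6 × Fin 12))) (hp2 : p ∉ RF (fun k => !A k))
    (x : Fin 6 × Fin 12) (hx : x ∈ RF (fun k => !A k)) : ¬ MF.Tau p x := by
  intro h
  have h1 : p.1 = x.1 := h.1
  rw [mem_WF] at hp
  apply hp2
  have h3 : p.1 = 0 ∨ p.1 = 4 := by
    rw [h1]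
    exact hx.1
  refine ⟨h3, ?_⟩
  show (!A p.2) = true
  cases h4 : A p.2
  · rfl
  · exact absurd ⟨h3, h4⟩ hp

theorem FW1_holds (hTH1 : S_TH1) (hTHN : S_THN) (hPEM : S_PEM) (hFD2 : S_FD2) : S_FW1 := by
  classical
  intro hU4 A hA
  constructor
  · intro hA01
    refine hTH1 (Fin 6 × Fin 12) MF sF 2 (winB (WF A)) (RF (fun k => !A k)) (adm_F A)
      (RF_stab _) (fw1_sub A) (fw1_tau A) ?_ ?_
    · intro E hO hEU K _ D _ N hN p hp
      exact hFD2 A hA E hO hEU (Or.inr hA01) K D N hN p hp.1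
    · rw [fw1_diff]
      exact hU4
  · intro m hm
    refine hPEM (Fin 6 × Fin 12) MF sF 2 (winB (WF A)) (adm_F A) m ?_
    intro E hO hEU hE d
    have hne : E ≠ bF := by
      rintro rfl
      have h1 : ((1, 0) : Fin 6 × Fin 12) ∈ bF := ⟨Or.inl rfl, rfl⟩
      exact hE _ h1 (hm _ h1)
    refine hTHN (Fin 6 × Fin 12) MF sF 2 (winB (WF A)) (RF (fun k => !A k)) E (adm_F A)
      (RF_stab _) (fw1_sub A) hO hEU d ?_ ?_ ?_
    · intro p hp hp2 x hx hpx
      exact absurd hpx (fw1_tau A p hp hp2 x hx)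
    · intro K _ D _ N hN p hp
      have h1 := hFD2 A hA E hO hEU (Or.inl hne) K D N hN p hp.1
      omega
    · intro m' _
      rw [fw1_diff]
      exact hU4 m'

end Pool.Agent.Lib.MP_4c1f79_al
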