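import Pool.Agent.Lib.MP_4c1f79_al.StmF

/-!
# MP_4c1f79_al : FW2, the vectors `d` which are not special
-/

set_option autoImplicit false

namespace Pool.Agent.Lib.MP_4c1f79_al

open Finset Module

section general

variable {P : Type} [Fintype P] {M : Mesh P} {s : Equiv.Perm P} {K : Type} [Field K] {D : Fd K}

private theorem FW2_inj (N : FM M s K D) : Function.Injective N.F := by
  intro x y h
  have hx := N.F_r x
  have hy := N.F_r y
  obtain ⟨n, hn⟩ : ∃ n, D.r = n + 1 := ⟨D.r - 1, by have := D.r_pos; omega⟩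
  rw [hn, Function.iterate_succ_apply] at hx hy
  rw [← hx, ← hy, h]

/-- The dimension vector of a sub is monotone along `s`. -/
private theorem FW2_le (N : FM M s K D) (W : Submodule K N.T) (hW : N.St W) (p : P) :
    N.toRp.dmS W p ≤ N.toRp.dmS W (s p) := by
  have hK : 1 < Nat.card K := by
    rw [D.card_K]
    exact Nat.one_lt_pow D.r_pos.ne' D.q_gt
  have hmem : ∀ y : W.map (N.e p), N.F y.1 ∈ W.map (N.e (s p)) := by
    rintro ⟨_, x, hx, rfl⟩
    exact ⟨N.F x, hW.2 x hx, (N.F_e p x).symm⟩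
  have h1 : Nat.card (W.map (N.e p)) ≤ Nat.card (W.map (N.e (s p))) :=
    Nat.card_le_card_of_injective (fun y : W.map (N.e p) => (⟨N.F y.1, hmem y⟩ : W.map (N.e (s p))))
      fun y z h => Subtype.ext (FW2_inj N (congrArg Subtype.val h))
  rw [Module.natCard_eq_pow_finrank (K := K) (V := W.map (N.e p)),
    Module.natCard_eq_pow_finrank (K := K) (V := W.map (N.e (s p)))] at h1
  exact (Nat.pow_le_pow_iff_right hK).mp h1

/-- no subs -/
private theorem FW2_cnt0 (N : FM M s K D) (d : P → ℕ)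
    (h : ∀ W, N.St W → ¬ ∀ p, N.toRp.dmS W p = d p) : N.cnt d = 0 := by
  unfold FM.cnt
  rw [Nat.card_eq_zero]
  left
  exact ⟨fun W => h W.1 W.2.1 W.2.2⟩

end general

private theorem FW2_sym {K : Type} [Field K] {D : Fd K} (N : FM MF sF K D)
    (W : Submodule K N.T) (hW : N.St W) (k : Fin 12) :
    N.toRp.dmS W (4, k) = N.toRp.dmS W (0, k) := by
  have h0 : sF (0, k) = (4, k) := by revert k; decide
  have h4 : sF (4, k) = (0, k) := by revert k; decide
  refine le_antisymm ?_ ?_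
  · have h := FW2_le N W hW (4, k)
    rwa [h4] at h
  · have h := FW2_le N W hW (0, k)
    rwa [h0] at h

private theorem FW2_zero (d : Fin 6 × Fin 12 → ℕ)
    (h : ∀ (K : Type) [Field K] (D : Fd K), D.r = 2 →
      ∀ N : FM MF sF K D, N.GT Set.univ (ind bF) → N.cnt d = 0) :
    ∃ Fs : Finset (Polynomial ℕ), ∀ (K : Type) [Field K] (D : Fd K), D.r = 2 →
      ∀ N : FM MF sF K D, N.GT Set.univ (ind bF) → ∃ f ∈ Fs, N.cnt d = f.eval D.q := by
  refine ⟨{0}, fun K _ D hD N hN => ⟨0, Finset.mem_singleton_self _, ?_⟩⟩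
  rw [h K D hD N hN, Polynomial.eval_zero]

private theorem FW2_diff (A : ℕ → Bool) :
    (Set.univ : Set (Fin 6 × Fin 12)) \ RF A = winB (WF A) := by
  rw [← WF_none, WF_diff]
  congr 1

/-- the thin step for the rows with `A` -/
private theorem FW2_app (hTHN : S_THN) (hFD1 : S_FD1) (A : ℕ → Bool) (d : Fin 6 × Fin 12 → ℕ)
    (h4 : ∀ k, d (4, k) = d (0, k)) (hx : ∀ k, d (0, k) ≤ xF k)
    (h5 : A 5 = true → d (0, 5) ≠ 1)
    (hc : ∀ k l : Fin 12, (k : ℕ) = l + 2 → A k = false → A l = true → d (0, l) = 0)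
    (hm : ∀ m' : Fin 6 × Fin 12 → ℕ, ((∃ x ∈ RF A, d x ≠ 0) → ∀ p ∈ bF, m' p = 0) →
      PosT MF sF 2 (winB (WF A)) m') :
    ∃ Fs : Finset (Polynomial ℕ), ∀ (K : Type) [Field K] (D : Fd K), D.r = 2 →
      ∀ N : FM MF sF K D, N.GT Set.univ (ind bF) → ∃ f ∈ Fs, N.cnt d = f.eval D.q := by
  have hd : ∀ p : Fin 6 × Fin 12, (p.1 = 0 ∨ p.1 = 4) → d p = d (0, p.2) := by
    rintro ⟨v, k⟩ (h | h)
    · obtain rfl : v = 0 := h
      rfl
    · obtain rfl : v = 4 := h
      exact h4 k
  refine hTHN _ MF sF 2 Set.univ (RF A) bF adm_univF (RF_stab A) (Set.subset_univ _) orb_bF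
    (Set.subset_univ _) d ?_ ?_ ?_
  · rintro p - hp x hx1 ht
    obtain ⟨h1, h2⟩ := ht
    rw [hd x hx1.1]
    refine hc p.2 x.2 h2 ?_ hx1.2
    by_contra h3
    exact hp ⟨h1 ▸ hx1.1, by simpa using h3⟩
  · intro K _ D hD N hN p hp
    have h1 := hFD1 K D N hN p.2
    have h2 : N.toRp.dm p = xF p.2 := by
      rcases hp.1 with h | h
      · rw [← h1.1]
        congr 1
        exact Prod.ext h rfl
      · rw [← h1.2]
        congr 1
        exact Prod.ext h rfl
    rw [hd p hp.1, h2]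
    have h3 := hx p.2
    have h6 : p.2 = 5 → d (0, p.2) ≠ 1 := by
      intro h
      rw [h]
      refine h5 ?_
      have := hp.2
      rw [h] at this
      exact this
    by_cases h7 : p.2 = 5
    · have h8 := h6 h7
      rw [h7] at h3 h8 ⊢
      have h9 : xF (5 : Fin 12) = 2 := by decide
      rw [h9] at h3 ⊢
      omega
    · have h8 : ∀ k : Fin 12, k ≠ 5 → xF k ≤ 1 := by decide
      have h9 := h8 p.2 h7
      omega
  · rw [FW2_diff]
    exact hm

theorem FW2_holds (hTHN : S_THN) (hFD1 : S_FD1) (hFW1 : S_FW1) (hDQ1 : S_DQ1) : S_FW2 := by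
  intro hP d hd
  by_cases h4 : ∀ k, d (4, k) = d (0, k)
  swap
  · refine FW2_zero d fun K _ D hD N hN => FW2_cnt0 N d fun W hW hdW => h4 fun k => ?_
    rw [← hdW, ← hdW]
    exact FW2_sym N W hW k
  by_cases hx : ∀ k, d (0, k) ≤ xF k
  swap
  · refine FW2_zero d fun K _ D hD N hN => FW2_cnt0 N d fun W hW hdW => hx fun k => ?_
    rw [← hdW, ← (hFD1 K D N hN k).1]
    obtain ⟨-, -, h3, -, h5, -⟩ := hDQ1 (Fin 6 × Fin 12) MF K
    rw [← h3]
    exact h5 _ _ _ le_top _
  by_cases h5 : d (0, 5) = 1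
  swap
  · refine FW2_app hTHN hFD1 (fun _ => true) d h4 hx (fun _ => h5) ?_ ?_
    · intro k l _ h
      exact absurd h (by decide)
    · intro m' _
      rw [WF_all]
      exact hP m'
  by_cases h6 : ∀ k : Fin 12, 5 < k → d (0, k) = 0
  swap
  · refine FW2_app hTHN hFD1 (fun k => decide (5 < k)) d h4 hx (fun h => absurd h (by decide)) ?_ ?_
    · intro k l h1 h2 h3
      simp only [decide_eq_false_iff_not, decide_eq_true_eq] at h2 h3
      omega
    · intro m' hm'
      refine (hFW1 hP _ fun k hk => by simpa using hk).2 m' (hm' ?_)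
      obtain ⟨k, hk, hk0⟩ : ∃ k : Fin 12, 5 < k ∧ d (0, k) ≠ 0 := by
        by_contra h7
        exact h6 fun k hk => by
          by_contra h8
          exact h7 ⟨k, hk, h8⟩
      have hk' : (5 : ℕ) < (k : ℕ) := hk
      exact ⟨(0, k), ⟨Or.inl rfl, decide_eq_true hk'⟩, hk0⟩
  have h0 : d (0, 0) = 0 := Nat.le_zero.1 (hx 0)
  have h2 : d (0, 2) = 0 := Nat.le_zero.1 (hx 2)
  have h44 : d (0, 4) = 0 := Nat.le_zero.1 (hx 4)
  by_cases h3 : d (0, 3) = 0
  · refine FW2_app hTHN hFD1 (fun k => decide (k ≤ 3 ∨ 5 < k)) d h4 hx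
      (fun h => absurd h (by decide)) ?_ ?_
    · intro k l h1 h2' h3'
      simp only [decide_eq_false_iff_not, decide_eq_true_eq] at h2' h3'
      have h7 : l = 2 ∨ l = 3 := by
        rcases l with ⟨l, hl⟩
        simp only at h1 h3'
        have : l = 2 ∨ l = 3 := by omega
        rcases this with rfl | rfl
        · exact Or.inl rfl
        · exact Or.inr rfl
      rcases h7 with rfl | rfl
      · exact h2
      · exact h3
    · intro m' _
      exact (hFW1 hP (fun k => decide (k ≤ 3 ∨ 5 < k)) fun k hk => by simp [hk]).1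
        ⟨by decide, by decide⟩ m'
  by_cases h1 : d (0, 1) = 0
  · refine FW2_app hTHN hFD1 (fun k => decide (k ≤ 1 ∨ 5 < k)) d h4 hx
      (fun h => absurd h (by decide)) ?_ ?_
    · intro k l h1' h2' h3'
      simp only [decide_eq_false_iff_not, decide_eq_true_eq] at h2' h3'
      have h7 : l = 0 ∨ l = 1 := by
        rcases l with ⟨l, hl⟩
        simp only at h1' h3'
        have : l = 0 ∨ l = 1 := by omega
        rcases this with rfl | rfl
        · exact Or.inl rfl
        · exact Or.inr rfl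
      rcases h7 with rfl | rfl
      · exact h0
      · exact h1
    · intro m' _
      exact (hFW1 hP (fun k => decide (k ≤ 1 ∨ 5 < k)) fun k hk => by simp [hk]).1
        ⟨by decide, by decide⟩ m'
  -- the special vectors
  refine absurd ?_ hd
  have hx1 : d (0, 1) ≤ 1 := hx 1
  have hx3 : d (0, 3) ≤ 1 := hx 3
  have key : ∀ k : Fin 12, d (0, k) = if k = 1 ∨ k = 3 ∨ k = 5 then 1 else 0 := by
    intro k
    by_cases hk : 5 < k
    · rw [h6 k hk, if_neg]
      rintro (rfl | rfl | rfl) <;> exact absurd hk (by decide)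
    · have h8 : k = 0 ∨ k = 1 ∨ k = 2 ∨ k = 3 ∨ k = 4 ∨ k = 5 := by revert k; decide
      rcases h8 with rfl | rfl | rfl | rfl | rfl | rfl
      · rw [h0]; rfl
      · rw [if_pos (Or.inl rfl)]; omega
      · rw [h2]; rfl
      · rw [if_pos (Or.inr (Or.inl rfl))]; omega
      · rw [h44]; rfl
      · rw [h5]; rfl
  intro k
  exact ⟨key k, (h4 k).trans (key k)⟩

end Pool.Agent.Lib.MP_4c1f79_al
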