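import Pool.Agent.Lib.MP_4c1f79_al.StmG2

/-! MP_4c1f79_al, G2 block: types at the centre. -/

set_option autoImplicit false

namespace Pool.Agent.Lib.MP_4c1f79_al

open Finset Module

theorem G10_stab : ∀ p, sG p ∈ LG ↔ p ∈ LG := by
  have h : ∀ p : Fin 4 × Fin 6, (sG p).1 ≠ 3 ↔ p.1 ≠ 3 := by decide
  exact h

theorem G10_tau : ∀ p ∈ (Set.univ : Set (Fin 4 × Fin 6)), p ∉ LG → ∀ x ∈ LG, ¬ MG.Tau p x := by
  intro p _ hp x hx h
  exact hp fun h3 => hx (h.1.symm.trans h3)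

theorem G10_fix (k : Fin 6) (i : ℕ) : (⇑sG)^[i] ((3 : Fin 4), k) = (3, k) := by
  have h : sG ((3 : Fin 4), k) = (3, k) := by
    revert k
    decide
  exact Function.iterate_fixed h i

theorem G10_orb (k : Fin 6) : Orb sG {((3 : Fin 4), k)} := by
  refine ⟨(3, k), Set.ext fun x => ?_⟩
  constructor
  · intro h
    exact ⟨0, h⟩
  · rintro ⟨i, h⟩
    rw [G10_fix] at h
    exact h

theorem G10_holds (hTHN : S_THN) (hG8 : S_G8) (hG9 : S_G9) : S_G10 := by
  intro k d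
  refine hTHN (Fin 4 × Fin 6) MG sG 3 Set.univ LG {((3 : Fin 4), k)} adm_G G10_stab
    (Set.subset_univ _) (G10_orb k) (Set.subset_univ _) d
    (fun p hp hp' x hx h => absurd h (G10_tau p hp hp' x hx)) ?_ ?_
  · intro K _ D _ N hN p hp
    have h1 := hG9 K D k N hN p hp
    omega
  · intro m' _
    rw [← Set.compl_eq_univ_sdiff]
    exact hG8 m'

end Pool.Agent.Lib.MP_4c1f79_al
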