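import Pool.Agent.Lib.MP_4c1f79_al.StmG2

/-! MP_4c1f79_al, G2 block: the leaves at level zero. -/

set_option autoImplicit false

namespace Pool.Agent.Lib.MP_4c1f79_al

open Finset Module

section general

variable {P : Type} [Fintype P] {M : Mesh P} {s : Equiv.Perm P} {K : Type} [Field K] {D : Fd K}

theorem G11_F_inj (N : FM M s K D) : Function.Injective N.F := by
  intro x y h
  have hx := N.F_r x
  have hy := N.F_r y
  obtain ⟨n, hn⟩ : ∃ n, D.r = n + 1 := ⟨D.r - 1, by have := D.r_pos; omega⟩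
  rw [hn, Function.iterate_succ_apply] at hx hy
  rw [← hx, ← hy, h]

/-- The dimension vector of a sub is monotone along `s`. -/
theorem G11_le (N : FM M s K D) (W : Submodule K N.T) (hW : N.St W) (p : P) :
    N.toRp.dmS W p ≤ N.toRp.dmS W (s p) := by
  have hK : 1 < Nat.card K := by
    rw [D.card_K]
    exact Nat.one_lt_pow D.r_pos.ne' D.q_gt
  have hmem : ∀ y : W.map (N.e p), N.F y.1 ∈ W.map (N.e (s p)) := by
    rintro ⟨_, x, hx, rfl⟩
    exact ⟨N.F x, hW.2 x hx, (N.F_e p x).symm⟩
  have h1 : Nat.card (W.map (N.e p)) ≤ Nat.card (W.map (N.e (s p))) :=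
    Nat.card_le_card_of_injective (fun y : W.map (N.e p) => (⟨N.F y.1, hmem y⟩ : W.map (N.e (s p))))
      fun y z h => Subtype.ext (G11_F_inj N (congrArg Subtype.val h))
  rw [Module.natCard_eq_pow_finrank (K := K) (V := W.map (N.e p)),
    Module.natCard_eq_pow_finrank (K := K) (V := W.map (N.e (s p)))] at h1
  exact (Nat.pow_le_pow_iff_right hK).mp h1

end general

theorem G11_inv {K : Type} [Field K] {D : Fd K} (N : FM MG sG K D) (W : Submodule K N.T)
    (hW : N.St W) (p : Fin 4 × Fin 6) : N.toRp.dmS W (sG p) = N.toRp.dmS W p := by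
  refine le_antisymm ?_ (G11_le N W hW p)
  refine (G11_le N W hW _).trans ((G11_le N W hW _).trans (le_of_eq ?_))
  exact congrArg _ (sG_per p)

theorem G11_orb : Orb sG (EG 0) := by
  refine ⟨(0, 0), Set.ext fun x => ?_⟩
  constructor
  · rintro ⟨h1, h2⟩
    obtain ⟨v, k⟩ := x
    simp only at h1 h2
    subst h2
    have h : ∀ v : Fin 4, v ≠ 3 → ((v, 0) : Fin 4 × Fin 6) = (⇑sG)^[v] (0, 0) := by decide
    exact ⟨v, h v h1⟩
  · rintro ⟨i, rfl⟩
    induction i with
    | zero => exact ⟨by decide, rfl⟩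
    | succ i ih =>
      rw [Function.iterate_succ_apply']
      have h : ∀ p : Fin 4 × Fin 6, p.1 ≠ 3 ∧ p.2 = 0 → (sG p).1 ≠ 3 ∧ (sG p).2 = 0 := by decide
      exact h _ ih

theorem G11_holds (hTHN : S_THN) (hG8 : S_G8) (hG1 : S_G1) (hG7 : S_G7) : S_G11 := by
  intro d
  classical
  by_cases hinv : ∀ p, d (sG p) = d p
  · have hall : ∀ k, d (1, k) = d (0, k) ∧ d (2, k) = d (0, k) := by
      intro k
      have h1 : sG (0, k) = (1, k) := by revert k; decide
      have h2 : sG (1, k) = (2, k) := by revert k; decide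
      have e1 := hinv (0, k)
      have e2 := hinv (1, k)
      rw [h1] at e1
      rw [h2] at e2
      exact ⟨e1, e2.trans e1⟩
    have hleaf : ∀ v : Fin 4, v ≠ 3 → ∀ k, d (v, k) = d (0, k) := by
      intro v hv k
      have h : v = 0 ∨ v = 1 ∨ v = 2 := by revert v; decide
      rcases h with rfl | rfl | rfl
      · rfl
      · exact (hall k).1
      · exact (hall k).2
    by_cases h1 : d (0, 2) = 1
    · have h2 : ∀ p ∈ EG 2, d p = 1 := by
        rintro ⟨v, k⟩ ⟨hv, hk⟩
        simp only at hv hk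
        subst hk
        rw [hleaf v hv, h1]
      refine ⟨{0, Polynomial.X ^ 3 + 1, Polynomial.X ^ 2 + Polynomial.X + 1},
        fun K _ D hD N hN => ?_⟩
      rcases hG7 K D hD N hN d h2 with h | h | h
      · exact ⟨0, by simp, by simp [h]⟩
      · exact ⟨Polynomial.X ^ 3 + 1, by simp, by simp [h]⟩
      · exact ⟨Polynomial.X ^ 2 + Polynomial.X + 1, by simp, by simp [h]⟩
    · have hstab : ∀ p, sG p ∈ LG ↔ p ∈ LG := by
        have h : ∀ p : Fin 4 × Fin 6, (sG p).1 ≠ 3 ↔ p.1 ≠ 3 := by decide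
        exact h
      refine hTHN (Fin 4 × Fin 6) MG sG 3 Set.univ LG (EG 0) adm_G hstab
        (Set.subset_univ _) G11_orb (Set.subset_univ _) d
        (fun p _ hp' x hx h => absurd (fun h3 => hx (h.1.symm.trans h3)) hp') ?_ ?_
      · rintro K _ D _ N hN ⟨v, k⟩ (hv : v ≠ 3)
        have hf := hG1 K D N hN
        have hz : (k : ℕ) % 2 = 1 → N.toRp.dm (v, k) = 0 := by
          intro hk
          have h0 : N.e (v, k) = 0 := LinearMap.ext fun x => hf.zero (v, k) (Or.inl ⟨hv, hk⟩) x
          unfold Rp.dm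
          rw [h0, LinearMap.range_zero, finrank_bot]
        have hd0 := hf.dim0 v hv
        have hd2 := hf.dim2 v hv
        have hd4 := hf.dim4 v hv
        have hv2 := hleaf v hv 2
        fin_cases k
        · change d (v, 0) = 0 ∨ finrank K (LinearMap.range (N.e (v, 0))) ≤ d (v, 0)
          omega
        · right
          exact (hz rfl).le.trans (Nat.zero_le _)
        · change d (v, 2) = 0 ∨ finrank K (LinearMap.range (N.e (v, 2))) ≤ d (v, 2)
          omega
        · right
          exact (hz rfl).le.trans (Nat.zero_le _)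
        · change d (v, 4) = 0 ∨ finrank K (LinearMap.range (N.e (v, 4))) ≤ d (v, 4)
          omega
        · right
          exact (hz rfl).le.trans (Nat.zero_le _)
      · intro m' _
        rw [← Set.compl_eq_univ_sdiff]
        exact hG8 m'
  · refine ⟨{0}, fun K _ D _ N hN => ⟨0, by simp, ?_⟩⟩
    rw [Polynomial.eval_zero]
    have : IsEmpty {W : Submodule K N.T // N.St W ∧ ∀ p, N.toRp.dmS W p = d p} := by
      refine ⟨fun W => hinv fun p => ?_⟩
      rw [← W.2.2, ← W.2.2]
      exact G11_inv N W.1 W.2.1 p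
    unfold FM.cnt
    exact Nat.card_of_isEmpty

end Pool.Agent.Lib.MP_4c1f79_al
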