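import Pool.Agent.Lib.MP_4c1f79_al.StmG2

/-! MP_4c1f79_al, G2 block: the result. -/

set_option autoImplicit false

namespace Pool.Agent.Lib.MP_4c1f79_al

open Finset Module

private theorem G12_orb0 (v : Fin 4) (hv : v ≠ 3) :
    {x : Fin 4 × Fin 6 | ∃ i : ℕ, x = (⇑sG)^[i] (v, 0)} = EG 0 := by
  refine Set.ext fun x => ?_
  constructor
  · rintro ⟨i, rfl⟩
    induction i with
    | zero => exact ⟨hv, rfl⟩
    | succ i ih =>
      rw [Function.iterate_succ_apply']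
      have h : ∀ p : Fin 4 × Fin 6, p.1 ≠ 3 ∧ p.2 = 0 → (sG p).1 ≠ 3 ∧ (sG p).2 = 0 := by decide
      exact h _ ih
  · rintro ⟨h1, h2⟩
    obtain ⟨w, k⟩ := x
    simp only at h1 h2
    subst h2
    have h : ∀ v w : Fin 4, v ≠ 3 → w ≠ 3 →
        ((w, 0) : Fin 4 × Fin 6) = (⇑sG)^[0] (v, 0) ∨ ((w, 0) : Fin 4 × Fin 6) = (⇑sG)^[1] (v, 0) ∨
          ((w, 0) : Fin 4 × Fin 6) = (⇑sG)^[2] (v, 0) := by decide
    rcases h v w hv h1 with h | h | h
    · exact ⟨0, h⟩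
    · exact ⟨1, h⟩
    · exact ⟨2, h⟩

private theorem G12_orb1 (k : Fin 6) :
    {x : Fin 4 × Fin 6 | ∃ i : ℕ, x = (⇑sG)^[i] (3, k)} = {(3, k)} := by
  have h : sG ((3 : Fin 4), k) = (3, k) := by
    revert k
    decide
  refine Set.ext fun x => ?_
  constructor
  · rintro ⟨i, hi⟩
    rw [Function.iterate_fixed h] at hi
    exact hi
  · intro h
    exact ⟨0, h⟩

theorem G12_holds (hPEM : S_PEM) (hG10 : S_G10) (hG11 : S_G11) : S_G12 := by
  intro m hm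
  refine hPEM (Fin 4 × Fin 6) MG sG 3 Set.univ adm_G m fun E hE _ hEm => ?_
  obtain ⟨p, rfl⟩ := hE
  have hp : m p ≠ 0 := hEm p ⟨0, rfl⟩
  by_cases h0 : p ∈ EG 0
  · obtain ⟨v, k⟩ := p
    obtain ⟨hv, hk⟩ := h0
    simp only at hv hk
    subst hk
    rw [G12_orb0 v hv]
    exact hG11
  · by_cases h1 : p = (3, 1)
    · subst h1
      rw [G12_orb1]
      exact hG10 1
    · exact absurd (hm p h0 h1) hp

end Pool.Agent.Lib.MP_4c1f79_al
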