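import Pool.Agent.Lib.MP_4c1f79_al.StmG2

/-!
# MP_4c1f79_al : piece G2A (the hull of a line)
-/

set_option autoImplicit false

namespace Pool.Agent.Lib.MP_4c1f79_al

open Finset Module

private theorem G2A_e {P : Type} [Fintype P] {M : Mesh P} {K : Type} [Field K] (R : Rp M K)
    {p q : P} {x : R.T} (hx : R.e q x = x) (h : p ≠ q) : R.e p x = 0 := by
  rw [← hx]
  exact R.e_ne p q x h

private theorem G2A_smul {K : Type} [Field K] {D : Fd K} (N : FM MG sG K D) (c : K) (x : N.T) :
    N.F (c • x) = D.φ c • N.F x := N.F.map_smulₛₗ c x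

theorem G2A_holds : S_G2A := by
  intro K _ D hr N ℓ hℓ hdim
  obtain ⟨x', hx'0, hx'⟩ := finrank_eq_one_iff'.1 hdim
  obtain ⟨x0, hx0⟩ : ∃ x0 : N.T, x0 = x'.1 := ⟨_, rfl⟩
  have hx0ne : x0 ≠ 0 := by
    rw [hx0]
    intro h
    exact hx'0 (Subtype.ext h)
  have hmem : x0 ∈ ℓ := by
    rw [hx0]
    exact x'.2
  have hℓx : ∀ z ∈ ℓ, ∃ c : K, z = c • x0 := by
    intro z hz
    obtain ⟨c, hc⟩ := hx' ⟨z, hz⟩
    refine ⟨c, ?_⟩
    rw [hx0]
    exact (congrArg Subtype.val hc).symm
  have he : ∀ z ∈ LinearMap.range (N.e (0, 2)), N.e (0, 2) z = z := by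
    rintro _ ⟨z, rfl⟩
    exact N.e_e _ z
  have e0 : N.e (0, 2) x0 = x0 := he x0 (hℓ hmem)
  obtain ⟨x1, hx1⟩ : ∃ x1 : N.T, x1 = N.F x0 := ⟨_, rfl⟩
  obtain ⟨x2, hx2⟩ : ∃ x2 : N.T, x2 = N.F x1 := ⟨_, rfl⟩
  have e1 : N.e (1, 2) x1 = x1 := by
    have h := N.F_e (0, 2) x0
    rw [e0, ← hx1] at h
    exact h.symm
  have e2 : N.e (2, 2) x2 = x2 := by
    have h := N.F_e (1, 2) x1
    rw [e1, ← hx2] at h
    exact h.symm
  have hF3 : N.F x2 = x0 := by
    have h := N.F_r x0
    rw [hr] at h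
    rw [hx2, hx1]
    exact h
  have hF0 : ∀ z, N.F z = 0 → z = 0 := by
    intro z hz
    have h := N.F_r z
    rw [hr] at h
    have h2 : N.F (N.F (N.F z)) = z := h
    rw [hz, map_zero, map_zero] at h2
    exact h2.symm
  have hx1ne : x1 ≠ 0 := fun h => hx0ne (hF0 _ (by rw [← hx1, h]))
  have hx2ne : x2 ≠ 0 := fun h => hx1ne (hF0 _ (by rw [← hx2, h]))
  -- the other components
  have c0 : ∀ p, p ≠ (0, 2) → N.e p x0 = 0 := fun p hp => G2A_e N.toRp e0 hp
  have c1 : ∀ p, p ≠ (1, 2) → N.e p x1 = 0 := fun p hp => G2A_e N.toRp e1 hp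
  have c2 : ∀ p, p ≠ (2, 2) → N.e p x2 = 0 := fun p hp => G2A_e N.toRp e2 hp
  -- membership
  have hsub0 : x0 ∈ N.FB ℓ := Submodule.subset_span ⟨x0, hmem, 0, rfl⟩
  have hsub1 : x1 ∈ N.FB ℓ := Submodule.subset_span ⟨x0, hmem, 1, hx1⟩
  have hsub2 : x2 ∈ N.FB ℓ := Submodule.subset_span ⟨x0, hmem, 2, by rw [hx2, hx1]; rfl⟩
  have hS : N.FB ℓ = Submodule.span K (Set.range ![x0, x1, x2]) := by
    apply le_antisymm
    · refine Submodule.span_le.2 ?_
      have h0 : x0 ∈ Submodule.span K (Set.range ![x0, x1, x2]) :=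
        Submodule.subset_span ⟨0, rfl⟩
      have h1 : x1 ∈ Submodule.span K (Set.range ![x0, x1, x2]) :=
        Submodule.subset_span ⟨1, rfl⟩
      have h2 : x2 ∈ Submodule.span K (Set.range ![x0, x1, x2]) :=
        Submodule.subset_span ⟨2, rfl⟩
      have hst : ∀ z ∈ Submodule.span K (Set.range ![x0, x1, x2]),
          N.F z ∈ Submodule.span K (Set.range ![x0, x1, x2]) := by
        intro z hz
        rw [Submodule.mem_span_range_iff_exists_fun] at hz
        obtain ⟨c, rfl⟩ := hz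
        rw [map_sum]
        refine Submodule.sum_mem _ fun i _ => ?_
        rw [G2A_smul]
        apply Submodule.smul_mem
        fin_cases i
        · show N.F x0 ∈ _
          rw [← hx1]
          exact h1
        · show N.F x1 ∈ _
          rw [← hx2]
          exact h2
        · show N.F x2 ∈ _
          rw [hF3]
          exact h0
      rintro y ⟨z, hz, i, rfl⟩
      show (⇑N.F)^[i] z ∈ Submodule.span K (Set.range ![x0, x1, x2])
      induction i with
      | zero =>
        obtain ⟨c, rfl⟩ := hℓx z hz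
        exact Submodule.smul_mem _ c h0
      | succ i ih =>
        rw [Function.iterate_succ_apply']
        exact hst _ ih
    · refine Submodule.span_le.2 ?_
      rintro y ⟨i, rfl⟩
      fin_cases i
      · exact hsub0
      · exact hsub1
      · exact hsub2
  have hex : ∀ z ∈ N.FB ℓ, ∃ a b c : K, z = a • x0 + b • x1 + c • x2 := by
    intro z hz
    rw [hS, Submodule.mem_span_range_iff_exists_fun] at hz
    obtain ⟨c, rfl⟩ := hz
    refine ⟨c 0, c 1, c 2, ?_⟩
    rw [Fin.sum_univ_three]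
    rfl
  have hin : ∀ a b c : K, a • x0 + b • x1 + c • x2 ∈ N.FB ℓ := fun a b c =>
    Submodule.add_mem _ (Submodule.add_mem _ (Submodule.smul_mem _ a hsub0)
      (Submodule.smul_mem _ b hsub1)) (Submodule.smul_mem _ c hsub2)
  have hc0 : ∀ a b c : K, N.e (0, 2) (a • x0 + b • x1 + c • x2) = a • x0 := by
    intro a b c
    rw [map_add, map_add, map_smul, map_smul, map_smul, e0, c1 _ (by decide), c2 _ (by decide),
      smul_zero, smul_zero, add_zero, add_zero]
  have hc1 : ∀ a b c : K, N.e (1, 2) (a • x0 + b • x1 + c • x2) = b • x1 := by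
    intro a b c
    rw [map_add, map_add, map_smul, map_smul, map_smul, e1, c0 _ (by decide), c2 _ (by decide),
      smul_zero, smul_zero, add_zero, zero_add]
  have hc2 : ∀ a b c : K, N.e (2, 2) (a • x0 + b • x1 + c • x2) = c • x2 := by
    intro a b c
    rw [map_add, map_add, map_smul, map_smul, map_smul, e2, c0 _ (by decide), c1 _ (by decide),
      smul_zero, smul_zero, zero_add, zero_add]
  have hc : ∀ p, p ∉ EG 2 → ∀ a b c : K, N.e p (a • x0 + b • x1 + c • x2) = 0 := by
    intro p hp a b c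
    have n0 : p ≠ (0, 2) := by
      rintro rfl
      exact hp ⟨by decide, rfl⟩
    have n1 : p ≠ (1, 2) := by
      rintro rfl
      exact hp ⟨by decide, rfl⟩
    have n2 : p ≠ (2, 2) := by
      rintro rfl
      exact hp ⟨by decide, rfl⟩
    rw [map_add, map_add, map_smul, map_smul, map_smul, c0 _ n0, c1 _ n1, c2 _ n2,
      smul_zero, smul_zero, smul_zero, add_zero, add_zero]
  have hEG : ∀ p : Fin 4 × Fin 6, p ∈ EG 2 → p = (0, 2) ∨ p = (1, 2) ∨ p = (2, 2) := by
    rintro ⟨v, k⟩ ⟨h1, h2⟩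
    have h3 : k = 2 := h2
    subst h3
    have h4 : v ≠ 3 := h1
    fin_cases v
    · exact Or.inl rfl
    · exact Or.inr (Or.inl rfl)
    · exact Or.inr (Or.inr rfl)
    · exact absurd rfl h4
  refine ⟨?_, ?_, ?_, ?_, ?_, ?_, ?_⟩
  · intro z hz
    obtain ⟨a, b, c, rfl⟩ := hex z hz
    rw [map_add, map_add, G2A_smul, G2A_smul, G2A_smul, ← hx1, ← hx2, hF3]
    exact Submodule.add_mem _ (Submodule.add_mem _ (Submodule.smul_mem _ _ hsub1)
      (Submodule.smul_mem _ _ hsub2)) (Submodule.smul_mem _ _ hsub0)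
  · intro p z hz
    obtain ⟨a, b, c, rfl⟩ := hex z hz
    by_cases hp : p ∈ EG 2
    · rcases hEG p hp with rfl | rfl | rfl
      · rw [hc0]
        exact Submodule.smul_mem _ _ hsub0
      · rw [hc1]
        exact Submodule.smul_mem _ _ hsub1
      · rw [hc2]
        exact Submodule.smul_mem _ _ hsub2
    · rw [hc p hp]
      exact Submodule.zero_mem _
  · intro p hp z hz
    obtain ⟨a, b, c, rfl⟩ := hex z hz
    exact hc p hp a b c
  · apply le_antisymm
    · rintro z ⟨hz, hz2⟩
      obtain ⟨a, b, c, rfl⟩ := hex z hz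
      rw [← he _ hz2, hc0]
      exact Submodule.smul_mem _ _ hmem
    · intro z hz
      refine ⟨?_, hℓ hz⟩
      obtain ⟨c, rfl⟩ := hℓx z hz
      exact Submodule.smul_mem _ _ hsub0
  · intro p hp
    have key : ∀ (q : Fin 4 × Fin 6) (y : N.T), y ≠ 0 → y ∈ N.FB ℓ → N.e q y = y →
        (∀ z ∈ N.FB ℓ, ∃ c : K, N.e q z = c • y) →
        finrank K (N.FB ℓ ⊓ LinearMap.range (N.e q) : Submodule K N.T) = 1 := by
      intro q y hy hyF hyq hyc
      have h1 : (N.FB ℓ ⊓ LinearMap.range (N.e q) : Submodule K N.T) = Submodule.span K {y} := by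
        apply le_antisymm
        · rintro z ⟨hz, w, rfl⟩
          obtain ⟨c, hc⟩ := hyc _ hz
          rw [N.e_e] at hc
          rw [hc]
          exact Submodule.smul_mem _ _ (Submodule.mem_span_singleton_self y)
        · rw [Submodule.span_le]
          rintro z hz
          rw [Set.mem_singleton_iff] at hz
          rw [hz]
          exact ⟨hyF, y, hyq⟩
      rw [h1]
      exact finrank_span_singleton hy
    rcases hEG p hp with rfl | rfl | rfl
    · refine key _ x0 hx0ne hsub0 e0 fun z hz => ?_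
      obtain ⟨a, b, c, rfl⟩ := hex z hz
      exact ⟨a, hc0 a b c⟩
    · refine key _ x1 hx1ne hsub1 e1 fun z hz => ?_
      obtain ⟨a, b, c, rfl⟩ := hex z hz
      exact ⟨b, hc1 a b c⟩
    · refine key _ x2 hx2ne hsub2 e2 fun z hz => ?_
      obtain ⟨a, b, c, rfl⟩ := hex z hz
      exact ⟨c, hc2 a b c⟩
  · rw [hS]
    have hli : LinearIndependent K ![x0, x1, x2] := by
      rw [Fintype.linearIndependent_iff]
      intro g hg
      rw [Fin.sum_univ_three] at hg
      have hg' : g 0 • x0 + g 1 • x1 + g 2 • x2 = 0 := hg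
      have g0 := congrArg (N.e (0, 2)) hg'
      have g1 := congrArg (N.e (1, 2)) hg'
      have g2 := congrArg (N.e (2, 2)) hg'
      rw [hc0, map_zero] at g0
      rw [hc1, map_zero] at g1
      rw [hc2, map_zero] at g2
      intro i
      fin_cases i
      · exact (smul_eq_zero.1 g0).resolve_right hx0ne
      · exact (smul_eq_zero.1 g1).resolve_right hx1ne
      · exact (smul_eq_zero.1 g2).resolve_right hx2ne
    rw [finrank_span_eq_card hli, Fintype.card_fin]
  · intro W hW hF
    refine Submodule.span_le.2 ?_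
    rintro y ⟨z, hz, i, rfl⟩
    show (⇑N.F)^[i] z ∈ W
    induction i with
    | zero => exact hW hz
    | succ i ih =>
      rw [Function.iterate_succ_apply']
      exact hF _ ih

end Pool.Agent.Lib.MP_4c1f79_al
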