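import Pool.Agent.Lib.MP_4c1f79_al.StmG2

/-!
# MP_4c1f79_al : G2B, the image of the hull of a line under the arrows
-/

set_option autoImplicit false

namespace Pool.Agent.Lib.MP_4c1f79_al

open Finset Module

namespace G2B

variable {K : Type} [Field K] {D : Fd K}

/-- The data used in the proof: `x v` are the three vectors spanning the hull `B`. -/
structure Dt (N : FM MG sG K D) (B : Submodule K N.T) (x : Fin 4 → N.T) : Prop where
  gf : GFacts N
  r3 : D.r = 3
  xe : ∀ v, v ≠ 3 → N.e (v, 2) (x v) = x v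
  xn : ∀ v, v ≠ 3 → x v ≠ 0
  xF : ∀ v, v ≠ 3 → N.F (x v) = x (sgG v)
  xB : ∀ v, v ≠ 3 → x v ∈ B
  BF : ∀ y ∈ B, N.F y ∈ B
  Bs : ∀ p, p ∉ EG 2 → ∀ y ∈ B, N.e p y = 0
  Bc : ∀ v, v ≠ 3 → ∀ y ∈ B, ∃ c : K, N.e (v, 2) y = c • x v
  B3 : finrank K B = 3

theorem sg_ne (v : Fin 4) (h : v ≠ 3) : sgG v ≠ 3 := by revert v; decide

theorem sg_all (v u : Fin 4) (h : v ≠ 3) (h' : u ≠ 3) : u = v ∨ u = sgG v ∨ u = sgG (sgG v) := by
  revert v u; decide

theorem sg_two (v j : Fin 4) (h : v ≠ 3) (h' : j ≠ 3) (hn : v ≠ j) : j = sgG v ∨ v = sgG j := by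
  revert v j; decide

theorem leaf_cases (v : Fin 4) (h : v ≠ 3) : v = 0 ∨ v = 1 ∨ v = 2 := by revert v; decide

/-- Rank and nullity on a subspace. -/
theorem rn {V W : Type} [AddCommGroup V] [Module K V] [AddCommGroup W] [Module K W]
    [Module.Finite K V] (S : Submodule K V) (f : V →ₗ[K] W) :
    finrank K (S.map f) + finrank K (S ⊓ LinearMap.ker f : Submodule K V) = finrank K S := by
  have h := (f.domRestrict S).finrank_range_add_finrank_ker
  rw [LinearMap.range_domRestrict, LinearMap.ker_domRestrict] at h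
  rw [← h, ← Submodule.map_comap_subtype, Submodule.finrank_map_subtype_eq]

theorem F_inj (N : FM MG sG K D) (h3 : D.r = 3) (x : N.T) (h : N.F x = 0) : x = 0 := by
  have h1 := N.F_r x
  rw [h3] at h1
  have h2 : N.F (N.F (N.F x)) = x := h1
  rw [← h2, h, map_zero, map_zero]

/-- A vector with all components equal to zero is zero. -/
theorem zero_of (N : FM MG sG K D) (y : N.T) (h : ∀ p, N.e p y = 0) : y = 0 := by
  rw [← N.e_sum y]
  exact Finset.sum_eq_zero fun p _ => h p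

variable {N : FM MG sG K D} {B : Submodule K N.T} {x : Fin 4 → N.T}

theorem Dt.hne (d : Dt N B x) (v : Fin 4) (hv : v ≠ 3) : N.a (x v) ≠ 0 := by
  intro h
  exact d.xn v hv (d.gf.inj (v, 2) (by simp) (x v) (d.xe v hv) h)

theorem Dt.h31 (d : Dt N B x) (v : Fin 4) (hv : v ≠ 3) :
    N.e (3, 1) (N.a (x v)) = N.a (x v) := (d.gf.a2 v hv (x v) (d.xe v hv)).1

theorem Dt.h0 (d : Dt N B x) (v : Fin 4) (hv : v ≠ 3) :
    N.e (v, 0) (N.a (N.a (x v))) = 0 := (d.gf.a2 v hv (x v) (d.xe v hv)).2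

theorem Dt.ane (d : Dt N B x) (v : Fin 4) (hv : v ≠ 3) : N.a (N.a (x v)) ≠ 0 := by
  intro h
  exact d.hne v hv (d.gf.inj (3, 1) (by simp) _ (d.h31 v hv) h)

theorem Dt.noprop (d : Dt N B x) (v : Fin 4) (hv : v ≠ 3) (t : K)
    (h : N.a (x (sgG v)) = t • N.a (x v)) : False := by
  have hv1 := sg_ne v hv
  have hv2 := sg_ne _ hv1
  have ht : t ≠ 0 := by
    rintro rfl
    rw [zero_smul] at h
    exact d.hne _ hv1 h
  have h2 : N.a (x (sgG (sgG v))) = (D.φ t * t) • N.a (x v) := by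
    rw [← d.xF _ hv1, ← N.F_a, h, N.F.map_smulₛₗ, N.F_a, d.xF _ hv, h, smul_smul]
    rfl
  have ht2 : D.φ t * t ≠ 0 := by
    refine mul_ne_zero ?_ ht
    intro h0
    exact ht (by simpa using h0)
  apply d.ane v hv
  apply zero_of N
  intro p
  by_cases hp : p ∈ EG 0
  · obtain ⟨u, k⟩ := p
    obtain ⟨hu, hk⟩ := hp
    simp only at hu hk
    subst hk
    rcases sg_all v u hv hu with rfl | rfl | rfl
    · exact d.h0 _ hv
    · have h3 := d.h0 _ hv1
      rw [h, map_smul, map_smul] at h3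
      exact (smul_eq_zero.mp h3).resolve_left ht
    · have h3 := d.h0 _ hv2
      rw [h2, map_smul, map_smul] at h3
      exact (smul_eq_zero.mp h3).resolve_left ht2
  · exact d.gf.a1 _ (d.h31 v hv) p hp

theorem Dt.indep (d : Dt N B x) (v j : Fin 4) (hv : v ≠ 3) (hj : j ≠ 3) (hvj : v ≠ j)
    (c c' : K) (h : c • N.a (x v) + c' • N.a (x j) = 0) : c = 0 ∧ c' = 0 := by
  by_cases hc : c = 0
  · subst hc
    rw [zero_smul, zero_add] at h
    exact ⟨rfl, (smul_eq_zero.mp h).resolve_right (d.hne j hj)⟩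
  · by_cases hc' : c' = 0
    · subst hc'
      rw [zero_smul, add_zero] at h
      exact ⟨(smul_eq_zero.mp h).resolve_right (d.hne v hv), rfl⟩
    · exfalso
      rcases sg_two v j hv hj hvj with h1 | h1
      · apply d.noprop v hv (-(c'⁻¹ * c))
        rw [← h1]
        have h2 : c' • N.a (x j) = -(c • N.a (x v)) := by
          rw [add_comm] at h
          exact eq_neg_of_add_eq_zero_left h
        have h3 : N.a (x j) = c'⁻¹ • (c' • N.a (x j)) := by
          rw [smul_smul, inv_mul_cancel₀ hc', one_smul]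
        rw [h3, h2, smul_neg, smul_smul, neg_smul]
      · apply d.noprop j hj (-(c⁻¹ * c'))
        rw [← h1]
        have h2 : c • N.a (x v) = -(c' • N.a (x j)) := eq_neg_of_add_eq_zero_left h
        have h3 : N.a (x v) = c⁻¹ • (c • N.a (x v)) := by
          rw [smul_smul, inv_mul_cancel₀ hc, one_smul]
        rw [h3, h2, smul_neg, smul_smul, neg_smul]

/-- Every vector of `B` is a combination of the `x v`. -/
theorem Dt.comb (d : Dt N B x) (y : N.T) (hy : y ∈ B) :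
    ∃ c : Fin 4 → K, (∀ v, v ≠ 3 → N.e (v, 2) y = c v • x v) ∧
      y = c 0 • x 0 + c 1 • x 1 + c 2 • x 2 := by
  have h1 : ∀ v : Fin 4, ∃ c : K, v ≠ 3 → N.e (v, 2) y = c • x v := by
    intro v
    by_cases hv : v = 3
    · exact ⟨0, fun h => absurd hv h⟩
    · obtain ⟨c, hc⟩ := d.Bc v hv y hy
      exact ⟨c, fun _ => hc⟩
  choose c hc using h1
  refine ⟨c, hc, ?_⟩
  have h0 := hc 0 (by decide)
  have h1 := hc 1 (by decide)
  have h2 := hc 2 (by decide)
  rw [← h0, ← h1, ← h2]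
  conv_lhs => rw [← N.e_sum y]
  rw [Fintype.sum_prod_type]
  have h4 : ∀ v : Fin 4, ∑ k : Fin 6, N.e (v, k) y = if v ≠ 3 then N.e (v, 2) y else 0 := by
    intro v
    by_cases hv : v = 3
    · rw [if_neg (not_not.mpr hv)]
      apply Finset.sum_eq_zero
      intro k _
      exact d.Bs _ (fun h => h.1 hv) y hy
    · rw [if_pos hv]
      apply Finset.sum_eq_single
      · intro k _ hk
        exact d.Bs _ (fun h => hk h.2) y hy
      · intro h
        exact absurd (Finset.mem_univ _) h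
  rw [Finset.sum_congr rfl fun v _ => h4 v, Fin.sum_univ_four]
  simp

/-- The relations between the `a (x v)` with one coefficient zero are trivial. -/
theorem Dt.rel (d : Dt N B x) (v : Fin 4) (hv : v ≠ 3) (y : N.T) (hy : y ∈ B)
    (h1 : N.e (v, 2) y = 0) (h2 : N.a y = 0) : y = 0 := by
  obtain ⟨c, hc, hs⟩ := d.comb y hy
  have h3 : c v = 0 := by
    have h4 := hc v hv
    rw [h1] at h4
    exact (smul_eq_zero.mp h4.symm).resolve_right (d.xn v hv)
  have h5 : c 0 • N.a (x 0) + c 1 • N.a (x 1) + c 2 • N.a (x 2) = 0 := by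
    rw [← map_smul, ← map_smul, ← map_smul, ← map_add, ← map_add, ← hs, h2]
  have h6 : c 0 = 0 ∧ c 1 = 0 ∧ c 2 = 0 := by
    have hcases : v = 0 ∨ v = 1 ∨ v = 2 := leaf_cases v hv
    rcases hcases with rfl | rfl | rfl
    · rw [h3, zero_smul, zero_add] at h5
      exact ⟨h3, d.indep 1 2 (by decide) (by decide) (by decide) _ _ h5⟩
    · rw [h3, zero_smul, add_zero] at h5
      have h7 := d.indep 0 2 (by decide) (by decide) (by decide) _ _ h5
      exact ⟨h7.1, h3, h7.2⟩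
    · rw [h3, zero_smul, add_zero] at h5
      have h7 := d.indep 0 1 (by decide) (by decide) (by decide) _ _ h5
      exact ⟨h7.1, h7.2, h3⟩
  rw [hs, h6.1, h6.2.1, h6.2.2]
  simp

theorem Dt.map31 (d : Dt N B x) : B.map N.a ≤ LinearMap.range (N.e (3, 1)) := by
  rintro _ ⟨y, hy, rfl⟩
  obtain ⟨c, -, hs⟩ := d.comb y hy
  refine ⟨N.a y, ?_⟩
  rw [hs]
  simp only [map_add, map_smul]
  rw [d.h31 0 (by decide), d.h31 1 (by decide), d.h31 2 (by decide)]

theorem Dt.two_le (d : Dt N B x) : 2 ≤ finrank K (B.map N.a) := by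
  haveI : Module.Finite K N.T := Module.Finite.of_finite
  have h1 : LinearIndependent K ![(⟨N.a (x 0), ⟨x 0, d.xB 0 (by decide), rfl⟩⟩ : B.map N.a),
      ⟨N.a (x 1), ⟨x 1, d.xB 1 (by decide), rfl⟩⟩] := by
    rw [LinearIndependent.pair_iff]
    intro s t hst
    have h2 := congrArg Subtype.val hst
    exact d.indep 0 1 (by decide) (by decide) (by decide) s t h2
  have h2 := h1.fintype_card_le_finrank
  simpa using h2

theorem Dt.le_three (d : Dt N B x) : finrank K (B.map N.a) ≤ 3 := by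
  haveI : Module.Finite K N.T := Module.Finite.of_finite
  rw [← d.gf.dim1]
  exact Submodule.finrank_mono d.map31

theorem Dt.dims (d : Dt N B x) :
    finrank K (LinearMap.range (N.e (3, 3)) ⊓ B.comap N.a : Submodule K N.T)
      + finrank K (B.map N.a) = 3 := by
  haveI : Module.Finite K N.T := Module.Finite.of_finite
  have h1 : (LinearMap.range (N.e (3, 3)) ⊓ B.comap N.a : Submodule K N.T).map N.a
      = B ⊓ LinearMap.ker N.a := by
    apply le_antisymm
    · rintro _ ⟨y, ⟨hy1, hy2⟩, rfl⟩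
      refine ⟨hy2, ?_⟩
      obtain ⟨z, rfl⟩ := hy1
      exact (d.gf.a3 _ (N.e_e _ _)).2
    · rintro y ⟨hy1, hy2⟩
      obtain ⟨z, hz1, hz2⟩ := d.gf.s3 y (fun p hp => d.Bs p hp y hy1) hy2
      refine ⟨z, ⟨⟨z, hz1⟩, ?_⟩, hz2⟩
      change N.a z ∈ B
      rw [hz2]
      exact hy1
  have h2 := rn (LinearMap.range (N.e (3, 3)) ⊓ B.comap N.a : Submodule K N.T) N.a
  have h4 : (LinearMap.range (N.e (3, 3)) ⊓ B.comap N.a : Submodule K N.T)
      ⊓ LinearMap.ker N.a = ⊥ := by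
    rw [eq_bot_iff]
    rintro y ⟨⟨hy1, -⟩, hy2⟩
    obtain ⟨z, rfl⟩ := hy1
    exact d.gf.inj (3, 3) (by simp) _ (N.e_e _ _) hy2
  rw [h4, finrank_bot, h1, add_zero] at h2
  have h3 := rn B N.a
  rw [d.B3, h2] at h3
  omega

theorem Dt.full (d : Dt N B x) (v : Fin 4) (hv : v ≠ 3) :
    ((B.map N.a).map N.a).map (N.e (v, 0)) = LinearMap.range (N.e (v, 0)) := by
  haveI : Module.Finite K N.T := Module.Finite.of_finite
  apply Submodule.eq_of_le_of_finrank_le
  · rintro _ ⟨y, -, rfl⟩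
    exact ⟨y, rfl⟩
  · rw [d.gf.dim0 v hv]
    have h1 : ∃ w, w ≠ 3 ∧ N.e (v, 0) (N.a (N.a (x w))) ≠ 0 := by
      by_contra hcon
      push Not at hcon
      have h2 : ∀ u, u ≠ 3 → N.e (u, 0) (N.a (N.a (x 0))) = 0 := by
        intro u hu
        -- move everything to `v` with the help of `F`
        have hF : ∀ w z, w ≠ 3 → z ≠ 3 →
            N.F (N.e (w, 0) (N.a (N.a (x z)))) = N.e (sgG w, 0) (N.a (N.a (x (sgG z)))) := by
          intro w z hw hz
          rw [N.F_e, N.F_a, N.F_a, d.xF z hz]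
          rfl
        have key : ∀ w z, w ≠ 3 → z ≠ 3 →
            N.e (sgG w, 0) (N.a (N.a (x (sgG z)))) = 0 → N.e (w, 0) (N.a (N.a (x z))) = 0 := by
          intro w z hw hz h
          exact F_inj N d.r3 _ ((hF w z hw hz).trans h)
        rcases sg_all u v hu hv with rfl | rfl | rfl
        · exact hcon 0 (by decide)
        · exact key _ _ hu (by decide) (hcon _ (by decide))
        · exact key _ _ hu (by decide) (key _ _ (sg_ne _ hu) (by decide) (hcon _ (by decide)))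
      apply d.ane 0 (by decide)
      apply zero_of N
      intro p
      by_cases hp : p ∈ EG 0
      · obtain ⟨u, k⟩ := p
        obtain ⟨hu, hk⟩ := hp
        simp only at hu hk
        subst hk
        exact h2 u hu
      · exact d.gf.a1 _ (d.h31 0 (by decide)) p hp
    obtain ⟨w, hw, hne⟩ := h1
    have hmem : N.e (v, 0) (N.a (N.a (x w)))
        ∈ ((B.map N.a).map N.a).map (N.e (v, 0)) :=
      ⟨_, ⟨_, ⟨_, d.xB w hw, rfl⟩, rfl⟩, rfl⟩
    rw [Nat.one_le_iff_ne_zero]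
    intro h0
    rw [Submodule.finrank_eq_zero] at h0
    rw [h0] at hmem
    exact hne ((Submodule.mem_bot K).mp hmem)

theorem Dt.last (d : Dt N B x) (v : Fin 4) (hv : v ≠ 3) (z : N.T) (hz : N.e (v, 4) z = z)
    (h : N.a (N.a z) ∈ B) : z = 0 := by
  have h4 := d.gf.a4 v hv z hz
  have h3 := d.gf.a3 _ h4.1
  have h5 : N.a (N.a z) = 0 := d.rel v hv _ h h4.2 h3.2
  have h6 : N.a z = 0 := d.gf.inj (3, 3) (by simp) _ h4.1 h5
  exact d.gf.inj (v, 4) (by simp) _ hz h6

theorem data (hG2A : S_G2A) (h3 : D.r = 3) (N : FM MG sG K D) (gf : GFacts N)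
    (l : Submodule K N.T) (hl : l ≤ LinearMap.range (N.e (0, 2))) (h1 : finrank K l = 1) :
    ∃ x, Dt N (N.FB l) x := by
  haveI : Module.Finite K N.T := Module.Finite.of_finite
  obtain ⟨gF, ge, gs, -, gd, g3, -⟩ := hG2A K D h3 N l hl h1
  have hne : ∃ x ∈ l, x ≠ 0 := by
    apply Submodule.exists_mem_ne_zero_of_ne_bot
    rintro rfl
    rw [finrank_bot] at h1
    omega
  obtain ⟨x, hx, hx0⟩ := hne
  have hxB : x ∈ N.FB l := Submodule.subset_span ⟨x, hx, 0, rfl⟩
  have hxe : N.e (0, 2) x = x := by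
    obtain ⟨y, rfl⟩ := hl hx
    exact N.e_e _ _
  have hF3 : N.F (N.F (N.F x)) = x := by
    have h2 := N.F_r x
    rw [h3] at h2
    exact h2
  have e1 : N.e (1, 2) (N.F x) = N.F x := by
    have h2 := N.F_e (0, 2) x
    rw [hxe] at h2
    exact h2.symm
  have e2 : N.e (2, 2) (N.F (N.F x)) = N.F (N.F x) := by
    have h2 := N.F_e (1, 2) (N.F x)
    rw [e1] at h2
    exact h2.symm
  refine ⟨![x, N.F x, N.F (N.F x), 0], ?_⟩
  have hxe' : ∀ v : Fin 4, v ≠ 3 → N.e (v, 2) (![x, N.F x, N.F (N.F x), 0] v)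
      = ![x, N.F x, N.F (N.F x), 0] v := by
    intro v hv
    rcases leaf_cases v hv with rfl | rfl | rfl
    · exact hxe
    · exact e1
    · exact e2
  have hxB' : ∀ v : Fin 4, v ≠ 3 → ![x, N.F x, N.F (N.F x), 0] v ∈ N.FB l := by
    intro v hv
    rcases leaf_cases v hv with rfl | rfl | rfl
    · exact hxB
    · exact gF _ hxB
    · exact gF _ (gF _ hxB)
  have hn' : ∀ v : Fin 4, v ≠ 3 → ![x, N.F x, N.F (N.F x), 0] v ≠ 0 := by
    intro v hv
    rcases leaf_cases v hv with rfl | rfl | rfl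
    · exact hx0
    · exact fun h => hx0 (F_inj N h3 _ h)
    · exact fun h => hx0 (F_inj N h3 _ (F_inj N h3 _ h))
  refine ⟨gf, h3, hxe', hn', ?_, hxB', gF, gs, ?_, g3⟩
  · intro v hv
    rcases leaf_cases v hv with rfl | rfl | rfl
    · rfl
    · rfl
    · exact hF3
  · intro v hv y hy
    have h5 := gd (v, 2) ⟨hv, rfl⟩
    have h6 : ![x, N.F x, N.F (N.F x), 0] v ∈
        (N.FB l ⊓ LinearMap.range (N.e (v, 2)) : Submodule K N.T) :=
      ⟨hxB' v hv, ⟨_, hxe' v hv⟩⟩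
    have h7 : N.e (v, 2) y ∈ (N.FB l ⊓ LinearMap.range (N.e (v, 2)) : Submodule K N.T) :=
      ⟨ge _ _ hy, ⟨_, rfl⟩⟩
    obtain ⟨c, hc⟩ := (finrank_eq_one_iff_of_nonzero'
      (⟨_, h6⟩ : (N.FB l ⊓ LinearMap.range (N.e (v, 2)) : Submodule K N.T))
      (fun h => hn' v hv (congrArg Subtype.val h))).mp h5 ⟨_, h7⟩
    exact ⟨c, (congrArg Subtype.val hc).symm⟩

end G2B

theorem G2B_holds (hG1 : S_G1) (hG2A : S_G2A) : S_G2B := by
  intro K _ D h3 N hN l hl h1
  obtain ⟨x, d⟩ := G2B.data hG2A h3 N (hG1 K D N hN) l hl h1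
  refine ⟨d.map31, ?_, ⟨d.two_le, d.le_three⟩, d.dims, ?_, d.full, d.last⟩
  · rintro _ ⟨y, hy, rfl⟩
    rw [N.F_a]
    exact ⟨_, d.BF y hy, rfl⟩
  · rintro y ⟨⟨z, hz⟩, hy2⟩
    refine ⟨⟨N.F z, ?_⟩, ?_⟩
    · rw [← hz, N.F_e]
      rfl
    · change N.a (N.F y) ∈ N.FB l
      rw [← N.F_a]
      exact d.BF _ hy2

end Pool.Agent.Lib.MP_4c1f79_al
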