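import Pool.Agent.Lib.MP_4c1f79_al.StmG2

/-!
# MP_4c1f79_al, piece G5: the number of the lines `ℓ` for which `a (FB ℓ)` is a plane
-/

set_option autoImplicit false

namespace Pool.Agent.Lib.MP_4c1f79_al

open Finset Module

section

variable {K : Type} [Field K] {D : Fd K} {N : FM MG sG K D}

private theorem G5_mem {p : Fin 4 × Fin 6} {x : N.T} (hx : x ∈ LinearMap.range (N.e p)) :
    N.e p x = x := by
  obtain ⟨y, rfl⟩ := hx
  exact N.e_e p y

private theorem G5_Finj (hr : D.r = 3) {x : N.T} (hx : N.F x = 0) : x = 0 := by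
  have h1 := N.F_r x
  rw [hr] at h1
  simp only [Function.iterate_succ_apply, Function.iterate_zero, id] at h1
  rw [hx, map_zero, map_zero] at h1
  exact h1.symm

private theorem G5_sub_FB (ℓ : Submodule K N.T) : ℓ ≤ N.FB ℓ :=
  fun x hx => Submodule.subset_span ⟨x, hx, 0, rfl⟩

/-- `a` is injective on the component at `(0, 2)` -/
private theorem G5_inj (g : GFacts N) {x : N.T} (hx : x ∈ LinearMap.range (N.e (0, 2)))
    (h : N.a x = 0) : x = 0 :=
  g.inj (0, 2) (by decide) x (G5_mem hx) h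

private theorem G5_V_le (g : GFacts N) :
    (LinearMap.range (N.e (0, 2))).map N.a ≤ LinearMap.range (N.e (3, 1)) := by
  rintro _ ⟨x, hx, rfl⟩
  exact ⟨N.a x, (g.a2 0 (by decide) x (G5_mem hx)).1⟩

private theorem G5_V_dim (g : GFacts N) :
    finrank K ((LinearMap.range (N.e (0, 2))).map N.a) = 2 := by
  refine Eq.trans ?_ (g.dim2 0 (by decide))
  have h1 : Function.Injective (N.a.domRestrict (LinearMap.range (N.e (0, 2)))) := by
    rw [injective_iff_map_eq_zero]
    intro x hx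
    exact Subtype.ext (G5_inj g x.2 hx)
  rw [← LinearMap.finrank_range_of_inj h1, LinearMap.range_domRestrict]

/-- a vector of `R (3, 1)` which is killed by all `e (v, 0) a` is zero -/
private theorem G5_kill (g : GFacts N) {h : N.T} (hh : N.e (3, 1) h = h)
    (h0 : N.e (0, 0) (N.a h) = 0) (h1 : N.e (1, 0) (N.a h) = 0)
    (h2 : N.e (2, 0) (N.a h) = 0) : h = 0 := by
  apply g.inj (3, 1) (by decide) h hh
  rw [← N.e_sum (N.a h)]
  refine Finset.sum_eq_zero fun p _ => ?_
  by_cases hp : p ∈ EG 0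
  · obtain ⟨v, k⟩ := p
    obtain ⟨hv, hk⟩ := hp
    simp only at hv hk
    subst hk
    fin_cases v
    · exact h0
    · exact h1
    · exact h2
    · exact absurd rfl hv
  · exact g.a1 h hh p hp

/-- the key point: a stable plane of `R (3, 1)` is not `a (R (0, 2))` -/
private theorem G5_key (hr : D.r = 3) (g : GFacts N) {H' : Submodule K N.T}
    (hle : H' ≤ LinearMap.range (N.e (3, 1))) (hF : ∀ x ∈ H', N.F x ∈ H')
    (hd : finrank K H' = 2) :
    finrank K (LinearMap.range (N.e (0, 2)) ⊓ H'.comap N.a : Submodule K N.T) ≤ 1 := by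
  by_contra hcon
  have h1 : (LinearMap.range (N.e (0, 2)) ⊓ H'.comap N.a : Submodule K N.T)
      = LinearMap.range (N.e (0, 2)) := by
    apply Submodule.eq_of_le_of_finrank_le inf_le_left
    rw [g.dim2 0 (by decide)]
    omega
  have h2 : (LinearMap.range (N.e (0, 2))).map N.a ≤ H' := by
    rintro _ ⟨x, hx, rfl⟩
    have h3 : x ∈ (LinearMap.range (N.e (0, 2)) ⊓ H'.comap N.a : Submodule K N.T) := by
      rw [h1]
      exact hx
    exact h3.2
  have h3 : (LinearMap.range (N.e (0, 2))).map N.a = H' := by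
    apply Submodule.eq_of_le_of_finrank_le h2
    rw [hd, G5_V_dim g]
  have h4 : ∀ h ∈ H', N.e (0, 0) (N.a h) = 0 := by
    intro h hh
    rw [← h3] at hh
    obtain ⟨x, hx, rfl⟩ := hh
    exact (g.a2 0 (by decide) x (G5_mem hx)).2
  have h5 : H' = ⊥ := by
    rw [eq_bot_iff]
    intro h hh
    refine (Submodule.mem_bot K).2 (G5_kill g (G5_mem (hle hh)) (h4 h hh) ?_ ?_)
    · have h6 := h4 _ (hF _ (hF h hh))
      rw [← N.F_a, ← N.F_a] at h6
      have e1 : N.e (0, 0) (N.F (N.F (N.a h))) = N.F (N.F (N.e (1, 0) (N.a h))) := by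
        rw [N.F_e, N.F_e]
        rfl
      rw [e1] at h6
      exact G5_Finj hr (G5_Finj hr h6)
    · have h6 := h4 _ (hF h hh)
      rw [← N.F_a] at h6
      have e1 : N.e (0, 0) (N.F (N.a h)) = N.F (N.e (2, 0) (N.a h)) := by
        rw [N.F_e]
        rfl
      rw [e1] at h6
      exact G5_Finj hr h6
  rw [h5, finrank_bot] at hd
  exact absurd hd (by norm_num)

/-- the lower bound for the dimension -/
private theorem G5_pos (g : GFacts N) {H' : Submodule K N.T}
    (hle : H' ≤ LinearMap.range (N.e (3, 1))) (hd : finrank K H' = 2) :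
    1 ≤ finrank K (LinearMap.range (N.e (0, 2)) ⊓ H'.comap N.a : Submodule K N.T) := by
  have h1 := Submodule.finrank_sup_add_finrank_inf_eq
    ((LinearMap.range (N.e (0, 2))).map N.a) H'
  have h2 : finrank K ((LinearMap.range (N.e (0, 2))).map N.a ⊔ H' : Submodule K N.T) ≤ 3 := by
    exact (Submodule.finrank_mono (sup_le (G5_V_le g) hle)).trans g.dim1.le
  rw [G5_V_dim g, hd] at h1
  have h3 : ((LinearMap.range (N.e (0, 2))).map N.a ⊓ H' : Submodule K N.T) ≠ ⊥ := by
    intro h0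
    rw [h0, finrank_bot] at h1
    omega
  obtain ⟨h, hh, hh0⟩ := Submodule.exists_mem_ne_zero_of_ne_bot h3
  obtain ⟨⟨x, hx, rfl⟩, hh2⟩ := hh
  rw [Nat.one_le_iff_ne_zero]
  intro h4
  have h5 := Submodule.finrank_eq_zero.1 h4
  have h6 : x ∈ (LinearMap.range (N.e (0, 2)) ⊓ H'.comap N.a : Submodule K N.T) := ⟨hx, hh2⟩
  rw [h5] at h6
  apply hh0
  rw [(Submodule.mem_bot K).1 h6, map_zero]

/-- `F` on the component at `(3, 1)` -/
private def G5_G (N : FM MG sG K D) :
    LinearMap.range (N.e (3, 1)) →ₛₗ[(D.φ : K →+* K)] LinearMap.range (N.e (3, 1)) where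
  toFun x := ⟨N.F x.1, by
    obtain ⟨y, hy⟩ := x.2
    refine ⟨N.F y, ?_⟩
    rw [← hy, N.F_e]
    rfl⟩
  map_add' x y := Subtype.ext (map_add N.F x.1 y.1)
  map_smul' c x := Subtype.ext (N.F.map_smulₛₗ c x.1)

private theorem G5_G_coe (x : LinearMap.range (N.e (3, 1))) :
    ((G5_G N x : LinearMap.range (N.e (3, 1))) : N.T) = N.F x.1 := rfl

private theorem G5_G_r (x : LinearMap.range (N.e (3, 1))) : (⇑(G5_G N))^[D.r] x = x := by
  have key : ∀ n : ℕ, ∀ y : LinearMap.range (N.e (3, 1)),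
      (((⇑(G5_G N))^[n] y : LinearMap.range (N.e (3, 1))) : N.T) = (⇑N.F)^[n] y.1 := by
    intro n
    induction n with
    | zero => intro y; rfl
    | succ n ih =>
      intro y
      rw [Function.iterate_succ_apply, Function.iterate_succ_apply, ih, G5_G_coe]
  exact Subtype.ext ((key D.r x).trans (N.F_r x.1))

end

theorem G5_holds (hG1 : S_G1) (hG2A : S_G2A) (hG2B : S_G2B) (hHYP : S_HYP) : S_G5 := by
  intro K _ D hr N hN
  have g := hG1 K D N hN
  have h1 := hHYP K D (LinearMap.range (N.e (3, 1))) (G5_G N) G5_G_r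
  have hcard : Nat.card {ℓ : Submodule K N.T // (ℓ ≤ LinearMap.range (N.e (0, 2)) ∧
      finrank K ℓ = 1) ∧ finrank K ((N.FB ℓ).map N.a) = 2} =
      Nat.card {L : Submodule K (LinearMap.range (N.e (3, 1))) //
        finrank K L + 1 = finrank K (LinearMap.range (N.e (3, 1))) ∧
          ∀ x ∈ L, G5_G N x ∈ L} := by
    have hmc : ∀ A : Submodule K N.T, A ≤ LinearMap.range (N.e (3, 1)) →
        (A.comap (LinearMap.range (N.e (3, 1))).subtype).map
          (LinearMap.range (N.e (3, 1))).subtype = A := by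
      intro A hA
      rw [Submodule.map_comap_subtype]
      exact inf_eq_right.2 hA
    have hfr : ∀ L : Submodule K (LinearMap.range (N.e (3, 1))),
        finrank K (L.map (LinearMap.range (N.e (3, 1))).subtype) = finrank K L := fun L =>
      Submodule.finrank_map_subtype_eq _ _
    refine Nat.card_eq_of_bijective (fun ℓ =>
      ⟨((N.FB ℓ.1).map N.a).comap (LinearMap.range (N.e (3, 1))).subtype, ?_, ?_⟩) ⟨?_, ?_⟩
    · obtain ⟨b1, -⟩ := hG2B K D hr N hN ℓ.1 ℓ.2.1.1 ℓ.2.1.2
      rw [← hfr, hmc _ b1, ℓ.2.2, g.dim1]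
    · intro x hx
      obtain ⟨-, b2, -⟩ := hG2B K D hr N hN ℓ.1 ℓ.2.1.1 ℓ.2.1.2
      exact b2 x.1 hx
    · -- injective
      rintro ⟨ℓ₁, ⟨l1, d1⟩, p1⟩ ⟨ℓ₂, ⟨l2, d2⟩, p2⟩ he
      have he' := congrArg Subtype.val he
      simp only at he'
      obtain ⟨b1, b2, -⟩ := hG2B K D hr N hN ℓ₁ l1 d1
      obtain ⟨c1, c2, -⟩ := hG2B K D hr N hN ℓ₂ l2 d2
      have hA : (N.FB ℓ₁).map N.a = (N.FB ℓ₂).map N.a := by
        rw [← hmc _ b1, ← hmc _ c1, he']
      have hk := G5_key hr g b1 b2 p1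
      have e1 : ℓ₁ = (LinearMap.range (N.e (0, 2)) ⊓ ((N.FB ℓ₁).map N.a).comap N.a :
          Submodule K N.T) := by
        apply Submodule.eq_of_le_of_finrank_le
        · exact fun x hx => ⟨l1 hx, ⟨x, G5_sub_FB ℓ₁ hx, rfl⟩⟩
        · rw [d1]
          exact hk
      have e2 : ℓ₂ = (LinearMap.range (N.e (0, 2)) ⊓ ((N.FB ℓ₁).map N.a).comap N.a :
          Submodule K N.T) := by
        apply Submodule.eq_of_le_of_finrank_le
        · rw [hA]
          exact fun x hx => ⟨l2 hx, ⟨x, G5_sub_FB ℓ₂ hx, rfl⟩⟩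
        · rw [d2]
          exact hk
      exact Subtype.ext (e1.trans e2.symm)
    · -- surjective
      rintro ⟨L, hL1, hL2⟩
      have hd : finrank K (L.map (LinearMap.range (N.e (3, 1))).subtype) = 2 := by
        rw [g.dim1] at hL1
        rw [hfr]
        omega
      have hle : L.map (LinearMap.range (N.e (3, 1))).subtype ≤ LinearMap.range (N.e (3, 1)) :=
        Submodule.map_subtype_le _ _
      have hF : ∀ x ∈ L.map (LinearMap.range (N.e (3, 1))).subtype,
          N.F x ∈ L.map (LinearMap.range (N.e (3, 1))).subtype := by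
        rintro _ ⟨x, hx, rfl⟩
        exact ⟨G5_G N x, hL2 x hx, rfl⟩
      generalize hH : L.map (LinearMap.range (N.e (3, 1))).subtype = H' at hd hle hF
      have k1 := G5_key hr g hle hF hd
      have k2 := G5_pos g hle hd
      have k3 : finrank K (LinearMap.range (N.e (0, 2)) ⊓ H'.comap N.a : Submodule K N.T) = 1 :=
        le_antisymm k1 k2
      have k4 : (LinearMap.range (N.e (0, 2)) ⊓ H'.comap N.a : Submodule K N.T) ≤
          LinearMap.range (N.e (0, 2)) := inf_le_left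
      obtain ⟨-, -, -, -, -, -, a7⟩ := hG2A K D hr N _ k4 k3
      obtain ⟨-, -, ⟨b3, -⟩, -⟩ := hG2B K D hr N hN _ k4 k3
      have k5 : (N.FB (LinearMap.range (N.e (0, 2)) ⊓ H'.comap N.a : Submodule K N.T)).map N.a
          ≤ H' := by
        rw [Submodule.map_le_iff_le_comap]
        refine a7 (H'.comap N.a) inf_le_right fun x hx => ?_
        show N.a (N.F x) ∈ H'
        rw [← N.F_a]
        exact hF _ hx
      have k6 : (N.FB (LinearMap.range (N.e (0, 2)) ⊓ H'.comap N.a : Submodule K N.T)).map N.a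
          = H' := by
        apply Submodule.eq_of_le_of_finrank_le k5
        rw [hd]
        exact b3
      refine ⟨⟨_, ⟨k4, k3⟩, by rw [k6, hd]⟩, Subtype.ext ?_⟩
      simp only
      rw [k6, ← hH, Submodule.comap_map_eq_of_injective (Submodule.injective_subtype _)]
  rw [hcard]
  rw [g.dim1] at h1 ⊢
  have hq := D.q_gt
  obtain ⟨m, hm⟩ : ∃ m, D.q = m + 2 := ⟨D.q - 2, by omega⟩
  rw [hm] at h1 ⊢
  have h2 : (m + 2) ^ 3 - 1 = ((m + 2) ^ 2 + (m + 2) + 1) * (m + 2 - 1) := by
    have : (m + 2) ^ 3 = ((m + 2) ^ 2 + (m + 2) + 1) * (m + 1) + 1 := by ring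
    rw [this]
    rfl
  rw [h2] at h1
  exact Nat.eq_of_mul_eq_mul_right (by omega) h1

end Pool.Agent.Lib.MP_4c1f79_al
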