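import Pool.Agent.Lib.MP_4c1f79_al.StmG2

/-!
# MP_4c1f79_al : piece G6A (uniqueness of the stable families which are `1` on `EG 2`)
-/

set_option autoImplicit false

namespace Pool.Agent.Lib.MP_4c1f79_al

open Finset Module

theorem G6A_holds (hG1 : S_G1) (hG2A : S_G2A) (hG2B : S_G2B) : S_G6A := by
  intro K _ D hr N hN d hd C hC hdim
  obtain ⟨c1, c2, c3⟩ := hC
  have G := hG1 K D N hN
  have hR : ∀ p x, x ∈ C p → N.e p x = x := by
    intro p x hx
    obtain ⟨y, rfl⟩ := c1 p hx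
    exact N.e_e p y
  have h02 : ((0 : Fin 4), (2 : Fin 6)) ∈ EG 2 := ⟨by decide, rfl⟩
  have hl1 : finrank K (C (0, 2)) = 1 := by rw [hdim, hd _ h02]
  obtain ⟨f1, f2, f3, f4, f5, f6, f7⟩ := hG2A K D hr N (C (0, 2)) (c1 _) hl1
  obtain ⟨g1, g2, g3, g4, g5, g6, g7⟩ := hG2B K D hr N hN (C (0, 2)) (c1 _) hl1
  -- the sub of the family
  let W : Submodule K N.T := ⨅ p, (C p).comap (N.e p)
  have hW : ∀ x, x ∈ W ↔ ∀ p, N.e p x ∈ C p := by
    intro x
    simp only [W, Submodule.mem_iInf, Submodule.mem_comap]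
  have hCW : ∀ p, C p ≤ W := by
    intro p x hx
    rw [hW]
    intro q
    have h1 := hR p x hx
    by_cases hpq : q = p
    · rw [hpq, h1]
      exact hx
    · rw [← h1, N.e_ne q p x hpq]
      exact (C q).zero_mem
  have hWF : ∀ x ∈ W, N.F x ∈ W := by
    intro x hx
    rw [hW] at hx ⊢
    intro p
    have h1 := c3 (sG.symm p) _ (hx (sG.symm p))
    rw [N.F_e, Equiv.apply_symm_apply] at h1
    exact h1
  have hWa : ∀ x ∈ W, N.a x ∈ W := by
    intro x hx
    rw [hW] at hx ⊢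
    intro p
    have h1 : N.e p (N.a x) = ∑ q, N.e p (N.a (N.e q x)) := by
      conv_lhs => rw [← N.e_sum x]
      rw [map_sum, map_sum]
    rw [h1]
    apply Submodule.sum_mem
    intro q _
    by_cases hq : MG.Ar q p
    · exact c2 q p hq _ (hx q)
    · rw [N.a_ar q p x hq]
      exact (C p).zero_mem
  have hFB : N.FB (C (0, 2)) ≤ W := f7 W (hCW _) hWF
  -- the positions of `EG 2`
  have hE2 : ∀ p ∈ EG 2, C p = N.FB (C (0, 2)) ⊓ LinearMap.range (N.e p) := by
    intro p hp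
    symm
    apply Submodule.eq_of_le_of_finrank_eq
    · rintro x ⟨hx1, y, hy⟩
      have h1 : N.e p x = x := by
        rw [← hy]
        exact N.e_e p y
      have h2 := (hW x).1 (hFB hx1) p
      rw [h1] at h2
      exact h2
    · rw [f5 p hp, hdim, hd p hp]
  -- the positions of `EG 0`
  have hE0 : ∀ p ∈ EG 0, C p = LinearMap.range (N.e p) := by
    rintro ⟨v, k⟩ ⟨hv, hk⟩
    have hk' : k = 0 := hk
    subst hk'
    apply le_antisymm (c1 _)
    rw [← g6 v hv]
    rintro _ ⟨_, ⟨_, ⟨x, hx, rfl⟩, rfl⟩, rfl⟩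
    exact (hW _).1 (hWa _ (hWa _ (hFB hx))) _
  have hA : (N.FB (C (0, 2))).map N.a ≤ C (3, 1) := by
    rintro _ ⟨x, hx, rfl⟩
    obtain ⟨y, hy⟩ := g1 ⟨x, hx, rfl⟩
    have h1 : N.e (3, 1) (N.a x) = N.a x := by
      rw [← hy]
      exact N.e_e _ y
    have h2 := (hW _).1 (hWa _ (hFB hx)) (3, 1)
    rw [h1] at h2
    exact h2
  have h33 : C (3, 3) ≤ LinearMap.range (N.e (3, 3)) ⊓ (N.FB (C (0, 2))).comap N.a := by
    intro x hx
    refine ⟨c1 _ hx, ?_⟩
    show N.a x ∈ N.FB (C (0, 2))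
    rw [← N.e_sum (N.a x)]
    apply Submodule.sum_mem
    intro p _
    by_cases hp : p ∈ EG 2
    · have h2 := (hW _).1 (hWa _ (hCW _ hx)) p
      rw [hE2 p hp] at h2
      exact h2.1
    · rw [(G.a3 x (hR _ x hx)).1 p hp]
      exact Submodule.zero_mem _
  have h4 : ∀ v, v ≠ 3 → C (v, 4) = ⊥ := by
    intro v hv
    rw [eq_bot_iff]
    intro x hx
    have h1 := hR _ x hx
    have h2 := (hW _).1 (hWa _ (hCW _ hx)) (3, 3)
    rw [(G.a4 v hv x h1).1] at h2
    exact (Submodule.mem_bot K).2 (g7 v hv x h1 (h33 h2).2)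
  have hz : ∀ p, ZG p → C p = ⊥ := by
    intro p hp
    rw [eq_bot_iff]
    intro x hx
    rw [Submodule.mem_bot, ← hR p x hx]
    exact G.zero p hp x
  have hrest : ∀ p, p ∉ EG 0 → p ∉ EG 2 → p ≠ (3, 1) → p ≠ (3, 3) → C p = ⊥ := by
    rintro ⟨v, k⟩ h0 h2 h1 h3
    by_cases hv : v = 3
    · subst hv
      apply hz
      fin_cases k
      · exact Or.inr (Or.inl ⟨rfl, rfl⟩)
      · exact absurd rfl h1
      · exact Or.inr (Or.inl ⟨rfl, rfl⟩)
      · exact absurd rfl h3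
      · exact Or.inr (Or.inl ⟨rfl, rfl⟩)
      · exact Or.inr (Or.inr rfl)
    · fin_cases k
      · exact absurd ⟨hv, rfl⟩ h0
      · exact hz _ (Or.inl ⟨hv, by show 1 % 2 = 1; norm_num⟩)
      · exact absurd ⟨hv, rfl⟩ h2
      · exact hz _ (Or.inl ⟨hv, by show 3 % 2 = 1; norm_num⟩)
      · exact h4 v hv
      · exact hz _ (Or.inl ⟨hv, by show 5 % 2 = 1; norm_num⟩)
  have n1 : finrank K ((N.FB (C (0, 2))).map N.a) ≤ d (3, 1) := by
    rw [← hdim]
    exact Submodule.finrank_mono hA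
  have n2 : d (3, 1) ≤ 3 := by
    rw [← hdim]
    exact (Submodule.finrank_mono (c1 (3, 1))).trans (le_of_eq G.dim1)
  have n3 : d (3, 3) ≤ finrank K (LinearMap.range (N.e (3, 3)) ⊓
      (N.FB (C (0, 2))).comap N.a : Submodule K N.T) := by
    rw [← hdim]
    exact Submodule.finrank_mono h33
  constructor
  · funext p
    unfold CG
    split_ifs with q1 q2 q3 q4 q5 q6
    · rw [q1]
      apply Submodule.eq_of_le_of_finrank_eq (c1 _)
      rw [hdim, G.dim1, q2]
    · rw [q1]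
      symm
      apply Submodule.eq_of_le_of_finrank_eq hA
      rw [hdim]
      omega
    · rw [q3, ← Submodule.finrank_eq_zero (R := K), hdim, q4]
    · rw [q3]
      apply Submodule.eq_of_le_of_finrank_eq h33
      rw [hdim]
      omega
    · exact hE0 p q5
    · exact hE2 p q6
    · exact hrest p q5 q6 q1 q3
  · refine ⟨fun p hp => ?_, hd, fun p q1 q2 q3 q4 => ?_, ?_⟩
    · rw [← hdim, hE0 p hp]
      obtain ⟨v, k⟩ := p
      obtain ⟨hv, hk⟩ := hp
      have hk' : k = 0 := hk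
      subst hk'
      exact G.dim0 v hv
    · rw [← hdim, hrest p q1 q2 q3 q4]
      exact finrank_bot K N.T
    · omega

end Pool.Agent.Lib.MP_4c1f79_al
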