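import Pool.Agent.Lib.MP_4c1f79_al.StmG2

set_option autoImplicit false

namespace Pool.Agent.Lib.MP_4c1f79_al

open Finset Module

section

variable {K : Type} [Field K] {D : Fd K} {N : FM MG sG K D} {d : Fin 4 × Fin 6 → ℕ}
  {ℓ : Submodule K N.T}

private theorem G6B_31 : CG N d ℓ (3, 1) =
    if d (3, 1) = 3 then LinearMap.range (N.e (3, 1)) else (N.FB ℓ).map N.a := by
  unfold CG
  rw [if_pos rfl]

private theorem G6B_33 : CG N d ℓ (3, 3) =
    if d (3, 3) = 0 then ⊥ else LinearMap.range (N.e (3, 3)) ⊓ (N.FB ℓ).comap N.a := by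
  unfold CG
  rw [if_neg (by decide), if_pos rfl]

private theorem G6B_ne {k : Fin 6} {p : Fin 4 × Fin 6} (h : p ∈ EG k) (j : Fin 6) :
    p ≠ (3, j) := by
  rintro rfl
  exact h.1 rfl

private theorem G6B_0 {p : Fin 4 × Fin 6} (h : p ∈ EG 0) :
    CG N d ℓ p = LinearMap.range (N.e p) := by
  unfold CG
  rw [if_neg (G6B_ne h 1), if_neg (G6B_ne h 3), if_pos h]

private theorem G6B_20 {p : Fin 4 × Fin 6} (h : p ∈ EG 2) : p ∉ EG 0 := by
  intro h'
  have h1 := h.2
  have h2 := h'.2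
  rw [h1] at h2
  exact absurd h2 (by decide)

private theorem G6B_2 {p : Fin 4 × Fin 6} (h : p ∈ EG 2) :
    CG N d ℓ p = N.FB ℓ ⊓ LinearMap.range (N.e p) := by
  unfold CG
  rw [if_neg (G6B_ne h 1), if_neg (G6B_ne h 3), if_neg (G6B_20 h), if_pos h]

private theorem G6B_e {p : Fin 4 × Fin 6} (h1 : p ≠ (3, 1)) (h3 : p ≠ (3, 3)) (h0 : p ∉ EG 0)
    (h2 : p ∉ EG 2) : CG N d ℓ p = ⊥ := by
  unfold CG
  rw [if_neg h1, if_neg h3, if_neg h0, if_neg h2]

private theorem G6B_mem {p : Fin 4 × Fin 6} (x : N.T) : N.e p x ∈ LinearMap.range (N.e p) :=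
  ⟨x, rfl⟩

private theorem G6B_fix {p : Fin 4 × Fin 6} {x : N.T} (h : x ∈ LinearMap.range (N.e p)) :
    N.e p x = x := by
  obtain ⟨y, rfl⟩ := h
  exact N.e_e p y

private theorem G6B_F {p : Fin 4 × Fin 6} {x : N.T} (h : x ∈ LinearMap.range (N.e p)) :
    N.F x ∈ LinearMap.range (N.e (sG p)) := by
  obtain ⟨y, rfl⟩ := h
  exact ⟨N.F y, (N.F_e p y).symm⟩

private theorem G6B_sE : ∀ (k : Fin 6) (v : Fin 4), v ≠ 3 →
    (sG (v, k)).1 ≠ 3 ∧ (sG (v, k)).2 = k := by decide

private theorem G6B_sEG {k : Fin 6} {p : Fin 4 × Fin 6} (h : p ∈ EG k) : sG p ∈ EG k := by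
  obtain ⟨v, j⟩ := p
  obtain ⟨h1, h2⟩ := h
  change j = k at h2
  subst h2
  exact G6B_sE j v h1

private theorem G6B_s3 (k : Fin 6) : sG ((3 : Fin 4), k) = (3, k) := by
  revert k
  decide

end

theorem G6B_holds (hG1 : S_G1) (hG2A : S_G2A) (hG2B : S_G2B) : S_G6B := by
  intro K _ D hr N hGT d ℓ hl hl1 hC
  have G := hG1 K D N hGT
  obtain ⟨A1, A2, A3, A4, A5, A6, A7⟩ := hG2A K D hr N ℓ hl hl1
  obtain ⟨B1, B2, B3, B4, B5, B6, B7⟩ := hG2B K D hr N hGT ℓ hl hl1
  obtain ⟨C0, C2, Ce, CC⟩ := hC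
  have c31 : (N.FB ℓ).map N.a ≤ CG N d ℓ (3, 1) := by
    rw [G6B_31]
    split_ifs
    · exact B1
    · exact le_rfl
  refine ⟨⟨?_, ?_, ?_⟩, ?_, ?_⟩
  · intro p
    by_cases h1 : p = (3, 1)
    · subst h1
      rw [G6B_31]
      split_ifs
      · exact le_rfl
      · exact B1
    by_cases h3 : p = (3, 3)
    · subst h3
      rw [G6B_33]
      split_ifs
      · exact bot_le
      · exact inf_le_left
    by_cases h0 : p ∈ EG 0
    · rw [G6B_0 h0]
    by_cases h2 : p ∈ EG 2
    · rw [G6B_2 h2]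
      exact inf_le_right
    rw [G6B_e h1 h3 h0 h2]
    exact bot_le
  · intro p q hpq x hx
    obtain ⟨hadj, hlev⟩ := hpq
    by_cases h1 : p = (3, 1)
    · subst h1
      have hq : q ∈ EG 0 := by
        refine ⟨fun h => hadj (by simp [h]), ?_⟩
        apply Fin.ext
        have : (1 : ℕ) = q.2 + 1 := hlev
        show (q.2 : ℕ) = 0
        omega
      rw [G6B_0 hq]
      exact G6B_mem _
    by_cases h3 : p = (3, 3)
    · subst h3
      have hq : q ∈ EG 2 := by
        refine ⟨fun h => hadj (by simp [h]), ?_⟩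
        apply Fin.ext
        have : (3 : ℕ) = q.2 + 1 := hlev
        show (q.2 : ℕ) = 2
        omega
      rw [G6B_2 hq]
      refine ⟨?_, G6B_mem _⟩
      rw [G6B_33] at hx
      split_ifs at hx
      · rw [(Submodule.mem_bot K).1 hx, map_zero, map_zero]
        exact zero_mem _
      · exact A2 q _ hx.2
    by_cases h0 : p ∈ EG 0
    · exfalso
      have h4 := h0.2
      rw [h4] at hlev
      simp at hlev
    by_cases h2 : p ∈ EG 2
    · have hq : q = (3, 1) := by
        have h5 := h2.1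
        have h4 := h2.2
        rw [h4] at hlev
        apply Prod.ext
        · by_contra h
          exact hadj ⟨fun h' => absurd h' h5, fun h' => absurd h' h⟩
        · apply Fin.ext
          have : (2 : ℕ) = q.2 + 1 := hlev
          show (q.2 : ℕ) = 1
          omega
      subst hq
      rw [G6B_2 h2] at hx
      have hm : N.a x ∈ (N.FB ℓ).map N.a := ⟨x, hx.1, rfl⟩
      rw [G6B_fix (B1 hm)]
      exact c31 hm
    rw [G6B_e h1 h3 h0 h2] at hx
    rw [(Submodule.mem_bot K).1 hx, map_zero, map_zero]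
    exact zero_mem _
  · intro p x hx
    by_cases h1 : p = (3, 1)
    · subst h1
      rw [G6B_s3]
      rw [G6B_31] at hx ⊢
      split_ifs at hx ⊢
      · have := G6B_F hx
        rwa [G6B_s3] at this
      · exact B2 x hx
    by_cases h3 : p = (3, 3)
    · subst h3
      rw [G6B_s3]
      rw [G6B_33] at hx ⊢
      split_ifs at hx ⊢
      · rw [(Submodule.mem_bot K).1 hx, map_zero]
        exact zero_mem _
      · exact B5 x hx
    by_cases h0 : p ∈ EG 0
    · rw [G6B_0 h0] at hx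
      rw [G6B_0 (G6B_sEG h0)]
      exact G6B_F hx
    by_cases h2 : p ∈ EG 2
    · rw [G6B_2 h2] at hx
      rw [G6B_2 (G6B_sEG h2)]
      exact ⟨A1 x hx.1, G6B_F hx.2⟩
    rw [G6B_e h1 h3 h0 h2] at hx
    rw [(Submodule.mem_bot K).1 hx, map_zero]
    exact zero_mem _
  · intro p
    by_cases h1 : p = (3, 1)
    · subst h1
      by_cases hd : d (3, 1) = 3
      · have h5 : CG N d ℓ (3, 1) = LinearMap.range (N.e (3, 1)) := by
          rw [G6B_31, if_pos hd]
        rw [h5, G.dim1, hd]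
      · have h5 : CG N d ℓ (3, 1) = (N.FB ℓ).map N.a := by
          rw [G6B_31, if_neg hd]
        rw [h5]
        rcases CC with ⟨h, _⟩ | ⟨h, h' | h', _⟩
        · exact absurd h hd
        · rw [h, h']
        · exact absurd h' hd
    by_cases h3 : p = (3, 3)
    · subst h3
      by_cases hd : d (3, 3) = 0
      · have h5 : CG N d ℓ (3, 3) = ⊥ := by
          rw [G6B_33, if_pos hd]
        rw [h5, hd, finrank_bot]
      · have h5 : CG N d ℓ (3, 3) =
            LinearMap.range (N.e (3, 3)) ⊓ (N.FB ℓ).comap N.a := by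
          rw [G6B_33, if_neg hd]
        rw [h5]
        rcases CC with ⟨_, h⟩ | ⟨h, _, h' | h'⟩
        · exact absurd h hd
        · exact absurd h' hd
        · rw [h] at B4
          rw [h']
          omega
    by_cases h0 : p ∈ EG 0
    · rw [G6B_0 h0, C0 p h0]
      have h4 := h0.2
      obtain ⟨v, j⟩ := p
      change j = 0 at h4
      subst h4
      exact G.dim0 v h0.1
    by_cases h2 : p ∈ EG 2
    · rw [G6B_2 h2, C2 p h2]
      exact A5 p h2
    rw [G6B_e h1 h3 h0 h2, Ce p h0 h2 h1 h3, finrank_bot]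
  · rw [G6B_2 ⟨by decide, rfl⟩]
    exact A4

end Pool.Agent.Lib.MP_4c1f79_al
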