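import Pool.Agent.Lib.MP_4c1f79_al.StmG2

/-! MP_4c1f79_al, G2 block: the counts for vectors which are one on the leaves at level two. -/

set_option autoImplicit false

namespace Pool.Agent.Lib.MP_4c1f79_al

open Finset Module

theorem G7_holds (hFAM : S_FAM) (hLN2 : S_LN2) (hG1 : S_G1) (hG5 : S_G5) (hG6A : S_G6A)
    (hG6B : S_G6B) : S_G7 := by
  intro K _ D hD N hN d hd2
  have hKc : Nat.card K = D.q ^ 3 := by
    rw [← hD]
    exact D.card_K
  haveI : Finite K := by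
    refine Nat.finite_of_card_ne_zero ?_
    rw [hKc]
    have := D.q_gt
    positivity
  have h02 : ((0, 2) : Fin 4 × Fin 6) ∈ EG 2 := ⟨by decide, rfl⟩
  -- the bijection
  have hcard : N.cnt d = Nat.card {ℓ : Submodule K N.T //
      (ℓ ≤ LinearMap.range (N.e (0, 2)) ∧ finrank K ℓ = 1) ∧ CdG N d ℓ} := by
    rw [hFAM]
    refine Nat.card_congr
      { toFun := fun C => ⟨C.1 (0, 2), ⟨C.2.1.1 (0, 2), (C.2.2 (0, 2)).trans (hd2 _ h02)⟩,
          (hG6A K D hD N hN d hd2 C.1 C.2.1 C.2.2).2⟩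
        invFun := fun ℓ => ⟨CG N d ℓ.1, (hG6B K D hD N hN d ℓ.1 ℓ.2.1.1 ℓ.2.1.2 ℓ.2.2).1,
          (hG6B K D hD N hN d ℓ.1 ℓ.2.1.1 ℓ.2.1.2 ℓ.2.2).2.1⟩
        left_inv := fun C => Subtype.ext (hG6A K D hD N hN d hd2 C.1 C.2.1 C.2.2).1.symm
        right_inv := fun ℓ =>
          Subtype.ext (hG6B K D hD N hN d ℓ.1 ℓ.2.1.1 ℓ.2.1.2 ℓ.2.2).2.2 }
  rw [hcard]
  by_cases hb : (∀ p ∈ EG 0, d p = 1) ∧
      (∀ p, p ∉ EG 0 → p ∉ EG 2 → p ≠ (3, 1) → p ≠ (3, 3) → d p = 0)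
  · by_cases h30 : d (3, 1) = 3 ∧ d (3, 3) = 0
    · right; left
      have h1 : Nat.card {ℓ : Submodule K N.T //
          (ℓ ≤ LinearMap.range (N.e (0, 2)) ∧ finrank K ℓ = 1) ∧ CdG N d ℓ}
          = Nat.card {ℓ : Submodule K N.T //
            ℓ ≤ LinearMap.range (N.e (0, 2)) ∧ finrank K ℓ = 1} := by
        refine Nat.card_congr (Equiv.subtypeEquivRight fun ℓ => ?_)
        exact ⟨fun h => h.1, fun h => ⟨h, hb.1, hd2, hb.2, Or.inl h30⟩⟩
      rw [h1, hLN2 K N.T _ ((hG1 K D N hN).dim2 0 (by decide)), hKc]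
    · by_cases h21 : (d (3, 1) = 2 ∨ d (3, 1) = 3) ∧ (d (3, 3) = 0 ∨ d (3, 3) = 1)
      · right; right
        rw [← hG5 K D hD N hN]
        refine Nat.card_congr (Equiv.subtypeEquivRight fun ℓ => ?_)
        constructor
        · rintro ⟨h, _, _, _, h4⟩
          rcases h4 with h4 | h4
          · exact absurd h4 h30
          · exact ⟨h, h4.1⟩
        · rintro ⟨h, h4⟩
          exact ⟨h, hb.1, hd2, hb.2, Or.inr ⟨h4, h21⟩⟩
      · left
        have : IsEmpty {ℓ : Submodule K N.T //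
            (ℓ ≤ LinearMap.range (N.e (0, 2)) ∧ finrank K ℓ = 1) ∧ CdG N d ℓ} := by
          refine ⟨fun ℓ => ?_⟩
          rcases ℓ.2.2.2.2.2 with h4 | h4
          · exact h30 h4
          · exact h21 h4.2
        exact Nat.card_of_isEmpty
  · left
    have : IsEmpty {ℓ : Submodule K N.T //
        (ℓ ≤ LinearMap.range (N.e (0, 2)) ∧ finrank K ℓ = 1) ∧ CdG N d ℓ} :=
      ⟨fun ℓ => hb ⟨ℓ.2.2.1, ℓ.2.2.2.2.1⟩⟩
    exact Nat.card_of_isEmpty

end Pool.Agent.Lib.MP_4c1f79_al
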