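import Pool.Agent.Lib.MP_4c1f79_al.StmG2

/-! MP_4c1f79_al, G2 block: the centre row. -/

set_option autoImplicit false

namespace Pool.Agent.Lib.MP_4c1f79_al

open Finset Module

private theorem G8_stab : ∀ p, sG p ∈ LG ↔ p ∈ LG := by
  have h : ∀ p : Fin 4 × Fin 6, (sG p).1 ≠ 3 ↔ p.1 ≠ 3 := by decide
  exact h

private theorem G8_adm : Adm MG sG 3 LGᶜ :=
  ⟨sG_sym, sG_per, fun p => not_congr (G8_stab p)⟩

private theorem G8_ind_le {P : Type} (E : Set P) (p : P) : ind E p ≤ 1 := by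
  classical
  unfold ind
  rw [Set.indicator_apply]
  split_ifs <;> simp

theorem G8_holds (hTH1 : S_TH1) (hPE0 : S_PE0) : S_G8 := by
  refine hTH1 (Fin 4 × Fin 6) MG sG 3 LGᶜ LGᶜ G8_adm (fun p => not_congr (G8_stab p)) le_rfl
    (fun p hp hp' => absurd hp hp') ?_ ?_
  · intro E _ _ K _ D _ N hN p hp
    have hp3 : p.1 = 3 := by
      by_contra h
      exact hp h
    have hker : LinearMap.range (N.e p) ≤ LinearMap.ker N.a := by
      rintro _ ⟨x, rfl⟩
      rw [LinearMap.mem_ker, ← N.e_sum (N.a (N.e p x))]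
      refine Finset.sum_eq_zero fun q _ => ?_
      by_cases hq : q.1 = 3
      · exact N.a_ar p q x fun h => h.1 (iff_of_true hp3 hq)
      · exact hN.1.1 q (fun h => h hq) _
    have h1 : N.toRp.dm p = N.toRp.sc p := by
      unfold Rp.dm Rp.sc
      rw [inf_eq_left.mpr hker]
    rw [h1, hN.2 p]
    exact G8_ind_le E p
  · rw [Set.sdiff_self]
    exact hPE0 _ _ _ _

end Pool.Agent.Lib.MP_4c1f79_al
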