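import Pool.Agent.Lib.MP_4c1f79_al.G2F

/-! MP_4c1f79_al, G2 block: dimensions on the leaf rows for the types at the centre. -/

set_option autoImplicit false

namespace Pool.Agent.Lib.MP_4c1f79_al

open Finset Module

theorem G9_holds (hBND : S_BND) : S_G9 := by
  intro K _ D k N hN
  have hsc1 : N.toRp.sc (3, k) = 1 := by
    rw [hN.2]
    simp [ind]
  have hsc : ∀ p, p ≠ (3, k) → N.toRp.sc p = 0 := by
    intro p hp
    rw [hN.2]
    simp [ind, hp]
  have hlow : ∀ p : Fin 4 × Fin 6, (p.2 : ℕ) < k → ∀ x, N.e p x = 0 := by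
    intro p hp
    refine (G2F.dm_zero N.toRp).mp ((hBND _ MG).2 K N.toRp k ?_ p hp)
    intro p hp
    refine hsc p ?_
    rintro rfl
    exact absurd hp (lt_irrefl _)
  -- parity
  have hpar : ∀ i : ℕ, ∀ h : (k : ℕ) + i < 6,
      (i % 2 = 0 → ∀ v, v ≠ 3 → ∀ x, N.e (v, ⟨k + i, h⟩) x = 0) ∧
      (i % 2 = 1 → ∀ x, N.e (3, ⟨k + i, h⟩) x = 0) := by
    intro i
    induction i with
    | zero =>
      intro h
      refine ⟨fun _ v hv => ?_, fun h => absurd h (by decide)⟩
      by_cases hk : (k : ℕ) = 0
      · have h0 : (⟨k + 0, h⟩ : Fin 6) = 0 := Fin.ext (by simp [hk])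
        rw [h0]
        refine G2F.zz N.toRp (hsc _ ?_)
        intro h'
        exact hv (congrArg Prod.fst h')
      · have hj : (k : ℕ) - 1 < 6 := by omega
        refine G2F.zl N.toRp (j := ⟨k - 1, hj⟩) hv (by simp only; omega)
          (hlow _ (by simp only; omega)) (hsc _ ?_)
        intro h'
        exact hv (congrArg Prod.fst h')
    | succ i ih =>
      intro h
      have h' : (k : ℕ) + i < 6 := by omega
      obtain ⟨ih1, ih2⟩ := ih h'
      constructor
      · intro hi v hv
        refine G2F.zl N.toRp (j := ⟨k + i, h'⟩) hv (by simp only; omega)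
          (ih2 (by omega)) (hsc _ ?_)
        intro h''
        exact hv (congrArg Prod.fst h'')
      · intro hi
        refine G2F.zc N.toRp (j := ⟨k + i, h'⟩) (by simp only; omega)
          (ih1 (by omega)) (hsc _ ?_)
        intro h''
        have h3 := congrArg (fun p : Fin 4 × Fin 6 => (p.2 : ℕ)) h''
        simp only at h3
        omega
  have hdc : N.toRp.dm (3, k) = 1 := by
    rw [← hsc1]
    refine G2F.dm_eq_sc N.toRp fun x hx => ?_
    by_cases hk : (k : ℕ) = 0
    · have h0 : k = 0 := Fin.ext hk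
      rw [← hx, h0]
      exact G2F.kill N.toRp 3 x
    · have hj : (k : ℕ) - 1 < 6 := by omega
      refine G2F.ext0 N.toRp fun p => ?_
      by_cases hp : p ∈ EG ⟨k - 1, hj⟩
      · refine hlow p ?_ _
        rw [hp.2]
        simp only
        omega
      · exact G2F.a_cen N.toRp (by simp only; omega) hx hp
  have hz : ∀ (v : Fin 4) (j : Fin 6), (∀ x, N.e (v, j) x = 0) → N.toRp.dm (v, j) ≤ 1 := by
    intro v j h
    rw [(G2F.dm_zero N.toRp).mpr h]
    exact Nat.zero_le _
  -- the leaf rows
  have hleaf : ∀ n : ℕ, ∀ h : n < 6, ∀ v : Fin 4, v ≠ 3 → N.toRp.dm (v, ⟨n, h⟩) ≤ 1 := by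
    intro n
    induction n using Nat.strong_induction_on with
    | _ n ih =>
      intro h v hv
      by_cases h1 : n < k
      · exact hz _ _ (hlow _ h1)
      · obtain ⟨i, rfl⟩ : ∃ i, n = k + i := ⟨n - k, by omega⟩
        by_cases h2 : i % 2 = 0
        · exact hz _ _ ((hpar i h).1 h2 v hv)
        · by_cases h3 : i = 1
          · subst h3
            refine le_trans (G2F.dm_le N.toRp N.a (fun x hx => G2F.a_leaf N.toRp hv rfl hx)
              fun x hx h0 => (G2F.sc_zero N.toRp).mp (hsc _ ?_) x hx h0) hdc.le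
            intro h''
            exact hv (congrArg Prod.fst h'')
          · obtain ⟨j, l, hj, hl, hvj, hvl, hjl, hall⟩ := G2F.three hv
            have hm : (k : ℕ) + i - 1 < 6 := by omega
            have hn : (k : ℕ) + i - 2 < 6 := by omega
            refine (G2F.leaf_step N.toRp hv hj hl hvj hvl hjl hall (k := ⟨k + i, h⟩)
              (m := ⟨k + i - 1, hm⟩) (n := ⟨k + i - 2, hn⟩) (by simp only; omega)
              (by simp only; omega) (hsc _ ?_) (hsc _ ?_) (hsc _ ?_)).trans
              (ih (k + i - 2) (by omega) hn j hj)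
            · intro h''
              exact hv (congrArg Prod.fst h'')
            · intro h''
              have h3 := congrArg (fun p : Fin 4 × Fin 6 => (p.2 : ℕ)) h''
              simp only at h3
              omega
            · intro h''
              exact hl (congrArg Prod.fst h'')
  rintro ⟨v, n⟩ (hv : v ≠ 3)
  exact hleaf n n.2 v hv

end Pool.Agent.Lib.MP_4c1f79_al
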