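import Pool.Agent.Lib.MP_4c1f79_al.StmC

/-!
# MP_4c1f79_al : piece GC1 (first properties of gen and cog)
-/

set_option autoImplicit false

namespace Pool.Agent.Lib.MP_4c1f79_al

open Finset Module

section

variable {P : Type} [Fintype P] {M : Mesh P} {s : Equiv.Perm P} {K : Type} [Field K] {D : Fd K}

private theorem gc1_eF (N : FM M s K D) (p : P) (x : N.T) :
    N.e p (N.F x) = N.F (N.e (s.symm p) x) := by
  rw [N.F_e, Equiv.apply_symm_apply]

private theorem gc1_ee (N : FM M s K D) (p q : P) (x : N.T) :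
    N.e p (N.e q x) = N.e q x ∨ N.e p (N.e q x) = 0 := by
  by_cases h : p = q
  · subst h
    exact Or.inl (N.e_e p x)
  · exact Or.inr (N.e_ne p q x h)

private theorem gc1_gen_St (N : FM M s K D) (B : Submodule K N.T) : N.St (N.gen B) := by
  refine ⟨⟨fun p x hx => ?_, fun x hx => ?_⟩, fun x hx => ?_⟩
  · rw [FM.gen, Submodule.mem_sInf] at hx ⊢
    exact fun W hW => hW.1.1.1 p x (hx W hW)
  · rw [FM.gen, Submodule.mem_sInf] at hx ⊢
    exact fun W hW => hW.1.1.2 x (hx W hW)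
  · rw [FM.gen, Submodule.mem_sInf] at hx ⊢
    exact fun W hW => hW.1.2 x (hx W hW)

private theorem gc1_gen_le (N : FM M s K D) (B W : Submodule K N.T) (h : N.St W) (hB : B ≤ W) :
    N.gen B ≤ W := sInf_le ⟨h, hB⟩

private theorem gc1_le_gen (N : FM M s K D) (B : Submodule K N.T) : B ≤ N.gen B :=
  le_sInf fun _ hW => hW.2

private theorem gc1_cog_St (N : FM M s K D) (Rs : Set P) (B : Submodule K N.T) :
    N.St (N.cog Rs B) := by
  refine ⟨⟨fun p => ?_, ?_⟩, ?_⟩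
  · have : N.cog Rs B ≤ (N.cog Rs B).comap (N.e p) :=
      sSup_le fun W hW x hx => (le_sSup hW : W ≤ N.cog Rs B) (hW.1.1.1 p x hx)
    exact fun x hx => this hx
  · have : N.cog Rs B ≤ (N.cog Rs B).comap N.a :=
      sSup_le fun W hW x hx => (le_sSup hW : W ≤ N.cog Rs B) (hW.1.1.2 x hx)
    exact fun x hx => this hx
  · have : N.cog Rs B ≤ (N.cog Rs B).comap N.F :=
      sSup_le fun W hW x hx => (le_sSup hW : W ≤ N.cog Rs B) (hW.1.2 x hx)
    exact fun x hx => this hx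

private theorem gc1_cog_map (N : FM M s K D) (Rs : Set P) (B : Submodule K N.T) (p : P)
    (hp : p ∈ Rs) : (N.cog Rs B).map (N.e p) ≤ B.map (N.e p) := by
  rw [Submodule.map_le_iff_le_comap]
  exact sSup_le fun W hW => (Submodule.map_le_iff_le_comap).1 (hW.2 p hp)

private theorem gc1_le_cog (N : FM M s K D) (Rs : Set P) (B W : Submodule K N.T) (h : N.St W)
    (hB : ∀ p ∈ Rs, W.map (N.e p) ≤ B.map (N.e p)) : W ≤ N.cog Rs B := le_sSup ⟨h, hB⟩

/-- auxiliary sub for the property of `cog` -/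
private def gc1_W (N : FM M s K D) (Rs : Set P) (B : Submodule K N.T) : Submodule K N.T where
  carrier := {z | (∀ p, N.a (N.e p z) ∈ N.cog Rs B) ∧ ∀ r ∈ Rs, N.e r z ∈ N.cog Rs B}
  zero_mem' := ⟨fun p => by simp, fun r _ => by simp⟩
  add_mem' := fun {x y} hx hy => ⟨fun p => by
      rw [map_add, map_add]; exact Submodule.add_mem _ (hx.1 p) (hy.1 p),
    fun r hr => by rw [map_add]; exact Submodule.add_mem _ (hx.2 r hr) (hy.2 r hr)⟩
  smul_mem' := fun c x hx => ⟨fun p => by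
      rw [map_smul, map_smul]; exact Submodule.smul_mem _ _ (hx.1 p),
    fun r hr => by rw [map_smul]; exact Submodule.smul_mem _ _ (hx.2 r hr)⟩

private theorem gc1_W_le (N : FM M s K D) (Rs : Set P) (B : Submodule K N.T)
    (hrs : ∀ p, s p ∈ Rs ↔ p ∈ Rs) : gc1_W N Rs B ≤ N.cog Rs B := by
  have hC := gc1_cog_St N Rs B
  have hrs' : ∀ p, s.symm p ∈ Rs ↔ p ∈ Rs := fun p => by
    rw [← hrs (s.symm p), Equiv.apply_symm_apply]
  have haz : ∀ z ∈ gc1_W N Rs B, N.a z ∈ N.cog Rs B := by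
    intro z hz
    have h1 : N.a z = ∑ p, N.a (N.e p z) := by rw [← map_sum, N.e_sum]
    rw [h1]
    exact Submodule.sum_mem _ fun p _ => hz.1 p
  refine gc1_le_cog N Rs B _ ⟨⟨fun q z hz => ?_, fun z hz => ?_⟩, fun z hz => ?_⟩ fun r hr => ?_
  · refine ⟨fun p => ?_, fun r hr => ?_⟩
    · rcases gc1_ee N p q z with h | h
      · rw [h]; exact hz.1 q
      · rw [h, map_zero]; exact Submodule.zero_mem _
    · by_cases h : r = q
      · subst h
        rw [N.e_e]
        exact hz.2 r hr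
      · rw [N.e_ne r q z h]
        exact Submodule.zero_mem _
  · exact ⟨fun p => hC.1.2 _ (hC.1.1 p _ (haz z hz)), fun r _ => hC.1.1 r _ (haz z hz)⟩
  · refine ⟨fun p => ?_, fun r hr => ?_⟩
    · rw [gc1_eF, ← N.F_a]
      exact hC.2 _ (hz.1 _)
    · rw [gc1_eF]
      exact hC.2 _ (hz.2 _ ((hrs' r).2 hr))
  · rintro _ ⟨z, hz, rfl⟩
    have h1 : N.e r z ∈ (N.cog Rs B).map (N.e r) := ⟨N.e r z, hz.2 r hr, N.e_e r z⟩
    exact gc1_cog_map N Rs B r hr h1

/-- auxiliary sub for the property of `gen` -/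
private def gc1_V (N : FM M s K D) (B : Submodule K N.T) : Submodule K N.T where
  carrier := {x | x ∈ N.gen B ∧ ∀ p, ∃ b ∈ B, ∃ y ∈ N.gen B, N.e p x = N.e p b + N.e p (N.a y)}
  zero_mem' := ⟨Submodule.zero_mem _, fun p => ⟨0, B.zero_mem, 0, Submodule.zero_mem _,
    by simp⟩⟩
  add_mem' := by
    rintro x x' ⟨hx, hx2⟩ ⟨hx', hx2'⟩
    refine ⟨Submodule.add_mem _ hx hx', fun p => ?_⟩
    obtain ⟨b, hb, y, hy, h⟩ := hx2 p
    obtain ⟨b', hb', y', hy', h'⟩ := hx2' p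
    refine ⟨b + b', B.add_mem hb hb', y + y', Submodule.add_mem _ hy hy', ?_⟩
    rw [map_add, map_add, map_add, map_add, h, h']
    abel
  smul_mem' := by
    rintro c x ⟨hx, hx2⟩
    refine ⟨Submodule.smul_mem _ c hx, fun p => ?_⟩
    obtain ⟨b, hb, y, hy, h⟩ := hx2 p
    refine ⟨c • b, B.smul_mem c hb, c • y, Submodule.smul_mem _ c hy, ?_⟩
    rw [map_smul, map_smul, map_smul, map_smul, h, smul_add]

private theorem gc1_V_le (N : FM M s K D) (Rs : Set P) (B : Submodule K N.T) (h : N.Grd Rs B) :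
    N.gen B ≤ gc1_V N B := by
  have hG := gc1_gen_St N B
  refine gc1_gen_le N B _ ⟨⟨fun q x hx => ?_, fun x hx => ?_⟩, fun x hx => ?_⟩ fun b hb => ?_
  · refine ⟨hG.1.1 q x hx.1, fun p => ?_⟩
    by_cases hpq : p = q
    · subst hpq
      obtain ⟨b, hb, y, hy, h1⟩ := hx.2 p
      exact ⟨b, hb, y, hy, by rw [N.e_e, h1]⟩
    · exact ⟨0, B.zero_mem, 0, Submodule.zero_mem _, by rw [N.e_ne p q x hpq]; simp⟩
  · exact ⟨hG.1.2 x hx.1, fun p => ⟨0, B.zero_mem, x, hx.1, by simp⟩⟩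
  · refine ⟨hG.2 x hx.1, fun p => ?_⟩
    obtain ⟨b, hb, y, hy, h1⟩ := hx.2 (s.symm p)
    refine ⟨N.F b, h.F b hb, N.F y, hG.2 y hy, ?_⟩
    rw [gc1_eF, h1, map_add, ← gc1_eF, ← gc1_eF, N.F_a]
  · exact ⟨gc1_le_gen N B hb, fun p => ⟨b, hb, 0, Submodule.zero_mem _, by simp⟩⟩

private theorem gc1_B_le (N : FM M s K D) (Rs : Set P) (B W : Submodule K N.T) (h : N.Grd Rs B)
    (hW : N.St W) (hR : N.Res Rs B W) : B ≤ W := by
  intro b hb
  rw [← N.e_sum b]
  refine Submodule.sum_mem _ fun p _ => ?_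
  by_cases hp : p ∈ Rs
  · have h1 : N.e p b ∈ W.map (N.e p) := by
      rw [hR p hp]
      exact ⟨b, hb, rfl⟩
    obtain ⟨w, hw, h2⟩ := h1
    rw [← h2]
    exact hW.1.1 p w hw
  · rw [h.sup p hp b hb]
    exact Submodule.zero_mem _

end

theorem GC1_holds : S_GC1 := by
  intro P _ M s K _ D N Rs B h
  have h9 := gc1_V_le N Rs B h
  refine ⟨gc1_gen_St N B, gc1_le_gen N B, fun W hW hB => gc1_gen_le N B W hW hB,
    gc1_cog_St N Rs B, fun p hp => gc1_cog_map N Rs B p hp,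
    fun W hW hB => gc1_le_cog N Rs B W hW hB, ?_, ?_, fun x hx p => (h9 hx).2 p, ?_, ?_⟩
  · rintro x ⟨p, hp, hx⟩ hax
    refine gc1_W_le N Rs B h.rs ⟨fun q => ?_, fun r hr => ?_⟩
    · rw [← hx]
      by_cases hq : q = p
      · subst hq
        rw [N.e_e, hx]
        exact hax
      · rw [N.e_ne q p x hq, map_zero]
        exact Submodule.zero_mem _
    · rw [← hx, N.e_ne r p x (fun h1 => hp (h1 ▸ hr))]
      exact Submodule.zero_mem _
  · intro x hx p hp
    obtain ⟨b, hb, y, hy, h1⟩ := (h9 hx).2 p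
    exact ⟨y, hy, by rw [h1, h.sup p hp b hb, zero_add]⟩
  · intro hR
    have hgc : N.gen B ≤ N.cog Rs B :=
      gc1_le_cog N Rs B _ (gc1_gen_St N B) fun p hp => (hR p hp).le
    refine ⟨fun W hW => ⟨fun hW2 => ⟨?_, ?_⟩, fun hW2 p hp => ?_⟩, hgc⟩
    · exact gc1_gen_le N B W hW (gc1_B_le N Rs B W h hW hW2)
    · exact gc1_le_cog N Rs B W hW fun p hp => (hW2 p hp).le
    · refine le_antisymm ((Submodule.map_mono hW2.2).trans (gc1_cog_map N Rs B p hp)) ?_
      exact Submodule.map_mono ((gc1_le_gen N B).trans hW2.1)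
  · intro hR W hW hW2
    apply hR
    intro p hp
    have h1 := gc1_gen_le N B W hW (gc1_B_le N Rs B W h hW hW2)
    refine le_antisymm ?_ (Submodule.map_mono (gc1_le_gen N B))
    exact (Submodule.map_mono h1).trans (hW2 p hp).le

end Pool.Agent.Lib.MP_4c1f79_al
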