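import Pool.Agent.Lib.MP_4c1f79_al.StmC

/-!
# MP_4c1f79_al : piece GC2 (the subquotient `cog / gen` is good)
-/

set_option autoImplicit false

namespace Pool.Agent.Lib.MP_4c1f79_al

open Finset Module

section

variable {P : Type} [Fintype P] {M : Mesh P} {s : Equiv.Perm P} {K : Type} [Field K] {D : Fd K}

open Classical in
/-- the part of `y` on the successors of `p` -/
private noncomputable def gc2_pr (R : Rp M K) (p : P) (y : R.T) : R.T :=
  ∑ q, if M.Ar p q then R.e q y else 0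

private theorem gc2_pr_mem {R : Rp M K} {W : Submodule K R.T} (h : ∀ p, ∀ x ∈ W, R.e p x ∈ W)
    (p : P) {y : R.T} (hy : y ∈ W) : gc2_pr R p y ∈ W := by
  classical
  refine Submodule.sum_mem _ fun q _ => ?_
  split_ifs
  · exact h q y hy
  · exact W.zero_mem

private theorem gc2_pr_zero {R : Rp M K} {p q : P} (h : ¬ M.Ar p q) (y : R.T) :
    R.e q (gc2_pr R p y) = 0 := by
  classical
  unfold gc2_pr
  rw [map_sum]
  refine Finset.sum_eq_zero fun q' _ => ?_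
  split_ifs with h'
  · exact R.e_ne q q' y (fun e => h (e ▸ h'))
  · exact map_zero _

private theorem gc2_pr_sub {R : Rp M K} {W : Submodule K R.T} (p : P) (y : R.T)
    (h : ∀ q, ¬ M.Ar p q → R.e q y ∈ W) : y - gc2_pr R p y ∈ W := by
  classical
  have h1 : y - gc2_pr R p y = ∑ q, if M.Ar p q then 0 else R.e q y := by
    unfold gc2_pr
    rw [sub_eq_iff_eq_add, ← Finset.sum_add_distrib]
    conv_lhs => rw [← R.e_sum y]
    refine Finset.sum_congr rfl fun q _ => ?_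
    split_ifs <;> simp
  rw [h1]
  refine Submodule.sum_mem _ fun q _ => ?_
  split_ifs with h'
  · exact W.zero_mem
  · exact h q h'

private theorem gc2_pr_a {R : Rp M K} {p r : P} (h : M.Tau p r) (z : R.T) :
    R.e r (R.a (gc2_pr R p z)) = R.e r (R.a z) := by
  classical
  unfold gc2_pr
  conv_rhs => rw [← R.e_sum z]
  rw [map_sum, map_sum, map_sum, map_sum]
  refine Finset.sum_congr rfl fun q _ => ?_
  split_ifs with h'
  · rfl
  · rw [map_zero, map_zero]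
    exact (R.a_ar q r z fun h2 => h' ((M.mesh_ar p r q h).2 h2)).symm

end

/-- PIECE GC2 -/
theorem GC2_holds (hGC1 : S_GC1) (hDQ1 : S_DQ1) : S_GC2 := by
  clear hDQ1
  intro P _ M s K _ D N U Rs B hB hG hR hτ hS hO
  obtain ⟨-, hBg, -, -, hcm, -, hca, -, hgen, hres, -⟩ := hGC1 P M s K D N Rs B hB
  have hgc : N.gen B ≤ N.cog Rs B := (hres hR).2
  set S := N.gen B with hSd
  set O := N.cog Rs B with hOd
  -- membership
  have hRs : ∀ p ∈ Rs, ∀ y ∈ O, N.e p y ∈ S := by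
    intro p hp y hy
    have h1 : N.e p y ∈ B.map (N.e p) := hcm p hp ⟨y, hy, rfl⟩
    rw [← hR p hp] at h1
    obtain ⟨z, hz, hzy⟩ := h1
    rw [← hzy]
    exact hS.1.1 p z hz
  have hmk0 : ∀ y : O, (S.comap O.subtype).mkQ y = 0 ↔ (y : N.T) ∈ S := by
    intro y
    rw [Submodule.mkQ_apply, Submodule.Quotient.mk_eq_zero]
    rfl
  refine ⟨fun p hp x => ?_, fun p hp y hy1 hy2 => ?_⟩
  · obtain ⟨y, rfl⟩ := Submodule.mkQ_surjective (p := S.comap O.subtype) x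
    show (S.comap O.subtype).mkQ ⟨N.e p y.1, hO.1.1 p y.1 y.2⟩ = 0
    rw [hmk0]
    by_cases hpU : p ∈ U
    · have hpR : p ∈ Rs := by
        by_contra h
        exact hp ⟨hpU, h⟩
      exact hRs p hpR y.1 y.2
    · show N.e p y.1 ∈ S
      rw [show N.e p y.1 = 0 from hG.1 p hpU y.1]
      exact S.zero_mem
  · obtain ⟨y₀, rfl⟩ := Submodule.mkQ_surjective (p := S.comap O.subtype) y
    have hy1' : ∀ q, ¬ M.Ar p q → N.e q y₀.1 ∈ S := fun q hq =>
      (hmk0 ⟨N.e q y₀.1, hO.1.1 q y₀.1 y₀.2⟩).1 (hy1 q hq)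
    have hy2' : ∀ r, M.Tau p r → N.e r (N.a y₀.1) ∈ S := fun r hr =>
      (hmk0 ⟨N.e r (N.a y₀.1), hO.1.1 r _ (hO.1.2 _ y₀.2)⟩).1 (hy2 r hr)
    -- the element `z`
    have hz : ∃ z ∈ S, ∀ r, M.Tau p r → N.e r (N.a y₀.1) = N.e r (N.a z) := by
      by_cases hr : ∃ r, M.Tau p r
      · obtain ⟨r, hr⟩ := hr
        obtain ⟨b, hb, z, hz, h1⟩ := hgen _ (hy2' r hr) r
        rw [N.e_e] at h1
        have hb0 : N.e r b = 0 := by
          by_cases hrR : r ∈ Rs
          · exact hτ p hp.1 hp.2 r hrR hr b hb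
          · exact hB.sup r hrR b hb
        rw [hb0, zero_add] at h1
        refine ⟨z, hz, fun r' hr' => ?_⟩
        rw [M.tau_fun p r' r hr' hr]
        exact h1
      · exact ⟨0, S.zero_mem, fun r h => absurd ⟨r, h⟩ hr⟩
    obtain ⟨z, hz, hzr⟩ := hz
    have hw1 : ∀ q, ¬ M.Ar p q →
        N.e q (gc2_pr N.toRp p y₀.1 - gc2_pr N.toRp p z) = 0 := by
      intro q hq
      rw [map_sub, gc2_pr_zero hq, gc2_pr_zero hq, sub_zero]
    have hw2 : ∀ r, M.Tau p r →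
        N.e r (N.a (gc2_pr N.toRp p y₀.1 - gc2_pr N.toRp p z)) = 0 := by
      intro r hr
      rw [map_sub, map_sub, gc2_pr_a hr, gc2_pr_a hr, hzr r hr, sub_self]
    obtain ⟨x, hx1, hx2⟩ := hG.2 p hp.1 _ hw1 hw2
    have hyO : gc2_pr N.toRp p y₀.1 ∈ O := gc2_pr_mem hO.1.1 p y₀.2
    have hzS : gc2_pr N.toRp p z ∈ S := gc2_pr_mem hS.1.1 p hz
    have hxO : x ∈ O := hca x ⟨p, hp.2, hx1⟩ (by
      rw [hx2]
      exact O.sub_mem hyO (hgc hzS))
    refine ⟨(S.comap O.subtype).mkQ ⟨x, hxO⟩, ?_, ?_⟩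
    · show (S.comap O.subtype).mkQ ⟨N.e p x, hO.1.1 p x hxO⟩ = (S.comap O.subtype).mkQ ⟨x, hxO⟩
      congr 1
      exact Subtype.ext hx1
    · show (S.comap O.subtype).mkQ ⟨N.a x, hO.1.2 x hxO⟩ = (S.comap O.subtype).mkQ y₀
      rw [← sub_eq_zero, ← map_sub, hmk0]
      show N.a x - y₀.1 ∈ S
      rw [hx2]
      have h1 : gc2_pr N.toRp p y₀.1 - gc2_pr N.toRp p z - y₀.1
          = -(y₀.1 - gc2_pr N.toRp p y₀.1) - gc2_pr N.toRp p z := by abel
      rw [h1]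
      exact S.sub_mem (S.neg_mem (gc2_pr_sub p y₀.1 hy1')) hzS

end Pool.Agent.Lib.MP_4c1f79_al
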