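import Pool.Agent.Lib.MP_4c1f79_al.StmC

set_option autoImplicit false

namespace Pool.Agent.Lib.MP_4c1f79_al

open Finset Module

theorem GC3_rn {K T T' : Type} [Field K] [AddCommGroup T] [Module K T] [Finite T]
    [AddCommGroup T'] [Module K T'] (f : T →ₗ[K] T') (A : Submodule K T) :
    finrank K (A.map f) + finrank K (A ⊓ LinearMap.ker f : Submodule K T) = finrank K A := by
  have h1 := LinearMap.finrank_range_add_finrank_ker (f.domRestrict A)
  have h2 : LinearMap.range (f.domRestrict A) = A.map f := by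
    ext y
    constructor
    · rintro ⟨x, rfl⟩
      exact ⟨x.1, x.2, rfl⟩
    · rintro ⟨x, hx, rfl⟩
      exact ⟨⟨x, hx⟩, rfl⟩
  have h3 : (LinearMap.ker (f.domRestrict A)).map A.subtype = A ⊓ LinearMap.ker f := by
    ext y
    constructor
    · rintro ⟨x, hx, rfl⟩
      exact ⟨x.2, hx⟩
    · rintro ⟨hy1, hy2⟩
      exact ⟨⟨y, hy1⟩, hy2, rfl⟩
  have h4 := Submodule.finrank_map_subtype_eq A (LinearMap.ker (f.domRestrict A))
  rw [h3] at h4
  rw [h2, ← h4] at h1
  exact h1

section

variable {P : Type} [Fintype P] {M : Mesh P} {K : Type} [Field K]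

/-- The elements of `G` supported on `S`. -/
def GC3_Y (R : Rp M K) (G : Submodule K R.T) (S : Finset P) : Submodule K R.T where
  carrier := {z | z ∈ G ∧ ∀ q, q ∉ S → R.e q z = 0}
  zero_mem' := ⟨G.zero_mem, fun q _ => by simp⟩
  add_mem' := fun {x y} hx hy => ⟨G.add_mem hx.1 hy.1, fun q hq => by
    rw [map_add, hx.2 q hq, hy.2 q hq, add_zero]⟩
  smul_mem' := fun c x hx => ⟨G.smul_mem c hx.1, fun q hq => by
    rw [map_smul, hx.2 q hq, smul_zero]⟩

theorem GC3_ee (R : Rp M K) (p q : P) (x : R.T) [Decidable (p = q)] :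
    R.e p (R.e q x) = if p = q then R.e q x else 0 := by
  split_ifs with h
  · subst h
    exact R.e_e p x
  · exact R.e_ne p q x h

theorem GC3_Ydim (R : Rp M K) (G : Submodule K R.T) (hG : ∀ p, ∀ x ∈ G, R.e p x ∈ G)
    (S : Finset P) : finrank K (GC3_Y R G S) = ∑ q ∈ S, R.dmS G q := by
  classical
  induction S using Finset.induction_on with
  | empty =>
    rw [Finset.sum_empty, Submodule.finrank_eq_zero, eq_bot_iff]
    intro z hz
    rw [Submodule.mem_bot, ← R.e_sum z]
    exact Finset.sum_eq_zero fun q _ => hz.2 q (by simp)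
  | insert q S hq ih =>
    rw [Finset.sum_insert hq, ← ih, ← GC3_rn (R.e q) (GC3_Y R G (insert q S))]
    congr 1
    · unfold Rp.dmS
      have : (GC3_Y R G (insert q S)).map (R.e q) = G.map (R.e q) := by
        ext y
        constructor
        · rintro ⟨x, hx, rfl⟩
          exact ⟨x, hx.1, rfl⟩
        · rintro ⟨x, hx, rfl⟩
          refine ⟨R.e q x, ⟨hG q x hx, fun p hp => ?_⟩, R.e_e q x⟩
          exact R.e_ne p q x fun h => hp (by simp [h])
      rw [this]
    · have : (GC3_Y R G (insert q S) ⊓ LinearMap.ker (R.e q) : Submodule K R.T)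
          = GC3_Y R G S := by
        ext y
        constructor
        · rintro ⟨h1, h2⟩
          refine ⟨h1.1, fun p hp => ?_⟩
          by_cases h : p = q
          · rw [h]
            exact h2
          · exact h1.2 p (by simp [h, hp])
        · rintro h
          refine ⟨⟨h.1, fun p hp => h.2 p fun h' => hp (by simp [h'])⟩, h.2 q hq⟩
      rw [this]

theorem GC3_mapinf (R : Rp M K) (G : Submodule K R.T) (hG : ∀ p, ∀ x ∈ G, R.e p x ∈ G) (p : P) :
    G.map (R.e p) = G ⊓ LinearMap.range (R.e p) := by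
  ext y
  constructor
  · rintro ⟨x, hx, rfl⟩
    exact ⟨hG p x hx, ⟨x, rfl⟩⟩
  · rintro ⟨h1, ⟨x, rfl⟩⟩
    exact ⟨R.e p x, h1, R.e_e p x⟩

open Classical in
theorem GC3_eul (M : Mesh P) (u : P) (y : P → ℕ) :
    eulN M (ind {u}) y = y u - (∑ q with M.Ar u q, (y q : ℤ)) + ∑ r with M.Tau u r, (y r : ℤ) := by
  unfold eulN eul
  have h0 : ∀ p : P, ((ind ({u} : Set P) p : ℕ) : ℤ) = if p = u then 1 else 0 := by
    intro p
    unfold ind
    by_cases h : p = u
    · simp [h]
    · simp [h]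
  simp only [h0]
  have h1 : ∑ p : P, (if p = u then (1 : ℤ) else 0) * (y p : ℤ) = y u := by
    rw [Finset.sum_eq_single u]
    · simp
    · intro b _ hb
      simp [hb]
    · simp
  have h2 : ∀ (Q : P → P → Prop), (∑ p : P, ∑ q : P,
      (if Q p q then (if p = u then (1 : ℤ) else 0) * (y q : ℤ) else 0))
        = ∑ q with Q u q, (y q : ℤ) := by
    intro Q
    rw [Finset.sum_eq_single u, Finset.sum_filter]
    · simp
    · intro b _ hb
      simp [hb]
    · simp
  rw [h1, h2, h2]

theorem GC3_core (R : Rp M K) (u : P) (G O : Submodule K R.T) (hG : R.St G) (hO : R.St O)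
    (hGO : G ≤ O) (hgood : R.GoodAt u) (h1 : ∀ x, R.e u x = x → R.a x ∈ G → x ∈ O)
    (h2 : ∀ r, M.Tau u r → ∀ x ∈ G, ∃ y ∈ G, R.e r x = R.e r (R.a y)) :
    ((((R.sub O hO).quo (G.comap O.subtype) (Rp.St.comap hO hG)).sc u : ℕ) : ℤ)
      = R.sc u - eulN M (ind {u}) (R.dmS G) := by
  classical
  set L : Submodule K R.T := LinearMap.range (R.e u) ⊓ G.comap R.a with hL
  have hLm : ∀ x, x ∈ L ↔ R.e u x = x ∧ R.a x ∈ G := by
    intro x
    constructor
    · rintro ⟨⟨y, rfl⟩, h⟩
      exact ⟨R.e_e u y, h⟩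
    · rintro ⟨h, h'⟩
      exact ⟨⟨x, h⟩, h'⟩
  have hLO : L ≤ O := fun x hx => h1 x ((hLm x).1 hx).1 ((hLm x).1 hx).2
  -- step 1 : the quotient
  have s1 : (((R.sub O hO).quo (G.comap O.subtype) (Rp.St.comap hO hG)).sc u)
      + R.dmS G u = finrank K L := by
    have e0 := GC3_rn (G.comap O.subtype).mkQ (L.comap O.subtype)
    have e1 : finrank K (L.comap O.subtype : Submodule K O) = finrank K L := by
      rw [← Submodule.finrank_map_subtype_eq O (L.comap O.subtype), Submodule.map_comap_subtype,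
        inf_eq_right.2 hLO]
    have e2 : finrank K (L.comap O.subtype ⊓ LinearMap.ker (G.comap O.subtype).mkQ :
        Submodule K O) = R.dmS G u := by
      rw [Submodule.ker_mkQ, ← Submodule.finrank_map_subtype_eq O, ← Submodule.comap_inf,
        Submodule.map_comap_subtype]
      unfold Rp.dmS
      rw [GC3_mapinf R G hG.1 u]
      have : O ⊓ (L ⊓ G) = G ⊓ LinearMap.range (R.e u) := by
        ext x
        constructor
        · rintro ⟨_, hx, hx'⟩
          exact ⟨hx', ⟨x, ((hLm x).1 hx).1⟩⟩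
        · rintro ⟨hx, hx'⟩
          refine ⟨hGO hx, ⟨hx', hG.2 x hx⟩, hx⟩
      rw [this]
    have e3 : (L.comap O.subtype).map (G.comap O.subtype).mkQ
        = (LinearMap.range (((R.sub O hO).quo (G.comap O.subtype) (Rp.St.comap hO hG)).e u)
          ⊓ LinearMap.ker ((R.sub O hO).quo (G.comap O.subtype) (Rp.St.comap hO hG)).a :
          Submodule K ((R.sub O hO).quo (G.comap O.subtype) (Rp.St.comap hO hG)).T) := by
      ext z
      constructor
      · rintro ⟨x, hx, rfl⟩
        have hx' := (hLm x.1).1 hx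
        refine ⟨⟨(G.comap O.subtype).mkQ x, ?_⟩, ?_⟩
        · exact congrArg (G.comap O.subtype).mkQ (Subtype.ext hx'.1)
        · refine (Submodule.Quotient.mk_eq_zero (G.comap O.subtype)).2 ?_
          exact hx'.2
      · rintro ⟨⟨z, rfl⟩, hz⟩
        obtain ⟨x, rfl⟩ := (G.comap O.subtype).mkQ_surjective z
        have hx' := (Submodule.Quotient.mk_eq_zero (G.comap O.subtype)).1 hz
        refine ⟨⟨R.e u x.1, hO.1 u x.1 x.2⟩, ?_, rfl⟩
        exact (hLm _).2 ⟨R.e_e u x.1, hx'⟩
    rw [e1, e2, e3] at e0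
    exact e0
  -- step 2 : the map a
  have s2 := GC3_rn R.a L
  have s3 : (L ⊓ LinearMap.ker R.a : Submodule K R.T) = LinearMap.range (R.e u) ⊓ LinearMap.ker R.a := by
    ext x
    constructor
    · rintro ⟨⟨h, _⟩, h'⟩
      exact ⟨h, h'⟩
    · rintro ⟨h, h'⟩
      refine ⟨⟨h, ?_⟩, h'⟩
      show R.a x ∈ G
      rw [LinearMap.mem_ker.1 h']
      exact G.zero_mem
  set S : Finset P := Finset.univ.filter fun q => M.Ar u q with hS
  have s4 := GC3_Ydim R G hG.1 S
  have hYm : ∀ z, z ∈ GC3_Y R G S ↔ z ∈ G ∧ ∀ q, ¬ M.Ar u q → R.e q z = 0 := by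
    intro z
    constructor
    · rintro ⟨h, h'⟩
      exact ⟨h, fun q hq => h' q (by simp [hS, hq])⟩
    · rintro ⟨h, h'⟩
      exact ⟨h, fun q hq => h' q (by simpa [hS] using hq)⟩
  have s5 : ∀ z, z ∈ L.map R.a ↔ z ∈ GC3_Y R G S ∧ ∀ r, M.Tau u r → R.e r (R.a z) = 0 := by
    intro z
    rw [hYm]
    constructor
    · rintro ⟨x, hx, rfl⟩
      have hx' := (hLm x).1 hx
      refine ⟨⟨hx'.2, fun q hq => ?_⟩, fun r hr => ?_⟩
      · rw [← hx'.1]
        exact R.a_ar u q x hq
      · rw [← hx'.1]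
        exact R.mesh u r x hr
    · rintro ⟨⟨h, h'⟩, h''⟩
      obtain ⟨x, hx1, hx2⟩ := hgood z h' h''
      exact ⟨x, (hLm x).2 ⟨hx1, hx2 ▸ h⟩, hx2⟩
  have s6 : (finrank K (L.map R.a) : ℤ) + ∑ r with M.Tau u r, (R.dmS G r : ℤ)
      = ∑ q with M.Ar u q, (R.dmS G q : ℤ) := by
    have s4' : (finrank K (GC3_Y R G S) : ℤ) = ∑ q with M.Ar u q, (R.dmS G q : ℤ) := by
      rw [s4]
      push_cast
      rfl
    rw [← s4']
    by_cases hr : ∃ r, M.Tau u r
    · obtain ⟨r, hr⟩ := hr
      have f1 : (Finset.univ.filter fun r => M.Tau u r) = {r} := by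
        ext r'
        simp only [Finset.mem_filter, Finset.mem_univ, true_and, Finset.mem_singleton]
        exact ⟨fun h => M.tau_fun u r' r h hr, fun h => h ▸ hr⟩
      rw [f1, Finset.sum_singleton]
      have f2 := GC3_rn ((R.e r).comp R.a) (GC3_Y R G S)
      have f3 : (GC3_Y R G S ⊓ LinearMap.ker ((R.e r).comp R.a) : Submodule K R.T) = L.map R.a := by
        ext z
        rw [s5]
        constructor
        · rintro ⟨h, h'⟩
          exact ⟨h, fun r' hr' => by rw [M.tau_fun u r' r hr' hr]; exact h'⟩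
        · rintro ⟨h, h'⟩
          exact ⟨h, h' r hr⟩
      have f4 : (GC3_Y R G S).map ((R.e r).comp R.a) = G.map (R.e r) := by
        ext z
        constructor
        · rintro ⟨x, hx, rfl⟩
          exact ⟨R.a x, hG.2 x hx.1, rfl⟩
        · rintro ⟨x, hx, rfl⟩
          obtain ⟨y, hy, hxy⟩ := h2 r hr x hx
          refine ⟨∑ q ∈ S, R.e q y, ⟨G.sum_mem fun q _ => hG.1 q y hy, fun q hq => ?_⟩, ?_⟩
          · rw [map_sum]
            refine Finset.sum_eq_zero fun p hp => ?_
            exact R.e_ne q p y fun h => hq (h ▸ hp)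
          · show R.e r (R.a (∑ q ∈ S, R.e q y)) = R.e r x
            rw [hxy]
            conv_rhs => rw [← R.e_sum y]
            rw [map_sum, map_sum, map_sum, map_sum]
            refine Finset.sum_subset (Finset.subset_univ S) fun q _ hq => ?_
            refine R.a_ar q r y fun h => hq ?_
            simp only [hS, Finset.mem_filter, Finset.mem_univ, true_and]
            exact (M.mesh_ar u r q hr).2 h
      rw [f3, f4] at f2
      rw [← f2]
      unfold Rp.dmS
      push_cast
      ring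
    · have f1 : (Finset.univ.filter fun r => M.Tau u r) = ∅ := by
        ext r'
        simp only [Finset.mem_filter, Finset.mem_univ, true_and, Finset.notMem_empty, iff_false]
        exact fun h => hr ⟨r', h⟩
      rw [f1, Finset.sum_empty, add_zero]
      have f3 : L.map R.a = GC3_Y R G S := by
        ext z
        rw [s5]
        exact ⟨fun h => h.1, fun h => ⟨h, fun r h' => (hr ⟨r, h'⟩).elim⟩⟩
      rw [f3]
  rw [s3] at s2
  rw [GC3_eul]
  have s7 : finrank K (LinearMap.range (R.e u) ⊓ LinearMap.ker R.a : Submodule K R.T) = R.sc u := rfl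
  rw [s7] at s2
  have s8 : (finrank K (L.map R.a) : ℤ) + R.sc u = finrank K L := by exact_mod_cast s2
  have s9 : ((((R.sub O hO).quo (G.comap O.subtype) (Rp.St.comap hO hG)).sc u : ℕ) : ℤ)
      + R.dmS G u = finrank K L := by exact_mod_cast s1
  linarith

end

theorem GC3_holds (hGC1 : S_GC1) (hDQ1 : S_DQ1) (hDQ3 : S_DQ3) : S_GC3 := by
  intro P _ M s K _ D N U Rs B hB hgood hres htau hS hO
  obtain ⟨g1, g2, g3, g4, g5, g6, g7, g8, g9, g10, g11⟩ := hGC1 P M s K D N Rs B hB
  obtain ⟨d1, d2, d3, d4, d5, d6⟩ := hDQ1 P M K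
  obtain ⟨q1, q2, q3, q4, q5, q6⟩ := hDQ3 P M K
  have hGO : N.gen B ≤ N.cog Rs B := (g10 hres).2
  have hdim : ∀ u, (N.subq (N.gen B) (N.cog Rs B) hS hO).toRp.dm u + N.toRp.dmS (N.gen B) u
      = N.toRp.dmS (N.cog Rs B) u := by
    intro u
    have e1 := d2 (N.toRp.sub (N.cog Rs B) hO.1) ((N.gen B).comap (N.cog Rs B).subtype)
      (Rp.St.comap hO.1 hS.1) u
    have e2 := q2 N.toRp (N.cog Rs B) hO.1 ((N.gen B).comap (N.cog Rs B).subtype) u
    have e3 := d1 N.toRp (N.cog Rs B) hO.1 u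
    have e4 : ((N.gen B).comap (N.cog Rs B).subtype).map (N.cog Rs B).subtype = N.gen B := by
      rw [Submodule.map_comap_subtype, inf_eq_right.2 hGO]
    have e5 := e2.trans (congrArg (fun W => N.toRp.dmS W u) e4)
    rw [e5, e3] at e1
    exact e1
  refine ⟨?_, ?_, hdim⟩
  · rintro u ⟨hu1, hu2⟩
    refine GC3_core N.toRp u (N.gen B) (N.cog Rs B) hS.1 hO.1 hGO (hgood.2 u hu1) ?_ ?_
    · intro x hx hx'
      exact g7 x ⟨u, hu2, hx⟩ (hGO hx')
    · intro r hr x hx
      obtain ⟨b, hb, y, hy, hxy⟩ := g9 x hx r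
      refine ⟨y, hy, ?_⟩
      have : N.e r b = 0 := by
        by_cases hr' : r ∈ Rs
        · exact htau u hu1 hu2 r hr' hr b hb
        · exact hB.sup r hr' b hb
      rw [hxy, this, zero_add]
  · intro u hu
    have e1 := hdim u
    have e2 : N.toRp.dmS (N.cog Rs B) u ≤ N.toRp.dmS (N.gen B) u := by
      by_cases hu' : u ∈ U
      · have hu'' : u ∈ Rs := by
          by_contra h
          exact hu ⟨hu', h⟩
        have hle := (g5 u hu'').trans (le_of_eq (hres u hu'').symm)
        unfold Rp.dmS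
        exact Submodule.finrank_mono hle
      · have : (N.cog Rs B).map (N.e u) = ⊥ := by
          rw [eq_bot_iff]
          rintro _ ⟨x, _, rfl⟩
          exact hgood.1 u hu' x
        unfold Rp.dmS
        rw [this, finrank_bot]
        exact Nat.zero_le _
    omega

end Pool.Agent.Lib.MP_4c1f79_al
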