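import Pool.Agent.Lib.MP_4c1f79_al.StmC

/-!
# MP_4c1f79_al : piece GC4 (the count of the subs with given part on `Rs`)
-/

set_option autoImplicit false

namespace Pool.Agent.Lib.MP_4c1f79_al

open Finset Module

private theorem GC4_st {P : Type} [Fintype P] {M : Mesh P} {s : Equiv.Perm P} {K : Type} [Field K]
    {D : Fd K} (N : FM M s K D) (S O : Submodule K N.T) (hS : N.St S) (hO : N.St O)
    (V : Submodule K (N.subq S O hS hO).T) :
    (N.subq S O hS hO).St V ↔
      N.St (((V.comap (S.comap O.subtype).mkQ : Submodule K O)).map O.subtype) := by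
  constructor
  · intro hV
    refine ⟨⟨?_, ?_⟩, ?_⟩
    · rintro p _ ⟨y, hy, rfl⟩
      exact ⟨(N.sub O hO).e p y, hV.1.1 p _ hy, rfl⟩
    · rintro _ ⟨y, hy, rfl⟩
      exact ⟨(N.sub O hO).a y, hV.1.2 _ hy, rfl⟩
    · rintro _ ⟨y, hy, rfl⟩
      exact ⟨(N.sub O hO).F y, hV.2 _ hy, rfl⟩
  · intro hW
    have key : ∀ y z : O, (y : N.T) ∈
        (((V.comap (S.comap O.subtype).mkQ : Submodule K O)).map O.subtype) →
        (S.comap O.subtype).mkQ y ∈ V := by
      rintro y _ ⟨x, hx, hxy⟩
      have h1 : x = y := Subtype.ext hxy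
      rw [← h1]
      exact hx
    refine ⟨⟨?_, ?_⟩, ?_⟩
    · intro p v hv
      obtain ⟨y, rfl⟩ := (S.comap O.subtype).mkQ_surjective v
      exact key ((N.sub O hO).e p y) 0 (hW.1.1 p y.1 ⟨y, hv, rfl⟩)
    · intro v hv
      obtain ⟨y, rfl⟩ := (S.comap O.subtype).mkQ_surjective v
      exact key ((N.sub O hO).a y) 0 (hW.1.2 y.1 ⟨y, hv, rfl⟩)
    · intro v hv
      obtain ⟨y, rfl⟩ := (S.comap O.subtype).mkQ_surjective v
      exact key ((N.sub O hO).F y) 0 (hW.2 y.1 ⟨y, hv, rfl⟩)

theorem GC4_holds (hGC1 : S_GC1) (hDQ1 : S_DQ1) (hDQ3 : S_DQ3) : S_GC4 := by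
  intro P _ M s K _ D N Rs B hB
  obtain ⟨-, -, -, -, -, -, -, -, -, g1, g2⟩ := hGC1 P M s K D N Rs B hB
  obtain ⟨-, -, -, -, d5, -⟩ := hDQ1 P M K
  obtain ⟨q1, q2, -⟩ := hDQ3 P M K
  refine ⟨fun hn d => ?_, fun hres hS hO => ?_⟩
  · have h : IsEmpty {W : Submodule K N.T // N.St W ∧ N.Res Rs B W ∧
        ∀ p, N.toRp.dmS W p = d p} := ⟨fun W => g2 hn W.1 W.2.1 W.2.2.1⟩
    exact Nat.card_of_isEmpty
  · obtain ⟨g3, g4⟩ := g1 hres
    refine ⟨fun d hd => ?_, fun d hd => ?_⟩
    · have hmap : ∀ V : Submodule K (N.subq (N.gen B) (N.cog Rs B) hS hO).T,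
          N.gen B ≤ (((V.comap ((N.gen B).comap (N.cog Rs B).subtype).mkQ :
            Submodule K (N.cog Rs B))).map (N.cog Rs B).subtype) := by
        intro V x hx
        refine ⟨⟨x, g4 hx⟩, ?_, rfl⟩
        show ((N.gen B).comap (N.cog Rs B).subtype).mkQ ⟨x, g4 hx⟩ ∈ V
        have h1 : ((N.gen B).comap (N.cog Rs B).subtype).mkQ ⟨x, g4 hx⟩ = 0 :=
          (Submodule.Quotient.mk_eq_zero _).2 hx
        rw [h1]
        exact V.zero_mem
      have hmapO : ∀ V : Submodule K (N.subq (N.gen B) (N.cog Rs B) hS hO).T,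
          (((V.comap ((N.gen B).comap (N.cog Rs B).subtype).mkQ :
            Submodule K (N.cog Rs B))).map (N.cog Rs B).subtype) ≤ N.cog Rs B := by
        intro V x hx
        obtain ⟨y, -, rfl⟩ := hx
        exact y.2
      have hdim : ∀ (V : Submodule K (N.subq (N.gen B) (N.cog Rs B) hS hO).T) (p : P),
          (N.subq (N.gen B) (N.cog Rs B) hS hO).toRp.dmS V p + N.toRp.dmS (N.gen B) p =
          N.toRp.dmS (((V.comap ((N.gen B).comap (N.cog Rs B).subtype).mkQ :
            Submodule K (N.cog Rs B))).map (N.cog Rs B).subtype) p := by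
        intro V p
        have h1 := q1 (N.toRp.sub (N.cog Rs B) hO.1) ((N.gen B).comap (N.cog Rs B).subtype)
          (Rp.St.comap hO.1 hS.1) V p
        have h2 := q2 N.toRp (N.cog Rs B) hO.1 ((N.gen B).comap (N.cog Rs B).subtype) p
        have h3 := q2 N.toRp (N.cog Rs B) hO.1
          (V.comap ((N.gen B).comap (N.cog Rs B).subtype).mkQ) p
        have h4 : ((N.gen B).comap (N.cog Rs B).subtype).map (N.cog Rs B).subtype = N.gen B := by
          rw [Submodule.map_comap_subtype, inf_eq_right.2 g4]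
        have h5 : (N.toRp.sub (N.cog Rs B) hO.1).dmS ((N.gen B).comap (N.cog Rs B).subtype) p =
            N.toRp.dmS (N.gen B) p := by
          rw [h2]
          exact congrArg (fun W => N.toRp.dmS W p) h4
        rw [h5] at h1
        exact h1.trans h3
      symm
      refine Nat.card_eq_of_bijective (fun V : {V : Submodule K
        (N.subq (N.gen B) (N.cog Rs B) hS hO).T // (N.subq (N.gen B) (N.cog Rs B) hS hO).St V ∧
        ∀ p, (N.subq (N.gen B) (N.cog Rs B) hS hO).toRp.dmS V p =
          d p - N.toRp.dmS (N.gen B) p} => (⟨((V.1.comap ((N.gen B).comap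
            (N.cog Rs B).subtype).mkQ : Submodule K (N.cog Rs B))).map (N.cog Rs B).subtype,
            (GC4_st N _ _ hS hO V.1).1 V.2.1, ?_, ?_⟩ : {W : Submodule K N.T // N.St W ∧
              N.Res Rs B W ∧ ∀ p, N.toRp.dmS W p = d p})) ⟨?_, ?_⟩
      · exact (g3 _ ((GC4_st N _ _ hS hO V.1).1 V.2.1)).2 ⟨hmap V.1, hmapO V.1⟩
      · intro p
        rw [← hdim V.1 p, V.2.2 p]
        exact Nat.sub_add_cancel (hd p)
      · intro V V' hVV
        have h1 := congrArg Subtype.val hVV
        have h2 := Submodule.map_injective_of_injective (N.cog Rs B).injective_subtype h1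
        have h3 := Submodule.comap_injective_of_surjective
          ((N.gen B).comap (N.cog Rs B).subtype).mkQ_surjective h2
        exact Subtype.ext h3
      · rintro ⟨W, hW, hWR, hWd⟩
        obtain ⟨w1, w2⟩ := (g3 W hW).1 hWR
        have h1 : (((W.comap (N.cog Rs B).subtype).map ((N.gen B).comap
            (N.cog Rs B).subtype).mkQ).comap ((N.gen B).comap (N.cog Rs B).subtype).mkQ :
            Submodule K (N.cog Rs B)) = W.comap (N.cog Rs B).subtype := by
          rw [Submodule.comap_map_mkQ]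
          exact sup_eq_right.2 (Submodule.comap_mono w1)
        have h2 : ((((W.comap (N.cog Rs B).subtype).map ((N.gen B).comap
            (N.cog Rs B).subtype).mkQ).comap ((N.gen B).comap (N.cog Rs B).subtype).mkQ :
            Submodule K (N.cog Rs B))).map (N.cog Rs B).subtype = W := by
          rw [h1, Submodule.map_comap_subtype, inf_eq_right.2 w2]
        have h3 : (N.subq (N.gen B) (N.cog Rs B) hS hO).St
            ((W.comap (N.cog Rs B).subtype).map ((N.gen B).comap
            (N.cog Rs B).subtype).mkQ) := by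
          rw [GC4_st]
          have h4 : N.St W := hW
          rw [← h2] at h4
          exact h4
        refine ⟨⟨(W.comap (N.cog Rs B).subtype).map ((N.gen B).comap
            (N.cog Rs B).subtype).mkQ, h3, ?_⟩, ?_⟩
        · intro p
          have h5 := hdim ((W.comap (N.cog Rs B).subtype).map ((N.gen B).comap
            (N.cog Rs B).subtype).mkQ) p
          have h6 := congrArg (fun W => N.toRp.dmS W p) h2
          have h8 : N.toRp.dmS W p = d p := hWd p
          exact Nat.eq_sub_of_add_eq (h5.trans (h6.trans h8))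
        · exact Subtype.ext h2
    · have h : IsEmpty {W : Submodule K N.T // N.St W ∧ N.Res Rs B W ∧
          ∀ p, N.toRp.dmS W p = d p} := by
        refine ⟨fun W => hd fun p => ?_⟩
        rw [← W.2.2.2 p]
        exact d5 N.toRp _ _ ((g3 W.1 W.2.1).1 W.2.2.1).1 p
      exact Nat.card_of_isEmpty

end Pool.Agent.Lib.MP_4c1f79_al
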