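import Pool.Agent.Lib.MP_4c1f79_al.StmA

/-!
# MP_4c1f79_al : first cohomology vanishes for good modules (piece H1)

Proof of `S_H1`: the map `f` is chosen upwards, level by level.
-/

set_option autoImplicit false

namespace Pool.Agent.Lib.MP_4c1f79_al

open Finset Module

/-- A map of diagonal shape commutes with the idempotents. -/
private theorem H1_comm {P : Type} [Fintype P] {M : Mesh P} {K : Type} [Field K] {X Y : Rp M K}
    {f : X.T →ₗ[K] Y.T} (hf : f ∈ shp X Y (fun p q => p = q)) (q : P) (x : X.T) :
    Y.e q (f x) = f (X.e q x) := by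
  classical
  have h1 : Y.e q (f x) = Y.e q (f (X.e q x)) := by
    conv_lhs => rw [← X.e_sum x]
    rw [map_sum, map_sum]
    rw [Finset.sum_eq_single q]
    · intro p _ hpq
      exact hf p q hpq x
    · intro h
      exact absurd (Finset.mem_univ q) h
  have h2 : f (X.e q x) = Y.e q (f (X.e q x)) := by
    conv_lhs => rw [← Y.e_sum (f (X.e q x))]
    rw [Finset.sum_eq_single q]
    · intro p _ hpq
      exact hf q p (fun h => hpq h.symm) x
    · intro h
      exact absurd (Finset.mem_univ q) h
  rw [h1, ← h2]

/-- Two linear maps which agree on all the pieces `X.e q y` agree on `y`. -/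
private theorem H1_ext {P : Type} [Fintype P] {M : Mesh P} {K : Type} [Field K] {X Y : Rp M K}
    (f f' : X.T →ₗ[K] Y.T) (y : X.T) (h : ∀ q, f (X.e q y) = f' (X.e q y)) : f y = f' y := by
  rw [← X.e_sum y, map_sum, map_sum]
  exact Finset.sum_congr rfl fun q _ => h q

/-- Linear lifting. -/
private theorem H1_lift {K V W Z : Type} [Field K] [AddCommGroup V] [Module K V] [AddCommGroup W]
    [Module K W] [AddCommGroup Z] [Module K Z] (L : V →ₗ[K] Z) (B : W →ₗ[K] Z)
    (h : ∀ x, ∃ z, B z = L x) : ∃ t : V →ₗ[K] W, ∀ x, B (t x) = L x := by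
  have hL : ∀ x, L x ∈ LinearMap.range B := by
    intro x
    obtain ⟨z, hz⟩ := h x
    exact ⟨z, hz⟩
  obtain ⟨t, ht⟩ := Module.projective_lifting_property B.rangeRestrict
    (L.codRestrict (LinearMap.range B) hL) B.surjective_rangeRestrict
  refine ⟨t, fun x => ?_⟩
  have h1 := congrArg (fun u : V →ₗ[K] LinearMap.range B => ((u x : LinearMap.range B) : Z)) ht
  exact h1

theorem H1_holds : S_H1 := by
  intro P _ M K _ X Y U hY hX g hg hco
  classical
  have key : ∀ n : ℕ, ∃ f ∈ shp X Y (fun p q => p = q),
      ∀ p, M.lv p < n → ∀ x, g (X.e p x) = Y.a (f (X.e p x)) - f (X.a (X.e p x)) := by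
    intro n
    induction n with
    | zero => exact ⟨0, Submodule.zero_mem _, fun p h => absurd h (Nat.not_lt_zero _)⟩
    | succ n ih =>
      obtain ⟨f, hf, hfe⟩ := ih
      have hpt : ∀ p, M.lv p = n → ∀ x, ∃ z, Y.e p z = z ∧
          Y.a z = g (X.e p x) + f (X.a (X.e p x)) := by
        intro p hp x
        by_cases hpU : p ∈ U
        · refine hY.2 p hpU _ ?_ ?_
          · intro q hpq
            rw [map_add, hg p q hpq x, H1_comm hf, X.a_ar p q x hpq, map_zero, add_zero]
          · intro r hpr
            have h1 : g (X.a (X.e p x))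
                = Y.a (f (X.a (X.e p x))) - f (X.a (X.a (X.e p x))) := by
              have := H1_ext g (Y.a ∘ₗ f - f ∘ₗ X.a) (X.a (X.e p x)) (by
                intro q
                by_cases hpq : M.Ar p q
                · have hl := M.lv_ar p q hpq
                  rw [hfe q (by omega)]
                  rfl
                · rw [X.a_ar p q x hpq]
                  simp)
              rw [this]
              rfl
            have h2 : Y.a (f (X.a (X.e p x)))
                = g (X.a (X.e p x)) + f (X.a (X.a (X.e p x))) := by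
              rw [h1]; abel
            have h3 : Y.e r (f (X.a (X.a (X.e p x)))) = 0 := by
              rw [H1_comm hf, X.mesh p r x hpr, map_zero]
            have h4 := hco p r hpr x
            rw [map_add] at h4
            rw [map_add, map_add, h2, map_add, h3, add_zero]
            exact h4
        · refine ⟨0, map_zero _, ?_⟩
          rw [hX p hpU x]
          simp
      have hlift : ∀ p, ∃ h : X.T →ₗ[K] Y.T, M.lv p = n → ∀ x,
          Y.a (Y.e p (h x)) = g (X.e p x) + f (X.a (X.e p x)) := by
        intro p
        by_cases hp : M.lv p = n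
        · obtain ⟨t, ht⟩ := H1_lift (g ∘ₗ X.e p + f ∘ₗ X.a ∘ₗ X.e p) (Y.a ∘ₗ Y.e p) (by
            intro x
            obtain ⟨z, hz1, hz2⟩ := hpt p hp x
            refine ⟨z, ?_⟩
            show Y.a (Y.e p z) = g (X.e p x) + f (X.a (X.e p x))
            rw [hz1, hz2])
          exact ⟨t, fun _ x => ht x⟩
        · exact ⟨0, fun h => absurd h hp⟩
      choose h hh using hlift
      set f' : X.T →ₗ[K] Y.T :=
        ∑ q, (if M.lv q = n then Y.e q ∘ₗ h q ∘ₗ X.e q else f ∘ₗ X.e q) with hf'
      have hval : ∀ p x, f' (X.e p x)
          = if M.lv p = n then Y.e p (h p (X.e p x)) else f (X.e p x) := by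
        intro p x
        rw [hf', LinearMap.sum_apply, Finset.sum_eq_single p]
        · split_ifs
          · show Y.e p (h p (X.e p (X.e p x))) = _
            rw [X.e_e]
          · show f (X.e p (X.e p x)) = _
            rw [X.e_e]
        · intro q _ hqp
          split_ifs
          · show Y.e q (h q (X.e q (X.e p x))) = _
            rw [X.e_ne q p x hqp, map_zero, map_zero]
          · show f (X.e q (X.e p x)) = _
            rw [X.e_ne q p x hqp, map_zero]
        · intro hp
          exact absurd (Finset.mem_univ p) hp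
      have hval' : ∀ p, M.lv p < n + 1 → ∀ x, f' (X.a (X.e p x)) = f (X.a (X.e p x)) := by
        intro p hp x
        refine H1_ext f' f _ ?_
        intro q
        by_cases hpq : M.Ar p q
        · have hl := M.lv_ar p q hpq
          rw [hval, if_neg (by omega)]
        · rw [X.a_ar p q x hpq, map_zero, map_zero]
      refine ⟨f', ?_, ?_⟩
      · intro p q hpq x
        rw [hval]
        split_ifs
        · exact Y.e_ne q p _ (fun h => hpq h.symm)
        · exact hf p q hpq x
      · intro p hp x
        rw [hval' p hp x, hval]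
        split_ifs with hpn
        · rw [hh p hpn, X.e_e]
          abel
        · exact hfe p (by omega) x
  obtain ⟨f, hf, hfe⟩ := key ((∑ p, M.lv p) + 1)
  refine ⟨f, hf, fun x => ?_⟩
  have := H1_ext g (Y.a ∘ₗ f - f ∘ₗ X.a) x (by
    intro q
    have hl : M.lv q ≤ ∑ p, M.lv p :=
      Finset.single_le_sum (f := fun p => M.lv p) (fun _ _ => Nat.zero_le _) (Finset.mem_univ q)
    rw [hfe q (by omega)]
    rfl)
  rw [this]
  rfl

end Pool.Agent.Lib.MP_4c1f79_al
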