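import Pool.Agent.Lib.MP_4c1f79_al.StmA

/-!
# MP_4c1f79_al, piece [H1Q]: first cohomology with values in a quotient of a good module
-/

set_option autoImplicit false

namespace Pool.Agent.Lib.MP_4c1f79_al

open Finset Module

theorem H1Q_holds (hH2 : S_H2) (hH1 : S_H1) (hDQ1 : S_DQ1) : S_H1Q := by
  classical
  intro P _ M K _ X Y U hY hX hside W hW g hg hco
  -- a linear section of the quotient map
  obtain ⟨σ, hσ⟩ := W.mkQ.exists_rightInverse_of_surjective
    (LinearMap.range_eq_top.2 W.mkQ_surjective)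
  have hσ' : ∀ y, W.mkQ (σ y) = y := fun y => LinearMap.congr_fun hσ y
  -- the lift along the arrows
  let g' : X.T →ₗ[K] Y.T :=
    ∑ p, ∑ q, if M.Ar p q then (Y.e q) ∘ₗ σ ∘ₗ g ∘ₗ (X.e p) else 0
  have g'_apply : ∀ x, g' x = ∑ p, ∑ q, if M.Ar p q then Y.e q (σ (g (X.e p x))) else 0 := by
    intro x
    simp only [g', LinearMap.sum_apply]
    refine sum_congr rfl fun p _ => sum_congr rfl fun q _ => ?_
    split_ifs <;> rfl
  have g'_shp : g' ∈ shp X Y M.Ar := by
    intro p q hpq x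
    rw [g'_apply, map_sum]
    refine sum_eq_zero fun p' _ => ?_
    rw [map_sum]
    refine sum_eq_zero fun q' _ => ?_
    split_ifs with h
    · by_cases hp : p' = p
      · subst hp
        have hq : q ≠ q' := by
          rintro rfl
          exact hpq h
        exact Y.e_ne _ _ _ hq
      · have h3 : g (X.e p' (X.e p x)) = 0 := by rw [X.e_ne _ _ _ hp, map_zero]
        have h4 : σ (g (X.e p' (X.e p x))) = 0 := (congrArg σ h3).trans (map_zero σ)
        rw [h4, map_zero, map_zero]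
    · exact map_zero _
  have qe : ∀ p y, (Y.quo W hW).e p (W.mkQ y) = W.mkQ (Y.e p y) := fun p y => rfl
  have qa : ∀ y, (Y.quo W hW).a (W.mkQ y) = W.mkQ (Y.a y) := fun y => rfl
  have g'_q : ∀ x, W.mkQ (g' x) = g x := by
    intro x
    have h1 : g x = ∑ p, ∑ q, (Y.quo W hW).e q (g (X.e p x)) := by
      conv_lhs => rw [← X.e_sum x, map_sum]
      refine sum_congr rfl fun p _ => ?_
      exact ((Y.quo W hW).e_sum _).symm
    rw [h1, g'_apply, map_sum]
    refine sum_congr rfl fun p _ => ?_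
    rw [map_sum]
    refine sum_congr rfl fun q _ => ?_
    split_ifs with h
    · exact congrArg ((Y.quo W hW).e q) (hσ' (g (X.e p x)))
    · rw [map_zero]
      exact (hg p q h x).symm
  let mk : Y.T → (Y.quo W hW).T := fun y => W.mkQ y
  -- the obstruction
  let h0 : X.T →ₗ[K] Y.T :=
    ∑ p, ∑ r, if M.Tau p r then (Y.e r) ∘ₗ (Y.a ∘ₗ g' + g' ∘ₗ X.a) ∘ₗ (X.e p) else 0
  have h0_apply : ∀ x, h0 x = ∑ p, ∑ r,
      if M.Tau p r then Y.e r (Y.a (g' (X.e p x)) + g' (X.a (X.e p x))) else 0 := by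
    intro x
    simp only [h0, LinearMap.sum_apply]
    refine sum_congr rfl fun p _ => sum_congr rfl fun q _ => ?_
    split_ifs <;> rfl
  have h0_W : ∀ x, h0 x ∈ W := by
    intro x
    rw [h0_apply]
    refine Submodule.sum_mem _ fun p _ => Submodule.sum_mem _ fun r _ => ?_
    split_ifs with h
    · have h1 : (Y.quo W hW).e r ((Y.quo W hW).a (mk (g' (X.e p x)))
          + mk (g' (X.a (X.e p x)))) = 0 :=
        (congrArg₂ (fun y z : (Y.quo W hW).T => (Y.quo W hW).e r ((Y.quo W hW).a y + z))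
          (g'_q (X.e p x)) (g'_q (X.a (X.e p x)))).trans (hco p r h x)
      exact (Submodule.Quotient.mk_eq_zero W).1 h1
    · exact W.zero_mem
  have h0_e : ∀ p r, M.Tau p r → ∀ x, Y.e r (h0 (X.e p x))
      = Y.e r (Y.a (g' (X.e p x)) + g' (X.a (X.e p x))) := by
    intro p r hpr x
    rw [h0_apply, map_sum]
    rw [sum_eq_single p]
    · rw [map_sum, sum_eq_single r]
      · rw [if_pos hpr, X.e_e, Y.e_e]
      · intro r' _ hr'
        split_ifs with h
        · exact Y.e_ne _ _ _ (Ne.symm hr')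
        · simp
      · intro h; exact absurd (mem_univ _) h
    · intro p' _ hp'
      rw [map_sum]
      refine sum_eq_zero fun r' _ => ?_
      split_ifs with h
      · rw [X.e_ne _ _ _ hp']
        simp
      · simp
    · intro h; exact absurd (mem_univ _) h
  obtain ⟨hd1, hd2, hd3, hd4, hd5, hd6⟩ := hDQ1 P M K
  obtain ⟨n, hn, hn2⟩ := hH2 P M K X (Y.sub W hW) (by
    intro p r hpr hsc
    have h1 := hside p r hpr hsc
    have h2 := hd5 Y W ⊤ le_top r
    rw [hd3, h1] at h2
    rw [hd1]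
    omega) (h0.codRestrict W h0_W)
  -- the corrected lift
  let vl : (Y.sub W hW).T →ₗ[K] Y.T := W.subtype
  have se : ∀ p (y : (Y.sub W hW).T), vl ((Y.sub W hW).e p y) = Y.e p (vl y) := fun p y => rfl
  have sa : ∀ (y : (Y.sub W hW).T), vl ((Y.sub W hW).a y) = Y.a (vl y) := fun y => rfl
  have vW : ∀ (y : (Y.sub W hW).T), vl y ∈ W := fun y => Subtype.property (p := fun x => x ∈ W) y
  let g2 : X.T →ₗ[K] Y.T := g' - vl ∘ₗ n
  have g2_apply : ∀ x, g2 x = g' x - vl (n x) := fun x => rfl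
  have g2_shp : g2 ∈ shp X Y M.Ar := by
    intro p q hpq x
    rw [g2_apply, map_sub, g'_shp p q hpq x, ← se, hn p q hpq x, map_zero, sub_zero]
  have g2_co : ∀ p r, M.Tau p r → ∀ x,
      Y.e r (Y.a (g2 (X.e p x)) + g2 (X.a (X.e p x))) = 0 := by
    intro p r hpr x
    have h1 := congrArg vl (hn2 p r hpr x)
    rw [se, se, map_add, sa] at h1
    have h2 : Y.e r (vl ((h0.codRestrict W h0_W) (X.e p x)))
        = Y.e r (Y.a (g' (X.e p x)) + g' (X.a (X.e p x))) := h0_e p r hpr x
    have h1 := h1.trans h2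
    rw [g2_apply, g2_apply, map_sub]
    have e1 : Y.a (g' (X.e p x)) - Y.a (vl (n (X.e p x)))
        + (g' (X.a (X.e p x)) - vl (n (X.a (X.e p x))))
        = (Y.a (g' (X.e p x)) + g' (X.a (X.e p x)))
          - (Y.a (vl (n (X.e p x))) + vl (n (X.a (X.e p x)))) := by abel
    rw [e1, map_sub, h1, sub_self]
  obtain ⟨f, hf, hf2⟩ := hH1 P M K X Y U hY hX g2 g2_shp g2_co
  refine ⟨W.mkQ ∘ₗ f, ?_, ?_⟩
  · intro p q hpq x
    have h2 : W.mkQ (Y.e q (f (X.e p x))) = 0 := by rw [hf p q hpq x, map_zero]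
    exact h2
  · intro x
    have h0' : W.mkQ (vl (n x)) = 0 := (Submodule.Quotient.mk_eq_zero W).2 (vW (n x))
    have h1 : W.mkQ (g2 x) = g x := by
      rw [g2_apply, map_sub, h0', sub_zero]
      exact g'_q x
    have h2 := congrArg W.mkQ (hf2 x)
    rw [h1, map_sub] at h2
    exact h2

end Pool.Agent.Lib.MP_4c1f79_al
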