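import Pool.Agent.Lib.MP_4c1f79_al.StmA

/-!
# MP_4c1f79_al : piece H2
-/

set_option autoImplicit false

namespace Pool.Agent.Lib.MP_4c1f79_al

open Finset Module

private theorem h2_ext {K V V' W : Type} [Field K] [AddCommGroup V] [Module K V]
    [AddCommGroup V'] [Module K V'] [AddCommGroup W] [Module K W] (f : V →ₗ[K] V')
    (θ : V →ₗ[K] W) (hk : ∀ x, f x = 0 → θ x = 0) : ∃ L : V' →ₗ[K] W, ∀ x, L (f x) = θ x := by
  have hle : LinearMap.ker f ≤ LinearMap.ker θ := fun x hx => by
    rw [LinearMap.mem_ker] at hx ⊢
    exact hk x hx
  obtain ⟨L, hL⟩ := LinearMap.exists_extend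
    (((LinearMap.ker f).liftQ θ hle).comp f.quotKerEquivRange.symm.toLinearMap)
  refine ⟨L, fun x => ?_⟩
  have h1 := LinearMap.congr_fun hL ⟨f x, LinearMap.mem_range_self f x⟩
  have h2 : f.quotKerEquivRange.symm ⟨f x, LinearMap.mem_range_self f x⟩
      = (LinearMap.ker f).mkQ x := by
    rw [LinearEquiv.symm_apply_eq]
    rfl
  have h3 : L (f x) = (LinearMap.ker f).liftQ θ hle
      (f.quotKerEquivRange.symm ⟨f x, LinearMap.mem_range_self f x⟩) := h1
  rw [h3, h2]
  rfl

section

variable {P : Type} [Fintype P] {M : Mesh P} {K : Type} [Field K]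

private theorem h2_sum (R : Rp M K) (x : R.T) (p : P) (f : P → R.T →ₗ[K] R.T)
    (hf : ∀ q, ¬ M.Ar p q → R.e q x = 0) (S : Finset P) (hS : ∀ q, M.Ar p q → q ∈ S) :
    ∑ q ∈ S, R.e q x = x := by
  classical
  have h1 : ∑ q ∈ S, R.e q x = ∑ q, R.e q x := by
    refine Finset.sum_subset (Finset.subset_univ S) ?_
    intro q _ hq
    exact hf q fun h => hq (hS q h)
  rw [h1, R.e_sum]

end

theorem H2_holds : S_H2 := by
  classical
  intro P _ M K _ X Z hZ h
  -- downward induction on the level
  have key : ∀ k n : ℕ, (∑ p, M.lv p) + 1 ≤ n + k → ∃ g ∈ shp X Z M.Ar, ∀ p r, M.Tau p r →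
      n ≤ M.lv p → ∀ x,
      Z.e r (Z.a (g (X.e p x)) + g (X.a (X.e p x))) = Z.e r (h (X.e p x)) := by
    intro k
    induction k with
    | zero =>
      intro n hn
      refine ⟨0, Submodule.zero_mem _, ?_⟩
      intro p r _ hp
      have h1 : M.lv p ≤ ∑ p, M.lv p := Finset.single_le_sum (fun _ _ => Nat.zero_le _)
        (Finset.mem_univ p)
      omega
    | succ k ih =>
      intro n hn
      obtain ⟨g, hg, hge⟩ := ih (n + 1) (by omega)
      -- the defect
      have hL : ∀ p r, ∃ L : X.T →ₗ[K] Z.T, M.Tau p r → ∀ x, L (X.a (X.e p x)) =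
          Z.e r (h (X.e p x)) - Z.e r (Z.a (g (X.e p x)) + g (X.a (X.e p x))) := by
        intro p r
        by_cases hpr : M.Tau p r
        · obtain ⟨L, hL⟩ := h2_ext (X.a.comp (X.e p))
            ((Z.e r).comp (h.comp (X.e p)) -
              (Z.e r).comp (Z.a.comp (g.comp (X.e p)) + g.comp (X.a.comp (X.e p)))) (by
              intro x hx
              by_cases hs : X.sc p = 0
              · have h1 : (LinearMap.range (X.e p) ⊓ LinearMap.ker X.a :
                    Submodule K X.T) = ⊥ := by
                  unfold Rp.sc at hs
                  exact Submodule.finrank_eq_zero.1 hs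
                have h2 : X.e p x ∈ (LinearMap.range (X.e p) ⊓ LinearMap.ker X.a :
                    Submodule K X.T) := ⟨⟨x, rfl⟩, hx⟩
                rw [h1, Submodule.mem_bot] at h2
                simp [h2]
              · have h1 := hZ p r hpr hs
                have h2 : ∀ y, Z.e r y = 0 := by
                  intro y
                  unfold Rp.dm at h1
                  have h3 := Submodule.finrank_eq_zero.1 h1
                  have h4 : Z.e r y ∈ LinearMap.range (Z.e r) := ⟨y, rfl⟩
                  rw [h3, Submodule.mem_bot] at h4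
                  exact h4
                simp [h2])
          refine ⟨L, fun _ x => ?_⟩
          exact hL x
        · exact ⟨0, fun h1 => absurd h1 hpr⟩
      choose L hL using hL
      let Δ : X.T →ₗ[K] Z.T := ∑ p, ∑ r, if M.Tau p r ∧ M.lv p = n then
        (Z.e r).comp ((L p r).comp (∑ q ∈ Finset.univ.filter (fun q => M.Ar p q), X.e q)) else 0
      have hΔ : ∀ x, Δ x = ∑ p, ∑ r, if M.Tau p r ∧ M.lv p = n then
          Z.e r (L p r (∑ q ∈ Finset.univ.filter (fun q => M.Ar p q), X.e q x)) else 0 := by
        intro x
        simp only [Δ, LinearMap.sum_apply]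
        refine Finset.sum_congr rfl fun p _ => Finset.sum_congr rfl fun r _ => ?_
        split_ifs
        · rw [LinearMap.comp_apply, LinearMap.comp_apply, LinearMap.sum_apply]
        · rfl
      -- `Δ` has the right shape
      have hΔs : Δ ∈ shp X Z M.Ar := by
        intro q r hqr x
        rw [hΔ, map_sum]
        refine Finset.sum_eq_zero fun p _ => ?_
        rw [map_sum]
        refine Finset.sum_eq_zero fun r' _ => ?_
        split_ifs with hc
        · by_cases hr : r' = r
          · subst hr
            have h1 : ∑ q' ∈ Finset.univ.filter (fun q' => M.Ar p q'), X.e q' (X.e q x) = 0 := by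
              refine Finset.sum_eq_zero fun q' hq' => ?_
              rw [Finset.mem_filter] at hq'
              by_cases hqq : q' = q
              · subst hqq
                exact absurd ((M.mesh_ar p r' q' hc.1).1 hq'.2) hqr
              · exact X.e_ne q' q x hqq
            rw [h1]
            simp
          · exact Z.e_ne r r' _ (fun h1 => hr h1.symm)
        · simp
      -- `Δ` vanishes on the positions of level other than `n - 1`
      have hΔ0 : ∀ q x, M.lv q + 1 ≠ n → Δ (X.e q x) = 0 := by
        intro q x hq
        rw [hΔ]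
        refine Finset.sum_eq_zero fun p _ => Finset.sum_eq_zero fun r _ => ?_
        split_ifs with hc
        · have h1 : ∑ q' ∈ Finset.univ.filter (fun q' => M.Ar p q'), X.e q' (X.e q x) = 0 := by
            refine Finset.sum_eq_zero fun q' hq' => ?_
            rw [Finset.mem_filter] at hq'
            by_cases hqq : q' = q
            · subst hqq
              have h2 := M.lv_ar p q' hq'.2
              omega
            · exact X.e_ne q' q x hqq
          rw [h1]
          simp
        · rfl
      have hsupp : ∀ p x, ∑ q ∈ Finset.univ.filter (fun q => M.Ar p q), X.e q (X.a (X.e p x))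
          = X.a (X.e p x) := by
        intro p x
        refine h2_sum X (X.a (X.e p x)) p (fun _ => 0) (fun q hq => X.a_ar p q x hq) _ ?_
        intro q hq
        rw [Finset.mem_filter]
        exact ⟨Finset.mem_univ q, hq⟩
      refine ⟨g + Δ, Submodule.add_mem _ hg hΔs, ?_⟩
      intro p r hpr hnp x
      have hp0 : Δ (X.e p x) = 0 := hΔ0 p x (by omega)
      rw [LinearMap.add_apply, LinearMap.add_apply, hp0, add_zero]
      by_cases hnp' : n + 1 ≤ M.lv p
      · have h1 : Δ (X.a (X.e p x)) = 0 := by
          rw [← hsupp p x, map_sum]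
          refine Finset.sum_eq_zero fun q hq => ?_
          rw [Finset.mem_filter] at hq
          have h2 := M.lv_ar p q hq.2
          exact hΔ0 q _ (by omega)
        rw [h1, add_zero]
        exact hge p r hpr hnp' x
      · have hn' : M.lv p = n := by omega
        have h1 : Z.e r (Δ (X.a (X.e p x))) = Z.e r (L p r (X.a (X.e p x))) := by
          rw [hΔ, map_sum, Finset.sum_eq_single p]
          · rw [map_sum, Finset.sum_eq_single r]
            · rw [if_pos ⟨hpr, hn'⟩, Z.e_e, hsupp]
            · intro r' _ hr'
              split_ifs with hc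
              · exact Z.e_ne r r' _ (fun h2 => hr' h2.symm)
              · simp
            · intro h2
              exact absurd (Finset.mem_univ r) h2
          · intro p' _ hp'
            rw [map_sum]
            refine Finset.sum_eq_zero fun r' _ => ?_
            split_ifs with hc
            · by_cases hr : r' = r
              · subst hr
                exact absurd (M.tau_inj p' p r' hc.1 hpr) hp'
              · exact Z.e_ne r r' _ (fun h2 => hr h2.symm)
            · simp
          · intro h2
            exact absurd (Finset.mem_univ p) h2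
        have h3 : Z.e r (L p r (X.a (X.e p x))) =
            Z.e r (h (X.e p x)) - Z.e r (Z.a (g (X.e p x)) + g (X.a (X.e p x))) := by
          rw [hL p r hpr x, map_sub, Z.e_e, Z.e_e]
        rw [← add_assoc, map_add, h1, h3]
        abel
  obtain ⟨g, hg, hge⟩ := key (∑ p, M.lv p + 1) 0 (by omega)
  exact ⟨g, hg, fun p r hpr x => hge p r hpr (Nat.zero_le _) x⟩

end Pool.Agent.Lib.MP_4c1f79_al
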