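import Pool.Agent.Lib.MP_4c1f79_al.StmA

/-! Piece `HD` of project J4. -/

set_option autoImplicit false

namespace Pool.Agent.Lib.MP_4c1f79_al

theorem HD_holds (hEUL : S_EUL) (hH1Q : S_H1Q) (hH2 : S_H2) (hDQ1 : S_DQ1) : S_HD := by
  intro P _ M K _ X Y U hG hS hT W hW
  have hdm : ∀ p, (Y.quo W hW).dm p + Y.dmS W p = Y.dm p := (hDQ1 P M K).2.1 Y W hW
  have h := hEUL P M K X (Y.quo W hW) (hH1Q P M K X Y U hG hS hT W hW)
    (hH2 P M K X (Y.quo W hW) (fun p r hpr hsc => by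
      have h1 := hdm r
      have h2 := hT p r hpr hsc
      omega))
  rw [h]
  unfold eulN
  congr 1
  funext p
  have h1 := hdm p
  omega

end Pool.Agent.Lib.MP_4c1f79_al
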