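import Pool.Agent.Lib.MP_4c1f79_al.StmA

/-!
# [HF] The number of `F`-morphisms
-/

set_option autoImplicit false

namespace Pool.Agent.Lib.MP_4c1f79_al

open Finset Module

namespace HFp

variable {P : Type} [Fintype P] {M : Mesh P} {s : Equiv.Perm P} {K : Type} [Field K] {D : Fd K}

/-- the inverse of `F` -/
def inv (X : FM M s K D) (x : X.T) : X.T := (⇑X.F)^[D.r - 1] x

theorem F_inv (X : FM M s K D) (x : X.T) : X.F (inv X x) = x := by
  have h1 : X.F (inv X x) = (⇑X.F)^[D.r] x := by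
    unfold inv
    rw [← Function.iterate_succ_apply' (⇑X.F) (D.r - 1) x]
    congr 1
    have := D.r_pos
    omega
  rw [h1, X.F_r]

theorem inv_F (X : FM M s K D) (x : X.T) : inv X (X.F x) = x := by
  have h1 : inv X (X.F x) = (⇑X.F)^[D.r] x := by
    unfold inv
    rw [← Function.iterate_succ_apply (⇑X.F) (D.r - 1) x]
    congr 1
    have := D.r_pos
    omega
  rw [h1, X.F_r]

theorem F_inj (X : FM M s K D) {x y : X.T} (h : X.F x = X.F y) : x = y := by
  rw [← inv_F X x, h, inv_F]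

theorem inv_add (X : FM M s K D) (x y : X.T) : inv X (x + y) = inv X x + inv X y := by
  apply F_inj X
  rw [map_add, F_inv, F_inv, F_inv]

theorem inv_smul (X : FM M s K D) (c : K) (x : X.T) :
    inv X (c • x) = D.φ.symm c • inv X x := by
  apply F_inj X
  rw [X.F.map_smulₛₗ, F_inv, F_inv]
  simp

theorem inv_e (X : FM M s K D) (p : P) (x : X.T) :
    inv X (X.e p x) = X.e (s.symm p) (inv X x) := by
  apply F_inj X
  rw [F_inv, X.F_e, F_inv, Equiv.apply_symm_apply]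

theorem inv_a (X : FM M s K D) (x : X.T) : inv X (X.a x) = X.a (inv X x) := by
  apply F_inj X
  rw [F_inv, X.F_a, F_inv]

/-- conjugation of a linear map -/
def cj (X Y : FM M s K D) (f : X.T →ₗ[K] Y.T) : X.T →ₗ[K] Y.T where
  toFun x := Y.F (f (inv X x))
  map_add' x y := by rw [inv_add, map_add, map_add]
  map_smul' c x := by
    rw [inv_smul, map_smul, Y.F.map_smulₛₗ]
    simp

theorem cj_apply (X Y : FM M s K D) (f : X.T →ₗ[K] Y.T) (x : X.T) :
    cj X Y f x = Y.F (f (inv X x)) := rfl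

theorem cj_mem (X Y : FM M s K D) (f : X.T →ₗ[K] Y.T) (hf : f ∈ Rp.Hm X.toRp Y.toRp) :
    cj X Y f ∈ Rp.Hm X.toRp Y.toRp := by
  refine ⟨fun p x => ?_, fun x => ?_⟩
  · have h1 : cj X Y f (X.e p x) = Y.F (f (inv X (X.e p x))) := rfl
    have h2 : cj X Y f x = Y.F (f (inv X x)) := rfl
    have h3 : f (X.e (s.symm p) (inv X x)) = Y.e (s.symm p) (f (inv X x)) := hf.1 _ _
    rw [h1, h2, inv_e, h3, Y.F_e, Equiv.apply_symm_apply]
  · have h1 : cj X Y f (X.a x) = Y.F (f (inv X (X.a x))) := rfl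
    have h2 : cj X Y f x = Y.F (f (inv X x)) := rfl
    have h3 : f (X.a (inv X x)) = Y.a (f (inv X x)) := hf.2 _
    rw [h1, h2, inv_a, h3, Y.F_a]

/-- the semilinear map on the morphisms -/
def G (X Y : FM M s K D) :
    Rp.Hm X.toRp Y.toRp →ₛₗ[(D.φ : K →+* K)] Rp.Hm X.toRp Y.toRp where
  toFun f := ⟨cj X Y f.1, cj_mem X Y f.1 f.2⟩
  map_add' f g := by
    apply Subtype.ext
    apply LinearMap.ext
    intro x
    have h1 : cj X Y (f.1 + g.1) x = cj X Y f.1 x + cj X Y g.1 x := by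
      rw [cj_apply, cj_apply, cj_apply, LinearMap.add_apply, map_add]
    exact h1
  map_smul' c f := by
    apply Subtype.ext
    apply LinearMap.ext
    intro x
    have h1 : cj X Y (c • f.1) x = (D.φ : K →+* K) c • cj X Y f.1 x := by
      rw [cj_apply, cj_apply, LinearMap.smul_apply, Y.F.map_smulₛₗ]
    exact h1

theorem G_iter (X Y : FM M s K D) (n : ℕ) (f : Rp.Hm X.toRp Y.toRp) (x : X.T) :
    (((⇑(G X Y))^[n] f).1) ((⇑X.F)^[n] x) = (⇑Y.F)^[n] (f.1 x) := by
  induction n with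
  | zero => rfl
  | succ n ih =>
    rw [Function.iterate_succ_apply', Function.iterate_succ_apply', Function.iterate_succ_apply',
      ← ih]
    have h1 : (G X Y ((⇑(G X Y))^[n] f)).1 (X.F ((⇑X.F)^[n] x))
        = Y.F (((⇑(G X Y))^[n] f).1 (inv X (X.F ((⇑X.F)^[n] x)))) := rfl
    rw [h1, inv_F]

theorem G_r (X Y : FM M s K D) (f : Rp.Hm X.toRp Y.toRp) : (⇑(G X Y))^[D.r] f = f := by
  apply Subtype.ext
  apply LinearMap.ext
  intro x
  have h1 := G_iter X Y D.r f x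
  rw [X.F_r, Y.F_r] at h1
  exact h1

/-- the fixed points of `G` are the `F`-morphisms -/
def fixE (X Y : FM M s K D) : {f : Rp.Hm X.toRp Y.toRp // G X Y f = f} ≃ FM.HmF X Y where
  toFun f := ⟨f.1.1, f.1.2, fun x => by
    have h1 : (G X Y f.1).1 (X.F x) = f.1.1 (X.F x) := by rw [f.2]
    have h2 : (G X Y f.1).1 (X.F x) = Y.F (f.1.1 (inv X (X.F x))) := rfl
    rw [inv_F] at h2
    rw [← h1, h2]⟩
  invFun f := ⟨⟨f.1, f.2.1⟩, by
    apply Subtype.ext
    apply LinearMap.ext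
    intro x
    have h1 : (G X Y ⟨f.1, f.2.1⟩).1 x = Y.F (f.1 (inv X x)) := rfl
    rw [h1, ← f.2.2, F_inv]⟩
  left_inv _ := rfl
  right_inv _ := rfl

end HFp

theorem HF_holds (hDES : S_DES) : S_HF := by
  intro P _ M s K _ D X Y
  have hfin : Finite (X.T →ₗ[K] Y.T) := DFunLike.finite _
  have h1 := (hDES K D (Rp.Hm X.toRp Y.toRp) (HFp.G X Y) (HFp.G_r X Y)).1
  rw [← h1]
  exact (Nat.card_congr (HFp.fixE X Y)).symm

end Pool.Agent.Lib.MP_4c1f79_al
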