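import Pool.Agent.Lib.MP_4c1f79_al.StmG2

/-!
# MP_4c1f79_al : the number of stable hyperplanes (S_HYP)
-/

set_option autoImplicit false

namespace Pool.Agent.Lib.MP_4c1f79_al

open Finset Module

theorem HYP_holds (hLIN : S_LIN) : S_HYP := by
  intro K _ D V _ _ _ G hG
  classical
  have hK : Finite K := by
    apply Nat.finite_of_card_ne_zero
    rw [D.card_K]
    exact pow_ne_zero _ (by have := D.q_gt; omega)
  obtain ⟨n, hn⟩ : ∃ n, D.r = n + 1 := ⟨D.r - 1, by have := D.r_pos; omega⟩
  have hn' : n.succ = D.r := hn.symm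
  have h1 : ∀ x, G ((⇑G)^[n] x) = x := fun x => by
    rw [← Function.iterate_succ_apply' (⇑G), hn']
    exact hG x
  have h2 : ∀ x, (⇑G)^[n] (G x) = x := fun x => by
    rw [← Function.iterate_succ_apply (⇑G), hn']
    exact hG x
  have hinj : Function.Injective G := Function.LeftInverse.injective h2
  have hadd : ∀ x y, (⇑G)^[n] (x + y) = (⇑G)^[n] x + (⇑G)^[n] y := fun x y =>
    hinj (by rw [h1, map_add, h1, h1])
  have hsmul : ∀ (c : K) x, (⇑G)^[n] (c • x) = D.φ.symm c • (⇑G)^[n] x := fun c x =>
    hinj (by
      rw [h1, G.map_smulₛₗ, h1]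
      exact congrArg (· • x) (D.φ.apply_symm_apply c).symm)
  let Gd : Dual K V → Dual K V := fun f =>
    { toFun := fun x => D.φ (f ((⇑G)^[n] x))
      map_add' := fun x y => by rw [hadd, map_add, map_add]
      map_smul' := fun c x => by
        rw [hsmul, map_smul, smul_eq_mul, map_mul, D.φ.apply_symm_apply]
        rfl }
  let G' : Dual K V →ₛₗ[(D.φ : K →+* K)] Dual K V :=
    { toFun := Gd
      map_add' := fun f g => by
        ext x
        exact map_add D.φ _ _
      map_smul' := fun c f => by
        ext x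
        exact map_mul D.φ _ _ }
  have hGd : ∀ f x, (G' f) x = D.φ (f ((⇑G)^[n] x)) := fun f x => rfl
  have hGG : ∀ f x, (G' f) (G x) = D.φ (f x) := fun f x => by rw [hGd, h2]
  have hit : ∀ (k : ℕ) f x, ((⇑G')^[k] f) ((⇑G)^[k] x) = (⇑D.φ)^[k] (f x) := by
    intro k
    induction k with
    | zero => intro f x; rfl
    | succ k ih =>
      intro f x
      rw [Function.iterate_succ_apply', Function.iterate_succ_apply',
        Function.iterate_succ_apply', hGG, ih]
  have hG'r : ∀ f, (⇑G')^[D.r] f = f := by
    intro f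
    ext x
    have h3 := hit D.r f x
    rw [hG x, D.φ_r] at h3
    exact h3
  have hfd : Finite (Dual K V) :=
    Finite.of_injective (fun f : Dual K V => (f : V → K)) DFunLike.coe_injective
  have key := hLIN K D (Dual K V) G' hG'r
  rw [Subspace.dual_finrank_eq] at key
  rw [← key]
  congr 1
  let E : Submodule K V ≃ Submodule K (Dual K V) :=
    { toFun := fun W => W.dualAnnihilator
      invFun := fun W => W.dualCoannihilator
      left_inv := fun W => Subspace.dualAnnihilator_dualCoannihilator_eq
      right_inv := fun W => Subspace.dualCoannihilator_dualAnnihilator_eq }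
  have hstabit : ∀ (L : Submodule K V), (∀ x ∈ L, G x ∈ L) → ∀ k : ℕ, ∀ x ∈ L,
      (⇑G)^[k] x ∈ L := by
    intro L hL k
    induction k with
    | zero => intro x hx; exact hx
    | succ k ih =>
      intro x hx
      rw [Function.iterate_succ_apply]
      exact ih _ (hL x hx)
  have hstabit' : ∀ (L : Submodule K (Dual K V)), (∀ x ∈ L, G' x ∈ L) → ∀ k : ℕ, ∀ x ∈ L,
      (⇑G')^[k] x ∈ L := by
    intro L hL k
    induction k with
    | zero => intro x hx; exact hx
    | succ k ih =>
      intro x hx
      rw [Function.iterate_succ_apply]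
      exact ih _ (hL x hx)
  refine Nat.card_congr (E.subtypeEquiv fun L => ?_)
  have hdim := Subspace.finrank_add_finrank_dualAnnihilator_eq L
  constructor
  · rintro ⟨h3, h4⟩
    refine ⟨?_, ?_⟩
    · show finrank K L.dualAnnihilator = 1
      omega
    · intro f hf
      show G' f ∈ L.dualAnnihilator
      have hf' : f ∈ L.dualAnnihilator := hf
      rw [Submodule.mem_dualAnnihilator] at hf' ⊢
      intro y hy
      rw [hGd, hf' _ (hstabit L h4 n y hy), map_zero]
  · rintro ⟨h3, h4⟩
    have h3' : finrank K L.dualAnnihilator = 1 := h3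
    refine ⟨by omega, ?_⟩
    intro x hx
    rw [← Subspace.forall_mem_dualAnnihilator_apply_eq_zero_iff]
    intro f hf
    have hg : (⇑G')^[n] f ∈ L.dualAnnihilator := hstabit' L.dualAnnihilator h4 n f hf
    have hgf : G' ((⇑G')^[n] f) = f := by
      rw [← Function.iterate_succ_apply' (⇑G'), hn']
      exact hG'r f
    rw [← hgf, hGG, (Submodule.mem_dualAnnihilator _).1 hg x hx, map_zero]

end Pool.Agent.Lib.MP_4c1f79_al
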