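import Pool.Agent.Lib.MP_4c1f79_al.StmA

/-!
# MP_4c1f79_al, piece ISO: isomorphic `F`-modules have the same invariants
-/

set_option autoImplicit false

namespace Pool.Agent.Lib.MP_4c1f79_al

open Finset Module

namespace PISO

variable {P : Type} [Fintype P] {M : Mesh P} {s : Equiv.Perm P} {K : Type} [Field K] {D : Fd K}

section

variable {X Y : FM M s K D} {f : X.T →ₗ[K] Y.T}

theorem he (hf : f ∈ FM.HmF X Y) (p : P) (x : X.T) : f (X.e p x) = Y.e p (f x) := hf.1.1 p x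

theorem ha (hf : f ∈ FM.HmF X Y) (x : X.T) : f (X.a x) = Y.a (f x) := hf.1.2 x

theorem hF (hf : f ∈ FM.HmF X Y) (x : X.T) : f (X.F x) = Y.F (f x) := hf.2 x

theorem st_iff (hf : f ∈ FM.HmF X Y) (hb : Function.Bijective f) (W : Submodule K X.T) :
    X.St W ↔ Y.St (W.map f) := by
  constructor
  · rintro ⟨⟨h1, h2⟩, h3⟩
    refine ⟨⟨?_, ?_⟩, ?_⟩
    · rintro p _ ⟨x, hx, rfl⟩
      exact ⟨X.e p x, h1 p x hx, he hf p x⟩
    · rintro _ ⟨x, hx, rfl⟩
      exact ⟨X.a x, h2 x hx, ha hf x⟩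
    · rintro _ ⟨x, hx, rfl⟩
      exact ⟨X.F x, h3 x hx, hF hf x⟩
  · rintro ⟨⟨h1, h2⟩, h3⟩
    refine ⟨⟨?_, ?_⟩, ?_⟩
    · intro p x hx
      obtain ⟨y, hy, hxy⟩ := h1 p (f x) ⟨x, hx, rfl⟩
      rw [← he hf] at hxy
      exact hb.1 hxy ▸ hy
    · intro x hx
      obtain ⟨y, hy, hxy⟩ := h2 (f x) ⟨x, hx, rfl⟩
      rw [← ha hf] at hxy
      exact hb.1 hxy ▸ hy
    · intro x hx
      obtain ⟨y, hy, hxy⟩ := h3 (f x) ⟨x, hx, rfl⟩
      rw [← hF hf] at hxy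
      exact hb.1 hxy ▸ hy

theorem fr_map (hb : Function.Bijective f) (W : Submodule K X.T) :
    finrank K (W.map f) = finrank K W :=
  LinearEquiv.finrank_map_eq (LinearEquiv.ofBijective f hb) W

theorem dmS_map (hf : f ∈ FM.HmF X Y) (hb : Function.Bijective f) (W : Submodule K X.T) (p : P) :
    Y.toRp.dmS (W.map f) p = X.toRp.dmS W p := by
  have h1 : (W.map f).map (Y.e p) = (W.map (X.e p)).map f := by
    rw [← Submodule.map_comp, ← Submodule.map_comp]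
    congr 1
    exact LinearMap.ext fun x => (he hf p x).symm
  show finrank K ((W.map f).map (Y.e p)) = finrank K (W.map (X.e p))
  rw [h1, fr_map hb]

theorem dm_eq (hf : f ∈ FM.HmF X Y) (hb : Function.Bijective f) (p : P) :
    X.toRp.dm p = Y.toRp.dm p := by
  have h1 : LinearMap.range (Y.e p) = (LinearMap.range (X.e p)).map f := by
    ext y
    constructor
    · rintro ⟨z, rfl⟩
      obtain ⟨x, rfl⟩ := hb.2 z
      exact ⟨X.e p x, ⟨x, rfl⟩, he hf p x⟩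
    · rintro ⟨_, ⟨x, rfl⟩, rfl⟩
      exact ⟨f x, (he hf p x).symm⟩
  show finrank K (LinearMap.range (X.e p)) = finrank K (LinearMap.range (Y.e p))
  rw [h1, fr_map hb]

theorem sc_eq (hf : f ∈ FM.HmF X Y) (hb : Function.Bijective f) (p : P) :
    X.toRp.sc p = Y.toRp.sc p := by
  have h1 : (LinearMap.range (Y.e p) ⊓ LinearMap.ker Y.a : Submodule K Y.T)
      = (LinearMap.range (X.e p) ⊓ LinearMap.ker X.a : Submodule K X.T).map f := by
    ext y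
    constructor
    · rintro ⟨⟨z, rfl⟩, h2⟩
      obtain ⟨x, rfl⟩ := hb.2 z
      refine ⟨X.e p x, ⟨⟨x, rfl⟩, ?_⟩, he hf p x⟩
      show X.a (X.e p x) = 0
      apply hb.1
      rw [ha hf, he hf, map_zero]
      exact h2
    · rintro ⟨_, ⟨⟨x, rfl⟩, h2⟩, rfl⟩
      refine ⟨⟨f x, (he hf p x).symm⟩, ?_⟩
      show Y.a (f (X.e p x)) = 0
      rw [← ha hf, show X.a (X.e p x) = 0 from h2, map_zero]
  show finrank K (LinearMap.range (X.e p) ⊓ LinearMap.ker X.a : Submodule K X.T)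
    = finrank K (LinearMap.range (Y.e p) ⊓ LinearMap.ker Y.a : Submodule K Y.T)
  rw [h1, fr_map hb]

theorem good (hf : f ∈ FM.HmF X Y) (hb : Function.Bijective f) (U : Set P)
    (h : X.toRp.Good U) : Y.toRp.Good U := by
  refine ⟨?_, ?_⟩
  · intro p hp y
    obtain ⟨x, rfl⟩ := hb.2 y
    rw [← he hf, h.1 p hp, map_zero]
  · intro p hp y h1 h2
    obtain ⟨y, rfl⟩ := hb.2 y
    obtain ⟨x, hx1, hx2⟩ := h.2 p hp y
      (fun q hq => hb.1 (by rw [he hf, map_zero]; exact h1 q hq))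
      (fun r hr => hb.1 (by rw [he hf, ha hf, map_zero]; exact h2 r hr))
    exact ⟨f x, by rw [← he hf, hx1], by rw [← ha hf, hx2]⟩

theorem cnt_eq (hf : f ∈ FM.HmF X Y) (hb : Function.Bijective f) (d : P → ℕ) :
    X.cnt d = Y.cnt d := by
  refine Nat.card_congr (Equiv.subtypeEquiv
    (Submodule.orderIsoMapComap (LinearEquiv.ofBijective f hb)).toEquiv fun W => ?_)
  show (X.St W ∧ ∀ p, X.toRp.dmS W p = d p) ↔
    (Y.St (W.map f) ∧ ∀ p, Y.toRp.dmS (W.map f) p = d p)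
  rw [← st_iff hf hb]
  refine and_congr_right fun _ => forall_congr' fun p => ?_
  rw [dmS_map hf hb]

end

theorem refl (X : FM M s K D) : X.Iso X :=
  ⟨LinearMap.id, ⟨⟨fun _ _ => rfl, fun _ => rfl⟩, fun _ => rfl⟩, Function.bijective_id⟩

theorem symm {X Y : FM M s K D} (h : X.Iso Y) : Y.Iso X := by
  obtain ⟨f, hf, hb⟩ := h
  refine ⟨(LinearEquiv.ofBijective f hb).symm.toLinearMap, ⟨⟨?_, ?_⟩, ?_⟩,
    (LinearEquiv.ofBijective f hb).symm.bijective⟩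
  all_goals
    have h0 : ∀ x : X.T, (LinearEquiv.ofBijective f hb).symm (f x) = x :=
      fun x => (LinearEquiv.ofBijective f hb).symm_apply_apply x
  · intro p y
    obtain ⟨x, rfl⟩ := hb.2 y
    rw [← he hf]
    simp only [LinearEquiv.coe_coe, h0]
  · intro y
    obtain ⟨x, rfl⟩ := hb.2 y
    rw [← ha hf]
    simp only [LinearEquiv.coe_coe, h0]
  · intro y
    obtain ⟨x, rfl⟩ := hb.2 y
    rw [← hF hf]
    simp only [LinearEquiv.coe_coe, h0]

theorem trans {X Y Z : FM M s K D} (h : X.Iso Y) (h' : Y.Iso Z) : X.Iso Z := by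
  obtain ⟨f, hf, hb⟩ := h
  obtain ⟨g, hg, hc⟩ := h'
  refine ⟨g ∘ₗ f, ⟨⟨?_, ?_⟩, ?_⟩, hc.comp hb⟩
  · intro p x
    show g (f (X.e p x)) = Z.e p (g (f x))
    rw [he hf, he hg]
  · intro x
    show g (f (X.a x)) = Z.a (g (f x))
    rw [ha hf, ha hg]
  · intro x
    show g (f (X.F x)) = Z.F (g (f x))
    rw [hF hf, hF hg]

theorem prod {X Y X' Y' : FM M s K D} (h : X.Iso X') (h' : Y.Iso Y') :
    (X.prod Y).Iso (X'.prod Y') := by
  obtain ⟨f, hf, hb⟩ := h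
  obtain ⟨g, hg, hc⟩ := h'
  refine ⟨(f.prodMap g : X.T × Y.T →ₗ[K] X'.T × Y'.T), ⟨⟨?_, ?_⟩, ?_⟩,
    Function.Bijective.prodMap hb hc⟩
  · intro p x
    exact Prod.ext (he hf p x.1) (he hg p x.2)
  · intro x
    exact Prod.ext (ha hf x.1) (ha hg x.2)
  · intro x
    exact Prod.ext (hF hf x.1) (hF hg x.2)

theorem comm (X Y : FM M s K D) : (X.prod Y).Iso (Y.prod X) :=
  ⟨((LinearEquiv.prodComm K X.T Y.T).toLinearMap : X.T × Y.T →ₗ[K] Y.T × X.T),
    ⟨⟨fun _ _ => rfl, fun _ => rfl⟩, fun _ => rfl⟩, (LinearEquiv.prodComm K X.T Y.T).bijective⟩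

theorem assoc (X Y Z : FM M s K D) : ((X.prod Y).prod Z).Iso (X.prod (Y.prod Z)) :=
  ⟨((LinearEquiv.prodAssoc K X.T Y.T Z.T).toLinearMap :
      (X.T × Y.T) × Z.T →ₗ[K] X.T × (Y.T × Z.T)),
    ⟨⟨fun _ _ => rfl, fun _ => rfl⟩, fun _ => rfl⟩,
    (LinearEquiv.prodAssoc K X.T Y.T Z.T).bijective⟩

end PISO

theorem ISO_holds : S_ISO := by
  intro P _ M s K _ D
  refine ⟨?_, PISO.refl, fun _ _ => PISO.symm, fun _ _ _ => PISO.trans,
    fun _ _ _ _ => PISO.prod, PISO.comm, PISO.assoc⟩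
  rintro X Y ⟨f, hf, hb⟩
  exact ⟨PISO.cnt_eq hf hb, PISO.dm_eq hf hb, PISO.sc_eq hf hb, PISO.good hf hb⟩

end Pool.Agent.Lib.MP_4c1f79_al
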