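import Pool.Agent.Lib.MP_4c1f79_al.StmA

/-!
# MP_4c1f79_al : dimension of the space of maps of a given shape (LD)
-/

set_option autoImplicit false

namespace Pool.Agent.Lib.MP_4c1f79_al

open Finset Module

namespace LD

variable {P : Type} [Fintype P] {M : Mesh P} {K : Type} [Field K]

theorem sum_sub {A : Type} [AddCommMonoid A] (S : P → P → Prop)
    [Fintype {i : P × P // S i.1 i.2}] [∀ p q, Decidable (S p q)] (f : P × P → A) :
    ∑ i : {i : P × P // S i.1 i.2}, f i.1 = ∑ i : P × P, if S i.1 i.2 then f i else 0 := by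
  rw [← Finset.sum_filter]
  symm
  apply Finset.sum_subtype
  intro x
  simp

/-- Elements of the range of an idempotent are fixed. -/
theorem e_range (X : Rp M K) (p : P) (x : X.T) (hx : x ∈ LinearMap.range (X.e p)) :
    X.e p x = x := by
  obtain ⟨y, rfl⟩ := hx
  exact X.e_e p y

/-- Elements of the range of another idempotent are killed. -/
theorem e_range_ne (X : Rp M K) (p q : P) (hpq : p ≠ q) (x : X.T)
    (hx : x ∈ LinearMap.range (X.e q)) : X.e p x = 0 := by
  obtain ⟨y, rfl⟩ := hx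
  exact X.e_ne p q y hpq

/-- The components of a map. -/
noncomputable def fw (X Y : Rp M K) (S : P → P → Prop) :
    shp X Y S →ₗ[K] ((i : {i : P × P // S i.1 i.2}) →
      (LinearMap.range (X.e i.1.1) →ₗ[K] LinearMap.range (Y.e i.1.2))) where
  toFun f i := (Y.e i.1.2).rangeRestrict ∘ₗ f.1 ∘ₗ (LinearMap.range (X.e i.1.1)).subtype
  map_add' f g := by
    funext i
    ext x
    simp
  map_smul' c f := by
    funext i
    ext x
    simp

open Classical in
/-- The map with given components. -/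
noncomputable def bw (X Y : Rp M K) (S : P → P → Prop)
    (g : (i : {i : P × P // S i.1 i.2}) →
      (LinearMap.range (X.e i.1.1) →ₗ[K] LinearMap.range (Y.e i.1.2))) : X.T →ₗ[K] Y.T :=
  ∑ i : {i : P × P // S i.1 i.2},
    (LinearMap.range (Y.e i.1.2)).subtype ∘ₗ g i ∘ₗ (X.e i.1.1).rangeRestrict

open Classical in
theorem bw_apply (X Y : Rp M K) (S : P → P → Prop)
    (g : (i : {i : P × P // S i.1 i.2}) →
      (LinearMap.range (X.e i.1.1) →ₗ[K] LinearMap.range (Y.e i.1.2))) (x : X.T) :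
    bw X Y S g x = ∑ i : {i : P × P // S i.1 i.2},
      (g i ⟨X.e i.1.1 x, ⟨x, rfl⟩⟩ : Y.T) := by
  unfold bw
  rw [LinearMap.sum_apply]
  rfl

theorem bw_comp (X Y : Rp M K) (S : P → P → Prop)
    (g : (i : {i : P × P // S i.1 i.2}) →
      (LinearMap.range (X.e i.1.1) →ₗ[K] LinearMap.range (Y.e i.1.2)))
    (j : {i : P × P // S i.1 i.2}) (x : X.T) :
    Y.e j.1.2 (bw X Y S g (X.e j.1.1 x)) = (g j ⟨X.e j.1.1 x, ⟨x, rfl⟩⟩ : Y.T) := by
  classical
  rw [bw_apply, map_sum, Finset.sum_eq_single j]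
  · rw [e_range Y _ _ (g j _).2]
    congr 2
    exact Subtype.ext (X.e_e _ _)
  · intro i _ hij
    by_cases h1 : i.1.1 = j.1.1
    · have h2 : j.1.2 ≠ i.1.2 := by
        intro h2
        exact hij (Subtype.ext (Prod.ext h1 h2.symm))
      exact e_range_ne Y _ _ h2 _ (g i _).2
    · have h3 : (⟨X.e i.1.1 (X.e j.1.1 x), ⟨X.e j.1.1 x, rfl⟩⟩ : LinearMap.range (X.e i.1.1))
          = 0 := Subtype.ext (X.e_ne _ _ _ h1)
      rw [h3, map_zero]
      simp
  · intro h
    exact absurd (Finset.mem_univ _) h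

theorem bw_mem (X Y : Rp M K) (S : P → P → Prop)
    (g : (i : {i : P × P // S i.1 i.2}) →
      (LinearMap.range (X.e i.1.1) →ₗ[K] LinearMap.range (Y.e i.1.2))) :
    bw X Y S g ∈ shp X Y S := by
  classical
  intro p q hpq x
  rw [bw_apply, map_sum]
  apply Finset.sum_eq_zero
  intro i _
  by_cases h1 : i.1.1 = p
  · have h2 : q ≠ i.1.2 := by
      intro h2
      apply hpq
      rw [← h1, h2]
      exact i.2
    exact e_range_ne Y _ _ h2 _ (g i _).2
  · have h3 : (⟨X.e i.1.1 (X.e p x), ⟨X.e p x, rfl⟩⟩ : LinearMap.range (X.e i.1.1))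
        = 0 := Subtype.ext (X.e_ne _ _ _ h1)
    rw [h3, map_zero]
    simp

theorem decomp (X Y : Rp M K) (f : X.T →ₗ[K] Y.T) (x : X.T) :
    f x = ∑ i : P × P, Y.e i.2 (f (X.e i.1 x)) := by
  rw [Fintype.sum_prod_type]
  conv_lhs => rw [← X.e_sum x]
  rw [map_sum]
  apply Finset.sum_congr rfl
  intro p _
  exact (Y.e_sum _).symm

theorem bw_fw (X Y : Rp M K) (S : P → P → Prop) (f : shp X Y S) :
    bw X Y S (fw X Y S f) = f.1 := by
  classical
  ext x
  rw [bw_apply, decomp X Y f.1 x]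
  have h1 : ∀ i : {i : P × P // S i.1 i.2},
      ((fw X Y S f) i ⟨X.e i.1.1 x, ⟨x, rfl⟩⟩ : Y.T) = Y.e i.1.2 (f.1 (X.e i.1.1 x)) := by
    intro i
    rfl
  rw [Finset.sum_congr rfl (fun i _ => h1 i),
    sum_sub S (fun i : P × P => Y.e i.2 (f.1 (X.e i.1 x)))]
  apply Finset.sum_congr rfl
  intro i _
  by_cases h : S i.1 i.2
  · rw [if_pos h]
  · rw [if_neg h, f.2 i.1 i.2 h x]

theorem fw_bw (X Y : Rp M K) (S : P → P → Prop)
    (g : (i : {i : P × P // S i.1 i.2}) →
      (LinearMap.range (X.e i.1.1) →ₗ[K] LinearMap.range (Y.e i.1.2))) :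
    fw X Y S ⟨bw X Y S g, bw_mem X Y S g⟩ = g := by
  funext j
  ext x
  have hx : (x : X.T) = X.e j.1.1 (x : X.T) := (e_range X _ _ x.2).symm
  have h1 : ((fw X Y S ⟨bw X Y S g, bw_mem X Y S g⟩) j x : Y.T)
      = Y.e j.1.2 (bw X Y S g (x : X.T)) := rfl
  rw [h1]
  conv_lhs => rw [hx]
  rw [bw_comp]
  congr 2
  exact Subtype.ext hx.symm

/-- The linear isomorphism with the product of the component spaces. -/
noncomputable def eqv (X Y : Rp M K) (S : P → P → Prop) :
    shp X Y S ≃ₗ[K] ((i : {i : P × P // S i.1 i.2}) →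
      (LinearMap.range (X.e i.1.1) →ₗ[K] LinearMap.range (Y.e i.1.2))) :=
  { fw X Y S with
    invFun := fun g => ⟨bw X Y S g, bw_mem X Y S g⟩
    left_inv := fun f => Subtype.ext (bw_fw X Y S f)
    right_inv := fun g => fw_bw X Y S g }

end LD

theorem LD_holds : S_LD := by
  intro P _ M K _ X Y S _
  classical
  haveI : Module.Finite K X.T := Module.Finite.of_finite
  haveI : Module.Finite K Y.T := Module.Finite.of_finite
  rw [(LD.eqv X Y S).finrank_eq, Module.finrank_pi_fintype]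
  have h1 : ∀ i : {i : P × P // S i.1 i.2},
      finrank K (LinearMap.range (X.e i.1.1) →ₗ[K] LinearMap.range (Y.e i.1.2))
        = X.dm i.1.1 * Y.dm i.1.2 := by
    intro i
    rw [Module.finrank_linearMap]
    rfl
  rw [Finset.sum_congr rfl (fun i _ => h1 i),
    LD.sum_sub S (fun i : P × P => X.dm i.1 * Y.dm i.2), Fintype.sum_prod_type]

end Pool.Agent.Lib.MP_4c1f79_al
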