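import Pool.Agent.Lib.MP_4c1f79_al.StmG2

/-! [J4 LIN] The number of the stable lines. -/

set_option autoImplicit false

namespace Pool.Agent.Lib.MP_4c1f79_al

open Finset Module

private theorem LIN_nz {K : Type} [Field K] {D : Fd K} {V : Type} [AddCommGroup V] [Module K V]
    [Finite V] (G : V →ₛₗ[(D.φ : K →+* K)] V) :
    Nat.card {x : V // G x = x ∧ x ≠ 0} + 1 = Nat.card {x : V // G x = x} := by
  have h1 : ({x : V | G x = x} : Set V) = insert 0 {x : V | G x = x ∧ x ≠ 0} := by
    ext x
    simp only [Set.mem_ofPred_eq, Set.mem_insert_iff]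
    constructor
    · intro h
      by_cases hx : x = 0
      · exact Or.inl hx
      · exact Or.inr ⟨h, hx⟩
    · rintro (h | h)
      · rw [h, map_zero]
      · exact h.1
  have h2 : (0 : V) ∉ {x : V | G x = x ∧ x ≠ 0} := fun h => h.2 rfl
  have h3 : Nat.card {x : V // G x = x} = Set.ncard {x : V | G x = x} :=
    Nat.card_coe_set_eq _
  have h4 : Nat.card {x : V // G x = x ∧ x ≠ 0} = Set.ncard {x : V | G x = x ∧ x ≠ 0} :=
    Nat.card_coe_set_eq _
  rw [h3, h4, h1, Set.ncard_insert_of_notMem h2]

/-- the restriction to a stable subspace -/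
private def LIN_res {K : Type} [Field K] {D : Fd K} {V : Type} [AddCommGroup V] [Module K V]
    (G : V →ₛₗ[(D.φ : K →+* K)] V) (L : Submodule K V) (h : ∀ x ∈ L, G x ∈ L) :
    L →ₛₗ[(D.φ : K →+* K)] L where
  toFun x := ⟨G x.1, h x.1 x.2⟩
  map_smul' c x := Subtype.ext (G.map_smulₛₗ c x.1)
  map_add' x y := Subtype.ext (map_add G x.1 y.1)

theorem LIN_holds (hDES : S_DES) : S_LIN := by
  intro K _ D V _ _ _ G hG
  have hq : 1 ≤ D.q := D.q_gt.le
  let A : Type := {x : V // G x = x ∧ x ≠ 0}
  let B : Type := {L : Submodule K V // finrank K L = 1 ∧ ∀ x ∈ L, G x ∈ L}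
  let f : A → B := fun x => ⟨Submodule.span K {x.1}, finrank_span_singleton x.2.2, by
    intro y hy
    obtain ⟨c, rfl⟩ := Submodule.mem_span_singleton.1 hy
    rw [G.map_smulₛₗ, x.2.1]
    exact Submodule.smul_mem _ _ (Submodule.mem_span_singleton_self _)⟩
  have hfin : Module.Finite K V := Module.Finite.of_finite
  have hfib : ∀ b : B, Nat.card {a : A // f a = b} = D.q - 1 := by
    rintro ⟨L, hL1, hLG⟩
    have h1 := hDES K D L (LIN_res G L hLG) (fun x =>
      Subtype.ext ((FM.iter_coe (⇑G) hLG D.r x).trans (hG x.1)))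
    rw [hL1, pow_one] at h1
    have h2 := LIN_nz (LIN_res G L hLG)
    rw [h1.1] at h2
    have e : {a : A // f a = ⟨L, hL1, hLG⟩} ≃ {x : L // LIN_res G L hLG x = x ∧ x ≠ 0} :=
      { toFun := fun a => ⟨⟨a.1.1, by
            have h3 : Submodule.span K {a.1.1} = L := congrArg Subtype.val a.2
            exact h3.le (Submodule.mem_span_singleton_self _)⟩,
          Subtype.ext a.1.2.1, fun h => a.1.2.2 (congrArg Subtype.val h)⟩
        invFun := fun x => ⟨⟨x.1.1, congrArg Subtype.val x.2.1,
            fun h => x.2.2 (Subtype.ext h)⟩, by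
          apply Subtype.ext
          show Submodule.span K {x.1.1} = L
          apply Submodule.eq_of_le_of_finrank_eq
          · rw [Submodule.span_singleton_le_iff_mem]
            exact x.1.2
          · rw [hL1]
            exact finrank_span_singleton fun h => x.2.2 (Subtype.ext h)⟩
        left_inv := fun a => rfl
        right_inv := fun x => rfl }
    rw [Nat.card_congr e]
    omega
  have hA : Nat.card A = Nat.card B * (D.q - 1) := by
    rw [← Nat.card_congr (Equiv.sigmaFiberEquiv f)]
    have : Fintype B := Fintype.ofFinite B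
    rw [Nat.card_sigma]
    simp only [hfib, sum_const, card_univ, smul_eq_mul, Nat.card_eq_fintype_card]
  have h5 := LIN_nz G
  rw [(hDES K D V G hG).1] at h5
  show Nat.card B * (D.q - 1) = _
  rw [← hA]
  show Nat.card {x : V // G x = x ∧ x ≠ 0} = _
  omega

end Pool.Agent.Lib.MP_4c1f79_al
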