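import Pool.Agent.Lib.MP_4c1f79_al.StmG2

/-!
# MP_4c1f79_al : the piece LN2

The number of lines of a two-dimensional subspace is `|K| + 1`.
-/

set_option autoImplicit false

namespace Pool.Agent.Lib.MP_4c1f79_al

open Finset Module

theorem LN2_fr {K : Type} [Field K] {V : Type} [AddCommGroup V] [Module K V]
    (U : Submodule K V) (H : Submodule K U) : finrank K (H.map U.subtype) = finrank K H :=
  (Submodule.equivMapOfInjective U.subtype U.injective_subtype H).finrank_eq.symm

/-- Lines of the subspace and lines contained in it. -/
noncomputable def LN2_equiv {K : Type} [Field K] {V : Type} [AddCommGroup V] [Module K V]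
    (U : Submodule K V) : {H : Submodule K U // finrank K H = 1} ≃
      {L : Submodule K V // L ≤ U ∧ finrank K L = 1} where
  toFun H := ⟨H.1.map U.subtype, Submodule.map_subtype_le U H.1, by
    rw [LN2_fr]
    exact H.2⟩
  invFun L := ⟨L.1.comap U.subtype, by
    rw [← LN2_fr, Submodule.map_comap_subtype, inf_eq_right.2 L.2.1]
    exact L.2.2⟩
  left_inv H := by
    apply Subtype.ext
    exact Submodule.comap_map_eq_of_injective U.injective_subtype H.1
  right_inv L := by
    apply Subtype.ext
    change (L.1.comap U.subtype).map U.subtype = L.1
    rw [Submodule.map_comap_subtype, inf_eq_right.2 L.2.1]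

theorem LN2_holds : S_LN2 := by
  intro K _ _ V _ _ _ U hU
  rw [← Nat.card_congr (LN2_equiv U), ← Nat.card_congr (Projectivization.equivSubmodule K U)]
  exact Projectivization.card_of_finrank_two K U hU

end Pool.Agent.Lib.MP_4c1f79_al
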