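import Pool.Agent.Lib.MP_4c1f79_al.StmB

/-!
# MP_4c1f79_al : monotonicity of dimension vectors
-/

set_option autoImplicit false

namespace Pool.Agent.Lib.MP_4c1f79_al

open Finset Module

variable {P : Type} [Fintype P] {M : Mesh P} {K : Type} [Field K]

/-- The socle. -/
private def MON_soc (R : Rp M K) : Submodule K R.T where
  carrier := {x | ∀ p, R.a (R.e p x) = 0}
  zero_mem' := fun p => by simp
  add_mem' := fun {x y} hx hy p => by rw [map_add, map_add, hx p, hy p, add_zero]
  smul_mem' := fun c x hx p => by rw [map_smul, map_smul, hx p, smul_zero]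

private theorem MON_soc_a (R : Rp M K) (x : R.T) (hx : x ∈ MON_soc R) : R.a x = 0 := by
  rw [← R.e_sum x, map_sum]
  exact Finset.sum_eq_zero fun p _ => hx p

private theorem MON_soc_St (R : Rp M K) : R.St (MON_soc R) := by
  constructor
  · intro p x hx q
    by_cases h : q = p
    · subst h
      rw [R.e_e]
      exact hx q
    · rw [R.e_ne q p x h, map_zero]
  · intro x hx
    rw [MON_soc_a R x hx]
    exact Submodule.zero_mem _

/-- The socle at one position. -/
private def MON_sp (R : Rp M K) (p : P) : Submodule K R.T :=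
  LinearMap.range (R.e p) ⊓ LinearMap.ker R.a

private theorem MON_sp_e (R : Rp M K) (p : P) (x : MON_sp R p) : R.e p (x : R.T) = x := by
  obtain ⟨⟨y, hy⟩, _⟩ := x.2
  rw [← hy, R.e_e]

private theorem MON_sp_ne (R : Rp M K) (p q : P) (h : p ≠ q) (x : MON_sp R q) :
    R.e p (x : R.T) = 0 := by
  rw [← MON_sp_e R q x, R.e_ne p q _ h]

private theorem MON_sp_a (R : Rp M K) (p : P) (x : MON_sp R p) : R.a (x : R.T) = 0 := x.2.2

/-- The map from the socle to the component at one position. -/
private def MON_pr (R : Rp M K) (hW : R.St (MON_soc R)) (p : P) :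
    (R.sub (MON_soc R) hW).T →ₗ[K] MON_sp R p where
  toFun x := ⟨R.e p (R.inc _ hW x), ⟨_, rfl⟩, (Subtype.mem x : _ ∈ MON_soc R) p⟩
  map_add' x y := Subtype.ext (by
    show R.e p (R.inc _ hW (x + y)) = R.e p (R.inc _ hW x) + R.e p (R.inc _ hW y)
    rw [map_add, map_add])
  map_smul' c x := Subtype.ext (by
    show R.e p (R.inc _ hW (c • x)) = c • R.e p (R.inc _ hW x)
    rw [map_smul, map_smul])

private theorem MON_pr_val (R : Rp M K) (hW : R.St (MON_soc R)) (p : P)
    (x : (R.sub (MON_soc R) hW).T) :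
    ((MON_pr R hW p x : MON_sp R p) : R.T) = R.e p (R.inc _ hW x) := rfl

private theorem MON_inc_e (R : Rp M K) (W : Submodule K R.T) (hW : R.St W) (p : P)
    (x : (R.sub W hW).T) : R.inc _ hW ((R.sub W hW).e p x) = R.e p (R.inc _ hW x) := rfl

private theorem MON_inc_a (R : Rp M K) (W : Submodule K R.T) (hW : R.St W)
    (x : (R.sub W hW).T) : R.inc _ hW ((R.sub W hW).a x) = R.a (R.inc _ hW x) := rfl

theorem MON_holds (hEXT : S_EXT) (hDQ3 : S_DQ3) : S_MON := by
  intro P _ M K _ R R' U hR hR' hsc p₀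
  classical
  have hι : ∀ p, ∃ f : MON_sp R' p →ₗ[K] MON_sp R p, Function.Injective f := fun p =>
    (finrank_le_iff_exists_linearMap).1 (hsc p)
  choose ι hι using hι
  have hWS : R'.St (MON_soc R') := MON_soc_St R'
  let g : (R'.sub _ hWS).T →ₗ[K] R.T :=
    ∑ p, (MON_sp R p).subtype ∘ₗ ι p ∘ₗ MON_pr R' hWS p
  have hg : ∀ x, g x = ∑ p, ((ι p (MON_pr R' hWS p x) : MON_sp R p) : R.T) := by
    intro x
    simp only [g, LinearMap.sum_apply]
    rfl
  have hge : ∀ p x, R.e p (g x) = ((ι p (MON_pr R' hWS p x) : MON_sp R p) : R.T) := by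
    intro p x
    rw [hg, map_sum, Finset.sum_eq_single p]
    · exact MON_sp_e R p _
    · intro q _ hq
      exact MON_sp_ne R p q (Ne.symm hq) _
    · intro h
      exact absurd (Finset.mem_univ p) h
  have hgm : g ∈ Rp.Hm (R'.sub _ hWS) R := by
    constructor
    · intro p x
      rw [hge, hg, Finset.sum_eq_single p]
      · congr 2
        apply Subtype.ext
        rw [MON_pr_val, MON_pr_val, MON_inc_e, R'.e_e]
      · intro q _ hq
        have h0 : MON_pr R' hWS q ((R'.sub _ hWS).e p x) = 0 := by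
          apply Subtype.ext
          rw [MON_pr_val, MON_inc_e, R'.e_ne q p _ hq]
          rfl
        rw [h0, map_zero]
        rfl
      · intro h
        exact absurd (Finset.mem_univ p) h
    · intro x
      have h0 : (R'.sub _ hWS).a x = 0 := by
        apply Subtype.ext
        exact MON_soc_a R' _ (Subtype.mem x)
      rw [h0, map_zero, hg, map_sum]
      symm
      exact Finset.sum_eq_zero fun p _ => MON_sp_a R p _
  obtain ⟨f, hf, hfg⟩ := hEXT P M K R R' U hR hR' _ hWS g hgm
  have hV : R'.St (LinearMap.ker f) := by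
    constructor
    · intro p x hx
      rw [LinearMap.mem_ker] at hx ⊢
      rw [hf.1, hx, map_zero]
    · intro x hx
      rw [LinearMap.mem_ker] at hx ⊢
      rw [hf.2, hx, map_zero]
  obtain ⟨_, _, _, _, h5, h6⟩ := hDQ3 P M K
  have h7 : ∀ p, (R'.sub _ hV).sc p = 0 := by
    intro p
    rw [h5]
    intro x hx hax
    have h1 : R'.e p (R'.inc _ hV x) = R'.inc _ hV x := by rw [← MON_inc_e, hx]
    have h2 : R'.a (R'.inc _ hV x) = 0 := by rw [← MON_inc_a, hax, map_zero]
    have h3 : R'.inc _ hV x ∈ MON_soc R' := by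
      intro q
      by_cases hq : q = p
      · subst hq
        rw [h1, h2]
      · rw [← h1, R'.e_ne q p _ hq, map_zero]
    let w : (R'.sub _ hWS).T := ⟨R'.inc _ hV x, h3⟩
    have h4 : g w = 0 := by
      rw [← hfg w]
      exact LinearMap.mem_ker.1 (Subtype.mem x : _ ∈ LinearMap.ker f)
    have h8 : ι p (MON_pr R' hWS p w) = 0 := by
      apply Subtype.ext
      rw [← hge, h4, map_zero]
      rfl
    have h9 : MON_pr R' hWS p w = 0 := hι p (by rw [h8, map_zero])
    have h10 : R'.e p (R'.inc _ hV x) = 0 := by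
      have := congrArg Subtype.val h9
      rw [MON_pr_val] at this
      exact this
    apply Subtype.ext
    show R'.inc _ hV x = 0
    rw [← h1, h10]
  have h8 := h6 (R'.sub _ hV) h7
  have hinj : Function.Injective f := by
    rw [← LinearMap.ker_eq_bot, eq_bot_iff]
    intro x hx
    have := h8 ⟨x, hx⟩
    exact congrArg Subtype.val this
  show finrank K (LinearMap.range (R'.e p₀)) ≤ finrank K (LinearMap.range (R.e p₀))
  rw [finrank_le_iff_exists_linearMap]
  refine ⟨f.restrict (p := LinearMap.range (R'.e p₀)) (q := LinearMap.range (R.e p₀)) ?_, ?_⟩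
  · rintro _ ⟨y, rfl⟩
    exact ⟨f y, (hf.1 p₀ y).symm⟩
  · intro x y hxy
    apply Subtype.ext
    apply hinj
    exact congrArg Subtype.val hxy

end Pool.Agent.Lib.MP_4c1f79_al
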