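import Pool.Agent.Lib.MP_4c1f79_al.StmF

/-!
# MP_4c1f79_al : piece NO1 (the number of elements of norm one)
-/

set_option autoImplicit false

namespace Pool.Agent.Lib.MP_4c1f79_al

open Finset Module

private noncomputable def no1_f {K : Type} [Field K] (D : Fd K) : Kˣ →* Kˣ :=
  Units.map (D.φ : K →* K)

private theorem no1_f_coe {K : Type} [Field K] (D : Fd K) (v : Kˣ) :
    ((no1_f D v : Kˣ) : K) = D.φ (v : K) := rfl

private noncomputable def no1_h {K : Type} [Field K] (D : Fd K) : Kˣ →* Kˣ :=
  MonoidHom.mk' (fun v => v * (no1_f D v)⁻¹) (fun v w => by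
    rw [map_mul, mul_inv, mul_mul_mul_comm])

private theorem no1_h_apply {K : Type} [Field K] (D : Fd K) (v : Kˣ) :
    no1_h D v = v * (no1_f D v)⁻¹ := rfl

theorem NO1_holds : S_NO1 := by
  classical
  intro K _ D hr
  have hφ2 : ∀ c : K, D.φ (D.φ c) = c := by
    intro c
    have h := D.φ_r c
    rw [hr] at h
    exact h
  have hq := D.q_gt
  have hK : Nat.card K = D.q ^ 2 := by
    rw [D.card_K, hr]
  have hfin : Finite K := by
    apply Nat.finite_of_card_ne_zero
    rw [hK]
    positivity
  -- the kernel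
  have hker : Nat.card (no1_h D).ker = D.q - 1 := by
    have h1 : ({c : K | D.φ c = c} \ {0}).ncard = D.q - 1 := by
      rw [Set.ncard_sdiff_singleton_of_mem (by
        show D.φ 0 = 0
        exact map_zero _)]
      congr 1
      exact D.card_fix
    rw [← h1]
    refine Nat.card_eq_of_bijective (fun v : (no1_h D).ker =>
      (⟨((v : Kˣ) : K), ?_, ?_⟩ : ({c : K | D.φ c = c} \ {0} : Set K))) ⟨?_, ?_⟩
    · have h2 : no1_h D v = 1 := v.2
      rw [no1_h_apply, mul_inv_eq_one] at h2
      show D.φ ((v : Kˣ) : K) = ((v : Kˣ) : K)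
      rw [← no1_f_coe, ← h2]
    · exact (v : Kˣ).ne_zero
    · intro v w h
      have h2 := congrArg Subtype.val h
      exact Subtype.ext (Units.ext h2)
    · rintro ⟨c, hc, hc0⟩
      have hc' : c ≠ 0 := hc0
      refine ⟨⟨Units.mk0 c hc', ?_⟩, rfl⟩
      show no1_h D _ = 1
      rw [no1_h_apply, mul_inv_eq_one]
      apply Units.ext
      rw [no1_f_coe]
      exact (show D.φ c = c from hc).symm
  -- Hilbert 90
  have h90 : ∀ c : K, c * D.φ c = 1 → ∃ v : K, v ≠ 0 ∧ c * D.φ v = v := by
    intro c hc
    have h1 : ∀ u : K, c * D.φ (u + c * D.φ u) = u + c * D.φ u := by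
      intro u
      rw [map_add, map_mul, hφ2]
      linear_combination u * hc
    by_contra hcon
    push Not at hcon
    have h2 : ∀ u : K, u + c * D.φ u = 0 := by
      intro u
      by_contra h
      exact hcon _ h (h1 u)
    have h3 := h2 1
    rw [map_one, mul_one] at h3
    have h4 : ∀ u : K, D.φ u = u := by
      intro u
      have h5 := h2 u
      have h6 : c = -1 := by linear_combination h3
      rw [h6] at h5
      linear_combination -h5
    have h5 : Nat.card {c : K // D.φ c = c} = Nat.card K :=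
      Nat.card_congr (Equiv.subtypeUnivEquiv h4)
    rw [D.card_fix, hK] at h5
    have h6 : D.q < D.q ^ 2 := by nlinarith
    omega
  -- the range
  have hrange : Nat.card (no1_h D).range = Nat.card {c : K // c * D.φ c = 1} := by
    refine Nat.card_eq_of_bijective (fun v : (no1_h D).range =>
      (⟨((v : Kˣ) : K), ?_⟩ : {c : K // c * D.φ c = 1})) ⟨?_, ?_⟩
    · obtain ⟨_, w, rfl⟩ := v
      have h1 : no1_h D w * no1_f D (no1_h D w) = 1 := by
        have h2 : no1_f D (no1_f D w) = w := by
          apply Units.ext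
          rw [no1_f_coe, no1_f_coe, hφ2]
        rw [no1_h_apply, map_mul, map_inv, h2]
        rw [mul_assoc, inv_mul_cancel_left, mul_inv_cancel]
      have h2 := congrArg Units.val h1
      rw [Units.val_mul, no1_f_coe, Units.val_one] at h2
      exact h2
    · intro v w h
      have h2 := congrArg Subtype.val h
      exact Subtype.ext (Units.ext h2)
    · rintro ⟨c, hc⟩
      obtain ⟨v, hv0, hv⟩ := h90 c hc
      refine ⟨⟨no1_h D (Units.mk0 v hv0), ⟨_, rfl⟩⟩, ?_⟩
      apply Subtype.ext
      show ((no1_h D (Units.mk0 v hv0) : Kˣ) : K) = c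
      have hφv : D.φ v ≠ 0 := by
        intro h
        rw [h, mul_zero] at hv
        exact hv0 hv.symm
      have h3 : no1_h D (Units.mk0 v hv0) * no1_f D (Units.mk0 v hv0) = Units.mk0 v hv0 := by
        rw [no1_h_apply, inv_mul_cancel_right]
      have h4 := congrArg Units.val h3
      rw [Units.val_mul, no1_f_coe] at h4
      have h5 : ((no1_h D (Units.mk0 v hv0) : Kˣ) : K) * D.φ v = v := h4
      exact mul_right_cancel₀ hφv (h5.trans hv.symm)
  have hcard : Nat.card (no1_h D).ker * Nat.card (no1_h D).range = Nat.card Kˣ := by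
    rw [← Subgroup.index_ker]
    exact Subgroup.card_mul_index _
  rw [hker, hrange, Nat.card_units, hK] at hcard
  have hmain : Nat.card {c : K // c * D.φ c = 1} = D.q + 1 := by
    have h1 : (D.q - 1) * (D.q + 1) = D.q ^ 2 - 1 := by
      obtain ⟨k, hk⟩ : ∃ k, D.q = k + 1 := ⟨D.q - 1, by omega⟩
      rw [hk]
      have h2 : (k + 1) ^ 2 = k * (k + 1 + 1) + 1 := by ring
      rw [h2]
      simp
    have h2 : 0 < D.q - 1 := by omega
    exact Nat.eq_of_mul_eq_mul_left h2 (hcard.trans h1.symm)
  refine ⟨hmain, ?_⟩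
  have h1 : Nat.card {c : K // c * D.φ c = 1} + Nat.card {c : K // ¬ c * D.φ c = 1} =
      Nat.card K := by
    rw [← Nat.card_sum]
    exact Nat.card_congr (Equiv.sumCompl fun c : K => c * D.φ c = 1)
  rw [hmain, hK] at h1
  rw [← h1, add_comm]

end Pool.Agent.Lib.MP_4c1f79_al
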