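import Pool.Agent.Lib.MP_4c1f79_al.StmB

/-!
# [J4 PEE] Peeling off a fundamental module
-/

set_option autoImplicit false

namespace Pool.Agent.Lib.MP_4c1f79_al

open Finset Module

/-- the part of the socle at the positions of `E` -/
private def PEE_V {P : Type} [Fintype P] {M : Mesh P} {s : Equiv.Perm P} {K : Type} [Field K]
    {D : Fd K} (N : FM M s K D) (E : Set P) : Submodule K N.T where
  carrier := {x | ∀ p, N.a (N.e p x) = 0 ∧ (p ∉ E → N.e p x = 0)}
  zero_mem' := fun p => ⟨by rw [map_zero, map_zero], fun _ => map_zero _⟩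
  add_mem' := fun {x y} hx hy p => ⟨by rw [map_add, map_add, (hx p).1, (hy p).1, add_zero],
    fun hp => by rw [map_add, (hx p).2 hp, (hy p).2 hp, add_zero]⟩
  smul_mem' := fun c x hx p => ⟨by rw [map_smul, map_smul, (hx p).1, smul_zero],
    fun hp => by rw [map_smul, (hx p).2 hp, smul_zero]⟩

private theorem PEE_VF {P : Type} [Fintype P] {M : Mesh P} {s : Equiv.Perm P} {K : Type} [Field K]
    {D : Fd K} (N : FM M s K D) (E : Set P) (hE : ∀ p ∈ E, s p ∈ E) :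
    ∀ x ∈ PEE_V N E, N.F x ∈ PEE_V N E := by
  intro x hx p
  have h1 : N.e p (N.F x) = N.F (N.e (s.symm p) x) := by
    rw [N.F_e, Equiv.apply_symm_apply]
  rw [h1]
  refine ⟨?_, fun hp => ?_⟩
  · rw [← N.F_a, (hx _).1, map_zero]
  · have h2 : s.symm p ∉ E := by
      intro h
      apply hp
      have := hE _ h
      rwa [Equiv.apply_symm_apply] at this
    rw [(hx _).2 h2, map_zero]

private theorem PEE_Ve {P : Type} [Fintype P] {M : Mesh P} {s : Equiv.Perm P} {K : Type} [Field K]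
    {D : Fd K} (N : FM M s K D) (E : Set P) :
    ∀ p, ∀ x ∈ PEE_V N E, N.e p x ∈ PEE_V N E := by
  intro p x hx q
  by_cases h : q = p
  · subst h
    rw [N.e_e]
    exact hx q
  · rw [N.e_ne q p x h, map_zero]
    exact ⟨rfl, fun _ => rfl⟩

private theorem PEE_Va {P : Type} [Fintype P] {M : Mesh P} {s : Equiv.Perm P} {K : Type} [Field K]
    {D : Fd K} (N : FM M s K D) (E : Set P) :
    ∀ x ∈ PEE_V N E, N.a x = 0 := by
  intro x hx
  rw [← N.e_sum x, map_sum]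
  exact Finset.sum_eq_zero fun p _ => (hx p).1

private theorem PEE_Finj {P : Type} [Fintype P] {M : Mesh P} {s : Equiv.Perm P} {K : Type}
    [Field K] {D : Fd K} (N : FM M s K D) (x : N.T) (h : N.F x = 0) : x = 0 := by
  have h1 := N.F_r x
  obtain ⟨k, hk⟩ := Nat.exists_eq_succ_of_ne_zero D.r_pos.ne'
  rw [hk, Function.iterate_succ_apply, h] at h1
  have h2 : ∀ k : ℕ, (⇑N.F)^[k] (0 : N.T) = 0 := by
    intro k
    induction k with
    | zero => rfl
    | succ k ih => rw [Function.iterate_succ_apply, map_zero, ih]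
  rw [h2] at h1
  exact h1.symm

/-- a fixed socle vector which is not zero at every position of the orbit -/
private theorem PEE_fix (hDES : S_DES) {P : Type} [Fintype P] {M : Mesh P} {s : Equiv.Perm P}
    {K : Type} [Field K] {D : Fd K} (N : FM M s K D) (E : Set P) (hE : Orb s E) (p₁ : P)
    (hp₁ : p₁ ∈ E) (hsc : N.toRp.sc p₁ ≠ 0) :
    ∃ y ∈ PEE_V N E, N.F y = y ∧ ∀ p ∈ E, N.e p y ≠ 0 := by
  obtain ⟨p₀, rfl⟩ := hE
  have hE : ∀ p ∈ {x | ∃ i : ℕ, x = (⇑s)^[i] p₀}, s p ∈ {x | ∃ i : ℕ, x = (⇑s)^[i] p₀} := by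
    rintro p ⟨i, rfl⟩
    exact ⟨i + 1, by rw [Function.iterate_succ_apply']⟩
  set E : Set P := {x | ∃ i : ℕ, x = (⇑s)^[i] p₀} with hEdef
  -- a socle vector at `p₁`
  have h1 : (LinearMap.range (N.e p₁) ⊓ LinearMap.ker N.a : Submodule K N.T) ≠ ⊥ := by
    intro h
    apply hsc
    rw [Rp.sc, h, finrank_bot]
  obtain ⟨x, ⟨⟨x', hx'⟩, hxa⟩, hx0⟩ := Submodule.exists_mem_ne_zero_of_ne_bot h1
  have hex : N.e p₁ x = x := by rw [← hx', N.e_e]
  have hxV : x ∈ PEE_V N E := by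
    intro p
    by_cases hp : p = p₁
    · subst hp
      rw [hex]
      exact ⟨hxa, fun h => absurd hp₁ h⟩
    · rw [← hex, N.e_ne p p₁ x hp, map_zero]
      exact ⟨rfl, fun _ => rfl⟩
  -- descent
  have hVF := PEE_VF N E hE
  let G : PEE_V N E →ₛₗ[(D.φ : K →+* K)] PEE_V N E :=
    { toFun := fun x => ⟨N.F x.1, hVF x.1 x.2⟩
      map_smul' := fun c x => Subtype.ext (N.F.map_smulₛₗ c x.1)
      map_add' := fun x y => Subtype.ext (map_add N.F x.1 y.1) }
  have hG : ∀ x, (⇑G)^[D.r] x = x := fun x =>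
    Subtype.ext ((FM.iter_coe (⇑N.F) hVF D.r x).trans (N.F_r x.1))
  have h2 := (hDES K D (PEE_V N E) G hG).2
  have h3 : ∃ y : PEE_V N E, G y = y ∧ N.e p₁ y ≠ 0 := by
    by_contra hcon
    push Not at hcon
    have h4 : Submodule.span K {x | G x = x} ≤
        LinearMap.ker ((N.e p₁).comp (PEE_V N E).subtype) :=
      Submodule.span_le.2 fun y hy => hcon y hy
    rw [h2] at h4
    have h5 : (⟨x, hxV⟩ : PEE_V N E) ∈ LinearMap.ker ((N.e p₁).comp (PEE_V N E).subtype) :=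
      h4 Submodule.mem_top
    have h6 : N.e p₁ x = 0 := h5
    rw [hex] at h6
    exact hx0 h6
  obtain ⟨y, hy1, hy2⟩ := h3
  have hFy : N.F y = y := congrArg Subtype.val hy1
  refine ⟨y, y.2, hFy, ?_⟩
  -- the positions where `y` vanishes are closed under `s`, forwards and backwards
  have h4 : ∀ p, N.e (s p) y = 0 → N.e p y = 0 := by
    intro p hp
    apply PEE_Finj N
    rw [N.F_e, hFy, hp]
  have h5 : ∀ p, N.e p y = 0 → N.e (s p) y = 0 := by
    intro p hp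
    have h6 := N.F_e p y
    rw [hFy, hp, map_zero] at h6
    exact h6.symm
  have h6 : ∀ i : ℕ, N.e ((⇑s)^[i] p₀) y = 0 ↔ N.e p₀ y = 0 := by
    intro i
    induction i with
    | zero => exact Iff.rfl
    | succ i ih =>
      rw [Function.iterate_succ_apply']
      exact ⟨fun h => ih.1 (h4 _ h), fun h => h5 _ (ih.2 h)⟩
  rintro p ⟨i, rfl⟩ hp
  obtain ⟨j, hj⟩ := hp₁
  apply hy2
  rw [hj]
  exact (h6 j).2 ((h6 i).1 hp)

theorem PEE_holds (hEXF : S_EXF) (hDES : S_DES) (hSOC : S_SOC) (hISO : S_ISO) (hDQ2 : S_DQ2)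
    (hDQ3 : S_DQ3) : S_PEE := by
  classical
  intro P _ M s K _ D U N I m E hE hN hI hm
  have hEs : ∀ p ∈ E, s p ∈ E := by
    obtain ⟨p₀, rfl⟩ := hE
    rintro p ⟨i, rfl⟩
    exact ⟨i + 1, by rw [Function.iterate_succ_apply']⟩
  have hEne : ∃ p, p ∈ E := by
    obtain ⟨p₀, rfl⟩ := hE
    exact ⟨p₀, 0, rfl⟩
  obtain ⟨p₁, hp₁⟩ := hEne
  have hindE : ∀ p ∈ E, ind E p = 1 := fun p hp => by
    rw [ind, Set.indicator_of_mem hp]
    rfl
  obtain ⟨y, hyV, hFy, hy0⟩ := PEE_fix hDES N E hE p₁ hp₁ (by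
    rw [hN.2]
    exact Nat.one_le_iff_ne_zero.1 (hm p₁ hp₁))
  obtain ⟨y', hyV', hFy', hy0'⟩ := PEE_fix hDES I E hE p₁ hp₁ (by
    rw [hI.2, hindE p₁ hp₁]
    exact one_ne_zero)
  -- coordinates
  have hlam : ∀ p, ∃ l : I.T →ₗ[K] K, p ∈ E → l (I.e p y') = 1 := by
    intro p
    by_cases hp : p ∈ E
    · have h1 : ∃ l : Module.Dual K I.T, l (I.e p y') ≠ 0 := by
        by_contra hcon
        push Not at hcon
        exact hy0' p hp ((Module.forall_dual_apply_eq_zero_iff K _).1 hcon)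
      obtain ⟨l, hl⟩ := h1
      refine ⟨(l (I.e p y'))⁻¹ • l, fun _ => ?_⟩
      rw [LinearMap.smul_apply, smul_eq_mul, inv_mul_cancel₀ hl]
    · exact ⟨0, fun h => absurd h hp⟩
  choose lam hlam using hlam
  have hcoord : ∀ x ∈ PEE_V I E, ∀ p, I.e p x = lam p (I.e p x) • I.e p y' := by
    intro x hx p
    by_cases hp : p ∈ E
    · have h1 : finrank K (LinearMap.range (I.e p) ⊓ LinearMap.ker I.a : Submodule K I.T) = 1 := by
        have h2 := hI.2 p
        rw [hindE p hp] at h2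
        exact h2
      have h2 : (⟨I.e p y', ⟨⟨y', rfl⟩, (hyV' p).1⟩⟩ :
          (LinearMap.range (I.e p) ⊓ LinearMap.ker I.a : Submodule K I.T)) ≠ 0 := by
        intro h
        exact hy0' p hp (congrArg Subtype.val h)
      obtain ⟨c, hc⟩ := (finrank_eq_one_iff_of_nonzero' _ h2).1 h1 ⟨I.e p x, ⟨⟨x, rfl⟩, (hx p).1⟩⟩
      have h3 : c • I.e p y' = I.e p x := congrArg Subtype.val hc
      rw [← h3, map_smul, hlam p hp, smul_eq_mul, mul_one]
    · rw [(hx p).2 hp, map_zero, zero_smul]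
  -- the map on the socle
  have hStI : I.St (PEE_V I E) :=
    ⟨⟨PEE_Ve I E, fun x hx => by
      rw [PEE_Va I E x hx]
      exact Submodule.zero_mem _⟩, PEE_VF I E hEs⟩
  let h : PEE_V I E →ₗ[K] N.T :=
    ∑ p, (((lam p).comp (I.e p)).comp (PEE_V I E).subtype).smulRight (N.e p y)
  have hh : ∀ x : PEE_V I E, h x = ∑ p, lam p (I.e p x) • N.e p y := by
    intro x
    show (∑ p, (((lam p).comp (I.e p)).comp (PEE_V I E).subtype).smulRight (N.e p y) :
      PEE_V I E →ₗ[K] N.T) x = _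
    rw [LinearMap.sum_apply]
    rfl
  have hsingle : ∀ (q : P) (x : I.T), ∑ p, lam p (I.e p (I.e q x)) • N.e p y =
      lam q (I.e q x) • N.e q y := by
    intro q x
    rw [Finset.sum_eq_single q]
    · rw [I.e_e]
    · intro p _ hp
      rw [I.e_ne p q x hp, map_zero, zero_smul]
    · intro hq
      exact absurd (Finset.mem_univ q) hq
  have k1 : ∀ (q : P) (x : PEE_V I E), ∑ p, lam p (I.e p (I.e q x.1)) • N.e p y =
      N.e q (∑ p, lam p (I.e p x.1) • N.e p y) := by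
    intro q x
    rw [hsingle, map_sum, Finset.sum_eq_single q]
    · rw [map_smul, N.e_e]
    · intro p _ hp
      rw [map_smul, N.e_ne q p y (Ne.symm hp), smul_zero]
    · intro hq
      exact absurd (Finset.mem_univ q) hq
  have k2 : ∀ x : PEE_V I E, N.a (h x) = 0 := by
    intro x
    rw [hh x, map_sum]
    refine Finset.sum_eq_zero fun p _ => ?_
    rw [map_smul, (hyV p).1, smul_zero]
  have k3 : ∀ x : PEE_V I E, ∑ p, lam p (I.e p (I.F x.1)) • N.e p y =
      N.F (∑ p, lam p (I.e p x.1) • N.e p y) := by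
    intro x
    rw [map_sum, ← Equiv.sum_comp s]
    refine Finset.sum_congr rfl fun q _ => ?_
    have h2 : I.e (s q) (I.F x.1) = (D.φ : K →+* K) (lam q (I.e q x.1)) • I.e (s q) y' := by
      rw [← I.F_e]
      conv_lhs => rw [hcoord x.1 x.2 q]
      rw [I.F.map_smulₛₗ, I.F_e, hFy']
    rw [h2, N.F.map_smulₛₗ, N.F_e, hFy]
    by_cases hq : s q ∈ E
    · rw [map_smul, hlam _ hq, smul_eq_mul, mul_one]
    · rw [(hyV (s q)).2 hq, smul_zero, smul_zero]
  have hhom : h ∈ FM.HmF (I.sub (PEE_V I E) hStI) N := by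
    refine ⟨⟨fun q x => ?_, fun x => ?_⟩, fun x => ?_⟩
    · exact (hh _).trans ((k1 q x).trans (congrArg (N.e q) (hh x)).symm)
    · have h1 : (I.sub (PEE_V I E) hStI).a x = 0 := Subtype.ext (PEE_Va I E x.1 x.2)
      have h2 : h (0 : PEE_V I E) = 0 := map_zero h
      exact (congrArg h h1).trans (h2.trans (k2 x).symm)
    · exact (hh _).trans ((k3 x).trans (congrArg N.F (hh x)).symm)
  obtain ⟨f, hf, hfh⟩ := hEXF P M s K D N I U hN.1 hI.1.1 (PEE_V I E) hStI h hhom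
  have hfy : f (I.e p₁ y') = N.e p₁ y := by
    have h1 : f (I.e p₁ y') = h ⟨I.e p₁ y', PEE_Ve I E p₁ y' hyV'⟩ :=
      hfh ⟨I.e p₁ y', PEE_Ve I E p₁ y' hyV'⟩
    rw [h1, hh, hsingle, hlam p₁ hp₁, one_smul]
  -- injectivity
  have hker : LinearMap.ker f = ⊥ := by
    by_contra hcon
    have h1 : I.St (LinearMap.ker f) := by
      refine ⟨⟨fun p x hx => ?_, fun x hx => ?_⟩, fun x hx => ?_⟩
      · rw [LinearMap.mem_ker] at hx ⊢
        rw [hf.1.1, hx, map_zero]
      · rw [LinearMap.mem_ker] at hx ⊢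
        rw [hf.1.2, hx, map_zero]
      · rw [LinearMap.mem_ker] at hx ⊢
        rw [hf.2, hx, map_zero]
    have h2 := hSOC P M s K D I E hE hI.2 (LinearMap.ker f) h1 hcon p₁ hp₁ (I.e p₁ y')
      (I.e_e _ _) (hyV' p₁).1
    rw [LinearMap.mem_ker, hfy] at h2
    exact hy0 p₁ hp₁ h2
  have hinj : Function.Injective f := LinearMap.ker_eq_bot.1 hker
  -- the retraction
  have hStR : N.St (LinearMap.range f) := by
    refine ⟨⟨?_, ?_⟩, ?_⟩
    · rintro p _ ⟨z, rfl⟩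
      exact ⟨I.e p z, hf.1.1 p z⟩
    · rintro _ ⟨z, rfl⟩
      exact ⟨I.a z, hf.1.2 z⟩
    · rintro _ ⟨z, rfl⟩
      exact ⟨I.F z, hf.2 z⟩
  let g : LinearMap.range f →ₗ[K] I.T := (LinearEquiv.ofInjective f hinj).symm.toLinearMap
  have hg : ∀ z (hz : f z ∈ LinearMap.range f), g ⟨f z, hz⟩ = z := by
    intro z hz
    have h1 : (⟨f z, hz⟩ : LinearMap.range f) = LinearEquiv.ofInjective f hinj z :=
      Subtype.ext rfl
    show (LinearEquiv.ofInjective f hinj).symm ⟨f z, hz⟩ = z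
    rw [h1, LinearEquiv.symm_apply_apply]
  have hghom : g ∈ FM.HmF (N.sub (LinearMap.range f) hStR) I := by
    refine ⟨⟨?_, ?_⟩, ?_⟩
    · rintro p ⟨_, ⟨z, rfl⟩⟩
      have h1 : ((N.sub (LinearMap.range f) hStR).e p ⟨f z, ⟨z, rfl⟩⟩ : LinearMap.range f) =
          ⟨f (I.e p z), ⟨_, rfl⟩⟩ := Subtype.ext (hf.1.1 p z).symm
      have h2 : g ((N.sub (LinearMap.range f) hStR).e p ⟨f z, ⟨z, rfl⟩⟩) = I.e p z := by
        rw [h1]
        exact hg _ _
      exact h2.trans (congrArg (I.e p) (hg z _).symm)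
    · rintro ⟨_, ⟨z, rfl⟩⟩
      have h1 : ((N.sub (LinearMap.range f) hStR).a ⟨f z, ⟨z, rfl⟩⟩ : LinearMap.range f) =
          ⟨f (I.a z), ⟨_, rfl⟩⟩ := Subtype.ext (hf.1.2 z).symm
      have h2 : g ((N.sub (LinearMap.range f) hStR).a ⟨f z, ⟨z, rfl⟩⟩) = I.a z := by
        rw [h1]
        exact hg _ _
      exact h2.trans (congrArg I.a (hg z _).symm)
    · rintro ⟨_, ⟨z, rfl⟩⟩
      have h1 : ((N.sub (LinearMap.range f) hStR).F ⟨f z, ⟨z, rfl⟩⟩ : LinearMap.range f) =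
          ⟨f (I.F z), ⟨_, rfl⟩⟩ := Subtype.ext (hf.2 z).symm
      have h2 : g ((N.sub (LinearMap.range f) hStR).F ⟨f z, ⟨z, rfl⟩⟩) = I.F z := by
        rw [h1]
        exact hg _ _
      exact h2.trans (congrArg I.F (hg z _).symm)
  obtain ⟨ρ, hρ, hρg⟩ := hEXF P M s K D I N U hI.1 hN.1.1 (LinearMap.range f) hStR g hghom
  have hρf : ∀ z, ρ (f z) = z := by
    intro z
    have h1 : ρ (f z) = g ⟨f z, ⟨z, rfl⟩⟩ := hρg ⟨f z, ⟨z, rfl⟩⟩
    rw [h1, hg]
  -- the complement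
  have hStK : N.St (LinearMap.ker ρ) := by
    refine ⟨⟨fun p x hx => ?_, fun x hx => ?_⟩, fun x hx => ?_⟩
    · rw [LinearMap.mem_ker] at hx ⊢
      rw [hρ.1.1, hx, map_zero]
    · rw [LinearMap.mem_ker] at hx ⊢
      rw [hρ.1.2, hx, map_zero]
    · rw [LinearMap.mem_ker] at hx ⊢
      rw [hρ.2, hx, map_zero]
  let Θ₁ : N.T →ₗ[K] LinearMap.ker ρ :=
    (LinearMap.id - f.comp ρ).codRestrict (LinearMap.ker ρ) fun x => by
      rw [LinearMap.mem_ker, LinearMap.sub_apply, map_sub, LinearMap.comp_apply, hρf]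
      exact sub_self _
  have hΘ₁ : ∀ x, ((Θ₁ x : LinearMap.ker ρ) : N.T) = x - f (ρ x) := fun x => rfl
  have hIso : N.Iso ((N.sub (LinearMap.ker ρ) hStK).prod I) := by
    refine ⟨Θ₁.prod ρ, ⟨⟨fun p x => ?_, fun x => ?_⟩, fun x => ?_⟩, ?_, ?_⟩
    · apply Prod.ext
      · apply Subtype.ext
        show N.e p x - f (ρ (N.e p x)) = N.e p (x - f (ρ x))
        rw [hρ.1.1, hf.1.1, map_sub]
      · exact hρ.1.1 p x
    · apply Prod.ext
      · apply Subtype.ext
        show N.a x - f (ρ (N.a x)) = N.a (x - f (ρ x))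
        rw [hρ.1.2, hf.1.2, map_sub]
      · exact hρ.1.2 x
    · apply Prod.ext
      · apply Subtype.ext
        show N.F x - f (ρ (N.F x)) = N.F (x - f (ρ x))
        rw [hρ.2, hf.2, map_sub]
      · exact hρ.2 x
    · intro x x' hxx
      have h1 : ρ x = ρ x' := congrArg Prod.snd hxx
      have h2 : Θ₁ x = Θ₁ x' := congrArg Prod.fst hxx
      replace h2 : x - f (ρ x) = x' - f (ρ x') := congrArg Subtype.val h2
      rw [h1] at h2
      exact sub_left_injective h2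
    · rintro ⟨k, z⟩
      refine ⟨k.1 + f z, ?_⟩
      have h1 : ρ (k.1 + f z) = z := by
        rw [map_add, hρf, LinearMap.mem_ker.1 k.2, zero_add]
      apply Prod.ext
      · apply Subtype.ext
        show (k.1 + f z) - f (ρ (k.1 + f z)) = k.1
        rw [h1, add_sub_cancel_right]
      · exact h1
  refine ⟨N.sub (LinearMap.ker ρ) hStK, ⟨?_, ?_⟩, hIso⟩
  · have h1 := ((hISO P M s K D).1 _ _ hIso).2.2.2 U hN.1
    exact ((hDQ2 P M K).2.2.2.1 _ _ U h1).1
  · intro p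
    have h1 := ((hISO P M s K D).1 _ _ hIso).2.2.1 p
    have h2 := (hDQ2 P M K).2.1 (N.sub (LinearMap.ker ρ) hStK).toRp I.toRp p
    have h3 : ((N.sub (LinearMap.ker ρ) hStK).prod I).toRp.sc p =
        (N.sub (LinearMap.ker ρ) hStK).toRp.sc p + I.toRp.sc p := h2
    rw [hN.2, h3, hI.2] at h1
    show (N.sub (LinearMap.ker ρ) hStK).toRp.sc p = m p - ind E p
    omega

end Pool.Agent.Lib.MP_4c1f79_al
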