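import Pool.Agent.Lib.MP_4c1f79_al.StmB

/-!
# MP_4c1f79_al : piece PEM (positivity for the orbits gives positivity for all types)
-/

set_option autoImplicit false

namespace Pool.Agent.Lib.MP_4c1f79_al

open Finset Module

/-- all sums of members of finite sets lie in a finite set -/
private theorem pem_sums {ι : Type} (B : Finset ι) (C : ι → Finset (Polynomial ℕ)) :
    ∃ Fs : Finset (Polynomial ℕ), ∀ c : ι → Polynomial ℕ, (∀ i ∈ B, c i ∈ C i) →
      ∑ i ∈ B, c i ∈ Fs := by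
  classical
  induction B using Finset.induction_on with
  | empty => exact ⟨{0}, fun c _ => by simp⟩
  | insert i B hi ih =>
    obtain ⟨Fs, hFs⟩ := ih
    refine ⟨Finset.image₂ (· + ·) (C i) Fs, fun c hc => ?_⟩
    rw [Finset.sum_insert hi]
    exact Finset.mem_image₂_of_mem (hc i (Finset.mem_insert_self i B))
      (hFs c fun j hj => hc j (Finset.mem_insert_of_mem hj))

private theorem pem_cntP {P : Type} [Fintype P] {M : Mesh P} {s : Equiv.Perm P} {K : Type}
    [Field K] {D : Fd K} (N : FM M s K D) (d : P → ℕ) : N.cntP (fun _ => True) d = N.cnt d := by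
  rw [FM.cntP, FM.cnt]
  exact Nat.card_congr (Equiv.subtypeEquivRight fun W => by simp)

private theorem pem_cntP2 {P : Type} [Fintype P] {M : Mesh P} {s : Equiv.Perm P} {K : Type}
    [Field K] {D : Fd K} (N : FM M s K D) (d : P → ℕ) : N.cntP (fun _ => True ∧ True) d = N.cnt d := by
  rw [FM.cntP, FM.cnt]
  exact Nat.card_congr (Equiv.subtypeEquivRight fun W => by simp)

private theorem pem_F_inj {P : Type} [Fintype P] {M : Mesh P} {s : Equiv.Perm P} {K : Type}
    [Field K] {D : Fd K} (N : FM M s K D) (x : N.T) (h : N.F x = 0) : x = 0 := by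
  have h1 := N.F_r x
  obtain ⟨k, hk⟩ : ∃ k, D.r = k + 1 := ⟨D.r - 1, by have := D.r_pos; omega⟩
  rw [hk, Function.iterate_succ_apply, h] at h1
  rw [← h1]
  clear h1 hk
  induction k with
  | zero => rfl
  | succ k ih => rw [Function.iterate_succ_apply, map_zero]; exact ih

/-- the socle at `s p` is not zero if the one at `p` is not zero -/
private theorem pem_sc (hDQ3 : S_DQ3) {P : Type} [Fintype P] {M : Mesh P} {s : Equiv.Perm P}
    {K : Type} [Field K] {D : Fd K} (N : FM M s K D) (p : P) (h : N.toRp.sc p ≠ 0) :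
    N.toRp.sc (s p) ≠ 0 := by
  obtain ⟨-, -, -, -, h5, -⟩ := hDQ3 P M K
  intro h1
  apply h
  rw [h5] at h1 ⊢
  intro x hx hax
  apply pem_F_inj N
  apply h1
  · rw [← N.F_e, hx]
  · rw [← N.F_a, hax, map_zero]

theorem PEM_holds (hSPC : S_SPC) (hPEE : S_PEE) (hFUN : S_FUN) (hISO : S_ISO) (hBND : S_BND)
    (hDQ3 : S_DQ3) : S_PEM := by
  classical
  intro P _ M s r U hA
  suffices H : ∀ n : ℕ, ∀ m : P → ℕ, ∑ p, m p = n →
      (∀ E : Set P, Orb s E → E ⊆ U → (∀ p ∈ E, m p ≠ 0) → PosT M s r U (ind E)) →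
      PosT M s r U m from fun m hm => H _ m rfl hm
  intro n
  induction n using Nat.strong_induction_on with
  | _ n ih =>
  intro m hn hm d
  -- no module at all
  by_cases hex : ∃ (K : Type) (_ : Field K) (D : Fd K) (_ : D.r = r) (N : FM M s K D), N.GT U m
  swap
  · refine ⟨∅, fun K _ D hr N hN => ?_⟩
    exact absurd ⟨K, _, D, hr, N, hN⟩ hex
  -- the zero type
  by_cases h0 : ∀ p, m p = 0
  · refine ⟨{0, 1}, fun K _ D hr N hN => ?_⟩
    obtain ⟨-, -, -, -, -, h6⟩ := hDQ3 P M K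
    have h7 : ∀ x : N.T, x = 0 := h6 N.toRp fun p => by rw [hN.2 p, h0 p]
    have hsub : Subsingleton N.T := ⟨fun x y => by rw [h7 x, h7 y]⟩
    have hle : N.cnt d ≤ 1 := by
      rw [FM.cnt]
      exact Finite.card_le_one_iff_subsingleton.2 inferInstance
    have h8 : N.cnt d = 0 ∨ N.cnt d = 1 := by omega
    rcases h8 with h8 | h8
    · exact ⟨0, by simp, by rw [h8]; simp⟩
    · exact ⟨1, by simp, by rw [h8]; simp⟩
  push Not at h0
  -- a position of minimal level
  obtain ⟨p₀, hp₀, hmin⟩ : ∃ p₀, m p₀ ≠ 0 ∧ ∀ p, m p ≠ 0 → M.lv p₀ ≤ M.lv p := by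
    obtain ⟨p1, hp1⟩ := h0
    obtain ⟨p₀, h1, h2⟩ := Finset.exists_min_image (Finset.univ.filter fun p => m p ≠ 0) M.lv
      ⟨p1, by simp [hp1]⟩
    exact ⟨p₀, by simpa using h1, fun p hp => h2 p (by simpa using hp)⟩
  obtain ⟨K0, _, D0, hr0, N0, hN0⟩ := hex
  have hr : 0 < r := hr0 ▸ D0.r_pos
  -- the orbit
  obtain ⟨E, hE⟩ : ∃ E : Set P, E = {x | ∃ i : ℕ, x = (⇑s)^[i] p₀} := ⟨_, rfl⟩
  have hmE : ∀ p ∈ E, m p ≠ 0 := by
    rw [hE]
    rintro _ ⟨i, rfl⟩
    induction i with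
    | zero => exact hp₀
    | succ i ihi =>
      rw [Function.iterate_succ_apply', ← hN0.2]
      rw [← hN0.2] at ihi
      exact pem_sc hDQ3 N0 _ ihi
  have hmU : ∀ p, m p ≠ 0 → p ∈ U := by
    intro p hp
    by_contra hpU
    apply hp
    obtain ⟨-, -, -, -, h5, -⟩ := hDQ3 P M K0
    rw [← hN0.2, h5]
    intro x hx _
    rw [← hx]
    exact hN0.1.1 p hpU x
  have hEU : E ⊆ U := fun p hp => hmU p (hmE p hp)
  have hlvE : ∀ p ∈ E, M.lv p = M.lv p₀ := by
    rw [hE]
    rintro _ ⟨i, rfl⟩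
    induction i with
    | zero => rfl
    | succ i ihi => rw [Function.iterate_succ_apply', hA.sym.lv, ihi]
  have hsE : ∀ p, s p ∈ E ↔ p ∈ E := by
    intro p
    rw [hE]
    constructor
    · rintro ⟨i, hi⟩
      cases i with
      | zero =>
        refine ⟨r - 1, ?_⟩
        apply s.injective
        rw [← Function.iterate_succ_apply' (⇑s), show (r - 1).succ = r by omega, hA.per]
        exact hi
      | succ i =>
        refine ⟨i, ?_⟩
        apply s.injective
        rw [← Function.iterate_succ_apply' (⇑s)]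
        exact hi
    · rintro ⟨i, hi⟩
      exact ⟨i + 1, by rw [Function.iterate_succ_apply', ← hi]⟩
  have hOrb : Orb s E := ⟨p₀, hE⟩
  have hp₀E : p₀ ∈ E := by rw [hE]; exact ⟨0, rfl⟩
  obtain ⟨m', hm'⟩ : ∃ m' : P → ℕ, m' = fun p => m p - ind E p := ⟨_, rfl⟩
  have hm'le : ∀ p, m' p ≤ m p := fun p => by rw [hm']; exact Nat.sub_le _ _
  have hindp₀ : ind E p₀ = 1 := by rw [ind, Set.indicator_of_mem hp₀E]; rfl
  have hlt : ∑ p, m' p < n := by
    rw [← hn]
    refine Finset.sum_lt_sum (fun p _ => hm'le p) ⟨p₀, Finset.mem_univ _, ?_⟩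
    rw [hm']
    show m p₀ - ind E p₀ < m p₀
    rw [hindp₀]
    omega
  have hIH : PosT M s r U m' := by
    refine ih _ hlt m' rfl fun E' hO' hEU' hE' => hm E' hO' hEU' fun p hp => ?_
    have h1 := hE' p hp
    have h2 := hm'le p
    omega
  have hIE : PosT M s r U (ind E) := hm E hOrb hEU hmE
  -- bound
  obtain ⟨b, hb⟩ := (hBND P M).1 m'
  choose F hF using hIH
  choose G hG using hIE
  obtain ⟨Fs, hFs⟩ := pem_sums (box d) fun d₁ =>
    Finset.image₂ (fun (v : P → ℕ) (c : Polynomial ℕ) =>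
      Polynomial.X ^ (eul M (fun p => (d p : ℤ) - (d₁ p : ℤ))
        (fun p => (v p : ℤ) - (d₁ p : ℤ))).toNat * c) (box b)
      (Finset.image₂ (· * ·) (F d₁) (G (d - d₁)))
  refine ⟨Fs, fun K _ D hDr N hN => ?_⟩
  obtain ⟨I, hI⟩ := hFUN P M s K D U (hDr ▸ hA) E hEU hsE
  obtain ⟨N', hN', hiso⟩ := hPEE P M s K D U N I m E hOrb hN hI
    (fun p hp => Nat.one_le_iff_ne_zero.2 (hmE p hp))
  have hN'm : N'.GT U m' := by rw [hm']; exact hN'
  have hNc : N.cnt d = (N'.prod I).cnt d := ((hISO P M s K D).1 N (N'.prod I) hiso).1 d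
  have hTau : ∀ p r, M.Tau p r → I.toRp.sc p ≠ 0 → N'.toRp.dm r = 0 := by
    intro p x hpx hsc
    have hpE : p ∈ E := by
      by_contra hpE
      apply hsc
      rw [hI.2, ind, Set.indicator_of_notMem hpE]
    have h1 := M.lv_tau p x hpx
    have h2 := hlvE p hpE
    refine (hBND P M).2 K N'.toRp (M.lv p₀) (fun q hq => ?_) x (by omega)
    rw [hN'm.2]
    by_contra h3
    have h4 := hm'le q
    have h5 := hmin q (by omega)
    omega
  have key := (hSPC P M s K D N' I U hN'm.1 hI.1.1 hTau (fun _ => True) (fun _ => True) d).1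
  rw [pem_cntP2] at key
  simp only [pem_cntP] at key
  choose f hf hf2 using fun d₁ => hF d₁ K D hDr N' hN'm
  choose g hg hg2 using fun d₁ => hG d₁ K D hDr I hI
  refine ⟨∑ d₁ ∈ box d, Polynomial.X ^ (eul M (fun p => (d p : ℤ) - (d₁ p : ℤ))
        (fun p => (N'.toRp.dm p : ℤ) - (d₁ p : ℤ))).toNat * (f d₁ * g (d - d₁)), ?_, ?_⟩
  · apply hFs
    intro d₁ _
    have hdm : N'.toRp.dm ∈ box b := by
      rw [mem_box]
      exact hb K N'.toRp fun p => (hN'm.2 p).le
    exact Finset.mem_image₂_of_mem (f := fun (v : P → ℕ) (c : Polynomial ℕ) =>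
      Polynomial.X ^ (eul M (fun p => (d p : ℤ) - (d₁ p : ℤ))
        (fun p => (v p : ℤ) - (d₁ p : ℤ))).toNat * c) hdm
        (Finset.mem_image₂_of_mem (hf d₁) (hg (d - d₁)))
  · rw [hNc, key, Polynomial.eval_finsetSum]
    refine Finset.sum_congr rfl fun d₁ _ => ?_
    rw [Polynomial.eval_mul, Polynomial.eval_mul, Polynomial.eval_pow, Polynomial.eval_X, hf2,
      hg2]

end Pool.Agent.Lib.MP_4c1f79_al
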