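import Pool.Agent.Lib.MP_4c1f79_al.StmG

/-!
# MP_4c1f79_al : the piece RG1

A brick pair with Euler form equal to one is rigid.
-/

set_option autoImplicit false

namespace Pool.Agent.Lib.MP_4c1f79_al

open Finset Module

section RG1aux

variable {P : Type} [Fintype P] {M : Mesh P} {K : Type} [Field K]

theorem RG1_ext {X Y : Rp M K} {f g : X.T →ₗ[K] Y.T}
    (h : ∀ p r x, Y.e r (f (X.e p x)) = Y.e r (g (X.e p x))) : f = g := by
  apply LinearMap.ext
  intro x
  have key : ∀ p, f (X.e p x) = g (X.e p x) := by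
    intro p
    rw [← Y.e_sum (f (X.e p x)), ← Y.e_sum (g (X.e p x))]
    exact Finset.sum_congr rfl fun r _ => h p r x
  rw [← X.e_sum x, map_sum, map_sum]
  exact Finset.sum_congr rfl fun p _ => key p

theorem RG1_vext {Y : Rp M K} {y z : Y.T} (h : ∀ r, Y.e r y = Y.e r z) : y = z := by
  rw [← Y.e_sum y, ← Y.e_sum z]
  exact Finset.sum_congr rfl fun r _ => h r

theorem RG1_eq {X Y : Rp M K} {f : X.T →ₗ[K] Y.T} (hf : f ∈ shp X Y (fun p q => p = q))
    (p : P) (x : X.T) : f (X.e p x) = Y.e p (f x) := by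
  classical
  have h1 : f (X.e p x) = Y.e p (f (X.e p x)) := by
    conv_lhs => rw [← Y.e_sum (f (X.e p x))]
    rw [Finset.sum_eq_single p]
    · intro q _ hq
      exact hf p q (fun h => hq h.symm) x
    · intro h
      exact absurd (Finset.mem_univ p) h
  have h2 : Y.e p (f x) = Y.e p (f (X.e p x)) := by
    conv_lhs => rw [← X.e_sum x]
    rw [map_sum, map_sum, Finset.sum_eq_single p]
    · intro q _ hq
      exact hf q p hq x
    · intro h
      exact absurd (Finset.mem_univ p) h
  rw [h1, h2]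

open Classical in
/-- The projection of the space of all linear maps onto the maps of the shape `S`. -/
noncomputable def RG1pr (X Y : Rp M K) (S : P → P → Prop) (h : X.T →ₗ[K] Y.T) : X.T →ₗ[K] Y.T :=
  ∑ p, ∑ r, if S p r then Y.e r ∘ₗ h ∘ₗ X.e p else 0

theorem RG1pr_apply (X Y : Rp M K) (S : P → P → Prop) (h : X.T →ₗ[K] Y.T) (p r : P) (x : X.T)
    (hpr : S p r) : Y.e r (RG1pr X Y S h (X.e p x)) = Y.e r (h (X.e p x)) := by
  classical
  unfold RG1pr
  rw [LinearMap.sum_apply, map_sum, Finset.sum_eq_single p]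
  · rw [LinearMap.sum_apply, map_sum, Finset.sum_eq_single r]
    · rw [if_pos hpr]
      simp [Y.e_e, X.e_e]
    · intro r' _ hr'
      by_cases h' : S p r'
      · rw [if_pos h']
        simp [Y.e_ne r r' _ (fun h => hr' h.symm)]
      · rw [if_neg h', LinearMap.zero_apply, map_zero]
    · intro h'
      exact absurd (Finset.mem_univ r) h'
  · intro p' _ hp'
    rw [LinearMap.sum_apply, map_sum]
    apply Finset.sum_eq_zero
    intro r' _
    by_cases h' : S p' r'
    · rw [if_pos h']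
      simp [X.e_ne p' p x hp']
    · rw [if_neg h', LinearMap.zero_apply, map_zero]
  · intro h'
    exact absurd (Finset.mem_univ p) h'

theorem RG1pr_mem (X Y : Rp M K) (S : P → P → Prop) (h : X.T →ₗ[K] Y.T) :
    RG1pr X Y S h ∈ shp X Y S := by
  classical
  intro p r hpr x
  unfold RG1pr
  rw [LinearMap.sum_apply, map_sum]
  apply Finset.sum_eq_zero
  intro p' _
  rw [LinearMap.sum_apply, map_sum]
  apply Finset.sum_eq_zero
  intro r' _
  by_cases h' : S p' r'
  · rw [if_pos h']
    by_cases hp' : p' = p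
    · subst hp'
      have hr' : r ≠ r' := by
        rintro rfl
        exact hpr h'
      simp [Y.e_ne r r' _ hr']
    · simp [X.e_ne p' p x hp']
  · rw [if_neg h', LinearMap.zero_apply, map_zero]

theorem RG1pr_add (X Y : Rp M K) (S : P → P → Prop) (h k : X.T →ₗ[K] Y.T) :
    RG1pr X Y S (h + k) = RG1pr X Y S h + RG1pr X Y S k := by
  apply RG1_ext
  intro p r x
  by_cases hpr : S p r
  · rw [RG1pr_apply X Y S _ p r x hpr, LinearMap.add_apply, map_add, LinearMap.add_apply, map_add,
      RG1pr_apply X Y S _ p r x hpr, RG1pr_apply X Y S _ p r x hpr]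
  · rw [RG1pr_mem X Y S _ p r hpr x, LinearMap.add_apply, map_add, RG1pr_mem X Y S _ p r hpr x,
      RG1pr_mem X Y S _ p r hpr x, add_zero]

theorem RG1pr_smul (X Y : Rp M K) (S : P → P → Prop) (c : K) (h : X.T →ₗ[K] Y.T) :
    RG1pr X Y S (c • h) = c • RG1pr X Y S h := by
  apply RG1_ext
  intro p r x
  by_cases hpr : S p r
  · rw [RG1pr_apply X Y S _ p r x hpr, LinearMap.smul_apply, map_smul, LinearMap.smul_apply,
      map_smul, RG1pr_apply X Y S _ p r x hpr]
  · rw [RG1pr_mem X Y S _ p r hpr x, LinearMap.smul_apply, map_smul, RG1pr_mem X Y S _ p r hpr x,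
      smul_zero]

/-- The differential. -/
noncomputable def RG1d (X Y : Rp M K) (S0 S1 : P → P → Prop) : shp X Y S0 →ₗ[K] shp X Y S1 where
  toFun f := ⟨RG1pr X Y S1 (Y.a ∘ₗ f.1 - f.1 ∘ₗ X.a), RG1pr_mem X Y S1 _⟩
  map_add' f g := by
    apply Subtype.ext
    change RG1pr X Y S1 _ = RG1pr X Y S1 _ + RG1pr X Y S1 _
    rw [← RG1pr_add]
    congr 1
    apply LinearMap.ext
    intro x
    simp
    abel
  map_smul' c f := by
    apply Subtype.ext
    change RG1pr X Y S1 _ = c • RG1pr X Y S1 _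
    rw [← RG1pr_smul]
    congr 1
    apply LinearMap.ext
    intro x
    simp [smul_sub]

theorem RG1d_apply (X Y : Rp M K) (S0 S1 : P → P → Prop) (f : shp X Y S0) (p q : P)
    (hpq : S1 p q) (x : X.T) : Y.e q ((RG1d X Y S0 S1 f).1 (X.e p x))
      = Y.e q (Y.a (f.1 (X.e p x)) - f.1 (X.a (X.e p x))) :=
  RG1pr_apply X Y S1 (Y.a ∘ₗ f.1 - f.1 ∘ₗ X.a) p q x hpq

end RG1aux

theorem RG1_holds (hLD : S_LD) : S_RG1 := by
  classical
  intro P _ M K _ R k hB he g
  have fR : Module.Finite K R.T := Module.Finite.of_finite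
  let S0 : P → P → Prop := fun p q => p = q ∧ (M.lv p = k ∨ M.lv p = k + 1)
  let S1 : P → P → Prop := fun p q => M.Ar p q ∧ M.lv p = k + 1
  have e0 := hLD P M K R R S0
  have e1 := hLD P M K R R S1
  have le0 : ∀ f ∈ shp R R S0, f ∈ shp R R (fun p q => p = q) := by
    intro f hf p q hpq x
    exact hf p q (fun h => hpq h.1) x
  -- dimensions
  have c0 : (finrank K (shp R R S0) : ℤ)
      = ∑ p, if M.lv p = k ∨ M.lv p = k + 1 then (R.dm p : ℤ) * R.dm p else 0 := by
    rw [e0]
    push_cast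
    apply Finset.sum_congr rfl
    intro p _
    by_cases hp : M.lv p = k ∨ M.lv p = k + 1
    · rw [if_pos hp, Finset.sum_eq_single p]
      · rw [if_pos (show S0 p p from ⟨rfl, hp⟩)]
      · intro q _ hq
        rw [if_neg (fun h : S0 p q => hq h.1.symm)]
      · intro h
        exact absurd (Finset.mem_univ p) h
    · rw [if_neg hp]
      apply Finset.sum_eq_zero
      intro q _
      rw [if_neg (fun h : S0 p q => hp h.2)]
  have c1 : (finrank K (shp R R S1) : ℤ)
      = ∑ p, ∑ q, if M.Ar p q ∧ M.lv p = k + 1 then (R.dm p : ℤ) * R.dm q else 0 := by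
    rw [e1]
    push_cast
    rfl
  have hdim : (finrank K (shp R R S0) : ℤ) - finrank K (shp R R S1) = 1 := by
    rw [c0, c1]
    exact he
  -- the kernel
  let f0 : R.T →ₗ[K] R.T := ∑ p, if M.lv p = k ∨ M.lv p = k + 1 then R.e p else 0
  have f0_apply : ∀ p x, f0 (R.e p x)
      = if M.lv p = k ∨ M.lv p = k + 1 then R.e p x else 0 := by
    intro p x
    change (∑ p, if M.lv p = k ∨ M.lv p = k + 1 then R.e p else 0) (R.e p x) = _
    rw [LinearMap.sum_apply, Finset.sum_eq_single p]
    · by_cases hp : M.lv p = k ∨ M.lv p = k + 1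
      · rw [if_pos hp, if_pos hp, R.e_e]
      · rw [if_neg hp, if_neg hp, LinearMap.zero_apply]
    · intro p' _ hp'
      by_cases hp : M.lv p' = k ∨ M.lv p' = k + 1
      · rw [if_pos hp, R.e_ne p' p x hp']
      · rw [if_neg hp, LinearMap.zero_apply]
    · intro h
      exact absurd (Finset.mem_univ p) h
  have f0_mem : f0 ∈ shp R R S0 := by
    intro p q hpq x
    rw [f0_apply]
    by_cases hp : M.lv p = k ∨ M.lv p = k + 1
    · rw [if_pos hp]
      exact R.e_ne q p x (fun h => hpq ⟨h.symm, hp⟩)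
    · rw [if_neg hp, map_zero]
  have hker : LinearMap.ker (RG1d R R S0 S1) ≤ K ∙ (⟨f0, f0_mem⟩ : shp R R S0) := by
    intro f hf
    have hf0 : RG1d R R S0 S1 f = 0 := hf
    have hfe : ∀ p x, f.1 (R.e p x) = R.e p (f.1 x) := fun p x => RG1_eq (le0 f.1 f.2) p x
    obtain ⟨c, hc⟩ := hB f.1 hfe (by
      intro p hp x
      apply RG1_vext
      intro q
      by_cases hpq : M.Ar p q
      · have h1 := RG1d_apply R R S0 S1 f p q ⟨hpq, hp⟩ x
        rw [hf0] at h1
        have h2 : (0 : R.T) = R.e q (R.a (f.1 (R.e p x)) - f.1 (R.a (R.e p x))) := by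
          rw [← h1]
          change (0 : R.T) = R.e q 0
          rw [map_zero]
        rw [map_sub] at h2
        exact (sub_eq_zero.1 h2.symm).symm
      · rw [← hfe q, R.a_ar p q x hpq, map_zero, hfe p x, R.a_ar p q _ hpq])
    rw [Submodule.mem_span_singleton]
    refine ⟨c, ?_⟩
    apply Subtype.ext
    change c • f0 = f.1
    apply RG1_ext
    intro p r x
    rw [LinearMap.smul_apply, f0_apply]
    by_cases hp : M.lv p = k ∨ M.lv p = k + 1
    · rw [if_pos hp, hc p hp x]
    · rw [if_neg hp, smul_zero, map_zero]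
      exact (f.2 p r (fun h => hp h.2) x).symm
  have hsp : finrank K (K ∙ (⟨f0, f0_mem⟩ : shp R R S0)) ≤ 1 := by
    by_cases h : (⟨f0, f0_mem⟩ : shp R R S0) = 0
    · rw [h, Submodule.span_zero_singleton, finrank_bot]
      exact zero_le_one
    · rw [finrank_span_singleton h]
  have hk1 : finrank K (LinearMap.ker (RG1d R R S0 S1)) ≤ 1 :=
    (Submodule.finrank_mono hker).trans hsp
  have hrn := LinearMap.finrank_range_add_finrank_ker (RG1d R R S0 S1)
  have hle := Submodule.finrank_le (LinearMap.range (RG1d R R S0 S1))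
  have htop : LinearMap.range (RG1d R R S0 S1) = ⊤ := by
    apply Submodule.eq_top_of_finrank_eq
    omega
  rw [LinearMap.range_eq_top] at htop
  obtain ⟨f, hf⟩ := htop ⟨RG1pr R R S1 g, RG1pr_mem R R S1 g⟩
  refine ⟨f.1, le0 f.1 f.2, ?_⟩
  intro p q hp hpq x
  rw [← RG1d_apply R R S0 S1 f p q ⟨hpq, hp⟩ x, hf]
  exact (RG1pr_apply R R S1 g p q x ⟨hpq, hp⟩).symm

end Pool.Agent.Lib.MP_4c1f79_al
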