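import Pool.Agent.Lib.MP_4c1f79_al.StmG

/-!
# MP_4c1f79_al : piece RG2 (a rigid pair has nonnegative Euler form)
-/

set_option autoImplicit false

namespace Pool.Agent.Lib.MP_4c1f79_al

open Finset Module

variable {P : Type} [Fintype P] {M : Mesh P} {K : Type} [Field K]

open Classical in
/-- the coboundary on the arrows out of level `k + 1` -/
noncomputable def RG2_T (X Y : Rp M K) (k : ℕ) :
    (X.T →ₗ[K] Y.T) →ₗ[K] (X.T →ₗ[K] Y.T) where
  toFun f := ∑ p, ∑ q, if M.Ar p q ∧ M.lv p = k + 1 then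
    Y.e q ∘ₗ (Y.a ∘ₗ f - f ∘ₗ X.a) ∘ₗ X.e p else 0
  map_add' f g := by
    rw [← Finset.sum_add_distrib]
    apply Finset.sum_congr rfl
    intro p _
    rw [← Finset.sum_add_distrib]
    apply Finset.sum_congr rfl
    intro q _
    split_ifs
    · apply LinearMap.ext
      intro x
      simp only [LinearMap.comp_apply, LinearMap.sub_apply, LinearMap.add_apply, map_add, map_sub]
      abel
    · rw [add_zero]
  map_smul' c f := by
    rw [RingHom.id_apply, Finset.smul_sum]
    apply Finset.sum_congr rfl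
    intro p _
    rw [Finset.smul_sum]
    apply Finset.sum_congr rfl
    intro q _
    split_ifs
    · apply LinearMap.ext
      intro x
      simp only [LinearMap.comp_apply, LinearMap.sub_apply, LinearMap.smul_apply, map_smul,
        map_sub, smul_sub]
    · rw [smul_zero]

open Classical in
theorem RG2_T_apply (X Y : Rp M K) (k : ℕ) (f : X.T →ₗ[K] Y.T) (x : X.T) :
    RG2_T X Y k f x = ∑ p, ∑ q, if M.Ar p q ∧ M.lv p = k + 1 then
      Y.e q (Y.a (f (X.e p x)) - f (X.a (X.e p x))) else 0 := by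
  change (∑ p, ∑ q, if M.Ar p q ∧ M.lv p = k + 1 then
    Y.e q ∘ₗ (Y.a ∘ₗ f - f ∘ₗ X.a) ∘ₗ X.e p else 0) x = _
  rw [LinearMap.sum_apply]
  apply Finset.sum_congr rfl
  intro p _
  rw [LinearMap.sum_apply]
  apply Finset.sum_congr rfl
  intro q _
  split_ifs <;> rfl

theorem RG2_holds (hLD : S_LD) : S_RG2 := by
  classical
  intro P _ M K _ X Y k hrig
  have hX : Module.Finite K X.T := Module.Finite.of_finite
  have hY : Module.Finite K Y.T := Module.Finite.of_finite
  let C0 : Submodule K (X.T →ₗ[K] Y.T) :=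
    shp X Y fun p q => p = q ∧ (M.lv p = k ∨ M.lv p = k + 1)
  let C1 : Submodule K (X.T →ₗ[K] Y.T) := shp X Y fun p q => M.Ar p q ∧ M.lv p = k + 1
  have hle : C1 ≤ C0.map (RG2_T X Y k) := by
    intro g hg
    have hg' : ∀ p q, ¬ (M.Ar p q ∧ M.lv p = k + 1) → ∀ x, Y.e q (g (X.e p x)) = 0 := hg
    obtain ⟨f, hf, hfg⟩ := hrig g
    have hf' : ∀ p q, ¬ p = q → ∀ x, Y.e q (f (X.e p x)) = 0 := hf
    have hfe : ∀ p x, f (X.e p x) = Y.e p (f (X.e p x)) := by
      intro p x
      conv_lhs => rw [← Y.e_sum (f (X.e p x))]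
      rw [Finset.sum_eq_single p]
      · intro q _ hq
        exact hf' p q (Ne.symm hq) x
      · intro h
        exact absurd (Finset.mem_univ p) h
    let f' : X.T →ₗ[K] Y.T := ∑ p, if M.lv p = k ∨ M.lv p = k + 1 then Y.e p ∘ₗ f ∘ₗ X.e p else 0
    have hf'x : ∀ x, f' x = ∑ p, if M.lv p = k ∨ M.lv p = k + 1 then Y.e p (f (X.e p x)) else 0 := by
      intro x
      change (∑ p, if M.lv p = k ∨ M.lv p = k + 1 then Y.e p ∘ₗ f ∘ₗ X.e p else 0) x = _
      rw [LinearMap.sum_apply]
      apply Finset.sum_congr rfl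
      intro p _
      split_ifs <;> rfl
    have hf'e : ∀ p x, f' (X.e p x) = if M.lv p = k ∨ M.lv p = k + 1 then f (X.e p x) else 0 := by
      intro p x
      rw [hf'x, Finset.sum_eq_single p]
      · rw [X.e_e, ← hfe]
      · intro q _ hq
        rw [X.e_ne q p x hq, map_zero, map_zero, ite_self]
      · intro h
        exact absurd (Finset.mem_univ p) h
    refine ⟨f', ?_, ?_⟩
    · intro p q hpq x
      rw [hf'e]
      by_cases hp : M.lv p = k ∨ M.lv p = k + 1
      · rw [if_pos hp]
        exact hf' p q (fun h => hpq ⟨h, hp⟩) x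
      · rw [if_neg hp, map_zero]
    · apply LinearMap.ext
      intro x
      rw [RG2_T_apply]
      have h1 : g x = ∑ p, ∑ q, Y.e q (g (X.e p x)) := by
        conv_lhs => rw [← X.e_sum x, map_sum]
        apply Finset.sum_congr rfl
        intro p _
        exact (Y.e_sum _).symm
      rw [h1]
      apply Finset.sum_congr rfl
      intro p _
      apply Finset.sum_congr rfl
      intro q _
      by_cases hpq : M.Ar p q ∧ M.lv p = k + 1
      · rw [if_pos hpq, hfg p q hpq.2 hpq.1 x]
        congr 2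
        · rw [hf'e, if_pos (Or.inr hpq.2)]
        · rw [← X.e_sum (X.a (X.e p x)), map_sum, map_sum]
          apply Finset.sum_congr rfl
          intro r _
          by_cases hr : M.Ar p r
          · have hl := M.lv_ar p r hr
            rw [hf'e, if_pos (Or.inl (by omega))]
          · rw [X.a_ar p r x hr, map_zero, map_zero]
      · rw [if_neg hpq, hg' p q hpq x]
  have hfin : finrank K C1 ≤ finrank K C0 :=
    (Submodule.finrank_mono hle).trans (Submodule.finrank_map_le _ _)
  have e0 : finrank K C0 = ∑ p, ∑ q, if (p = q ∧ (M.lv p = k ∨ M.lv p = k + 1))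
      then X.dm p * Y.dm q else 0 := hLD P M K X Y _
  have e1 : finrank K C1 = ∑ p, ∑ q, if (M.Ar p q ∧ M.lv p = k + 1)
      then X.dm p * Y.dm q else 0 := hLD P M K X Y _
  rw [e0, e1] at hfin
  have h0 : (∑ p, ∑ q, if (p = q ∧ (M.lv p = k ∨ M.lv p = k + 1))
      then X.dm p * Y.dm q else 0) =
      ∑ p, if (M.lv p = k ∨ M.lv p = k + 1) then X.dm p * Y.dm p else 0 := by
    apply Finset.sum_congr rfl
    intro p _
    rw [Finset.sum_eq_single p]
    · by_cases hp : M.lv p = k ∨ M.lv p = k + 1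
      · rw [if_pos ⟨rfl, hp⟩, if_pos hp]
      · rw [if_neg (fun h => hp h.2), if_neg hp]
    · intro q _ hq
      rw [if_neg (fun h => hq h.1.symm)]
    · intro h
      exact absurd (Finset.mem_univ p) h
  rw [h0] at hfin
  unfold e2
  have hfin' : ((∑ p, ∑ q, if (M.Ar p q ∧ M.lv p = k + 1)
      then X.dm p * Y.dm q else 0 : ℕ) : ℤ) ≤
      ((∑ p, if (M.lv p = k ∨ M.lv p = k + 1) then X.dm p * Y.dm p else 0 : ℕ) : ℤ) := by
    exact_mod_cast hfin
  push_cast at hfin'
  linarith

end Pool.Agent.Lib.MP_4c1f79_al
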