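import Pool.Agent.Lib.MP_4c1f79_al.StmG

/-!
# MP_4c1f79_al : piece RG3 (helper68)
-/

set_option autoImplicit false

namespace Pool.Agent.Lib.MP_4c1f79_al

theorem RG3_holds : S_RG3 := by
  intro P _ M K _ X Y X' Y' k hrig ιX hιX ρX hρX hX ιY hιY ρY hρY hY g
  obtain ⟨f, hf, hfg⟩ := hrig (ιY ∘ₗ g ∘ₗ ρX)
  refine ⟨ρY ∘ₗ f ∘ₗ ιX, ?_, ?_⟩
  · intro p q hpq x
    rw [LinearMap.comp_apply, LinearMap.comp_apply, hιX.1 p x, ← hρY.1 q, hf p q hpq, map_zero]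
  · intro p q hp hpq x
    have h1 := hfg p q hp hpq (ιX x)
    have h2 : (ιY ∘ₗ g ∘ₗ ρX) (X.e p (ιX x)) = ιY (g (X'.e p x)) := by
      rw [LinearMap.comp_apply, LinearMap.comp_apply, hρX.1 p, hX]
    rw [h2] at h1
    have h3 : Y'.e q (g (X'.e p x)) = ρY (Y.e q (ιY (g (X'.e p x)))) := by
      rw [hρY.1 q, hY]
    rw [h3, h1, hρY.1 q, map_sub, hρY.2]
    simp only [LinearMap.comp_apply]
    rw [hιX.1 p x, hιX.2, hιX.1 p x]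

end Pool.Agent.Lib.MP_4c1f79_al
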