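import Pool.Agent.Lib.MP_4c1f79_al.StmB

/-!
# MP_4c1f79_al : piece RPE (good representations of every type)
-/

set_option autoImplicit false

namespace Pool.Agent.Lib.MP_4c1f79_al

open Finset Module

/-- the trivial datum -/
private noncomputable def rpe_D (K : Type) [Field K] [Finite K] : Fd K where
  φ := RingEquiv.refl K
  r := 1
  q := Nat.card K
  r_pos := Nat.one_pos
  q_gt := Finite.one_lt_card
  φ_r _ := rfl
  card_fix := Nat.card_congr (Equiv.subtypeUnivEquiv fun _ => rfl)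
  card_K := (pow_one _).symm

theorem RPE_holds (hEXM : S_EXM) : S_RPE := by
  intro P _ M K _ _ U m hm
  have hA : Adm M (1 : Equiv.Perm P) (rpe_D K).r U :=
    ⟨⟨fun _ _ => Iff.rfl, fun _ _ => Iff.rfl, fun _ => rfl⟩, fun _ => rfl, fun _ => Iff.rfl⟩
  obtain ⟨N, hN⟩ := hEXM P M 1 K (rpe_D K) U hA m (fun _ => rfl) hm
  exact ⟨N.toRp, hN.1, hN.2⟩

end Pool.Agent.Lib.MP_4c1f79_al
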