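import Pool.Agent.Lib.MP_4c1f79_al.StmG

/-!
# MP_4c1f79_al : RSP, positivity of restricted counts
-/

set_option autoImplicit false

namespace Pool.Agent.Lib.MP_4c1f79_al

open Finset Module

theorem RSP_holds (hRST : S_RST) (hBND : S_BND) : S_RSP := by
  classical
  intro P _ M s r U Rs hPos m d
  obtain ⟨b, hb⟩ := (hBND P M).1 m
  choose Gs hGs using hPos
  refine ⟨{0} ∪ (box b ×ˢ box b).biUnion
    (fun z : (P → ℕ) × (P → ℕ) => Gs z.1 (fun p => d p - z.2 p)), ?_⟩
  intro K _ D hr N hN B hB hT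
  have hdm : ∀ p, N.toRp.dm p ≤ b p := hb K N.toRp (fun p => (hN.2 p).le)
  have hgen : ∀ p, N.toRp.dmS (N.gen B) p ≤ b p := by
    intro p
    have : Module.Finite K N.T := Module.Finite.of_finite
    refine le_trans ?_ (hdm p)
    exact Submodule.finrank_mono (LinearMap.map_le_range)
  obtain ⟨h1, h2⟩ := hRST P M s K D N U Rs B hB hN.1 hT
  by_cases hR : N.Res Rs B (N.gen B)
  · obtain ⟨G, m', hG, -, -, hm', hc⟩ := h2 hR
    obtain ⟨h3, h4⟩ := hc d
    by_cases hle : ∀ p, N.toRp.dmS (N.gen B) p ≤ d p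
    · obtain ⟨f, hf, hfe⟩ := hGs m' (fun p => d p - N.toRp.dmS (N.gen B) p) K D hr G hG
      refine ⟨f, ?_, (h3 hle).trans hfe⟩
      rw [Finset.mem_union, Finset.mem_biUnion]
      right
      refine ⟨(m', N.toRp.dmS (N.gen B)), ?_, hf⟩
      rw [Finset.mem_product]
      exact ⟨mem_box.mpr fun p => (hm' p).trans (hdm p), mem_box.mpr hgen⟩
    · refine ⟨0, by simp, ?_⟩
      rw [h4 hle]
      simp
  · refine ⟨0, by simp, ?_⟩
    rw [h1 hR d]
    simp

end Pool.Agent.Lib.MP_4c1f79_al
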