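import Pool.Agent.Lib.MP_4c1f79_al.StmC

/-!
# MP_4c1f79_al : piece RST (summary of the restriction theorem)
-/

set_option autoImplicit false

namespace Pool.Agent.Lib.MP_4c1f79_al

open Finset Module

theorem RST_holds (hGC1 : S_GC1) (hGC2 : S_GC2) (hGC3 : S_GC3) (hGC4 : S_GC4) : S_RST := by
  intro P _ M s K _ D N U Rs B hB hU hT
  obtain ⟨h4a, h4b⟩ := hGC4 P M s K D N Rs B hB
  obtain ⟨hS, -, -, hO, -⟩ := hGC1 P M s K D N Rs B hB
  refine ⟨h4a, fun hR => ?_⟩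
  have hG2 := hGC2 P M s K D N U Rs B hB hU hR hT hS hO
  obtain ⟨h3a, h3b, h3c⟩ := hGC3 P M s K D N U Rs B hB hU hR hT hS hO
  have hscdm : ∀ u, (N.subq (N.gen B) (N.cog Rs B) hS hO).toRp.sc u ≤
      (N.subq (N.gen B) (N.cog Rs B) hS hO).toRp.dm u := by
    intro u
    exact Submodule.finrank_mono inf_le_left
  refine ⟨N.subq (N.gen B) (N.cog Rs B) hS hO,
    fun u => (N.subq (N.gen B) (N.cog Rs B) hS hO).toRp.sc u, ⟨hG2, fun p => rfl⟩, h3a, ?_, ?_, ?_⟩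
  · intro u hu
    have h1 := hscdm u
    rw [h3b u hu] at h1
    exact Nat.le_zero.1 h1
  · intro u
    have h1 := hscdm u
    have h2 := h3c u
    have h3 : N.toRp.dmS (N.cog Rs B) u ≤ N.toRp.dm u :=
      Submodule.finrank_mono (LinearMap.map_le_range)
    change (N.subq (N.gen B) (N.cog Rs B) hS hO).toRp.sc u ≤ N.toRp.dm u
    omega
  · intro d
    exact ⟨(h4b hR hS hO).1 d, (h4b hR hS hO).2 d⟩

end Pool.Agent.Lib.MP_4c1f79_al
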