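import Pool.Agent.Lib.MP_4c1f79_al.StmG

/-!
# [J4 RTR] A good representation with simple socle is a retract
-/

set_option autoImplicit false

namespace Pool.Agent.Lib.MP_4c1f79_al

open Finset Module

theorem RTR_holds (hEXT : S_EXT) (hDQ3 : S_DQ3) : S_RTR := by
  classical
  intro P _ M K _ T I U u hT hI hIsc hTsc
  obtain ⟨-, -, hD3, -, hD5, hD6⟩ := hDQ3 P M K
  -- socle vectors
  have hvec : ∀ R : Rp M K, R.sc u ≠ 0 → ∃ y : R.T, R.e u y = y ∧ R.a y = 0 ∧ y ≠ 0 := by
    intro R hR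
    by_contra hcon
    push Not at hcon
    apply hR
    rw [hD5 R u]
    exact fun x h1 h2 => hcon x h1 h2
  have hind : ind {u} u = 1 := by
    rw [ind, Set.indicator_of_mem (Set.mem_singleton u)]
    rfl
  have hIu : I.sc u = 1 := by rw [hIsc, hind]
  obtain ⟨y, hy1, hy2, hy3⟩ := hvec T hTsc
  obtain ⟨y', hy1', hy2', hy3'⟩ := hvec I (by rw [hIu]; exact one_ne_zero)
  have hl : ∃ l : I.T →ₗ[K] K, l y' = 1 := by
    have h1 : ∃ l : Module.Dual K I.T, l y' ≠ 0 := by
      by_contra hcon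
      push Not at hcon
      exact hy3' ((Module.forall_dual_apply_eq_zero_iff K _).1 hcon)
    obtain ⟨l, hl⟩ := h1
    refine ⟨(l y')⁻¹ • l, ?_⟩
    rw [LinearMap.smul_apply, smul_eq_mul, inv_mul_cancel₀ hl]
  obtain ⟨l, hl⟩ := hl
  have hq : ∀ (R : Rp M K) (z : R.T), R.e u z = z → ∀ q, q ≠ u → R.e q z = 0 := by
    intro R z hz q hq
    rw [← hz, R.e_ne q u z hq]
  -- the socle of `I`
  have hSt : I.St (K ∙ y') := by
    refine ⟨fun q x hx => ?_, fun x hx => ?_⟩
    · obtain ⟨c, rfl⟩ := Submodule.mem_span_singleton.1 hx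
      by_cases h : q = u
      · subst h
        rw [map_smul, hy1']
        exact hx
      · rw [map_smul, hq I y' hy1' q h, smul_zero]
        exact Submodule.zero_mem _
    · obtain ⟨c, rfl⟩ := Submodule.mem_span_singleton.1 hx
      rw [map_smul, hy2', smul_zero]
      exact Submodule.zero_mem _
  let g : (K ∙ y' : Submodule K I.T) →ₗ[K] T.T :=
    (l.comp (K ∙ y' : Submodule K I.T).subtype).smulRight y
  have hg : ∀ (c : K) (h : c • y' ∈ (K ∙ y' : Submodule K I.T)), g ⟨c • y', h⟩ = c • y := by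
    intro c h
    show l (c • y') • y = c • y
    rw [map_smul, hl, smul_eq_mul, mul_one]
  have hgH : g ∈ Rp.Hm (I.sub (K ∙ y') hSt) T := by
    refine ⟨fun q x => ?_, fun x => ?_⟩
    · obtain ⟨x, hx⟩ := x
      obtain ⟨c, rfl⟩ := Submodule.mem_span_singleton.1 hx
      by_cases h : q = u
      · subst h
        have h1 : (I.sub (K ∙ y') hSt).e q ⟨c • y', hx⟩ = ⟨c • y', hx⟩ :=
          Subtype.ext (by
            show I.e q (c • y') = c • y'
            rw [map_smul, hy1'])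
        have h2 : T.e q (g ⟨c • y', hx⟩) = g ⟨c • y', hx⟩ := by
          rw [hg, map_smul, hy1]
        exact (congrArg g h1).trans h2.symm
      · have h1 : (I.sub (K ∙ y') hSt).e q ⟨c • y', hx⟩ = 0 :=
          Subtype.ext (by
            show I.e q (c • y') = 0
            rw [map_smul, hq I y' hy1' q h, smul_zero])
        have h2 : T.e q (g ⟨c • y', hx⟩) = 0 := by
          rw [hg, map_smul, hq T y hy1 q h, smul_zero]
        exact (congrArg g h1).trans ((map_zero g).trans h2.symm)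
    · obtain ⟨x, hx⟩ := x
      obtain ⟨c, rfl⟩ := Submodule.mem_span_singleton.1 hx
      have h1 : (I.sub (K ∙ y') hSt).a ⟨c • y', hx⟩ = 0 :=
        Subtype.ext (by
          show I.a (c • y') = 0
          rw [map_smul, hy2', smul_zero])
      have h2 : T.a (g ⟨c • y', hx⟩) = 0 := by
        rw [hg, map_smul, hy2, smul_zero]
      exact (congrArg g h1).trans ((map_zero g).trans h2.symm)
  obtain ⟨ι, hι, hιg⟩ := hEXT P M K T I U hT hI.1 (K ∙ y') hSt g hgH
  have hιy : ι y' = y := by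
    have h0 : (1 : K) • y' ∈ (K ∙ y' : Submodule K I.T) :=
      Submodule.mem_span_singleton.2 ⟨1, rfl⟩
    have h1 : ι ((1 : K) • y') = g ⟨(1 : K) • y', h0⟩ := hιg ⟨(1 : K) • y', h0⟩
    rw [hg, one_smul, one_smul] at h1
    exact h1
  -- injectivity
  have hker : LinearMap.ker ι = ⊥ := by
    have hStk : I.St (LinearMap.ker ι) := by
      refine ⟨fun q x hx => ?_, fun x hx => ?_⟩
      · rw [LinearMap.mem_ker] at hx ⊢
        rw [hι.1, hx, map_zero]
      · rw [LinearMap.mem_ker] at hx ⊢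
        rw [hι.2, hx, map_zero]
    have h1 : ∀ q, (I.sub (LinearMap.ker ι) hStk).sc q = 0 := by
      intro q
      by_cases h : q = u
      · subst h
        rw [hD5]
        intro x hx1 hx2
        obtain ⟨x, hx⟩ := x
        have hx1' : I.e q x = x := congrArg Subtype.val hx1
        have hx2' : I.a x = 0 := congrArg Subtype.val hx2
        have h2 : (⟨y', ⟨⟨y', hy1'⟩, hy2'⟩⟩ :
            (LinearMap.range (I.e q) ⊓ LinearMap.ker I.a : Submodule K I.T)) ≠ 0 := by
          intro h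
          exact hy3' (congrArg Subtype.val h)
        obtain ⟨c, hc⟩ := (finrank_eq_one_iff_of_nonzero' _ h2).1 hIu
          ⟨x, ⟨⟨x, hx1'⟩, hx2'⟩⟩
        have h3 : c • y' = x := congrArg Subtype.val hc
        have h4 : ι x = 0 := hx
        rw [← h3, map_smul, hιy] at h4
        rcases smul_eq_zero.1 h4 with h5 | h5
        · apply Subtype.ext
          show x = 0
          rw [← h3, h5, zero_smul]
        · exact absurd h5 hy3
      · have h2 := hD3 I (LinearMap.ker ι) hStk q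
        rw [hIsc, ind, Set.indicator_of_notMem (by simpa using h)] at h2
        omega
    rw [eq_bot_iff]
    intro x hx
    have h2 := hD6 (I.sub (LinearMap.ker ι) hStk) h1 ⟨x, hx⟩
    exact congrArg Subtype.val h2
  have hinj : Function.Injective ι := LinearMap.ker_eq_bot.1 hker
  -- the retraction
  have hStR : T.St (LinearMap.range ι) := by
    refine ⟨?_, ?_⟩
    · rintro p _ ⟨z, rfl⟩
      exact ⟨I.e p z, hι.1 p z⟩
    · rintro _ ⟨z, rfl⟩
      exact ⟨I.a z, hι.2 z⟩
  let g' : LinearMap.range ι →ₗ[K] I.T := (LinearEquiv.ofInjective ι hinj).symm.toLinearMap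
  have hg' : ∀ z (hz : ι z ∈ LinearMap.range ι), g' ⟨ι z, hz⟩ = z := by
    intro z hz
    have h1 : (⟨ι z, hz⟩ : LinearMap.range ι) = LinearEquiv.ofInjective ι hinj z :=
      Subtype.ext rfl
    show (LinearEquiv.ofInjective ι hinj).symm ⟨ι z, hz⟩ = z
    rw [h1, LinearEquiv.symm_apply_apply]
  have hghom : g' ∈ Rp.Hm (T.sub (LinearMap.range ι) hStR) I := by
    refine ⟨?_, ?_⟩
    · rintro p ⟨_, ⟨z, rfl⟩⟩
      have h1 : ((T.sub (LinearMap.range ι) hStR).e p ⟨ι z, ⟨z, rfl⟩⟩ : LinearMap.range ι) =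
          ⟨ι (I.e p z), ⟨_, rfl⟩⟩ := Subtype.ext (hι.1 p z).symm
      have h2 : g' ((T.sub (LinearMap.range ι) hStR).e p ⟨ι z, ⟨z, rfl⟩⟩) = I.e p z := by
        rw [h1]
        exact hg' _ _
      exact h2.trans (congrArg (I.e p) (hg' z _).symm)
    · rintro ⟨_, ⟨z, rfl⟩⟩
      have h1 : ((T.sub (LinearMap.range ι) hStR).a ⟨ι z, ⟨z, rfl⟩⟩ : LinearMap.range ι) =
          ⟨ι (I.a z), ⟨_, rfl⟩⟩ := Subtype.ext (hι.2 z).symm
      have h2 : g' ((T.sub (LinearMap.range ι) hStR).a ⟨ι z, ⟨z, rfl⟩⟩) = I.a z := by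
        rw [h1]
        exact hg' _ _
      exact h2.trans (congrArg I.a (hg' z _).symm)
  obtain ⟨ρ, hρ, hρg⟩ := hEXT P M K I T U hI hT.1 (LinearMap.range ι) hStR g' hghom
  refine ⟨ι, hι, ρ, hρ, fun z => ?_⟩
  have h1 : ρ (ι z) = g' ⟨ι z, ⟨z, rfl⟩⟩ := hρg ⟨ι z, ⟨z, rfl⟩⟩
  rw [h1, hg']

end Pool.Agent.Lib.MP_4c1f79_al
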