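import Pool.Agent.Lib.MP_4c1f79_al.Stm8

/-!
# MP_4c1f79_al : piece SAG (the sums `sA`, `sT` and the form `e2` on a grid)
-/

set_option autoImplicit false

namespace Pool.Agent.Lib.MP_4c1f79_al

open Finset Module

private theorem SAG_pair {L : ℕ} (k : ℕ) (h : k + 1 < L) (f : Fin L → ℤ)
    (P : Fin L → Prop) [DecidablePred P] (hP : ∀ j : Fin L, P j ↔ ((j : ℕ) = k ∨ (j : ℕ) = k + 1)) :
    (∑ j, if P j then f j else 0) = f ⟨k, by omega⟩ + f ⟨k + 1, h⟩ := by
  rw [← Finset.sum_filter]
  have h1 : (Finset.univ.filter P : Finset (Fin L)) = {⟨k, by omega⟩, ⟨k + 1, h⟩} := by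
    ext j
    simp only [Finset.mem_filter, Finset.mem_univ, true_and, hP, Finset.mem_insert,
      Finset.mem_singleton, Fin.ext_iff]
  rw [h1, Finset.sum_pair]
  intro h2
  have h3 := congrArg Fin.val h2
  simp at h3

theorem SAG_holds : S_SAG := by
  intro n L adj hs y
  refine ⟨?_, ?_, ?_, ?_, ?_⟩
  · intro v k h
    unfold sA
    rw [Fintype.sum_prod_type]
    apply Finset.sum_congr rfl
    intro w _
    rw [Finset.sum_eq_single (⟨k, by omega⟩ : Fin L)]
    · by_cases hw : adj v w = true
      · rw [if_pos hw]
        exact if_pos ⟨hw, rfl⟩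
      · rw [if_neg hw]
        exact if_neg fun h1 => hw h1.1
    · intro j _ hj
      refine if_neg fun h1 => hj ?_
      have h2 : k + 1 = (j : ℕ) + 1 := h1.2
      apply Fin.ext
      show (j : ℕ) = k
      omega
    · intro h1
      exact absurd (Finset.mem_univ _) h1
  · intro v h
    unfold sA
    apply Finset.sum_eq_zero
    intro q _
    refine if_neg fun h1 => ?_
    have h2 : 0 = (q.2 : ℕ) + 1 := h1.2
    omega
  · intro v k h
    unfold sT
    rw [Finset.sum_eq_single ((v, ⟨k, by omega⟩) : Fin n × Fin L)]
    · exact if_pos ⟨rfl, rfl⟩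
    · rintro ⟨w, j⟩ _ hj
      refine if_neg fun h1 => hj ?_
      have h2 : v = w := h1.1
      have h3 : k + 2 = (j : ℕ) + 2 := h1.2
      apply Prod.ext
      · exact h2.symm
      · apply Fin.ext
        show (j : ℕ) = k
        omega
    · intro h1
      exact absurd (Finset.mem_univ _) h1
  · intro v k hk
    unfold sT
    apply Finset.sum_eq_zero
    intro q _
    refine if_neg fun h1 => ?_
    have h2 : (k : ℕ) = (q.2 : ℕ) + 2 := h1.2
    omega
  · intro x k h
    unfold e2
    congr 1
    · rw [Fintype.sum_prod_type]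
      apply Finset.sum_congr rfl
      intro v _
      exact SAG_pair k h (fun j => (x (v, j) : ℤ) * y (v, j)) _ (fun j => Iff.rfl)
    · rw [Fintype.sum_prod_type]
      apply Finset.sum_congr rfl
      intro v _
      rw [Finset.sum_eq_single (⟨k + 1, h⟩ : Fin L)]
      · rw [Fintype.sum_prod_type]
        apply Finset.sum_congr rfl
        intro w _
        rw [Finset.sum_eq_single (⟨k, by omega⟩ : Fin L)]
        · by_cases hw : adj v w = true
          · rw [if_pos hw]
            exact if_pos ⟨⟨hw, rfl⟩, rfl⟩
          · rw [if_neg hw]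
            exact if_neg fun h1 => hw h1.1.1
        · intro j _ hj
          refine if_neg fun h1 => hj ?_
          have h2 : k + 1 = (j : ℕ) + 1 := h1.1.2
          apply Fin.ext
          show (j : ℕ) = k
          omega
        · intro h1
          exact absurd (Finset.mem_univ _) h1
      · intro j _ hj
        apply Finset.sum_eq_zero
        intro q _
        refine if_neg fun h1 => hj ?_
        have h2 : (j : ℕ) = k + 1 := h1.2
        exact Fin.ext h2
      · intro h1
        exact absurd (Finset.mem_univ _) h1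

end Pool.Agent.Lib.MP_4c1f79_al
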