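import Pool.Agent.Lib.MP_4c1f79_al.StmB

/-!
# MP_4c1f79_al : piece SOC (a nonzero sub contains the socle)
-/

set_option autoImplicit false

namespace Pool.Agent.Lib.MP_4c1f79_al

open Finset Module

theorem SOC_F_ne {P : Type} [Fintype P] {M : Mesh P} {s : Equiv.Perm P} {K : Type} [Field K]
    {D : Fd K} (N : FM M s K D) {w : N.T} (hw : w ≠ 0) : N.F w ≠ 0 := by
  intro h
  have h1 := N.F_r w
  have h2 : D.r = (D.r - 1) + 1 := by
    have := D.r_pos
    omega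
  rw [h2, Function.iterate_succ_apply, h] at h1
  have h3 : ∀ n : ℕ, (⇑N.F)^[n] 0 = 0 := by
    intro n
    induction n with
    | zero => rfl
    | succ n ih => rw [Function.iterate_succ_apply, map_zero, ih]
  rw [h3] at h1
  exact hw h1.symm

theorem SOC_orb {P : Type} [Fintype P] {s : Equiv.Perm P} {E : Set P} (hE : Orb s E) {p p' : P}
    (hp : p ∈ E) (hp' : p' ∈ E) : ∃ k : ℕ, p' = (⇑s)^[k] p := by
  classical
  obtain ⟨q, rfl⟩ := hE
  obtain ⟨i, hi⟩ := hp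
  obtain ⟨j, hj⟩ := hp'
  have hn : 0 < orderOf s := orderOf_pos s
  refine ⟨j + (orderOf s - 1) * i, ?_⟩
  rw [hi, ← Function.iterate_add_apply, hj]
  have h1 : j + (orderOf s - 1) * i + i = j + orderOf s * i := by
    obtain ⟨m, hm⟩ : ∃ m, orderOf s = m + 1 := ⟨orderOf s - 1, by omega⟩
    rw [hm]
    simp only [Nat.add_sub_cancel]
    ring
  rw [h1, Function.iterate_add_apply]
  congr 1
  have h2 : (s ^ (orderOf s * i)) q = q := by
    rw [pow_mul, pow_orderOf_eq_one, one_pow, Equiv.Perm.one_apply]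
  have h3 : (⇑(s ^ (orderOf s * i)) : P → P) = (⇑s)^[orderOf s * i] := Equiv.Perm.coe_pow s _
  rw [← h3]
  exact h2.symm

theorem SOC_holds (hDQ3 : S_DQ3) : S_SOC := by
  intro P _ M s K _ D N E hE hsc W hW hne p hp x hx1 hx2
  obtain ⟨d1, d2, d3, d4, d5, d6⟩ := hDQ3 P M K
  -- a position with a nonzero socle vector
  obtain ⟨p0, hp0⟩ : ∃ p0, (N.toRp.sub W hW.1).sc p0 ≠ 0 := by
    by_contra h
    push Not at h
    apply hne
    rw [Submodule.eq_bot_iff]
    intro y hy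
    have h1 := d6 (N.toRp.sub W hW.1) h (⟨y, hy⟩ : W)
    exact congrArg Subtype.val h1
  have hp0E : p0 ∈ E := by
    by_contra h
    have h1 := d3 N.toRp W hW.1 p0
    rw [hsc p0] at h1
    unfold ind at h1
    rw [Set.indicator_of_notMem h] at h1
    exact hp0 (Nat.le_zero.1 h1)
  obtain ⟨w, hw1, hw2, hw3⟩ : ∃ w : (N.toRp.sub W hW.1).T, (N.toRp.sub W hW.1).e p0 w = w ∧
      (N.toRp.sub W hW.1).a w = 0 ∧ w ≠ 0 := by
    by_contra h
    push Not at h
    exact hp0 ((d5 (N.toRp.sub W hW.1) p0).2 h)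
  have key : ∀ k : ℕ, ∃ y : N.T, N.e ((⇑s)^[k] p0) y = y ∧ N.a y = 0 ∧ y ∈ W ∧ y ≠ 0 := by
    intro k
    induction k with
    | zero =>
      exact ⟨w.1, congrArg Subtype.val hw1, congrArg Subtype.val hw2, w.2,
        fun h => hw3 (Subtype.ext h)⟩
    | succ k ih =>
      obtain ⟨y, hy1, hy2, hy3, hy4⟩ := ih
      refine ⟨N.F y, ?_, ?_, hW.2 y hy3, SOC_F_ne N hy4⟩
      · rw [Function.iterate_succ_apply', ← N.F_e, hy1]
      · rw [← N.F_a, hy2, map_zero]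
  obtain ⟨k, hk⟩ := SOC_orb hE hp0E hp
  obtain ⟨y, hy1, hy2, hy3, hy4⟩ := key k
  rw [← hk] at hy1
  have hone : finrank K (LinearMap.range (N.e p) ⊓ LinearMap.ker N.a : Submodule K N.T) = 1 := by
    have h1 := hsc p
    unfold ind at h1
    rw [Set.indicator_of_mem hp] at h1
    exact h1
  have hy : y ∈ (LinearMap.range (N.e p) ⊓ LinearMap.ker N.a : Submodule K N.T) :=
    ⟨⟨y, hy1⟩, hy2⟩
  have hx : x ∈ (LinearMap.range (N.e p) ⊓ LinearMap.ker N.a : Submodule K N.T) :=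
    ⟨⟨x, hx1⟩, hx2⟩
  have hnz : (⟨y, hy⟩ : (LinearMap.range (N.e p) ⊓ LinearMap.ker N.a : Submodule K N.T)) ≠ 0 :=
    fun h => hy4 (congrArg Subtype.val h)
  obtain ⟨c, hc⟩ := (finrank_eq_one_iff_of_nonzero' _ hnz).1 hone ⟨x, hx⟩
  have hc' : c • y = x := congrArg Subtype.val hc
  rw [← hc']
  exact W.smul_mem c hy3

end Pool.Agent.Lib.MP_4c1f79_al
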