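import Pool.Agent.Lib.MP_4c1f79_al.StmD

/-!
# MP_4c1f79_al : piece SOE (the Euler form with the dimension vector of a module with simple socle)
-/

set_option autoImplicit false

namespace Pool.Agent.Lib.MP_4c1f79_al

open Finset Module

private theorem soe_eul {P : Type} [Fintype P] (M : Mesh P) (x : P → ℤ) (D : P → ℕ) :
    eul M x (fun p => (D p : ℤ)) = ∑ p, x p * ((D p : ℤ) - sA M D p + sT M D p) := by
  classical
  unfold eul
  rw [← Finset.sum_sub_distrib, ← Finset.sum_add_distrib]
  refine Finset.sum_congr rfl fun p _ => ?_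
  rw [sA, sT, mul_add, mul_sub]
  push_cast
  rw [Finset.mul_sum, Finset.mul_sum]
  congr 1
  · congr 1
    refine Finset.sum_congr rfl fun q _ => ?_
    split_ifs
    · rfl
    · rw [mul_zero]
  · refine Finset.sum_congr rfl fun q _ => ?_
    split_ifs
    · rfl
    · rw [mul_zero]

theorem SOE_holds (hDIM : S_DIM) : S_SOE := by
  classical
  intro P _ M K _ R U u hG hsc x hxU hxr
  rw [soe_eul]
  have h1 : ∀ p, x p * ((R.dm p : ℤ) - sA M R.dm p + sT M R.dm p) = x p * (ind {u} p : ℕ) := by
    intro p
    by_cases hx : x p = 0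
    · rw [hx, zero_mul, zero_mul]
    have hpU : p ∈ U := by
      by_contra h
      exact hx (hxU p h)
    have h2 : ∀ r, M.Tau p r → R.Onto r ∨ R.dm r = 0 := by
      intro r hr
      by_contra h
      exact hx (hxr p r hr h)
    have h3 := (hDIM P M K R p (hG.2 p hpU)).2 h2
    rw [hsc] at h3
    have h4 : ((ind {u} p : ℕ) : ℤ) + (sA M R.dm p : ℤ) = (R.dm p : ℤ) + (sT M R.dm p : ℤ) := by
      exact_mod_cast h3
    congr 1
    linarith
  rw [Finset.sum_congr rfl fun p _ => h1 p, Finset.sum_eq_single u]
  · rw [ind, Set.indicator_of_mem (Set.mem_singleton u)]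
    simp
  · intro p _ hp
    rw [ind, Set.indicator_of_notMem (by simpa using hp)]
    simp
  · intro h
    exact absurd (Finset.mem_univ u) h

end Pool.Agent.Lib.MP_4c1f79_al
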