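import Pool.Agent.Lib.MP_4c1f79_al.StmA

/-!
# MP_4c1f79_al, piece [SPC]: the splitting formula
-/

set_option autoImplicit false

namespace Pool.Agent.Lib.MP_4c1f79_al

open Finset Module

variable {P : Type} [Fintype P] {M : Mesh P} {s : Equiv.Perm P} {K : Type} [Field K] {D : Fd K}

theorem spc_st_comap (N₁ N₂ : FM M s K D) (W : Submodule K (N₁.T × N₂.T))
    (h : (N₁.prod N₂).St W) : N₁.St (W.comap (LinearMap.inl K N₁.T N₂.T)) := by
  refine ⟨⟨fun p x hx => ?_, fun x hx => ?_⟩, fun x hx => ?_⟩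
  · have h1 : (N₁.prod N₂).toRp.e p ((x, 0) : N₁.T × N₂.T) ∈ W := h.1.1 p _ hx
    have h2 : (N₁.prod N₂).toRp.e p ((x, 0) : N₁.T × N₂.T) = ((N₁.e p x, 0) : N₁.T × N₂.T) :=
      Prod.ext rfl (map_zero (N₂.e p))
    rw [h2] at h1
    exact h1
  · have h1 : (N₁.prod N₂).toRp.a ((x, 0) : N₁.T × N₂.T) ∈ W := h.1.2 _ hx
    have h2 : (N₁.prod N₂).toRp.a ((x, 0) : N₁.T × N₂.T) = ((N₁.a x, 0) : N₁.T × N₂.T) :=
      Prod.ext rfl (map_zero N₂.a)
    rw [h2] at h1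
    exact h1
  · have h1 : (N₁.prod N₂).F ((x, 0) : N₁.T × N₂.T) ∈ W := h.2 _ hx
    have h2 : (N₁.prod N₂).F ((x, 0) : N₁.T × N₂.T) = ((N₁.F x, 0) : N₁.T × N₂.T) :=
      Prod.ext rfl (map_zero N₂.F)
    rw [h2] at h1
    exact h1

theorem spc_st_map (N₁ N₂ : FM M s K D) (W : Submodule K (N₁.T × N₂.T))
    (h : (N₁.prod N₂).St W) : N₂.St (W.map (LinearMap.snd K N₁.T N₂.T)) := by
  refine ⟨⟨fun p x hx => ?_, fun x hx => ?_⟩, fun x hx => ?_⟩
  · obtain ⟨w, hw, rfl⟩ := hx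
    exact ⟨_, h.1.1 p w hw, rfl⟩
  · obtain ⟨w, hw, rfl⟩ := hx
    exact ⟨_, h.1.2 w hw, rfl⟩
  · obtain ⟨w, hw, rfl⟩ := hx
    exact ⟨_, h.2 w hw, rfl⟩

open Classical in
theorem spc_cntP (N : FM M s K D) [Fintype (Submodule K N.T)] (A : Submodule K N.T → Prop)
    (d : P → ℕ) : N.cntP A d
      = (univ.filter fun W : Submodule K N.T => N.St W ∧ A W ∧ ∀ p, N.toRp.dmS W p = d p).card := by
  unfold FM.cntP
  rw [Nat.card_eq_fintype_card, Fintype.card_subtype]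

open Classical in
theorem spc_cntP_ex (N : FM M s K D) (A : Submodule K N.T → Prop) (d : P → ℕ) :
    ∃ FW : Finset (Submodule K N.T),
      (∀ W, W ∈ FW ↔ (N.St W ∧ A W ∧ ∀ p, N.toRp.dmS W p = d p)) ∧ N.cntP A d = FW.card := by
  let i1 : Fintype (Submodule K N.T) := Fintype.ofFinite _
  refine ⟨_, fun W => ?_, spc_cntP N A d⟩
  rw [Finset.mem_filter]
  exact ⟨fun h => h.2, fun h => ⟨mem_univ _, h⟩⟩

open Classical in
theorem SPC_holds (hSPL : S_SPL) (hDQ2 : S_DQ2) : S_SPC := by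
  intro P _ M s K _ D N₁ N₂ U hG hS hsc A B d
  have hdim : ∀ (W : Submodule K (N₁.T × N₂.T)) (p : P), (N₁.prod N₂).St W →
      (N₁.prod N₂).toRp.dmS W p
        = N₁.toRp.dmS (W.comap (LinearMap.inl K N₁.T N₂.T)) p
          + N₂.toRp.dmS (W.map (LinearMap.snd K N₁.T N₂.T)) p := by
    intro W p hW
    exact (hDQ2 P M K).2.2.2.2 N₁.toRp N₂.toRp W p hW.1
  let i1 : Fintype (Submodule K N₁.T) := Fintype.ofFinite _
  let i2 : Fintype (Submodule K N₂.T) := Fintype.ofFinite _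
  let i12 : Fintype (Submodule K (N₁.T × N₂.T)) := Fintype.ofFinite _
  let i12' : Fintype (Submodule K (N₁.prod N₂).T) := i12
  constructor
  · have key : ∀ FW : Finset (Submodule K (N₁.T × N₂.T)), (∀ W, W ∈ FW ↔
      ((N₁.prod N₂).St W ∧ (A (W.comap (LinearMap.inl K N₁.T N₂.T)) ∧
        B (W.map (LinearMap.snd K N₁.T N₂.T))) ∧ ∀ p, (N₁.prod N₂).toRp.dmS W p = d p)) →
      FW.card = ∑ d₁ ∈ box d, D.q ^ (eul M (fun p => (d p : ℤ) - (d₁ p : ℤ))
        (fun p => (N₁.toRp.dm p : ℤ) - (d₁ p : ℤ))).toNat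
        * (N₁.cntP A d₁ * N₂.cntP B (d - d₁)) := by
     intro FW hFW
     have hbox : ∀ W ∈ FW, (fun p => N₁.toRp.dmS (W.comap (LinearMap.inl K N₁.T N₂.T)) p) ∈
        box d := by
      intro W hW
      rw [hFW] at hW
      rw [mem_box]
      intro p
      have h1 := hdim W p hW.1
      have h2 := hW.2.2 p
      show N₁.toRp.dmS (W.comap (LinearMap.inl K N₁.T N₂.T)) p ≤ d p
      omega
     have hc : FW.card = ∑ d₁ ∈ box d, (FW.filter fun W =>
        (fun p => N₁.toRp.dmS (W.comap (LinearMap.inl K N₁.T N₂.T)) p) = d₁).card :=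
      Finset.card_eq_sum_card_fiberwise (fun W hW => hbox W hW)
     rw [hc]
     apply Finset.sum_congr rfl
     intro d₁ hd₁
     rw [mem_box] at hd₁
     rw [spc_cntP N₁, spc_cntP N₂]
     set F₁ := (univ.filter fun W : Submodule K N₁.T =>
       N₁.St W ∧ A W ∧ ∀ p, N₁.toRp.dmS W p = d₁ p) with hF₁
     set F₂ := (univ.filter fun W : Submodule K N₂.T =>
       N₂.St W ∧ B W ∧ ∀ p, N₂.toRp.dmS W p = (d - d₁) p) with hF₂
     have hc2 := Finset.card_eq_sum_card_fiberwise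
      (s := FW.filter fun W =>
        (fun p => N₁.toRp.dmS (W.comap (LinearMap.inl K N₁.T N₂.T)) p) = d₁)
      (t := F₁ ×ˢ F₂)
      (f := fun W => (W.comap (LinearMap.inl K N₁.T N₂.T), W.map (LinearMap.snd K N₁.T N₂.T)))
      (by
        intro W hW
        rw [mem_coe, mem_filter, hFW] at hW
        obtain ⟨⟨hSt, ⟨hA, hB⟩, hd⟩, hd1⟩ := hW
        rw [mem_coe, mem_product, hF₁, hF₂, mem_filter, mem_filter]
        refine ⟨⟨mem_univ _, spc_st_comap N₁ N₂ W hSt, hA, fun p => congrFun hd1 p⟩,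
          ⟨mem_univ _, spc_st_map N₁ N₂ W hSt, hB, fun p => ?_⟩⟩
        have h1 := hdim W p hSt
        have h2 := hd p
        have h3 := congrFun hd1 p
        have h4 : N₁.toRp.dmS (W.comap (LinearMap.inl K N₁.T N₂.T)) p = d₁ p := h3
        show N₂.toRp.dmS (W.map (LinearMap.snd K N₁.T N₂.T)) p = d p - d₁ p
        omega)
     rw [hc2]
     have hconst : ∀ b ∈ F₁ ×ˢ F₂, ((FW.filter fun W =>
        (fun p => N₁.toRp.dmS (W.comap (LinearMap.inl K N₁.T N₂.T)) p) = d₁).filter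
          fun W => (W.comap (LinearMap.inl K N₁.T N₂.T), W.map (LinearMap.snd K N₁.T N₂.T)) = b).card
        = D.q ^ (eul M (fun p => (d p : ℤ) - (d₁ p : ℤ))
        (fun p => (N₁.toRp.dm p : ℤ) - (d₁ p : ℤ))).toNat := by
      rintro ⟨W₁, W₂⟩ hb
      rw [mem_product, hF₁, hF₂, mem_filter, mem_filter] at hb
      obtain ⟨⟨-, hS1, hA, hD1⟩, ⟨-, hS2, hB, hD2⟩⟩ := hb
      simp only at hS1 hA hD1 hS2 hB hD2
      obtain ⟨n, hn, hcard⟩ := hSPL P M s K D N₁ N₂ U hG hS hsc W₁ W₂ hS1 hS2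
      have e1 : (fun p => (N₂.toRp.dmS W₂ p : ℤ)) = fun p => (d p : ℤ) - (d₁ p : ℤ) := by
        funext p
        rw [hD2 p]
        have h3 : d₁ p ≤ d p := hd₁ p
        show ((d p - d₁ p : ℕ) : ℤ) = (d p : ℤ) - (d₁ p : ℤ)
        omega
      have e2 : (fun p => (N₁.toRp.dm p : ℤ) - (N₁.toRp.dmS W₁ p : ℤ))
          = fun p => (N₁.toRp.dm p : ℤ) - (d₁ p : ℤ) := by
        funext p
        rw [hD1 p]
      rw [e1, e2] at hn
      rw [← hn, Int.toNat_natCast, ← hcard, Nat.card_eq_fintype_card, Fintype.card_subtype]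
      congr 1
      ext W
      rw [mem_filter, mem_filter, hFW, mem_filter]
      constructor
      · rintro ⟨⟨⟨hSt, -, -⟩, -⟩, hb⟩
        rw [Prod.mk.injEq] at hb
        exact ⟨mem_univ _, hSt, hb.1, hb.2⟩
      · rintro ⟨-, hSt, hc, hm⟩
        refine ⟨⟨⟨hSt, ⟨by rw [hc]; exact hA, by rw [hm]; exact hB⟩, fun p => ?_⟩,
          ?_⟩, by rw [hc, hm]⟩
        · rw [hdim W p hSt, hc, hm, hD1 p, hD2 p]
          have h3 : d₁ p ≤ d p := hd₁ p
          show d₁ p + (d p - d₁ p) = d p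
          omega
        · funext p
          rw [hc]
          exact hD1 p
     rw [Finset.sum_congr rfl hconst, Finset.sum_const, card_product, smul_eq_mul, mul_comm]
    obtain ⟨FW, hFW, hcard⟩ := spc_cntP_ex (N₁.prod N₂)
      (fun W => A (W.comap (LinearMap.inl K N₁.T N₂.T)) ∧
        B (W.map (LinearMap.snd K N₁.T N₂.T))) d
    exact hcard.trans (key FW hFW)
  · intro d₁ hd₁ h1 h2
    rw [spc_cntP N₁] at h1
    rw [spc_cntP N₂] at h2
    obtain ⟨W₁, hW₁⟩ := Finset.card_ne_zero.1 h1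
    obtain ⟨W₂, hW₂⟩ := Finset.card_ne_zero.1 h2
    rw [mem_filter] at hW₁ hW₂
    obtain ⟨-, hS1, -, hD1⟩ := hW₁
    obtain ⟨-, hS2, -, hD2⟩ := hW₂
    obtain ⟨n, hn, -⟩ := hSPL P M s K D N₁ N₂ U hG hS hsc W₁ W₂ hS1 hS2
    have e1 : (fun p => (N₂.toRp.dmS W₂ p : ℤ)) = fun p => (d p : ℤ) - (d₁ p : ℤ) := by
      funext p
      rw [hD2 p]
      have h3 : d₁ p ≤ d p := hd₁ p
      show ((d p - d₁ p : ℕ) : ℤ) = (d p : ℤ) - (d₁ p : ℤ)
      omega
    have e2 : (fun p => (N₁.toRp.dm p : ℤ) - (N₁.toRp.dmS W₁ p : ℤ))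
        = fun p => (N₁.toRp.dm p : ℤ) - (d₁ p : ℤ) := by
      funext p
      rw [hD1 p]
    rw [e1, e2] at hn
    rw [← hn]
    exact Int.natCast_nonneg n

end Pool.Agent.Lib.MP_4c1f79_al
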