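import Pool.Agent.Lib.MP_4c1f79_al.StmA

set_option autoImplicit false

namespace Pool.Agent.Lib.MP_4c1f79_al

open Finset Module

theorem SPL_holds (hFIB : S_FIB) (hHF : S_HF) (hHD : S_HD) (hDQ1 : S_DQ1) (hDQ3 : S_DQ3) :
    S_SPL := by
  intro P _ M s K _ D N₁ N₂ U hgood hsup hsc W₁ W₂ h₁ h₂
  refine ⟨finrank K (Rp.Hm (N₂.sub W₂ h₂).toRp (N₁.quo W₁ h₁).toRp), ?_, ?_⟩
  · have hX : (N₂.toRp.sub W₂ h₂.1).Sup U := by
      intro p hp x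
      exact Subtype.ext (hsup p hp x.1)
    have hs : ∀ p r, M.Tau p r → (N₂.toRp.sub W₂ h₂.1).sc p ≠ 0 → N₁.toRp.dm r = 0 := by
      intro p r hpr h0
      refine hsc p r hpr ?_
      have h1 := (hDQ3 P M K).2.2.1 N₂.toRp W₂ h₂.1 p
      omega
    have key := hHD P M K (N₂.toRp.sub W₂ h₂.1) N₁.toRp U hgood hX hs W₁ h₁.1
    have hdm : (fun p => (((N₂.toRp.sub W₂ h₂.1).dm p : ℕ) : ℤ))
        = fun p => (N₂.toRp.dmS W₂ p : ℤ) := by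
      funext p
      rw [(hDQ1 P M K).1 N₂.toRp W₂ h₂.1 p]
    rw [hdm] at key
    exact key
  · rw [hFIB P M s K D N₁ N₂ W₁ W₂ h₁ h₂]
    exact hHF P M s K D (N₂.sub W₂ h₂) (N₁.quo W₁ h₁)

end Pool.Agent.Lib.MP_4c1f79_al
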