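import Pool.Agent.Lib.MP_4c1f79_al.Stm8

/-!
# MP_4c1f79_al : piece T8b (table of `(2, 0)` over the window with row `6` in the levels `5 .. 14`)
-/

set_option autoImplicit false

namespace Pool.Agent.Lib.MP_4c1f79_al

open Finset Module

theorem T8b_ok : okT eB (fun v k => decide (v ≠ 6 ∨ (4 < k ∧ k ≤ 14))) T84 2 0 14 = true := by
  decide +kernel

theorem T8b_nc : ncT (n := 8) (fun v k => decide (v ≠ 6 ∨ (4 < k ∧ k ≤ 14))) 14 = true := by
  decide +kernel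

theorem T8b_row : ∀ k : Fin 30, (k : ℕ) ≤ 14 → tval T84 6 k ≤ 1 := by decide +kernel

theorem T8b_win : (winB (n := 8) (L := 30) fun v k => decide (v ≠ 6 ∨ (4 < k ∧ k ≤ 14)))
    = {p : P8 | p.1 ≠ 6 ∨ (4 < (p.2 : ℕ) ∧ (p.2 : ℕ) ≤ 14)} := by
  ext p
  simp only [winB, Set.mem_ofPred_eq, decide_eq_true_eq]

theorem T8b_holds (hTBB : S_TBB) : S_T8b := by
  intro K _ R hG hs k hk
  have h := hTBB 8 30 eB eB_symm (fun v k => decide (v ≠ 6 ∨ (4 < k ∧ k ≤ 14))) T84 2 0 14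
    (by norm_num) T8b_ok T8b_nc K R (by rw [T8b_win]; exact hG) hs ((6 : Fin 8), k) hk
  have h2 : R.dm (6, k) = tval T84 6 k := h
  rw [h2]
  exact T8b_row k hk

end Pool.Agent.Lib.MP_4c1f79_al
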