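import Pool.Agent.Lib.MP_4c1f79_al.Stm8

/-!
# MP_4c1f79_al : tables of type E8, row `6` up to level `14` (piece T8c)
-/

set_option autoImplicit false

namespace Pool.Agent.Lib.MP_4c1f79_al

open Finset Module

private theorem T8c_ok : ∀ (v : Fin 8) (l : Fin 30),
    okT eB (fun _ _ => true) (shT l (E8b v)) v l 14 = true := by
  decide +kernel

private theorem T8c_nc : ncT (n := 8) (fun _ _ => true) 14 = true := by
  decide +kernel

private theorem T8c_le : ∀ (v : Fin 8) (l : Fin 30), (v = 2 ∧ l = 0) ∨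
    ((List.range 15).all fun k => decide (tval (shT l (E8b v)) 6 k ≤ 1)) = true := by
  decide +kernel

theorem T8c_holds (hTBB : S_TBB) : S_T8c := by
  intro K _ R u hR hsc hu k hk
  obtain ⟨v, l⟩ := u
  have hwin : (winB (fun (_ : Fin 8) (_ : ℕ) => true) : Set (Fin 8 × Fin 30)) = Set.univ := by
    ext p
    simp [winB]
  have h1 := hTBB 8 30 eB eB_symm (fun _ _ => true) (shT l (E8b v)) v l 14 (by decide)
    (T8c_ok v l) T8c_nc K R (by rw [hwin]; exact hR) hsc (6, k) hk
  refine le_trans (le_of_eq h1) ?_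
  rcases T8c_le v l with ⟨rfl, rfl⟩ | h2
  · exact absurd rfl hu
  · have h3 := List.all_eq_true.1 h2 (k : ℕ) (List.mem_range.2 (by omega))
    exact of_decide_eq_true h3

end Pool.Agent.Lib.MP_4c1f79_al
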