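import Pool.Agent.Lib.MP_4c1f79_al.Stm8

set_option autoImplicit false

namespace Pool.Agent.Lib.MP_4c1f79_al

open Finset Module

/-- The window function of E7. -/
def T8dW (v : Fin 8) (_ : ℕ) : Bool := decide (v ≠ 6)

theorem T8d_ok : ∀ (v : Fin 8) (l : Fin 30), v ≠ 6 →
    okT eB T8dW (shT l (E7b v)) v l 14 = true := by
  decide +kernel

theorem T8d_nc : ncT T8dW 14 = true := by
  decide +kernel

theorem T8d_win : (winB T8dW : Set (Fin 8 × Fin 30)) = U7 := by
  ext p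
  simp [winB, T8dW, U7]

theorem T8d_holds (hTBB : S_TBB) : S_T8d := by
  intro K _ R u hu hG hsc p hp
  obtain ⟨v, l⟩ := u
  have hv : v ≠ 6 := hu
  refine hTBB 8 30 eB eB_symm T8dW (shT l (E7b v)) v l 14 (by norm_num)
    (T8d_ok v l hv) T8d_nc K R ?_ hsc p hp
  rw [T8d_win]
  exact hG

end Pool.Agent.Lib.MP_4c1f79_al
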