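import Pool.Agent.Lib.MP_4c1f79_al.Stm8

/-!
# MP_4c1f79_al : piece T8e (the window `W8`)
-/

set_option autoImplicit false

namespace Pool.Agent.Lib.MP_4c1f79_al

open Finset Module

/-- the window function -/
private def uT8e : Fin 8 → ℕ → Bool := fun v k => decide (v ≠ 6 ∨ k = 14)

/-- the table -/
private def tT8e (u : P8) : List (List ℕ) :=
  (shT u.2 (E7b u.1)).take 14 ++
    [((shT u.2 (E7b u.1)).getD 14 []).set 6 (tval (shT u.2 (E7b u.1)) 5 13)]

private theorem okT8e : ∀ (v : Fin 8) (l : Fin 30), v ≠ 6 →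
    okT eB uT8e (tT8e (v, l)) v l 14 = true := by
  decide +kernel

private theorem ncT8e : ncT uT8e 14 = true := by decide +kernel

private theorem vT8e : ∀ (v : Fin 8) (l : Fin 30), v ≠ 6 →
    tval (tT8e (v, l)) 6 14 = tval (shT l (E7b v)) 5 13 := by
  decide +kernel

private theorem wT8e : (winB uT8e : Set P8) = W8 := by
  ext p
  simp only [winB, uT8e, W8, Set.mem_ofPred_eq, decide_eq_true_eq, st8, Prod.ext_iff,
    Fin.ext_iff]
  constructor
  · rintro (h | h)
    · exact Or.inl h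
    · by_cases h6 : p.1 = 6
      · exact Or.inr ⟨congrArg _ h6, h⟩
      · exact Or.inl h6
  · rintro (h | h)
    · exact Or.inl h
    · exact Or.inr h.2

theorem T8e_holds (hTBB : S_TBB) : S_T8e := by
  intro K _ R u hu hR hsc
  have hu6 : u.1 ≠ 6 := hu
  have h := hTBB 8 30 eB eB_symm uT8e (tT8e u) u.1 u.2 14 (by norm_num) (okT8e u.1 u.2 hu6) ncT8e
    K R (by rw [wT8e]; exact hR) hsc st8 (by decide)
  exact h.trans (vT8e u.1 u.2 hu6)

end Pool.Agent.Lib.MP_4c1f79_al
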