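import Pool.Agent.Lib.MP_4c1f79_al.Stm8

/-!
# MP_4c1f79_al : piece T8f (two thin modules over E7)
-/

set_option autoImplicit false

namespace Pool.Agent.Lib.MP_4c1f79_al

open Finset Module

/-- the complete table of the module with socle `(5, 0)` over E7 -/
def T8f_T (l : ℕ) : List (List ℕ) :=
  shT l (E7b 5 ++ [[0, 0, 0, 0, 1, 0, 0, 0], [0, 0, 0, 0, 0, 1, 0, 0]])

/-- the window -/
def T8f_U (v : Fin 8) (_ : ℕ) : Bool := decide (v ≠ 6)

theorem T8f_win : (winB T8f_U : Set (Fin 8 × Fin 30)) = U7 := by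
  ext p
  change T8f_U p.1 p.2 = true ↔ p.1 ≠ 6
  unfold T8f_U
  exact decide_eq_true_iff

theorem T8f_ok5 : okT eB T8f_U (T8f_T 5) 5 5 29 = true := by decide +kernel

theorem T8f_ok7 : okT eB T8f_U (T8f_T 7) 5 7 29 = true := by decide +kernel

theorem T8f_nc : ncT T8f_U 29 = true := by decide +kernel

theorem T8f_le5 : ∀ (v : Fin 8) (k : Fin 30), tval (T8f_T 5) v k ≤ 1 := by decide +kernel

theorem T8f_le7 : ∀ (v : Fin 8) (k : Fin 30), tval (T8f_T 7) v k ≤ 1 := by decide +kernel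

theorem T8f_holds (hTBB : S_TBB) : S_T8f := by
  intro K _ R u hu hR hsc p
  rw [← T8f_win] at hR
  have hp : (p.2 : ℕ) ≤ 29 := by
    have := p.2.isLt
    omega
  rcases hu with hu | hu
  · subst hu
    have h := hTBB 8 30 eB eB_symm T8f_U (T8f_T 5) 5 5 29 (by norm_num) T8f_ok5 T8f_nc K R hR hsc
      p hp
    exact le_of_eq_of_le h (T8f_le5 p.1 p.2)
  · subst hu
    have h := hTBB 8 30 eB eB_symm T8f_U (T8f_T 7) 5 7 29 (by norm_num) T8f_ok7 T8f_nc K R hR hsc
      p hp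
    exact le_of_eq_of_le h (T8f_le7 p.1 p.2)

end Pool.Agent.Lib.MP_4c1f79_al
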