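import Pool.Agent.Lib.MP_4c1f79_al.StmD

/-!
# MP_4c1f79_al : the table theorem (S_TAB)
-/

set_option autoImplicit false

namespace Pool.Agent.Lib.MP_4c1f79_al

open Finset Module

private theorem TAB_sA {P : Type} [Fintype P] (M : Mesh P) (D D' : P → ℕ) (p : P)
    (h : ∀ q, M.Ar p q → D q = D' q) : sA M D p = sA M D' p := by
  classical
  unfold sA
  refine Finset.sum_congr rfl fun q _ => ?_
  by_cases hq : M.Ar p q
  · rw [if_pos hq, if_pos hq, h q hq]
  · rw [if_neg hq, if_neg hq]

private theorem TAB_sT {P : Type} [Fintype P] (M : Mesh P) (D D' : P → ℕ) (p : P)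
    (h : ∀ r, M.Tau p r → D r = D' r) : sT M D p = sT M D' p := by
  classical
  unfold sT
  refine Finset.sum_congr rfl fun q _ => ?_
  by_cases hq : M.Tau p q
  · rw [if_pos hq, if_pos hq, h q hq]
  · rw [if_neg hq, if_neg hq]

private theorem TAB_sA0 {P : Type} [Fintype P] (M : Mesh P) (D : P → ℕ) (p : P)
    (h : ∀ q, M.Ar p q → D q = 0) : sA M D p = 0 := by
  rw [TAB_sA M D (fun _ => 0) p h]
  unfold sA
  simp

private theorem TAB_sT0 {P : Type} [Fintype P] (M : Mesh P) (D : P → ℕ) (p : P)
    (h : ∀ q, M.Tau p q → D q = 0) : sT M D p = 0 := by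
  rw [TAB_sT M D (fun _ => 0) p h]
  unfold sT
  simp

private theorem TAB_inj (hDQ3 : S_DQ3) {P : Type} [Fintype P] {M : Mesh P} {K : Type} [Field K]
    (R : Rp M K) (p : P) (hs : R.sc p = 0) (h : ∀ q, M.Ar p q → R.dm q = 0) : R.dm p = 0 := by
  have hd := hDQ3 P M K
  rw [hd.2.2.2.1 R p]
  intro x
  refine (hd.2.2.2.2.1 R p).1 hs (R.e p x) (R.e_e p x) ?_
  rw [← R.e_sum (R.a (R.e p x))]
  refine Finset.sum_eq_zero fun q _ => ?_
  by_cases hq : M.Ar p q
  · exact (hd.2.2.2.1 R q).1 (h q hq) _
  · exact R.a_ar p q x hq

theorem TAB_holds (hBRK : S_BRK) (hDIM : S_DIM) (hBND : S_BND) (hDQ3 : S_DQ3) : S_TAB := by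
  intro P _ M K _ R U k₀ u hG hsc hu hNC D hDu hD1 hD2 hD3
  have hd := hDQ3 P M K
  have hout : ∀ p, p ∉ U → R.dm p = 0 := fun p hp => (hd.2.2.2.1 R p).2 (hG.1 p hp)
  have hscu : R.sc u = 1 := by
    rw [hsc u]
    unfold ind
    rw [Set.indicator_of_mem (Set.mem_singleton u)]
    rfl
  have hscn : ∀ p, p ≠ u → R.sc p = 0 := by
    intro p hp
    rw [hsc p]
    unfold ind
    rw [Set.indicator_of_notMem]
    exact hp
  have hlow : ∀ p, M.lv p < M.lv u → R.dm p = 0 :=
    (hBND P M).2 K R (M.lv u) fun p hp => hscn p (by rintro rfl; exact lt_irrefl _ hp)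
  have main : ∀ n : ℕ, ∀ p, M.lv p = n → M.lv p ≤ k₀ → R.dm p = D p := by
    intro n
    induction n using Nat.strong_induction_on with
    | _ n ih =>
      intro p hpn hpk
      have ih' : ∀ q, M.lv q < M.lv p → R.dm q = D q := fun q hq =>
        ih (M.lv q) (hpn ▸ hq) q rfl (hq.le.trans hpk)
      by_cases hpU : p ∈ U
      · rcases lt_trichotomy (M.lv p) (M.lv u) with h | h | h
        · rw [hlow p h, hD1 p (by rintro rfl; exact lt_irrefl _ h) h.le]
        · -- level of u
          have hA0 : ∀ q, M.Ar p q → R.dm q = 0 := fun q hq =>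
            hlow q (by have := M.lv_ar p q hq; omega)
          have hT0 : ∀ q, M.Tau p q → R.dm q = 0 := fun q hq =>
            hlow q (by have := M.lv_tau p q hq; omega)
          have h1 := (hDIM P M K R p (hG.2 p hpU)).2 (fun r hr => Or.inr (hT0 r hr))
          rw [TAB_sA0 M R.dm p hA0, TAB_sT0 M R.dm p hT0, add_zero, add_zero] at h1
          rw [← h1]
          by_cases hpu : p = u
          · rw [hpu, hscu, hDu]
          · rw [hscn p hpu, hD1 p hpu h.le]
        · have hpu : p ≠ u := by
            rintro rfl
            exact lt_irrefl _ h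
          have hs := hscn p hpu
          have hAq : ∀ q, M.Ar p q → R.dm q = D q := fun q hq =>
            ih' q (by have := M.lv_ar p q hq; omega)
          have hTq : ∀ q, M.Tau p q → R.dm q = D q := fun q hq =>
            ih' q (by have := M.lv_tau p q hq; omega)
          rcases hD3 p hpU h hpk with h1 | ⟨h1, h2⟩
          · by_cases hall : ∀ r, M.Tau p r → R.Onto r ∨ R.dm r = 0
            · have h3 := (hDIM P M K R p (hG.2 p hpU)).2 hall
              rw [TAB_sA M R.dm D p hAq, TAB_sT M R.dm D p hTq, hs] at h3
              omega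
            · push Not at hall
              obtain ⟨r, hr, hr1, hr2⟩ := hall
              have hrU : r ∈ U := by
                by_contra hrU
                exact hr2 (hout r hrU)
              have hlr := M.lv_tau p r hr
              have hconc : R.Conc r := by
                rcases (hBRK P M K R U k₀ u hG hsc hu hNC).2 r hrU (by omega) with h3 | h3
                · exact absurd h3 hr1
                · exact h3
              have hA0 : ∀ q, M.Ar p q → R.dm q = 0 := by
                intro q hq
                have hlq := M.lv_ar p q hq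
                refine hconc q ?_ (Or.inr (by omega))
                rintro rfl
                omega
              have hDA : sA M D p = 0 := TAB_sA0 M D p fun q hq => by
                rw [← hAq q hq]
                exact hA0 q hq
              rw [TAB_inj hDQ3 R p hs hA0]
              omega
          · rw [h1]
            refine TAB_inj hDQ3 R p hs fun q hq => ?_
            rw [hAq q hq]
            exact h2 q (M.lv_ar p q hq).symm
      · rw [hout p hpU, hD2 p hpU]
  intro p hp
  exact main (M.lv p) p rfl hp

end Pool.Agent.Lib.MP_4c1f79_al
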