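import Pool.Agent.Lib.MP_4c1f79_al.StmF

/-!
# MP_4c1f79_al : piece TBM (tables for several socle positions)
-/

set_option autoImplicit false

namespace Pool.Agent.Lib.MP_4c1f79_al

open Finset Module

theorem TBM_holds (hTBB : S_TBB) (hRPE : S_RPE) (hDMS : S_DMS) : S_TBM := by
  classical
  intro n L adj hs U T k₀ hk hnc K _ _ R hR hok p hp
  have hex : ∀ u ∈ (winB U : Set (Fin n × Fin L)), ∃ R' : Rp (grid (fun v w => adj v w = true) hs L) K,
      R'.Good (winB U) ∧ ∀ p, R'.sc p = ind {u} p := by
    intro u hu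
    apply hRPE
    intro p hp
    unfold ind
    rw [Set.indicator_of_notMem]
    intro h
    rw [Set.mem_singleton_iff] at h
    subst h
    exact hp hu
  let Ru : Fin n × Fin L → Rp (grid (fun v w => adj v w = true) hs L) K := fun u =>
    if h : u ∈ (winB U : Set (Fin n × Fin L)) then (hex u h).choose else R
  have hRu : ∀ u ∈ (winB U : Set (Fin n × Fin L)),
      (Ru u).Good (winB U) ∧ ∀ p, (Ru u).sc p = ind {u} p := by
    intro u hu
    simp only [Ru, dif_pos hu]
    exact (hex u hu).choose_spec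
  rw [hDMS _ _ K (winB U) R hR Ru hRu p]
  apply Finset.sum_congr rfl
  intro u _
  by_cases hsc : R.sc u = 0
  · rw [hsc, zero_mul, zero_mul]
  · have hu : u ∈ (winB U : Set (Fin n × Fin L)) := by
      by_contra hu
      apply hsc
      have h0 : LinearMap.range (R.e u) = ⊥ := by
        rw [LinearMap.range_eq_bot]
        ext x
        exact hR.1 u hu x
      unfold Rp.sc
      rw [h0, bot_inf_eq, finrank_bot]
    obtain ⟨h1, h2⟩ := hRu u hu
    rw [hTBB n L adj hs U (T u.1 u.2) u.1 u.2 k₀ hk (hok u.1 u.2 hsc) hnc K (Ru u) h1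
      (fun p => h2 p) p hp]

end Pool.Agent.Lib.MP_4c1f79_al
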