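import Pool.Agent.Lib.MP_4c1f79_al.StmC

/-!
# MP_4c1f79_al : piece TH1 (the thin step for all types)
-/

set_option autoImplicit false

namespace Pool.Agent.Lib.MP_4c1f79_al

open Finset Module

theorem TH1_holds (hTHN : S_THN) (hPEM : S_PEM) : S_TH1 := by
  intro P _ M s r U Rs hA hs hRU hTau hthin hPos m
  refine hPEM P M s r U hA m ?_
  intro E hE hEU _ d
  refine hTHN P M s r U Rs E hA hs hRU hE hEU d ?_ ?_ ?_
  · intro p hp hpR x hx hT
    exact absurd hT (hTau p hp hpR x hx)
  · intro K _ D hr N hN p hp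
    have h1 := hthin E hE hEU K D hr N hN p hp
    by_cases h0 : d p = 0
    · exact Or.inl h0
    · exact Or.inr (le_trans h1 (Nat.one_le_iff_ne_zero.2 h0))
  · intro m' _
    exact hPos m'

end Pool.Agent.Lib.MP_4c1f79_al
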