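import Pool.Agent.Lib.MP_4c1f79_al.StmC

/-!
# MP_4c1f79_al, piece THN: the thin step
-/

set_option autoImplicit false

namespace Pool.Agent.Lib.MP_4c1f79_al

open Finset Module

namespace PTHN

variable {P : Type} [Fintype P] {M : Mesh P} {s : Equiv.Perm P} {K : Type} [Field K] {D : Fd K}

/-- The elements of `W` supported on `Rs`. -/
def part (N : FM M s K D) (Rs : Set P) (W : Submodule K N.T) : Submodule K N.T where
  carrier := {x | x ∈ W ∧ ∀ p, p ∉ Rs → N.e p x = 0}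
  zero_mem' := ⟨W.zero_mem, fun p _ => map_zero _⟩
  add_mem' := fun {x y} hx hy => ⟨W.add_mem hx.1 hy.1, fun p hp => by
    rw [map_add, hx.2 p hp, hy.2 p hp, add_zero]⟩
  smul_mem' := fun c x hx => ⟨W.smul_mem c hx.1, fun p hp => by
    rw [map_smul, hx.2 p hp, smul_zero]⟩

theorem mem_part {N : FM M s K D} {Rs : Set P} {W : Submodule K N.T} {x : N.T} :
    x ∈ part N Rs W ↔ x ∈ W ∧ ∀ p, p ∉ Rs → N.e p x = 0 := Iff.rfl

theorem e_part {N : FM M s K D} {Rs : Set P} {W : Submodule K N.T} (hW : N.St W) {p : P}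
    (hp : p ∈ Rs) {x : N.T} (hx : x ∈ W) : N.e p x ∈ part N Rs W := by
  refine ⟨hW.1.1 p x hx, fun q hq => N.e_ne q p x ?_⟩
  rintro rfl
  exact hq hp

theorem grd {N : FM M s K D} {Rs : Set P} {W : Submodule K N.T} (hW : N.St W)
    (hs : ∀ p, s p ∈ Rs ↔ p ∈ Rs) : N.Grd Rs (part N Rs W) where
  e := by
    intro p x hx
    refine ⟨hW.1.1 p x hx.1, fun q hq => ?_⟩
    by_cases hqp : q = p
    · subst hqp
      rw [hx.2 q hq, map_zero]
    · exact N.e_ne q p x hqp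
  F := by
    intro x hx
    refine ⟨hW.2 x hx.1, fun q hq => ?_⟩
    obtain ⟨p, rfl⟩ := s.surjective q
    rw [← N.F_e, hx.2 p (fun h => hq ((hs p).2 h)), map_zero]
  sup := fun p hp x hx => hx.2 p hp
  rs := hs

theorem map_part {N : FM M s K D} {Rs : Set P} {W : Submodule K N.T} (hW : N.St W) {p : P}
    (hp : p ∈ Rs) : (part N Rs W).map (N.e p) = W.map (N.e p) := by
  apply le_antisymm
  · exact Submodule.map_mono fun x hx => hx.1
  · rintro _ ⟨x, hx, rfl⟩
    exact ⟨N.e p x, e_part hW hp hx, N.e_e p x⟩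

theorem gen_st (N : FM M s K D) (B : Submodule K N.T) : N.St (N.gen B) := by
  refine ⟨⟨?_, ?_⟩, ?_⟩
  · intro p x hx
    rw [FM.gen, Submodule.mem_sInf] at hx ⊢
    exact fun W hW => hW.1.1.1 p x (hx W hW)
  · intro x hx
    rw [FM.gen, Submodule.mem_sInf] at hx ⊢
    exact fun W hW => hW.1.1.2 x (hx W hW)
  · intro x hx
    rw [FM.gen, Submodule.mem_sInf] at hx ⊢
    exact fun W hW => hW.1.2 x (hx W hW)

theorem le_gen (N : FM M s K D) (B : Submodule K N.T) : B ≤ N.gen B :=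
  le_sInf fun _ hW => hW.2

theorem map_eq_bot {N : FM M s K D} {W : Submodule K N.T} {p : P}
    (h : N.toRp.dmS W p = 0) : W.map (N.e p) = ⊥ :=
  Submodule.finrank_eq_zero.1 h

theorem map_eq_range {N : FM M s K D} {W : Submodule K N.T} {p : P}
    (h : N.toRp.dm p ≤ N.toRp.dmS W p) : W.map (N.e p) = LinearMap.range (N.e p) :=
  Submodule.eq_of_le_of_finrank_le LinearMap.map_le_range h

theorem lv_iter (hs : Sym M s) (p : P) (i : ℕ) : M.lv ((⇑s)^[i] p) = M.lv p := by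
  induction i with
  | zero => rfl
  | succ i ih => rw [Function.iterate_succ_apply', hs.lv, ih]

theorem lv_orb (hs : Sym M s) {E : Set P} (hE : Orb s E) {p q : P} (hp : p ∈ E) (hq : q ∈ E) :
    M.lv p = M.lv q := by
  obtain ⟨o, rfl⟩ := hE
  obtain ⟨i, rfl⟩ := hp
  obtain ⟨j, rfl⟩ := hq
  rw [lv_iter hs, lv_iter hs]

theorem ind_mem {E : Set P} {p : P} (hp : p ∈ E) : ind E p = 1 := by
  rw [ind, Set.indicator_of_mem hp]
  rfl

theorem ind_not {E : Set P} {p : P} (hp : p ∉ E) : ind E p = 0 := by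
  rw [ind, Set.indicator_of_notMem hp]

/-- the value of the Euler form `⟨1_p, y⟩` if `y` vanishes below the level of `p` -/
theorem eul_ind (M : Mesh P) (p : P) (y : P → ℕ) (h : ∀ q, M.lv q < M.lv p → y q = 0) :
    eulN M (ind {p}) y = y p := by
  classical
  have h1 : ∀ q, q ≠ p → ((ind {p} q : ℕ) : ℤ) = 0 := fun q hq => by
    rw [ind_not (show q ∉ ({p} : Set P) from hq)]
    rfl
  have h2 : ((ind {p} p : ℕ) : ℤ) = 1 := by
    rw [ind_mem (Set.mem_singleton p)]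
    rfl
  unfold eulN eul
  have e1 : ∑ q, ((ind {p} q : ℕ) : ℤ) * (y q : ℤ) = y p := by
    rw [Finset.sum_eq_single p]
    · rw [h2, one_mul]
    · intro q _ hq
      rw [h1 q hq, zero_mul]
    · intro hp
      exact absurd (Finset.mem_univ p) hp
  have e2 : ∑ q, ∑ q', (if M.Ar q q' then ((ind {p} q : ℕ) : ℤ) * (y q' : ℤ) else 0) = 0 := by
    refine Finset.sum_eq_zero fun q _ => Finset.sum_eq_zero fun q' _ => ?_
    split_ifs with hq
    · by_cases hqp : q = p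
      · subst hqp
        rw [h q' (by have := M.lv_ar _ _ hq; omega)]
        simp
      · rw [h1 q hqp, zero_mul]
    · rfl
  have e3 : ∑ q, ∑ q', (if M.Tau q q' then ((ind {p} q : ℕ) : ℤ) * (y q' : ℤ) else 0) = 0 := by
    refine Finset.sum_eq_zero fun q _ => Finset.sum_eq_zero fun q' _ => ?_
    split_ifs with hq
    · by_cases hqp : q = p
      · subst hqp
        rw [h q' (by have := M.lv_tau _ _ hq; omega)]
        simp
      · rw [h1 q hqp, zero_mul]
    · rfl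
  rw [e1]
  have e2' := e2
  have e3' := e3
  linarith [e2', e3']

end PTHN

open PTHN in
theorem THN_holds (hRST : S_RST) (hBND : S_BND) (hSOC : S_SOC) (hDQ1 : S_DQ1) (hDQ3 : S_DQ3) :
    S_THN := by
  classical
  intro P _ M s r U Rs E hA hRs hRU hE hEU d h1 h2 h3
  obtain ⟨b, hb⟩ := (hBND P M).1 (ind E)
  have key : ∀ m' c : P → ℕ, ∃ Fs : Finset (Polynomial ℕ),
      ((∃ x ∈ Rs, d x ≠ 0) → ∀ p ∈ E, m' p = 0) →
      ∀ (K : Type) [Field K] (D : Fd K), D.r = r → ∀ G : FM M s K D, G.GT (U \ Rs) m' →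
        ∃ f ∈ Fs, G.cnt (fun p => d p - c p) = f.eval D.q := by
    intro m' c
    by_cases hc : (∃ x ∈ Rs, d x ≠ 0) → ∀ p ∈ E, m' p = 0
    · obtain ⟨Fs, hFs⟩ := h3 m' hc (fun p => d p - c p)
      exact ⟨Fs, fun _ => hFs⟩
    · exact ⟨∅, fun h => absurd h hc⟩
  choose Φ hΦ using key
  refine ⟨insert 0 ((box b ×ˢ box b).biUnion fun x => Φ x.1 x.2), ?_⟩
  intro K _ D hD N hN
  by_cases hcnt : N.cnt d = 0
  · exact ⟨0, Finset.mem_insert_self _ _, by rw [hcnt, Polynomial.eval_zero]⟩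
  obtain ⟨⟨W₀, hW₀, hd₀⟩⟩ : Nonempty {W : Submodule K N.T // N.St W ∧
      ∀ p, N.toRp.dmS W p = d p} := (Nat.card_ne_zero.1 hcnt).1
  obtain ⟨q1, q2, q3, q4, q5, q6⟩ := hDQ1 P M K
  obtain ⟨t1, t2, t3, t4, t5, t6⟩ := hDQ3 P M K
  have hle : ∀ (W : Submodule K N.T) (p : P), N.toRp.dmS W p ≤ N.toRp.dm p := by
    intro W p
    rw [← q3]
    exact q5 _ _ _ le_top p
  -- all subs of dimension `d` have the same part on `Rs`
  have hres : ∀ W : Submodule K N.T, N.St W → (∀ p, N.toRp.dmS W p = d p) →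
      N.Res Rs (part N Rs W₀) W := by
    intro W hW hd p hp
    rw [map_part hW₀ hp]
    rcases h2 K D hD N hN p hp with h | h
    · rw [map_eq_bot (by rw [hd, h]), map_eq_bot (by rw [hd₀, h])]
    · rw [map_eq_range (by rw [hd]; exact h), map_eq_range (by rw [hd₀]; exact h)]
  have hcc : N.cnt d = N.cntP (N.Res Rs (part N Rs W₀)) d :=
    Nat.card_congr (Equiv.subtypeEquivRight fun W =>
      ⟨fun h => ⟨h.1, hres W h.1 h.2, h.2⟩, fun h => ⟨h.1, h.2.2⟩⟩)
  have hz : ∀ p ∈ U, p ∉ Rs → ∀ x ∈ Rs, M.Tau p x → ∀ y ∈ part N Rs W₀, N.e x y = 0 := by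
    intro p hp hpR x hx hpx y hy
    have h4 := map_eq_bot (N := N) (W := W₀) (p := x) (by rw [hd₀]; exact h1 p hp hpR x hx hpx)
    have h5 : N.e x y ∈ W₀.map (N.e x) := ⟨y, hy.1, rfl⟩
    rw [h4] at h5
    exact (Submodule.mem_bot K).1 h5
  obtain ⟨r1, r2⟩ := hRST P M s K D N U Rs (part N Rs W₀) (grd hW₀ hRs) hN.1 hz
  by_cases hg : N.Res Rs (part N Rs W₀) (N.gen (part N Rs W₀))
  swap
  · exact absurd (hcc.trans (r1 hg d)) hcnt
  obtain ⟨G, m', hG, hm1, hm2, hm3, hG2⟩ := r2 hg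
  by_cases hgd : ∀ p, N.toRp.dmS (N.gen (part N Rs W₀)) p ≤ d p
  swap
  · exact absurd (hcc.trans ((hG2 d).2 hgd)) hcnt
  have hdm : ∀ p, N.toRp.dm p ≤ b p := hb K N.toRp fun p => (hN.2 p).le
  have hcond : (∃ x ∈ Rs, d x ≠ 0) → ∀ p ∈ E, m' p = 0 := by
    rintro ⟨x, hx, hdx⟩ p hp
    by_cases hpU : p ∈ U \ Rs
    swap
    · exact hm2 p hpU
    -- the sub generated by the part on `Rs` is not zero
    have hne : N.gen (part N Rs W₀) ≠ ⊥ := by
      intro h0
      apply hdx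
      rw [← hd₀]
      have h4 : W₀.map (N.e x) = ⊥ := by
        rw [eq_bot_iff]
        rintro _ ⟨w, hw, rfl⟩
        have h5 := le_gen N _ (e_part hW₀ hx hw)
        rw [h0] at h5
        exact h5
      show finrank K (W₀.map (N.e x)) = 0
      rw [h4, finrank_bot]
    have hsoc := hSOC P M s K D N E hE hN.2 _ (gen_st N _) hne p hp
    have hlow : ∀ q, M.lv q < M.lv p → N.toRp.dm q = 0 := by
      refine (hBND P M).2 K N.toRp (M.lv p) fun q hq => ?_
      rw [hN.2 q]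
      apply ind_not
      intro hqE
      have := lv_orb hA.sym hE hqE hp
      omega
    have ha0 : ∀ x, N.e p x = x → N.a x = 0 := by
      intro x hx
      rw [← N.e_sum (N.a x)]
      refine Finset.sum_eq_zero fun q _ => ?_
      by_cases hq : M.Ar p q
      · exact (t4 N.toRp q).1 (hlow q (by have := M.lv_ar _ _ hq; omega)) _
      · rw [← hx]
        exact N.a_ar p q x hq
    have hmap : (N.gen (part N Rs W₀)).map (N.e p)
        = (LinearMap.range (N.e p) ⊓ LinearMap.ker N.a : Submodule K N.T) := by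
      ext y
      constructor
      · rintro ⟨x, -, rfl⟩
        exact ⟨⟨x, rfl⟩, ha0 _ (N.e_e p x)⟩
      · rintro ⟨⟨x, rfl⟩, h6⟩
        exact ⟨N.e p x, hsoc _ (N.e_e p x) h6, N.e_e p x⟩
    have h7 : N.toRp.dmS (N.gen (part N Rs W₀)) p = N.toRp.sc p := by
      show finrank K ((N.gen (part N Rs W₀)).map (N.e p)) = _
      rw [hmap]
      rfl
    have h8 := hm1 p hpU
    rw [eul_ind M p _ fun q hq => Nat.le_zero.1 ((hle _ q).trans (hlow q hq).le), h7,
      sub_self] at h8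
    exact_mod_cast h8
  obtain ⟨f, hf, hfG⟩ := hΦ m' (N.toRp.dmS (N.gen (part N Rs W₀))) hcond K D hD G hG
  refine ⟨f, Finset.mem_insert_of_mem (Finset.mem_biUnion.2
    ⟨(m', N.toRp.dmS (N.gen (part N Rs W₀))), Finset.mem_product.2 ⟨?_, ?_⟩, hf⟩), ?_⟩
  · exact mem_box.2 fun p => (hm3 p).trans (hdm p)
  · exact mem_box.2 fun p => (hle _ p).trans (hdm p)
  · rw [hcc, (hG2 d).1 hgd, hfG]

end Pool.Agent.Lib.MP_4c1f79_al
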