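import Pool.Agent.Lib.MP_4c1f79_al.StmE

/-!
# MP_4c1f79_al : piece TOR (torsors)
-/

set_option autoImplicit false

namespace Pool.Agent.Lib.MP_4c1f79_al

open Finset Module

theorem TOR_holds : S_TOR := by
  intro P _ M s K _ D X Y f hf hZ Z₁ h₁ h1Z N₂ h₂
  obtain ⟨⟨hfe, hfa⟩, hfF⟩ := hf
  by_cases hemp : Nonempty {W : Submodule K X.T // X.St W ∧ W ⊓ LinearMap.ker f = Z₁ ∧
      W.map f = N₂}
  swap
  · left
    rw [not_nonempty_iff] at hemp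
    exact Nat.card_of_isEmpty
  right
  symm
  obtain ⟨W₀, hW₀, hW₀Z, hW₀f⟩ := hemp
  -- sections
  have hsec : ∀ W : Submodule K X.T, W.map f = N₂ →
      ∃ σ : N₂ →ₗ[K] X.T, (∀ y, σ y ∈ W) ∧ ∀ y : N₂, f (σ y) = y := by
    intro W hW
    have hm : ∀ x : W, f x ∈ N₂ := fun x => hW ▸ ⟨x.1, x.2, rfl⟩
    have hs : Function.Surjective ((f.domRestrict W).codRestrict N₂ hm) := by
      rintro ⟨y, hy⟩
      obtain ⟨x, hx, hxy⟩ : y ∈ W.map f := by rw [hW]; exact hy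
      exact ⟨⟨x, hx⟩, Subtype.ext hxy⟩
    obtain ⟨τ, hτ⟩ := LinearMap.exists_rightInverse_of_surjective _ (LinearMap.range_eq_top.2 hs)
    refine ⟨W.subtype.comp τ, fun y => (τ y).2, fun y => ?_⟩
    exact congrArg Subtype.val (DFunLike.congr_fun hτ y)
  obtain ⟨σ, hσW, hσf⟩ := hsec W₀ hW₀f
  let q : LinearMap.ker f →ₗ[K] (LinearMap.ker f) ⧸ Z₁.comap (LinearMap.ker f).subtype :=
    (Z₁.comap (LinearMap.ker f).subtype).mkQ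
  have hq0 : ∀ z : LinearMap.ker f, q z = 0 ↔ z.1 ∈ Z₁ := fun z =>
    Submodule.Quotient.mk_eq_zero _
  have hqe : ∀ z z' : LinearMap.ker f, z.1 - z'.1 ∈ Z₁ → q z = q z' := by
    intro z z' h
    rw [← sub_eq_zero, ← map_sub, hq0]
    exact h
  let fP : (N₂.comap f) →ₗ[K] N₂ := (f.domRestrict (N₂.comap f)).codRestrict N₂ (fun x => x.2)
  let d : (N₂.comap f) →ₗ[K] LinearMap.ker f :=
    ((N₂.comap f).subtype - σ.comp fP).codRestrict (LinearMap.ker f) (fun x => by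
      rw [LinearMap.mem_ker]
      show f (x.1 - σ (fP x)) = 0
      rw [map_sub, hσf]
      exact sub_self _)
  have hdv : ∀ x : N₂.comap f, (d x).1 = x.1 - σ (fP x) := fun x => rfl
  let Wh : (N₂ →ₗ[K] (LinearMap.ker f) ⧸ Z₁.comap (LinearMap.ker f).subtype) →
      Submodule K X.T := fun h => (LinearMap.ker (q.comp d - h.comp fP)).map (N₂.comap f).subtype
  have hmem : ∀ h (x : X.T), x ∈ Wh h ↔ ∃ hx : f x ∈ N₂, q (d ⟨x, hx⟩) = h ⟨f x, hx⟩ := by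
    intro h x
    constructor
    · rintro ⟨y, hy, rfl⟩
      exact ⟨y.2, sub_eq_zero.1 hy⟩
    · rintro ⟨hx, hxx⟩
      exact ⟨⟨x, hx⟩, sub_eq_zero.2 hxx, rfl⟩
  -- elements over a given point
  have hpt : ∀ h (y : N₂), ∃ x ∈ Wh h, f x = y.1 := by
    intro h y
    obtain ⟨z, hz⟩ := (Z₁.comap (LinearMap.ker f).subtype).mkQ_surjective (h y)
    have hfx : f (σ y + z.1) = y.1 := by
      rw [map_add, hσf, LinearMap.mem_ker.1 z.2, add_zero]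
    have hx : f (σ y + z.1) ∈ N₂ := by
      rw [hfx]
      exact y.2
    refine ⟨σ y + z.1, (hmem h _).2 ⟨hx, ?_⟩, hfx⟩
    have hyy : (⟨f (σ y + z.1), hx⟩ : N₂) = y := Subtype.ext hfx
    rw [hyy, ← hz]
    have hdz : d ⟨σ y + z.1, hx⟩ = z := by
      apply Subtype.ext
      rw [hdv]
      show σ y + z.1 - σ ⟨f (σ y + z.1), hx⟩ = z.1
      rw [hyy]
      abel
    rw [hdz]
  have hZ₁W₀ : Z₁ ≤ W₀ := by
    rw [← hW₀Z]
    exact inf_le_left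
  have hin : ∀ W : Submodule K X.T, W ⊓ LinearMap.ker f = Z₁ → ∀ x y : X.T, x ∈ W → y ∈ W →
      f x = f y → x - y ∈ Z₁ := by
    intro W hW x y hx hy hxy
    rw [← hW]
    refine ⟨W.sub_mem hx hy, LinearMap.mem_ker.2 ?_⟩
    rw [map_sub, hxy, sub_self]
  have hWZ : ∀ h, Wh h ⊓ LinearMap.ker f = Z₁ := by
    intro h
    have hz : ∀ (x : X.T) (hx : f x ∈ N₂), f x = 0 →
        (q (d ⟨x, hx⟩) = h ⟨f x, hx⟩ ↔ x ∈ Z₁) := by
      intro x hx h0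
      have h1 : (⟨f x, hx⟩ : N₂) = 0 := Subtype.ext h0
      have h2 : (d ⟨x, hx⟩).1 = x := by
        rw [hdv]
        show x - σ ⟨f x, hx⟩ = x
        rw [h1, map_zero, sub_zero]
      rw [h1, map_zero, hq0, h2]
    ext x
    constructor
    · rintro ⟨hx1, hx2⟩
      obtain ⟨hx, hxx⟩ := (hmem h x).1 hx1
      exact (hz x hx (LinearMap.mem_ker.1 hx2)).1 hxx
    · intro hx1
      have h0 : f x = 0 := LinearMap.mem_ker.1 (h1Z hx1)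
      have hx : f x ∈ N₂ := by
        rw [h0]
        exact N₂.zero_mem
      exact ⟨(hmem h x).2 ⟨hx, (hz x hx h0).2 hx1⟩, h1Z hx1⟩
  have hWf : ∀ h, (Wh h).map f = N₂ := by
    intro h
    apply le_antisymm
    · rintro _ ⟨x, hx, rfl⟩
      exact ((hmem h x).1 hx).1
    · intro y hy
      obtain ⟨x, hx, hxy⟩ := hpt h ⟨y, hy⟩
      exact ⟨x, hx, hxy⟩
  have hSt : ∀ h ∈ FM.HmF (Y.sub N₂ h₂) (X.subq Z₁ (LinearMap.ker f) h₁ hZ), X.St (Wh h) := by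
    rintro h ⟨⟨he, ha⟩, hF⟩
    refine ⟨⟨fun p x hx => ?_, fun x hx => ?_⟩, fun x hx => ?_⟩
    · obtain ⟨hx1, hx2⟩ := (hmem h x).1 hx
      have hy : f (X.e p x) ∈ N₂ := by
        rw [hfe]
        exact h₂.1.1 p _ hx1
      refine (hmem h _).2 ⟨hy, ?_⟩
      have e1 : h ⟨f (X.e p x), hy⟩ = (X.subq Z₁ (LinearMap.ker f) h₁ hZ).e p
          (h ⟨f x, hx1⟩) := by
        rw [← he p ⟨f x, hx1⟩]
        congr 1
        exact Subtype.ext (hfe p x)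
      have e2 : (X.subq Z₁ (LinearMap.ker f) h₁ hZ).e p (q (d ⟨x, hx1⟩)) =
        q ⟨X.e p (d ⟨x, hx1⟩).1, hZ.1.1 p _ (d ⟨x, hx1⟩).2⟩ := rfl
      refine Eq.trans ?_ (e2.symm.trans (e1.trans (congrArg
        ((X.subq Z₁ (LinearMap.ker f) h₁ hZ).e p) hx2).symm).symm)
      apply hqe
      show (d ⟨X.e p x, hy⟩).1 - X.e p (d ⟨x, hx1⟩).1 ∈ Z₁
      rw [hdv, hdv, map_sub]
      have e3 : X.e p x - σ (fP ⟨X.e p x, hy⟩) - (X.e p x - X.e p (σ (fP ⟨x, hx1⟩))) =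
        X.e p (σ (fP ⟨x, hx1⟩)) - σ (fP ⟨X.e p x, hy⟩) := by abel
      show X.e p x - σ (fP ⟨X.e p x, hy⟩) - (X.e p x - X.e p (σ (fP ⟨x, hx1⟩))) ∈ Z₁
      rw [e3]
      apply hin W₀ hW₀Z _ _ (hW₀.1.1 p _ (hσW _)) (hσW _)
      rw [hfe, hσf, hσf]
      exact (hfe p x).symm
    · obtain ⟨hx1, hx2⟩ := (hmem h x).1 hx
      have hy : f (X.a x) ∈ N₂ := by
        rw [hfa]
        exact h₂.1.2 _ hx1
      refine (hmem h _).2 ⟨hy, ?_⟩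
      have e1 : h ⟨f (X.a x), hy⟩ = (X.subq Z₁ (LinearMap.ker f) h₁ hZ).a
          (h ⟨f x, hx1⟩) := by
        rw [← ha ⟨f x, hx1⟩]
        congr 1
        exact Subtype.ext (hfa x)
      have e2 : (X.subq Z₁ (LinearMap.ker f) h₁ hZ).a (q (d ⟨x, hx1⟩)) =
        q ⟨X.a (d ⟨x, hx1⟩).1, hZ.1.2 _ (d ⟨x, hx1⟩).2⟩ := rfl
      refine Eq.trans ?_ (e2.symm.trans (e1.trans (congrArg
        ((X.subq Z₁ (LinearMap.ker f) h₁ hZ).a) hx2).symm).symm)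
      apply hqe
      show (d ⟨X.a x, hy⟩).1 - X.a (d ⟨x, hx1⟩).1 ∈ Z₁
      rw [hdv, hdv, map_sub]
      have e3 : X.a x - σ (fP ⟨X.a x, hy⟩) - (X.a x - X.a (σ (fP ⟨x, hx1⟩))) =
        X.a (σ (fP ⟨x, hx1⟩)) - σ (fP ⟨X.a x, hy⟩) := by abel
      show X.a x - σ (fP ⟨X.a x, hy⟩) - (X.a x - X.a (σ (fP ⟨x, hx1⟩))) ∈ Z₁
      rw [e3]
      apply hin W₀ hW₀Z _ _ (hW₀.1.2 _ (hσW _)) (hσW _)
      rw [hfa, hσf, hσf]
      exact (hfa x).symm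
    · obtain ⟨hx1, hx2⟩ := (hmem h x).1 hx
      have hy : f (X.F x) ∈ N₂ := by
        rw [hfF]
        exact h₂.2 _ hx1
      refine (hmem h _).2 ⟨hy, ?_⟩
      have e1 : h ⟨f (X.F x), hy⟩ = (X.subq Z₁ (LinearMap.ker f) h₁ hZ).F
          (h ⟨f x, hx1⟩) := by
        rw [← hF ⟨f x, hx1⟩]
        congr 1
        exact Subtype.ext (hfF x)
      have e2 : (X.subq Z₁ (LinearMap.ker f) h₁ hZ).F (q (d ⟨x, hx1⟩)) =
        q ⟨X.F (d ⟨x, hx1⟩).1, hZ.2 _ (d ⟨x, hx1⟩).2⟩ := rfl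
      refine Eq.trans ?_ (e2.symm.trans (e1.trans (congrArg
        ((X.subq Z₁ (LinearMap.ker f) h₁ hZ).F) hx2).symm).symm)
      apply hqe
      show (d ⟨X.F x, hy⟩).1 - X.F (d ⟨x, hx1⟩).1 ∈ Z₁
      rw [hdv, hdv, map_sub]
      have e3 : X.F x - σ (fP ⟨X.F x, hy⟩) - (X.F x - X.F (σ (fP ⟨x, hx1⟩))) =
        X.F (σ (fP ⟨x, hx1⟩)) - σ (fP ⟨X.F x, hy⟩) := by abel
      show X.F x - σ (fP ⟨X.F x, hy⟩) - (X.F x - X.F (σ (fP ⟨x, hx1⟩))) ∈ Z₁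
      rw [e3]
      apply hin W₀ hW₀Z _ _ (hW₀.2 _ (hσW _)) (hσW _)
      rw [hfF, hσf, hσf]
      exact (hfF x).symm
  refine Nat.card_eq_of_bijective (fun h : FM.HmF (Y.sub N₂ h₂)
    (X.subq Z₁ (LinearMap.ker f) h₁ hZ) => (⟨Wh h.1, hSt h.1 h.2, hWZ h.1, hWf h.1⟩ :
      {W : Submodule K X.T // X.St W ∧ W ⊓ LinearMap.ker f = Z₁ ∧ W.map f = N₂})) ⟨?_, ?_⟩
  · intro h h' hh
    have h1 : Wh h.1 = Wh h'.1 := congrArg Subtype.val hh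
    apply Subtype.ext
    apply LinearMap.ext
    intro y
    obtain ⟨x, hx, hxy⟩ := hpt h.1 y
    have hx' := hx
    rw [h1] at hx'
    obtain ⟨a1, a2⟩ := (hmem h.1 x).1 hx
    obtain ⟨b1, b2⟩ := (hmem h'.1 x).1 hx'
    have hy : (⟨f x, a1⟩ : N₂) = y := Subtype.ext hxy
    have h3 : h.1 ⟨f x, a1⟩ = h'.1 ⟨f x, a1⟩ := a2.symm.trans b2
    rw [hy] at h3
    exact h3
  · rintro ⟨W, hW, hWZ', hWf'⟩
    obtain ⟨τ, hτW, hτf⟩ := hsec W hWf'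
    let δ : N₂ →ₗ[K] LinearMap.ker f := (τ - σ).codRestrict (LinearMap.ker f) (fun y => by
      rw [LinearMap.mem_ker]
      show f (τ y - σ y) = 0
      rw [map_sub, hτf, hσf, sub_self])
    have hδ : ∀ y, (δ y).1 = τ y - σ y := fun y => rfl
    have hZ₁W : Z₁ ≤ W := by
      rw [← hWZ']
      exact inf_le_left
    have hk : ∀ (y y' : N₂) (T : X.T → X.T) (T' : Y.T → Y.T), (∀ u v, T (u - v) = T u - T v) →
        (∀ x, f (T x) = T' (f x)) → (∀ x ∈ W, T x ∈ W) → (∀ x ∈ W₀, T x ∈ W₀) →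
        y'.1 = T' y.1 → (δ y').1 - T (δ y).1 ∈ Z₁ := by
      intro y y' T T' t1 t2 t3 t4 t5
      rw [hδ, hδ, t1]
      have e3 : τ y' - σ y' - (T (τ y) - T (σ y)) = (τ y' - T (τ y)) - (σ y' - T (σ y)) := by
        abel
      rw [e3]
      apply Z₁.sub_mem
      · apply hin W hWZ' _ _ (hτW _) (t3 _ (hτW _))
        rw [t2, hτf, hτf]
        exact t5
      · apply hin W₀ hW₀Z _ _ (hσW _) (t4 _ (hσW _))
        rw [t2, hσf, hσf]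
        exact t5
    have hh : q.comp δ ∈ FM.HmF (Y.sub N₂ h₂) (X.subq Z₁ (LinearMap.ker f) h₁ hZ) := by
      refine ⟨⟨fun p y => ?_, fun y => ?_⟩, fun y => ?_⟩
      · show q (δ ((Y.sub N₂ h₂).e p y)) = q ⟨X.e p (δ y).1, hZ.1.1 p _ (δ y).2⟩
        apply hqe
        exact hk y ((Y.sub N₂ h₂).e p y) (X.e p) (Y.e p) (map_sub _) (hfe p) (hW.1.1 p)
          (hW₀.1.1 p) rfl
      · show q (δ ((Y.sub N₂ h₂).a y)) = q ⟨X.a (δ y).1, hZ.1.2 _ (δ y).2⟩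
        apply hqe
        exact hk y ((Y.sub N₂ h₂).a y) X.a Y.a (map_sub _) hfa hW.1.2 hW₀.1.2 rfl
      · show q (δ ((Y.sub N₂ h₂).F y)) = q ⟨X.F (δ y).1, hZ.2 _ (δ y).2⟩
        apply hqe
        exact hk y ((Y.sub N₂ h₂).F y) X.F Y.F (map_sub _) hfF hW.2 hW₀.2 rfl
    refine ⟨⟨q.comp δ, hh⟩, ?_⟩
    apply Subtype.ext
    show Wh (q.comp δ) = W
    ext x
    rw [hmem]
    constructor
    · rintro ⟨hx, hxx⟩
      have h1 : (d ⟨x, hx⟩).1 - (δ ⟨f x, hx⟩).1 ∈ Z₁ := by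
        have h2 : q (d ⟨x, hx⟩ - δ ⟨f x, hx⟩) = 0 := by
          rw [map_sub]
          exact sub_eq_zero.2 hxx
        exact (hq0 _).1 h2
      rw [hdv, hδ] at h1
      have h3 : x = (x - σ ⟨f x, hx⟩ - (τ ⟨f x, hx⟩ - σ ⟨f x, hx⟩)) + τ ⟨f x, hx⟩ := by abel
      rw [h3]
      exact W.add_mem (hZ₁W h1) (hτW _)
    · intro hxW
      have hx : f x ∈ N₂ := by
        rw [← hWf']
        exact ⟨x, hxW, rfl⟩
      refine ⟨hx, ?_⟩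
      show q (d ⟨x, hx⟩) = q (δ ⟨f x, hx⟩)
      apply hqe
      rw [hdv, hδ]
      show x - σ ⟨f x, hx⟩ - (τ ⟨f x, hx⟩ - σ ⟨f x, hx⟩) ∈ Z₁
      have h3 : x - σ ⟨f x, hx⟩ - (τ ⟨f x, hx⟩ - σ ⟨f x, hx⟩) = x - τ ⟨f x, hx⟩ := by abel
      rw [h3]
      exact hin W hWZ' _ _ hxW (hτW _) (hτf ⟨f x, hx⟩).symm

end Pool.Agent.Lib.MP_4c1f79_al
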