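import Pool.Agent.Lib.MP_4c1f79_al.StmD

/-!
# MP_4c1f79_al : the top of a good representation with simple socle
-/

set_option autoImplicit false

namespace Pool.Agent.Lib.MP_4c1f79_al

open Finset Module

variable {P : Type} [Fintype P] {M : Mesh P} {K : Type} [Field K]

omit [Fintype P] in
private theorem TPU_indu (u : P) : ind ({u} : Set P) u = 1 := by simp [ind]

omit [Fintype P] in
private theorem TPU_indne (u p : P) (h : p ≠ u) : ind ({u} : Set P) p = 0 := by simp [ind, h]

/-- If a level above the socle is zero then all higher levels are zero. -/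
private theorem TPU_up (R : Rp M K) (hz : ∀ p, R.dm p = 0 ↔ ∀ x, R.e p x = 0)
    (hs : ∀ p, R.sc p = 0 ↔ ∀ x, R.e p x = x → R.a x = 0 → x = 0) (k : ℕ)
    (h0 : ∀ p, M.lv p = k → R.dm p = 0) (h1 : ∀ p, k < M.lv p → R.sc p = 0) (n : ℕ) :
    ∀ p, M.lv p = k + n → R.dm p = 0 := by
  induction n with
  | zero => exact h0
  | succ n ih =>
    intro p hp
    rw [hz]
    intro x
    refine (hs p).1 (h1 p (by omega)) _ (R.e_e p x) ?_
    rw [← R.e_sum (R.a (R.e p x))]
    refine Finset.sum_eq_zero fun q _ => ?_
    by_cases hq : M.Ar p q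
    · have := M.lv_ar p q hq
      exact (hz q).1 (ih q (by omega)) _
    · exact R.a_ar p q x hq

/-- The component of `a x` at `r` comes from the predecessors. -/
private theorem TPU_comp (R : Rp M K) (r : P) (x : R.T) :
    R.e r (R.a x) = ∑ p, R.e r (R.a (R.e p x)) := by
  conv_lhs => rw [← R.e_sum x]
  rw [map_sum, map_sum]

theorem TPU_holds (hBRK : S_BRK) (hDIM : S_DIM) (hBND : S_BND) (hDQ1 : S_DQ1) (hDQ3 : S_DQ3) :
    S_TPU := by
  intro P _ M K _ R U k₀ k₁ u hG hsc hu hNC hk hvan
  classical
  obtain ⟨_, _, _, hz', hs', _⟩ := hDQ3 P M K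
  have hz := hz' R
  have hs := hs' R
  have hsc0 : ∀ p, p ≠ u → R.sc p = 0 := fun p hp => by rw [hsc, TPU_indne u p hp]
  have hscu : R.sc u = 1 := by rw [hsc, TPU_indu]
  have hdu : R.dm u ≠ 0 := by
    have h1 : R.sc u ≤ R.dm u := Submodule.finrank_mono inf_le_left
    omega
  obtain ⟨hbr, hoc⟩ := hBRK P M K R U k₀ u hG hsc hu hNC
  -- the top
  obtain ⟨t, ht0, htmax⟩ : ∃ t, R.dm t ≠ 0 ∧ ∀ p, R.dm p ≠ 0 → M.lv p ≤ M.lv t := by
    obtain ⟨t, ht, hmax⟩ := (Finset.univ.filter fun p => R.dm p ≠ 0).exists_max_image M.lv
      ⟨u, by simp [hdu]⟩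
    refine ⟨t, (Finset.mem_filter.1 ht).2, fun p hp => hmax p ?_⟩
    exact Finset.mem_filter.2 ⟨Finset.mem_univ p, hp⟩
  have htk : M.lv t ≤ k₁ := by
    by_contra h
    exact ht0 (hvan t (by omega))
  have hut : M.lv u ≤ M.lv t := htmax u hdu
  have hU : ∀ p, R.dm p ≠ 0 → p ∈ U := by
    intro p hp
    by_contra h
    exact hp ((hz p).2 (hG.1 p h))
  have htU : t ∈ U := hU t ht0
  have hab : ∀ p, M.lv t < M.lv p → R.dm p = 0 := by
    intro p hp
    by_contra h
    have := htmax p h
    omega
  have hnO : ¬ R.Onto t := by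
    intro hO
    apply ht0
    rw [hz]
    intro y
    obtain ⟨x, hx⟩ := hO (R.e t y) (R.e_e t y)
    rw [← hx, TPU_comp]
    refine Finset.sum_eq_zero fun p _ => ?_
    by_cases hp : M.Ar p t
    · have := M.lv_ar p t hp
      rw [(hz p).1 (hab p (by omega)) x, map_zero, map_zero]
    · exact R.a_ar p t x hp
  have hC : R.Conc t := (hoc t htU (by omega)).resolve_left hnO
  have hge : ∀ p, M.lv t ≤ M.lv p → p ≠ t → R.dm p = 0 := by
    intro p hp hpt
    rcases Nat.lt_or_ge (M.lv t) (M.lv p) with h | h
    · exact hab p h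
    · exact hC p hpt (Or.inl (by omega))
  have hlow : ∀ p, M.lv p < M.lv u → R.dm p = 0 := by
    refine (hBND P M).2 K R (M.lv u) fun p hp => hsc0 p ?_
    rintro rfl
    omega
  -- every other position is onto
  have hL : ∀ r ∈ U, M.lv r + 2 ≤ k₀ → r ≠ t → R.Onto r ∨ R.dm r = 0 := by
    intro r hr hrk hrt
    by_cases hr0 : R.dm r = 0
    · exact Or.inr hr0
    rcases hoc r hr hrk with h | h
    · exact Or.inl h
    exfalso
    have h1 : M.lv r < M.lv t := by
      by_contra h1
      exact hr0 (hge r (by omega) hrt)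
    have h2 : M.lv u ≤ M.lv r := by
      by_contra h2
      exact hr0 (hlow r (by omega))
    have h3 := TPU_up R hz hs (M.lv r + 1)
      (fun p hp => h p (by rintro rfl; omega) (Or.inr hp))
      (fun p hp => hsc0 p (by rintro rfl; omega)) (M.lv t - (M.lv r + 1)) t (by omega)
    exact ht0 h3
  -- one-dimensional
  have hone : R.dm t = 1 := by
    obtain ⟨y, hy⟩ : ∃ y, R.e t y ≠ 0 := by
      by_contra h
      push Not at h
      exact ht0 ((hz t).2 h)
    obtain ⟨l, hl⟩ : ∃ l : Module.Dual K R.T, l (R.e t y) ≠ 0 := by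
      by_contra h
      push Not at h
      exact hy ((Module.forall_dual_apply_eq_zero_iff K _).1 h)
    refine finrank_eq_one (⟨R.e t y, ⟨y, rfl⟩⟩ : LinearMap.range (R.e t)) ?_ ?_
    · intro h
      exact hy (congrArg Subtype.val h)
    · rintro ⟨_, ⟨z, rfl⟩⟩
      let f : R.T →ₗ[K] R.T := (LinearMap.toSpanSingleton K R.T (R.e t z)) ∘ₗ l ∘ₗ (R.e t)
      have hf : ∀ x, f x = l (R.e t x) • R.e t z := fun x => rfl
      obtain ⟨c, hc⟩ := hbr (M.lv t) (by omega) f
        (by
          intro p x
          rw [hf, hf, map_smul]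
          by_cases hp : p = t
          · subst hp
            rw [R.e_e, R.e_e]
          · rw [R.e_ne t p x (Ne.symm hp), map_zero, zero_smul, R.e_ne p t z hp, smul_zero])
        (by
          intro p hp x
          rw [(hz p).1 (hab p (by omega)) x]
          simp)
      have h1 := hc t (Or.inl rfl) y
      rw [hf, R.e_e] at h1
      refine ⟨(l (R.e t y))⁻¹ * c, ?_⟩
      apply Subtype.ext
      show ((l (R.e t y))⁻¹ * c) • R.e t y = R.e t z
      rw [mul_smul, ← h1, smul_smul, inv_mul_cancel₀ hl, one_smul]
  refine ⟨t, htU, hone, hut, htk, hge, ?_, hL, ?_⟩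
  · -- generation
    intro W hW htW
    have key : ∀ n p, k₁ + 1 - M.lv p ≤ n → ∀ x, R.e p x ∈ W := by
      intro n
      induction n with
      | zero =>
        intro p hp x
        rw [(hz p).1 (hvan p (by omega)) x]
        exact W.zero_mem
      | succ n ih =>
        intro p hp x
        by_cases hpt : p = t
        · subst hpt
          exact htW ⟨x, rfl⟩
        by_cases hp0 : R.dm p = 0
        · rw [(hz p).1 hp0 x]
          exact W.zero_mem
        have hpk : M.lv p ≤ k₁ := by
          by_contra h
          exact hp0 (hvan p (by omega))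
        obtain ⟨x', hx'⟩ := (hL p (hU p hp0) (by omega) hpt).resolve_right hp0 (R.e p x)
          (R.e_e p x)
        rw [← hx', TPU_comp]
        refine W.sum_mem fun q _ => ?_
        by_cases hq : M.Ar q p
        · have := M.lv_ar q p hq
          exact hW.1 p _ (hW.2 _ (ih q (by omega) x'))
        · rw [R.a_ar q p x' hq]
          exact W.zero_mem
    rw [eq_top_iff]
    intro x _
    rw [← R.e_sum x]
    exact W.sum_mem fun p _ => key _ p le_rfl x
  · -- the formula
    intro x hx hxu
    have hC : ∀ q, (R.dm q : ℤ) * x q - (∑ p, if M.Ar p q then (R.dm p : ℤ) * x q else 0)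
        + (∑ p, if M.Tau p q then (R.dm p : ℤ) * x q else 0) = if q = t then x t else 0 := by
      intro q
      have hx0 : x q = 0 → (R.dm q : ℤ) * x q
          - (∑ p, if M.Ar p q then (R.dm p : ℤ) * x q else 0)
          + (∑ p, if M.Tau p q then (R.dm p : ℤ) * x q else 0) = if q = t then x t else 0 := by
        intro h
        have h2 : (if q = t then x t else 0) = 0 := by
          split_ifs with h3
          · rw [← h3, h]
          · rfl
        rw [h2, h]
        simp
      by_cases hqU : q ∈ U
      swap
      · exact hx0 (hx q hqU)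
      have hup : (∀ p, M.lv q < M.lv p → R.dm p = 0) →
          (∑ p, if M.Ar p q then (R.dm p : ℤ) * x q else 0) = 0 ∧
          (∑ p, if M.Tau p q then (R.dm p : ℤ) * x q else 0) = 0 := by
        intro h
        constructor
        · refine Finset.sum_eq_zero fun p _ => ?_
          split_ifs with h2
          · have := M.lv_ar p q h2
            rw [h p (by omega)]
            simp
          · rfl
        · refine Finset.sum_eq_zero fun p _ => ?_
          split_ifs with h2
          · have := M.lv_tau p q h2
            rw [h p (by omega)]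
            simp
          · rfl
      by_cases hqt : q = t
      · subst hqt
        obtain ⟨h2, h3⟩ := hup hab
        rw [h2, h3, hone]
        simp
      rw [if_neg hqt]
      rcases Nat.lt_or_ge k₁ (M.lv q) with hqk | hqk
      · obtain ⟨h2, h3⟩ := hup fun p hp => hvan p (by omega)
        rw [h2, h3, hvan q hqk]
        simp
      obtain ⟨p, hpU, hpq⟩ := hNC q hqU (by omega)
      by_cases hpu : p = u
      · subst hpu
        have := hx0 (hxu q hpq)
        rwa [if_neg hqt] at this
      have hd := (hDIM P M K R p (hG.2 p hpU)).2 (by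
        intro r hr
        have : r = q := M.tau_fun p r q hr hpq
        subst this
        exact hL r hqU (by omega) hqt)
      rw [hsc0 p hpu, zero_add] at hd
      have hA : sA M R.dm p = ∑ p', if M.Ar p' q then R.dm p' else 0 := by
        unfold sA
        refine Finset.sum_congr rfl fun p' _ => ?_
        have := M.mesh_ar p q p' hpq
        by_cases h : M.Ar p p'
        · rw [if_pos h, if_pos (this.1 h)]
        · rw [if_neg h, if_neg fun h' => h (this.2 h')]
      have hT : sT M R.dm p = R.dm q := by
        unfold sT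
        rw [Finset.sum_eq_single q]
        · rw [if_pos hpq]
        · intro r _ hr
          rw [if_neg]
          intro h
          exact hr (M.tau_fun p r q h hpq)
        · intro h
          exact absurd (Finset.mem_univ q) h
      rw [hA, hT] at hd
      have hS1 : (∑ p', if M.Ar p' q then (R.dm p' : ℤ) * x q else 0)
          = ((∑ p', if M.Ar p' q then R.dm p' else 0 : ℕ) : ℤ) * x q := by
        rw [Nat.cast_sum, Finset.sum_mul]
        refine Finset.sum_congr rfl fun p' _ => ?_
        split_ifs
        · rfl
        · simp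
      have hS2 : (∑ p', if M.Tau p' q then (R.dm p' : ℤ) * x q else 0) = (R.dm p : ℤ) * x q := by
        rw [Finset.sum_eq_single p]
        · rw [if_pos hpq]
        · intro r _ hr
          rw [if_neg]
          intro h
          exact hr (M.tau_inj r p q h hpq)
        · intro h
          exact absurd (Finset.mem_univ p) h
      rw [hS1, hS2, hd]
      push_cast
      ring
    have h1 : eul M (fun p => (R.dm p : ℤ)) x = ∑ q, ((R.dm q : ℤ) * x q
        - (∑ p, if M.Ar p q then (R.dm p : ℤ) * x q else 0)
        + (∑ p, if M.Tau p q then (R.dm p : ℤ) * x q else 0)) := by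
      rw [Finset.sum_add_distrib, Finset.sum_sub_distrib]
      unfold eul
      congr 1
      · congr 1
        rw [Finset.sum_comm]
      · rw [Finset.sum_comm]
    rw [h1, Finset.sum_congr rfl fun q _ => hC q]
    simp

end Pool.Agent.Lib.MP_4c1f79_al
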