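import Pool.Agent.Lib.MP_4c1f79_al.StmA

/-!
# MP_4c1f79_al : [TRC]
-/

set_option autoImplicit false

namespace Pool.Agent.Lib.MP_4c1f79_al

open Finset Module

private theorem TRC_shift {A : Type*} [AddCommGroup A] (f : ℕ → A) (r : ℕ) (h : f r = f 0) :
    ∑ i ∈ range r, f (i + 1) = ∑ i ∈ range r, f i := by
  have h1 := Finset.sum_range_succ f r
  have h2 := Finset.sum_range_succ' f r
  rw [h2, h] at h1
  exact add_right_cancel h1

private theorem TRC_pow {K : Type} [Field K] (φ : RingAut K) (i : ℕ) (c : K) :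
    (φ ^ i) c = (⇑φ)^[i] c := by
  induction i generalizing c with
  | zero => rfl
  | succ i ih => rw [pow_succ, Function.iterate_succ_apply]; exact ih (φ c)

private theorem TRC_order {K : Type} [Field K] (D : Fd K) :
    orderOf (D.φ : RingAut K) = D.r := by
  classical
  have hfin : Finite K := by
    apply Nat.finite_of_card_ne_zero
    rw [D.card_K]
    exact pow_ne_zero _ (by have := D.q_gt; omega)
  let := Fintype.ofFinite K
  have hpow : (D.φ : RingAut K) ^ D.r = 1 := by
    ext c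
    rw [TRC_pow, D.φ_r]
    rfl
  have hfo : IsOfFinOrder (D.φ : RingAut K) :=
    isOfFinOrder_iff_pow_eq_one.2 ⟨D.r, D.r_pos, hpow⟩
  have hG : Finite (Subgroup.zpowers (D.φ : RingAut K)) := (_root_.finite_zpowers.2 hfo).to_subtype
  let := Fintype.ofFinite (Subgroup.zpowers (D.φ : RingAut K))
  have hfr := FixedPoints.finrank_eq_card (Subgroup.zpowers (D.φ : RingAut K)) K
  rw [← Nat.card_eq_fintype_card, Nat.card_zpowers] at hfr
  have hcard : Nat.card K =
      Nat.card (FixedPoints.subfield (Subgroup.zpowers (D.φ : RingAut K)) K) ^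
        orderOf (D.φ : RingAut K) := by
    rw [← hfr, ← Module.natCard_eq_pow_finrank]
  have hfix : Nat.card (FixedPoints.subfield (Subgroup.zpowers (D.φ : RingAut K)) K) = D.q := by
    rw [← D.card_fix]
    apply Nat.card_congr
    refine Equiv.subtypeEquivRight fun c => ?_
    constructor
    · intro h
      exact h ⟨D.φ, Subgroup.mem_zpowers _⟩
    · rintro h ⟨g, hg⟩
      obtain ⟨n, rfl⟩ := Subgroup.mem_zpowers_iff.1 hg
      exact MulAction.mem_stabilizer_iff.1 (Subgroup.zpow_mem
        (MulAction.stabilizer (RingAut K) c) (MulAction.mem_stabilizer_iff.2 h) n)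
  rw [hfix, D.card_K] at hcard
  exact (Nat.pow_right_injective D.q_gt hcard).symm

private theorem TRC_ne {K : Type} [Field K] (D : Fd K) :
    ∃ c : K, ∑ i ∈ range D.r, (⇑D.φ)^[i] c ≠ 0 := by
  by_contra hcon
  push Not at hcon
  have hli := linearIndependent_monoidHom K K
  let f : ℕ → (K →* K) := fun i => (((D.φ : RingAut K) ^ i : RingAut K) : K ≃+* K)
  have hinj : Set.InjOn f (range D.r : Set ℕ) := by
    intro i hi j hj hij
    have h1 : (D.φ : RingAut K) ^ i = (D.φ : RingAut K) ^ j := by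
      ext c
      exact DFunLike.congr_fun hij c
    rw [← TRC_order D] at hi hj
    exact pow_injOn_Iio_orderOf (by simpa using hi) (by simpa using hj) h1
  classical
  have h2 := linearIndependent_iff'.1 hli ((range D.r).image f) (fun _ => 1) ?_ (f 0) ?_
  · exact one_ne_zero h2
  · ext c
    rw [Finset.sum_image hinj]
    simp only [Finset.sum_apply, one_smul, Pi.zero_apply]
    rw [← hcon c]
    apply Finset.sum_congr rfl
    intro i _
    exact TRC_pow D.φ i c
  · exact Finset.mem_image_of_mem f (Finset.mem_range.2 D.r_pos)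

theorem TRC_holds : S_TRC := by
  intro K _ D
  have h1 : ∃ c : K, ∑ i ∈ range D.r, (⇑D.φ)^[i] c = 1 := by
    obtain ⟨c, hc⟩ := TRC_ne D
    set t := ∑ i ∈ range D.r, (⇑D.φ)^[i] c with ht
    have hfix : D.φ t = t := by
      rw [ht, map_sum]
      have := TRC_shift (fun i => (⇑D.φ)^[i] c) D.r (D.φ_r c)
      rw [← this]
      apply Finset.sum_congr rfl
      intro i _
      exact (Function.iterate_succ_apply' _ _ _).symm
    have hfix' : ∀ i, (⇑D.φ)^[i] t⁻¹ = t⁻¹ := by
      intro i
      apply Function.iterate_fixed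
      rw [map_inv₀, hfix]
    refine ⟨c * t⁻¹, ?_⟩
    have : ∀ i ∈ range D.r, (⇑D.φ)^[i] (c * t⁻¹) = (⇑D.φ)^[i] c * t⁻¹ := by
      intro i _
      have h3 : (⇑D.φ)^[i] (c * t⁻¹) = (⇑D.φ)^[i] c * (⇑D.φ)^[i] t⁻¹ := by
        rw [← TRC_pow, ← TRC_pow, ← TRC_pow, map_mul]
      rw [h3, hfix' i]
    rw [Finset.sum_congr rfl this, ← Finset.sum_mul, ← ht, mul_inv_cancel₀ hc]
  refine ⟨h1, ?_⟩
  intro V _ _ G hG L x₀ hL hx
  obtain ⟨c, hc⟩ := h1
  have hit : ∀ (i : ℕ) (a : K) (v : V), (⇑G)^[i] (a • v) = (⇑D.φ)^[i] a • (⇑G)^[i] v := by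
    intro i
    induction i with
    | zero => intro a v; rfl
    | succ i ih =>
      intro a v
      rw [Function.iterate_succ_apply, map_smulₛₗ, ih, Function.iterate_succ_apply,
        Function.iterate_succ_apply]
      rfl
  have hdiff : ∀ i, (⇑G)^[i] x₀ - x₀ ∈ L := by
    intro i
    induction i with
    | zero => simp
    | succ i ih =>
      rw [Function.iterate_succ_apply']
      have : G ((⇑G)^[i] x₀) - x₀ = G ((⇑G)^[i] x₀ - x₀) + (G x₀ - x₀) := by
        rw [map_sub]; abel
      rw [this]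
      exact L.add_mem (hL _ ih) hx
  refine ⟨∑ i ∈ range D.r, (⇑G)^[i] (c • x₀), ?_, ?_⟩
  · have : ∑ i ∈ range D.r, (⇑G)^[i] (c • x₀) - x₀ =
        ∑ i ∈ range D.r, (⇑D.φ)^[i] c • ((⇑G)^[i] x₀ - x₀) := by
      simp only [hit, smul_sub, Finset.sum_sub_distrib]
      rw [← Finset.sum_smul, hc, one_smul]
    rw [this]
    exact L.sum_mem fun i _ => L.smul_mem _ (hdiff i)
  · rw [map_sum]
    have := TRC_shift (fun i => (⇑G)^[i] (c • x₀)) D.r (hG _)
    rw [← this]
    apply Finset.sum_congr rfl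
    intro i _
    exact (Function.iterate_succ_apply' _ _ _).symm

end Pool.Agent.Lib.MP_4c1f79_al
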