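import Pool.Agent.Lib.MP_4c1f79_al.StmB

/-!
# MP_4c1f79_al : piece UNI (good modules of the same type are isomorphic)
-/

set_option autoImplicit false

namespace Pool.Agent.Lib.MP_4c1f79_al

open Finset Module

private theorem uni_F_inj {P : Type} [Fintype P] {M : Mesh P} {s : Equiv.Perm P} {K : Type}
    [Field K] {D : Fd K} (N : FM M s K D) (x : N.T) (h : N.F x = 0) : x = 0 := by
  have h1 := N.F_r x
  obtain ⟨k, hk⟩ : ∃ k, D.r = k + 1 := ⟨D.r - 1, by have := D.r_pos; omega⟩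
  rw [hk, Function.iterate_succ_apply, h] at h1
  rw [← h1]
  clear h1 hk
  induction k with
  | zero => rfl
  | succ k ih => rw [Function.iterate_succ_apply, map_zero]; exact ih

/-- the socle at `s p` is not zero if the one at `p` is not zero -/
private theorem uni_sc (hDQ3 : S_DQ3) {P : Type} [Fintype P] {M : Mesh P} {s : Equiv.Perm P}
    {K : Type} [Field K] {D : Fd K} (N : FM M s K D) (p : P) (h : N.toRp.sc p ≠ 0) :
    N.toRp.sc (s p) ≠ 0 := by
  obtain ⟨-, -, -, -, h5, -⟩ := hDQ3 P M K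
  intro h1
  apply h
  rw [h5] at h1 ⊢
  intro x hx hax
  apply uni_F_inj N
  apply h1
  · rw [← N.F_e, hx]
  · rw [← N.F_a, hax, map_zero]

theorem UNI_holds (hPEE : S_PEE) (hFUN : S_FUN) (hISO : S_ISO) (hDQ3 : S_DQ3) : S_UNI := by
  classical
  intro P _ M s K _ D U hA
  suffices H : ∀ n : ℕ, ∀ m : P → ℕ, ∑ p, m p = n → ∀ N N' : FM M s K D,
      N.GT U m → N'.GT U m → N.Iso N' from fun m N N' h h' => H _ m rfl N N' h h'
  intro n
  induction n using Nat.strong_induction_on with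
  | _ n ih =>
  intro m hn N N' hN hN'
  obtain ⟨-, -, -, -, h5, h6⟩ := hDQ3 P M K
  -- the zero type
  by_cases h0 : ∀ p, m p = 0
  · have h7 : ∀ x : N.T, x = 0 := h6 N.toRp fun p => by rw [hN.2 p, h0 p]
    have h8 : ∀ x : N'.T, x = 0 := h6 N'.toRp fun p => by rw [hN'.2 p, h0 p]
    refine ⟨0, ⟨Submodule.zero_mem _, fun x => (h8 _).trans (h8 _).symm⟩, ?_, ?_⟩
    · intro x y _
      rw [h7 x, h7 y]
    · intro y
      exact ⟨0, (h8 _).trans (h8 _).symm⟩
  push Not at h0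
  obtain ⟨p₀, hp₀⟩ := h0
  -- the orbit
  obtain ⟨E, hE⟩ : ∃ E : Set P, E = {x | ∃ i : ℕ, x = (⇑s)^[i] p₀} := ⟨_, rfl⟩
  have hmE : ∀ p ∈ E, m p ≠ 0 := by
    rw [hE]
    rintro _ ⟨i, rfl⟩
    induction i with
    | zero => exact hp₀
    | succ i ihi =>
      rw [Function.iterate_succ_apply', ← hN.2]
      rw [← hN.2] at ihi
      exact uni_sc hDQ3 N _ ihi
  have hmU : ∀ p, m p ≠ 0 → p ∈ U := by
    intro p hp
    by_contra hpU
    apply hp
    rw [← hN.2, h5]
    intro x hx _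
    rw [← hx]
    exact hN.1.1 p hpU x
  have hEU : E ⊆ U := fun p hp => hmU p (hmE p hp)
  have hsE : ∀ p, s p ∈ E ↔ p ∈ E := by
    intro p
    rw [hE]
    constructor
    · rintro ⟨i, hi⟩
      cases i with
      | zero =>
        refine ⟨D.r - 1, ?_⟩
        have hr := D.r_pos
        apply s.injective
        rw [← Function.iterate_succ_apply' (⇑s), show (D.r - 1).succ = D.r by omega, hA.per]
        exact hi
      | succ i =>
        refine ⟨i, ?_⟩
        apply s.injective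
        rw [← Function.iterate_succ_apply' (⇑s)]
        exact hi
    · rintro ⟨i, hi⟩
      exact ⟨i + 1, by rw [Function.iterate_succ_apply', ← hi]⟩
  have hOrb : Orb s E := ⟨p₀, hE⟩
  have hp₀E : p₀ ∈ E := by rw [hE]; exact ⟨0, rfl⟩
  have hindp₀ : ind E p₀ = 1 := by rw [ind, Set.indicator_of_mem hp₀E]; rfl
  have hlt : ∑ p, (m p - ind E p) < n := by
    rw [← hn]
    refine Finset.sum_lt_sum (fun p _ => Nat.sub_le _ _) ⟨p₀, Finset.mem_univ _, ?_⟩
    rw [hindp₀]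
    omega
  obtain ⟨I, hI⟩ := hFUN P M s K D U hA E hEU hsE
  have hm1 : ∀ p ∈ E, 1 ≤ m p := fun p hp => Nat.one_le_iff_ne_zero.2 (hmE p hp)
  obtain ⟨N₁, hN₁, hiso₁⟩ := hPEE P M s K D U N I m E hOrb hN hI hm1
  obtain ⟨N₂, hN₂, hiso₂⟩ := hPEE P M s K D U N' I m E hOrb hN' hI hm1
  have h12 : N₁.Iso N₂ := ih _ hlt (fun p => m p - ind E p) rfl N₁ N₂ hN₁ hN₂
  obtain ⟨-, hrefl, hsymm, htrans, hprod, -, -⟩ := hISO P M s K D
  exact htrans _ _ _ hiso₁ (htrans _ _ _ (hprod _ _ _ _ h12 (hrefl I)) (hsymm _ _ hiso₂))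

end Pool.Agent.Lib.MP_4c1f79_al
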