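import Pool.Agent.Lib.MP_4c1f79_al.StmG

/-!
# [J4 UPB] Upper bound for representations generated by one vector
-/

set_option autoImplicit false

namespace Pool.Agent.Lib.MP_4c1f79_al

open Finset Module

variable {P : Type} [Fintype P] {M : Mesh P} {K : Type} [Field K]

/-- The part of `X` on the levels `≤ lv w`. -/
private def UPB_low (X : Rp M K) (w : P) : Submodule K X.T where
  carrier := {x | ∀ q, M.lv w < M.lv q → X.e q x = 0}
  zero_mem' := fun q _ => map_zero _
  add_mem' := fun {x y} hx hy q hq => by rw [map_add, hx q hq, hy q hq, add_zero]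
  smul_mem' := fun c x hx q hq => by rw [map_smul, hx q hq, smul_zero]

private theorem UPB_ea (X : Rp M K) (w : P) (x : X.T) (hx : x ∈ UPB_low X w) (q : P)
    (hq : M.lv w ≤ M.lv q) : X.e q (X.a x) = 0 := by
  rw [← X.e_sum x, map_sum, map_sum]
  apply Finset.sum_eq_zero
  intro p _
  by_cases h : M.Ar p q
  · have h1 := M.lv_ar p q h
    rw [hx p (by omega), map_zero, map_zero]
  · exact X.a_ar p q x h

private theorem UPB_St (X : Rp M K) (w : P) : X.St (UPB_low X w) := by
  constructor
  · intro p x hx q hq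
    by_cases h : q = p
    · subst h
      rw [X.e_e]
      exact hx q hq
    · exact X.e_ne q p x h
  · intro x hx q hq
    exact UPB_ea X w x hx q hq.le

private theorem UPB_ew (X : Rp M K) (w : P) (y : X.T) : X.e w y ∈ UPB_low X w := by
  intro q hq
  apply X.e_ne
  rintro rfl
  exact lt_irrefl _ hq

/-- The morphism from the lower part given by a functional on `X(w)`. -/
private def UPB_g (X R : Rp M K) (w : P) (l : LinearMap.range (X.e w) →ₗ[K] K) (y₀ : R.T) :
    (X.sub (UPB_low X w) (UPB_St X w)).T →ₗ[K] R.T :=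
  (l.smulRight y₀) ∘ₗ (X.e w).rangeRestrict ∘ₗ (X.inc _ (UPB_St X w))

private theorem UPB_g_apply (X R : Rp M K) (w : P) (l : LinearMap.range (X.e w) →ₗ[K] K)
    (y₀ : R.T) (x : (X.sub (UPB_low X w) (UPB_St X w)).T) :
    UPB_g X R w l y₀ x = l ((X.e w).rangeRestrict (X.inc _ (UPB_St X w) x)) • y₀ := rfl

private theorem UPB_inc_e (X : Rp M K) (W : Submodule K X.T) (hW : X.St W) (p : P)
    (x : (X.sub W hW).T) : X.inc _ hW ((X.sub W hW).e p x) = X.e p (X.inc _ hW x) := rfl

private theorem UPB_inc_a (X : Rp M K) (W : Submodule K X.T) (hW : X.St W)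
    (x : (X.sub W hW).T) : X.inc _ hW ((X.sub W hW).a x) = X.a (X.inc _ hW x) := rfl

private theorem UPB_g_Hm (X R : Rp M K) (w : P) (l : LinearMap.range (X.e w) →ₗ[K] K)
    (y₀ : R.T) (h1 : R.e w y₀ = y₀) (h2 : R.a y₀ = 0) :
    UPB_g X R w l y₀ ∈ Rp.Hm (X.sub (UPB_low X w) (UPB_St X w)) R := by
  constructor
  · intro p x
    rw [UPB_g_apply, UPB_g_apply, map_smul, UPB_inc_e]
    by_cases h : p = w
    · subst h
      rw [h1]
      congr 2
      apply Subtype.ext
      exact X.e_e p _
    · have h3 : (X.e w).rangeRestrict (X.e p (X.inc _ (UPB_St X w) x)) = 0 := by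
        apply Subtype.ext
        exact X.e_ne w p _ (fun e => h e.symm)
      have h4 : R.e p y₀ = 0 := by
        rw [← h1]
        exact R.e_ne p w _ h
      rw [h3, map_zero, zero_smul, h4, smul_zero]
  · intro x
    rw [UPB_g_apply, UPB_g_apply, map_smul, h2, smul_zero, UPB_inc_a]
    have h3 : (X.e w).rangeRestrict (X.a (X.inc _ (UPB_St X w) x)) = 0 := by
      apply Subtype.ext
      exact UPB_ea X w _ (Subtype.mem x) w le_rfl
    rw [h3, map_zero, zero_smul]

theorem UPB_holds (hEXT : S_EXT) : S_UPB := by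
  intro P _ M K _ R X U w p hR hsc hX x₀ hx₀ hgen
  have : Module.Finite K R.T := Module.Finite.of_finite
  have : Module.Finite K X.T := Module.Finite.of_finite
  -- the socle vector
  have h1 : R.sc w = 1 := by
    rw [hsc w, ind, Set.indicator_of_mem (Set.mem_singleton w)]
    rfl
  have h2 : (LinearMap.range (R.e w) ⊓ LinearMap.ker R.a : Submodule K R.T) ≠ ⊥ := by
    intro h
    rw [Rp.sc, h, finrank_bot] at h1
    exact zero_ne_one h1
  obtain ⟨y₀, ⟨⟨z, hz⟩, hy2⟩, hy0⟩ := Submodule.exists_mem_ne_zero_of_ne_bot h2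
  have hy1 : R.e w y₀ = y₀ := by
    rw [← hz]
    exact R.e_e w z
  have hy2' : R.a y₀ = 0 := hy2
  -- the restriction to `X(w)`
  let ρ : Rp.Hm X R →ₗ[K] (LinearMap.range (X.e w) →ₗ[K] R.T) :=
    { toFun := fun f => f.1 ∘ₗ (LinearMap.range (X.e w)).subtype
      map_add' := fun f g => rfl
      map_smul' := fun c f => rfl }
  let j : (LinearMap.range (X.e w) →ₗ[K] K) →ₗ[K] (LinearMap.range (X.e w) →ₗ[K] R.T) :=
    { toFun := fun l => l.smulRight y₀
      map_add' := fun l m => by
        ext x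
        simp [add_smul]
      map_smul' := fun c l => by
        ext x
        simp [mul_smul] }
  have hj : Function.Injective j := by
    rw [injective_iff_map_eq_zero]
    intro l hl
    ext x
    have h3 : l x • y₀ = 0 := LinearMap.congr_fun hl x
    exact (smul_eq_zero.1 h3).resolve_right hy0
  have hle : LinearMap.range j ≤ LinearMap.range ρ := by
    rintro _ ⟨l, rfl⟩
    obtain ⟨f, hf, hfg⟩ := hEXT P M K R X U hR hX (UPB_low X w) (UPB_St X w)
      (UPB_g X R w l y₀) (UPB_g_Hm X R w l y₀ hy1 hy2')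
    refine ⟨⟨f, hf⟩, ?_⟩
    ext ⟨_, y, rfl⟩
    have h3 := hfg (⟨X.e w y, UPB_ew X w y⟩ : UPB_low X w)
    rw [UPB_g_apply] at h3
    have h4 : (X.e w).rangeRestrict (X.inc _ (UPB_St X w)
        (⟨X.e w y, UPB_ew X w y⟩ : UPB_low X w)) = ⟨X.e w y, y, rfl⟩ := by
      apply Subtype.ext
      exact X.e_e w y
    rw [h4] at h3
    exact h3
  -- evaluation at `x₀`
  let ε : Rp.Hm X R →ₗ[K] LinearMap.range (R.e p) :=
    { toFun := fun f => ⟨f.1 x₀, f.1 x₀, by
        rw [← f.2.1 p x₀, hx₀]⟩
      map_add' := fun f g => rfl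
      map_smul' := fun c f => rfl }
  have hε : Function.Injective ε := by
    rw [injective_iff_map_eq_zero]
    intro f hf
    have h3 : f.1 x₀ = 0 := congrArg Subtype.val hf
    have h4 : LinearMap.ker f.1 = ⊤ := by
      apply hgen _ _ h3
      constructor
      · intro q x hx
        rw [LinearMap.mem_ker] at hx ⊢
        rw [f.2.1 q x, hx, map_zero]
      · intro x hx
        rw [LinearMap.mem_ker] at hx ⊢
        rw [f.2.2 x, hx, map_zero]
    apply Subtype.ext
    exact LinearMap.ker_eq_top.1 h4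
  have e1 : X.dm w = finrank K (LinearMap.range j) := by
    rw [LinearMap.finrank_range_of_inj hj]
    exact (Subspace.dual_finrank_eq (K := K) (V := LinearMap.range (X.e w))).symm
  rw [e1]
  calc finrank K (LinearMap.range j) ≤ finrank K (LinearMap.range ρ) :=
        Submodule.finrank_mono hle
    _ ≤ finrank K (Rp.Hm X R) := LinearMap.finrank_range_le ρ
    _ ≤ finrank K (LinearMap.range (R.e p)) := LinearMap.finrank_le_finrank_of_injective hε

end Pool.Agent.Lib.MP_4c1f79_al
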