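import Pool.Agent.Lib.MP_4c1f79_al.StmK

/-!
MP_4c1f79_al: the statement `S_K2` (bonds of Cartan forms).
-/

set_option autoImplicit false

namespace Pool.Agent.Lib.MP_4c1f79_al

open Finset

private theorem K2_bil {ι : Type} [Fintype ι] (b : ι → ι → ℚ) (i j : ι) (hij : i ≠ j) (s t : ℚ)
    (x : ι → ℚ) (hi : x i = s) (hj : x j = t) (h0 : ∀ k, k ≠ i ∧ k ≠ j → x k = 0) :
    bilK b x x = b i i * s * s + b i j * s * t + (b j i * t * s + b j j * t * t) := by
  unfold bilK
  rw [Fintype.sum_eq_add i j hij]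
  · rw [Fintype.sum_eq_add i j hij, Fintype.sum_eq_add i j hij, hi, hj]
    · intro k hk
      rw [h0 k hk, mul_zero]
    · intro k hk
      rw [h0 k hk, mul_zero]
  · intro k hk
    apply Finset.sum_eq_zero
    intro l _
    rw [h0 k hk, mul_zero, zero_mul]

theorem K2_holds : S_K2 := by
  classical
  intro ι _ b hb i j hij hne
  obtain ⟨z, hz⟩ := hb.int i j
  obtain ⟨w, hw⟩ := hb.int j i
  have hs := hb.symm j i
  have hii := hb.pos i
  have hjj := hb.pos j
  have hneg : b i j < 0 := lt_of_le_of_ne (hb.nonpos i j hij) hne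
  rw [hs] at hw
  have hz0 : z < 0 := by
    by_contra h
    have h1 : (0 : ℚ) ≤ (z : ℚ) := by exact_mod_cast not_lt.mp h
    have h2 := mul_nonneg h1 hii.le
    linarith
  have hw0 : w < 0 := by
    by_contra h
    have h1 : (0 : ℚ) ≤ (w : ℚ) := by exact_mod_cast not_lt.mp h
    have h2 := mul_nonneg h1 hjj.le
    linarith
  have hpd : 0 < b i i * (b i i * b j j - b i j ^ 2) := by
    have h := hb.pd (fun k => if k = i then -b i j else if k = j then b i i else 0) ?_
    · rw [K2_bil b i j hij (-b i j) (b i i) _ (by simp) (by simp [hij.symm]) (by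
        rintro k ⟨h1, h2⟩
        simp [h1, h2])] at h
      rw [hs] at h
      linarith
    · intro h
      have h1 := congrFun h i
      simp only [if_true, Pi.zero_apply] at h1
      exact hne (neg_eq_zero.mp h1)
  have hlt : b i j ^ 2 < b i i * b j j := by
    have h := (mul_pos_iff_of_pos_left hii).mp hpd
    linarith
  have hzw : (z : ℚ) * w < 4 := by
    have h1 : ((z : ℚ) * w) * (b i i * b j j) = 4 * b i j ^ 2 := by
      have : ((z : ℚ) * w) * (b i i * b j j) = (z * b i i) * (w * b j j) := by ring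
      rw [this, ← hz, ← hw]
      ring
    have h2 : 0 < b i i * b j j := mul_pos hii hjj
    by_contra h
    push Not at h
    have h3 := mul_le_mul_of_nonneg_right h h2.le
    linarith
  have hzw' : z * w < 4 := by exact_mod_cast hzw
  have hz1 : -3 ≤ z := by nlinarith
  have hw1 : -3 ≤ w := by nlinarith
  have h5 : (z = -1 ∧ (w = -1 ∨ w = -2 ∨ w = -3)) ∨ (w = -1 ∧ (z = -2 ∨ z = -3)) := by
    have : z = -1 ∨ z = -2 ∨ z = -3 := by omega
    have : w = -1 ∨ w = -2 ∨ w = -3 := by omega
    rcases ‹z = -1 ∨ z = -2 ∨ z = -3› with rfl | rfl | rfl <;> omega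
  rcases h5 with ⟨rfl, rfl | rfl | rfl⟩ | ⟨rfl, rfl | rfl⟩
  · exact ⟨1, by simp, Or.inl ⟨by push_cast at *; linarith, by push_cast at *; linarith⟩⟩
  · exact ⟨2, by simp, Or.inl ⟨by push_cast at *; linarith, by push_cast at *; linarith⟩⟩
  · exact ⟨3, by simp, Or.inl ⟨by push_cast at *; linarith, by push_cast at *; linarith⟩⟩
  · exact ⟨2, by simp, Or.inr ⟨by push_cast at *; linarith, by push_cast at *; linarith⟩⟩
  · exact ⟨3, by simp, Or.inr ⟨by push_cast at *; linarith, by push_cast at *; linarith⟩⟩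

end Pool.Agent.Lib.MP_4c1f79_al
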