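import Pool.Agent.Lib.MP_4c1f79_al.StmK

/-!
# MP_4c1f79_al : piece KA (attaching a leaf to a path)
-/

set_option autoImplicit false
set_option linter.unusedVariables false

namespace Pool.Agent.Lib.MP_4c1f79_al

open Finset

theorem KA_holds (hK1 : S_K1) (hKTP : S_KTP) (hKA1 : S_KA1) (hKA2 : S_KA2) : S_KA := by
  classical
  intro n hn b j hb ha
  obtain ⟨-, -, -, hCF, -, hSh, -⟩ := hK1
  by_cases h1 : j.1 + 1 = n
  · exact hKA1 n hn b j hb ha h1
  have hj := j.2
  by_cases h0 : j.1 = 0
  · -- reverse the path
    let e : Option (Fin n) ≃ Option (Fin n) := Equiv.optionCongr Fin.revPerm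
    have hen : e none = none := rfl
    have hes : ∀ x : Fin n, e (some x) = some x.rev := fun x => rfl
    have hee : ∀ z, e (e z) = z := by
      intro z
      cases z with
      | none => rfl
      | some x => rw [hes, hes, Fin.rev_rev]
    let b' : Option (Fin n) → Option (Fin n) → ℚ := fun x y => b (e x) (e y)
    have hsim : SimK b b' := by
      refine ⟨1, e, one_pos, fun x y => ?_⟩
      show b x y = 1 * b (e (e x)) (e (e y))
      rw [hee, hee, one_mul]
    have ha' : AttK (linK n n 1) b' j.rev := by
      refine ⟨?_, ?_, ?_⟩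
      · intro x y
        show b (e (some x)) (e (some y)) = _
        rw [hes, hes, ha.res]
        have hx := x.2
        have hy := y.2
        unfold linK
        have e1 : (x.rev = y.rev) ↔ x = y := Fin.rev_inj
        simp only [e1, Fin.val_rev]
        by_cases hxy : x = y
        · subst hxy
          simp
        · rw [if_neg hxy, if_neg hxy]
          have hne : x.1 ≠ y.1 := fun h => hxy (Fin.ext h)
          by_cases c1 : x.1 + 1 = y.1
          · rw [if_neg (by omega : ¬ (n - (x.1 + 1) + 1 = n - (y.1 + 1))),
              if_pos (by omega : n - (y.1 + 1) + 1 = n - (x.1 + 1)),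
              if_pos (by omega : n - (x.1 + 1) < n), if_pos c1, if_pos (by omega)]
          · by_cases c2 : y.1 + 1 = x.1
            · rw [if_pos (by omega : (n - (x.1 + 1) + 1 = n - (y.1 + 1))),
                if_pos (by omega), if_neg c1, if_pos c2, if_pos (by omega)]
            · rw [if_neg (by omega), if_neg (by omega), if_neg c1, if_neg c2]
      · show b (e none) (e (some j.rev)) ≠ 0
        rw [hen, hes, Fin.rev_rev]
        exact ha.ne
      · intro x hx
        show b (e none) (e (some x)) = 0
        rw [hen, hes]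
        refine ha.eq _ fun h => hx ?_
        rw [← h, Fin.rev_rev]
    have hb' : CFK b' := hCF _ _ b b' hsim hb
    have hs' : ShapeK b' := hKA1 n hn b' j.rev hb' ha' (by rw [Fin.val_rev]; omega)
    exact hSh _ _ b b' hsim hs'
  · -- interior vertex
    obtain ⟨p, hp⟩ : ∃ p, j.1 = p := ⟨_, rfl⟩
    obtain ⟨q, hq⟩ : ∃ q, n = p + q + 1 := ⟨n - 1 - p, by omega⟩
    subst hq
    exact Or.inr (Or.inr ⟨p, q, 1, by omega, by omega, le_rfl,
      hKA2 p q (by omega) (by omega) b j hb ha hp⟩)

end Pool.Agent.Lib.MP_4c1f79_al
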