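import Pool.Agent.Lib.MP_4c1f79_al.StmK

/-! Piece KA1: type A, a leaf attached at the last vertex. -/

set_option autoImplicit false

namespace Pool.Agent.Lib.MP_4c1f79_al

private lemma ka1_self (n : ℕ) (x : Fin n) : linK n n 1 x x = 2 := by
  simp [linK]

private lemma ka1_eq (n : ℕ) : linK (n + 1) n 1 = linK (n + 1) (n + 1) 1 := by
  funext x y
  have hx := x.2
  have hy := y.2
  unfold linK
  by_cases h1 : x = y
  · simp [h1]
  · by_cases h2 : x.1 + 1 = y.1
    · simp [h1, h2]
    · by_cases h3 : y.1 + 1 = x.1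
      · simp [h1, h2, h3]
      · simp [h1, h2, h3]

/-- the last vertex becomes the new vertex -/
private lemma ka1_last (n κ : ℕ) (b : Option (Fin n) → Option (Fin n) → ℚ) (j : Fin n)
    (hs : ∀ i j, b i j = b j i) (ha : AttK (linK n n 1) b j) (hj : j.1 + 1 = n)
    (h0 : b none none = 2 * κ) (h1 : b none (some j) = -κ) :
    SimK b (linK (n + 1) n κ) := by
  have key : ∀ y : Fin n, b none (some y) =
      linK (n + 1) n κ (Fin.last n) (Fin.castSucc y) := by
    intro y
    have hy := y.2
    by_cases hyj : y = j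
    · subst hyj
      rw [h1]
      have e1 : Fin.last n ≠ Fin.castSucc y := (Fin.castSucc_lt_last y).ne'
      have e2 : ¬ ((Fin.last n).1 + 1 = (Fin.castSucc y).1) := by
        simp only [Fin.val_last, Fin.val_castSucc]; omega
      have e3 : (Fin.castSucc y).1 + 1 = (Fin.last n).1 := by
        simp only [Fin.val_last, Fin.val_castSucc]; omega
      unfold linK
      rw [if_neg e1, if_neg e2, if_pos e3]
      simp
    · rw [ha.eq y hyj]
      have hne : y.1 ≠ j.1 := fun h => hyj (Fin.ext h)
      have e1 : Fin.last n ≠ Fin.castSucc y := (Fin.castSucc_lt_last y).ne'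
      have e2 : ¬ ((Fin.last n).1 + 1 = (Fin.castSucc y).1) := by
        simp only [Fin.val_last, Fin.val_castSucc]; omega
      have e3 : ¬ ((Fin.castSucc y).1 + 1 = (Fin.last n).1) := by
        simp only [Fin.val_last, Fin.val_castSucc]; omega
      unfold linK
      rw [if_neg e1, if_neg e2, if_neg e3]
  have hsymm : ∀ x y : Fin (n + 1), linK (n + 1) n κ x y = linK (n + 1) n κ y x := by
    intro x y
    unfold linK
    by_cases h1 : x = y
    · subst h1; rfl
    · have h1' : ¬ y = x := fun h => h1 h.symm
      by_cases h2 : x.1 + 1 = y.1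
      · have h3 : ¬ (y.1 + 1 = x.1) := by omega
        simp only [h1, h1', h2, h3, if_true, if_false]
      · by_cases h3 : y.1 + 1 = x.1
        · simp only [h1, h1', h2, h3, if_true, if_false]
        · simp only [h1, h1', h2, h3, if_false]
  refine ⟨1, finSuccEquivLast.symm, one_pos, ?_⟩
  rintro (_ | x) (_ | y)
  · rw [h0, finSuccEquivLast_symm_none]
    simp [linK]
  · rw [finSuccEquivLast_symm_none, finSuccEquivLast_symm_some, key, one_mul]
  · rw [finSuccEquivLast_symm_none, finSuccEquivLast_symm_some, hs, key, one_mul, hsymm]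
  · rw [finSuccEquivLast_symm_some, finSuccEquivLast_symm_some, ha.res, one_mul]
    have hx := x.2
    have hy := y.2
    unfold linK
    have e0 : (Fin.castSucc x = Fin.castSucc y) ↔ x = y := Fin.castSucc_inj
    simp only [e0, Fin.val_castSucc, hx, hy, if_true]

/-- the first vertex becomes the new vertex -/
private lemma ka1_first (n κ : ℕ) (b : Option (Fin n) → Option (Fin n) → ℚ) (j : Fin n)
    (hs : ∀ i j, b i j = b j i) (ha : AttK (linK n n 1) b j) (hj : j.1 + 1 = n) (hκ : 0 < κ)
    (h0 : κ * b none none = 2) (h1 : b none (some j) = -1) :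
    SimK b (linK (n + 1) 1 κ) := by
  have hκ' : (κ : ℚ) ≠ 0 := by exact_mod_cast hκ.ne'
  have hκp : (0 : ℚ) < κ := by exact_mod_cast hκ
  have hsymm : ∀ x y : Fin (n + 1), linK (n + 1) 1 κ x y = linK (n + 1) 1 κ y x := by
    intro x y
    unfold linK
    by_cases h1 : x = y
    · subst h1; rfl
    · have h1' : ¬ y = x := fun h => h1 h.symm
      by_cases h2 : x.1 + 1 = y.1
      · have h3 : ¬ (y.1 + 1 = x.1) := by omega
        simp only [h1, h1', h2, h3, if_true, if_false]
      · by_cases h3 : y.1 + 1 = x.1
        · simp only [h1, h1', h2, h3, if_true, if_false]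
        · simp only [h1, h1', h2, h3, if_false]
  have key : ∀ y : Fin n, b none (some y) =
      (κ : ℚ)⁻¹ * linK (n + 1) 1 κ (Fin.rev (Fin.last n)) (Fin.rev (Fin.castSucc y)) := by
    intro y
    have hy := y.2
    have e1 : Fin.rev (Fin.last n) ≠ Fin.rev (Fin.castSucc y) := by
      intro h
      exact (Fin.castSucc_lt_last y).ne' (Fin.rev_injective h)
    have e3 : ¬ ((Fin.rev (Fin.castSucc y)).1 + 1 = (Fin.rev (Fin.last n)).1) := by
      simp only [Fin.val_rev, Fin.val_last, Fin.val_castSucc]; omega
    by_cases hyj : y = j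
    · subst hyj
      rw [h1]
      have e2 : (Fin.rev (Fin.last n)).1 + 1 = (Fin.rev (Fin.castSucc y)).1 := by
        simp only [Fin.val_rev, Fin.val_last, Fin.val_castSucc]; omega
      have e4 : ¬ ((Fin.rev (Fin.castSucc y)).1 < 1) := by
        simp only [Fin.val_rev, Fin.val_castSucc]; omega
      unfold linK
      rw [if_neg e1, if_pos e2, if_neg e4]
      field_simp
    · rw [ha.eq y hyj]
      have hne : y.1 ≠ j.1 := fun h => hyj (Fin.ext h)
      have e2 : ¬ ((Fin.rev (Fin.last n)).1 + 1 = (Fin.rev (Fin.castSucc y)).1) := by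
        simp only [Fin.val_rev, Fin.val_last, Fin.val_castSucc]; omega
      unfold linK
      rw [if_neg e1, if_neg e2, if_neg e3, mul_zero]
  refine ⟨(κ : ℚ)⁻¹, finSuccEquivLast.symm.trans Fin.revPerm, inv_pos.mpr hκp, ?_⟩
  rintro (_ | x) (_ | y)
  · simp only [Equiv.trans_apply, Fin.revPerm_apply, finSuccEquivLast_symm_none]
    have e4 : (Fin.rev (Fin.last n)).1 < 1 := by
      simp only [Fin.val_rev, Fin.val_last]; omega
    unfold linK
    rw [if_pos rfl, if_pos e4, ← h0]
    field_simp
  · simp only [Equiv.trans_apply, Fin.revPerm_apply, finSuccEquivLast_symm_none,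
      finSuccEquivLast_symm_some]
    exact key y
  · simp only [Equiv.trans_apply, Fin.revPerm_apply, finSuccEquivLast_symm_none,
      finSuccEquivLast_symm_some]
    rw [hs, key, hsymm]
  · simp only [Equiv.trans_apply, Fin.revPerm_apply, finSuccEquivLast_symm_some]
    rw [ha.res]
    have hx := x.2
    have hy := y.2
    have e0 : (Fin.rev (Fin.castSucc x) = Fin.rev (Fin.castSucc y)) ↔ x = y := by
      constructor
      · intro h
        exact Fin.castSucc_injective _ (Fin.rev_injective h)
      · intro h
        rw [h]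
    have ex : ¬ ((Fin.rev (Fin.castSucc x)).1 < 1) := by
      simp only [Fin.val_rev, Fin.val_castSucc]; omega
    have ey : ¬ ((Fin.rev (Fin.castSucc y)).1 < 1) := by
      simp only [Fin.val_rev, Fin.val_castSucc]; omega
    have c1 : ((Fin.rev (Fin.castSucc x)).1 + 1 = (Fin.rev (Fin.castSucc y)).1) ↔
        y.1 + 1 = x.1 := by
      simp only [Fin.val_rev, Fin.val_castSucc]; omega
    have c2 : ((Fin.rev (Fin.castSucc y)).1 + 1 = (Fin.rev (Fin.castSucc x)).1) ↔
        x.1 + 1 = y.1 := by
      simp only [Fin.val_rev, Fin.val_castSucc]; omega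
    unfold linK
    simp only [e0, c1, c2, ex, ey, hx, hy, if_true, if_false]
    by_cases h1 : x = y
    · simp only [h1, if_true]
      field_simp
    · by_cases h2 : x.1 + 1 = y.1
      · have h3 : ¬ (y.1 + 1 = x.1) := by omega
        simp only [h1, h2, h3, if_true, if_false]
        field_simp
      · by_cases h3 : y.1 + 1 = x.1
        · simp only [h1, h2, h3, if_true, if_false]
          field_simp
        · simp only [h1, h2, h3, if_false, mul_zero]

theorem KA1_holds (hK2 : S_K2) : S_KA1 := by
  intro n hn b j hb ha hj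
  have hjj : b (some j) (some j) = 2 := by rw [ha.res, ka1_self]
  obtain ⟨κ, hκ, hc⟩ := hK2 _ b hb none (some j) (by simp) ha.ne
  have one_case : b none none = 2 → b none (some j) = -1 → ShapeK b := by
    intro h0 h1
    left
    refine ⟨n + 1, by omega, ?_⟩
    rw [← ka1_eq]
    exact ka1_last n 1 b j hb.symm ha hj (by rw [h0]; norm_num) (by rw [h1]; norm_num)
  rcases hc with ⟨h0, h1⟩ | ⟨h0, h1⟩
  · rw [hjj] at h0 h1
    rcases hκ with rfl | hκ
    · exact one_case (by rw [h0]; norm_num) (by push_cast at h1; linarith)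
    · right; left
      refine ⟨n + 1, n, κ, hn, by omega, hκ, ?_⟩
      exact ka1_last n κ b j hb.symm ha hj (by rw [h0]; ring) (by linarith)
  · rw [hjj] at h0
    rcases hκ with rfl | hκ
    · refine one_case ?_ ?_
      · push_cast at h0; linarith
      · push_cast at h0 h1; linarith
    · right; left
      refine ⟨n + 1, 1, κ, le_refl 1, by omega, hκ, ?_⟩
      exact ka1_first n κ b j hb.symm ha hj (by omega) h0.symm (by linarith)

end Pool.Agent.Lib.MP_4c1f79_al
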