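import Pool.Agent.Lib.MP_4c1f79_al.StmK

/-!
# MP_4c1f79_al, piece KA2
-/

set_option autoImplicit false

namespace Pool.Agent.Lib.MP_4c1f79_al

open Finset

private theorem KA2_lin (n : ℕ) (x y : Fin n) :
    linK n n 1 x y = if x = y then 2 else if x.1 + 1 = y.1 ∨ y.1 + 1 = x.1 then -1 else 0 := by
  unfold linK
  rw [if_pos x.2, if_pos y.2]
  split_ifs <;> first | rfl | omega

private theorem KA2_tr (p q : ℕ) (x y : Fin (p + q + 1)) :
    linK (p + q + 1) (p + q + 1) 1 x y = trK p q 1 x.castSucc y.castSucc := by
  rw [KA2_lin]
  unfold trK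
  have hx := x.2
  have hy := y.2
  have e1 : (x.castSucc = y.castSucc) ↔ x = y := Fin.castSucc_inj
  by_cases h : x = y
  · rw [if_pos h, if_pos (e1.mpr h)]
  · rw [if_neg h, if_neg (fun h2 => h (e1.mp h2))]
    have e2 : (x.1 + 1 = y.1 ∨ y.1 + 1 = x.1) ↔
        (trA p q x.castSucc.1 y.castSucc.1 ∨ trA p q y.castSucc.1 x.castSucc.1) := by
      unfold trA
      rw [Fin.val_castSucc, Fin.val_castSucc]
      omega
    by_cases h2 : x.1 + 1 = y.1 ∨ y.1 + 1 = x.1
    · rw [if_pos h2, if_pos (e2.mp h2)]
    · rw [if_neg h2, if_neg (fun h3 => h2 (e2.mpr h3))]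

private theorem KA2_leaf (p q : ℕ) (x : Fin (p + q + 1)) :
    trK p q 1 (Fin.last (p + q + 1)) x.castSucc = if x.1 = p then -1 else 0 := by
  unfold trK
  have hx := x.2
  have e1 : ¬ (Fin.last (p + q + 1) = x.castSucc) := by
    intro h
    have := congrArg Fin.val h
    rw [Fin.val_last, Fin.val_castSucc] at this
    omega
  rw [if_neg e1]
  have e2 : (trA p q (Fin.last (p + q + 1)).1 x.castSucc.1 ∨
      trA p q x.castSucc.1 (Fin.last (p + q + 1)).1) ↔ x.1 = p := by
    unfold trA
    rw [Fin.val_last, Fin.val_castSucc]
    omega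
  by_cases h : x.1 = p
  · rw [if_pos h, if_pos (e2.mpr h)]
  · rw [if_neg h, if_neg (fun h2 => h (e2.mp h2))]

private theorem KA2_symm (p q : ℕ) (x y : Fin (p + q + 1 + 1)) :
    trK p q 1 x y = trK p q 1 y x := by
  unfold trK
  by_cases h : x = y
  · subst h; rfl
  · have h' : ¬ y = x := fun h2 => h h2.symm
    simp only [h, h', if_false]
    by_cases h3 : trA p q x.1 y.1 ∨ trA p q y.1 x.1
    · rw [if_pos h3, if_pos (Or.symm h3)]
    · rw [if_neg h3, if_neg (fun h4 => h3 (Or.symm h4))]

theorem KA2_holds (hK2 : S_K2) (hKSP : S_KSP) (hKSU : S_KSU) (hKSL : S_KSL) : S_KA2 := by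
  intro p q hp hq b j hb hatt hj
  have hjj : b (some j) (some j) = 2 := by
    rw [hatt.res, KA2_lin, if_pos rfl]
  -- the two neighbours
  have key : b none none = 2 ∧ b none (some j) = -1 := by
    by_cases hne : b none none = b (some j) (some j)
    · refine ⟨hne.trans hjj, ?_⟩
      obtain ⟨κ, _, h | h⟩ := hK2 _ b hb none (some j) (by simp) hatt.ne
      · rw [hjj] at h
        rw [hne, hjj] at h
        have h1 : (κ : ℚ) = 1 := by linarith [h.1]
        rw [h1] at h
        linarith [h.2]
      · rw [hne, hjj] at h
        have h1 : (κ : ℚ) = 1 := by linarith [h.1]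
        rw [h1] at h
        linarith [h.2]
    · exfalso
      obtain ⟨k1, k2, _, _, _⟩ := hKSP _ b hb
      let u : Fin (p + q + 1) := ⟨p - 1, by omega⟩
      let v : Fin (p + q + 1) := ⟨p + 1, by omega⟩
      have huj : u ≠ j := by
        intro h
        have := congrArg Fin.val h
        change p - 1 = j.1 at this
        omega
      have hvj : v ≠ j := by
        intro h
        have := congrArg Fin.val h
        change p + 1 = j.1 at this
        omega
      have huv : u ≠ v := by
        intro h
        have := congrArg Fin.val h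
        change p - 1 = p + 1 at this
        omega
      have s1 : StrK b (some j) {none} (1 / 2) := k2 none (some j) (by simp) hatt.ne hne
      have s2 : StrK b (some j) {some u} (1 / 4) := by
        apply k1 (some u) (some j) (by simpa using huj)
        rw [hatt.res, KA2_lin, if_neg huj, if_pos]
        · norm_num
        · left
          change p - 1 + 1 = j.1
          omega
      have s3 : StrK b (some j) {some v} (1 / 4) := by
        apply k1 (some v) (some j) (by simpa using hvj)
        rw [hatt.res, KA2_lin, if_neg hvj, if_pos]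
        · norm_num
        · right
          change j.1 + 1 = p + 1
          omega
      have s4 := hKSU _ b hb (some j) {none} {some u} _ _ (by simp) s1 s2
      have s5 := hKSU _ b hb (some j) _ {some v} _ _ (by
        rw [Set.disjoint_singleton_right]
        intro h
        rcases h with h | h
        · simp at h
        · simp only [Set.mem_singleton_iff, Option.some.injEq] at h
          exact huv h.symm) s4 s3
      have s6 := hKSL _ b hb _ _ _ s5
      norm_num at s6
  refine ⟨1, finSuccEquivLast.symm, one_pos, ?_⟩
  intro x y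
  rw [one_mul]
  cases x with
  | none =>
    cases y with
    | none =>
      rw [key.1]
      simp [trK]
    | some y =>
      rw [finSuccEquivLast_symm_none, finSuccEquivLast_symm_some, KA2_leaf]
      by_cases h : y = j
      · rw [h, key.2, if_pos hj]
      · rw [hatt.eq y h, if_neg]
        intro h2
        exact h (Fin.ext (h2.trans hj.symm))
  | some x =>
    cases y with
    | none =>
      rw [hb.symm, finSuccEquivLast_symm_none, finSuccEquivLast_symm_some, KA2_symm, KA2_leaf]
      by_cases h : x = j
      · rw [h, key.2, if_pos hj]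
      · rw [hatt.eq x h, if_neg]
        intro h2
        exact h (Fin.ext (h2.trans hj.symm))
    | some y =>
      rw [hatt.res, finSuccEquivLast_symm_some, finSuccEquivLast_symm_some, KA2_tr]

end Pool.Agent.Lib.MP_4c1f79_al
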