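import Pool.Agent.Lib.MP_4c1f79_al.StmK

/-!
# MP_4c1f79_al : piece KCL (classification of the connected Cartan forms)
-/

set_option autoImplicit false

namespace Pool.Agent.Lib.MP_4c1f79_al

open Finset

theorem KCL_holds (hK1 : S_K1) (hKIN : S_KIN) (hKR1 : S_KR1) (hKR3 : S_KR3) (hKD1 : S_KD1)
    (hKD2 : S_KD2) : S_KCL := by
  obtain ⟨-, -, kt, kc, -, -, -⟩ := hK1
  obtain ⟨dA, dB, dC, dF, dG⟩ := hKD1
  obtain ⟨dD, d6, d7, d8⟩ := hKD2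
  intro ι _ _ b hb hc
  rcases hKIN ι b hb hc with ⟨n, hn, h⟩ | ⟨n, k, κ, hk, hkn, hκ, h⟩ | ⟨p, q, r, hp, hq, hr, h⟩
  · obtain ⟨n', rfl⟩ : ∃ n', n = n' + 1 := ⟨n - 1, by omega⟩
    exact ⟨.A n', kt _ _ _ _ _ _ h (dA n')⟩
  · obtain ⟨r3, r2⟩ := hKR1 n k κ hk hkn (kc _ _ _ _ h hb)
    rcases hκ with rfl | rfl
    · by_cases hk1 : k = 1
      · subst hk1
        obtain ⟨n', rfl⟩ : ∃ n', n = n' + 2 := ⟨n - 2, by omega⟩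
        exact ⟨.B n', kt _ _ _ _ _ _ h (dB n')⟩
      · rcases r2 rfl with h1 | h1 | ⟨rfl, rfl⟩
        · exact absurd h1 hk1
        · obtain ⟨n', rfl⟩ : ∃ n', n = n' + 3 := ⟨n - 3, by omega⟩
          have hk2 : k = n' + 2 := by omega
          subst hk2
          exact ⟨.C n', kt _ _ _ _ _ _ h (dC n')⟩
        · exact ⟨.F4, kt _ _ _ _ _ _ h dF⟩
    · obtain ⟨rfl, rfl⟩ := r3 rfl
      exact ⟨.G2, kt _ _ _ _ _ _ h dG⟩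
  · obtain ⟨q', r', hqr, h2⟩ := hKR3 p q r hp hq hr (kc _ _ _ _ h hb)
    have h3 := kt _ _ _ _ _ _ h h2
    rcases hqr with ⟨rfl, hr'⟩ | ⟨rfl, hr1, hr2⟩
    · obtain ⟨m, rfl⟩ : ∃ m, r' = m + 1 := ⟨r' - 1, by omega⟩
      exact ⟨.D m, kt _ _ _ _ _ _ h3 (dD m)⟩
    · have : r' = 2 ∨ r' = 3 ∨ r' = 4 := by omega
      rcases this with rfl | rfl | rfl
      · exact ⟨.E6, kt _ _ _ _ _ _ h3 d6⟩
      · exact ⟨.E7, kt _ _ _ _ _ _ h3 d7⟩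
      · exact ⟨.E8, kt _ _ _ _ _ _ h3 d8⟩

end Pool.Agent.Lib.MP_4c1f79_al
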