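import Pool.Agent.Lib.MP_4c1f79_al.StmK

/-!
# MP_4c1f79_al : piece KD1 (types A, B, C, F, G)
-/

set_option autoImplicit false

namespace Pool.Agent.Lib.MP_4c1f79_al

open Finset

private theorem KD1_A (n : ℕ) : SimK (linK (n + 1) (n + 1) 1) (dtK (.A n)) := by
  have main : ∀ x y : Fin (n + 1), linK (n + 1) (n + 1) 1 x y =
      1 * ((CartanMatrix.A (n + 1) x y * ((1 : ℕ) : ℤ) : ℤ) : ℚ) := by
    intro x y
    have hx := x.2
    have hy := y.2
    simp only [linK, CartanMatrix.A, Matrix.of_apply, Fin.ext_iff]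
    split_ifs <;> first | omega | norm_num
  exact ⟨1, Equiv.refl (Fin (n + 1)), one_pos, fun x y => main x y⟩

private theorem KD1_B (n : ℕ) : SimK (linK (n + 2) 1 2) (dtK (.B n)) := by
  have main : ∀ x y : Fin (n + 2), linK (n + 2) 1 2 x y =
      1 * ((CartanMatrix.B (n + 2) (Fin.rev x) (Fin.rev y) *
        (((if (Fin.rev y).val = n + 1 then 1 else 2) : ℕ) : ℤ) : ℤ) : ℚ) := by
    intro x y
    have hx := x.2
    have hy := y.2
    have hx' := Fin.val_rev x
    have hy' := Fin.val_rev y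
    generalize Fin.rev x = u at *
    generalize Fin.rev y = v at *
    simp only [linK, CartanMatrix.B, Matrix.of_apply, Fin.ext_iff]
    split_ifs <;> first | omega | norm_num
  exact ⟨1, Fin.revPerm (n := n + 2), one_pos, fun x y => main x y⟩

private theorem KD1_C (n : ℕ) : SimK (linK (n + 3) (n + 2) 2) (dtK (.C n)) := by
  have main : ∀ x y : Fin (n + 3), linK (n + 3) (n + 2) 2 x y =
      1 * ((CartanMatrix.C (n + 3) x y *
        (((if y.val = n + 2 then 2 else 1) : ℕ) : ℤ) : ℤ) : ℚ) := by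
    intro x y
    have hx := x.2
    have hy := y.2
    simp only [linK, CartanMatrix.C, Matrix.of_apply, Fin.ext_iff]
    split_ifs <;> first | omega | norm_num
  exact ⟨1, Equiv.refl (Fin (n + 3)), one_pos, fun x y => main x y⟩

private theorem KD1_F : SimK (linK 4 2 2) (dtK .F4) := by
  have main : ∀ x y : Fin 4, linK 4 2 2 x y =
      1 * ((CartanMatrix.F₄ (Fin.rev x) (Fin.rev y) *
        (((![2, 2, 1, 1] : Fin 4 → ℕ) (Fin.rev y) : ℕ) : ℤ) : ℤ) : ℚ) := by
    intro x y
    fin_cases x <;> fin_cases y <;> simp [linK, CartanMatrix.F₄, Fin.rev] <;> norm_num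
  exact ⟨1, Fin.revPerm (n := 4), one_pos, fun x y => main x y⟩

private theorem KD1_G : SimK (linK 2 1 3) (dtK .G2) := by
  have main : ∀ x y : Fin 2, linK 2 1 3 x y =
      1 * ((CartanMatrix.G₂ (Fin.rev x) (Fin.rev y) *
        (((![3, 1] : Fin 2 → ℕ) (Fin.rev y) : ℕ) : ℤ) : ℤ) : ℚ) := by
    intro x y
    fin_cases x <;> fin_cases y <;> simp [linK, CartanMatrix.G₂, Fin.rev] <;> norm_num
  exact ⟨1, Fin.revPerm (n := 2), one_pos, fun x y => main x y⟩

/-- PIECE KD1 -/
theorem KD1_holds : S_KD1 := ⟨KD1_A, KD1_B, KD1_C, KD1_F, KD1_G⟩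

end Pool.Agent.Lib.MP_4c1f79_al
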