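import Pool.Agent.Lib.MP_4c1f79_al.StmK

/-!
# MP_4c1f79_al : [KD2] types D and E
-/

set_option autoImplicit false

namespace Pool.Agent.Lib.MP_4c1f79_al

private def kd2Z (p q : ℕ) (x y : ℕ) : ℤ :=
  if x = y then 2 else if trA p q x y ∨ trA p q y x then -1 else 0

private theorem kd2_trK (p q r : ℕ) (x y : Fin (p + q + r + 1)) :
    trK p q r x y = ((kd2Z p q x.val y.val : ℤ) : ℚ) := by
  unfold trK kd2Z
  simp only [Fin.ext_iff]
  split_ifs <;> simp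

private def kd2f (m i : ℕ) : ℕ :=
  if i = 0 then m + 2 else if i = 1 then m + 1 else if i = 2 then m + 3 else m + 3 - i

private def kd2g (m j : ℕ) : ℕ :=
  if j = m + 2 then 0 else if j = m + 1 then 1 else if j = m + 3 then 2 else m + 3 - j

private theorem kd2f_lt (m i : ℕ) (h : i < 1 + 1 + (m + 1) + 1) : kd2f m i < m + 4 := by
  unfold kd2f
  split_ifs <;> omega

private theorem kd2g_lt (m i : ℕ) (h : i < m + 4) : kd2g m i < 1 + 1 + (m + 1) + 1 := by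
  unfold kd2g
  split_ifs <;> omega

private theorem kd2f_three (m i : ℕ) (hi : 3 ≤ i) : kd2f m i = m + 3 - i := by
  unfold kd2f
  rw [if_neg (by omega), if_neg (by omega), if_neg (by omega)]

private theorem kd2g_small (m i : ℕ) (hi : i ≤ m) : kd2g m i = m + 3 - i := by
  unfold kd2g
  rw [if_neg (by omega), if_neg (by omega), if_neg (by omega)]

private theorem kd2g_1 (m : ℕ) : kd2g m (m + 1) = 1 := by
  unfold kd2g
  rw [if_neg (by omega), if_pos rfl]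

private theorem kd2g_2 (m : ℕ) : kd2g m (m + 2) = 0 := by
  unfold kd2g
  rw [if_pos rfl]

private theorem kd2g_3 (m : ℕ) : kd2g m (m + 3) = 2 := by
  unfold kd2g
  rw [if_neg (by omega), if_neg (by omega), if_pos rfl]

private theorem kd2_cas (i : ℕ) : i = 0 ∨ i = 1 ∨ i = 2 ∨ 3 ≤ i := by omega

private theorem kd2gf (m i : ℕ) (h : i < 1 + 1 + (m + 1) + 1) : kd2g m (kd2f m i) = i := by
  rcases kd2_cas i with rfl | rfl | rfl | h3
  · exact kd2g_2 m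
  · exact kd2g_1 m
  · exact kd2g_3 m
  · rw [kd2f_three m i h3, kd2g_small m _ (by omega)]
    omega

private theorem kd2fg (m i : ℕ) (h : i < m + 4) : kd2f m (kd2g m i) = i := by
  rcases (by omega : i ≤ m ∨ i = m + 1 ∨ i = m + 2 ∨ i = m + 3) with h1 | rfl | rfl | rfl
  · rw [kd2g_small m i h1, kd2f_three m _ (by omega)]
    omega
  · rw [kd2g_1]
    rfl
  · rw [kd2g_2]
    rfl
  · rw [kd2g_3]
    rfl

private def kd2D (m : ℕ) : Fin (1 + 1 + (m + 1) + 1) ≃ Fin (m + 4) where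
  toFun i := ⟨kd2f m i.val, kd2f_lt m i.val i.isLt⟩
  invFun i := ⟨kd2g m i.val, kd2g_lt m i.val i.isLt⟩
  left_inv i := Fin.ext (kd2gf m i.val i.isLt)
  right_inv i := Fin.ext (kd2fg m i.val i.isLt)

private def kd2C (n i j : ℕ) : ℤ :=
  if i = j then 2
  else if i + 1 = j ∧ j + 2 < n + 4 then -1
  else if j + 1 = i ∧ i + 2 < n + 4 then -1
  else if i + 3 = n + 4 ∧ (j + 2 = n + 4 ∨ j + 1 = n + 4) then -1
  else if j + 3 = n + 4 ∧ (i + 2 = n + 4 ∨ i + 1 = n + 4) then -1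
  else 0

private theorem kd2_form (n : ℕ) (i j : Fin (J4c.DT.D n).rank) :
    (J4c.DT.D n).form i j = kd2C n i.val j.val := by
  have h4 : ¬ (n + 4 ≤ 2) := by omega
  simp only [J4c.DT.form, J4c.DT.cartan, J4c.DT.len, CartanMatrix.D, Matrix.of_apply, kd2C,
    Nat.cast_one, mul_one, if_neg h4, Fin.ext_iff]

private theorem kd2_eq (m x y : ℕ) (hx : x < m + 4) (hy : y < m + 4) :
    kd2Z 1 1 x y = kd2C m (kd2f m x) (kd2f m y) := by
  have h0 : kd2f m 0 = m + 2 := rfl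
  have h1 : kd2f m 1 = m + 1 := rfl
  have h2 : kd2f m 2 = m + 3 := rfl
  have key : ∀ u v : ℕ, kd2f m x = u → kd2f m y = v →
      (x = 0 ∧ u = m + 2 ∨ x = 1 ∧ u = m + 1 ∨ x = 2 ∧ u = m + 3 ∨ 3 ≤ x ∧ u = m + 3 - x) →
      (y = 0 ∧ v = m + 2 ∨ y = 1 ∧ v = m + 1 ∨ y = 2 ∧ v = m + 3 ∨ 3 ≤ y ∧ v = m + 3 - y) →
      kd2Z 1 1 x y = kd2C m u v := by
    intro u v _ _ hu hv
    unfold kd2Z kd2C trA
    rcases hu with ⟨a1, a2⟩ | ⟨a1, a2⟩ | ⟨a1, a2⟩ | ⟨a1, a2⟩ <;>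
    rcases hv with ⟨b1, b2⟩ | ⟨b1, b2⟩ | ⟨b1, b2⟩ | ⟨b1, b2⟩ <;>
    split_ifs <;> first | rfl | omega
  have cas : ∀ i, i = 0 ∧ kd2f m i = m + 2 ∨ i = 1 ∧ kd2f m i = m + 1 ∨
      i = 2 ∧ kd2f m i = m + 3 ∨ 3 ≤ i ∧ kd2f m i = m + 3 - i := by
    intro i
    rcases kd2_cas i with rfl | rfl | rfl | h3
    · exact Or.inl ⟨rfl, rfl⟩
    · exact Or.inr (Or.inl ⟨rfl, rfl⟩)
    · exact Or.inr (Or.inr (Or.inl ⟨rfl, rfl⟩))
    · exact Or.inr (Or.inr (Or.inr ⟨h3, kd2f_three m i h3⟩))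
  exact key _ _ rfl rfl (cas x) (cas y)

private def kd2E6 : Fin 6 ≃ Fin 6 where
  toFun := ![1, 3, 2, 0, 4, 5]
  invFun := ![3, 0, 2, 1, 4, 5]
  left_inv := by decide
  right_inv := by decide

private def kd2E7 : Fin 7 ≃ Fin 7 where
  toFun := ![1, 3, 2, 0, 4, 5, 6]
  invFun := ![3, 0, 2, 1, 4, 5, 6]
  left_inv := by decide
  right_inv := by decide

private def kd2E8 : Fin 8 ≃ Fin 8 where
  toFun := ![1, 3, 2, 0, 4, 5, 6, 7]
  invFun := ![3, 0, 2, 1, 4, 5, 6, 7]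
  left_inv := by decide
  right_inv := by decide

theorem KD2_holds : S_KD2 := by
  refine ⟨fun m => ⟨1, kd2D m, one_pos, fun x y => ?_⟩, ⟨1, kd2E6, one_pos, fun x y => ?_⟩,
    ⟨1, kd2E7, one_pos, fun x y => ?_⟩, ⟨1, kd2E8, one_pos, fun x y => ?_⟩⟩
  · rw [kd2_trK, one_mul]
    unfold dtK
    rw [kd2_form]
    have hx : x.val < m + 4 := by have := x.isLt; omega
    have hy : y.val < m + 4 := by have := y.isLt; omega
    rw [kd2_eq m x.val y.val hx hy]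
    rfl
  · rw [kd2_trK, one_mul]
    unfold dtK
    have h : ∀ x y : Fin 6, kd2Z 1 2 x.val y.val = J4c.DT.E6.form (kd2E6 x) (kd2E6 y) := by
      decide
    exact congrArg (fun z : ℤ => (z : ℚ)) (h x y)
  · rw [kd2_trK, one_mul]
    unfold dtK
    have h : ∀ x y : Fin 7, kd2Z 1 2 x.val y.val = J4c.DT.E7.form (kd2E7 x) (kd2E7 y) := by
      decide
    exact congrArg (fun z : ℤ => (z : ℚ)) (h x y)
  · rw [kd2_trK, one_mul]
    unfold dtK
    have h : ∀ x y : Fin 8, kd2Z 1 2 x.val y.val = J4c.DT.E8.form (kd2E8 x) (kd2E8 y) := by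
      decide
    exact congrArg (fun z : ℤ => (z : ℚ)) (h x y)

end Pool.Agent.Lib.MP_4c1f79_al
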