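import Pool.Agent.Lib.MP_4c1f79_al.StmK

set_option autoImplicit false

namespace Pool.Agent.Lib.MP_4c1f79_al

theorem KFI_holds (hKSF : S_KSF) (hKRI : S_KRI) : S_KFI := by
  intro hpos ι _ _ b hb a
  obtain ⟨r, t, e, he⟩ := hKSF ι b hb
  have h1 := hKRI ι ((k : Fin r) × Fin (t k).rank) (J4c.sform t) e (fun y => a (e.symm y))
    (hpos r t _)
  have h2 : (fun x y => J4c.sform t (e x) (e y)) = b := by
    funext x y
    exact (he x y).symm
  have h3 : (fun x => a (e.symm (e x))) = a := by
    funext x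
    rw [Equiv.symm_apply_apply]
  rw [h2] at h1
  have h4 : (fun x => (fun y => a (e.symm y)) (e x)) = a := h3
  rw [h4] at h1
  exact h1

end Pool.Agent.Lib.MP_4c1f79_al
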