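import Pool.Agent.Lib.MP_4c1f79_al.StmK

/-! MP_4c1f79_al, [KL]: one multiple bond, attaching a leaf. -/

set_option autoImplicit false

namespace Pool.Agent.Lib.MP_4c1f79_al

open Finset

private theorem KL_bond (hK2 : S_K2) {ι : Type} [Fintype ι] (b : ι → ι → ℚ) (hb : CFK b) (i j : ι)
    (hij : i ≠ j) (hne : b i j ≠ 0) (heq : b i i = b j j) : 2 * b i j = - b i i := by
  obtain ⟨κ, hκ, h⟩ := hK2 ι b hb i j hij hne
  have hp := hb.pos j
  have hp' := hb.pos i
  rcases h with ⟨h1, h2⟩ | ⟨h1, h2⟩
  · rw [heq] at h1
    rw [heq]
    have h3 : ((κ : ℚ) - 1) * b j j = 0 := by linarith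
    rcases mul_eq_zero.mp h3 with h4 | h4
    · have h5 : (κ : ℚ) = 1 := by linarith
      rw [h5] at h2
      linarith
    · exact absurd h4 hp.ne'
  · rw [← heq] at h1
    have h3 : ((κ : ℚ) - 1) * b i i = 0 := by linarith
    rcases mul_eq_zero.mp h3 with h4 | h4
    · have h5 : (κ : ℚ) = 1 := by linarith
      rw [h5] at h2
      linarith
    · exact absurd h4 hp'.ne'

theorem KL_holds (hK2 : S_K2) (hKL1 : S_KL1) : S_KL := by
  intro n k κ hk hkn hκ b j hb hatt
  obtain ⟨heq, hj⟩ := hKL1 n k κ hk hkn hκ b j hb hatt
  have hbond := KL_bond hK2 b hb none (some j) (by simp) hatt.ne heq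
  right
  left
  rcases hj with hj | hj
  · -- leaf at zero
    have hjj : b (some j) (some j) = 2 := by
      rw [hatt.res]
      simp only [linK, if_true]
      rw [if_pos (by omega)]
    rw [hjj] at heq
    rw [heq] at hbond
    have hnj : b none (some j) = -1 := by linarith
    refine ⟨n + 1, k + 1, κ, by omega, by omega, hκ, 1, (finSuccEquiv n).symm, one_pos, ?_⟩
    have hcross : ∀ y : Fin n, b none (some y) = linK (n + 1) (k + 1) κ 0 y.succ := by
      intro y
      have h0 : (0 : Fin (n + 1)) ≠ y.succ := (Fin.succ_ne_zero y).symm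
      by_cases hy : y = j
      · subst hy
        rw [hnj]
        simp only [linK, if_neg h0, Fin.val_zero, Fin.val_succ]
        rw [if_pos (by omega), if_pos (by omega)]
      · rw [hatt.eq y hy]
        have hy' : y.1 ≠ 0 := fun h => hy (Fin.ext (by omega))
        simp only [linK, if_neg h0, Fin.val_zero, Fin.val_succ]
        rw [if_neg (by omega), if_neg (by omega)]
    have hcross' : ∀ y : Fin n, b (some y) none = linK (n + 1) (k + 1) κ y.succ 0 := by
      intro y
      have h0 : y.succ ≠ (0 : Fin (n + 1)) := Fin.succ_ne_zero y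
      rw [hb.symm]
      by_cases hy : y = j
      · subst hy
        rw [hnj]
        simp only [linK, if_neg h0, Fin.val_zero, Fin.val_succ]
        rw [if_neg (by omega), if_pos (by omega), if_pos (by omega)]
      · rw [hatt.eq y hy]
        have hy' : y.1 ≠ 0 := fun h => hy (Fin.ext (by omega))
        simp only [linK, if_neg h0, Fin.val_zero, Fin.val_succ]
        rw [if_neg (by omega), if_neg (by omega)]
    rintro (_ | x) (_ | y)
    · rw [heq, one_mul]
      simp [linK]
    · rw [one_mul, hcross]
      simp
    · rw [one_mul, hcross']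
      simp
    · rw [one_mul, hatt.res]
      simp only [finSuccEquiv_symm_some]
      by_cases hxy : x = y
      · subst hxy
        simp only [linK, if_true, Fin.val_succ]
        by_cases hx : x.1 < k
        · rw [if_pos hx, if_pos (by omega)]
        · rw [if_neg hx, if_neg (by omega)]
      · have hxy' : x.succ ≠ y.succ := fun h => hxy (Fin.succ_inj.mp h)
        simp only [linK, if_neg hxy, if_neg hxy', Fin.val_succ, Nat.add_lt_add_iff_right,
          Nat.add_right_cancel_iff]
  · -- leaf at the other end
    have hjj : b (some j) (some j) = 2 * κ := by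
      rw [hatt.res]
      simp only [linK, if_true]
      rw [if_neg (by omega)]
    rw [hjj] at heq
    rw [heq] at hbond
    have hnj : b none (some j) = -κ := by linarith
    refine ⟨n + 1, k, κ, hk, by omega, hκ, 1, finSuccEquivLast.symm, one_pos, ?_⟩
    have hcross : ∀ y : Fin n, b none (some y) = linK (n + 1) k κ (Fin.last n) y.castSucc := by
      intro y
      have h0 : Fin.last n ≠ y.castSucc := (Fin.castSucc_lt_last y).ne'
      have hyn := y.2
      by_cases hy : y = j
      · subst hy
        rw [hnj]
        simp only [linK, if_neg h0, Fin.val_last, Fin.val_castSucc]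
        rw [if_neg (by omega), if_pos (by omega), if_neg (by omega)]
      · rw [hatt.eq y hy]
        have hy' : y.1 ≠ j.1 := fun h => hy (Fin.ext h)
        simp only [linK, if_neg h0, Fin.val_last, Fin.val_castSucc]
        rw [if_neg (by omega), if_neg (by omega)]
    have hcross' : ∀ y : Fin n, b (some y) none = linK (n + 1) k κ y.castSucc (Fin.last n) := by
      intro y
      have h0 : y.castSucc ≠ Fin.last n := (Fin.castSucc_lt_last y).ne
      have hyn := y.2
      rw [hb.symm]
      by_cases hy : y = j
      · subst hy
        rw [hnj]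
        simp only [linK, if_neg h0, Fin.val_last, Fin.val_castSucc]
        rw [if_pos (by omega), if_neg (by omega)]
      · rw [hatt.eq y hy]
        have hy' : y.1 ≠ j.1 := fun h => hy (Fin.ext h)
        simp only [linK, if_neg h0, Fin.val_last, Fin.val_castSucc]
        rw [if_neg (by omega), if_neg (by omega)]
    rintro (_ | x) (_ | y)
    · rw [heq, one_mul]
      simp only [finSuccEquivLast_symm_none, linK, if_true, Fin.val_last]
      rw [if_neg (by omega)]
    · rw [one_mul, hcross]
      simp
    · rw [one_mul, hcross']
      simp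
    · rw [one_mul, hatt.res]
      simp only [finSuccEquivLast_symm_some]
      by_cases hxy : x = y
      · subst hxy
        simp only [linK, if_true, Fin.val_castSucc]
      · have hxy' : x.castSucc ≠ y.castSucc := fun h => hxy (Fin.castSucc_inj.mp h)
        simp only [linK, if_neg hxy, if_neg hxy', Fin.val_castSucc]

end Pool.Agent.Lib.MP_4c1f79_al
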