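import Pool.Agent.Lib.MP_4c1f79_al.StmK

/-!
# MP_4c1f79_al : KL1, a leaf attached to a path with one multiple bond
-/

set_option autoImplicit false

namespace Pool.Agent.Lib.MP_4c1f79_al

open Finset

private theorem KL1_bond {n k κ : ℕ} (hκ : κ = 2 ∨ κ = 3) (x y : Fin n)
    (h : x.1 + 1 = y.1 ∨ y.1 + 1 = x.1) : linK n k κ x y ≠ 0 := by
  have hk : (κ : ℚ) ≠ 0 := by
    rcases hκ with rfl | rfl <;> norm_num
  have hne : x ≠ y := by
    rintro rfl
    omega
  unfold linK
  rw [if_neg hne]
  rcases h with h | h
  · rw [if_pos h]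
    split_ifs
    · norm_num
    · exact neg_ne_zero.mpr hk
  · rw [if_neg (by omega), if_pos h]
    split_ifs
    · norm_num
    · exact neg_ne_zero.mpr hk

private theorem KL1_norm {n k κ : ℕ} (hκ : κ = 2 ∨ κ = 3) (x y : Fin n) (hx : x.1 < k)
    (hy : k ≤ y.1) : linK n k κ x x ≠ linK n k κ y y := by
  unfold linK
  rw [if_pos rfl, if_pos rfl, if_pos hx, if_neg (by omega)]
  rcases hκ with rfl | rfl <;> norm_num

private theorem KL1_fin (hKSP : S_KSP) (hKSU : S_KSU) (hKSL : S_KSL) {n : ℕ}
    {b : Option (Fin n) → Option (Fin n) → ℚ} {j : Fin n} (hb : CFK b)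
    (hne : b none (some j) ≠ 0) {S : Set (Option (Fin n))} (hS : StrK b (some j) S (1 / 2))
    (hnS : none ∉ S) :
    b none none = b (some j) (some j) ∧
      ∀ w : Fin n, w ≠ j → some w ∉ S → b (some w) (some j) = 0 := by
  obtain ⟨p1, p2, -⟩ := hKSP _ b hb
  refine ⟨?_, ?_⟩
  · by_contra hcon
    have h1 := p2 none (some j) (by simp) hne hcon
    have h2 := hKSU _ b hb (some j) S {none} _ _ (Set.disjoint_singleton_right.mpr hnS) hS h1
    have h3 := hKSL _ b hb _ _ _ h2
    norm_num at h3
  · intro w hw hwS
    by_contra hcon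
    have h1 := p1 none (some j) (by simp) hne
    have h2 := p1 (some w) (some j) (by simpa using hw) hcon
    have h3 := hKSU _ b hb (some j) {none} {some w} _ _ (by simp) h1 h2
    have h4 := hKSU _ b hb (some j) S ({none} ∪ {some w}) _ _ (by
      rw [Set.disjoint_union_right]
      exact ⟨Set.disjoint_singleton_right.mpr hnS, Set.disjoint_singleton_right.mpr hwS⟩) hS h3
    have h5 := hKSL _ b hb _ _ _ h4
    norm_num at h5

theorem KL1_holds (hKSP : S_KSP) (hKSU : S_KSU) (hKSL : S_KSL) (hKSO : S_KSO) : S_KL1 := by
  intro n k κ hk1 hkn hκ b j hb hA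
  obtain ⟨p1, p2, p3, p4, -⟩ := hKSP _ b hb
  rcases Nat.lt_or_ge j.1 k with hjk | hjk
  · -- from the right
    have h0 : StrK b (some ⟨k - 1, by omega⟩) {some ⟨k, hkn⟩} (1 / 2) := by
      apply p2
      · simp only [ne_eq, Option.some.injEq, Fin.mk.injEq]
        omega
      · rw [hA.res]
        exact KL1_bond hκ _ _ (Or.inr (by simp only; omega))
      · rw [hA.res, hA.res]
        exact (KL1_norm hκ ⟨k - 1, by omega⟩ ⟨k, hkn⟩ (by simp only; omega) (by simp)).symm
    have h1 := p4 (k - 1 - j.1) (fun i => some ⟨k - 1 - i, by omega⟩) {some ⟨k, hkn⟩}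
      (by
        intro i i' hi hi'
        simp only [ne_eq, Option.some.injEq, Fin.mk.injEq]
        omega)
      (by
        intro i hi
        simp only [Set.mem_singleton_iff, Option.some.injEq, Fin.mk.injEq]
        omega)
      (by
        intro i hi
        rw [hA.res]
        exact KL1_bond hκ _ _ (Or.inr (by simp only; omega)))
      h0
    have hj : (some ⟨k - 1 - (k - 1 - j.1), by omega⟩ : Option (Fin n)) = some j := by
      congr 1
      apply Fin.ext
      simp only
      omega
    rw [hj] at h1
    have h2 := hKSO _ b hb (some j) _ {x | ∃ i : Fin n, j.1 < i.1 ∧ x = some i} _ (1 / 2) h1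
      (by
        rintro x (hx | ⟨i, hi, rfl⟩)
        · rw [Set.mem_singleton_iff] at hx
          exact ⟨_, hjk, hx⟩
        · exact ⟨_, by simp only; omega, rfl⟩)
      (by
        rintro ⟨i, hi, h⟩
        rw [Option.some.injEq] at h
        subst h
        omega)
      (by norm_num) le_rfl
    obtain ⟨k1, k2⟩ := KL1_fin hKSP hKSU hKSL hb hA.ne h2 (by rintro ⟨i, hi, h⟩; simp at h)
    refine ⟨k1, Or.inl ?_⟩
    by_contra hj0
    have h3 := k2 ⟨j.1 - 1, by omega⟩
      (by
        intro h
        have := congrArg Fin.val h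
        simp only at this
        omega)
      (by
        rintro ⟨i, hi, h⟩
        rw [Option.some.injEq] at h
        subst h
        simp only at hi
        omega)
    rw [hA.res] at h3
    exact KL1_bond hκ _ _ (Or.inl (by simp only; omega)) h3
  · -- from the left
    have hk1n : k - 1 < n := by omega
    have h0 : StrK b (some ⟨k, hkn⟩) {some ⟨k - 1, hk1n⟩} (1 / 2) := by
      apply p2
      · simp only [ne_eq, Option.some.injEq, Fin.mk.injEq]
        omega
      · rw [hA.res]
        exact KL1_bond hκ _ _ (Or.inl (by simp only; omega))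
      · rw [hA.res, hA.res]
        exact KL1_norm hκ ⟨k - 1, by omega⟩ ⟨k, hkn⟩ (by simp only; omega) (by simp)
    have hjn := j.2
    have h1 := p4 (j.1 - k)
      (fun i => if h : k + i < n then some ⟨k + i, h⟩ else none) {some ⟨k - 1, hk1n⟩}
      (by
        intro i i' hi hi'
        rw [dif_pos (by omega), dif_pos (by omega)]
        simp only [ne_eq, Option.some.injEq, Fin.mk.injEq]
        omega)
      (by
        intro i hi
        rw [dif_pos (by omega)]
        simp only [Set.mem_singleton_iff, Option.some.injEq, Fin.mk.injEq]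
        omega)
      (by
        intro i hi
        rw [dif_pos (by omega), dif_pos (by omega), hA.res]
        exact KL1_bond hκ _ _ (Or.inl (by simp only; omega)))
      (by
        rw [dif_pos (by omega)]
        exact h0)
    have hj : (if h : k + (j.1 - k) < n then some ⟨k + (j.1 - k), h⟩ else none :
        Option (Fin n)) = some j := by
      rw [dif_pos (by omega)]
      congr 1
      apply Fin.ext
      simp only
      omega
    rw [hj] at h1
    have h2 := hKSO _ b hb (some j) _ {x | ∃ i : Fin n, i.1 < j.1 ∧ x = some i} _ (1 / 2) h1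
      (by
        rintro x (hx | ⟨i, hi, rfl⟩)
        · rw [Set.mem_singleton_iff] at hx
          exact ⟨_, by simp only; omega, hx⟩
        · rw [dif_pos (by omega)]
          exact ⟨_, by simp only; omega, rfl⟩)
      (by
        rintro ⟨i, hi, h⟩
        rw [Option.some.injEq] at h
        subst h
        omega)
      (by norm_num) le_rfl
    obtain ⟨k1, k2⟩ := KL1_fin hKSP hKSU hKSL hb hA.ne h2 (by rintro ⟨i, hi, h⟩; simp at h)
    refine ⟨k1, Or.inr ?_⟩
    by_contra hj0
    have h3 := k2 ⟨j.1 + 1, by omega⟩
      (by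
        intro h
        have := congrArg Fin.val h
        simp only at this
        omega)
      (by
        rintro ⟨i, hi, h⟩
        rw [Option.some.injEq] at h
        subst h
        simp only at hi
        omega)
    rw [hA.res] at h3
    exact KL1_bond hκ _ _ (Or.inr (by simp only)) h3

end Pool.Agent.Lib.MP_4c1f79_al
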