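import Pool.Agent.Lib.MP_4c1f79_al.StmK

/-!
# MP_4c1f79_al : piece KLF (a leaf of a connected Cartan form)
-/

set_option autoImplicit false

namespace Pool.Agent.Lib.MP_4c1f79_al

open Finset

private theorem klf_half {ι : Type} [Fintype ι] (b : ι → ι → ℚ) (h : CFK b) (i j : ι)
    (hij : i ≠ j) (hb : b i j ≠ 0) : 2 * b i j ≤ - b i i := by
  obtain ⟨z, hz⟩ := h.int i j
  have h1 := h.pos i
  have h2 : b i j < 0 := lt_of_le_of_ne (h.nonpos i j hij) hb
  have h3 : (z : ℚ) * b i i < 0 := by rw [← hz]; linarith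
  have h4 : (z : ℚ) < 0 := by
    by_contra hc
    push Not at hc
    have := mul_nonneg hc h1.le
    linarith
  have h5 : z ≤ -1 := by
    have : z < 0 := by exact_mod_cast h4
    omega
  have h6 : (z : ℚ) ≤ -1 := by exact_mod_cast h5
  rw [hz]
  have := mul_le_mul_of_nonneg_right h6 h1.le
  linarith

private theorem klf_leaf {ι : Type} [Fintype ι] (b : ι → ι → ℚ) (h : CFK b) (a : ι) :
    ∃ l, ∀ j k, j ≠ l → k ≠ l → b l j ≠ 0 → b l k ≠ 0 → j = k := by
  classical
  by_contra hc
  push Not at hc
  have h1 : (fun _ : ι => (1 : ℚ)) ≠ 0 := by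
    intro h0
    have := congrFun h0 a
    simp at this
  have h2 := h.pd _ h1
  have h3 : bilK b (fun _ => 1) (fun _ => 1) ≤ 0 := by
    unfold bilK
    refine Finset.sum_nonpos fun i _ => ?_
    obtain ⟨j, k, hj, hk, hbj, hbk, hjk⟩ := hc i
    have e1 : ∑ x, b i x * 1 * 1 = b i i + ∑ x ∈ Finset.univ.erase i, b i x := by
      rw [← Finset.add_sum_erase Finset.univ _ (Finset.mem_univ i)]
      simp
    have e2 : ∑ x ∈ Finset.univ.erase i, b i x
        = b i j + ∑ x ∈ (Finset.univ.erase i).erase j, b i x :=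
      (Finset.add_sum_erase _ _ (Finset.mem_erase.2 ⟨hj, Finset.mem_univ j⟩)).symm
    have e3 : ∑ x ∈ (Finset.univ.erase i).erase j, b i x
        = b i k + ∑ x ∈ ((Finset.univ.erase i).erase j).erase k, b i x :=
      (Finset.add_sum_erase _ _ (Finset.mem_erase.2 ⟨fun e => hjk e.symm,
        Finset.mem_erase.2 ⟨hk, Finset.mem_univ k⟩⟩)).symm
    have e4 : ∑ x ∈ ((Finset.univ.erase i).erase j).erase k, b i x ≤ 0 := by
      refine Finset.sum_nonpos fun x hx => ?_
      have hxi : x ≠ i := by
        have := Finset.mem_of_mem_erase (Finset.mem_of_mem_erase hx)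
        exact (Finset.mem_erase.1 this).1
      exact h.nonpos i x (fun e => hxi e.symm)
    have e5 := klf_half b h i j (fun e => hj e.symm) hbj
    have e6 := klf_half b h i k (fun e => hk e.symm) hbk
    rw [e1, e2, e3]
    linarith
  linarith

theorem KLF_holds : S_KLF := by
  intro ι _ b h hcon hcard
  classical
  obtain ⟨a, a', haa⟩ := Fintype.exists_pair_of_one_lt_card (by omega : 1 < Fintype.card ι)
  obtain ⟨l, hl⟩ := klf_leaf b h a
  obtain ⟨y, hy⟩ : ∃ y, y ≠ l := by
    by_cases e : a = l
    · exact ⟨a', fun e' => haa (e.trans e'.symm)⟩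
    · exact ⟨a, e⟩
  obtain ⟨j, hjl, hbj⟩ : ∃ j, j ≠ l ∧ b l j ≠ 0 := by
    by_contra hc
    push Not at hc
    have key : ∀ x, Relation.ReflTransGen (fun x y => b x y ≠ 0) l x → x = l := by
      intro x hx
      induction hx with
      | refl => rfl
      | tail _ h2 ih =>
        rename_i u v _
        by_contra hne
        subst ih
        exact h2 (hc v hne)
    exact hy (key y (hcon l y))
  refine ⟨l, j, fun e => hjl e.symm, hbj, ?_, ?_⟩
  · intro x hx hxj
    by_contra hbx
    exact hxj (hl x j hx hjl hbx hbj)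
  · have key : ∀ x, Relation.ReflTransGen (fun x y => b x y ≠ 0) j x →
        x = l ∨ ∃ hx : x ≠ l, Relation.ReflTransGen
          (fun x y : {x // x ≠ l} => b x y ≠ 0) ⟨j, hjl⟩ ⟨x, hx⟩ := by
      intro x hx
      induction hx with
      | refl => exact Or.inr ⟨hjl, Relation.ReflTransGen.refl⟩
      | tail _ h2 ih =>
        rename_i u v _
        by_cases hv : v = l
        · exact Or.inl hv
        · right
          refine ⟨hv, ?_⟩
          rcases ih with hu | ⟨hu, hch⟩
          · subst hu
            have : v = j := hl v j hv hjl h2 hbj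
            subst this
            exact Relation.ReflTransGen.refl
          · exact Relation.ReflTransGen.tail hch h2
    have key2 : ∀ x : {x // x ≠ l}, Relation.ReflTransGen
        (fun x y : {x // x ≠ l} => b x y ≠ 0) ⟨j, hjl⟩ x := by
      intro x
      rcases key x.1 (hcon j x.1) with h1 | ⟨_, h2⟩
      · exact absurd h1 x.2
      · exact h2
    have key3 : ∀ x : {x // x ≠ l}, Relation.ReflTransGen
        (fun x y : {x // x ≠ l} => b x y ≠ 0) x ⟨j, hjl⟩ := by
      intro x
      have hx := key2 x
      induction hx with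
      | refl => exact Relation.ReflTransGen.refl
      | tail _ h2 ih =>
        refine Relation.ReflTransGen.head ?_ ih
        show b _ _ ≠ 0
        rw [h.symm]
        exact h2
    intro x y
    exact (key3 x).trans (key2 y)

end Pool.Agent.Lib.MP_4c1f79_al
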