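import Pool.Agent.Lib.MP_4c1f79_al.StmK

set_option autoImplicit false

namespace Pool.Agent.Lib.MP_4c1f79_al

open Finset

private theorem cartan_dg (t : J4c.DT) (x : Fin t.rank) : t.cartan x x = 2 := by
  cases t with
  | A n =>
    have h := congrFun (CartanMatrix.A_diag (n := n + 1)) x
    exact h
  | B n => exact CartanMatrix.B_diag (n := n + 2) x
  | C n => exact CartanMatrix.C_diag (n := n + 3) x
  | D n => exact CartanMatrix.D_diag (n := n + 4) x
  | E6 => exact CartanMatrix.E₆_diag x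
  | E7 => exact CartanMatrix.E₇_diag x
  | E8 => exact CartanMatrix.E₈_diag x
  | F4 => exact CartanMatrix.F₄_diag x
  | G2 => exact CartanMatrix.G₂_diag x

private theorem form_dg (t : J4c.DT) (x : Fin t.rank) : t.form x x = 2 * t.len x := by
  unfold J4c.DT.form
  rw [cartan_dg]

private theorem len_ge (t : J4c.DT) (x : Fin t.rank) : 1 ≤ t.len x := by
  cases t with
  | A n => exact le_refl 1
  | B n =>
    change 1 ≤ (if x.val = n + 1 then 1 else 2)
    split_ifs <;> omega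
  | C n =>
    change 1 ≤ (if x.val = n + 2 then 2 else 1)
    split_ifs <;> omega
  | D n => exact le_refl 1
  | E6 => exact le_refl 1
  | E7 => exact le_refl 1
  | E8 => exact le_refl 1
  | F4 =>
    have : ∀ y : Fin 4, 1 ≤ (![2, 2, 1, 1] : Fin 4 → ℕ) y := by decide
    exact this x
  | G2 =>
    have : ∀ y : Fin 2, 1 ≤ (![3, 1] : Fin 2 → ℕ) y := by decide
    exact this x

private theorem len_ex (t : J4c.DT) : ∃ x : Fin t.rank, t.len x = 1 := by
  cases t with
  | A n => exact ⟨(0 : Fin (n + 1)), rfl⟩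
  | B n =>
    refine ⟨(⟨n + 1, by omega⟩ : Fin (n + 2)), ?_⟩
    change (if n + 1 = n + 1 then 1 else 2) = 1
    simp
  | C n =>
    refine ⟨(⟨0, by omega⟩ : Fin (n + 3)), ?_⟩
    change (if 0 = n + 2 then 2 else 1) = 1
    simp
  | D n => exact ⟨(0 : Fin (n + 4)), rfl⟩
  | E6 => exact ⟨(0 : Fin 6), rfl⟩
  | E7 => exact ⟨(0 : Fin 7), rfl⟩
  | E8 => exact ⟨(0 : Fin 8), rfl⟩
  | F4 => exact ⟨(2 : Fin 4), rfl⟩
  | G2 => exact ⟨(1 : Fin 2), rfl⟩

theorem KNO_holds (hKCL : S_KCL) : S_KNO := by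
  intro ι _ _ b hb hc
  have hcf : CFK (fun x y => (b x y : ℚ)) := by
    refine ⟨?_, ?_, ?_, ?_, hb.pd⟩
    · intro i j
      show (b i j : ℚ) = (b j i : ℚ)
      rw [hb.symm i j]
    · intro i
      show (0 : ℚ) < (b i i : ℚ)
      exact_mod_cast hb.pos i
    · intro i j hij
      show (b i j : ℚ) ≤ 0
      exact_mod_cast hb.nonpos i j hij
    · intro i j
      obtain ⟨z, hz⟩ := hb.int i j
      refine ⟨z, ?_⟩
      show 2 * (b i j : ℚ) = z * (b i i : ℚ)
      have : (2 * b i j : ℤ) = z * b i i := by rw [hz]; ring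
      exact_mod_cast this
  obtain ⟨t, c, e, hc0, he⟩ := hKCL ι (fun x y => (b x y : ℚ)) hcf hc
  have he' : ∀ x y, (b x y : ℚ) = c * (t.form (e x) (e y) : ℤ) := fun x y => he x y
  obtain ⟨p, hp⟩ := len_ex t
  have hdiag : ∀ x, (b x x : ℚ) = c * (2 * (t.len (e x) : ℚ)) := by
    intro x
    rw [he' x x, form_dg]
    push_cast
    ring
  have h1 : 1 ≤ c := by
    have h := hdiag (e.symm p)
    rw [Equiv.apply_symm_apply, hp] at h
    obtain ⟨m, hm⟩ := hb.even (e.symm p)
    have hpos := hb.pos (e.symm p)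
    rw [hm] at h hpos
    have hm1 : (1 : ℤ) ≤ m := by omega
    have hm1' : (1 : ℚ) ≤ m := by exact_mod_cast hm1
    push_cast at h
    linarith
  have h2 : c ≤ 1 := by
    obtain ⟨j, -, hj⟩ := hb.norm (e.symm p)
    have h := hdiag j
    rw [hj] at h
    have hl : (1 : ℚ) ≤ (t.len (e j) : ℚ) := by exact_mod_cast len_ge t (e j)
    push_cast at h
    nlinarith
  have hc1 : c = 1 := le_antisymm h2 h1
  refine ⟨t, e, fun x y => ?_⟩
  have h := he' x y
  rw [hc1, one_mul] at h
  exact_mod_cast h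

end Pool.Agent.Lib.MP_4c1f79_al
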