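import Pool.Agent.Lib.MP_4c1f79_al.StmK

/-!
# MP_4c1f79_al : piece KR1 (the multiple bond)
-/

set_option autoImplicit false

namespace Pool.Agent.Lib.MP_4c1f79_al

open Finset

private theorem kr1_self {n k κ : ℕ} (x : Fin n) :
    linK n k κ x x = if x.1 < k then 2 else 2 * (κ : ℚ) := by
  simp [linK]

private theorem kr1_succ {n k κ : ℕ} {x y : Fin n} (h : x.1 + 1 = y.1) :
    linK n k κ x y = if y.1 < k then -1 else -(κ : ℚ) := by
  have hne : x ≠ y := by
    intro h'
    rw [h'] at h
    omega
  simp [linK, hne, h]

private theorem kr1_contra (hKSU : S_KSU) (hKSL : S_KSL) {ι : Type} [Fintype ι] {b : ι → ι → ℚ}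
    (h : CFK b) {y : ι} {S S' : Set ι} {s s' : ℚ} (hd : Disjoint S S') (h1 : StrK b y S s)
    (h2 : StrK b y S' s') (hs : s + s' = 1) : False := by
  have h3 := hKSL ι b h y (S ∪ S') (s + s') (hKSU ι b h y S S' s s' hd h1 h2)
  rw [hs] at h3
  exact lt_irrefl _ h3

/-- strength of a neighbour, with the number given -/
private theorem kr1_nb (hKSA : S_KSA) {ι : Type} [Fintype ι] {b : ι → ι → ℚ}
    (h : CFK b) {u y : ι} (hne : u ≠ y) {p q r s : ℚ} (h1 : b u y = p) (h2 : b u u = q)
    (h3 : b y y = r) (hs : p ^ 2 / (q * r) = s) : StrK b y {u} s := by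
  have h4 := hKSA ι b h u y hne
  rw [h1, h2, h3, hs] at h4
  exact h4

theorem KR1_holds (_hKSP : S_KSP) (hKSA : S_KSA) (hKSM : S_KSM) (hKSU : S_KSU) (hKSL : S_KSL)
    (_hKSO : S_KSO) : S_KR1 := by
  intro n k κ hk hkn h
  have hsymm : ∀ x y, linK n k κ x y = linK n k κ y x := h.symm
  refine ⟨?_, ?_⟩
  · rintro rfl
    have hk1 : k + 1 = n := by
      by_contra hcon
      have hlt : k + 1 < n := by omega
      have a1 : StrK (linK n k 3) ⟨k, hkn⟩ {⟨k - 1, by omega⟩} (3 / 4) := by
        refine kr1_nb hKSA h (p := -3) (q := 2) (r := 6) ?_ ?_ ?_ ?_ (by norm_num)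
        · intro h'
          have := congrArg Fin.val h'
          simp only at this
          omega
        · rw [kr1_succ (by simp only; omega)]
          simp
        · rw [kr1_self, if_pos (by simp only; omega)]
        · rw [kr1_self, if_neg (by simp)]
          norm_num
      have a2 : StrK (linK n k 3) ⟨k, hkn⟩ {⟨k + 1, hlt⟩} (1 / 4) := by
        refine kr1_nb hKSA h (p := -3) (q := 6) (r := 6) ?_ ?_ ?_ ?_ (by norm_num)
        · intro h'
          have := congrArg Fin.val h'
          simp only at this
          omega
        · rw [hsymm, kr1_succ (by simp only)]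
          simp
        · rw [kr1_self, if_neg (by simp)]
          norm_num
        · rw [kr1_self, if_neg (by simp)]
          norm_num
      refine kr1_contra hKSU hKSL h ?_ a1 a2 (by norm_num)
      rw [Set.disjoint_singleton]
      intro h'
      have := congrArg Fin.val h'
      simp only at this
      omega
    have hk2 : k = 1 := by
      by_contra hcon
      have hlt : 2 ≤ k := by omega
      have a1 : StrK (linK n k 3) ⟨k - 1, by omega⟩ {⟨k, hkn⟩} (3 / 4) := by
        refine kr1_nb hKSA h (p := -3) (q := 6) (r := 2) ?_ ?_ ?_ ?_ (by norm_num)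
        · intro h'
          have := congrArg Fin.val h'
          simp only at this
          omega
        · rw [hsymm, kr1_succ (by simp only; omega)]
          simp
        · rw [kr1_self, if_neg (by simp)]
          norm_num
        · rw [kr1_self, if_pos (by simp only; omega)]
      have a2 : StrK (linK n k 3) ⟨k - 1, by omega⟩ {⟨k - 2, by omega⟩} (1 / 4) := by
        refine kr1_nb hKSA h (p := -1) (q := 2) (r := 2) ?_ ?_ ?_ ?_ (by norm_num)
        · intro h'
          have := congrArg Fin.val h'
          simp only at this
          omega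
        · rw [kr1_succ (by simp only; omega), if_pos (by simp only; omega)]
        · rw [kr1_self, if_pos (by simp only; omega)]
        · rw [kr1_self, if_pos (by simp only; omega)]
      refine kr1_contra hKSU hKSL h ?_ a1 a2 (by norm_num)
      rw [Set.disjoint_singleton]
      intro h'
      have := congrArg Fin.val h'
      simp only at this
      omega
    exact ⟨by omega, hk2⟩
  · rintro rfl
    by_contra hcon
    push Not at hcon
    obtain ⟨c1, c2, c3⟩ := hcon
    have hk2 : 2 ≤ k := by omega
    have hkn2 : k + 2 ≤ n := by omega
    obtain ⟨-, -, -, -, hchain⟩ := _hKSP (Fin n) (linK n k 2) h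
    by_cases hk3 : 3 ≤ k
    · -- the chain `k - 3, k - 2, k - 1`
      let v : ℕ → Fin n := fun i => ⟨k - 1 - (2 - i), by omega⟩
      have hv : ∀ i, (v i).1 = k - 1 - (2 - i) := fun i => rfl
      have a0 := hchain 2 v
        (fun i j hij hj h' => by
          have := congrArg Fin.val h'
          rw [hv, hv] at this
          omega)
        (fun i hi => by
          rw [kr1_self, kr1_self, if_pos (by rw [hv]; omega), if_pos (by rw [hv]; omega)])
        (fun i hi => by
          rw [kr1_self, if_pos (by rw [hv]; omega), kr1_succ (by rw [hv, hv]; omega),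
            if_pos (by rw [hv]; omega)]
          norm_num)
      have hv2 : v 2 = ⟨k - 1, by omega⟩ := by
        apply Fin.ext
        rw [hv]
        simp
      rw [hv2] at a0
      have a1 := hKSM (Fin n) (linK n k 2) h ⟨k - 1, by omega⟩ ⟨k, hkn⟩ _ _ a0
        (by
          rintro ⟨i, hi, h'⟩
          have := congrArg Fin.val h'
          rw [hv] at this
          simp only at this
          omega)
        (by
          intro h'
          have := congrArg Fin.val h'
          simp only at this
          omega)
      have e1 : linK n k 2 (⟨k - 1, by omega⟩ : Fin n) ⟨k, hkn⟩ = -2 := by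
        rw [kr1_succ (by simp only; omega)]
        simp
      have e2 : linK n k 2 (⟨k - 1, by omega⟩ : Fin n) ⟨k - 1, by omega⟩ = 2 := by
        rw [kr1_self, if_pos (by simp only; omega)]
      have e3 : linK n k 2 (⟨k, hkn⟩ : Fin n) ⟨k, hkn⟩ = 4 := by
        rw [kr1_self, if_neg (by simp)]
        norm_num
      rw [e1, e2, e3] at a1
      have a2 : StrK (linK n k 2) ⟨k, hkn⟩ {⟨k + 1, by omega⟩} (1 / 4) := by
        refine kr1_nb hKSA h (p := -2) (q := 4) (r := 4) ?_ ?_ ?_ e3 (by norm_num)
        · intro h'
          have := congrArg Fin.val h'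
          simp only at this
          omega
        · rw [hsymm, kr1_succ (by simp only)]
          simp
        · rw [kr1_self, if_neg (by simp)]
          norm_num
      refine kr1_contra hKSU hKSL h ?_ a1 a2 (by norm_num)
      rw [Set.disjoint_singleton_right]
      rintro (h' | ⟨i, hi, h'⟩)
      · have := congrArg Fin.val h'
        simp only at this
        omega
      · have := congrArg Fin.val h'
        rw [hv] at this
        simp only at this
        omega
    · have hk2' : k = 2 := by omega
      subst hk2'
      have hn5 : 5 ≤ n := by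
        by_contra h'
        exact c3 (by omega) rfl
      have a0 : StrK (linK n 2 2) ⟨1, by omega⟩ {⟨0, by omega⟩} (1 / 4) := by
        refine kr1_nb hKSA h (p := -1) (q := 2) (r := 2) ?_ ?_ ?_ ?_ (by norm_num)
        · intro h'
          have := congrArg Fin.val h'
          simp only at this
          omega
        · rw [kr1_succ (by simp only), if_pos (by simp only; omega)]
        · rw [kr1_self, if_pos (by simp only; omega)]
        · rw [kr1_self, if_pos (by simp only; omega)]
      have a1 := hKSM (Fin n) (linK n 2 2) h ⟨1, by omega⟩ ⟨2, hkn⟩ _ _ a0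
        (by
          intro h'
          have := congrArg Fin.val (Set.mem_singleton_iff.1 h')
          simp only at this
          omega)
        (by
          intro h'
          have := congrArg Fin.val h'
          simp only at this
          omega)
      have e1 : linK n 2 2 (⟨1, by omega⟩ : Fin n) ⟨2, hkn⟩ = -2 := by
        rw [kr1_succ (by simp only)]
        simp
      have e2 : linK n 2 2 (⟨1, by omega⟩ : Fin n) ⟨1, by omega⟩ = 2 := by
        rw [kr1_self, if_pos (by simp only; omega)]
      have e3 : linK n 2 2 (⟨2, hkn⟩ : Fin n) ⟨2, hkn⟩ = 4 := by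
        rw [kr1_self, if_neg (by simp)]
        norm_num
      rw [e1, e2, e3] at a1
      let v : ℕ → Fin n := fun i => ⟨4 - i, by omega⟩
      have hv : ∀ i, (v i).1 = 4 - i := fun i => rfl
      have a2 := hchain 2 v
        (fun i j hij hj h' => by
          have := congrArg Fin.val h'
          rw [hv, hv] at this
          omega)
        (fun i hi => by
          rw [kr1_self, kr1_self, if_neg (by rw [hv]; omega), if_neg (by rw [hv]; omega)])
        (fun i hi => by
          rw [kr1_self, if_neg (by rw [hv]; omega), hsymm, kr1_succ (by rw [hv, hv]; omega),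
            if_neg (by rw [hv]; omega)]
          norm_num)
      have hv2 : v 2 = ⟨2, hkn⟩ := by
        apply Fin.ext
        rw [hv]
      rw [hv2] at a2
      refine kr1_contra hKSU hKSL h ?_ a1 a2 (by norm_num)
      rw [Set.disjoint_left]
      rintro x (h' | h') ⟨i, hi, h''⟩
      · have e4 := congrArg Fin.val h'
        have e5 := congrArg Fin.val h''
        rw [hv] at e5
        simp only at e4
        omega
      · have e4 := congrArg Fin.val (Set.mem_singleton_iff.1 h')
        have e5 := congrArg Fin.val h''
        rw [hv] at e5
        simp only at e4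
        omega

end Pool.Agent.Lib.MP_4c1f79_al
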