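import Pool.Agent.Lib.MP_4c1f79_al.StmK

/-!
# MP_4c1f79_al : the piece KR2

The arms of a star.
-/

set_option autoImplicit false

namespace Pool.Agent.Lib.MP_4c1f79_al

open Finset

private theorem KR2_diag (p q r : ℕ) (x : Fin (p + q + r + 1)) : trK p q r x x = 2 := by
  unfold trK
  rw [if_pos rfl]

private theorem KR2_edge (p q r : ℕ) (x y : Fin (p + q + r + 1)) (hxy : x.1 ≠ y.1)
    (h : trA p q x.1 y.1 ∨ trA p q y.1 x.1) : trK p q r x y = -1 := by
  unfold trK
  rw [if_neg (fun h' => hxy (congrArg Fin.val h')), if_pos h]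

/-- The first arm. -/
private def KR2_v1 (p q r : ℕ) (i : ℕ) : Fin (p + q + r + 1) := ⟨min i p, by omega⟩

/-- The second arm. -/
private def KR2_v2 (p q r : ℕ) (i : ℕ) : Fin (p + q + r + 1) := ⟨p + (q - i), by omega⟩

/-- The third arm. -/
private def KR2_v3 (p q r : ℕ) (i : ℕ) : Fin (p + q + r + 1) :=
  ⟨if i < r then p + q + r - i else p, by split_ifs <;> omega⟩

private theorem KR2_v1v (p q r i : ℕ) : (KR2_v1 p q r i).1 = min i p := rfl

private theorem KR2_v2v (p q r i : ℕ) : (KR2_v2 p q r i).1 = p + (q - i) := rfl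

private theorem KR2_v3v (p q r i : ℕ) :
    (KR2_v3 p q r i).1 = if i < r then p + q + r - i else p := rfl

theorem KR2_holds (hKSP : S_KSP) (hKSU : S_KSU) (hKSL : S_KSL) : S_KR2 := by
  intro p q r hp hq hr hb
  obtain ⟨-, -, -, -, h5⟩ := hKSP _ _ hb
  have c1 : KR2_v1 p q r p = (⟨p, by omega⟩ : Fin (p + q + r + 1)) :=
    Fin.ext (by rw [KR2_v1v]; exact min_self p)
  have c2 : KR2_v2 p q r q = (⟨p, by omega⟩ : Fin (p + q + r + 1)) :=
    Fin.ext (by rw [KR2_v2v]; simp)
  have c3 : KR2_v3 p q r r = (⟨p, by omega⟩ : Fin (p + q + r + 1)) :=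
    Fin.ext (by rw [KR2_v3v, if_neg (lt_irrefl r)])
  have a1 := h5 p (KR2_v1 p q r)
    (by
      intro i j hij hj h
      have h' := congrArg Fin.val h
      rw [KR2_v1v, KR2_v1v] at h'
      omega)
    (by
      intro i _
      rw [KR2_diag, KR2_diag])
    (by
      intro i hi
      rw [KR2_diag, KR2_edge]
      · norm_num
      · rw [KR2_v1v, KR2_v1v]
        omega
      · rw [KR2_v1v, KR2_v1v]
        unfold trA
        omega)
  have a2 := h5 q (KR2_v2 p q r)
    (by
      intro i j hij hj h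
      have h' := congrArg Fin.val h
      rw [KR2_v2v, KR2_v2v] at h'
      omega)
    (by
      intro i _
      rw [KR2_diag, KR2_diag])
    (by
      intro i hi
      rw [KR2_diag, KR2_edge]
      · norm_num
      · rw [KR2_v2v, KR2_v2v]
        omega
      · rw [KR2_v2v, KR2_v2v]
        unfold trA
        omega)
  have a3 := h5 r (KR2_v3 p q r)
    (by
      intro i j hij hj h
      have h' := congrArg Fin.val h
      rw [KR2_v3v, KR2_v3v] at h'
      split_ifs at h' <;> omega)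
    (by
      intro i _
      rw [KR2_diag, KR2_diag])
    (by
      intro i hi
      rw [KR2_diag, KR2_edge]
      · norm_num
      · rw [KR2_v3v, KR2_v3v]
        split_ifs <;> omega
      · rw [KR2_v3v, KR2_v3v]
        unfold trA
        split_ifs <;> omega)
  rw [c1] at a1
  rw [c2] at a2
  rw [c3] at a3
  have d12 : Disjoint {x | ∃ i, i < p ∧ x = KR2_v1 p q r i} {x | ∃ i, i < q ∧ x = KR2_v2 p q r i} := by
    rw [Set.disjoint_left]
    rintro x ⟨i, hi, rfl⟩ ⟨j, hj, h⟩
    have h' := congrArg Fin.val h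
    rw [KR2_v1v, KR2_v2v] at h'
    omega
  have d3 : Disjoint ({x | ∃ i, i < p ∧ x = KR2_v1 p q r i} ∪ {x | ∃ i, i < q ∧ x = KR2_v2 p q r i})
      {x | ∃ i, i < r ∧ x = KR2_v3 p q r i} := by
    rw [Set.disjoint_left]
    rintro x (⟨i, hi, rfl⟩ | ⟨i, hi, rfl⟩) ⟨j, hj, h⟩
    · have h' := congrArg Fin.val h
      rw [KR2_v1v, KR2_v3v, if_pos hj] at h'
      omega
    · have h' := congrArg Fin.val h
      rw [KR2_v2v, KR2_v3v, if_pos hj] at h'
      omega
  have a12 := hKSU _ _ hb _ _ _ _ _ d12 a1 a2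
  have a123 := hKSU _ _ hb _ _ _ _ _ d3 a12 a3
  exact hKSL _ _ hb _ _ _ a123

end Pool.Agent.Lib.MP_4c1f79_al
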