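import Pool.Agent.Lib.MP_4c1f79_al.StmK

/-!
# MP_4c1f79_al : [KR3] sorted arms of a star
-/

set_option autoImplicit false

namespace Pool.Agent.Lib.MP_4c1f79_al

private theorem KR3_mono (a b : ℕ) (h : a ≤ b) :
    ((a : ℚ) / (2 * (a + 1))) ≤ (b : ℚ) / (2 * (b + 1)) := by
  rw [div_le_div_iff₀ (by positivity) (by positivity)]
  have : (a : ℚ) ≤ b := by exact_mod_cast h
  nlinarith

private theorem KR3_trans {ι ι' ι'' : Type} {b : ι → ι → ℚ} {b' : ι' → ι' → ℚ}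
    {b'' : ι'' → ι'' → ℚ} (h : SimK b b') (h' : SimK b' b'') : SimK b b'' := by
  obtain ⟨c, e, hc, h⟩ := h
  obtain ⟨c', e', hc', h'⟩ := h'
  exact ⟨c * c', e.trans e', mul_pos hc hc', fun x y => by rw [h, h', mul_assoc]; rfl⟩

private theorem KR3_refl {ι : Type} (b : ι → ι → ℚ) : SimK b b :=
  ⟨1, Equiv.refl _, one_pos, fun x y => by simp⟩

private theorem KR3_sw1 (hKT2 : S_KT2) (p q r : ℕ) : SimK (trK p q r) (trK q p r) := by
  obtain ⟨e, he, _⟩ := (hKT2 p q r).1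
  exact ⟨1, e, one_pos, fun x y => by rw [one_mul]; exact he x y⟩

private theorem KR3_sw2 (hKT2 : S_KT2) (p q r : ℕ) : SimK (trK p q r) (trK p r q) := by
  obtain ⟨e, he, _⟩ := (hKT2 p q r).2
  exact ⟨1, e, one_pos, fun x y => by rw [one_mul]; exact he x y⟩

/-- The inequality for sorted arms. -/
private theorem KR3_sorted (p q r : ℕ) (hp : 1 ≤ p) (hpq : p ≤ q) (hqr : q ≤ r)
    (h : (p / (2 * (p + 1)) + q / (2 * (q + 1)) + r / (2 * (r + 1)) : ℚ) < 1) :
    p = 1 ∧ (q = 1 ∨ (q = 2 ∧ r ≤ 4)) := by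
  have hp1 : p = 1 := by
    by_contra hne
    have h2 : 2 ≤ p := by omega
    have e1 := KR3_mono 2 p h2
    have e2 := KR3_mono 2 q (h2.trans hpq)
    have e3 := KR3_mono 2 r (h2.trans (hpq.trans hqr))
    norm_num at e1 e2 e3
    linarith
  subst hp1
  refine ⟨rfl, ?_⟩
  have hq2 : q ≤ 2 := by
    by_contra hne
    have h3 : 3 ≤ q := by omega
    have e2 := KR3_mono 3 q h3
    have e3 := KR3_mono 3 r (h3.trans hqr)
    norm_num at e2 e3 h
    linarith
  by_cases hq1 : q = 1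
  · exact Or.inl hq1
  · right
    have hq : q = 2 := by omega
    subst hq
    refine ⟨rfl, ?_⟩
    by_contra hne
    have h5 : 5 ≤ r := by omega
    have e3 := KR3_mono 5 r h5
    norm_num at e3 h
    linarith

private theorem KR3_main (p q r a b c : ℕ) (hs : SimK (trK p q r) (trK a b c)) (ha : 1 ≤ a)
    (hab : a ≤ b) (hbc : b ≤ c)
    (h : (a / (2 * (a + 1)) + b / (2 * (b + 1)) + c / (2 * (c + 1)) : ℚ) < 1) :
    ∃ q' r', ((q' = 1 ∧ 1 ≤ r') ∨ (q' = 2 ∧ 2 ≤ r' ∧ r' ≤ 4)) ∧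
      SimK (trK p q r) (trK 1 q' r') := by
  obtain ⟨ha1, hb⟩ := KR3_sorted a b c ha hab hbc h
  subst ha1
  refine ⟨b, c, ?_, hs⟩
  rcases hb with hb | ⟨hb, hc⟩
  · left
    exact ⟨hb, by omega⟩
  · right
    exact ⟨hb, by omega, hc⟩

/-- [KR3] Sorted arms. -/
theorem KR3_holds (hKR2 : S_KR2) (hKT2 : S_KT2) : S_KR3 := by
  intro p q r hp hq hr hC
  have h := hKR2 p q r hp hq hr hC
  rcases le_total p q with h1 | h1 <;> rcases le_total q r with h2 | h2 <;>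
    rcases le_total p r with h3 | h3
  · exact KR3_main p q r p q r (KR3_refl _) hp h1 h2 h
  · exact KR3_main p q r p q r (KR3_refl _) hp h1 h2 h
  · exact KR3_main p q r p r q (KR3_sw2 hKT2 p q r) hp h3 h2 (by linarith)
  · exact KR3_main p q r r p q
      (KR3_trans (KR3_sw2 hKT2 p q r) (KR3_sw1 hKT2 p r q)) hr h3 h1 (by linarith)
  · exact KR3_main p q r q p r (KR3_sw1 hKT2 p q r) hq h1 h3 (by linarith)
  · exact KR3_main p q r q r p
      (KR3_trans (KR3_sw1 hKT2 p q r) (KR3_sw2 hKT2 q p r)) hq h2 h3 (by linarith)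
  · have : p = r := le_antisymm h3 (h2.trans h1)
    exact KR3_main p q r r q p
      (KR3_trans (KR3_sw1 hKT2 p q r) (KR3_trans (KR3_sw2 hKT2 q p r) (KR3_sw1 hKT2 q r p)))
      hr h2 h1 (by linarith)
  · exact KR3_main p q r r q p
      (KR3_trans (KR3_sw1 hKT2 p q r) (KR3_trans (KR3_sw2 hKT2 q p r) (KR3_sw1 hKT2 q r p)))
      hr h2 h1 (by linarith)

end Pool.Agent.Lib.MP_4c1f79_al
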