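import Pool.Agent.Lib.MP_4c1f79_al.StmK

/-!
# [KRI] `PosJ` is invariant under reindexing
-/

set_option autoImplicit false

namespace Pool.Agent.Lib.MP_4c1f79_al

open Finset

private theorem KRI_J {ι : Type} [Fintype ι] [DecidableEq ι] {F : Type} [Field F]
    (b : ι → ι → ℤ) (v : F) (a : ι → ℕ) :
    J4c.J b v a = if a = 0 then 1 else (1 - v ^ J4c.bq b a)⁻¹ *
      ∑ β ∈ Finset.Iio a, v ^ J4c.bq b β / J4c.vpm b v (a - β) * J4c.J b v β := by
  have h1 : J4c.J b v a = if a = 0 then 1 else (1 - v ^ J4c.bq b a)⁻¹ *
      ∑ β ∈ (Finset.Iio a).attach,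
        v ^ J4c.bq b β.1 / J4c.vpm b v (a - β.1) * J4c.J b v β.1 := by
    conv_lhs => unfold J4c.J
    rw [WellFounded.fix_eq]
    rfl
  rw [h1]
  congr 2
  exact Finset.sum_attach (Finset.Iio a)
    (fun β => v ^ J4c.bq b β / J4c.vpm b v (a - β) * J4c.J b v β)

private theorem KRI_bq {ι ι' : Type} [Fintype ι] [Fintype ι'] (b : ι' → ι' → ℤ) (e : ι ≃ ι')
    (a : ι' → ℕ) : J4c.bq (fun x y => b (e x) (e y)) (fun x => a (e x)) = J4c.bq b a := by
  unfold J4c.bq
  congr 2
  rw [← Equiv.sum_comp e (fun i => ∑ j, b i j * (a i : ℤ) * (a j : ℤ))]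
  refine Finset.sum_congr rfl fun i _ => ?_
  exact Equiv.sum_comp e (fun j => b (e i) j * (a (e i) : ℤ) * (a j : ℤ))

private theorem KRI_vpm {ι ι' : Type} [Fintype ι] [Fintype ι'] {F : Type} [Field F]
    (b : ι' → ι' → ℤ) (e : ι ≃ ι') (v : F) (a : ι' → ℕ) :
    J4c.vpm (fun x y => b (e x) (e y)) v (fun x => a (e x)) = J4c.vpm b v a := by
  unfold J4c.vpm
  exact Equiv.prod_comp e (fun i => J4c.vp (v ^ J4c.bd b i) (a i))

private theorem KRI_eq {ι ι' : Type} [Fintype ι] [DecidableEq ι] [Fintype ι'] [DecidableEq ι']
    {F : Type} [Field F] (b : ι' → ι' → ℤ) (e : ι ≃ ι') (v : F) (a : ι' → ℕ) :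
    J4c.J (fun x y => b (e x) (e y)) v (fun x => a (e x)) = J4c.J b v a := by
  induction a using (wellFounded_lt (α := ι' → ℕ)).induction with
  | _ a ih =>
    rw [KRI_J, KRI_J b v a]
    by_cases ha : a = 0
    · rw [if_pos ha, if_pos]
      rw [ha]
      rfl
    · rw [if_neg ha, if_neg, KRI_bq]
      · congr 1
        refine Finset.sum_nbij' (i := fun β i => β (e.symm i)) (j := fun β i => β (e i))
          ?_ ?_ ?_ ?_ ?_
        · intro β hβ
          rw [Finset.mem_Iio] at hβ ⊢
          refine lt_of_le_of_ne (fun i => ?_) fun h => ?_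
          · have h1 := hβ.le (e.symm i)
            simpa using h1
          · apply hβ.ne
            funext i
            have h1 := congrFun h (e i)
            simpa using h1
        · intro β hβ
          rw [Finset.mem_Iio] at hβ ⊢
          refine lt_of_le_of_ne (fun i => hβ.le (e i)) fun h => ?_
          apply hβ.ne
          funext i
          have h1 := congrFun h (e.symm i)
          simpa using h1
        · intro β _
          funext i
          simp
        · intro β _
          funext i
          simp
        · intro β hβ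
          have hβ' : (fun i => β (e.symm i)) < a := by
            rw [Finset.mem_Iio] at hβ
            refine lt_of_le_of_ne (fun i => ?_) fun h => ?_
            · have h1 := hβ.le (e.symm i)
              simpa using h1
            · apply hβ.ne
              funext i
              have h1 := congrFun h (e i)
              simpa using h1
          have h2 : β = fun i => (fun i => β (e.symm i)) (e i) := by
            funext i
            simp
          have h3 := ih _ hβ'
          have h4 := KRI_bq b e (fun i => β (e.symm i))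
          have h5 := KRI_vpm b e v (a - fun i => β (e.symm i))
          rw [← h2] at h3 h4
          have h6 : ((fun x => (a - fun i => β (e.symm i)) (e x)) : ι → ℕ)
              = (fun x => a (e x)) - β := by
            funext x
            simp
          rw [h6] at h5
          rw [h3, h4, h5]
      · intro h
        apply ha
        funext i
        have h1 := congrFun h (e.symm i)
        simpa using h1

theorem KRI_holds : S_KRI := by
  intro ι ι' _ _ _ _ b e a h
  obtain ⟨P, hP⟩ := h
  refine ⟨P, ?_⟩
  rw [KRI_eq, KRI_vpm, hP]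

end Pool.Agent.Lib.MP_4c1f79_al
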