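import Pool.Agent.Lib.MP_4c1f79_al.StmK

set_option autoImplicit false

namespace Pool.Agent.Lib.MP_4c1f79_al

open Finset

private theorem KSA_bil {ι : Type} [Fintype ι] (b : ι → ι → ℚ) (u : ι) (t : ℚ)
    (G : ι → ℚ) (hu : G u = t) (h0 : ∀ i, i ≠ u → G i = 0) :
    bilK b G G = b u u * t * t := by
  unfold bilK
  rw [Finset.sum_eq_single u, Finset.sum_eq_single u, hu]
  · intro j _ hj
    rw [h0 j hj]; ring
  · intro h; exact absurd (Finset.mem_univ _) h
  · intro i _ hi
    rw [h0 i hi]
    simp
  · intro h; exact absurd (Finset.mem_univ _) h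

theorem KSA_holds : S_KSA := by
  classical
  intro ι _ b hb u y huy
  have hu := hb.pos u
  have hy := hb.pos y
  refine ⟨?_, fun i => if i = u then -(b u y) / b u u else 0, ?_, ?_, ?_, ?_⟩
  · intro h
    exact huy h.symm
  · intro i
    by_cases h : i = u
    · simp only [h, if_true]
      have := hb.nonpos u y huy
      apply div_nonneg _ hu.le
      linarith
    · simp [h]
  · intro i hi
    have : i ≠ u := hi
    simp [this]
  · rw [KSA_bil b u (-(b u y) / b u u) _ (by simp) (by intro i hi; simp [hi])]
    apply le_of_eq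
    field_simp
  · rw [Finset.sum_eq_single u]
    · apply le_of_eq
      simp only [if_true]
      field_simp
    · intro i _ hi
      simp [hi]
    · intro h; exact absurd (Finset.mem_univ _) h

end Pool.Agent.Lib.MP_4c1f79_al
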