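import Pool.Agent.Lib.MP_4c1f79_al.StmK

/-!
# MP_4c1f79_al : strengths are smaller than one (piece KSL)
-/

set_option autoImplicit false

namespace Pool.Agent.Lib.MP_4c1f79_al

open Finset

private theorem KSL_add {ι : Type} [Fintype ι] (b : ι → ι → ℚ) (u v : ι → ℚ) :
    bilK b (fun i => u i + v i) (fun i => u i + v i)
      = bilK b u u + bilK b u v + bilK b v u + bilK b v v := by
  unfold bilK
  rw [← Finset.sum_add_distrib, ← Finset.sum_add_distrib, ← Finset.sum_add_distrib]
  refine Finset.sum_congr rfl fun i _ => ?_
  rw [← Finset.sum_add_distrib, ← Finset.sum_add_distrib, ← Finset.sum_add_distrib]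
  refine Finset.sum_congr rfl fun j _ => ?_
  ring

theorem KSL_holds : S_KSL := by
  intro ι _ b hb y S s ⟨hy, G, hG0, hGS, hG1, hG2⟩
  classical
  have hGy : G y = 0 := hGS y hy
  set d : ι → ℚ := fun i => if i = y then 1 else 0 with hd
  have h1 : bilK b d d = b y y := by
    unfold bilK
    rw [Finset.sum_eq_single y]
    · rw [Finset.sum_eq_single y]
      · simp [hd]
      · intro j _ hj; simp [hd, hj]
      · intro h; exact absurd (Finset.mem_univ _) h
    · intro i _ hi
      refine Finset.sum_eq_zero fun j _ => ?_
      simp [hd, hi]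
    · intro h; exact absurd (Finset.mem_univ _) h
  have h2 : bilK b d G = ∑ i, b i y * G i := by
    unfold bilK
    rw [Finset.sum_eq_single y]
    · refine Finset.sum_congr rfl fun j _ => ?_
      rw [hb.symm j y]
      simp [hd]
    · intro i _ hi
      refine Finset.sum_eq_zero fun j _ => ?_
      simp [hd, hi]
    · intro h; exact absurd (Finset.mem_univ _) h
  have h3 : bilK b G d = ∑ i, b i y * G i := by
    unfold bilK
    refine Finset.sum_congr rfl fun i _ => ?_
    rw [Finset.sum_eq_single y]
    · simp [hd]
    · intro j _ hj; simp [hd, hj]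
    · intro h; exact absurd (Finset.mem_univ _) h
  have hx : (fun i => d i + G i) ≠ 0 := by
    intro h
    have h4 := congrFun h y
    simp [hd, hGy] at h4
  have hpd := hb.pd _ hx
  rw [KSL_add, h1, h2, h3] at hpd
  have hyy := hb.pos y
  by_contra hs
  push Not at hs
  have h5 : b y y ≤ s * b y y := by nlinarith
  linarith

end Pool.Agent.Lib.MP_4c1f79_al
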