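import Pool.Agent.Lib.MP_4c1f79_al.StmK

/-!
# MP_4c1f79_al, piece KSM: moving the strength to another vertex
-/

set_option autoImplicit false

namespace Pool.Agent.Lib.MP_4c1f79_al

open Finset

private theorem KSM_sum {ι : Type} [Fintype ι] [DecidableEq ι] (y : ι) (G f : ι → ℚ) :
    ∑ j, f j * ((if j = y then 1 else 0) + G j) = f y + ∑ j, f j * G j := by
  simp only [mul_add, Finset.sum_add_distrib, mul_ite, mul_one, mul_zero]
  rw [Finset.sum_ite_eq', if_pos (Finset.mem_univ _)]

private theorem KSM_bil {ι : Type} [Fintype ι] [DecidableEq ι] (b : ι → ι → ℚ)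
    (hs : ∀ i j, b i j = b j i) (y : ι) (G : ι → ℚ) :
    bilK b (fun i => (if i = y then 1 else 0) + G i) (fun i => (if i = y then 1 else 0) + G i)
      = b y y + 2 * (∑ i, b i y * G i) + bilK b G G := by
  have e1 : bilK b (fun i => (if i = y then 1 else 0) + G i)
      (fun i => (if i = y then 1 else 0) + G i) =
      ∑ i, (b i y + ∑ j, b i j * G j) * ((if i = y then 1 else 0) + G i) := by
    unfold bilK
    refine Finset.sum_congr rfl fun i _ => ?_
    rw [← KSM_sum, Finset.sum_mul]
    refine Finset.sum_congr rfl fun j _ => ?_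
    ring
  have e2 : ∑ i, (b i y + ∑ j, b i j * G j) * G i = ∑ i, b i y * G i + bilK b G G := by
    unfold bilK
    rw [← Finset.sum_add_distrib]
    refine Finset.sum_congr rfl fun i _ => ?_
    rw [add_mul, Finset.sum_mul]
    congr 1
    refine Finset.sum_congr rfl fun j _ => ?_
    ring
  have e3 : ∑ j, b y j * G j = ∑ i, b i y * G i :=
    Finset.sum_congr rfl fun j _ => by rw [hs y j]
  rw [e1, KSM_sum, e2, e3]
  ring

theorem KSM_holds (hKSL : S_KSL) : S_KSM := by
  classical
  intro ι _ b hb y y' S s hS hy' hne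
  have hs1 := hKSL ι b hb y S s hS
  obtain ⟨hy, G, hG0, hGS, h1, h2⟩ := hS
  have py := hb.pos y
  have py' := hb.pos y'
  have hbn : b y y' ≤ 0 := hb.nonpos y y' (Ne.symm hne)
  have hd : 0 < b y y * (1 - s) := mul_pos py (by linarith)
  obtain ⟨t, ht⟩ : ∃ t, t = -(b y y') / (b y y * (1 - s)) := ⟨_, rfl⟩
  have ht0 : 0 ≤ t := by
    rw [ht]
    exact div_nonneg (by linarith) hd.le
  have hH : ∀ i, 0 ≤ (if i = y then (1 : ℚ) else 0) + G i := by
    intro i
    have := hG0 i
    split_ifs <;> linarith
  have e1 : t * b y y' = -(b y y' ^ 2 / (b y y * b y' y' * (1 - s)) * b y' y') := by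
    rw [ht]
    have h1s : (1 - s) ≠ 0 := by linarith
    field_simp
  have e2 : t ^ 2 * (b y y * (1 - s)) = b y y' ^ 2 / (b y y * b y' y' * (1 - s)) * b y' y' := by
    rw [ht]
    have h1s : (1 - s) ≠ 0 := by linarith
    field_simp
  refine ⟨?_, fun i => t * ((if i = y then 1 else 0) + G i), ?_, ?_, ?_, ?_⟩
  · rintro (h | h)
    · exact hne h
    · exact hy' h
  · intro i
    exact mul_nonneg ht0 (hH i)
  · intro i hi
    have hiy : i ≠ y := fun h => hi (Or.inl h)
    have hiS : i ∉ S := fun h => hi (Or.inr h)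
    simp only [if_neg hiy, hGS i hiS, add_zero, mul_zero]
  · have e3 : bilK b (fun i => t * ((if i = y then 1 else 0) + G i))
        (fun i => t * ((if i = y then 1 else 0) + G i)) =
        t ^ 2 * bilK b (fun i => (if i = y then 1 else 0) + G i)
          (fun i => (if i = y then 1 else 0) + G i) := by
      unfold bilK
      rw [Finset.mul_sum]
      refine Finset.sum_congr rfl fun i _ => ?_
      rw [Finset.mul_sum]
      refine Finset.sum_congr rfl fun j _ => ?_
      ring
    rw [e3, KSM_bil b hb.symm, ← e2]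
    apply mul_le_mul_of_nonneg_left _ (sq_nonneg t)
    linarith
  · have e4 : ∑ i, b i y' * (t * ((if i = y then 1 else 0) + G i)) =
        t * (b y y' + ∑ i, b i y' * G i) := by
      rw [← KSM_sum y G (fun i => b i y'), Finset.mul_sum]
      refine Finset.sum_congr rfl fun i _ => ?_
      ring
    have e5 : ∑ i, b i y' * G i ≤ 0 := by
      refine Finset.sum_nonpos fun i _ => ?_
      by_cases hi : i ∈ S
      · have hne' : i ≠ y' := by
          rintro rfl
          exact hy' hi
        exact mul_nonpos_of_nonpos_of_nonneg (hb.nonpos i y' hne') (hG0 i)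
      · rw [hGS i hi, mul_zero]
    rw [e4, ← e1]
    apply mul_le_mul_of_nonneg_left _ ht0
    linarith

end Pool.Agent.Lib.MP_4c1f79_al
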