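import Pool.Agent.Lib.MP_4c1f79_al.StmK

/-!
# MP_4c1f79_al : piece KSO (monotonicity of the strength)
-/

set_option autoImplicit false

namespace Pool.Agent.Lib.MP_4c1f79_al

open Finset

theorem KSO_holds : S_KSO := by
  intro ι _ b hb y S S' s s' hS hSS hy hs0 hss
  obtain ⟨_, G, hG0, hGS, h1, h2⟩ := hS
  refine ⟨hy, ?_⟩
  rcases eq_or_lt_of_le (le_trans hs0 hss) with hs | hs
  · have hs' : s' = 0 := le_antisymm (by rw [hs]; exact hss) hs0
    refine ⟨G, hG0, fun i hi => hGS i fun h => hi (hSS h), ?_, ?_⟩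
    · rw [hs', hs]
      exact h1
    · rw [hs', hs]
      exact h2
  · have ht0 : 0 ≤ s' / s := div_nonneg hs0 hs.le
    have ht1 : s' / s ≤ 1 := (div_le_one hs).2 hss
    have hts : s' / s * s = s' := div_mul_cancel₀ s' hs.ne'
    have hyy : 0 < b y y := hb.pos y
    refine ⟨fun i => s' / s * G i, fun i => mul_nonneg ht0 (hG0 i), fun i hi => ?_, ?_, ?_⟩
    · show s' / s * G i = 0
      rw [hGS i fun h => hi (hSS h), mul_zero]
    · have h3 : bilK b (fun i => s' / s * G i) (fun i => s' / s * G i)
          = (s' / s) * ((s' / s) * bilK b G G) := by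
        rw [bilK, bilK, Finset.mul_sum, Finset.mul_sum]
        refine Finset.sum_congr rfl fun i _ => ?_
        rw [Finset.mul_sum, Finset.mul_sum]
        refine Finset.sum_congr rfl fun j _ => ?_
        ring
      rw [h3]
      have h4 : (s' / s) * bilK b G G ≤ s' * b y y := by
        calc (s' / s) * bilK b G G ≤ (s' / s) * (s * b y y) := mul_le_mul_of_nonneg_left h1 ht0
          _ = (s' / s * s) * b y y := by ring
          _ = s' * b y y := by rw [hts]
      calc (s' / s) * ((s' / s) * bilK b G G) ≤ (s' / s) * (s' * b y y) :=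
            mul_le_mul_of_nonneg_left h4 ht0
        _ ≤ 1 * (s' * b y y) := mul_le_mul_of_nonneg_right ht1 (mul_nonneg hs0 hyy.le)
        _ = s' * b y y := one_mul _
    · have h5 : ∑ i, b i y * (s' / s * G i) = (s' / s) * ∑ i, b i y * G i := by
        rw [Finset.mul_sum]
        refine Finset.sum_congr rfl fun i _ => ?_
        ring
      rw [h5]
      calc (s' / s) * ∑ i, b i y * G i ≤ (s' / s) * -(s * b y y) :=
            mul_le_mul_of_nonneg_left h2 ht0
        _ = -((s' / s * s) * b y y) := by ring
        _ = -(s' * b y y) := by rw [hts]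

end Pool.Agent.Lib.MP_4c1f79_al
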