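import Pool.Agent.Lib.MP_4c1f79_al.StmK

/-!
# MP_4c1f79_al : piece KSP (helper27), strengths of neighbours and chains
-/

set_option autoImplicit false

namespace Pool.Agent.Lib.MP_4c1f79_al

open Finset

private theorem KSP_val (hK2 : S_K2) {ι : Type} [Fintype ι] {b : ι → ι → ℚ} (hb : CFK b)
    {u y : ι} (huy : u ≠ y) (h : b u y ≠ 0) : ∃ κ : ℚ, 1 ≤ κ ∧ (b u u ≠ b y y → 2 ≤ κ) ∧
      b u y ^ 2 = κ / 4 * (b u u * b y y) := by
  obtain ⟨κ, hκ, hh⟩ := hK2 ι b hb u y huy h
  refine ⟨κ, ?_, ?_, ?_⟩
  · rcases hκ with rfl | rfl | rfl <;> norm_num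
  · intro hne
    rcases hκ with rfl | rfl | rfl
    · exfalso
      rcases hh with ⟨h1, -⟩ | ⟨h1, -⟩
      · apply hne
        rw [h1]
        norm_num
      · apply hne
        rw [h1]
        norm_num
    · norm_num
    · norm_num
  · rcases hh with ⟨h1, h2⟩ | ⟨h1, h2⟩
    · rw [h1]
      have h3 : b u y = -(κ * b y y) / 2 := by linear_combination h2 / 2
      rw [h3]
      ring
    · rw [h1]
      have h3 : b u y = -(κ * b u u) / 2 := by linear_combination h2 / 2
      rw [h3]
      ring

/-- PIECE KSP -/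
theorem KSP_holds (hK2 : S_K2) (hKSA : S_KSA) (hKSM : S_KSM) (hKSO : S_KSO) : S_KSP := by
  intro ι _ b hb
  have h1 : ∀ (u y : ι) (s : ℚ), u ≠ y → 0 ≤ s → s ≤ b u y ^ 2 / (b u u * b y y) →
      StrK b y {u} s := fun u y s huy h0 hs =>
    hKSO ι b hb y {u} {u} _ s (hKSA ι b hb u y huy) (fun _ h => h) (fun h => huy h.symm) h0 hs
  have h3 : ∀ (y y' : ι) (S : Set ι), StrK b y S (1 / 2) → y' ∉ S → y' ≠ y → b y y' ≠ 0 →
      StrK b y' (insert y S) (1 / 2) := by
    intro y y' S hS hy' hne hbn
    obtain ⟨κ, hκ, -, hv⟩ := KSP_val hK2 hb hne.symm hbn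
    have hp := hb.pos y
    have hp' := hb.pos y'
    have h4 := hKSM ι b hb y y' S (1 / 2) hS hy' hne
    refine hKSO ι b hb y' _ _ _ (1 / 2) h4 (fun _ h => h) ?_ (by norm_num) ?_
    · rintro (h | h)
      · exact hne h
      · exact hy' h
    · rw [le_div_iff₀ (by positivity), hv]
      have h5 : 0 < b y y * b y' y' := mul_pos hp hp'
      nlinarith
  refine ⟨?_, ?_, h3, ?_, ?_⟩
  · intro u y huy hbn
    obtain ⟨κ, hκ, -, hv⟩ := KSP_val hK2 hb huy hbn
    have h5 : 0 < b u u * b y y := mul_pos (hb.pos u) (hb.pos y)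
    refine h1 u y _ huy (by norm_num) ?_
    rw [le_div_iff₀ h5, hv]
    nlinarith
  · intro u y huy hbn hne
    obtain ⟨κ, -, hκ, hv⟩ := KSP_val hK2 hb huy hbn
    have h6 := hκ hne
    have h5 : 0 < b u u * b y y := mul_pos (hb.pos u) (hb.pos y)
    refine h1 u y _ huy (by norm_num) ?_
    rw [le_div_iff₀ h5, hv]
    nlinarith
  · intro n
    induction n with
    | zero =>
      intro v S _ hS _ h0
      refine hKSO ι b hb (v 0) S _ _ _ h0 (fun _ h => Or.inl h) ?_ (by norm_num) le_rfl
      rintro (h | ⟨i, hi, -⟩)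
      · exact hS 0 le_rfl h
      · omega
    | succ n ih =>
      intro v S hv hS hbn h0
      have h4 := ih v S (fun i j hij hj => hv i j hij (by omega)) (fun i hi => hS i (by omega))
        (fun i hi => hbn i (by omega)) h0
      have h5 := h3 (v n) (v (n + 1)) _ h4 (by
        rintro (h | ⟨i, hi, h⟩)
        · exact hS (n + 1) le_rfl h
        · exact hv i (n + 1) (by omega) le_rfl h.symm) (hv n (n + 1) (by omega) le_rfl).symm
        (hbn n (by omega))
      have h6 : insert (v n) (S ∪ {x | ∃ i, i < n ∧ x = v i}) =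
          S ∪ {x | ∃ i, i < n + 1 ∧ x = v i} := by
        ext x
        constructor
        · rintro (h | h | ⟨i, hi, h⟩)
          · exact Or.inr ⟨n, by omega, h⟩
          · exact Or.inl h
          · exact Or.inr ⟨i, by omega, h⟩
        · rintro (h | ⟨i, hi, h⟩)
          · exact Or.inr (Or.inl h)
          · rcases Nat.lt_succ_iff_lt_or_eq.1 hi with h7 | h7
            · exact Or.inr (Or.inr ⟨i, h7, h⟩)
            · rw [h7] at h
              exact Or.inl h
      rw [h6] at h5
      exact h5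
  · intro n
    induction n with
    | zero =>
      intro v _ _ _
      refine ⟨?_, 0, fun i => le_rfl, fun i _ => rfl, ?_, ?_⟩
      · rintro ⟨i, hi, -⟩
        omega
      · simp [bilK]
      · simp
    | succ n ih =>
      intro v hv hN hB
      have h4 := ih v (fun i j hij hj => hv i j hij (by omega)) (fun i hi => hN i (by omega))
        (fun i hi => hB i (by omega))
      have h5 := hKSM ι b hb (v n) (v (n + 1)) _ _ h4 (by
        rintro ⟨i, hi, h⟩
        exact hv i (n + 1) (by omega) le_rfl h.symm) (hv n (n + 1) (by omega) le_rfl).symm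
      have h6 : insert (v n) {x | ∃ i, i < n ∧ x = v i} = {x | ∃ i, i < n + 1 ∧ x = v i} := by
        ext x
        constructor
        · rintro (h | ⟨i, hi, h⟩)
          · exact ⟨n, by omega, h⟩
          · exact ⟨i, by omega, h⟩
        · rintro ⟨i, hi, h⟩
          rcases Nat.lt_succ_iff_lt_or_eq.1 hi with h7 | h7
          · exact Or.inr ⟨i, h7, h⟩
          · rw [h7] at h
            exact Or.inl h
      have h7 : b (v n) (v (n + 1)) ^ 2 / (b (v n) (v n) * b (v (n + 1)) (v (n + 1)) *
          (1 - (n : ℚ) / (2 * (n + 1)))) = ((n + 1 : ℕ) : ℚ) / (2 * (((n + 1 : ℕ) : ℚ) + 1)) := by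
        have hp := hb.pos (v 0)
        have h8 : b (v n) (v (n + 1)) = -b (v 0) (v 0) / 2 := by
          linear_combination hB n (by omega) / 2
        rw [h8, hN n (by omega), hN (n + 1) le_rfl]
        have h9 : (0 : ℚ) < n + 1 := by positivity
        have h10 : (0 : ℚ) < n + 2 := by positivity
        have h11 : 1 - (n : ℚ) / (2 * (n + 1)) = (n + 2) / (2 * (n + 1)) := by
          field_simp
          ring
        rw [h11]
        push_cast
        field_simp
        ring
      rw [h6, h7] at h5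
      exact h5

end Pool.Agent.Lib.MP_4c1f79_al
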