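import Pool.Agent.Lib.MP_4c1f79_al.StmK

/-!
# [KSU] strengths add up
-/

set_option autoImplicit false

namespace Pool.Agent.Lib.MP_4c1f79_al

open Finset

private theorem KSU_cross {ι : Type} [Fintype ι] (b : ι → ι → ℚ) (hb : CFK b) (G H : ι → ℚ)
    (hG : ∀ i, 0 ≤ G i) (hH : ∀ i, 0 ≤ H i) (hGH : ∀ i, G i = 0 ∨ H i = 0) :
    bilK b G H ≤ 0 := by
  unfold bilK
  refine Finset.sum_nonpos fun i _ => Finset.sum_nonpos fun j _ => ?_
  by_cases hij : i = j
  · subst hij
    rcases hGH i with h | h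
    · rw [h, mul_zero, zero_mul]
    · rw [h, mul_zero]
  · have h1 := hb.nonpos i j hij
    have h2 : 0 ≤ G i * H j := mul_nonneg (hG i) (hH j)
    have h3 : b i j * G i * H j = b i j * (G i * H j) := by ring
    rw [h3]
    exact mul_nonpos_of_nonpos_of_nonneg h1 h2

theorem KSU_holds : S_KSU := by
  intro ι _ b hb y S S' s s' hd h h'
  obtain ⟨hy, G, hG0, hGS, hG1, hG2⟩ := h
  obtain ⟨hy', H, hH0, hHS, hH1, hH2⟩ := h'
  have hGH : ∀ i, G i = 0 ∨ H i = 0 := by
    intro i
    by_cases hi : i ∈ S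
    · exact Or.inr (hHS i fun hi' => Set.disjoint_left.mp hd hi hi')
    · exact Or.inl (hGS i hi)
  refine ⟨?_, fun i => G i + H i, fun i => add_nonneg (hG0 i) (hH0 i), ?_, ?_, ?_⟩
  · rintro (h | h)
    · exact hy h
    · exact hy' h
  · intro i hi
    have h1 : i ∉ S := fun h => hi (Or.inl h)
    have h2 : i ∉ S' := fun h => hi (Or.inr h)
    change G i + H i = 0
    rw [hGS i h1, hHS i h2, add_zero]
  · have h1 := KSU_cross b hb G H hG0 hH0 hGH
    have h2 := KSU_cross b hb H G hH0 hG0 fun i => (hGH i).symm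
    have h3 : bilK b (fun i => G i + H i) (fun i => G i + H i) =
        bilK b G G + bilK b G H + (bilK b H G + bilK b H H) := by
      unfold bilK
      rw [← Finset.sum_add_distrib, ← Finset.sum_add_distrib, ← Finset.sum_add_distrib]
      refine Finset.sum_congr rfl fun i _ => ?_
      rw [← Finset.sum_add_distrib, ← Finset.sum_add_distrib, ← Finset.sum_add_distrib]
      refine Finset.sum_congr rfl fun j _ => ?_
      ring
    rw [h3, add_mul]
    linarith
  · have h1 : ∑ i, b i y * (G i + H i) = ∑ i, b i y * G i + ∑ i, b i y * H i := by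
      rw [← Finset.sum_add_distrib]
      exact Finset.sum_congr rfl fun i _ => by ring
    change ∑ i, b i y * (G i + H i) ≤ _
    rw [h1, add_mul]
    linarith

end Pool.Agent.Lib.MP_4c1f79_al
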