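import Pool.Agent.Lib.MP_4c1f79_al.StmK

/-!
# MP_4c1f79_al : piece KT (attaching a leaf to a star)
-/

set_option autoImplicit false

namespace Pool.Agent.Lib.MP_4c1f79_al

open Finset

/-- the leaf is attached at the end of the third arm -/
private theorem kt_last (hK2 : S_K2) {p q r : ℕ} (hr : 1 ≤ r)
    (b : Option (Fin (p + q + r + 1)) → Option (Fin (p + q + r + 1)) → ℚ)
    (j : Fin (p + q + r + 1)) (hb : CFK b) (ha : AttK (trK p q r) b j)
    (hn : b none none = b (some j) (some j)) (hj : j.1 = p + q + r) :
    SimK b (trK p q (r + 1)) := by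
  have hjj : b (some j) (some j) = 2 := by
    rw [ha.res]
    simp [trK]
  have hnj : b none (some j) = -1 := by
    obtain ⟨κ, hκ, h⟩ := hK2 _ b hb none (some j) (by simp) ha.ne
    rw [hn, hjj] at h
    rcases h with ⟨h1, h2⟩ | ⟨h1, h2⟩
    · linarith
    · linarith
  have key : ∀ x : Fin (p + q + r + 1), b none (some x)
      = if trA p q (p + q + r + 1) x.1 ∨ trA p q x.1 (p + q + r + 1) then -1 else 0 := by
    intro x
    have hx := x.2
    by_cases hxj : x = j
    · subst hxj
      rw [hnj, if_pos]
      right
      left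
      constructor
      · omega
      · omega
    · rw [ha.eq x hxj, if_neg]
      have hxj' : x.1 ≠ j.1 := fun h => hxj (Fin.ext h)
      unfold trA
      omega
  refine ⟨1, finSuccEquivLast.symm, one_pos, ?_⟩
  intro x y
  rw [one_mul]
  cases x with
  | none =>
    cases y with
    | none =>
      rw [hn, hjj]
      simp [trK]
    | some y =>
      rw [key]
      have h1 : (finSuccEquivLast.symm (none : Option (Fin (p + q + r + 1)))) = Fin.last _ :=
        finSuccEquivLast_symm_none
      have h2 : finSuccEquivLast.symm (some y) = y.castSucc := finSuccEquivLast_symm_some y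
      rw [h1, h2]
      have hne : (Fin.last (p + q + r + 1) : Fin (p + q + (r + 1) + 1)) ≠ y.castSucc := by
        intro h
        have := congrArg Fin.val h
        have hy := y.2
        simp at this
        omega
      unfold trK
      rw [if_neg hne]
      rfl
  | some x =>
    cases y with
    | none =>
      rw [hb.symm, key]
      have h1 : (finSuccEquivLast.symm (none : Option (Fin (p + q + r + 1)))) = Fin.last _ :=
        finSuccEquivLast_symm_none
      have h2 : finSuccEquivLast.symm (some x) = x.castSucc := finSuccEquivLast_symm_some x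
      rw [h1, h2]
      have hne : x.castSucc ≠ (Fin.last (p + q + r + 1) : Fin (p + q + (r + 1) + 1)) := by
        intro h
        have := congrArg Fin.val h
        have hy := x.2
        simp at this
        omega
      unfold trK
      rw [if_neg hne]
      exact if_congr or_comm rfl rfl
    | some y =>
      rw [ha.res]
      have h1 : finSuccEquivLast.symm (some x) = x.castSucc := finSuccEquivLast_symm_some x
      have h2 : finSuccEquivLast.symm (some y) = y.castSucc := finSuccEquivLast_symm_some y
      rw [h1, h2]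
      unfold trK
      by_cases hxy : x = y
      · subst hxy
        simp
      · have hxy' : (x.castSucc : Fin (p + q + (r + 1) + 1)) ≠ y.castSucc := by
          intro h
          exact hxy (Fin.castSucc_injective _ h)
        rw [if_neg hxy, if_neg hxy']
        rfl

/-- transport along a bijection -/
private theorem kt_tr {V V' : Type} (b₀ : V → V → ℚ) (b₁ : V' → V' → ℚ)
    (b : Option V → Option V → ℚ) (j : V) (e : V ≃ V') (he : ∀ x y, b₀ x y = b₁ (e x) (e y))
    (ha : AttK b₀ b j) :
    ∃ b' : Option V' → Option V' → ℚ, AttK b₁ b' (e j) ∧ SimK b b' ∧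
      b' none none = b none none ∧ b' (some (e j)) (some (e j)) = b (some j) (some j) := by
  refine ⟨fun x y => b (x.map e.symm) (y.map e.symm), ⟨?_, ?_, ?_⟩, ⟨1, Equiv.optionCongr e,
    one_pos, ?_⟩, rfl, ?_⟩
  · intro x y
    simp only [Option.map_some]
    rw [ha.res, he]
    simp
  · simpa using ha.ne
  · intro x hx
    simp only [Option.map_some, Option.map_none]
    apply ha.eq
    intro h
    apply hx
    rw [← h]
    simp
  · intro x y
    cases x <;> cases y <;> simp
  · simp

theorem KT_holds (hK1 : S_K1) (hK2 : S_K2) (hKT1 : S_KT1) (hKT2 : S_KT2) : S_KT := by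
  obtain ⟨-, -, -, kc, -, ks, -⟩ := hK1
  -- end of the third arm
  have hA : ∀ p q r : ℕ, 1 ≤ p → 1 ≤ q → 1 ≤ r →
      ∀ (b : Option (Fin (p + q + r + 1)) → Option (Fin (p + q + r + 1)) → ℚ)
      (j : Fin (p + q + r + 1)), CFK b → AttK (trK p q r) b j →
      b none none = b (some j) (some j) → j.1 = p + q + r → ShapeK b := by
    intro p q r hp hq hr b j hb ha hn hj
    exact Or.inr (Or.inr ⟨p, q, r + 1, hp, hq, by omega, kt_last hK2 hr b j hb ha hn hj⟩)
  -- end of the second arm
  have hB : ∀ p q r : ℕ, 1 ≤ p → 1 ≤ q → 1 ≤ r →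
      ∀ (b : Option (Fin (p + q + r + 1)) → Option (Fin (p + q + r + 1)) → ℚ)
      (j : Fin (p + q + r + 1)), CFK b → AttK (trK p q r) b j →
      b none none = b (some j) (some j) → j.1 = p + q → ShapeK b := by
    intro p q r hp hq hr b j hb ha hn hj
    obtain ⟨e, he, hx⟩ := (hKT2 p q r).2
    obtain ⟨b', h1, h2, h3, h4⟩ := kt_tr _ _ b j e he ha
    apply ks _ _ b b' h2
    apply hA p r q hp hr hq b' (e j) (kc _ _ b b' h2 hb) h1 (by rw [h3, h4, hn])
    rw [(hx j).1 hj hq]
    omega
  intro p q r hp hq hr b j hb ha
  obtain ⟨hn, hj | hj | hj⟩ := hKT1 p q r hp hq hr b j hb ha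
  · obtain ⟨e, he, hx⟩ := (hKT2 p q r).1
    obtain ⟨b', h1, h2, h3, h4⟩ := kt_tr _ _ b j e he ha
    apply ks _ _ b b' h2
    apply hB q p r hq hp hr b' (e j) (kc _ _ b b' h2 hb) h1 (by rw [h3, h4, hn])
    rw [(hx j).1 hj]
    omega
  · exact hB p q r hp hq hr b j hb ha hn hj
  · exact hA p q r hp hq hr b j hb ha hn hj

end Pool.Agent.Lib.MP_4c1f79_al
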