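import Pool.Agent.Lib.MP_4c1f79_al.StmK

/-!
# Block CLS, piece KT1: a leaf attached to a star sits at the end of an arm
-/

set_option autoImplicit false

namespace Pool.Agent.Lib.MP_4c1f79_al

open Finset

/-- Common core of the three arms: strength one half at the vertex `y`. -/
private lemma kt1_core (hKSP : S_KSP) (hKSU : S_KSU) (hKSL : S_KSL) {ι : Type} [Fintype ι]
    (b : ι → ι → ℚ) (hb : CFK b) (y l : ι) (T : Set ι) (hT : StrK b y T (1 / 2)) (hl : l ∉ T)
    (hly : l ≠ y) (hbl : b l y ≠ 0) :
    b l l = b y y ∧ ∀ u, u ∉ T → u ≠ y → u ≠ l → b u y = 0 := by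
  obtain ⟨h1, h2, -, -, -⟩ := hKSP ι b hb
  constructor
  · by_contra hne
    have h3 := h2 l y hly hbl hne
    have h4 := hKSU ι b hb y T {l} _ _ (Set.disjoint_singleton_right.2 hl) hT h3
    have h5 := hKSL ι b hb y _ _ h4
    norm_num at h5
  · intro u hu huy hul
    by_contra hne
    have h3 := h1 l y hly hbl
    have h4 := h1 u y huy hne
    have h5 := hKSU ι b hb y T {l} _ _ (Set.disjoint_singleton_right.2 hl) hT h3
    have h6 : u ∉ T ∪ {l} := by
      rintro (h | h)
      · exact hu h
      · exact hul h
    have h7 := hKSU ι b hb y _ {u} _ _ (Set.disjoint_singleton_right.2 h6) h5 h4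
    have h8 := hKSL ι b hb y _ _ h7
    norm_num at h8

private lemma kt1_ne {p q r : ℕ} {x y : Fin (p + q + r + 1)}
    (h : trA p q x.1 y.1 ∨ trA p q y.1 x.1) : trK p q r x y ≠ 0 := by
  unfold trK
  split_ifs <;> norm_num

/-- Two neighbours of the same vertex have together strength one half. -/
private lemma kt1_two (hKSP : S_KSP) (hKSU : S_KSU) {ι : Type} [Fintype ι]
    (b : ι → ι → ℚ) (hb : CFK b) (y u v : ι) (huy : u ≠ y) (hvy : v ≠ y) (huv : u ≠ v)
    (hbu : b u y ≠ 0) (hbv : b v y ≠ 0) : StrK b y ({u} ∪ {v}) (1 / 2) := by
  obtain ⟨h1, -, -, -, -⟩ := hKSP ι b hb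
  have h3 := h1 u y huy hbu
  have h4 := h1 v y hvy hbv
  have h5 := hKSU ι b hb y {u} {v} _ _
    (Set.disjoint_singleton_right.2 (by simpa using huv.symm)) h3 h4
  norm_num at h5 ⊢
  exact h5

theorem KT1_holds (hKSP : S_KSP) (hKSU : S_KSU) (hKSL : S_KSL) (_hKSO : S_KSO) : S_KT1 := by
  intro p q r hp hq hr b j hb hA
  obtain ⟨hres, hne, heq⟩ := hA
  obtain ⟨-, -, -, h4, -⟩ := hKSP _ b hb
  -- bonds of the star
  have bond : ∀ x y : Fin (p + q + r + 1), (trA p q x.1 y.1 ∨ trA p q y.1 x.1) →
      b (some x) (some y) ≠ 0 := by
    intro x y h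
    rw [hres]
    exact kt1_ne h
  have sne : ∀ x y : Fin (p + q + r + 1), x.1 ≠ y.1 → (some x : Option _) ≠ some y := by
    intro x y h h'
    exact h (congrArg Fin.val (Option.some.inj h'))
  have hj := j.2
  -- the vertices next to the centre
  have c1 : p - 1 < p + q + r + 1 := by omega
  have c2 : p + 1 < p + q + r + 1 := by omega
  have c3 : p + q + 1 < p + q + r + 1 := by omega
  have c0 : p < p + q + r + 1 := by omega
  have t12 : StrK b (some ⟨p, c0⟩) ({some ⟨p - 1, c1⟩} ∪ {some ⟨p + 1, c2⟩}) (1 / 2) :=
    kt1_two hKSP hKSU b hb _ _ _ (sne _ _ (by simp only; omega)) (sne _ _ (by simp only; omega))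
      (sne _ _ (by simp only; omega))
      (bond _ _ (Or.inl (Or.inl ⟨by simp only; omega, by simp only; omega⟩)))
      (bond _ _ (Or.inr (Or.inl ⟨by simp only, by simp only; omega⟩)))
  have t13 : StrK b (some ⟨p, c0⟩) ({some ⟨p - 1, c1⟩} ∪ {some ⟨p + q + 1, c3⟩}) (1 / 2) :=
    kt1_two hKSP hKSU b hb _ _ _ (sne _ _ (by simp only; omega)) (sne _ _ (by simp only; omega))
      (sne _ _ (by simp only; omega))
      (bond _ _ (Or.inl (Or.inl ⟨by simp only; omega, by simp only; omega⟩)))
      (bond _ _ (Or.inr (Or.inr ⟨by simp only, by simp only⟩)))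
  have t23 : StrK b (some ⟨p, c0⟩) ({some ⟨p + 1, c2⟩} ∪ {some ⟨p + q + 1, c3⟩}) (1 / 2) :=
    kt1_two hKSP hKSU b hb _ _ _ (sne _ _ (by simp only; omega)) (sne _ _ (by simp only; omega))
      (sne _ _ (by simp only; omega))
      (bond _ _ (Or.inr (Or.inl ⟨by simp only, by simp only; omega⟩)))
      (bond _ _ (Or.inr (Or.inr ⟨by simp only, by simp only⟩)))
  rcases Nat.lt_trichotomy j.1 p with hjp | hjp | hjp
  · -- the first arm
    have hS := h4 (p - j.1) (fun i => some ⟨p - i, by omega⟩)
      ({some ⟨p + 1, c2⟩} ∪ {some ⟨p + q + 1, c3⟩})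
      (by
        intro i k hik hk
        exact sne _ _ (by simp only; omega))
      (by
        intro i hi
        rintro (h | h)
        · exact sne _ _ (by simp only; omega) h
        · exact sne _ _ (by simp only; omega) h)
      (by
        intro i hi
        exact bond _ _ (Or.inr (Or.inl ⟨by simp only; omega, by simp only; omega⟩)))
      (by simpa using t23)
    have hjv : (some ⟨p - (p - j.1), by omega⟩ : Option (Fin (p + q + r + 1))) = some j := by
      congr 1
      ext
      simp only
      omega
    rw [hjv] at hS
    obtain ⟨k1, k2⟩ := kt1_core hKSP hKSU hKSL b hb (some j) none _ hS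
      (by
        rintro ((h | h) | ⟨i, _, h⟩)
        · simp at h
        · simp at h
        · simp at h)
      (by simp) hne
    refine ⟨k1, ?_⟩
    by_contra hcon
    push Not at hcon
    have c4 : j.1 - 1 < p + q + r + 1 := by omega
    refine bond ⟨j.1 - 1, c4⟩ j (Or.inl (Or.inl ⟨by simp only; omega, by simp only; omega⟩))
      (k2 _ ?_ (sne _ _ (by simp only; omega)) (by simp))
    rintro ((h | h) | ⟨i, hi, h⟩)
    · exact sne _ _ (by simp only; omega) h
    · exact sne _ _ (by simp only; omega) h
    · exact sne _ _ (by simp only; omega) h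
  · -- the centre
    exfalso
    obtain ⟨h1, -, -, -, -⟩ := hKSP _ b hb
    have hjj : (some ⟨p, c0⟩ : Option (Fin (p + q + r + 1))) = some j := by
      congr 1
      ext
      exact hjp.symm
    rw [hjj] at t12
    obtain ⟨k1, k2⟩ := kt1_core hKSP hKSU hKSL b hb (some j) none _ t12
      (by
        rintro (h | h)
        · simp at h
        · simp at h)
      (by simp) hne
    refine bond ⟨p + q + 1, c3⟩ j (Or.inr (Or.inr ⟨by omega, by simp only⟩))
      (k2 _ ?_ (sne _ _ (by simp only; omega)) (by simp))
    rintro (h | h)
    · exact sne _ _ (by simp only; omega) h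
    · exact sne _ _ (by simp only; omega) h
  · rcases Nat.lt_or_ge (p + q) j.1 with hjq | hjq
    · -- the third arm
      have hlt : ∀ i, (if i = 0 then p else min (p + q + i) (p + q + r)) < p + q + r + 1 := by
        intro i
        split_ifs <;> omega
      have hS := h4 (j.1 - (p + q))
        (fun i => some ⟨if i = 0 then p else min (p + q + i) (p + q + r), hlt i⟩)
        ({some ⟨p - 1, c1⟩} ∪ {some ⟨p + 1, c2⟩})
        (by
          intro i k hik hk
          refine sne _ _ ?_
          simp only
          split_ifs <;> omega)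
        (by
          intro i hi
          rintro (h | h)
          · refine sne _ _ ?_ h
            simp only
            split_ifs <;> omega
          · refine sne _ _ ?_ h
            simp only
            split_ifs <;> omega)
        (by
          intro i hi
          by_cases h0 : i = 0
          · subst h0
            refine bond _ _ (Or.inl (Or.inr ⟨by simp, ?_⟩))
            simp only [if_neg (Nat.succ_ne_zero 0)]
            omega
          · refine bond _ _ (Or.inl (Or.inl ⟨?_, ?_⟩))
            · simp only [if_neg h0, if_neg (Nat.succ_ne_zero i)]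
              omega
            · simp only [if_neg h0]
              omega)
        (by simpa using t12)
      have hjv : (some ⟨if j.1 - (p + q) = 0 then p else min (p + q + (j.1 - (p + q))) (p + q + r),
          hlt _⟩ : Option (Fin (p + q + r + 1))) = some j := by
        congr 1
        ext
        simp only
        split_ifs <;> omega
      rw [hjv] at hS
      obtain ⟨k1, k2⟩ := kt1_core hKSP hKSU hKSL b hb (some j) none _ hS
        (by
          rintro ((h | h) | ⟨i, _, h⟩)
          · simp at h
          · simp at h
          · simp at h)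
        (by simp) hne
      refine ⟨k1, ?_⟩
      by_contra hcon
      push Not at hcon
      have c4 : j.1 + 1 < p + q + r + 1 := by omega
      refine bond ⟨j.1 + 1, c4⟩ j (Or.inr (Or.inl ⟨by simp only, by omega⟩))
        (k2 _ ?_ (sne _ _ (by simp only; omega)) (by simp))
      rintro ((h | h) | ⟨i, hi, h⟩)
      · exact sne _ _ (by simp only; omega) h
      · exact sne _ _ (by simp only; omega) h
      · refine sne _ _ ?_ h
        simp only
        split_ifs <;> omega
    · -- the second arm
      have hS := h4 (j.1 - p) (fun i => some ⟨min (p + i) (p + q + r), by omega⟩)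
        ({some ⟨p - 1, c1⟩} ∪ {some ⟨p + q + 1, c3⟩})
        (by
          intro i k hik hk
          exact sne _ _ (by simp only; omega))
        (by
          intro i hi
          rintro (h | h)
          · exact sne _ _ (by simp only; omega) h
          · exact sne _ _ (by simp only; omega) h)
        (by
          intro i hi
          exact bond _ _ (Or.inl (Or.inl ⟨by simp only; omega, by simp only; omega⟩)))
        (by
          have e : (⟨min (p + 0) (p + q + r), by omega⟩ : Fin (p + q + r + 1)) = ⟨p, c0⟩ := by
            ext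
            simp only
            omega
          simp only [e]
          exact t13)
      have hjv : (some ⟨min (p + (j.1 - p)) (p + q + r), by omega⟩ :
          Option (Fin (p + q + r + 1))) = some j := by
        congr 1
        ext
        simp only
        omega
      rw [hjv] at hS
      obtain ⟨k1, k2⟩ := kt1_core hKSP hKSU hKSL b hb (some j) none _ hS
        (by
          rintro ((h | h) | ⟨i, _, h⟩)
          · simp at h
          · simp at h
          · simp at h)
        (by simp) hne
      refine ⟨k1, ?_⟩
      by_contra hcon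
      push Not at hcon
      have c4 : j.1 + 1 < p + q + r + 1 := by omega
      refine bond ⟨j.1 + 1, c4⟩ j (Or.inr (Or.inl ⟨by simp only, by omega⟩))
        (k2 _ ?_ (sne _ _ (by simp only; omega)) (by simp))
      rintro ((h | h) | ⟨i, hi, h⟩)
      · exact sne _ _ (by simp only; omega) h
      · exact sne _ _ (by simp only; omega) h
      · exact sne _ _ (by simp only; omega) h

end Pool.Agent.Lib.MP_4c1f79_al
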