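import Pool.Agent.Lib.MP_4c1f79_al.StmK

set_option autoImplicit false

namespace Pool.Agent.Lib.MP_4c1f79_al

private def KT2_f (p q i : ℕ) : ℕ := if i ≤ p + q then p + q - i else i

private def KT2_g (p q r i : ℕ) : ℕ := if i ≤ p then i else if i ≤ p + q then i + r else i - q

private theorem KT2_f_lt {p q r i : ℕ} (h : i < p + q + r + 1) :
    KT2_f p q i < q + p + r + 1 := by
  unfold KT2_f
  split_ifs <;> omega

private theorem KT2_f_inv (p q i : ℕ) : KT2_f q p (KT2_f p q i) = i := by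
  unfold KT2_f
  split_ifs <;> omega

private theorem KT2_g_lt {p q r i : ℕ} (h : i < p + q + r + 1) :
    KT2_g p q r i < p + r + q + 1 := by
  unfold KT2_g
  split_ifs <;> omega

private theorem KT2_g_inv {p q r i : ℕ} (h : i < p + q + r + 1) :
    KT2_g p r q (KT2_g p q r i) = i := by
  unfold KT2_g
  split_ifs <;> omega

private theorem KT2_f_tr {p q r i j : ℕ} (hi : i < p + q + r + 1) (hj : j < p + q + r + 1) :
    (trA p q i j ∨ trA p q j i) ↔
      (trA q p (KT2_f p q i) (KT2_f p q j) ∨ trA q p (KT2_f p q j) (KT2_f p q i)) := by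
  unfold trA KT2_f
  split_ifs <;> omega

private theorem KT2_g_tr {p q r i j : ℕ} (hi : i < p + q + r + 1) (hj : j < p + q + r + 1) :
    (trA p q i j ∨ trA p q j i) ↔
      (trA p r (KT2_g p q r i) (KT2_g p q r j) ∨ trA p r (KT2_g p q r j) (KT2_g p q r i)) := by
  unfold trA KT2_g
  split_ifs <;> omega

private theorem KT2_trK {p q r p' q' r' : ℕ} (x y : Fin (p + q + r + 1))
    (x' y' : Fin (p' + q' + r' + 1)) (h1 : x = y ↔ x' = y')
    (h2 : (trA p q x.1 y.1 ∨ trA p q y.1 x.1) ↔ (trA p' q' x'.1 y'.1 ∨ trA p' q' y'.1 x'.1)) :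
    trK p q r x y = trK p' q' r' x' y' := by
  unfold trK
  by_cases hxy : x = y
  · rw [if_pos hxy, if_pos (h1.1 hxy)]
  · rw [if_neg hxy, if_neg fun h => hxy (h1.2 h)]
    by_cases ht : trA p q x.1 y.1 ∨ trA p q y.1 x.1
    · rw [if_pos ht, if_pos (h2.1 ht)]
    · rw [if_neg ht, if_neg fun h => ht (h2.2 h)]

theorem KT2_holds : S_KT2 := by
  intro p q r
  constructor
  · let e : Fin (p + q + r + 1) ≃ Fin (q + p + r + 1) :=
      { toFun := fun x => ⟨KT2_f p q x.1, KT2_f_lt x.2⟩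
        invFun := fun x => ⟨KT2_f q p x.1, KT2_f_lt x.2⟩
        left_inv := fun x => Fin.ext (KT2_f_inv p q x.1)
        right_inv := fun x => Fin.ext (KT2_f_inv q p x.1) }
    refine ⟨e, ?_, ?_⟩
    · intro x y
      exact KT2_trK x y (e x) (e y) e.injective.eq_iff.symm (KT2_f_tr x.2 y.2)
    · intro x
      have hx := x.2
      change (x.1 = 0 → KT2_f p q x.1 = p + q) ∧ (x.1 = p + q → KT2_f p q x.1 = 0) ∧
        (x.1 = p + q + r → 1 ≤ r → KT2_f p q x.1 = p + q + r)
      unfold KT2_f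
      split_ifs <;> omega
  · let e : Fin (p + q + r + 1) ≃ Fin (p + r + q + 1) :=
      { toFun := fun x => ⟨KT2_g p q r x.1, KT2_g_lt x.2⟩
        invFun := fun x => ⟨KT2_g p r q x.1, KT2_g_lt x.2⟩
        left_inv := fun x => Fin.ext (KT2_g_inv x.2)
        right_inv := fun x => Fin.ext (KT2_g_inv x.2) }
    refine ⟨e, ?_, ?_⟩
    · intro x y
      exact KT2_trK x y (e x) (e y) e.injective.eq_iff.symm (KT2_g_tr x.2 y.2)
    · intro x
      have hx := x.2
      change (x.1 = p + q → 1 ≤ q → KT2_g p q r x.1 = p + q + r) ∧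
        (x.1 = p + q + r → 1 ≤ r → KT2_g p q r x.1 = p + r)
      unfold KT2_g
      split_ifs <;> omega

end Pool.Agent.Lib.MP_4c1f79_al
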