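import Pool.Agent.Lib.MP_4c1f79_al.StmK

/-!
# MP_4c1f79_al : piece KTP (transport of an attached leaf)
-/

set_option autoImplicit false

namespace Pool.Agent.Lib.MP_4c1f79_al

open Finset

theorem KTP_holds (_hK1 : S_K1) : S_KTP := by
  intro V V' b₀ b₁ b j hatt hsim
  obtain ⟨c, e, hc, he⟩ := hsim
  have hc' : c ≠ 0 := hc.ne'
  refine ⟨fun x y => c⁻¹ * b ((Equiv.optionCongr e).symm x) ((Equiv.optionCongr e).symm y), e j,
    ⟨?_, ?_, ?_⟩, c, Equiv.optionCongr e, hc, ?_⟩
  · intro x y
    have h1 : (Equiv.optionCongr e).symm (some x) = some (e.symm x) := rfl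
    have h2 : (Equiv.optionCongr e).symm (some y) = some (e.symm y) := rfl
    show c⁻¹ * b ((Equiv.optionCongr e).symm (some x)) ((Equiv.optionCongr e).symm (some y)) = _
    rw [h1, h2, hatt.res, he, e.apply_symm_apply, e.apply_symm_apply]
    field_simp
  · have h1 : (Equiv.optionCongr e).symm (some (e j)) = some j := by
      show some (e.symm (e j)) = some j
      rw [e.symm_apply_apply]
    have h2 : (Equiv.optionCongr e).symm none = none := rfl
    show c⁻¹ * b ((Equiv.optionCongr e).symm none) ((Equiv.optionCongr e).symm (some (e j))) ≠ 0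
    rw [h1, h2]
    exact mul_ne_zero (inv_ne_zero hc') hatt.ne
  · intro x hx
    have h1 : (Equiv.optionCongr e).symm (some x) = some (e.symm x) := rfl
    have h2 : (Equiv.optionCongr e).symm none = none := rfl
    show c⁻¹ * b ((Equiv.optionCongr e).symm none) ((Equiv.optionCongr e).symm (some x)) = 0
    rw [h1, h2, hatt.eq, mul_zero]
    intro h
    apply hx
    rw [← h, e.apply_symm_apply]
  · intro x y
    show b x y = c * (c⁻¹ * b ((Equiv.optionCongr e).symm (Equiv.optionCongr e x))
      ((Equiv.optionCongr e).symm (Equiv.optionCongr e y)))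
    rw [Equiv.symm_apply_apply, Equiv.symm_apply_apply]
    field_simp

end Pool.Agent.Lib.MP_4c1f79_al
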