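import Pool.Agent.Lib.MP_4c1f79_al.StmCl

/-!
# MP_4c1f79_al : piece CDA (dimensions over a path window)
-/

set_option autoImplicit false

namespace Pool.Agent.Lib.MP_4c1f79_al

open Finset Module J4c

open Classical in
private theorem CDA_sA {N L : ℕ} (adj : Fin N → Fin N → Prop) (hs : ∀ v w, adj v w → adj w v)
    (D : Fin N × Fin L → ℕ) (v : Fin N) (l : Fin L) (l' : Fin L) (hl : (l : ℕ) = l' + 1) :
    sA (grid adj hs L) D (v, l) = ∑ w, if adj v w then D (w, l') else 0 := by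
  unfold sA
  rw [Fintype.sum_prod_type]
  refine Finset.sum_congr rfl fun w _ => ?_
  rw [Finset.sum_eq_single l']
  · by_cases h : adj v w
    · rw [if_pos h, if_pos]
      exact ⟨h, hl⟩
    · rw [if_neg h, if_neg]
      exact fun h' => h h'.1
  · intro b _ hb
    rw [if_neg]
    rintro ⟨-, h2⟩
    apply hb
    apply Fin.ext
    have h3 : (l : ℕ) = b + 1 := h2
    omega
  · intro h
    exact absurd (Finset.mem_univ _) h

open Classical in
private theorem CDA_sT {N L : ℕ} (adj : Fin N → Fin N → Prop) (hs : ∀ v w, adj v w → adj w v)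
    (D : Fin N × Fin L → ℕ) (v : Fin N) (l : Fin L) (l' : Fin L) (hl : (l : ℕ) = l' + 2) :
    sT (grid adj hs L) D (v, l) = D (v, l') := by
  unfold sT
  rw [Finset.sum_eq_single (v, l')]
  · rw [if_pos]
    exact ⟨rfl, hl⟩
  · intro b _ hb
    rw [if_neg]
    rintro ⟨h1, h2⟩
    apply hb
    have h3 : (l : ℕ) = b.2 + 2 := h2
    exact Prod.ext h1.symm (Fin.ext (by show (b.2 : ℕ) = l'; omega))
  · intro h
    exact absurd (Finset.mem_univ _) h

open Classical in
private theorem CDA_sT0 {N L : ℕ} (adj : Fin N → Fin N → Prop) (hs : ∀ v w, adj v w → adj w v)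
    (D : Fin N × Fin L → ℕ) (v : Fin N) (l : Fin L)
    (h0 : ∀ r : Fin N × Fin L, (l : ℕ) = r.2 + 2 → D r = 0) :
    sT (grid adj hs L) D (v, l) = 0 := by
  unfold sT
  refine Finset.sum_eq_zero fun r _ => ?_
  split_ifs with h
  · exact h0 r h.2
  · rfl

theorem CDA_holds (hCKA : S_CKA) (hTAB : S_TAB) : S_CDA := by
  classical
  intro N L adj hs lo hi hhi hpath K _ R u l₀ hu1 hu2 hgood hsc v l
  have hck := hCKA N adj lo hi hhi hpath u
  have hout : ∀ w k : ℕ, (w < lo ∨ hi < w) → tabA lo hi u w k = 0 := by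
    intro w k hw
    unfold tabA
    rw [if_neg]
    rintro ⟨h1, h2, -⟩
    omega
  obtain ⟨D, hD⟩ : ∃ D : Fin N × Fin L → ℕ, D = fun p =>
      if l₀.1 ≤ p.2.1 then tabA lo hi u p.1 (p.2.1 - l₀.1) else 0 := ⟨_, rfl⟩
  have hDv : ∀ p : Fin N × Fin L, D p =
      if l₀.1 ≤ p.2.1 then tabA lo hi u p.1 (p.2.1 - l₀.1) else 0 := fun p => by rw [hD]
  have key := hTAB (Fin N × Fin L) (grid adj hs L) K R (rowI N L lo (hi + 1)) (L - 1) (u, l₀)
    hgood hsc ⟨hu1, Nat.lt_succ_of_le hu2⟩ ?_ D ?_ ?_ ?_ ?_ (v, l) ?_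
  · rw [key, hDv]
  · -- no cuts
    rintro ⟨w, k⟩ hw hk
    have hk' : (k : ℕ) + 2 ≤ L - 1 := hk
    exact ⟨(w, ⟨k + 2, by omega⟩), hw, rfl, rfl⟩
  · rw [hDv, if_pos le_rfl, Nat.sub_self, (hck u hu1 hu2 hu1 hu2).1, if_pos rfl]
  · rintro ⟨w, k⟩ hp hk
    have hk' : (k : ℕ) ≤ l₀ := hk
    rw [hDv]
    split_ifs with h
    · have h' : (l₀ : ℕ) ≤ k := h
      have hkl : k = l₀ := Fin.ext (le_antisymm hk' h')
      have hw : w ≠ u := by
        rintro rfl
        exact hp (by rw [hkl])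
      show tabA lo hi u w ((k : ℕ) - l₀) = 0
      rw [hkl, Nat.sub_self]
      by_cases hwr : lo ≤ w.1 ∧ w.1 ≤ hi
      · rw [(hck w hu1 hu2 hwr.1 hwr.2).1, if_neg hw]
      · exact hout w 0 (by omega)
    · rfl
  · rintro ⟨w, k⟩ hp
    rw [hDv]
    split_ifs
    · refine hout w _ ?_
      by_contra hcon
      apply hp
      have h1 : lo ≤ w.1 ∧ w.1 < hi + 1 := by omega
      exact h1
    · rfl
  · rintro ⟨w, k⟩ hp hlt _
    have hw1 : lo ≤ w.1 := hp.1
    have hw2 : w.1 < hi + 1 := hp.2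
    have hlt' : (l₀ : ℕ) < k := hlt
    have hkL := k.2
    obtain ⟨j, hj⟩ : ∃ j : ℕ, (k : ℕ) = l₀ + 1 + j := ⟨k - (l₀ + 1), by omega⟩
    have hAr := CDA_sA adj hs D w k ⟨l₀ + j, by omega⟩ (by show (k : ℕ) = l₀ + j + 1; omega)
    have hDA : ∀ x : Fin N, D (x, ⟨l₀ + j, by omega⟩) = tabA lo hi u x j := by
      intro x
      rw [hDv, if_pos (by show (l₀ : ℕ) ≤ l₀ + j; omega)]
      show tabA lo hi u x ((l₀ : ℕ) + j - l₀) = _
      rw [Nat.add_sub_cancel_left]
    simp only [hDA] at hAr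
    have hDp : D (w, k) = tabA lo hi u w (j + 1) := by
      rw [hDv, if_pos (by show (l₀ : ℕ) ≤ k; omega)]
      show tabA lo hi u w ((k : ℕ) - l₀) = _
      congr 1
      omega
    rw [hAr, hDp]
    have hc := hck w hu1 hu2 hw1 (by omega)
    cases j with
    | zero =>
      left
      rw [CDA_sT0 adj hs D w k, add_zero, hc.2.1]
      intro r hr
      rw [hDv, if_neg (by omega)]
    | succ i =>
      have hT := CDA_sT adj hs D w k ⟨l₀ + i, by omega⟩ (by show (k : ℕ) = l₀ + i + 2; omega)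
      have hDT : D (w, ⟨l₀ + i, by omega⟩) = tabA lo hi u w i := by
        rw [hDv, if_pos (by show (l₀ : ℕ) ≤ l₀ + i; omega)]
        show tabA lo hi u w ((l₀ : ℕ) + i - l₀) = _
        rw [Nat.add_sub_cancel_left]
      rw [hT, hDT]
      rcases hc.2.2.2.1 i with h | ⟨h1, h2⟩
      · left
        exact h
      · right
        refine ⟨h1, ?_⟩
        rintro ⟨x, m⟩ hm
        have hm' : (m : ℕ) + 1 = k := hm
        rw [hDv]
        split_ifs
        · show tabA lo hi u x ((m : ℕ) - l₀) = 0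
          have : (m : ℕ) - l₀ = i + 1 := by omega
          rw [this]
          exact h2 x
        · rfl
  · show (l : ℕ) ≤ L - 1
    have := l.2
    omega

end Pool.Agent.Lib.MP_4c1f79_al
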