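import Pool.Agent.Lib.MP_4c1f79_al.StmCl

/-!
# MP_4c1f79_al : the dimensions over the full window of the graph of type `D` (piece CDD)
-/

set_option autoImplicit false

namespace Pool.Agent.Lib.MP_4c1f79_al

open Finset Module J4c

private theorem CDD_sA {n L : ℕ} (adj : Fin n → Fin n → Prop) [DecidableRel adj]
    (hs : ∀ v w, adj v w → adj w v) (D : Fin n × Fin L → ℕ) (v : Fin n) (l : ℕ)
    (h : l + 1 < L) : sA (grid adj hs L) D (v, ⟨l + 1, h⟩)
      = ∑ w, if adj v w then D (w, ⟨l, by omega⟩) else 0 := by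
  unfold sA
  rw [Fintype.sum_prod_type]
  refine Finset.sum_congr rfl fun w _ => ?_
  rw [Finset.sum_eq_single (⟨l, by omega⟩ : Fin L)]
  · have hiff : (grid adj hs L).Ar (v, ⟨l + 1, h⟩) (w, (⟨l, by omega⟩ : Fin L)) ↔ adj v w := by
      constructor
      · intro h2; exact h2.1
      · intro h2; exact ⟨h2, rfl⟩
    by_cases hw : adj v w
    · rw [if_pos (hiff.2 hw), if_pos hw]
    · rw [if_neg hw, if_neg fun h3 => hw (hiff.1 h3)]
  · intro m _ hne
    rw [if_neg]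
    rintro ⟨_, h4⟩
    apply hne
    have h4' : l + 1 = m + 1 := h4
    apply Fin.ext
    show (m : ℕ) = l
    omega
  · intro h3
    exact absurd (Finset.mem_univ _) h3

private theorem CDD_sT {n L : ℕ} (adj : Fin n → Fin n → Prop)
    (hs : ∀ v w, adj v w → adj w v) (D : Fin n × Fin L → ℕ) (v : Fin n) (l : ℕ)
    (h : l + 2 < L) : sT (grid adj hs L) D (v, ⟨l + 2, h⟩) = D (v, ⟨l, by omega⟩) := by
  unfold sT
  rw [Finset.sum_eq_single (v, (⟨l, by omega⟩ : Fin L))]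
  · rw [if_pos]
    exact ⟨rfl, rfl⟩
  · rintro ⟨w, m⟩ _ hne
    rw [if_neg]
    rintro ⟨h3, h4⟩
    apply hne
    have h3' : v = w := h3
    have h4' : l + 2 = m + 2 := h4
    refine Prod.ext h3'.symm (Fin.ext ?_)
    show (m : ℕ) = l
    omega
  · intro h3
    exact absurd (Finset.mem_univ _) h3

private theorem CDD_sT1 {n L : ℕ} (adj : Fin n → Fin n → Prop)
    (hs : ∀ v w, adj v w → adj w v) (D : Fin n × Fin L → ℕ) (v : Fin n) (l : Fin L)
    (h : (l : ℕ) < 2) : sT (grid adj hs L) D (v, l) = 0 := by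
  unfold sT
  refine Finset.sum_eq_zero fun r _ => ?_
  rw [if_neg]
  rintro ⟨_, h4⟩
  have h4' : (l : ℕ) = r.2 + 2 := h4
  omega

theorem CDD_holds (hCKD : S_CKD) (hTAB : S_TAB) : S_CDD := by
  intro N L hN K _ R u l₀ hG hsc v l
  have hlv : ∀ p : Fin N × Fin L, (grid (adjD N) (adjD_symm N) L).lv p = p.2 := fun p => rfl
  set D : Fin N × Fin L → ℕ :=
    fun p => if l₀.1 ≤ p.2.1 then tabD N u p.1 (p.2.1 - l₀.1) else 0 with hD
  have hDv : ∀ (w : Fin N) (m : Fin L) (k : ℕ), (m : ℕ) = l₀ + k → D (w, m) = tabD N u w k := by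
    intro w m k hm
    rw [hD]
    dsimp only
    rw [if_pos (by omega), hm, Nat.add_sub_cancel_left]
  have hD0 : ∀ (w : Fin N) (m : Fin L), (m : ℕ) < l₀ → D (w, m) = 0 := by
    intro w m hm
    rw [hD]
    dsimp only
    rw [if_neg (by omega)]
  have hmain := hTAB _ (grid (adjD N) (adjD_symm N) L) K R Set.univ (L - 1) (u, l₀) hG hsc
    (Set.mem_univ _) (by
      intro r _ hrk
      rw [hlv] at hrk
      exact ⟨(r.1, ⟨r.2 + 2, by omega⟩), Set.mem_univ _, rfl, rfl⟩) D ?_ ?_ ?_ ?_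
  · exact hmain (v, l) (by rw [hlv]; show (l : ℕ) ≤ L - 1; omega)
  · rw [hDv u l₀ 0 rfl, (hCKD N hN u u).1, if_pos rfl]
  · rintro ⟨w, m⟩ hp hpl
    rw [hlv, hlv] at hpl
    have hpl' : (m : ℕ) ≤ l₀ := hpl
    rcases Nat.lt_or_eq_of_le hpl' with h | h
    · exact hD0 w m h
    · rw [hDv w m 0 (by omega), (hCKD N hN u w).1, if_neg]
      intro h1
      exact hp (Prod.ext h1 (Fin.ext h))
  · intro p hp
    exact absurd (Set.mem_univ p) hp
  · rintro ⟨w, ⟨m, hm⟩⟩ _ hpl _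
    rw [hlv, hlv] at hpl
    have hpl' : (l₀ : ℕ) < m := hpl
    obtain ⟨k, rfl⟩ : ∃ k, m = l₀ + k + 1 := ⟨m - l₀ - 1, by omega⟩
    rcases Nat.eq_zero_or_pos k with hk | hk
    · subst hk
      left
      have h1 : sT (grid (adjD N) (adjD_symm N) L) D (w, ⟨l₀ + 0 + 1, hm⟩) = 0 := by
        rcases Nat.lt_or_ge (l₀ + 0 + 1) 2 with h2 | h2
        · exact CDD_sT1 _ _ _ _ _ h2
        · obtain ⟨t, ht⟩ : ∃ t, (l₀ : ℕ) = t + 1 := ⟨l₀ - 1, by omega⟩
          have h3 : (⟨l₀ + 0 + 1, hm⟩ : Fin L) = ⟨t + 2, by omega⟩ := Fin.ext (by simp [ht])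
          rw [h3, CDD_sT]
          exact hD0 _ _ (by show t < (l₀ : ℕ); omega)
      rw [h1, add_zero, CDD_sA, hDv w _ 1 (by show (l₀ : ℕ) + 0 + 1 = l₀ + 1; omega),
        (hCKD N hN u w).2.1]
      refine Finset.sum_congr rfl fun x _ => ?_
      rw [hDv x _ 0 rfl]
    · obtain ⟨j, rfl⟩ : ∃ j, k = j + 1 := ⟨k - 1, by omega⟩
      have hp : D (w, ⟨l₀ + (j + 1) + 1, hm⟩) = tabD N u w (j + 2) :=
        hDv w _ (j + 2) (by show (l₀ : ℕ) + (j + 1) + 1 = l₀ + (j + 2); omega)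
      rcases (hCKD N hN u w).2.2.2.1 j with h | ⟨h, h'⟩
      · left
        have h3 : (⟨l₀ + (j + 1) + 1, hm⟩ : Fin L) = ⟨l₀ + j + 2, by omega⟩ :=
          Fin.ext (by show (l₀ : ℕ) + (j + 1) + 1 = l₀ + j + 2; omega)
        have h1 : sT (grid (adjD N) (adjD_symm N) L) D (w, ⟨l₀ + (j + 1) + 1, hm⟩)
            = tabD N u w j := by
          rw [h3, CDD_sT]
          exact hDv w _ j rfl
        rw [h1, CDD_sA, hp, h]
        refine Finset.sum_congr rfl fun x _ => ?_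
        rw [hDv x _ (j + 1) rfl]
      · right
        refine ⟨hp.trans h, ?_⟩
        rintro ⟨x, n⟩ hn
        rw [hlv, hlv] at hn
        have hn' : (n : ℕ) + 1 = l₀ + (j + 1) + 1 := hn
        rw [hDv x n (j + 1) (by omega)]
        exact h' x

end Pool.Agent.Lib.MP_4c1f79_al
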