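import Pool.Agent.Lib.MP_4c1f79_al.StmCl

/-!
# MP_4c1f79_al : piece CKA (the recursion for the table of a path)
-/

set_option autoImplicit false

namespace Pool.Agent.Lib.MP_4c1f79_al

open Finset Module J4c

private theorem CKA_sum {N : ℕ} {adj : Fin N → Fin N → Prop} [DecidableRel adj] {lo hi : ℕ}
    (hhi : hi < N) (hp : PathOn adj lo (hi + 1)) (v : Fin N) (h1 : lo ≤ v.1) (h2 : v.1 ≤ hi)
    (g : ℕ → ℕ) (hg : ∀ w, g w ≠ 0 → lo ≤ w ∧ w ≤ hi) :
    (∑ w : Fin N, if adj v w then g w else 0)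
      = g (v.1 + 1) + (if v.1 = 0 then 0 else g (v.1 - 1)) := by
  have e1 : ∀ w : Fin N, (if adj v w then g w else 0)
      = (if v.1 + 1 = w.1 then g w else 0) + (if w.1 + 1 = v.1 then g w else 0) := by
    intro w
    by_cases h0 : g w = 0
    · rw [h0]
      simp
    · obtain ⟨h3, h4⟩ := hg _ h0
      have h5 := hp v w h1 (by omega) h3 (by omega)
      by_cases h6 : v.1 + 1 = w.1
      · rw [if_pos (h5.2 (Or.inl h6)), if_pos h6, if_neg (by omega), add_zero]
      · by_cases h7 : w.1 + 1 = v.1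
        · rw [if_pos (h5.2 (Or.inr h7)), if_neg h6, if_pos h7, zero_add]
        · rw [if_neg (fun h => (h5.1 h).elim h6 h7), if_neg h6, if_neg h7]
  rw [sum_congr rfl (fun w _ => e1 w), sum_add_distrib]
  congr 1
  · by_cases h6 : v.1 + 1 < N
    · rw [sum_eq_single (⟨v.1 + 1, h6⟩ : Fin N)]
      · simp
      · intro w _ hw
        exact if_neg (fun h => hw (Fin.ext h.symm))
      · intro h
        exact absurd (mem_univ _) h
    · have h7 : g (v.1 + 1) = 0 := by
        by_contra hc
        have := hg _ hc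
        omega
      rw [h7]
      refine sum_eq_zero (fun w _ => if_neg (fun h => ?_))
      have := w.2
      omega
  · by_cases h6 : v.1 = 0
    · rw [if_pos h6]
      exact sum_eq_zero (fun w _ => if_neg (by omega))
    · rw [if_neg h6, sum_eq_single (⟨v.1 - 1, by have := v.2; omega⟩ : Fin N)]
      · rw [if_pos (by simp only; omega)]
      · intro w _ hw
        exact if_neg (fun h => hw (Fin.ext (by simp only; omega)))
      · intro h
        exact absurd (mem_univ _) h

private theorem CKA_supp (lo hi u k w : ℕ) (h : tabA lo hi u w k ≠ 0) : lo ≤ w ∧ w ≤ hi := by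
  unfold tabA at h
  rw [ite_ne_right_iff] at h
  exact ⟨h.1.1, h.1.2.1⟩

private theorem CKA_zero (lo hi u w k : ℕ) (h : hi < k + lo) : tabA lo hi u w k = 0 := by
  unfold tabA
  rw [if_neg]
  omega

private theorem CKA_rec (lo hi u v k : ℕ) (h1 : lo ≤ u) (h2 : u ≤ hi) (h3 : lo ≤ v) (h4 : v ≤ hi)
    (hk : k + 2 ≤ hi + 1 - lo) :
    tabA lo hi u v (k + 2) + tabA lo hi u v k
      = tabA lo hi u (v + 1) (k + 1) + (if v = 0 then 0 else tabA lo hi u (v - 1) (k + 1)) := by
  unfold tabA
  by_cases hpar : (k + u + v) % 2 = 0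
  · by_cases h0 : v = 0
    · subst h0
      split_ifs <;> omega
    · rw [if_neg h0]
      split_ifs <;> omega
  · rw [if_neg (by omega), if_neg (by omega), if_neg (by omega)]
    by_cases h0 : v = 0
    · rw [if_pos h0]
    · rw [if_neg h0, if_neg (by omega)]

theorem CKA_holds : S_CKA := by
  intro N adj _ lo hi hhi hp u v h1 h2 h3 h4
  have hs : ∀ k, (∑ w : Fin N, if adj v w then tabA lo hi u w k else 0)
      = tabA lo hi u (v.1 + 1) k + (if v.1 = 0 then 0 else tabA lo hi u (v.1 - 1) k) :=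
    fun k => CKA_sum hhi hp v h3 h4 (fun w => tabA lo hi u w k) (fun w hw => CKA_supp _ _ _ _ _ hw)
  have hrec : ∀ k, k + 2 ≤ hi + 1 - lo → tabA lo hi u v (k + 2) + tabA lo hi u v k
      = ∑ w : Fin N, if adj v w then tabA lo hi u w (k + 1) else 0 := by
    intro k hk
    rw [hs]
    exact CKA_rec lo hi u v k h1 h2 h3 h4 hk
  refine ⟨?_, ?_, hrec, ?_, ?_, ?_⟩
  · unfold tabA
    by_cases h : v = u
    · rw [if_pos h, if_pos]
      subst h
      omega
    · have h' : v.1 ≠ u.1 := fun h' => h (Fin.ext h')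
      rw [if_neg h, if_neg]
      omega
  · rw [hs]
    unfold tabA
    by_cases h0 : v.1 = 0
    · rw [if_pos h0]
      split_ifs <;> omega
    · rw [if_neg h0]
      split_ifs <;> omega
  · intro k
    by_cases hk : k + 2 ≤ hi + 1 - lo
    · exact Or.inl (hrec k hk)
    · exact Or.inr ⟨CKA_zero _ _ _ _ _ (by omega), fun w => CKA_zero _ _ _ _ _ (by omega)⟩
  · unfold tabA
    by_cases h : v.1 + u.1 = lo + hi
    · rw [if_pos h, if_pos]
      omega
    · rw [if_neg h, if_neg]
      omega
  · intro k hk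
    exact CKA_zero _ _ _ _ _ (by omega)

end Pool.Agent.Lib.MP_4c1f79_al
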