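import Pool.Agent.Lib.MP_4c1f79_al.StmCl

set_option autoImplicit false

namespace Pool.Agent.Lib.MP_4c1f79_al

open Finset Module J4c

private theorem CKD_pA (M u v k : ℕ) (hu : u ≤ M) (hv : v ≤ M) (hk : k + 1 ≤ M) :
    tabA 0 M u v (k + 2) + tabA 0 M u v k
      = (if 1 ≤ v then tabA 0 M u (v - 1) (k + 1) else 0) + tabA 0 M u (v + 1) (k + 1) := by
  unfold tabA
  split_ifs <;> omega

private theorem CKD_pB (M u v : ℕ) (hu : u ≤ M) (hv : v ≤ M) (hk : 1 ≤ M) :
    tabA 0 M u v 1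
      = (if 1 ≤ v then tabA 0 M u (v - 1) 0 else 0) + tabA 0 M u (v + 1) 0 := by
  unfold tabA
  split_ifs <;> omega

private theorem CKD_out (M u v k : ℕ) (hv : M < v ∨ M < k) : tabA 0 M u v k = 0 := by
  unfold tabA
  split_ifs <;> omega

private theorem CKD_z (M u v : ℕ) (hu : u ≤ M) : tabA 0 M u v 0 = if v = u then 1 else 0 := by
  unfold tabA
  split_ifs <;> omega

private theorem CKD_top (M u v : ℕ) (hu : u ≤ M) (hv : v ≤ M) :
    tabA 0 M u v M = if v + u = M then 1 else 0 := by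
  unfold tabA
  split_ifs <;> omega

private theorem CKD_s1 (N : ℕ) (f : ℕ → ℕ) (c : ℕ) (P : Prop) [Decidable P] (h : P → c < N) :
    (∑ w : Fin N, if w.1 = c ∧ P then f w.1 else 0) = if P then f c else 0 := by
  by_cases hP : P
  · simp only [hP, and_true, if_true]
    rw [Finset.sum_eq_single (⟨c, h hP⟩ : Fin N)]
    · simp
    · intro b _ hb
      rw [if_neg]
      intro hh
      exact hb (Fin.ext hh)
    · intro hh
      exact absurd (Finset.mem_univ _) hh
  · simp [hP]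

private theorem CKD_sum (N : ℕ) (hN : 3 ≤ N) (f : ℕ → ℕ) (v : Fin N) :
    (∑ w : Fin N, if adjD N v w then f w.1 else 0)
      = (if v.1 + 2 < N then f (v.1 + 1) else 0) + (if 1 ≤ v.1 ∧ v.1 + 1 < N then f (v.1 - 1) else 0)
        + (if v.1 + 3 = N then f (v.1 + 2) else 0) + (if v.1 + 1 = N then f (v.1 - 2) else 0) := by
  have hv := v.2
  rw [← CKD_s1 N f (v.1 + 1) (v.1 + 2 < N) (by omega),
    ← CKD_s1 N f (v.1 - 1) (1 ≤ v.1 ∧ v.1 + 1 < N) (by omega),
    ← CKD_s1 N f (v.1 + 2) (v.1 + 3 = N) (by omega),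
    ← CKD_s1 N f (v.1 - 2) (v.1 + 1 = N) (by omega),
    ← Finset.sum_add_distrib, ← Finset.sum_add_distrib, ← Finset.sum_add_distrib]
  refine Finset.sum_congr rfl fun w _ => ?_
  unfold adjD
  by_cases h1 : v.1 + 1 = w.1 ∧ w.1 + 1 < N
  · have e1 : w.1 = v.1 + 1 ∧ v.1 + 2 < N := by omega
    have e2 : ¬ (w.1 = v.1 - 1 ∧ 1 ≤ v.1 ∧ v.1 + 1 < N) := by omega
    have e3 : ¬ (w.1 = v.1 + 2 ∧ v.1 + 3 = N) := by omega
    have e4 : ¬ (w.1 = v.1 - 2 ∧ v.1 + 1 = N) := by omega
    rw [if_pos (Or.inl h1), if_pos e1, if_neg e2, if_neg e3, if_neg e4]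
    omega
  by_cases h2 : w.1 + 1 = v.1 ∧ v.1 + 1 < N
  · have e1 : ¬ (w.1 = v.1 + 1 ∧ v.1 + 2 < N) := by omega
    have e2 : (w.1 = v.1 - 1 ∧ 1 ≤ v.1 ∧ v.1 + 1 < N) := by omega
    have e3 : ¬ (w.1 = v.1 + 2 ∧ v.1 + 3 = N) := by omega
    have e4 : ¬ (w.1 = v.1 - 2 ∧ v.1 + 1 = N) := by omega
    rw [if_pos (Or.inr (Or.inl h2)), if_neg e1, if_pos e2, if_neg e3, if_neg e4]
    omega
  by_cases h3 : v.1 + 2 = w.1 ∧ w.1 + 1 = N
  · have e1 : ¬ (w.1 = v.1 + 1 ∧ v.1 + 2 < N) := by omega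
    have e2 : ¬ (w.1 = v.1 - 1 ∧ 1 ≤ v.1 ∧ v.1 + 1 < N) := by omega
    have e3 : (w.1 = v.1 + 2 ∧ v.1 + 3 = N) := by omega
    have e4 : ¬ (w.1 = v.1 - 2 ∧ v.1 + 1 = N) := by omega
    rw [if_pos (Or.inr (Or.inr (Or.inl h3))), if_neg e1, if_neg e2, if_pos e3, if_neg e4]
    omega
  by_cases h4 : w.1 + 2 = v.1 ∧ v.1 + 1 = N
  · have e1 : ¬ (w.1 = v.1 + 1 ∧ v.1 + 2 < N) := by omega
    have e2 : ¬ (w.1 = v.1 - 1 ∧ 1 ≤ v.1 ∧ v.1 + 1 < N) := by omega
    have e3 : ¬ (w.1 = v.1 + 2 ∧ v.1 + 3 = N) := by omega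
    have e4 : (w.1 = v.1 - 2 ∧ v.1 + 1 = N) := by omega
    rw [if_pos (Or.inr (Or.inr (Or.inr h4))), if_neg e1, if_neg e2, if_neg e3, if_pos e4]
    omega
  have e1 : ¬ (w.1 = v.1 + 1 ∧ v.1 + 2 < N) := by omega
  have e2 : ¬ (w.1 = v.1 - 1 ∧ 1 ≤ v.1 ∧ v.1 + 1 < N) := by omega
  have e3 : ¬ (w.1 = v.1 + 2 ∧ v.1 + 3 = N) := by omega
  have e4 : ¬ (w.1 = v.1 - 2 ∧ v.1 + 1 = N) := by omega
  rw [if_neg e1, if_neg e2, if_neg e3, if_neg e4, if_neg]
  rintro (h | h | h | h)
  · exact h1 h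
  · exact h2 h
  · exact h3 h
  · exact h4 h

private theorem CKD_6 (N : ℕ) (u v k : ℕ)
    (hk : 2 * N - 4 < k) : tabD N u v k = 0 := by
  unfold tabD
  split_ifs with h1 h2 h3 h4
  · rw [CKD_out _ _ _ _ (Or.inr hk), CKD_out _ _ _ _ (Or.inr hk)]
  · exact CKD_out _ _ _ _ (Or.inr hk)
  · exact CKD_out _ _ _ _ (Or.inr hk)
  · omega
  · rfl

private theorem CKD_1 (N : ℕ) (hN : 3 ≤ N) (u v : ℕ) (hu : u < N) (hv : v < N) :
    tabD N u v 0 = if v = u then 1 else 0 := by
  unfold tabD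
  by_cases h1 : u + 2 < N
  · by_cases h2 : v + 2 < N
    · rw [if_pos h1, if_pos h2, CKD_z _ _ _ (by omega), CKD_z _ _ _ (by omega)]
      split_ifs <;> omega
    · rw [if_pos h1, if_neg h2, CKD_z _ _ _ (by omega)]
      split_ifs <;> omega
  · by_cases h2 : v + 2 < N
    · rw [if_neg h1, if_pos h2, CKD_z _ _ _ (by omega)]
      split_ifs <;> omega
    · rw [if_neg h1, if_neg h2]
      by_cases h3 : v = u
      · rw [if_pos ⟨by omega, Or.inl ⟨h3.symm, rfl⟩⟩, if_pos h3]
      · rw [if_neg (by rintro ⟨-, h | h⟩ <;> omega), if_neg h3]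

private theorem CKD_5 (N : ℕ) (hN : 3 ≤ N) (u v : ℕ) (hu : u < N) (hv : v < N) :
    tabD N u v (2 * N - 4) = if v = (if u + 2 < N ∨ N % 2 = 0 then u else 2 * N - 3 - u)
    then 1 else 0 := by
  unfold tabD
  by_cases h1 : u + 2 < N
  · by_cases h2 : v + 2 < N
    · rw [if_pos h1, if_pos h2, CKD_top _ _ _ (by omega) (by omega),
        CKD_top _ _ _ (by omega) (by omega)]
      split_ifs <;> omega
    · rw [if_pos h1, if_neg h2, CKD_top _ _ _ (by omega) (by omega)]
      split_ifs <;> omega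
  · by_cases h2 : v + 2 < N
    · rw [if_neg h1, if_pos h2, CKD_top _ _ _ (by omega) (by omega)]
      split_ifs <;> omega
    · rw [if_neg h1, if_neg h2]
      split_ifs <;> omega

/-- The two ends of the fork together. -/
private theorem CKD_fork (N : ℕ) (hN : 3 ≤ N) (u k : ℕ) (hu : u < N) (hu2 : ¬ u + 2 < N) :
    tabD N u (N - 2) k + tabD N u (N - 1) k = tabA 0 (2 * N - 4) (N - 2) (N - 2) k := by
  unfold tabD tabA
  have h1 : ¬ (N - 2 + 2 < N) := by omega
  have h2 : ¬ (N - 1 + 2 < N) := by omega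
  rw [if_neg hu2, if_neg h1, if_neg hu2, if_neg h2]
  split_ifs <;> omega

private theorem CKD_3 (N : ℕ) (hN : 3 ≤ N) (u : ℕ) (hu : u < N) (v : Fin N) (k : ℕ)
    (hk : k + 2 < 2 * N - 2) :
    tabD N u v (k + 2) + tabD N u v k
      = ∑ w : Fin N, if adjD N v w then tabD N u w (k + 1) else 0 := by
  rw [CKD_sum N hN (fun w => tabD N u w (k + 1)) v]
  obtain ⟨v, hv⟩ := v
  simp only
  by_cases h1 : u + 2 < N
  · by_cases h2 : v + 2 < N
    · have a1 := CKD_pA (2 * N - 4) u v k (by omega) (by omega) (by omega)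
      have a2 := CKD_pA (2 * N - 4) u (2 * N - 4 - v) k (by omega) (by omega) (by omega)
      have b0 : ∀ k, tabD N u v k = tabA 0 (2 * N - 4) u v k
          + tabA 0 (2 * N - 4) u (2 * N - 4 - v) k := by
        intro k; unfold tabD; rw [if_pos h1, if_pos h2]
      rw [b0, b0, if_pos h2, if_neg (show ¬ (v + 1 = N) by omega)]
      rw [if_pos (show 1 ≤ 2 * N - 4 - v by omega)] at a2
      by_cases h3 : v + 3 < N
      · have b1 : tabD N u (v + 1) (k + 1) = tabA 0 (2 * N - 4) u (v + 1) (k + 1)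
            + tabA 0 (2 * N - 4) u (2 * N - 4 - v - 1) (k + 1) := by
          unfold tabD
          rw [if_pos h1, if_pos (show v + 1 + 2 < N by omega),
            show 2 * N - 4 - (v + 1) = 2 * N - 4 - v - 1 by omega]
        rw [b1, if_neg (show ¬ (v + 3 = N) by omega)]
        by_cases h4 : 1 ≤ v
        · have b2 : tabD N u (v - 1) (k + 1) = tabA 0 (2 * N - 4) u (v - 1) (k + 1)
              + tabA 0 (2 * N - 4) u (2 * N - 4 - v + 1) (k + 1) := by
            unfold tabD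
            rw [if_pos h1, if_pos (show v - 1 + 2 < N by omega),
              show 2 * N - 4 - (v - 1) = 2 * N - 4 - v + 1 by omega]
          rw [b2, if_pos (show 1 ≤ v ∧ v + 1 < N by omega)]
          rw [if_pos h4] at a1
          omega
        · rw [if_neg (show ¬ (1 ≤ v ∧ v + 1 < N) by omega)]
          rw [if_neg h4] at a1
          have a3 := CKD_out (2 * N - 4) u (2 * N - 4 - v + 1) (k + 1) (Or.inl (by omega))
          omega
      · have h5 : v + 1 = N - 2 := by omega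
        have b1 : tabD N u (v + 1) (k + 1) = tabA 0 (2 * N - 4) u (v + 1) (k + 1) := by
          unfold tabD; rw [if_pos h1, if_neg (show ¬ v + 1 + 2 < N by omega), h5]
        have b3 : tabD N u (v + 2) (k + 1) = tabA 0 (2 * N - 4) u (2 * N - 4 - v - 1) (k + 1) := by
          unfold tabD
          rw [if_pos h1, if_neg (show ¬ v + 2 + 2 < N by omega),
            show 2 * N - 4 - v - 1 = N - 2 by omega]
        rw [b1, if_pos (show (v + 3 = N) by omega), b3]
        by_cases h4 : 1 ≤ v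
        · have b2 : tabD N u (v - 1) (k + 1) = tabA 0 (2 * N - 4) u (v - 1) (k + 1)
              + tabA 0 (2 * N - 4) u (2 * N - 4 - v + 1) (k + 1) := by
            unfold tabD
            rw [if_pos h1, if_pos (show v - 1 + 2 < N by omega),
              show 2 * N - 4 - (v - 1) = 2 * N - 4 - v + 1 by omega]
          rw [b2, if_pos (show 1 ≤ v ∧ v + 1 < N by omega)]
          rw [if_pos h4] at a1
          omega
        · rw [if_neg (show ¬ (1 ≤ v ∧ v + 1 < N) by omega)]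
          rw [if_neg h4] at a1
          have a3 := CKD_out (2 * N - 4) u (2 * N - 4 - v + 1) (k + 1) (Or.inl (by omega))
          omega
    · have a1 := CKD_pA (2 * N - 4) u (N - 2) k (by omega) (by omega) (by omega)
      have b0 : ∀ k, tabD N u v k = tabA 0 (2 * N - 4) u (N - 2) k := by
        intro k; unfold tabD; rw [if_pos h1, if_neg h2]
      have b1 : tabD N u (N - 3) (k + 1) = tabA 0 (2 * N - 4) u (N - 2 - 1) (k + 1)
          + tabA 0 (2 * N - 4) u (N - 2 + 1) (k + 1) := by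
        unfold tabD
        rw [if_pos h1, if_pos (show N - 3 + 2 < N by omega),
          show 2 * N - 4 - (N - 3) = N - 2 + 1 by omega, show N - 2 - 1 = N - 3 by omega]
      rw [if_pos (show 1 ≤ N - 2 by omega)] at a1
      rw [b0, b0, if_neg h2, if_neg (show ¬ (v + 3 = N) by omega)]
      by_cases h3 : v + 1 < N
      · rw [if_pos (show 1 ≤ v ∧ v + 1 < N by omega), if_neg (show ¬ (v + 1 = N) by omega),
          show v - 1 = N - 3 by omega, b1]
        omega
      · rw [if_neg (show ¬ (1 ≤ v ∧ v + 1 < N) by omega), if_pos (show (v + 1 = N) by omega),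
          show v - 2 = N - 3 by omega, b1]
        omega
  · have c0 : ∀ w k, w + 2 < N → tabD N u w k = tabA 0 (2 * N - 4) (N - 2) w k := by
      intro w k hw; unfold tabD; rw [if_neg h1, if_pos hw]
    by_cases h2 : v + 2 < N
    · have a1 := CKD_pA (2 * N - 4) (N - 2) v k (by omega) (by omega) (by omega)
      rw [c0 v _ h2, c0 v _ h2, if_pos h2, if_neg (show ¬ (v + 1 = N) by omega)]
      by_cases h3 : v + 3 < N
      · rw [c0 (v + 1) _ (by omega), if_neg (show ¬ (v + 3 = N) by omega)]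
        by_cases h4 : 1 ≤ v
        · rw [c0 (v - 1) _ (by omega), if_pos (show 1 ≤ v ∧ v + 1 < N by omega)]
          rw [if_pos h4] at a1
          omega
        · rw [if_neg (show ¬ (1 ≤ v ∧ v + 1 < N) by omega)]
          rw [if_neg h4] at a1
          omega
      · have f1 := CKD_fork N hN u (k + 1) hu h1
        rw [if_pos (show (v + 3 = N) by omega), show v + 1 = N - 2 by omega,
          show v + 2 = N - 1 by omega]
        rw [show v + 1 = N - 2 by omega] at a1
        by_cases h4 : 1 ≤ v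
        · rw [c0 (v - 1) _ (by omega), if_pos (show 1 ≤ v ∧ N - 2 < N by omega)]
          rw [if_pos h4] at a1
          omega
        · rw [if_neg (show ¬ (1 ≤ v ∧ N - 2 < N) by omega)]
          rw [if_neg h4] at a1
          omega
    · have b0 : ∀ k, tabD N u v k = if (k ≤ 2 * N - 4 ∧ ((u = v ∧ k % 4 = 0) ∨
          (u ≠ v ∧ k % 4 = 2))) then 1 else 0 := by
        intro k; unfold tabD; rw [if_neg h1, if_neg h2]
      have c1 : tabD N u (N - 3) (k + 1) = if k % 2 = 0 then 1 else 0 := by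
        rw [c0 _ _ (by omega)]
        unfold tabA
        split_ifs <;> omega
      rw [b0, b0, if_neg h2, if_neg (show ¬ (v + 3 = N) by omega)]
      by_cases h3 : v + 1 < N
      · rw [if_pos (show 1 ≤ v ∧ v + 1 < N by omega), if_neg (show ¬ (v + 1 = N) by omega),
          show v - 1 = N - 3 by omega, c1]
        split_ifs <;> omega
      · rw [if_neg (show ¬ (1 ≤ v ∧ v + 1 < N) by omega), if_pos (show (v + 1 = N) by omega),
          show v - 2 = N - 3 by omega, c1]
        split_ifs <;> omega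

private theorem CKD_2 (N : ℕ) (hN : 3 ≤ N) (u : ℕ) (hu : u < N) (v : Fin N) :
    tabD N u v 1 = ∑ w : Fin N, if adjD N v w then tabD N u w 0 else 0 := by
  rw [CKD_sum N hN (fun w => tabD N u w 0) v]
  obtain ⟨v, hv⟩ := v
  simp only
  have hz : ∀ w < N, tabD N u w 0 = if w = u then 1 else 0 := fun w hw =>
    CKD_1 N hN u w hu hw
  have e1 : (if v + 2 < N then tabD N u (v + 1) 0 else 0) = if v + 2 < N ∧ v + 1 = u then 1
      else 0 := by
    split_ifs with h1 h2 h2
    · rw [hz _ (by omega), if_pos h2.2]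
    · rw [hz _ (by omega), if_neg (by omega)]
    · omega
    · rfl
  have e2 : (if 1 ≤ v ∧ v + 1 < N then tabD N u (v - 1) 0 else 0)
      = if 1 ≤ v ∧ v + 1 < N ∧ v - 1 = u then 1 else 0 := by
    split_ifs with h1 h2 h2
    · rw [hz _ (by omega), if_pos h2.2.2]
    · rw [hz _ (by omega), if_neg (by omega)]
    · omega
    · rfl
  have e3 : (if v + 3 = N then tabD N u (v + 2) 0 else 0) = if v + 3 = N ∧ v + 2 = u then 1
      else 0 := by
    split_ifs with h1 h2 h2
    · rw [hz _ (by omega), if_pos h2.2]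
    · rw [hz _ (by omega), if_neg (by omega)]
    · omega
    · rfl
  have e4 : (if v + 1 = N then tabD N u (v - 2) 0 else 0) = if v + 1 = N ∧ v - 2 = u then 1
      else 0 := by
    split_ifs with h1 h2 h2
    · rw [hz _ (by omega), if_pos h2.2]
    · rw [hz _ (by omega), if_neg (by omega)]
    · omega
    · rfl
  rw [e1, e2, e3, e4]
  have t1 : ∀ a b, a ≤ 2 * N - 4 → b ≤ 2 * N - 4 → tabA 0 (2 * N - 4) a b 1
      = if a + 1 = b ∨ b + 1 = a then 1 else 0 := by
    intro a b ha hb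
    unfold tabA
    split_ifs <;> omega
  unfold tabD
  by_cases h1 : u + 2 < N
  · by_cases h2 : v + 2 < N
    · rw [if_pos h1, if_pos h2, t1 _ _ (by omega) (by omega), t1 _ _ (by omega) (by omega)]
      split_ifs <;> omega
    · rw [if_pos h1, if_neg h2, t1 _ _ (by omega) (by omega)]
      split_ifs <;> omega
  · by_cases h2 : v + 2 < N
    · rw [if_neg h1, if_pos h2, t1 _ _ (by omega) (by omega)]
      split_ifs <;> omega
    · have h3 : ¬ (1 ≤ 2 * N - 4 ∧ (u = v ∧ 1 % 4 = 0 ∨ u ≠ v ∧ 1 % 4 = 2)) := by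
        rintro ⟨-, h | h⟩ <;> omega
      rw [if_neg h1, if_neg h2, if_neg h3]
      split_ifs <;> omega

theorem CKD_holds : S_CKD := by
  intro N hN u v
  refine ⟨?_, CKD_2 N hN u u.2 v, fun k hk => CKD_3 N hN u u.2 v k hk, ?_, ?_, ?_⟩
  · rw [CKD_1 N hN u v u.2 v.2]
    simp only [Fin.ext_iff]
  · intro k
    by_cases hk : k + 2 < 2 * N - 2
    · exact Or.inl (CKD_3 N hN u u.2 v k hk)
    · right
      exact ⟨CKD_6 N u v _ (by omega), fun w => CKD_6 N u w _ (by omega)⟩
  · exact CKD_5 N hN u v u.2 v.2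
  · intro k hk
    exact CKD_6 N u v k hk

end Pool.Agent.Lib.MP_4c1f79_al
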