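import Pool.Agent.Lib.MP_4c1f79_al.StmCl

/-!
# MP_4c1f79_al, piece CLA: positivity over a path window
-/

set_option autoImplicit false

namespace Pool.Agent.Lib.MP_4c1f79_al

open Finset Module J4c

private theorem CLA_iter {N L : ℕ} (σ : Equiv.Perm (Fin N)) (p : Fin N × Fin L) (i : ℕ) :
    (⇑(gperm σ L))^[i] p = ((⇑σ)^[i] p.1, p.2) := by
  induction i with
  | zero => rfl
  | succ i ih =>
    rw [Function.iterate_succ_apply', Function.iterate_succ_apply', ih]
    rfl

theorem CLA_holds (hCDA : S_CDA) (hCSO : S_CSO) (hTH1 : S_TH1) (hPE0 : S_PE0) : S_CLA := by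
  classical
  intro N L adj hs σ r hσ hr lo n
  induction n with
  | zero =>
    intro _ _ _
    have h0 : rowI N L lo (lo + 0) = ∅ := by
      ext p
      simp only [rowI, Set.mem_setOf_eq, Set.mem_empty_iff_false, iff_false]
      omega
    rw [h0]
    exact hPE0 _ _ _ r
  | succ n ih =>
    intro hn hpath hid
    have hfix : ∀ v : Fin N, lo ≤ v.1 → v.1 < lo + (n + 1) → ∀ w : Fin N, σ w = v → w = v := by
      intro v h1 h2 w hw
      apply σ.injective
      rw [hw, hid v h1 h2]
    have hadm : Adm (grid adj hs L) (gperm σ L) r (rowI N L lo (lo + (n + 1))) := by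
      refine ⟨grid_sym _ _ _ _ hσ, fun p => ?_, fun p => ?_⟩
      · rw [CLA_iter, hr]
      · show (lo ≤ (σ p.1).1 ∧ (σ p.1).1 < lo + (n + 1)) ↔ (lo ≤ p.1.1 ∧ p.1.1 < lo + (n + 1))
        constructor
        · rintro ⟨h1, h2⟩
          have h3 := hfix _ h1 h2 p.1 rfl
          rw [← h3] at h1 h2
          exact ⟨h1, h2⟩
        · rintro ⟨h1, h2⟩
          rw [hid _ h1 h2]
          exact ⟨h1, h2⟩
    refine hTH1 _ _ _ r (rowI N L lo (lo + (n + 1))) {p | p.1.1 = lo + n} hadm ?_ ?_ ?_ ?_ ?_
    · intro p
      show (σ p.1).1 = lo + n ↔ p.1.1 = lo + n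
      constructor
      · intro h1
        have h3 := hfix (σ p.1) (by omega) (by omega) p.1 rfl
        rw [← h3] at h1
        exact h1
      · intro h1
        rw [hid _ (by omega) (by omega)]
        exact h1
    · intro p hp
      have hp' : p.1.1 = lo + n := hp
      exact ⟨by omega, by omega⟩
    · intro p _ hp x hx h
      apply hp
      show p.1.1 = lo + n
      have h1 : p.1 = x.1 := h.1
      rw [h1]
      exact hx
    · intro E hE hEU K _ D hr' X hX p hp
      rw [hCSO _ _ _ K D (rowI N L lo (lo + (n + 1))) E hEU X hX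
        (fun u p => if u.2.1 ≤ p.2.1 then tabA lo (lo + n) u.1 p.1 (p.2.1 - u.2.1) else 0) ?_ p]
      · obtain ⟨p0, rfl⟩ := hE
        have hp0 : p0 ∈ rowI N L lo (lo + (n + 1)) := hEU ⟨0, rfl⟩
        have hmem : ∀ x, x ∈ {x | ∃ i : ℕ, x = (⇑(gperm σ L))^[i] p0} → x = p0 := by
          rintro x ⟨i, rfl⟩
          rw [CLA_iter]
          have h1 : (⇑σ)^[i] p0.1 = p0.1 := Function.iterate_fixed (hid _ hp0.1 hp0.2) i
          rw [h1]
        rw [Finset.sum_eq_single p0]
        · have h2 : ind {x | ∃ i : ℕ, x = (⇑(gperm σ L))^[i] p0} p0 = 1 := by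
            rw [ind, Set.indicator_of_mem]
            · rfl
            · exact ⟨0, rfl⟩
          rw [h2, one_mul]
          split_ifs
          · unfold tabA
            split_ifs <;> omega
          · omega
        · intro b _ hb
          have h2 : ind {x | ∃ i : ℕ, x = (⇑(gperm σ L))^[i] p0} b = 0 := by
            rw [ind, Set.indicator_of_notMem]
            intro h
            exact hb (hmem b h)
          rw [h2, zero_mul]
        · intro h
          exact absurd (Finset.mem_univ _) h
      · rintro ⟨u, l⟩ hu R hR1 hR2 ⟨v, k⟩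
        have hu' := hEU hu
        exact hCDA N L adj hs lo (lo + n) (by omega) hpath K R u l hu'.1
          (by have := hu'.2; simp only at this; omega) hR1 hR2 v k
    · have h2 : (rowI N L lo (lo + (n + 1)) \ {p : Fin N × Fin L | p.1.1 = lo + n})
          = rowI N L lo (lo + n) := by
        ext p
        simp only [rowI, Set.mem_diff, Set.mem_setOf_eq]
        omega
      rw [h2]
      apply ih (by omega)
      · intro v w h1 h2 h3 h4
        exact hpath v w h1 (by omega) h3 (by omega)
      · intro v h1 h2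
        exact hid v h1 (by omega)

end Pool.Agent.Lib.MP_4c1f79_al
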