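import Pool.Agent.Lib.MP_4c1f79_al.StmCl

/-!
# MP_4c1f79_al : piece CLB (helper27), positivity in type `B`
-/

set_option autoImplicit false

namespace Pool.Agent.Lib.MP_4c1f79_al

open Finset Module J4c

/-- the table -/
private def CLB_T (N L lo hi : ℕ) (u p : Fin N × Fin L) : ℕ :=
  if u.2.1 ≤ p.2.1 then tabA lo hi u.1 p.1 (p.2.1 - u.2.1) else 0

private theorem CLB_tab_le (lo hi u v k : ℕ) : tabA lo hi u v k ≤ 1 := by
  unfold tabA
  split_ifs <;> omega

private theorem CLB_T_le (N L lo hi : ℕ) (u p : Fin N × Fin L) : CLB_T N L lo hi u p ≤ 1 := by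
  unfold CLB_T
  split_ifs
  · exact CLB_tab_le _ _ _ _ _
  · omega

private theorem CLB_tab_uniq {lo hi u u' v k : ℕ} (hv : v = lo ∨ v = hi)
    (h : tabA lo hi u v k ≠ 0) (h' : tabA lo hi u' v k ≠ 0) : u = u' := by
  unfold tabA at h h'
  split_ifs at h h' with h1 h2 <;> omega

private theorem CLB_T_uniq {N L lo hi : ℕ} {u u' p : Fin N × Fin L}
    (hp : p.1.1 = lo ∨ p.1.1 = hi) (hl : u.2 = u'.2)
    (h : CLB_T N L lo hi u p ≠ 0) (h' : CLB_T N L lo hi u' p ≠ 0) : u = u' := by
  unfold CLB_T at h h'
  split_ifs at h h' with h1 h2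
  · rw [← hl] at h'
    exact Prod.ext (Fin.ext (CLB_tab_uniq hp h h')) hl
  all_goals omega

private theorem CLB_lvl {N L : ℕ} (n : ℕ) (p : Fin N × Fin L) :
    ((⇑(gperm (Fin.revPerm : Equiv.Perm (Fin N)) L))^[n] p).2 = p.2 := by
  induction n with
  | zero => rfl
  | succ n ih =>
    rw [Function.iterate_succ_apply']
    exact ih

private theorem CLB_adm (N L i : ℕ) :
    Adm (grid (adjA N) (adjA_symm N) L) (gperm Fin.revPerm L) 2 (rowI N L i (N - i)) where
  sym := grid_sym _ _ _ _ fun v w => by
    have h1 : (Fin.revPerm v : Fin N).val = N - 1 - v.val := by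
      rw [Fin.revPerm_apply, Fin.val_rev]
      omega
    have h2 : (Fin.revPerm w : Fin N).val = N - 1 - w.val := by
      rw [Fin.revPerm_apply, Fin.val_rev]
      omega
    unfold adjA
    rw [h1, h2]
    have := v.2
    have := w.2
    omega
  per p := by
    show (gperm Fin.revPerm L) ((gperm Fin.revPerm L) p) = p
    exact Prod.ext (Fin.rev_rev p.1) rfl
  stab p := by
    show (i ≤ (Fin.rev p.1).val ∧ (Fin.rev p.1).val < N - i) ↔ (i ≤ p.1.1 ∧ p.1.1 < N - i)
    rw [Fin.val_rev]
    have := p.1.2
    omega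

/-- PIECE CLB -/
theorem CLB_holds (hCDA : S_CDA) (hCSO : S_CSO) (hTH1 : S_TH1) (hPE0 : S_PE0) : S_CLB := by
  intro N L
  have key : ∀ n i : ℕ, N - 2 * i ≤ n →
      PosC (grid (adjA N) (adjA_symm N) L) (gperm Fin.revPerm L) 2 (rowI N L i (N - i)) := by
    intro n
    induction n with
    | zero =>
      intro i hi
      have h : rowI N L i (N - i) = ∅ := by
        rw [Set.eq_empty_iff_forall_notMem]
        rintro p ⟨h1, h2⟩
        omega
      rw [h]
      exact hPE0 _ _ _ _
    | succ n ih =>
      intro i hi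
      by_cases hN : N ≤ 2 * i
      · exact ih i (by omega)
      · have h1 : rowI N L i (N - i) \ {p | p.1.1 = i ∨ p.1.1 = N - 1 - i} =
            rowI N L (i + 1) (N - (i + 1)) := by
          ext p
          show ((i ≤ p.1.1 ∧ p.1.1 < N - i) ∧ ¬ (p.1.1 = i ∨ p.1.1 = N - 1 - i)) ↔
            (i + 1 ≤ p.1.1 ∧ p.1.1 < N - (i + 1))
          omega
        refine hTH1 (Fin N × Fin L) _ _ 2 (rowI N L i (N - i))
          {p | p.1.1 = i ∨ p.1.1 = N - 1 - i} (CLB_adm N L i) ?_ ?_ ?_ ?_ ?_
        · intro p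
          show ((Fin.rev p.1).val = i ∨ (Fin.rev p.1).val = N - 1 - i) ↔
            (p.1.1 = i ∨ p.1.1 = N - 1 - i)
          rw [Fin.val_rev]
          have := p.1.2
          omega
        · intro p hp
          have hp' : p.1.1 = i ∨ p.1.1 = N - 1 - i := hp
          show i ≤ p.1.1 ∧ p.1.1 < N - i
          omega
        · intro p _ hp x hx ht
          apply hp
          have hx' : x.1.1 = i ∨ x.1.1 = N - 1 - i := hx
          show p.1.1 = i ∨ p.1.1 = N - 1 - i
          rw [show p.1 = x.1 from ht.1]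
          exact hx'
        · intro E hE hEU K _ D _ M' hM' p hp
          have hp' : p.1.1 = i ∨ p.1.1 = N - 1 - i := hp
          have hNi : N - i = N - 1 - i + 1 := by omega
          have hsum := hCSO (Fin N × Fin L) _ _ K D (rowI N L i (N - i)) E hEU M' hM'
            (CLB_T N L i (N - 1 - i)) (by
            intro u hu R hR hsc q
            have hu' : i ≤ u.1.1 ∧ u.1.1 < N - i := hEU hu
            rw [hNi] at hR
            exact hCDA N L (adjA N) (adjA_symm N) i (N - 1 - i) (by omega)
              (fun v w _ _ _ _ => Iff.rfl) K R u.1 u.2 hu'.1 (by omega) hR hsc q.1 q.2) p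
          rw [hsum]
          obtain ⟨u₀, rfl⟩ := hE
          have hlv : ∀ u ∈ {x | ∃ n : ℕ,
              x = (⇑(gperm (Fin.revPerm : Equiv.Perm (Fin N)) L))^[n] u₀}, u.2 = u₀.2 := by
            rintro u ⟨k, rfl⟩
            exact CLB_lvl k u₀
          by_cases hall : ∀ u, ind {x | ∃ n : ℕ,
              x = (⇑(gperm (Fin.revPerm : Equiv.Perm (Fin N)) L))^[n] u₀} u *
              CLB_T N L i (N - 1 - i) u p = 0
          · rw [Finset.sum_eq_zero fun u _ => hall u]
            omega
          · push Not at hall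
            obtain ⟨u₁, hu₁⟩ := hall
            have hmem : ∀ u, ind {x | ∃ n : ℕ,
                x = (⇑(gperm (Fin.revPerm : Equiv.Perm (Fin N)) L))^[n] u₀} u *
                CLB_T N L i (N - 1 - i) u p ≠ 0 → u.2 = u₀.2 ∧
                CLB_T N L i (N - 1 - i) u p ≠ 0 := by
              intro u hu
              refine ⟨hlv u ?_, right_ne_zero_of_mul hu⟩
              exact Set.mem_of_indicator_ne_zero (left_ne_zero_of_mul hu)
            rw [Finset.sum_eq_single u₁]
            · have h2 : ind {x | ∃ n : ℕ,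
                  x = (⇑(gperm (Fin.revPerm : Equiv.Perm (Fin N)) L))^[n] u₀} u₁ ≤ 1 := by
                unfold ind
                exact Set.indicator_le_self' (fun _ _ => Nat.zero_le _) u₁
              calc _ ≤ 1 * 1 := Nat.mul_le_mul h2 (CLB_T_le _ _ _ _ _ _)
                _ = 1 := rfl
            · intro u _ hne
              by_contra h0
              obtain ⟨a1, a2⟩ := hmem u h0
              obtain ⟨b1, b2⟩ := hmem u₁ hu₁
              exact hne (CLB_T_uniq hp' (a1.trans b1.symm) a2 b2)
            · intro h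
              exact absurd (Finset.mem_univ _) h
        · rw [h1]
          exact ih (i + 1) (by omega)
  intro i
  exact key _ i le_rfl

end Pool.Agent.Lib.MP_4c1f79_al
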