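import Pool.Agent.Lib.MP_4c1f79_al.StmCl

/-!
# MP_4c1f79_al, piece CLC: positivity for the type `C`
-/

set_option autoImplicit false

namespace Pool.Agent.Lib.MP_4c1f79_al

open Finset Module J4c

private theorem CLC_swap (N : ℕ) (hN : 3 ≤ N) (v : Fin N) :
    ((Equiv.swap (⟨N - 2, by omega⟩ : Fin N) ⟨N - 1, by omega⟩) v).1 =
      if v.1 = N - 2 then N - 1 else if v.1 = N - 1 then N - 2 else v.1 := by
  rw [Equiv.swap_apply_def]
  simp only [Fin.ext_iff]
  split_ifs <;> rfl

private theorem CLC_adj (N : ℕ) (hN : 3 ≤ N) (v w : Fin N) :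
    adjD N ((Equiv.swap (⟨N - 2, by omega⟩ : Fin N) ⟨N - 1, by omega⟩) v)
      ((Equiv.swap (⟨N - 2, by omega⟩ : Fin N) ⟨N - 1, by omega⟩) w) ↔ adjD N v w := by
  have hv := v.2
  have hw := w.2
  unfold adjD
  rw [CLC_swap N hN, CLC_swap N hN]
  split_ifs <;> omega

/-- the two possible values in the sum -/
private def CLC_T {N L : ℕ} (u p : Fin N × Fin L) : ℕ :=
  if u.2.1 ≤ p.2.1 then tabD N u.1 p.1 (p.2.1 - u.2.1) else 0

private theorem CLC_one {N : ℕ} {u v k : ℕ} (hu : u + 2 < N) (hv : ¬ v + 2 < N) :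
    tabD N u v k ≤ 1 := by
  unfold tabD
  rw [if_pos hu, if_neg hv]
  unfold tabA
  split_ifs <;> omega

private theorem CLC_two {N : ℕ} (hN : 3 ≤ N) {v k : ℕ} (hv : ¬ v + 2 < N) (hv' : v < N) :
    tabD N (N - 2) v k + tabD N (N - 1) v k ≤ 1 := by
  have a : tabD N (N - 2) v k = if (k ≤ 2 * N - 4 ∧ ((N - 2 = v ∧ k % 4 = 0) ∨
      (N - 2 ≠ v ∧ k % 4 = 2))) then 1 else 0 := by
    unfold tabD
    rw [if_neg (by omega), if_neg hv]
  have b : tabD N (N - 1) v k = if (k ≤ 2 * N - 4 ∧ ((N - 1 = v ∧ k % 4 = 0) ∨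
      (N - 1 ≠ v ∧ k % 4 = 2))) then 1 else 0 := by
    unfold tabD
    rw [if_neg (by omega), if_neg hv]
  rw [a, b]
  split_ifs <;> omega

private theorem CLC_thin {N L : ℕ} (hN : 3 ≤ N) (p0 p : Fin N × Fin L) (hp : N - 2 ≤ p.1.1) :
    CLC_T p0 p + (if gperm (Equiv.swap (⟨N - 2, by omega⟩ : Fin N) ⟨N - 1, by omega⟩) L p0 = p0
      then 0 else CLC_T (gperm (Equiv.swap (⟨N - 2, by omega⟩ : Fin N) ⟨N - 1, by omega⟩) L p0) p)
      ≤ 1 := by
  obtain ⟨u, l⟩ := p0
  obtain ⟨v, k⟩ := p
  have hv : ¬ v.1 + 2 < N := by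
    simp only at hp
    omega
  have hv' := v.2
  have hu' := u.2
  have e1 : gperm (Equiv.swap (⟨N - 2, by omega⟩ : Fin N) ⟨N - 1, by omega⟩) L (u, l) =
      ((Equiv.swap (⟨N - 2, by omega⟩ : Fin N) ⟨N - 1, by omega⟩) u, l) := rfl
  rw [e1]
  by_cases hu : u.1 + 2 < N
  · have e2 : (Equiv.swap (⟨N - 2, by omega⟩ : Fin N) ⟨N - 1, by omega⟩) u = u := by
      apply Fin.ext
      rw [CLC_swap N hN, if_neg (by omega), if_neg (by omega)]
    rw [e2, if_pos rfl, add_zero]
    unfold CLC_T
    split_ifs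
    · exact CLC_one hu hv
    · omega
  · rw [if_neg]
    · unfold CLC_T
      simp only
      split_ifs with hlk
      · have h2 := CLC_two hN hv hv' (k := k.1 - l.1)
        have h3 := CLC_swap N hN u
        rcases (by omega : u.1 = N - 2 ∨ u.1 = N - 1) with h4 | h4
        · rw [if_pos h4] at h3
          rw [h3, h4]
          exact h2
        · rw [if_neg (by omega), if_pos h4] at h3
          rw [h3, h4, add_comm]
          exact h2
      · omega
    · intro h
      have h5 := congrArg (fun x : Fin N × Fin L => x.1.1) h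
      simp only at h5
      rw [CLC_swap N hN] at h5
      split_ifs at h5 <;> omega

theorem CLC_holds (hCDD : S_CDD) (hCSO : S_CSO) (hTH1 : S_TH1) (hCLA : S_CLA) : S_CLC := by
  classical
  intro N L hN
  have hss : ∀ v : Fin N, (Equiv.swap (⟨N - 2, by omega⟩ : Fin N) ⟨N - 1, by omega⟩)
      ((Equiv.swap (⟨N - 2, by omega⟩ : Fin N) ⟨N - 1, by omega⟩) v) = v := fun v =>
    Equiv.swap_apply_self _ _ v
  have hadm : Adm (grid (adjD N) (adjD_symm N) L)
      (gperm (Equiv.swap (⟨N - 2, by omega⟩ : Fin N) ⟨N - 1, by omega⟩) L) 2 Set.univ :=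
    ⟨grid_sym _ _ _ _ (CLC_adj N hN), fun p => Prod.ext (hss p.1) rfl, fun p => by simp⟩
  refine hTH1 _ _ _ 2 Set.univ {p | N - 2 ≤ p.1.1} hadm ?_ (Set.subset_univ _) ?_ ?_ ?_
  · intro p
    show N - 2 ≤ ((Equiv.swap (⟨N - 2, by omega⟩ : Fin N) ⟨N - 1, by omega⟩) p.1).1 ↔
      N - 2 ≤ p.1.1
    rw [CLC_swap N hN]
    split_ifs <;> omega
  · intro p _ hp x hx h
    apply hp
    show N - 2 ≤ p.1.1
    have h1 : p.1 = x.1 := h.1
    rw [h1]
    exact hx
  · intro E hE hEU K _ D hr X hX p hp
    rw [hCSO _ _ _ K D Set.univ E hEU X hX (fun u p => CLC_T u p) ?_ p]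
    · obtain ⟨p0, rfl⟩ := hE
      generalize hs : gperm (Equiv.swap (⟨N - 2, by omega⟩ : Fin N) ⟨N - 1, by omega⟩) L = s at *
      have hss2 : ∀ q, s (s q) = q := fun q => hadm.per q
      have hmem : ∀ x, (∃ i : ℕ, x = (⇑s)^[i] p0) → x = p0 ∨ x = s p0 := by
        rintro x ⟨i, rfl⟩
        induction i with
        | zero => exact Or.inl rfl
        | succ i ih =>
          rw [Function.iterate_succ_apply']
          rcases ih with h | h
          · rw [h]
            exact Or.inr rfl
          · rw [h, hss2]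
            exact Or.inl rfl
      have hth := CLC_thin hN p0 p hp
      rw [hs] at hth
      refine le_trans ?_ hth
      calc ∑ u, ind {x | ∃ i : ℕ, x = (⇑s)^[i] p0} u * CLC_T u p
          ≤ ∑ u, ((if u = p0 then CLC_T p0 p else 0)
            + (if u = s p0 then (if s p0 = p0 then 0 else CLC_T (s p0) p) else 0)) := by
            refine Finset.sum_le_sum fun u _ => ?_
            by_cases h1 : u = p0
            · subst h1
              have h2 : ind {x | ∃ i : ℕ, x = (⇑s)^[i] u} u = 1 := by
                rw [ind, Set.indicator_of_mem]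
                · rfl
                · exact ⟨0, rfl⟩
              rw [h2, one_mul, if_pos rfl]
              omega
            · by_cases h3 : u = s p0
              · subst h3
                have h2 : ind {x | ∃ i : ℕ, x = (⇑s)^[i] p0} (s p0) ≤ 1 := by
                  rw [ind]
                  unfold Set.indicator
                  split_ifs
                  · exact le_rfl
                  · exact Nat.zero_le _
                rw [if_neg h1, if_pos rfl, if_neg h1, zero_add]
                calc _ ≤ 1 * CLC_T (s p0) p := Nat.mul_le_mul_right _ h2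
                  _ = _ := one_mul _
              · have h2 : ind {x | ∃ i : ℕ, x = (⇑s)^[i] p0} u = 0 := by
                  rw [ind, Set.indicator_of_notMem]
                  intro h
                  rcases hmem u h with h4 | h4
                  · exact h1 h4
                  · exact h3 h4
                rw [h2, zero_mul]
                exact Nat.zero_le _
        _ = _ := by
            rw [Finset.sum_add_distrib, Finset.sum_ite_eq', Finset.sum_ite_eq',
              if_pos (Finset.mem_univ _), if_pos (Finset.mem_univ _)]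
    · rintro ⟨u, l⟩ _ R hR1 hR2 ⟨v, k⟩
      exact hCDD N L hN K R u l hR1 hR2 v k
  · have h1 := hCLA N L (adjD N) (adjD_symm N)
      (Equiv.swap (⟨N - 2, by omega⟩ : Fin N) ⟨N - 1, by omega⟩) 2 (CLC_adj N hN) hss 0 (N - 2)
      (by omega) ?_ ?_
    · have h2 : (Set.univ \ {p : Fin N × Fin L | N - 2 ≤ p.1.1}) = rowI N L 0 (0 + (N - 2)) := by
        ext p
        simp [rowI]
        omega
      rw [h2]
      exact h1
    · intro v w _ hv _ hw
      unfold adjD
      omega
    · intro v _ hv
      apply Fin.ext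
      rw [CLC_swap N hN, if_neg (by omega), if_neg (by omega)]

end Pool.Agent.Lib.MP_4c1f79_al
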