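import Pool.Agent.Lib.MP_4c1f79_al.StmCl

/-!
MP_4c1f79_al: the statement `S_CLD` (positivity in type `D`).
-/

set_option autoImplicit false

namespace Pool.Agent.Lib.MP_4c1f79_al

open Finset Module J4c

private theorem CLD_tab (N : ℕ) (u v k : ℕ) (hv : ¬ v + 2 < N) : tabD N u v k ≤ 1 := by
  unfold tabD tabA
  split_ifs <;> omega

private theorem CLD_gperm (N L : ℕ) :
    gperm (Equiv.refl (Fin N)) L = Equiv.refl (Fin N × Fin L) := by
  ext p <;> simp [gperm]

private theorem CLD_iter {P : Type} (i : ℕ) (p : P) : (⇑(Equiv.refl P))^[i] p = p := by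
  induction i with
  | zero => rfl
  | succ n ih => rw [Function.iterate_succ_apply]; exact ih

theorem CLD_holds (hCDD : S_CDD) (hCSO : S_CSO) (hTH1 : S_TH1) (hCLA : S_CLA) : S_CLD := by
  intro N L hN
  have hadj : ∀ v w : Fin N, adjD N ((Equiv.refl (Fin N)) v) ((Equiv.refl (Fin N)) w) ↔
      adjD N v w := fun v w => Iff.rfl
  have hsym : Sym (grid (adjD N) (adjD_symm N) L) (gperm (Equiv.refl (Fin N)) L) :=
    grid_sym (adjD N) (adjD_symm N) L (Equiv.refl (Fin N)) hadj
  have hadm : Adm (grid (adjD N) (adjD_symm N) L) (gperm (Equiv.refl (Fin N)) L) 1 Set.univ :=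
    ⟨hsym, fun p => by rw [CLD_gperm]; rfl, fun p => by simp⟩
  refine hTH1 (Fin N × Fin L) (grid (adjD N) (adjD_symm N) L) (gperm (Equiv.refl (Fin N)) L) 1
    Set.univ {p | p.1.1 = N - 1} hadm ?_ (Set.subset_univ _) ?_ ?_ ?_
  · intro p
    rw [CLD_gperm]
    rfl
  · intro p _ hp x hx ht
    apply hp
    have h1 : p.1 = x.1 := ht.1
    have h2 : x.1.1 = N - 1 := hx
    change p.1.1 = N - 1
    rw [h1, h2]
  · intro E hE _ K _ D _ M hM p hp
    obtain ⟨u, hu⟩ := hE
    have hEu : E = {u} := by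
      rw [hu]
      ext x
      rw [CLD_gperm]
      simp [CLD_iter]
    subst hEu
    have key := hCSO (Fin N × Fin L) (grid (adjD N) (adjD_symm N) L)
      (gperm (Equiv.refl (Fin N)) L) K D Set.univ {u} (Set.subset_univ _) M hM
      (fun u p => if u.2.1 ≤ p.2.1 then tabD N u.1 p.1 (p.2.1 - u.2.1) else 0)
      (by
        intro u' hu' R hR hsc q
        exact hCDD N L hN K R u'.1 u'.2 hR hsc q.1 q.2) p
    rw [key]
    have hp1 : p.1.1 = N - 1 := hp
    rw [Finset.sum_eq_single u]
    · have h1 : ind {u} u = 1 := by simp [ind]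
      rw [h1, one_mul]
      split_ifs
      · exact CLD_tab N _ _ _ (by omega)
      · exact Nat.zero_le _
    · intro b _ hb
      have h1 : ind {u} b = 0 := by simp [ind, hb]
      rw [h1, zero_mul]
    · intro h
      exact absurd (Finset.mem_univ u) h
  · have hset : (Set.univ \ {p : Fin N × Fin L | p.1.1 = N - 1}) = rowI N L 0 (0 + (N - 1)) := by
      ext p
      have h3 := p.1.2
      simp only [Set.mem_diff, Set.mem_univ, true_and, Set.mem_setOf_eq, rowI]
      omega
    rw [hset]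
    refine hCLA N L (adjD N) (adjD_symm N) (Equiv.refl (Fin N)) 1 hadj (fun v => rfl) 0 (N - 1)
      (by omega) ?_ (fun v _ _ => rfl)
    intro v w _ hv _ hw
    unfold adjD
    omega

end Pool.Agent.Lib.MP_4c1f79_al
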