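import Pool.Agent.Lib.MP_4c1f79_al.StmI

/-!
# MP_4c1f79_al : the module of type `tY a` is generated by its level `L - 2` (piece GEN)
-/

set_option autoImplicit false

namespace Pool.Agent.Lib.MP_4c1f79_al

open Finset Module

/-- The dimension vector `dY` satisfies the recursion. -/
private theorem GEN_rec (X : Dt) (a : X.ι → ℕ) (w : X.V) (k : ℕ) (h : k + 2 < X.L) :
    X.dY a (w, ⟨k + 2, h⟩) + X.dY a (w, ⟨k, by omega⟩)
      = sA X.M (X.dY a) (w, ⟨k + 2, h⟩) := by
  classical
  have h1 : sA X.M (X.dY a) (w, ⟨k + 2, h⟩)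
      = ∑ u : X.V, if X.adj w u then X.dY a (u, ⟨k + 1, by omega⟩) else 0 := by
    unfold sA
    rw [Fintype.sum_prod_type]
    refine Finset.sum_congr rfl fun u _ => ?_
    rw [Finset.sum_eq_single (⟨k + 1, by omega⟩ : Fin X.L)]
    · have hiff : X.M.Ar (w, ⟨k + 2, h⟩) (u, ⟨k + 1, by omega⟩) ↔ X.adj w u := by
        constructor
        · intro h2; exact h2.1
        · intro h2; exact ⟨h2, rfl⟩
      by_cases h2 : X.adj w u
      · rw [if_pos h2, if_pos (hiff.2 h2)]
      · rw [if_neg h2, if_neg (fun h3 => h2 (hiff.1 h3))]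
    · intro l _ hl
      rw [if_neg]
      intro h2
      apply hl
      apply Fin.ext
      have h3 : k + 2 = (l : ℕ) + 1 := h2.2
      show (l : ℕ) = k + 1
      omega
    · intro h2
      exact absurd (Finset.mem_univ _) h2
  rw [h1]
  have h2 : ∀ v : X.V, (if X.c (X.ob v) = false then a (X.ob v) * X.T v w (k + 2) else 0)
      + (if X.c (X.ob v) = false then a (X.ob v) * X.T v w k else 0)
      = ∑ u : X.V, if X.adj w u then
          (if X.c (X.ob v) = false then a (X.ob v) * X.T v u (k + 1) else 0) else 0 := by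
    intro v
    by_cases hc : X.c (X.ob v) = false
    · simp only [if_pos hc]
      rw [← mul_add, X.tre v w k h, Finset.mul_sum]
      refine Finset.sum_congr rfl fun u _ => ?_
      split_ifs <;> simp
    · simp [hc]
  calc X.dY a (w, ⟨k + 2, h⟩) + X.dY a (w, ⟨k, by omega⟩)
      = ∑ v : X.V, ((if X.c (X.ob v) = false then a (X.ob v) * X.T v w (k + 2) else 0)
        + (if X.c (X.ob v) = false then a (X.ob v) * X.T v w k else 0)) := by
        rw [Finset.sum_add_distrib]; rfl
    _ = ∑ v : X.V, ∑ u : X.V, (if X.adj w u then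
          (if X.c (X.ob v) = false then a (X.ob v) * X.T v u (k + 1) else 0) else 0) :=
        Finset.sum_congr rfl fun v _ => h2 v
    _ = ∑ u : X.V, ∑ v : X.V, (if X.adj w u then
          (if X.c (X.ob v) = false then a (X.ob v) * X.T v u (k + 1) else 0) else 0) :=
        Finset.sum_comm
    _ = ∑ u : X.V, if X.adj w u then X.dY a (u, ⟨k + 1, by omega⟩) else 0 := by
        refine Finset.sum_congr rfl fun u _ => ?_
        by_cases h3 : X.adj w u
        · simp only [if_pos h3]; rfl
        · simp only [if_neg h3]; simp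

theorem GEN_holds (hONT : S_ONT) (hIDD : S_IDD) : S_GEN := by
  classical
  intro X K _ D hD a N hN W hW htop
  have hL := X.L2
  have hdm : ∀ p, N.toRp.dm p = X.dY a p := (hIDD X K D hD a).2.1 N hN
  have hfin : Module.Finite K N.T := Module.Finite.of_finite
  have key : ∀ j : ℕ, ∀ (w : X.V) (k : ℕ) (hk : k < X.L), k + j = X.L - 1 →
      LinearMap.range (N.e (w, ⟨k, hk⟩)) ≤ W := by
    intro j
    induction j using Nat.strong_induction_on with
    | _ j ih =>
      intro w k hk hkj
      rcases Nat.lt_or_ge j 2 with hj | hj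
      · rcases Nat.lt_or_ge j 1 with hj' | hj'
        · -- level L - 1
          have h1 : N.toRp.dm (w, ⟨k, hk⟩) = 0 := by
            rw [hdm]
            show (∑ v, if X.c (X.ob v) = false then a (X.ob v) * X.D0 v (w, ⟨k, hk⟩) else 0) = 0
            refine Finset.sum_eq_zero fun v _ => ?_
            have h2 : X.D0 v (w, ⟨k, hk⟩) = 0 := by
              have h3 : k = X.L - 1 := by omega
              subst h3
              exact X.bot v w
            rw [h2, mul_zero]
            simp
          have h2 : LinearMap.range (N.e (w, ⟨k, hk⟩)) = ⊥ := Submodule.finrank_eq_zero.1 h1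
          rw [h2]
          exact bot_le
        · have h1 := htop w
          have h2 : k = X.L - 2 := by omega
          subst h2
          exact h1
      · have hk2 : k + 2 < X.L := by omega
        have hons : N.toRp.Onto (w, ⟨k, hk⟩) := by
          refine hONT X.P X.M K N.toRp (w, ⟨k + 2, hk2⟩) (w, ⟨k, hk⟩)
            (hN.1.2 _ (Set.mem_univ _)) ⟨rfl, rfl⟩ ?_
          have h1 : N.toRp.sc (w, ⟨k + 2, hk2⟩) = 0 := by
            rw [hN.2]
            show (if (k + 2 = 0 ∧ _) then _ else 0) = 0
            rw [if_neg]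
            rintro ⟨h, _⟩
            omega
          have h2 : N.toRp.dm = X.dY a := funext hdm
          rw [h1, zero_add, h2]
          exact GEN_rec X a w k hk2
        rintro _ ⟨y, rfl⟩
        obtain ⟨x, hx⟩ := hons (N.e (w, ⟨k, hk⟩) y) (N.e_e _ _)
        rw [← hx]
        have h1 : N.toRp.e (w, ⟨k, hk⟩) (N.toRp.a x)
            = ∑ q, N.toRp.e (w, ⟨k, hk⟩) (N.toRp.a (N.toRp.e q x)) := by
          conv_lhs => rw [← N.toRp.e_sum x]
          rw [map_sum, map_sum]
        rw [h1]
        refine Submodule.sum_mem _ fun q _ => ?_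
        by_cases hq : X.M.Ar q (w, ⟨k, hk⟩)
        · refine hW.1 _ _ (hW.2 _ ?_)
          obtain ⟨u, l⟩ := q
          have h2 : (l : ℕ) = k + 1 := hq.2
          have h3 := ih (j - 1) (by omega) u l l.2 (by omega)
          exact h3 ⟨x, rfl⟩
        · rw [N.toRp.a_ar _ _ _ hq]
          exact W.zero_mem
  rw [eq_top_iff]
  intro x _
  have hx : ∑ p, N.toRp.e p x = x := N.toRp.e_sum x
  rw [← hx]
  refine Submodule.sum_mem _ fun p _ => ?_
  obtain ⟨w, k⟩ := p
  exact key (X.L - 1 - k) w k k.2 (by omega) ⟨x, rfl⟩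

end Pool.Agent.Lib.MP_4c1f79_al
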