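import Pool.Agent.Lib.MP_4c1f79_al.StmI

/-! Piece J4 IA1: the first formula for `A`. -/

set_option autoImplicit false

namespace Pool.Agent.Lib.MP_4c1f79_al

open Finset Module

theorem IA1_holds (hCSP : S_CSP) (hIDD : S_IDD) (hINM : S_INM) (hIBA : S_IBA) : S_IA1 := by
  intro X K _ D hr a
  have hinv := (hINM X).2.2.1 a
  have hAdm : Adm X.M X.s D.r Set.univ := by
    rw [hr]
    exact X.adm
  have h2 := (hCSP X.P X.M X.s K D Set.univ hAdm (X.tY a) (X.tX a) (fun p => (hinv p).2.1)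
    (fun p => (hinv p).1) (fun p hp => absurd (Set.mem_univ p) hp)
    (fun p hp => absurd (Set.mem_univ p) hp)).2
  have hTau : ∀ p r, X.M.Tau p r → X.tX a p ≠ 0 →
      Dd X.M X.s K D Set.univ (X.tY a) r = 0 := by
    intro p r ht hne
    exfalso
    have h3 : (p.2 : ℕ) = (r.2 : ℕ) + 2 := ht.2
    apply hne
    unfold Dt.tX
    rw [if_neg]
    rintro ⟨h4, -⟩
    omega
  obtain ⟨h4, h5⟩ := h2 hTau (X.dY a)
  have hDd : ∀ p, Dd X.M X.s K D Set.univ (X.tY a) p = X.dY a p := (hIDD X K D hr a).2.2.2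
  have hty : X.typ a = fun p => X.tY a p + X.tX a p := by
    funext p
    exact add_comm _ _
  unfold Dt.AA
  rw [hty, h4, Nat.cast_sum]
  refine Finset.sum_nbij' (fun d₁ => X.dY a - d₁) (fun N => X.dY a - N) ?_ ?_ ?_ ?_ ?_
  · intro d₁ _
    rw [mem_box]
    exact tsub_le_self
  · intro N _
    rw [mem_box]
    exact tsub_le_self
  · intro d₁ hd
    exact tsub_tsub_cancel_of_le (mem_box.1 hd)
  · intro N hN
    exact tsub_tsub_cancel_of_le (mem_box.1 hN)
  · intro d₁ hd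
    have hle : d₁ ≤ X.dY a := mem_box.1 hd
    have hsub : X.dY a - (X.dY a - d₁) = d₁ := tsub_tsub_cancel_of_le hle
    have hZY : X.ZY K D a (X.dY a - d₁) = Cc X.M X.s K D Set.univ (X.tY a) d₁ := by
      unfold Dt.ZY
      rw [if_pos tsub_le_self, hsub]
    have hZX : X.ZX K D a (X.dY a - d₁)
        = Cc X.M X.s K D Set.univ (X.tX a) (X.dY a - d₁) := rfl
    have heul : eul X.M (fun p => (X.dY a p : ℤ) - (d₁ p : ℤ))
        (fun p => (Dd X.M X.s K D Set.univ (X.tY a) p : ℤ) - (d₁ p : ℤ))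
        = eulN X.M (X.dY a - d₁) (X.dY a - d₁) := by
      have h6 : (fun p => (X.dY a p : ℤ) - (d₁ p : ℤ)) = fun p => (((X.dY a - d₁) p : ℕ) : ℤ) := by
        funext p
        rw [Pi.sub_apply, Nat.cast_sub (hle p)]
      have h7 : (fun p => (Dd X.M X.s K D Set.univ (X.tY a) p : ℤ) - (d₁ p : ℤ))
          = fun p => (((X.dY a - d₁) p : ℕ) : ℤ) := by
        rw [← h6]
        funext p
        rw [hDd]
      unfold eulN
      rw [h6, h7]
    show (((D.q ^ (eul X.M (fun p => (X.dY a p : ℤ) - (d₁ p : ℤ))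
        (fun p => (Dd X.M X.s K D Set.univ (X.tY a) p : ℤ) - (d₁ p : ℤ))).toNat
          * (Cc X.M X.s K D Set.univ (X.tY a) d₁
            * Cc X.M X.s K D Set.univ (X.tX a) (X.dY a - d₁)) : ℕ)) : ℚ)
      = (D.q : ℚ) ^ (eulN X.M (X.dY a - d₁) (X.dY a - d₁))
        * ((X.ZX K D a (X.dY a - d₁) : ℚ) * X.ZY K D a (X.dY a - d₁))
    by_cases h8 : Cc X.M X.s K D Set.univ (X.tY a) d₁ = 0
    · rw [hZY, h8]
      simp
    by_cases h9 : Cc X.M X.s K D Set.univ (X.tX a) (X.dY a - d₁) = 0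
    · rw [hZX, h9]
      simp
    have h10 := h5 d₁ hle h8 h9
    rw [heul] at h10 ⊢
    rw [hZX, hZY, Nat.cast_mul, Nat.cast_mul, Nat.cast_pow, ← zpow_natCast,
      Int.toNat_of_nonneg h10, mul_comm ((Cc X.M X.s K D Set.univ (X.tY a) d₁ : ℕ) : ℚ)]

end Pool.Agent.Lib.MP_4c1f79_al
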