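import Pool.Agent.Lib.MP_4c1f79_al.StmI

/-!
# MP_4c1f79_al : piece IA2 (the second formula for `A`)
-/

set_option autoImplicit false

namespace Pool.Agent.Lib.MP_4c1f79_al

open Finset Module

section eul

variable {P : Type} [Fintype P] (M : Mesh P)

private theorem IA2_subl (x x' y : P → ℤ) :
    eul M (fun p => x p - x' p) y = eul M x y - eul M x' y := by
  classical
  unfold eul
  have h : ∀ (A : Prop) [Decidable A] (u v w : ℤ),
      (if A then (u - v) * w else 0) = (if A then u * w else 0) - (if A then v * w else 0) := by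
    intro A _ u v w
    split_ifs
    · ring
    · ring
  simp only [h]
  simp only [sub_mul, Finset.sum_sub_distrib]
  ring

private theorem IA2_subr (x y y' : P → ℤ) :
    eul M x (fun p => y p - y' p) = eul M x y - eul M x y' := by
  classical
  unfold eul
  have h : ∀ (A : Prop) [Decidable A] (u v w : ℤ),
      (if A then w * (u - v) else 0) = (if A then w * u else 0) - (if A then w * v else 0) := by
    intro A _ u v w
    split_ifs
    · ring
    · ring
  simp only [h]
  simp only [mul_sub, Finset.sum_sub_distrib]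
  ring

private theorem IA2_addr (x y y' : P → ℤ) :
    eul M x (fun p => y p + y' p) = eul M x y + eul M x y' := by
  classical
  unfold eul
  have h : ∀ (A : Prop) [Decidable A] (u v w : ℤ),
      (if A then w * (u + v) else 0) = (if A then w * u else 0) + (if A then w * v else 0) := by
    intro A _ u v w
    split_ifs
    · ring
    · ring
  simp only [h]
  simp only [mul_add, Finset.sum_add_distrib]
  ring

private theorem IA2_smul (x y : P → ℤ) (c : ℤ) :
    eul M x (fun p => c * y p) = c * eul M x y := by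
  classical
  unfold eul
  have h : ∀ (A : Prop) [Decidable A] (u w : ℤ),
      (if A then w * (c * u) else 0) = c * (if A then w * u else 0) := by
    intro A _ u w
    split_ifs
    · ring
    · ring
  have h2 : ∀ u w : ℤ, w * (c * u) = c * (w * u) := fun u w => by ring
  simp only [h]
  simp only [h2, ← Finset.mul_sum]
  ring

private theorem IA2_zero (x : P → ℤ) : eul M x (fun _ => 0) = 0 := by
  have h := IA2_smul M x (fun _ => 0) 0
  simpa using h

private theorem IA2_sum {V : Type} (x : P → ℤ) (S : Finset V) (c : V → ℤ) (f : V → P → ℤ) :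
    eul M x (fun p => ∑ v ∈ S, c v * f v p) = ∑ v ∈ S, c v * eul M x (f v) := by
  classical
  induction S using Finset.induction_on with
  | empty =>
    simp only [Finset.sum_empty]
    exact IA2_zero M x
  | insert v S hv ih =>
    have h : (fun p => ∑ v ∈ insert v S, c v * f v p) =
        fun p => c v * f v p + ∑ v ∈ S, c v * f v p := by
      funext p
      rw [Finset.sum_insert hv]
    rw [h, IA2_addr M x (fun p => c v * f v p) (fun p => ∑ v ∈ S, c v * f v p), IA2_smul, ih,
      Finset.sum_insert hv]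

end eul

theorem IA2_holds (hCSP : S_CSP) (hIDD : S_IDD) (hINM : S_INM) (hIBA : S_IBA) (hIEX : S_IEX)
    (hIEU : S_IEU) (hIBE : S_IBE) : S_IA2 := by
  intro X K _ D hr a
  obtain ⟨-, -, hinv, -, -, -, hdY, -, -⟩ := hINM X
  obtain ⟨-, -, hDX, -⟩ := hIDD X K D hr a
  have hadm : Adm X.M X.s D.r Set.univ := by
    rw [hr]
    exact X.adm
  have hX : ∀ p, X.tX a (X.s p) = X.tX a p := fun p => (hinv a p).1
  have hY : ∀ p, X.tY a (X.s p) = X.tY a p := fun p => (hinv a p).2.1
  have hdYs : ∀ p, X.dY a (X.s p) = X.dY a p := fun p => (hinv a p).2.2.2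
  obtain ⟨-, h2⟩ := hCSP X.P X.M X.s K D Set.univ hadm (X.tX a) (X.tY a) hX hY
    (fun p hp => absurd (Set.mem_univ p) hp) (fun p hp => absurd (Set.mem_univ p) hp)
  have htau : ∀ p r, X.M.Tau p r → X.tY a p ≠ 0 → Dd X.M X.s K D Set.univ (X.tX a) r = 0 := by
    intro p r h1 h2
    exfalso
    apply h2
    unfold Dt.tY
    rw [if_neg]
    rintro ⟨h3, -⟩
    have h4 : (p.2 : ℕ) = (r.2 : ℕ) + 2 := h1.2
    omega
  obtain ⟨h3, h4⟩ := h2 htau (X.dY a)
  obtain ⟨hb1, -⟩ := hIBA X.P X.M X.s K D hadm (X.tX a) hX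
  -- the value of the Euler form
  have hbe : eul X.M (fun p => (X.dY a p : ℤ)) (fun p => (X.dX a p : ℤ)) = (J4c.be X.b a : ℤ) := by
    rw [hIBE X a]
    have e1 : (fun p => (X.dX a p : ℤ)) = fun p => ∑ v, (if X.c (X.ob v) = true then
        (a (X.ob v) : ℤ) else 0) * (X.D1 v p : ℤ) := by
      funext p
      unfold Dt.dX
      push_cast
      apply Finset.sum_congr rfl
      intro v _
      split_ifs
      · rfl
      · rw [zero_mul]
    rw [e1, IA2_sum]
    apply Finset.sum_congr rfl
    intro v _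
    rw [(hIEU X v _).1]
    by_cases hv : X.c (X.ob v) = true
    · rw [if_pos hv, hdY a v hv]
      push_cast
      rw [Finset.mul_sum]
      apply Finset.sum_congr rfl
      intro w _
      by_cases hw : X.adj v w
      · rw [if_pos hw, if_pos ⟨hv, hw⟩]
      · rw [if_neg hw, if_neg (fun h => hw h.2), mul_zero]
    · rw [if_neg hv, zero_mul]
      symm
      apply Finset.sum_eq_zero
      intro w _
      exact if_neg fun h => hv h.1
  have hq : (D.q : ℚ) ≠ 0 := by
    have h5 := D.q_gt
    have h6 : D.q ≠ 0 := by omega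
    exact_mod_cast h6
  have hAA : X.AA K D a = Cc X.M X.s K D Set.univ (fun p => X.tX a p + X.tY a p) (X.dY a) := rfl
  rw [hAA, h3]
  push_cast
  rw [Finset.mul_sum]
  apply Finset.sum_congr rfl
  intro N hN
  rw [mem_box] at hN
  have hZY : X.ZY K D a N = Cc X.M X.s K D Set.univ (X.tY a) (X.dY a - N) := by
    unfold Dt.ZY
    exact if_pos hN
  have hZX : X.ZX K D a N = Cc X.M X.s K D Set.univ (X.tX a) N := rfl
  rw [hZY, hZX]
  by_cases z1 : Cc X.M X.s K D Set.univ (X.tX a) N = 0
  · rw [z1]
    push_cast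
    ring
  by_cases z2 : Cc X.M X.s K D Set.univ (X.tY a) (X.dY a - N) = 0
  · rw [z2]
    push_cast
    ring
  have hNs : ∀ p, N (X.s p) = N p := (hb1 N z1).2
  have hpos := h4 N hN z1 z2
  set E : ℤ := eul X.M (fun p => (X.dY a p : ℤ) - (N p : ℤ))
    (fun p => (Dd X.M X.s K D Set.univ (X.tX a) p : ℤ) - (N p : ℤ)) with hE
  have hEv : E = (J4c.be X.b a : ℤ) + (eulN X.M N N -
      ((∑ i, J4c.bd X.b i * a i * N (X.pos i) : ℕ) : ℤ)) := by
    have e1 : (fun p => (Dd X.M X.s K D Set.univ (X.tX a) p : ℤ) - (N p : ℤ)) =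
        fun p => (X.dX a p : ℤ) - (N p : ℤ) := by
      funext p
      rw [hDX p]
    rw [hE, e1, IA2_subl, IA2_subr, IA2_subr, hbe]
    have e2 := (hIEX X a (fun p => (N p : ℤ)) (fun p => by rw [hNs p])).1
    have e3 := (hIEX X a (fun p => (N p : ℤ)) (fun p => by rw [hNs p])).2
    have e4 : ((∑ i, J4c.bd X.b i * a i * N (X.pos i) : ℕ) : ℤ) =
        (∑ i, (if X.c i = true then (J4c.bd X.b i : ℤ) * a i * (N (X.pX i) : ℤ) else 0)) +
        ∑ i, (if X.c i = false then (J4c.bd X.b i : ℤ) * a i * (N (X.pY i) : ℤ) else 0) := by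
      rw [← Finset.sum_add_distrib]
      push_cast
      apply Finset.sum_congr rfl
      intro i _
      unfold Dt.pos
      by_cases hc : X.c i = true
      · rw [if_pos hc, if_pos hc, if_neg (by rw [hc]; decide), add_zero]
      · rw [if_neg hc, if_neg hc, if_pos (by simpa using hc), zero_add]
    have e5 : eulN X.M N N = eul X.M (fun p => (N p : ℤ)) (fun p => (N p : ℤ)) := rfl
    rw [e4, ← e2, ← e3, e5]
    ring
  have hz : (D.q : ℚ) ^ E.toNat = (D.q : ℚ) ^ J4c.be X.b a * (D.q : ℚ) ^ (eulN X.M N N -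
      ((∑ i, J4c.bd X.b i * a i * N (X.pos i) : ℕ) : ℤ)) := by
    rw [← zpow_natCast (D.q : ℚ) E.toNat, Int.toNat_of_nonneg hpos, hEv, zpow_add₀ hq,
      zpow_natCast]
  rw [hz]
  push_cast
  ring

end Pool.Agent.Lib.MP_4c1f79_al
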