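import Pool.Agent.Lib.MP_4c1f79_al.StmI

/-!
# MP_4c1f79_al : piece IBA (basic facts on the canonical counts)
-/

set_option autoImplicit false

namespace Pool.Agent.Lib.MP_4c1f79_al

open Finset Module

private theorem IBA_inj {P : Type} [Fintype P] {M : Mesh P} {s : Equiv.Perm P} {K : Type}
    [Field K] {D : Fd K} (N : FM M s K D) : Function.Injective N.F := by
  intro x y h
  have hx := N.F_r x
  have hy := N.F_r y
  obtain ⟨n, hn⟩ : ∃ n, D.r = n + 1 := ⟨D.r - 1, by have := D.r_pos; omega⟩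
  rw [hn, Function.iterate_succ_apply] at hx hy
  rw [← hx, ← hy, h]

private theorem IBA_le {P : Type} [Fintype P] {M : Mesh P} {s : Equiv.Perm P} {K : Type}
    [Field K] {D : Fd K} (N : FM M s K D) (W : Submodule K N.T) (hW : N.St W) (p : P) :
    N.toRp.dmS W p ≤ N.toRp.dmS W (s p) := by
  have hK : 1 < Nat.card K := by
    rw [D.card_K]
    exact Nat.one_lt_pow D.r_pos.ne' D.q_gt
  have hmem : ∀ y : W.map (N.e p), N.F y.1 ∈ W.map (N.e (s p)) := by
    rintro ⟨_, x, hx, rfl⟩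
    exact ⟨N.F x, hW.2 x hx, (N.F_e p x).symm⟩
  have h1 : Nat.card (W.map (N.e p)) ≤ Nat.card (W.map (N.e (s p))) :=
    Nat.card_le_card_of_injective (fun y : W.map (N.e p) => (⟨N.F y.1, hmem y⟩ : W.map (N.e (s p))))
      fun y z h => Subtype.ext (IBA_inj N (congrArg Subtype.val h))
  rw [Module.natCard_eq_pow_finrank (K := K) (V := W.map (N.e p)),
    Module.natCard_eq_pow_finrank (K := K) (V := W.map (N.e (s p)))] at h1
  exact (Nat.pow_le_pow_iff_right hK).mp h1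

private theorem IBA_inv {P : Type} [Fintype P] {M : Mesh P} {s : Equiv.Perm P} {K : Type}
    [Field K] {D : Fd K} (hper : ∀ p, (⇑s)^[D.r] p = p) (N : FM M s K D) (W : Submodule K N.T)
    (hW : N.St W) (p : P) : N.toRp.dmS W (s p) = N.toRp.dmS W p := by
  refine le_antisymm ?_ (IBA_le N W hW p)
  have h1 : ∀ n p, N.toRp.dmS W p ≤ N.toRp.dmS W ((⇑s)^[n] p) := by
    intro n
    induction n with
    | zero => exact fun p => le_rfl
    | succ n ih =>
      intro p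
      rw [Function.iterate_succ_apply]
      exact (IBA_le N W hW p).trans (ih _)
  obtain ⟨n, hn⟩ : ∃ n, D.r = n + 1 := ⟨D.r - 1, by have := D.r_pos; omega⟩
  have h2 := h1 n (s p)
  rw [← Function.iterate_succ_apply, Nat.succ_eq_add_one, ← hn, hper] at h2
  exact h2

theorem IBA_holds (hCCD : S_CCD) (hEXM : S_EXM) (hDQ1 : S_DQ1) (hDQ3 : S_DQ3) : S_IBA := by
  intro P _ M s K _ D hadm m hm
  obtain ⟨N, hN⟩ := hEXM P M s K D Set.univ hadm m hm (fun p hp => absurd (Set.mem_univ p) hp)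
  obtain ⟨c1, c2⟩ := hCCD P M s K D Set.univ hadm m N hN
  obtain ⟨-, -, q3, -, q5, q6⟩ := hDQ1 P M K
  obtain ⟨-, -, -, r4, -, r6⟩ := hDQ3 P M K
  have hbot : N.St ⊥ := by
    refine ⟨⟨fun p x hx => ?_, fun x hx => ?_⟩, fun x hx => ?_⟩
    · rw [(Submodule.mem_bot K).1 hx, map_zero]
      exact Submodule.zero_mem _
    · rw [(Submodule.mem_bot K).1 hx, map_zero]
      exact Submodule.zero_mem _
    · rw [(Submodule.mem_bot K).1 hx, map_zero]
      exact Submodule.zero_mem _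
  have htop : N.St ⊤ := ⟨⟨fun _ _ _ => Submodule.mem_top, fun _ _ => Submodule.mem_top⟩,
    fun _ _ => Submodule.mem_top⟩
  have hdbot : ∀ p, N.toRp.dmS ⊥ p = 0 := by
    intro p
    unfold Rp.dmS
    rw [Submodule.map_bot]
    exact finrank_bot K N.T
  refine ⟨fun d hd => ?_, ?_, ?_, fun h0 p => ?_⟩
  · rw [← c1 d] at hd
    unfold FM.cnt at hd
    obtain ⟨⟨W, hW, hWd⟩⟩ := (Nat.card_ne_zero.1 hd).1
    refine ⟨fun p => ?_, fun p => ?_⟩
    · rw [← hWd p, ← c2, ← q3 N.toRp p]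
      exact q5 N.toRp W ⊤ le_top p
    · rw [← hWd p, ← hWd (s p)]
      exact IBA_inv hadm.per N W hW p
  · rw [← c1 0]
    unfold FM.cnt
    rw [Nat.card_eq_one_iff_unique]
    refine ⟨⟨?_⟩, ⟨⟨⊥, hbot, fun p => hdbot p⟩⟩⟩
    rintro ⟨W, hW, hWd⟩ ⟨W', hW', hWd'⟩
    have h1 := q6 N.toRp ⊥ W hbot.1 hW.1 bot_le (fun p => by rw [hdbot, hWd p]; rfl)
    have h2 := q6 N.toRp ⊥ W' hbot.1 hW'.1 bot_le (fun p => by rw [hdbot, hWd' p]; rfl)
    exact Subtype.ext (h1.symm.trans h2)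
  · rw [← c2, ← c1 N.toRp.dm]
    unfold FM.cnt
    rw [Nat.card_eq_one_iff_unique]
    refine ⟨⟨?_⟩, ⟨⟨⊤, htop, fun p => q3 N.toRp p⟩⟩⟩
    rintro ⟨W, hW, hWd⟩ ⟨W', hW', hWd'⟩
    have h1 := q6 N.toRp W ⊤ hW.1 htop.1 le_top (fun p => by rw [q3, hWd p])
    have h2 := q6 N.toRp W' ⊤ hW'.1 htop.1 le_top (fun p => by rw [q3, hWd' p])
    exact Subtype.ext (h1.trans h2.symm)
  · rw [← c2, r4]
    intro x
    exact r6 N.toRp (fun p => (hN.2 p).trans (h0 p)) _

end Pool.Agent.Lib.MP_4c1f79_al
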