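import Pool.Agent.Lib.MP_4c1f79_al.StmI

/-!
# [IBE] the number `e(a)`
-/

set_option autoImplicit false

namespace Pool.Agent.Lib.MP_4c1f79_al

open Finset

private theorem IBE_b (X : Dt) (i j : X.ι) :
    X.b i j = (if i = j then 2 * (J4c.bd X.b i : ℤ) else 0)
      - ∑ v, ∑ w, if X.ob v = i ∧ X.ob w = j ∧ X.adj v w then (1 : ℤ) else 0 := by
  by_cases h : i = j
  · subst h
    have h0 : (∑ v, ∑ w, if X.ob v = i ∧ X.ob w = i ∧ X.adj v w then (1 : ℤ) else 0) = 0 := by
      refine Finset.sum_eq_zero fun v _ => Finset.sum_eq_zero fun w _ => ?_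
      rw [if_neg]
      rintro ⟨h1, h2, h3⟩
      exact X.bip v w h3 (by rw [h1, h2])
    rw [h0, if_pos rfl, sub_zero]
    have h1 := X.diag i
    unfold J4c.bd
    rw [h1]
    omega
  · rw [if_neg h, zero_sub, X.off i j h]
    congr 1
    rw [Finset.card_filter, ← Finset.univ_product_univ, Finset.sum_product]
    push_cast
    rfl

private theorem IBE_sum (X : Dt) (a : X.ι → ℕ) :
    (∑ i, ∑ j, X.b i j * (a i : ℤ) * (a j : ℤ))
      = 2 * (∑ i, (J4c.bd X.b i : ℤ) * (a i : ℤ) ^ 2)
        - ∑ v, ∑ w, if X.adj v w then (a (X.ob v) : ℤ) * a (X.ob w) else 0 := by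
  have h1 : ∀ i j, X.b i j * (a i : ℤ) * (a j : ℤ)
      = (if i = j then 2 * ((J4c.bd X.b i : ℤ) * (a i : ℤ) ^ 2) else 0)
        - ∑ v, ∑ w, if X.ob v = i ∧ X.ob w = j ∧ X.adj v w then
          (a (X.ob v) : ℤ) * a (X.ob w) else 0 := by
    intro i j
    rw [IBE_b X i j, sub_mul, sub_mul, Finset.sum_mul, Finset.sum_mul]
    congr 1
    · split_ifs with h
      · subst h
        ring
      · ring
    · refine Finset.sum_congr rfl fun v _ => ?_
      rw [Finset.sum_mul, Finset.sum_mul]
      refine Finset.sum_congr rfl fun w _ => ?_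
      split_ifs with h
      · rw [h.1, h.2.1]
        ring
      · ring
  simp only [h1, Finset.sum_sub_distrib]
  congr 1
  · rw [Finset.mul_sum]
    refine Finset.sum_congr rfl fun i _ => ?_
    rw [Finset.sum_ite_eq Finset.univ i]
    simp
  · have h2 : ∀ i : X.ι, (∑ j, ∑ v, ∑ w, if X.ob v = i ∧ X.ob w = j ∧ X.adj v w then
          (a (X.ob v) : ℤ) * a (X.ob w) else 0)
        = ∑ v, ∑ w, if X.ob v = i ∧ X.adj v w then (a (X.ob v) : ℤ) * a (X.ob w) else 0 := by
      intro i
      rw [Finset.sum_comm]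
      refine Finset.sum_congr rfl fun v _ => ?_
      rw [Finset.sum_comm]
      refine Finset.sum_congr rfl fun w _ => ?_
      rw [Finset.sum_eq_single (X.ob w)]
      · simp
      · intro j _ hj
        rw [if_neg]
        rintro ⟨_, h, _⟩
        exact hj h.symm
      · intro h
        exact absurd (Finset.mem_univ _) h
    simp only [h2]
    rw [Finset.sum_comm]
    refine Finset.sum_congr rfl fun v _ => ?_
    rw [Finset.sum_comm]
    refine Finset.sum_congr rfl fun w _ => ?_
    rw [Finset.sum_eq_single (X.ob v)]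
    · simp
    · intro j _ hj
      rw [if_neg]
      rintro ⟨h, _⟩
      exact hj h.symm
    · intro h
      exact absurd (Finset.mem_univ _) h

private theorem IBE_half (X : Dt) (a : X.ι → ℕ) :
    (∑ v, ∑ w, if X.adj v w then (a (X.ob v) : ℤ) * a (X.ob w) else 0)
      = 2 * ∑ v, ∑ w, if X.c (X.ob v) = true ∧ X.adj v w then
          (a (X.ob v) : ℤ) * a (X.ob w) else 0 := by
  have h1 : ∀ v w, (if X.adj v w then (a (X.ob v) : ℤ) * a (X.ob w) else 0)
      = (if X.c (X.ob v) = true ∧ X.adj v w then (a (X.ob v) : ℤ) * a (X.ob w) else 0)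
        + if X.c (X.ob w) = true ∧ X.adj w v then (a (X.ob w) : ℤ) * a (X.ob v) else 0 := by
    intro v w
    by_cases h : X.adj v w
    · have h' := X.hs v w h
      have hc := X.bip v w h
      by_cases hv : X.c (X.ob v) = true
      · have hw : ¬ X.c (X.ob w) = true := by
          rw [hv] at hc
          exact fun h3 => hc h3.symm
        rw [if_pos h, if_pos ⟨hv, h⟩, if_neg (fun h3 => hw h3.1), add_zero]
      · have hw : X.c (X.ob w) = true := by
          rw [Bool.not_eq_true] at hv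
          rw [hv] at hc
          cases h3 : X.c (X.ob w)
          · exact absurd h3.symm hc
          · rfl
        rw [if_pos h, if_neg (fun h3 => hv h3.1), if_pos ⟨hw, h'⟩, zero_add, mul_comm]
    · have h' : ¬ X.adj w v := fun h3 => h (X.hs w v h3)
      rw [if_neg h, if_neg (fun h3 => h h3.2), if_neg (fun h3 => h' h3.2), add_zero]
  simp only [h1, Finset.sum_add_distrib]
  rw [two_mul]
  congr 1
  rw [Finset.sum_comm]

theorem IBE_holds : S_IBE := by
  intro X a
  have h1 := IBE_sum X a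
  have h2 := IBE_half X a
  obtain ⟨E, hE⟩ : ∃ E : ℤ, E = ∑ v, ∑ w, if X.c (X.ob v) = true ∧ X.adj v w then
    (a (X.ob v) : ℤ) * a (X.ob w) else 0 := ⟨_, rfl⟩
  obtain ⟨D, hD⟩ : ∃ D : ℕ, D = ∑ i, J4c.bd X.b i * a i ^ 2 := ⟨_, rfl⟩
  have hD' : (∑ i, (J4c.bd X.b i : ℤ) * (a i : ℤ) ^ 2) = D := by
    rw [hD]
    push_cast
    rfl
  have hE0 : 0 ≤ E := by
    rw [hE]
    refine Finset.sum_nonneg fun v _ => Finset.sum_nonneg fun w _ => ?_
    split_ifs
    · positivity
    · exact le_rfl
  rw [← hE] at h2 ⊢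
  rw [h2, hD'] at h1
  have h3 : J4c.bq X.b a = ((D : ℤ) - E).toNat := by
    unfold J4c.bq
    rw [h1]
    congr 1
    omega
  have h4 : 0 ≤ (D : ℤ) - E := by
    by_cases ha : a = 0
    · subst ha
      have h5 : E = 0 := by
        rw [hE]
        refine Finset.sum_eq_zero fun v _ => Finset.sum_eq_zero fun w _ => ?_
        simp
      rw [h5]
      simp
    · have h5 := X.hb.bq_pos a ha
      rw [h3] at h5
      omega
  have h5 : J4c.be X.b a = D - J4c.bq X.b a := by
    unfold J4c.be
    rw [hD]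
  rw [h5, h3]
  omega

end Pool.Agent.Lib.MP_4c1f79_al
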