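import Pool.Agent.Lib.MP_4c1f79_al.StmI

/-!
# MP_4c1f79_al : piece IDD (helper27), the dimension vectors of `I(a)`, `P(a)`
-/

set_option autoImplicit false

namespace Pool.Agent.Lib.MP_4c1f79_al

open Finset Module

private theorem IDD_sumX (X : Dt) (a : X.ι → ℕ) (f : X.P → ℕ) :
    ∑ u : X.P, X.tX a u * f u =
      ∑ v, if X.c (X.ob v) = true then
        a (X.ob v) * f (v, ⟨1, by have := X.L2; omega⟩) else 0 := by
  have hL := X.L2
  rw [Fintype.sum_prod_type]
  refine Finset.sum_congr rfl fun v _ => ?_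
  rw [Finset.sum_eq_single (⟨1, by omega⟩ : Fin X.L)]
  · by_cases hc : X.c (X.ob v) = true
    · rw [if_pos hc]
      have h1 : X.tX a (v, ⟨1, by omega⟩) = a (X.ob v) := if_pos ⟨rfl, hc⟩
      rw [h1]
    · rw [if_neg hc]
      have h1 : X.tX a (v, ⟨1, by omega⟩) = 0 := if_neg fun h => hc h.2
      rw [h1, zero_mul]
  · intro k _ hk
    have h1 : X.tX a (v, k) = 0 := if_neg fun h => hk (Fin.ext h.1)
    rw [h1, zero_mul]
  · intro h
    exact absurd (Finset.mem_univ _) h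

private theorem IDD_sumY (X : Dt) (a : X.ι → ℕ) (f : X.P → ℕ) :
    ∑ u : X.P, X.tY a u * f u =
      ∑ v, if X.c (X.ob v) = false then
        a (X.ob v) * f (v, ⟨0, by have := X.L2; omega⟩) else 0 := by
  have hL := X.L2
  rw [Fintype.sum_prod_type]
  refine Finset.sum_congr rfl fun v _ => ?_
  rw [Finset.sum_eq_single (⟨0, by omega⟩ : Fin X.L)]
  · by_cases hc : X.c (X.ob v) = false
    · rw [if_pos hc]
      have h1 : X.tY a (v, ⟨0, by omega⟩) = a (X.ob v) := if_pos ⟨rfl, hc⟩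
      rw [h1]
    · rw [if_neg hc]
      have h1 : X.tY a (v, ⟨0, by omega⟩) = 0 := if_neg fun h => hc h.2
      rw [h1, zero_mul]
  · intro k _ hk
    have h1 : X.tY a (v, k) = 0 := if_neg fun h => hk (Fin.ext h.1)
    rw [h1, zero_mul]
  · intro h
    exact absurd (Finset.mem_univ _) h

/-- PIECE IDD -/
theorem IDD_holds (hIDM : S_IDM) (hRPE : S_RPE) (hDMS : S_DMS) (hEXM : S_EXM) (hCCD : S_CCD)
    (hINM : S_INM) : S_IDD := by
  intro X K _ D hr a
  have hK : Finite K := by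
    apply Nat.finite_of_card_ne_zero
    rw [D.card_K]
    have := D.q_gt
    positivity
  obtain ⟨-, -, hinv, -⟩ := hINM X
  have hadm : Adm X.M X.s D.r Set.univ := by
    rw [hr]
    exact X.adm
  choose Ru hRu using fun u : X.P => hRPE X.P X.M K Set.univ (ind {u}) fun p hp =>
    absurd (Set.mem_univ p) hp
  have key : ∀ R : Rp X.M K, R.Good Set.univ → ∀ p, R.dm p = ∑ u, R.sc u * (Ru u).dm p :=
    fun R hR p => hDMS X.P X.M K Set.univ R hR Ru (fun u _ => hRu u) p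
  have hX : ∀ N : FM X.M X.s K D, N.GT Set.univ (X.tX a) → ∀ p, N.toRp.dm p = X.dX a p := by
    intro N hN p
    rw [key N.toRp hN.1 p]
    have h1 : ∑ u, N.toRp.sc u * (Ru u).dm p = ∑ u, X.tX a u * (Ru u).dm p :=
      Finset.sum_congr rfl fun u _ => by rw [hN.2 u]
    rw [h1, IDD_sumX X a fun u => (Ru u).dm p]
    refine Finset.sum_congr rfl fun v _ => ?_
    rw [(hIDM X K (Ru (v, ⟨1, _⟩)) v (hRu _).1).2 (hRu _).2 p]
  have hY : ∀ N : FM X.M X.s K D, N.GT Set.univ (X.tY a) → ∀ p, N.toRp.dm p = X.dY a p := by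
    intro N hN p
    rw [key N.toRp hN.1 p]
    have h1 : ∑ u, N.toRp.sc u * (Ru u).dm p = ∑ u, X.tY a u * (Ru u).dm p :=
      Finset.sum_congr rfl fun u _ => by rw [hN.2 u]
    rw [h1, IDD_sumY X a fun u => (Ru u).dm p]
    refine Finset.sum_congr rfl fun v _ => ?_
    rw [(hIDM X K (Ru (v, ⟨0, _⟩)) v (hRu _).1).1 (hRu _).2 p]
  refine ⟨hX, hY, fun p => ?_, fun p => ?_⟩
  · obtain ⟨N, hN⟩ := hEXM X.P X.M X.s K D Set.univ hadm (X.tX a) (fun p => (hinv a p).1)
      fun p hp => absurd (Set.mem_univ p) hp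
    rw [← (hCCD X.P X.M X.s K D Set.univ hadm (X.tX a) N hN).2]
    exact hX N hN p
  · obtain ⟨N, hN⟩ := hEXM X.P X.M X.s K D Set.univ hadm (X.tY a) (fun p => (hinv a p).2.1)
      fun p hp => absurd (Set.mem_univ p) hp
    rw [← (hCCD X.P X.M X.s K D Set.univ hadm (X.tY a) N hN).2]
    exact hY N hN p

end Pool.Agent.Lib.MP_4c1f79_al
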