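import Pool.Agent.Lib.MP_4c1f79_al.StmI

/-!
# MP_4c1f79_al : piece IDM (dimension vectors of the modules with simple socle)
-/

set_option autoImplicit false

namespace Pool.Agent.Lib.MP_4c1f79_al

open Finset Module

private theorem IDM_sA (X : Dt) (D : X.P → ℕ) (w : X.V) (k : ℕ) (h : k + 1 < X.L) :
    sA X.M D (w, ⟨k + 1, h⟩) = ∑ u, if X.adj w u then D (u, ⟨k, by omega⟩) else 0 := by
  classical
  rw [sA, Fintype.sum_prod_type]
  refine Finset.sum_congr rfl fun u _ => ?_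
  by_cases hu : X.adj w u
  · rw [if_pos hu, Finset.sum_eq_single (⟨k, by omega⟩ : Fin X.L)]
    · rw [if_pos]
      exact ⟨hu, rfl⟩
    · intro j _ hj
      rw [if_neg]
      rintro ⟨_, h2⟩
      apply hj
      apply Fin.ext
      have h3 : k + 1 = (j : ℕ) + 1 := h2
      show (j : ℕ) = k
      omega
    · intro h1
      exact absurd (Finset.mem_univ _) h1
  · rw [if_neg hu]
    apply Finset.sum_eq_zero
    intro j _
    rw [if_neg]
    rintro ⟨h1, _⟩
    exact hu h1

private theorem IDM_sT (X : Dt) (D : X.P → ℕ) (w : X.V) (k : ℕ) (h : k + 2 < X.L) :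
    sT X.M D (w, ⟨k + 2, h⟩) = D (w, ⟨k, by omega⟩) := by
  classical
  rw [sT, Finset.sum_eq_single ((w, ⟨k, by omega⟩) : X.P)]
  · rw [if_pos]
    exact ⟨rfl, rfl⟩
  · rintro ⟨u, j⟩ _ hj
    rw [if_neg]
    rintro ⟨h1, h2⟩
    apply hj
    have h3 : k + 2 = (j : ℕ) + 2 := h2
    have h4 : w = u := h1
    rw [h4]
    refine Prod.ext rfl (Fin.ext ?_)
    show (j : ℕ) = k
    omega
  · intro h1
    exact absurd (Finset.mem_univ _) h1

private theorem IDM_sT1 (X : Dt) (D : X.P → ℕ) (w : X.V) (k : Fin X.L) (h : (k : ℕ) < 2) :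
    sT X.M D (w, k) = 0 := by
  classical
  rw [sT]
  apply Finset.sum_eq_zero
  rintro ⟨u, j⟩ _
  rw [if_neg]
  rintro ⟨_, h2⟩
  have h3 : (k : ℕ) = (j : ℕ) + 2 := h2
  omega

private theorem IDM_noCut (X : Dt) : NoCut X.M Set.univ (X.L - 1) := by
  intro r _ hr
  have hr' : (r.2 : ℕ) + 2 ≤ X.L - 1 := hr
  have hL := X.L2
  exact ⟨(r.1, ⟨(r.2 : ℕ) + 2, by omega⟩), Set.mem_univ _, ⟨rfl, rfl⟩⟩

theorem IDM_holds (hTAB : S_TAB) : S_IDM := by
  classical
  intro X K _ R v hR
  have hL := X.L2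
  constructor
  · intro hsc p
    refine hTAB X.P X.M K R Set.univ (X.L - 1) (v, ⟨0, by omega⟩) hR hsc (Set.mem_univ _)
      (IDM_noCut X) (X.D0 v) ?_ ?_ ?_ ?_ p ?_
    · show X.T v v 0 = 1
      rw [X.T0, if_pos rfl]
    · rintro ⟨w, k⟩ hp hlv
      have h1 : (k : ℕ) ≤ 0 := hlv
      have h2 : (k : ℕ) = 0 := by omega
      show X.T v w (k : ℕ) = 0
      rw [h2, X.T0, if_neg]
      rintro rfl
      exact hp (Prod.ext rfl (Fin.ext h2))
    · intro p hp
      exact absurd (Set.mem_univ p) hp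
    · rintro ⟨w, ⟨k, hk⟩⟩ _ hlv _
      left
      have h1 : 0 < k := hlv
      obtain ⟨j, rfl⟩ : ∃ j, k = j + 1 := ⟨k - 1, by omega⟩
      rw [IDM_sA]
      cases j with
      | zero =>
        rw [IDM_sT1 X _ w _ (by show 0 + 1 < 2; omega)]
        show X.T v w 1 + 0 = ∑ u, if X.adj w u then X.T v u 0 else 0
        rw [X.T1, add_zero, Finset.sum_eq_single v]
        · rw [X.T0, if_pos rfl]
        · intro u _ hu
          rw [X.T0, if_neg hu, ite_self]
        · intro h2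
          exact absurd (Finset.mem_univ _) h2
      | succ j =>
        rw [IDM_sT X _ w j hk]
        exact X.tre v w j hk
    · show (p.2 : ℕ) ≤ X.L - 1
      have := p.2.isLt
      omega
  · intro hsc p
    refine hTAB X.P X.M K R Set.univ (X.L - 1) (v, ⟨1, by omega⟩) hR hsc (Set.mem_univ _)
      (IDM_noCut X) (X.D1 v) ?_ ?_ ?_ ?_ p ?_
    · show (if (1 : ℕ) = 0 then 0 else X.T v v (1 - 1)) = 1
      rw [if_neg one_ne_zero, Nat.sub_self, X.T0, if_pos rfl]
    · rintro ⟨w, k⟩ hp hlv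
      have h1 : (k : ℕ) ≤ 1 := hlv
      show (if (k : ℕ) = 0 then 0 else X.T v w ((k : ℕ) - 1)) = 0
      by_cases h2 : (k : ℕ) = 0
      · rw [if_pos h2]
      · have h3 : (k : ℕ) = 1 := by omega
        rw [if_neg h2, h3, Nat.sub_self, X.T0, if_neg]
        rintro rfl
        exact hp (Prod.ext rfl (Fin.ext h3))
    · intro p hp
      exact absurd (Set.mem_univ p) hp
    · rintro ⟨w, ⟨k, hk⟩⟩ _ hlv _
      left
      have h1 : 1 < k := hlv
      obtain ⟨j, rfl⟩ : ∃ j, k = j + 2 := ⟨k - 2, by omega⟩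
      rw [IDM_sA, IDM_sT X _ w j hk]
      cases j with
      | zero =>
        show X.T v w 1 + 0 = ∑ u, if X.adj w u then X.T v u 0 else 0
        rw [X.T1, add_zero, Finset.sum_eq_single v]
        · rw [X.T0, if_pos rfl]
        · intro u _ hu
          rw [X.T0, if_neg hu, ite_self]
        · intro h2
          exact absurd (Finset.mem_univ _) h2
      | succ j => exact X.tre v w j (by omega)
    · show (p.2 : ℕ) ≤ X.L - 1
      have := p.2.isLt
      omega

end Pool.Agent.Lib.MP_4c1f79_al
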