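import Pool.Agent.Lib.MP_4c1f79_al.StmI

/-!
# MP_4c1f79_al : the Euler form with the vectors `D0`, `D1` (S_IEU)
-/

set_option autoImplicit false

namespace Pool.Agent.Lib.MP_4c1f79_al

open Finset Module

open Classical in
private theorem IEU_l {P : Type} [Fintype P] (M : Mesh P) (x y : P → ℤ) :
    eul M x y = ∑ p, x p * (y p - (∑ q, if M.Ar p q then y q else 0)
      + ∑ r, if M.Tau p r then y r else 0) := by
  unfold eul
  rw [← Finset.sum_sub_distrib, ← Finset.sum_add_distrib]
  refine Finset.sum_congr rfl fun p _ => ?_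
  have h1 : (∑ q, if M.Ar p q then x p * y q else 0) = x p * ∑ q, if M.Ar p q then y q else 0 := by
    rw [Finset.mul_sum]
    refine Finset.sum_congr rfl fun q _ => ?_
    by_cases h : M.Ar p q
    · rw [if_pos h, if_pos h]
    · rw [if_neg h, if_neg h, mul_zero]
  have h2 : (∑ q, if M.Tau p q then x p * y q else 0)
      = x p * ∑ q, if M.Tau p q then y q else 0 := by
    rw [Finset.mul_sum]
    refine Finset.sum_congr rfl fun q _ => ?_
    by_cases h : M.Tau p q
    · rw [if_pos h, if_pos h]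
    · rw [if_neg h, if_neg h, mul_zero]
  rw [h1, h2]
  ring

open Classical in
private theorem IEU_r {P : Type} [Fintype P] (M : Mesh P) (x y : P → ℤ) :
    eul M x y = ∑ q, y q * (x q - (∑ p, if M.Ar p q then x p else 0)
      + ∑ p, if M.Tau p q then x p else 0) := by
  unfold eul
  have e1 : (∑ p, ∑ q, if M.Ar p q then x p * y q else 0)
      = ∑ q, ∑ p, if M.Ar p q then x p * y q else 0 := Finset.sum_comm
  have e2 : (∑ p, ∑ q, if M.Tau p q then x p * y q else 0)
      = ∑ q, ∑ p, if M.Tau p q then x p * y q else 0 := Finset.sum_comm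
  rw [e1, e2, ← Finset.sum_sub_distrib, ← Finset.sum_add_distrib]
  refine Finset.sum_congr rfl fun q _ => ?_
  have h1 : (∑ p, if M.Ar p q then x p * y q else 0) = y q * ∑ p, if M.Ar p q then x p else 0 := by
    rw [Finset.mul_sum]
    refine Finset.sum_congr rfl fun p _ => ?_
    by_cases h : M.Ar p q
    · rw [if_pos h, if_pos h, mul_comm]
    · rw [if_neg h, if_neg h, mul_zero]
  have h2 : (∑ p, if M.Tau p q then x p * y q else 0)
      = y q * ∑ p, if M.Tau p q then x p else 0 := by
    rw [Finset.mul_sum]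
    refine Finset.sum_congr rfl fun p _ => ?_
    by_cases h : M.Tau p q
    · rw [if_pos h, if_pos h, mul_comm]
    · rw [if_neg h, if_neg h, mul_zero]
  rw [h1, h2]
  ring

section gridsums

variable {V : Type} [Fintype V] (adj : V → V → Prop) (hs : ∀ v w, adj v w → adj w v) (L : ℕ)
  (f : V × Fin L → ℤ)

open Classical in
private theorem IEU_ar0 (w : V) (k : Fin L) (hk : (k : ℕ) = 0) :
    (∑ q, if (grid adj hs L).Ar (w, k) q then f q else 0) = 0 := by
  refine Finset.sum_eq_zero fun q _ => if_neg fun h => ?_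
  have h2 : (k : ℕ) = (q.2 : ℕ) + 1 := h.2
  omega

open Classical in
private theorem IEU_ar1 [DecidableRel adj] (w : V) (k : Fin L) (j : Fin L) (hk : (k : ℕ) = j + 1) :
    (∑ q, if (grid adj hs L).Ar (w, k) q then f q else 0)
      = ∑ u, if adj w u then f (u, j) else 0 := by
  rw [Fintype.sum_prod_type]
  refine Finset.sum_congr rfl fun u _ => ?_
  rw [Finset.sum_eq_single j]
  · by_cases h : adj w u
    · rw [if_pos h]
      exact if_pos ⟨h, hk⟩
    · rw [if_neg h]
      exact if_neg fun h1 => h h1.1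
  · intro j' _ hj'
    refine if_neg fun h1 => hj' ?_
    have h2 : (k : ℕ) = (j' : ℕ) + 1 := h1.2
    exact Fin.ext (by omega)
  · intro h
    exact absurd (Finset.mem_univ _) h

open Classical in
private theorem IEU_ta0 (w : V) (k : Fin L) (hk : (k : ℕ) < 2) :
    (∑ q, if (grid adj hs L).Tau (w, k) q then f q else 0) = 0 := by
  refine Finset.sum_eq_zero fun q _ => if_neg fun h => ?_
  have h2 : (k : ℕ) = (q.2 : ℕ) + 2 := h.2
  omega

open Classical in
private theorem IEU_ta1 (w : V) (k : Fin L) (j : Fin L) (hk : (k : ℕ) = j + 2) :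
    (∑ q, if (grid adj hs L).Tau (w, k) q then f q else 0) = f (w, j) := by
  rw [Finset.sum_eq_single (w, j)]
  · exact if_pos ⟨rfl, hk⟩
  · rintro ⟨u, j'⟩ _ hj'
    refine if_neg fun h1 => hj' ?_
    have h3 : w = u := h1.1
    have h2 : (k : ℕ) = (j' : ℕ) + 2 := h1.2
    rw [← h3]
    exact congrArg (Prod.mk w) (Fin.ext (by omega))
  · intro h
    exact absurd (Finset.mem_univ _) h

open Classical in
private theorem IEU_br0 (w : V) (k : Fin L) (hk : (k : ℕ) + 1 = L) :
    (∑ p, if (grid adj hs L).Ar p (w, k) then f p else 0) = 0 := by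
  refine Finset.sum_eq_zero fun q _ => if_neg fun h => ?_
  have h2 : (q.2 : ℕ) = (k : ℕ) + 1 := h.2
  have h3 := q.2.2
  omega

open Classical in
private theorem IEU_br1 [DecidableRel adj] (w : V) (k : Fin L) (j : Fin L) (hk : (j : ℕ) = k + 1) :
    (∑ p, if (grid adj hs L).Ar p (w, k) then f p else 0)
      = ∑ u, if adj w u then f (u, j) else 0 := by
  rw [Fintype.sum_prod_type]
  refine Finset.sum_congr rfl fun u _ => ?_
  rw [Finset.sum_eq_single j]
  · by_cases h : adj w u
    · rw [if_pos h]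
      exact if_pos ⟨hs _ _ h, hk⟩
    · rw [if_neg h]
      exact if_neg fun h1 => h (hs _ _ h1.1)
  · intro j' _ hj'
    refine if_neg fun h1 => hj' ?_
    have h2 : (j' : ℕ) = (k : ℕ) + 1 := h1.2
    exact Fin.ext (by omega)
  · intro h
    exact absurd (Finset.mem_univ _) h

open Classical in
private theorem IEU_tb0 (w : V) (k : Fin L) (hk : L ≤ (k : ℕ) + 2) :
    (∑ p, if (grid adj hs L).Tau p (w, k) then f p else 0) = 0 := by
  refine Finset.sum_eq_zero fun q _ => if_neg fun h => ?_
  have h2 : (q.2 : ℕ) = (k : ℕ) + 2 := h.2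
  have h3 := q.2.2
  omega

open Classical in
private theorem IEU_tb1 (w : V) (k : Fin L) (j : Fin L) (hk : (j : ℕ) = k + 2) :
    (∑ p, if (grid adj hs L).Tau p (w, k) then f p else 0) = f (w, j) := by
  rw [Finset.sum_eq_single (w, j)]
  · exact if_pos ⟨rfl, hk⟩
  · rintro ⟨u, j'⟩ _ hj'
    refine if_neg fun h1 => hj' ?_
    have h3 : u = w := h1.1
    have h2 : (j' : ℕ) = (k : ℕ) + 2 := h1.2
    rw [h3]
    exact congrArg (Prod.mk w) (Fin.ext (by omega))
  · intro h
    exact absurd (Finset.mem_univ _) h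

end gridsums

private theorem IEU_cast (X : Dt) (w : X.V) (g : X.V → ℕ) :
    ((∑ u, if X.adj w u then g u else 0 : ℕ) : ℤ) = ∑ u, if X.adj w u then (g u : ℤ) else 0 := by
  rw [Nat.cast_sum]
  refine Finset.sum_congr rfl fun u _ => ?_
  by_cases h : X.adj w u
  · rw [if_pos h, if_pos h]
  · rw [if_neg h, if_neg h]
    rfl

theorem IEU_holds : S_IEU := by
  intro X v x
  classical
  have hL := X.L2
  constructor
  · rw [IEU_l]
    rw [Finset.sum_eq_single ((v, ⟨1, by omega⟩) : X.V × Fin X.L)]
    · have h1 : (∑ q, if X.M.Ar (v, ⟨1, by omega⟩) q then ((X.D1 v q : ℕ) : ℤ) else 0) = 0 := by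
        have h := IEU_ar1 X.adj X.hs X.L (fun q => ((X.D1 v q : ℕ) : ℤ)) v ⟨1, by omega⟩
          ⟨0, by omega⟩ rfl
        refine h.trans ?_
        refine Finset.sum_eq_zero fun u _ => ?_
        by_cases hu : X.adj v u
        · rw [if_pos hu]
          rfl
        · rw [if_neg hu]
      have h2 : (∑ q, if X.M.Tau (v, ⟨1, by omega⟩) q then ((X.D1 v q : ℕ) : ℤ) else 0) = 0 :=
        IEU_ta0 X.adj X.hs X.L (fun q => ((X.D1 v q : ℕ) : ℤ)) v ⟨1, by omega⟩ (by
          show 1 < 2
          omega)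
      rw [h1, h2]
      have h3 : X.D1 v (v, ⟨1, by omega⟩) = 1 := by
        show (if (1 : ℕ) = 0 then 0 else X.T v v (1 - 1)) = 1
        rw [if_neg (by omega), X.T0, if_pos rfl]
      rw [h3]
      push_cast
      ring
    · rintro ⟨w, k⟩ _ hwk
      have h0 : ((X.D1 v (w, k) : ℕ) : ℤ) - (∑ q, if X.M.Ar (w, k) q then
          ((X.D1 v q : ℕ) : ℤ) else 0) + (∑ q, if X.M.Tau (w, k) q then
          ((X.D1 v q : ℕ) : ℤ) else 0) = 0 := by
        obtain ⟨k, hk⟩ := k
        rcases k with _ | _ | _ | k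
        · have h1 := IEU_ar0 X.adj X.hs X.L (fun q => ((X.D1 v q : ℕ) : ℤ)) w ⟨0, hk⟩ rfl
          have h2 := IEU_ta0 X.adj X.hs X.L (fun q => ((X.D1 v q : ℕ) : ℤ)) w ⟨0, hk⟩ (by
            show 0 < 2
            omega)
          refine (congrArg₂ (· + ·) (congrArg₂ (· - ·) rfl h1) h2).trans ?_
          show ((0 : ℕ) : ℤ) - 0 + 0 = 0
          norm_num
        · have h1 := IEU_ar1 X.adj X.hs X.L (fun q => ((X.D1 v q : ℕ) : ℤ)) w ⟨0 + 1, hk⟩
            ⟨0, by omega⟩ rfl
          have h2 := IEU_ta0 X.adj X.hs X.L (fun q => ((X.D1 v q : ℕ) : ℤ)) w ⟨0 + 1, hk⟩ (by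
            show 0 + 1 < 2
            omega)
          refine (congrArg₂ (· + ·) (congrArg₂ (· - ·) rfl h1) h2).trans ?_
          have h3 : (∑ u, if X.adj w u then ((X.D1 v (u, ⟨0, by omega⟩) : ℕ) : ℤ) else 0) = 0 := by
            refine Finset.sum_eq_zero fun u _ => ?_
            by_cases hu : X.adj w u
            · rw [if_pos hu]
              rfl
            · rw [if_neg hu]
          have h4 : X.D1 v (w, ⟨0 + 1, hk⟩) = 0 := by
            show (if (0 + 1 : ℕ) = 0 then 0 else X.T v w (0 + 1 - 1)) = 0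
            rw [if_neg (by omega)]
            show X.T v w 0 = 0
            rw [X.T0, if_neg]
            rintro rfl
            exact hwk rfl
          rw [h4]
          refine (congrArg₂ (· + ·) (congrArg₂ (· - ·) rfl h3) rfl).trans ?_
          norm_num
        · have h1 := IEU_ar1 X.adj X.hs X.L (fun q => ((X.D1 v q : ℕ) : ℤ)) w ⟨0 + 1 + 1, hk⟩
            ⟨1, by omega⟩ rfl
          have h2 := IEU_ta1 X.adj X.hs X.L (fun q => ((X.D1 v q : ℕ) : ℤ)) w ⟨0 + 1 + 1, hk⟩
            ⟨0, by omega⟩ rfl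
          refine (congrArg₂ (· + ·) (congrArg₂ (· - ·) rfl h1) h2).trans ?_
          have h3 : (∑ u, if X.adj w u then ((X.D1 v (u, ⟨1, by omega⟩) : ℕ) : ℤ) else 0)
              = ((X.T v w 1 : ℕ) : ℤ) := by
            rw [Finset.sum_eq_single v]
            · have h5 : X.D1 v (v, ⟨1, by omega⟩) = 1 := by
                show (if (1 : ℕ) = 0 then 0 else X.T v v (1 - 1)) = 1
                rw [if_neg (by omega), X.T0, if_pos rfl]
              rw [h5, X.T1]
              by_cases hu : X.adj w v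
              · rw [if_pos hu, if_pos hu]
              · rw [if_neg hu, if_neg hu]
                rfl
            · intro u _ hu
              have h5 : X.D1 v (u, ⟨1, by omega⟩) = 0 := by
                show (if (1 : ℕ) = 0 then 0 else X.T v u (1 - 1)) = 0
                rw [if_neg (by omega), X.T0, if_neg hu]
              rw [h5]
              by_cases hu : X.adj w u
              · rw [if_pos hu]
                rfl
              · rw [if_neg hu]
            · intro h
              exact absurd (Finset.mem_univ _) h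
          have h4 : X.D1 v (w, ⟨0 + 1 + 1, hk⟩) = X.T v w 1 := by
            show (if (0 + 1 + 1 : ℕ) = 0 then 0 else X.T v w (0 + 1 + 1 - 1)) = X.T v w 1
            rw [if_neg (by omega)]
          have h6 : X.D1 v (w, ⟨0, by omega⟩) = 0 := rfl
          rw [h4]
          refine (congrArg₂ (· + ·) (congrArg₂ (· - ·) rfl h3) (congrArg _ h6)).trans ?_
          push_cast
          ring
        · have h1 := IEU_ar1 X.adj X.hs X.L (fun q => ((X.D1 v q : ℕ) : ℤ)) w ⟨k + 1 + 1 + 1, hk⟩
            ⟨k + 2, by omega⟩ rfl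
          have h2 := IEU_ta1 X.adj X.hs X.L (fun q => ((X.D1 v q : ℕ) : ℤ)) w ⟨k + 1 + 1 + 1, hk⟩
            ⟨k + 1, by omega⟩ rfl
          refine (congrArg₂ (· + ·) (congrArg₂ (· - ·) rfl h1) h2).trans ?_
          have h3 : (∑ u, if X.adj w u then ((X.D1 v (u, ⟨k + 2, by omega⟩) : ℕ) : ℤ) else 0)
              = ((X.T v w (k + 2) : ℕ) : ℤ) + ((X.T v w k : ℕ) : ℤ) := by
            have h7 := congrArg (Nat.cast : ℕ → ℤ) (X.tre v w k (by omega))
            rw [IEU_cast, Nat.cast_add] at h7
            rw [h7]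
            refine Finset.sum_congr rfl fun u _ => ?_
            by_cases hu : X.adj w u
            · rw [if_pos hu, if_pos hu]
              rfl
            · rw [if_neg hu, if_neg hu]
          have h4 : X.D1 v (w, ⟨k + 1 + 1 + 1, hk⟩) = X.T v w (k + 2) := rfl
          have h6 : X.D1 v (w, ⟨k + 1, by omega⟩) = X.T v w k := rfl
          rw [h4]
          refine (congrArg₂ (· + ·) (congrArg₂ (· - ·) rfl h3) (congrArg _ h6)).trans ?_
          ring
      rw [h0, mul_zero]
    · intro h
      exact absurd (Finset.mem_univ _) h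
  · rw [IEU_r]
    have key : ∀ w (k : Fin X.L), ((X.D0 v (w, k) : ℕ) : ℤ) - (∑ p, if X.M.Ar p (w, k) then
        ((X.D0 v p : ℕ) : ℤ) else 0) + (∑ p, if X.M.Tau p (w, k) then
        ((X.D0 v p : ℕ) : ℤ) else 0) = if w = X.st v ∧ (k : ℕ) = X.L - 2 then 1 else 0 := by
      intro w k
      have hkL := k.2
      have h4 : X.D0 v (w, k) = X.T v w k := rfl
      rcases Nat.lt_trichotomy ((k : ℕ) + 2) X.L with h | h | h
      · have h1 := IEU_br1 X.adj X.hs X.L (fun q => ((X.D0 v q : ℕ) : ℤ)) w k
          ⟨k + 1, by omega⟩ rfl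
        have h2 := IEU_tb1 X.adj X.hs X.L (fun q => ((X.D0 v q : ℕ) : ℤ)) w k
          ⟨k + 2, h⟩ rfl
        refine (congrArg₂ (· + ·) (congrArg₂ (· - ·) rfl h1) h2).trans ?_
        rw [if_neg (by omega)]
        have h3 : (∑ u, if X.adj w u then ((X.D0 v (u, ⟨k + 1, by omega⟩) : ℕ) : ℤ) else 0)
            = ((X.T v w (k + 2) : ℕ) : ℤ) + ((X.T v w k : ℕ) : ℤ) := by
          have h7 := congrArg (Nat.cast : ℕ → ℤ) (X.tre v w k h)
          rw [IEU_cast, Nat.cast_add] at h7
          rw [h7]
          refine Finset.sum_congr rfl fun u _ => ?_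
          by_cases hu : X.adj w u
          · rw [if_pos hu, if_pos hu]
            rfl
          · rw [if_neg hu, if_neg hu]
        have h6 : X.D0 v (w, ⟨k + 2, h⟩) = X.T v w (k + 2) := rfl
        rw [h4]
        refine (congrArg₂ (· + ·) (congrArg₂ (· - ·) rfl h3) (congrArg _ h6)).trans ?_
        ring
      · have h1 := IEU_br1 X.adj X.hs X.L (fun q => ((X.D0 v q : ℕ) : ℤ)) w k
          ⟨k + 1, by omega⟩ rfl
        have h2 := IEU_tb0 X.adj X.hs X.L (fun q => ((X.D0 v q : ℕ) : ℤ)) w k (by omega)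
        refine (congrArg₂ (· + ·) (congrArg₂ (· - ·) rfl h1) h2).trans ?_
        have h3 : (∑ u, if X.adj w u then ((X.D0 v (u, ⟨k + 1, by omega⟩) : ℕ) : ℤ) else 0)
            = 0 := by
          refine Finset.sum_eq_zero fun u _ => ?_
          have h8 : X.D0 v (u, ⟨k + 1, by omega⟩) = 0 := by
            show X.T v u ((k : ℕ) + 1) = 0
            have h9 : (k : ℕ) + 1 = X.L - 1 := by omega
            rw [h9, X.bot]
          rw [h8]
          by_cases hu : X.adj w u
          · rw [if_pos hu]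
            rfl
          · rw [if_neg hu]
        have h5 : (k : ℕ) = X.L - 2 := by omega
        rw [h4]
        refine (congrArg₂ (· + ·) (congrArg₂ (· - ·) rfl h3) rfl).trans ?_
        rw [h5, X.top]
        by_cases hw : w = X.st v
        · rw [if_pos hw, if_pos ⟨hw, rfl⟩]
          norm_num
        · rw [if_neg hw, if_neg (fun h => hw h.1)]
          norm_num
      · have h5 : (k : ℕ) + 1 = X.L := by omega
        have h1 := IEU_br0 X.adj X.hs X.L (fun q => ((X.D0 v q : ℕ) : ℤ)) w k h5
        have h2 := IEU_tb0 X.adj X.hs X.L (fun q => ((X.D0 v q : ℕ) : ℤ)) w k (by omega)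
        refine (congrArg₂ (· + ·) (congrArg₂ (· - ·) rfl h1) h2).trans ?_
        rw [if_neg (by omega), h4]
        have h6 : (k : ℕ) = X.L - 1 := by omega
        rw [h6, X.bot]
        norm_num
    rw [Finset.sum_eq_single ((X.st v, ⟨X.L - 2, by omega⟩) : X.V × Fin X.L)]
    · rw [key, if_pos ⟨rfl, rfl⟩, mul_one]
    · rintro ⟨w, k⟩ _ hwk
      rw [key, if_neg, mul_zero]
      rintro ⟨h1, h2⟩
      apply hwk
      rw [h1]
      exact congrArg (Prod.mk (X.st v)) (Fin.ext h2)
    · intro h
      exact absurd (Finset.mem_univ _) h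

end Pool.Agent.Lib.MP_4c1f79_al
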