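import Pool.Agent.Lib.MP_4c1f79_al.StmI

/-!
# MP_4c1f79_al : piece IEX (the Euler form with the vectors dX, dY)
-/

set_option autoImplicit false

namespace Pool.Agent.Lib.MP_4c1f79_al

open Finset Module

open Classical in
private noncomputable def IEX_k {P : Type} [Fintype P] (M : Mesh P) (p q : P) : ℤ :=
  (if p = q then 1 else 0) - (if M.Ar p q then 1 else 0) + (if M.Tau p q then 1 else 0)

private theorem IEX_eq {P : Type} [Fintype P] (M : Mesh P) (x y : P → ℤ) :
    eul M x y = ∑ p, ∑ q, IEX_k M p q * (x p * y q) := by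
  classical
  unfold eul
  rw [← sum_sub_distrib, ← sum_add_distrib]
  refine sum_congr rfl (fun p _ => ?_)
  have h1 : x p * y p = ∑ q, (if p = q then x p * y q else 0) := by
    rw [sum_ite_eq]
    simp
  rw [h1, ← sum_sub_distrib, ← sum_add_distrib]
  refine sum_congr rfl (fun q _ => ?_)
  unfold IEX_k
  split_ifs <;> ring

private theorem IEX_sumR {P : Type} [Fintype P] (M : Mesh P) {V : Type} [Fintype V] (x : P → ℤ)
    (y : V → P → ℤ) :
    eul M x (fun p => ∑ v, y v p) = ∑ v, eul M x (y v) := by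
  simp only [IEX_eq, mul_sum]
  rw [sum_congr rfl (fun p _ => sum_comm), sum_comm]

private theorem IEX_sumL {P : Type} [Fintype P] (M : Mesh P) {V : Type} [Fintype V] (x : P → ℤ)
    (y : V → P → ℤ) :
    eul M (fun p => ∑ v, y v p) x = ∑ v, eul M (y v) x := by
  simp only [IEX_eq, mul_sum, sum_mul]
  rw [sum_congr rfl (fun p _ => sum_comm), sum_comm]

private theorem IEX_smulR {P : Type} [Fintype P] (M : Mesh P) (x y : P → ℤ) (c : ℤ) :
    eul M x (fun p => c * y p) = c * eul M x y := by
  simp only [IEX_eq, mul_sum]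
  exact sum_congr rfl (fun p _ => sum_congr rfl (fun q _ => by ring))

private theorem IEX_smulL {P : Type} [Fintype P] (M : Mesh P) (x y : P → ℤ) (c : ℤ) :
    eul M (fun p => c * y p) x = c * eul M y x := by
  simp only [IEX_eq, mul_sum]
  exact sum_congr rfl (fun p _ => sum_congr rfl (fun q _ => by ring))

private theorem IEX_inv (X : Dt) (x : X.P → ℤ) (hx : ∀ p, x (X.s p) = x p) (k : Fin X.L) :
    ∀ (m : ℕ) (v : X.V), x ((⇑X.σ)^[m] v, k) = x (v, k) := by
  intro m
  induction m with
  | zero => intro v; rfl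
  | succ m ih =>
    intro v
    rw [Function.iterate_succ_apply']
    have h1 : X.s ((⇑X.σ)^[m] v, k) = (X.σ ((⇑X.σ)^[m] v), k) := rfl
    rw [← h1, hx, ih]

private theorem IEX_rep (X : Dt) (x : X.P → ℤ) (hx : ∀ p, x (X.s p) = x p) (k : Fin X.L)
    (v : X.V) : x (v, k) = x (X.rep (X.ob v), k) := by
  obtain ⟨m, hm⟩ := (X.orb v (X.rep (X.ob v))).1 (X.ob_rep _).symm
  rw [hm, IEX_inv X x hx]

private theorem IEX_st (X : Dt) : ∀ (m : ℕ) (v : X.V),
    X.st ((⇑X.σ)^[m] v) = (⇑X.σ)^[m] (X.st v) := by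
  intro m
  induction m with
  | zero => intro v; rfl
  | succ m ih =>
    intro v
    rw [Function.iterate_succ_apply', Function.iterate_succ_apply', X.st_σ, ih]

private theorem IEX_rep2 (X : Dt) (x : X.P → ℤ) (hx : ∀ p, x (X.s p) = x p) (k : Fin X.L)
    (v : X.V) : x (X.st v, k) = x (X.st (X.rep (X.ob v)), k) := by
  obtain ⟨m, hm⟩ := (X.orb v (X.rep (X.ob v))).1 (X.ob_rep _).symm
  rw [hm, IEX_st, IEX_inv X x hx]

private theorem IEX_fib (X : Dt) (f : X.ι → ℤ) :
    ∑ v, f (X.ob v) = ∑ i, ((univ.filter fun v => X.ob v = i).card : ℤ) * f i := by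
  rw [← sum_fiberwise univ X.ob]
  refine sum_congr rfl (fun i _ => ?_)
  rw [sum_congr rfl (fun v hv => by rw [(mem_filter.1 hv).2] :
    ∀ v ∈ univ.filter (fun v => X.ob v = i), f (X.ob v) = f i)]
  rw [sum_const, nsmul_eq_mul]

theorem IEX_holds (hIEU : S_IEU) (hINM : S_INM) : S_IEX := by
  intro X a x hx
  have hbd := (hINM X).2.1
  constructor
  · have h1 : (fun p => (X.dX a p : ℤ)) = fun p => ∑ v, (if X.c (X.ob v) = true
        then (a (X.ob v) : ℤ) else 0) * (X.D1 v p : ℤ) := by
      funext p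
      unfold Dt.dX
      push_cast
      refine sum_congr rfl (fun v _ => ?_)
      split_ifs
      · rfl
      · rw [zero_mul]
    rw [h1, IEX_sumR]
    have h2 : ∀ v : X.V, eul X.M x (fun p => (if X.c (X.ob v) = true
        then (a (X.ob v) : ℤ) else 0) * (X.D1 v p : ℤ))
        = if X.c (X.ob v) = true then (a (X.ob v) : ℤ) * x (X.pX (X.ob v)) else 0 := by
      intro v
      rw [IEX_smulR, (hIEU X v x).1, IEX_rep X x hx]
      split_ifs
      · rfl
      · rw [zero_mul]
    rw [sum_congr rfl (fun v _ => h2 v), IEX_fib X (fun i => if X.c i = true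
      then (a i : ℤ) * x (X.pX i) else 0)]
    refine sum_congr rfl (fun i _ => ?_)
    rw [hbd]
    split_ifs
    · ring
    · rw [mul_zero]
  · have h1 : (fun p => (X.dY a p : ℤ)) = fun p => ∑ v, (if X.c (X.ob v) = false
        then (a (X.ob v) : ℤ) else 0) * (X.D0 v p : ℤ) := by
      funext p
      unfold Dt.dY
      push_cast
      refine sum_congr rfl (fun v _ => ?_)
      split_ifs
      · rfl
      · rw [zero_mul]
    rw [h1, IEX_sumL]
    have h2 : ∀ v : X.V, eul X.M (fun p => (if X.c (X.ob v) = false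
        then (a (X.ob v) : ℤ) else 0) * (X.D0 v p : ℤ)) x
        = if X.c (X.ob v) = false then (a (X.ob v) : ℤ) * x (X.pY (X.ob v)) else 0 := by
      intro v
      rw [IEX_smulL, (hIEU X v x).2, IEX_rep2 X x hx]
      split_ifs
      · rfl
      · rw [zero_mul]
    rw [sum_congr rfl (fun v _ => h2 v), IEX_fib X (fun i => if X.c i = false
      then (a i : ℤ) * x (X.pY i) else 0)]
    refine sum_congr rfl (fun i _ => ?_)
    rw [hbd]
    split_ifs
    · ring
    · rw [mul_zero]

end Pool.Agent.Lib.MP_4c1f79_al
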