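import Pool.Agent.Lib.MP_4c1f79_al.StmI

/-!
# [INM] numerical facts on the vectors `tX`, `tY`, `dX`, `dY`
-/

set_option autoImplicit false

namespace Pool.Agent.Lib.MP_4c1f79_al

open Finset Module

private theorem INM_ob (X : Dt) (v : X.V) : X.ob (X.σ v) = X.ob v :=
  ((X.orb v (X.σ v)).mpr ⟨1, rfl⟩).symm

private theorem INM_s (X : Dt) (p : X.P) : X.s p = (X.σ p.1, p.2) := rfl

private theorem INM_T (X : Dt) : ∀ k, k < X.L → ∀ v w,
    X.T (X.σ v) (X.σ w) k = X.T v w k := by
  intro k
  induction k using Nat.strong_induction_on with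
  | _ k ih =>
    intro hk v w
    match k, ih, hk with
    | 0, _, _ =>
      rw [X.T0, X.T0]
      simp only [EmbeddingLike.apply_eq_iff_eq]
    | 1, _, _ =>
      rw [X.T1, X.T1]
      simp only [X.adj_σ]
    | k + 2, ih, hk =>
      have h1 := X.tre (X.σ v) (X.σ w) k hk
      have h2 := X.tre v w k hk
      have h3 : ∑ u, (if X.adj (X.σ w) u then X.T (X.σ v) u (k + 1) else 0) =
          ∑ u, if X.adj w u then X.T v u (k + 1) else 0 := by
        rw [← Equiv.sum_comp X.σ]
        refine Finset.sum_congr rfl ?_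
        intro u _
        rw [ih (k + 1) (by omega) (by omega) v u]
        simp only [X.adj_σ]
      rw [h3, ← h2, ih k (by omega) (by omega) v w] at h1
      exact Nat.add_right_cancel h1

private theorem INM_it (X : Dt) (x : X.P → ℕ) (hx : ∀ p, x (X.s p) = x p) (n : ℕ) :
    ∀ (v : X.V) (k : Fin X.L), x ((⇑X.σ)^[n] v, k) = x (v, k) := by
  induction n with
  | zero =>
    intro v k
    rfl
  | succ n ih =>
    intro v k
    rw [Function.iterate_succ_apply']
    exact (hx ((⇑X.σ)^[n] v, k)).trans (ih v k)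

private theorem INM_st (X : Dt) (n : ℕ) :
    ∀ v : X.V, X.st ((⇑X.σ)^[n] v) = (⇑X.σ)^[n] (X.st v) := by
  induction n with
  | zero =>
    intro v
    rfl
  | succ n ih =>
    intro v
    rw [Function.iterate_succ_apply', Function.iterate_succ_apply', X.st_σ, ih]

theorem INM_holds : S_INM := by
  intro X
  have hT := INM_T X
  refine ⟨fun v w k hk => hT k hk v w, ?_, ?_, ?_, ?_, ?_, ?_, ?_, ?_⟩
  · intro i
    rw [J4c.bd, X.diag i, Int.mul_ediv_cancel_left _ two_ne_zero, Int.toNat_natCast]
  · intro a p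
    refine ⟨?_, ?_, ?_, ?_⟩
    · rw [INM_s]
      simp only [Dt.tX, INM_ob]
    · rw [INM_s]
      simp only [Dt.tY, INM_ob]
    · rw [INM_s]
      simp only [Dt.dX]
      rw [← Equiv.sum_comp X.σ]
      refine Finset.sum_congr rfl ?_
      intro v _
      rw [INM_ob]
      have h : X.D1 (X.σ v) (X.σ p.1, p.2) = X.D1 v p := by
        simp only [Dt.D1]
        rw [hT ((p.2 : ℕ) - 1) (lt_of_le_of_lt (Nat.sub_le _ _) p.2.2)]
      rw [h]
    · rw [INM_s]
      simp only [Dt.dY]
      rw [← Equiv.sum_comp X.σ]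
      refine Finset.sum_congr rfl ?_
      intro v _
      rw [INM_ob]
      have h : X.D0 (X.σ v) (X.σ p.1, p.2) = X.D0 v p := by
        simp only [Dt.D0]
        rw [hT (p.2 : ℕ) p.2.2]
      rw [h]
  · intro a a' p
    refine ⟨?_, ?_, ?_, ?_⟩
    · simp only [Dt.tX, Pi.add_apply]
      split_ifs <;> rfl
    · simp only [Dt.tY, Pi.add_apply]
      split_ifs <;> rfl
    · simp only [Dt.dX, Pi.add_apply]
      rw [← Finset.sum_add_distrib]
      refine Finset.sum_congr rfl ?_
      intro v _
      split_ifs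
      · exact Nat.add_mul _ _ _
      · rfl
    · simp only [Dt.dY, Pi.add_apply]
      rw [← Finset.sum_add_distrib]
      refine Finset.sum_congr rfl ?_
      intro v _
      split_ifs
      · exact Nat.add_mul _ _ _
      · rfl
  · intro a i hi
    simp only [Dt.dX]
    rw [Finset.sum_eq_single (X.rep i)]
    · rw [X.ob_rep, if_pos hi]
      have h : X.D1 (X.rep i) (X.pX i) = 1 := by
        simp only [Dt.D1, Dt.pX]
        rw [if_neg one_ne_zero, Nat.sub_self, X.T0, if_pos rfl]
      rw [h, Nat.mul_one]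
    · intro v _ hv
      have h : X.D1 v (X.pX i) = 0 := by
        simp only [Dt.D1, Dt.pX]
        rw [if_neg one_ne_zero, Nat.sub_self, X.T0, if_neg (Ne.symm hv)]
      rw [h, Nat.mul_zero, ite_self]
    · intro h
      exact absurd (Finset.mem_univ _) h
  · intro a i hi
    simp only [Dt.dY]
    rw [Finset.sum_eq_single (X.rep i)]
    · rw [X.ob_rep, if_pos hi]
      have h : X.D0 (X.rep i) (X.pY i) = 1 := by
        simp only [Dt.D0, Dt.pY]
        rw [X.top, if_pos rfl]
      rw [h, Nat.mul_one]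
    · intro v _ hv
      have h : X.D0 v (X.pY i) = 0 := by
        simp only [Dt.D0, Dt.pY]
        rw [X.top, if_neg (fun h => hv (X.st_inj h).symm)]
      rw [h, Nat.mul_zero, ite_self]
    · intro h
      exact absurd (Finset.mem_univ _) h
  · intro a v hv
    simp only [Dt.dY]
    refine Finset.sum_congr rfl ?_
    intro w _
    have h : X.D0 w (v, ⟨1, by have := X.L2; omega⟩) = if X.adj v w then 1 else 0 := by
      simp only [Dt.D0]
      rw [X.T1]
    rw [h]
    by_cases hvw : X.adj v w
    · have h2 := X.bip v w hvw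
      rw [hv] at h2
      have h3 : X.c (X.ob w) = false := by
        cases hc : X.c (X.ob w)
        · rfl
        · exact absurd hc.symm h2
      rw [if_pos h3, if_pos hvw, if_pos hvw, Nat.mul_one]
    · rw [if_neg hvw, if_neg hvw, Nat.mul_zero, ite_self]
  · intro x hx v k
    obtain ⟨n, hn⟩ := (X.orb v (X.rep (X.ob v))).mp (X.ob_rep (X.ob v)).symm
    rw [hn]
    exact (INM_it X x hx n v k).symm
  · intro x hx v k
    obtain ⟨n, hn⟩ := (X.orb v (X.rep (X.ob v))).mp (X.ob_rep (X.ob v)).symm
    rw [hn, INM_st]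
    exact (INM_it X x hx n (X.st v) k).symm

end Pool.Agent.Lib.MP_4c1f79_al
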