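import Pool.Agent.Lib.MP_4c1f79_al.StmI

/-! MP_4c1f79_al, the link: theorem 1. -/

set_option autoImplicit false

namespace Pool.Agent.Lib.MP_4c1f79_al

open Finset Module

private theorem ITH_tX (X : Dt) (a a' : X.ι → ℕ) (h : ∀ i, X.c i = true → a i = a' i) :
    X.tX a = X.tX a' := by
  funext p
  unfold Dt.tX
  split_ifs with h1
  · exact h _ h1.2
  · rfl

private theorem ITH_tY (X : Dt) (a a' : X.ι → ℕ) (h : ∀ i, X.c i = false → a i = a' i) :
    X.tY a = X.tY a' := by
  funext p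
  unfold Dt.tY
  split_ifs with h1
  · exact h _ h1.2
  · rfl

private theorem ITH_dY (X : Dt) (a a' : X.ι → ℕ) (h : ∀ i, X.c i = false → a i = a' i) :
    X.dY a = X.dY a' := by
  funext p
  unfold Dt.dY
  refine Finset.sum_congr rfl fun v _ => ?_
  split_ifs with h1
  · rw [h _ h1]
  · rfl

private theorem ITH_pos_t (X : Dt) {i : X.ι} (h : X.c i = true) : X.pos i = X.pX i := by
  unfold Dt.pos
  rw [if_pos h]

private theorem ITH_pos_f (X : Dt) {i : X.ι} (h : X.c i = false) : X.pos i = X.pY i := by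
  unfold Dt.pos
  rw [if_neg (by rw [h]; decide)]

theorem ITH_holds (hid : J4c.S_identity) (hIA1 : S_IA1) (hIA2 : S_IA2) (hIX3 : S_IX3)
    (hIY3 : S_IY3) (hIBA : S_IBA) (hIDD : S_IDD) (hINM : S_INM) : S_ITH := by
  intro X K _ D hD a
  have hadm : Adm X.M X.s D.r Set.univ := by
    rw [hD]
    exact X.adm
  have hinv := (hINM X).2.2.1
  have hdX : ∀ a, Dd X.M X.s K D Set.univ (X.tX a) = X.dX a :=
    fun a => funext fun p => (hIDD X K D hD a).2.2.1 p
  have hBX := fun a => hIBA _ X.M X.s K D hadm (X.tX a) (fun p => (hinv a p).1)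
  have hXd : ∀ (a a' : X.ι → ℕ), (∀ i, X.c i = true → a i = a' i) → X.ZX K D a = X.ZX K D a' := by
    intro a a' h
    funext N
    unfold Dt.ZX
    rw [ITH_tX X a a' h]
  have hYd : ∀ (a a' : X.ι → ℕ), (∀ i, X.c i = false → a i = a' i) →
      X.ZY K D a = X.ZY K D a' := by
    intro a a' h
    funext N
    unfold Dt.ZY
    rw [ITH_tY X a a' h, ITH_dY X a a' h]
  have hZY : ∀ (a : X.ι → ℕ) (N : X.P → ℕ), X.ZY K D a N ≠ 0 → N ≤ X.dY a := by
    intro a N h
    by_contra h'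
    unfold Dt.ZY at h
    rw [if_neg h'] at h
    exact h rfl
  have hZX : ∀ (a : X.ι → ℕ) (N : X.P → ℕ), X.ZX K D a N ≠ 0 → N ≤ X.dX a := by
    intro a N h p
    have h1 := ((hBX a).1 N h).1 p
    rwa [hdX] at h1
  refine hid X.b X.hb D.q D.q_gt (T := X.P → ℕ) (fun a => box (X.dY a)) (fun N i => N (X.pos i))
    (fun N => eulN X.M N N) (fun a N => (X.ZX K D a N : ℚ) * X.ZY K D a N)
    (fun a => (X.AA K D a : ℚ)) ?_ ?_ ?_ ?_ (fun a => hIA1 X K D hD a)
    (fun a => hIA2 X K D hD a) a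
  · -- `A 0 = 1`
    have h0 : ∀ p, X.typ 0 p = 0 := by
      intro p
      unfold Dt.typ Dt.tX Dt.tY
      split_ifs <;> simp
    have hd0 : X.dY 0 = 0 := by
      funext p
      unfold Dt.dY
      refine Finset.sum_eq_zero fun v _ => ?_
      split_ifs <;> simp
    have hB := hIBA _ X.M X.s K D hadm (X.typ 0) (fun p => by rw [h0, h0])
    have h1 : X.AA K D 0 = 1 := by
      unfold Dt.AA
      rw [hd0]
      exact hB.2.1
    rw [h1, Nat.cast_one]
  · intro a N h
    rw [mem_box]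
    refine hZY a N fun h' => h ?_
    rw [h', Nat.cast_zero, mul_zero]
  · intro a N h i
    have hX0 : X.ZX K D a N ≠ 0 := fun h' => h (by rw [h', Nat.cast_zero, zero_mul])
    have hY0 : X.ZY K D a N ≠ 0 := fun h' => h (by rw [h', Nat.cast_zero, mul_zero])
    change N (X.pos i) ≤ a i
    by_cases hc : X.c i = true
    · rw [ITH_pos_t X hc, ← (hINM X).2.2.2.2.1 a i hc]
      exact hZX a N hX0 _
    · have hc' : X.c i = false := by simpa using hc
      rw [ITH_pos_f X hc', ← (hINM X).2.2.2.2.2.1 a i hc']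
      exact hZY a N hY0 _
  · intro a N
    have e1 := hIX3 X K D hD a N
    have e2 := hIY3 X K D hD a N
    rw [hXd (fun i => N (X.pX i)) (fun i => N (X.pos i))
      (fun i hi => by rw [ITH_pos_t X hi])] at e1
    rw [hYd (fun i => N (X.pY i)) (fun i => N (X.pos i))
      (fun i hi => by rw [ITH_pos_f X hi])] at e2
    have e3 : (∏ i, J4c.gb (D.q ^ J4c.bd X.b i) (a i) (N (X.pos i)))
        = (∏ i, if X.c i = true then J4c.gb (D.q ^ J4c.bd X.b i) (a i) (N (X.pX i)) else 1)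
          * ∏ i, if X.c i = false then J4c.gb (D.q ^ J4c.bd X.b i) (a i) (N (X.pY i)) else 1 := by
      rw [← Finset.prod_mul_distrib]
      refine Finset.prod_congr rfl fun i _ => ?_
      by_cases hc : X.c i = true
      · rw [ITH_pos_t X hc, if_pos hc, if_neg (by rw [hc]; decide), mul_one]
      · have hc' : X.c i = false := by simpa using hc
        rw [ITH_pos_f X hc', if_pos hc', if_neg hc, one_mul]
    have e4 : (∏ i, ((J4c.gb (D.q ^ J4c.bd X.b i) (a i) (N (X.pos i)) : ℕ) : ℚ))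
        = ((∏ i, J4c.gb (D.q ^ J4c.bd X.b i) (a i) (N (X.pos i)) : ℕ) : ℚ) := by
      rw [Nat.cast_prod]
    change (X.ZX K D a N : ℚ) * X.ZY K D a N
      = (∏ i, ((J4c.gb (D.q ^ J4c.bd X.b i) (a i) (N (X.pos i)) : ℕ) : ℚ))
        * ((X.ZX K D (fun i => N (X.pos i)) N : ℚ) * X.ZY K D (fun i => N (X.pos i)) N)
    rw [e4, e3]
    rw [e1, e2]
    push_cast
    ring

end Pool.Agent.Lib.MP_4c1f79_al
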