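import Pool.Agent.Lib.MP_4c1f79_al.StmI

/-!
# MP_4c1f79_al : piece IX1 (nonzero subs of the indecomposable `I_i` contain its socle)
-/

set_option autoImplicit false

namespace Pool.Agent.Lib.MP_4c1f79_al

open Finset Module

theorem IX1_iter (X : Dt) (n : ℕ) (v : X.V) (k : Fin X.L) :
    (⇑X.s)^[n] (v, k) = ((⇑X.σ)^[n] v, k) := by
  induction n with
  | zero => rfl
  | succ n ih =>
    rw [Function.iterate_succ_apply', Function.iterate_succ_apply', ih]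
    rfl

/-- the orbit of the socle position -/
def IX1_E (X : Dt) (i : X.ι) : Set X.P := {p | (p.2 : ℕ) = 1 ∧ X.ob p.1 = i}

theorem IX1_orb (X : Dt) (i : X.ι) : Orb X.s (IX1_E X i) := by
  refine ⟨X.pX i, ?_⟩
  ext p
  constructor
  · rintro ⟨h1, h2⟩
    have h3 : X.ob (X.rep i) = X.ob p.1 := by rw [X.ob_rep, h2]
    obtain ⟨k, hk⟩ := (X.orb _ _).1 h3
    refine ⟨k, ?_⟩
    unfold Dt.pX
    rw [IX1_iter, ← hk]
    exact Prod.ext rfl (Fin.ext h1)
  · rintro ⟨k, hk⟩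
    unfold Dt.pX at hk
    rw [IX1_iter] at hk
    rw [hk]
    refine ⟨rfl, ?_⟩
    have h3 : X.ob (X.rep i) = X.ob ((⇑X.σ)^[k] (X.rep i)) := (X.orb _ _).2 ⟨k, rfl⟩
    change X.ob ((⇑X.σ)^[k] (X.rep i)) = i
    rw [← h3, X.ob_rep]

theorem IX1_tX (X : Dt) (i : X.ι) (hi : X.c i = true) (p : X.P) :
    X.tX (Pi.single i 1) p = ind (IX1_E X i) p := by
  unfold Dt.tX ind
  by_cases h : (p.2 : ℕ) = 1 ∧ X.ob p.1 = i
  · have hm : p ∈ IX1_E X i := h
    rw [if_pos ⟨h.1, by rw [h.2, hi]⟩, h.2, Pi.single_eq_same, Set.indicator_of_mem hm]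
    rfl
  · have hm : p ∉ IX1_E X i := h
    rw [Set.indicator_of_notMem hm]
    by_cases h1 : (p.2 : ℕ) = 1 ∧ X.c (X.ob p.1) = true
    · rw [if_pos h1]
      exact Pi.single_eq_of_ne (fun h2 => h ⟨h1.1, h2⟩) 1
    · rw [if_neg h1]

theorem IX1_holds (hIDD : S_IDD) (hINM : S_INM) (hSOC : S_SOC) (hCCD : S_CCD) (hEXM : S_EXM)
    (hDQ1 : S_DQ1) (_hDQ3 : S_DQ3) : S_IX1 := by
  classical
  intro X K _ D hr i hi x hx hx0
  obtain ⟨-, -, n3, -, n5, -⟩ := hINM X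
  have hadm : Adm X.M X.s D.r Set.univ := by
    rw [hr]
    exact X.adm
  obtain ⟨N, hN⟩ := hEXM X.P X.M X.s K D Set.univ hadm (X.tX (Pi.single i 1))
    (fun p => (n3 _ p).1) (fun p hp => absurd (Set.mem_univ p) hp)
  have hcnt : N.cnt x ≠ 0 := by
    rw [(hCCD X.P X.M X.s K D Set.univ hadm _ N hN).1 x]
    exact hx
  obtain ⟨⟨W, hW, hWx⟩⟩ : Nonempty {W : Submodule K N.T // N.St W ∧
      ∀ p, N.toRp.dmS W p = x p} := by
    by_contra h
    rw [not_nonempty_iff] at h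
    exact hcnt (@Nat.card_of_isEmpty _ h)
  obtain ⟨-, -, q3, -, q5, -⟩ := hDQ1 X.P X.M K
  have hle : ∀ j, X.c j = true → x (X.pX j) ≤ (Pi.single i 1 : X.ι → ℕ) j := by
    intro j hj
    have e1 := n5 (Pi.single i 1) j hj
    have e2 := (hIDD X K D hr (Pi.single i 1)).1 N hN (X.pX j)
    have e3 := q3 N.toRp (X.pX j)
    have e4 := q5 N.toRp W ⊤ le_top (X.pX j)
    have e5 := hWx (X.pX j)
    rw [← e1, ← e2, ← e3, ← e5]
    exact e4
  have hsc : ∀ p, N.toRp.sc p = ind (IX1_E X i) p := by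
    intro p
    rw [hN.2 p, IX1_tX X i hi]
  have hWne : W ≠ ⊥ := by
    rintro rfl
    apply hx0
    funext p
    rw [← hWx p]
    unfold Rp.dmS
    rw [Submodule.map_bot, finrank_bot]
    rfl
  have hpE : X.pX i ∈ IX1_E X i := ⟨rfl, X.ob_rep i⟩
  have hone : N.toRp.sc (X.pX i) = 1 := by
    rw [hsc]
    unfold ind
    exact Set.indicator_of_mem hpE _
  obtain ⟨v, hv, -⟩ := finrank_eq_one_iff'.1 hone
  obtain ⟨y, hy⟩ := v.2.1
  have hv1 : N.e (X.pX i) v.1 = v.1 := by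
    rw [← hy, N.e_e]
  have hvW : v.1 ∈ W := hSOC X.P X.M X.s K D N _ (IX1_orb X i) hsc W hW hWne _ hpE v.1 hv1 v.2.2
  have hpos : 0 < x (X.pX i) := by
    rw [← hWx]
    unfold Rp.dmS
    have hfin : Module.Finite K N.T := Module.Finite.of_finite
    rw [Module.finrank_pos_iff_exists_ne_zero]
    refine ⟨⟨v.1, v.1, hvW, hv1⟩, ?_⟩
    intro h
    have h1 : v.1 = 0 := congrArg Subtype.val h
    exact hv (Subtype.ext h1)
  have hle1 := hle i hi
  rw [Pi.single_eq_same] at hle1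
  refine ⟨by omega, ?_⟩
  intro j hj hji
  have hlej := hle j hj
  rw [Pi.single_eq_of_ne hji] at hlej
  omega

end Pool.Agent.Lib.MP_4c1f79_al
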