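import Pool.Agent.Lib.MP_4c1f79_al.StmI

/-!
# [J4 IX2] The recursion for `I(a)`
-/

set_option autoImplicit false

namespace Pool.Agent.Lib.MP_4c1f79_al

open Finset Module

private theorem IX2_eul_sub {P : Type} [Fintype P] (M : Mesh P) (x y z : P → ℤ) :
    eul M x (fun p => y p - z p) = eul M x y - eul M x z := by
  unfold eul
  have h1 : ∑ p, x p * (y p - z p) = ∑ p, x p * y p - ∑ p, x p * z p := by
    rw [← Finset.sum_sub_distrib]
    exact Finset.sum_congr rfl fun p _ => mul_sub _ _ _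
  have h2 : ∀ (C : P → P → Prop) [∀ p q, Decidable (C p q)],
      ∑ p, ∑ q, (if C p q then x p * (y q - z q) else 0)
        = ∑ p, ∑ q, (if C p q then x p * y q else 0)
          - ∑ p, ∑ q, (if C p q then x p * z q else 0) := by
    intro C _
    rw [← Finset.sum_sub_distrib]
    refine Finset.sum_congr rfl fun p _ => ?_
    rw [← Finset.sum_sub_distrib]
    refine Finset.sum_congr rfl fun q _ => ?_
    split_ifs
    · exact mul_sub _ _ _
    · rfl
  rw [h1, h2, h2]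
  ring

theorem IX2_holds (hCSP : S_CSP) (hIDD : S_IDD) (hINM : S_INM) (hIBA : S_IBA) (hIEX : S_IEX) :
    S_IX2 := by
  intro X K _ D hr a i hi N
  obtain ⟨_, _, hinv, hadd, _, _, _, _, _⟩ := hINM X
  have hadm : Adm X.M X.s D.r Set.univ := by
    rw [hr]
    exact X.adm
  have hc := hCSP X.P X.M X.s K D Set.univ hadm (X.tX (Pi.single i 1)) (X.tX a)
    (fun p => (hinv _ p).1) (fun p => (hinv _ p).1) (fun p hp => absurd (Set.mem_univ p) hp)
    (fun p hp => absurd (Set.mem_univ p) hp)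
  have hT : ∀ p r, X.M.Tau p r → X.tX a p ≠ 0 →
      Dd X.M X.s K D Set.univ (X.tX (Pi.single i 1)) r = 0 := by
    intro p r hpr h
    exfalso
    have h1 : (p.2 : ℕ) = r.2 + 2 := hpr.2
    apply h
    unfold Dt.tX
    rw [if_neg]
    intro h2
    omega
  obtain ⟨hsum, hnn⟩ := hc.2 hT N
  have hfun : (fun p => X.tX (Pi.single i 1) p + X.tX a p) = X.tX (a + Pi.single i 1) := by
    funext p
    rw [(hadd a (Pi.single i 1) p).1, add_comm]
  have hbox : box N = Finset.Iic N := by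
    ext x
    rw [mem_box, Finset.mem_Iic]
  have hadm2 := hIBA X.P X.M X.s K D hadm (X.tX a) (fun p => (hinv _ p).1)
  unfold Dt.ZX
  rw [← hfun, hsum, Nat.cast_sum, hbox]
  refine Finset.sum_congr rfl fun N₁ hN₁ => ?_
  have hle : N₁ ≤ N := Finset.mem_Iic.1 hN₁
  by_cases h1 : Cc X.M X.s K D Set.univ (X.tX (Pi.single i 1)) N₁ = 0
  · rw [h1]
    simp
  by_cases h2 : Cc X.M X.s K D Set.univ (X.tX a) (N - N₁) = 0
  · rw [h2]
    simp
  have hE0 := hnn N₁ hle h1 h2
  have hN : ∀ p, ((N p : ℤ) - (N₁ p : ℤ)) = (((N - N₁) p : ℕ) : ℤ) := by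
    intro p
    rw [Pi.sub_apply, Nat.cast_sub (hle p)]
  have hfN : (fun p => (N p : ℤ) - (N₁ p : ℤ)) = fun p => (((N - N₁) p : ℕ) : ℤ) :=
    funext hN
  have hD : (fun p => (Dd X.M X.s K D Set.univ (X.tX (Pi.single i 1)) p : ℤ) - (N₁ p : ℤ))
      = fun p => (X.dX (Pi.single i 1) p : ℤ) - (N₁ p : ℤ) := by
    funext p
    rw [(hIDD X K D hr (Pi.single i 1)).2.2.1 p]
  have hE : eul X.M (fun p => (N p : ℤ) - (N₁ p : ℤ))
      (fun p => (Dd X.M X.s K D Set.univ (X.tX (Pi.single i 1)) p : ℤ) - (N₁ p : ℤ))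
      = ((J4c.bd X.b i * (N - N₁) (X.pX i) : ℕ) : ℤ) - eulN X.M (N - N₁) N₁ := by
    rw [hD, hfN, IX2_eul_sub]
    have h3 := (hIEX X (Pi.single i 1) (fun p => (((N - N₁) p : ℕ) : ℤ)) (fun p => by
      rw [(hadm2.1 (N - N₁) h2).2 p])).1
    rw [h3, Finset.sum_eq_single i]
    · rw [if_pos hi, Pi.single_eq_same]
      unfold eulN
      push_cast
      ring
    · intro j _ hj
      rw [Pi.single_eq_of_ne hj]
      simp
    · intro h
      exact absurd (Finset.mem_univ i) h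
  rw [← hE]
  obtain ⟨n, hn⟩ := Int.eq_ofNat_of_zero_le hE0
  rw [hn, zpow_natCast, Int.toNat_natCast]
  push_cast
  ring

end Pool.Agent.Lib.MP_4c1f79_al
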