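import Pool.Agent.Lib.MP_4c1f79_al.StmI

/-! MP_4c1f79_al, the link: marks. -/

set_option autoImplicit false

namespace Pool.Agent.Lib.MP_4c1f79_al

open Finset Module

theorem IX3_gen (hM : J4c.S_marks) {ι P : Type} [Fintype ι] [DecidableEq ι] [Fintype P]
    [DecidableEq P] (q : ℕ) (hq : 2 ≤ q) (bd : ι → ℕ) (pp : ι → P)
    (β : (P → ℕ) → (P → ℕ) → ℤ) (hβ : ∀ x, β x 0 = 0) (C : ι → Prop) [DecidablePred C]
    (Z : (ι → ℕ) → (P → ℕ) → ℕ)
    (hdep : ∀ a a' : ι → ℕ, (∀ i, C i → a i = a' i) → Z a = Z a')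
    (hZ0 : ∀ N, Z 0 N = if N = 0 then 1 else 0) (hc0 : ∀ i, C i → Z (Pi.single i 1) 0 = 1)
    (hc1 : ∀ i, C i → ∀ x, Z (Pi.single i 1) x ≠ 0 → x ≠ 0 →
      x (pp i) = 1 ∧ ∀ j, C j → j ≠ i → x (pp j) = 0)
    (hZ : ∀ a i, C i → ∀ N, (Z (a + Pi.single i 1) N : ℚ)
      = ∑ N₁ ∈ Finset.Iic N, (q : ℚ) ^ ((bd i * (N - N₁) (pp i) : ℕ) - β (N - N₁) N₁)
        * Z (Pi.single i 1) N₁ * Z a (N - N₁)) (a : ι → ℕ) (N : P → ℕ) :
    Z a N = (∏ i, if C i then J4c.gb (q ^ bd i) (a i) (N (pp i)) else 1)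
      * Z (fun i => N (pp i)) N := by
  classical
  -- extension by zero
  let ext : ({i // C i} → ℕ) → ι → ℕ := fun a i => if h : C i then a ⟨i, h⟩ else 0
  have hext : ∀ (a : {i // C i} → ℕ) (i : ι) (h : C i), ext a i = a ⟨i, h⟩ := by
    intro a i h
    simp [ext, h]
  have key := hM (κ := {i // C i}) q hq (fun i => bd i.1) (fun i => pp i.1) β hβ
    (fun i x => (Z (Pi.single i.1 1) x : ℚ)) (fun i => by rw [hc0 i.1 i.2, Nat.cast_one])
    (fun i x hx hx0 => by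
      have h := hc1 i.1 i.2 x (by exact_mod_cast hx) hx0
      exact ⟨h.1, fun j hj => h.2 j.1 j.2 fun h' => hj (Subtype.ext h')⟩)
    (fun a x => (Z (ext a) x : ℚ))
    (fun x => by
      have h : Z (ext 0) = Z 0 := hdep _ _ fun i hi => by rw [hext 0 i hi]; rfl
      rw [h, hZ0]
      split_ifs <;> simp)
    (fun a i x => by
      have h : Z (ext (a + Pi.single i 1)) = Z (ext a + Pi.single i.1 1) := by
        refine hdep _ _ fun j hj => ?_
        rw [Pi.add_apply, hext _ j hj, hext _ j hj, Pi.add_apply]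
        congr 1
        by_cases hji : j = i.1
        · subst hji
          simp
        · rw [Pi.single_eq_of_ne hji, Pi.single_eq_of_ne fun h' => hji (congrArg Subtype.val h')]
      rw [h]
      exact hZ (ext a) i.1 i.2 x)
    (fun i => a i.1) N
  have h1 : Z (ext fun i => a i.1) = Z a :=
    hdep _ _ fun i hi => hext (fun i => a i.1) i hi
  have h2 : Z (ext fun i => N (pp i.1)) = Z fun i => N (pp i) :=
    hdep _ _ fun i hi => hext (fun i => N (pp i.1)) i hi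
  rw [h1, h2] at key
  have h3 : (∏ i : {i // C i}, ((J4c.gb (q ^ bd i.1) (a i.1) (N (pp i.1)) : ℕ) : ℚ))
      = ((∏ i, if C i then J4c.gb (q ^ bd i) (a i) (N (pp i)) else 1 : ℕ) : ℚ) := by
    rw [Nat.cast_prod]
    have h4 : ∀ i, ((if C i then J4c.gb (q ^ bd i) (a i) (N (pp i)) else 1 : ℕ) : ℚ)
        = if C i then ((J4c.gb (q ^ bd i) (a i) (N (pp i)) : ℕ) : ℚ) else 1 := by
      intro i
      split_ifs <;> simp
    rw [Finset.prod_congr rfl fun i _ => h4 i, ← Finset.prod_filter]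
    exact (Finset.prod_subtype (Finset.univ.filter C) (fun x => by simp)
      (fun i => ((J4c.gb (q ^ bd i) (a i) (N (pp i)) : ℕ) : ℚ))).symm
  rw [h3] at key
  exact_mod_cast key

private theorem IX3_tX (X : Dt) (a a' : X.ι → ℕ) (h : ∀ i, X.c i = true → a i = a' i) :
    X.tX a = X.tX a' := by
  funext p
  unfold Dt.tX
  split_ifs with h1
  · exact h _ h1.2
  · rfl

private theorem IX3_tX0 (X : Dt) (p : X.P) : X.tX 0 p = 0 := by
  unfold Dt.tX
  split_ifs <;> rfl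

private theorem IX3_eul0 {P : Type} [Fintype P] (M : Mesh P) (x : P → ℕ) : eulN M x 0 = 0 := by
  unfold eulN eul
  simp

theorem IX3_holds (hM : J4c.S_marks) (hIX1 : S_IX1) (hIX2 : S_IX2) (hIBA : S_IBA) (hINM : S_INM) :
    S_IX3 := by
  intro X K _ D hD a N
  have hadm : Adm X.M X.s D.r Set.univ := by
    rw [hD]
    exact X.adm
  have hinv : ∀ (a : X.ι → ℕ) p, X.tX a (X.s p) = X.tX a p := fun a p => ((hINM X).2.2.1 a p).1
  refine IX3_gen hM D.q D.q_gt (J4c.bd X.b) X.pX (eulN X.M) (IX3_eul0 X.M)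
    (fun i => X.c i = true) (X.ZX K D) ?_ ?_ ?_ (fun i hi => hIX1 X K D hD i hi)
    (fun a i hi => hIX2 X K D hD a i hi) a N
  · intro a a' h
    funext N
    unfold Dt.ZX
    rw [IX3_tX X a a' h]
  · intro N
    have hB := hIBA _ X.M X.s K D hadm (X.tX 0) (hinv 0)
    unfold Dt.ZX
    split_ifs with h
    · rw [h]
      exact hB.2.1
    · by_contra h0
      refine h (funext fun p => ?_)
      have h1 := (hB.1 N h0).1 p
      rw [hB.2.2.2 (IX3_tX0 X) p] at h1
      exact Nat.le_zero.mp h1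
  · intro i _
    exact (hIBA _ X.M X.s K D hadm (X.tX (Pi.single i 1)) (hinv _)).2.1

end Pool.Agent.Lib.MP_4c1f79_al
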