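import Pool.Agent.Lib.MP_4c1f79_al.StmI

/-! MP_4c1f79_al, [IY1]: the proper subs of the indecomposable `P_i` do not contain its top. -/

set_option autoImplicit false

namespace Pool.Agent.Lib.MP_4c1f79_al

open Finset Module

section general

variable {P : Type} [Fintype P] {M : Mesh P} {s : Equiv.Perm P} {K : Type} [Field K] {D : Fd K}

private theorem IY1_F_inj (N : FM M s K D) : Function.Injective N.F := by
  intro x y h
  have hx := N.F_r x
  have hy := N.F_r y
  obtain ⟨n, hn⟩ : ∃ n, D.r = n + 1 := ⟨D.r - 1, by have := D.r_pos; omega⟩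
  rw [hn, Function.iterate_succ_apply] at hx hy
  rw [← hx, ← hy, h]

/-- The dimension vector of a sub is monotone along `s`. -/
private theorem IY1_le (N : FM M s K D) (W : Submodule K N.T) (hW : N.St W) (p : P) :
    N.toRp.dmS W p ≤ N.toRp.dmS W (s p) := by
  have hK : 1 < Nat.card K := by
    rw [D.card_K]
    exact Nat.one_lt_pow D.r_pos.ne' D.q_gt
  have hmem : ∀ y : W.map (N.e p), N.F y.1 ∈ W.map (N.e (s p)) := by
    rintro ⟨_, x, hx, rfl⟩
    exact ⟨N.F x, hW.2 x hx, (N.F_e p x).symm⟩
  have h1 : Nat.card (W.map (N.e p)) ≤ Nat.card (W.map (N.e (s p))) :=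
    Nat.card_le_card_of_injective (fun y : W.map (N.e p) => (⟨N.F y.1, hmem y⟩ : W.map (N.e (s p))))
      fun y z h => Subtype.ext (IY1_F_inj N (congrArg Subtype.val h))
  rw [Module.natCard_eq_pow_finrank (K := K) (V := W.map (N.e p)),
    Module.natCard_eq_pow_finrank (K := K) (V := W.map (N.e (s p)))] at h1
  exact (Nat.pow_le_pow_iff_right hK).mp h1

private theorem IY1_inv (N : FM M s K D) (W : Submodule K N.T) (hW : N.St W)
    (hper : ∀ p, (⇑s)^[D.r] p = p) (p : P) :
    N.toRp.dmS W (s p) = N.toRp.dmS W p := by
  have hn : ∀ n : ℕ, ∀ p, N.toRp.dmS W p ≤ N.toRp.dmS W ((⇑s)^[n] p) := by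
    intro n
    induction n with
    | zero => intro p; exact le_rfl
    | succ n ih =>
      intro p
      rw [Function.iterate_succ_apply]
      exact (IY1_le N W hW p).trans (ih (s p))
  refine le_antisymm ?_ (IY1_le N W hW p)
  obtain ⟨n, hr⟩ : ∃ n, D.r = n + 1 := ⟨D.r - 1, by have := D.r_pos; omega⟩
  have h := hn n (s p)
  rw [← Function.iterate_succ_apply, Nat.succ_eq_add_one, ← hr, hper] at h
  exact h

private theorem IY1_range (N : FM M s K D) (W : Submodule K N.T) (hW : N.toRp.St W) (p : P)
    (h : N.toRp.dmS W p = N.toRp.dm p) : LinearMap.range (N.e p) ≤ W := by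
  have hfin : FiniteDimensional K N.T := Module.Finite.of_finite
  have h1 : W.map (N.e p) ≤ LinearMap.range (N.e p) := by
    rintro _ ⟨x, _, rfl⟩
    exact ⟨x, rfl⟩
  have h2 : W.map (N.e p) = LinearMap.range (N.e p) :=
    Submodule.eq_of_le_of_finrank_eq h1 h
  rw [← h2]
  rintro _ ⟨x, hx, rfl⟩
  exact hW.1 p x hx

end general

theorem IY1_holds (hIDD : S_IDD) (hINM : S_INM) (hGEN : S_GEN) (hDQ1 : S_DQ1) : S_IY1 := by
  intro X K _ D hr i hi x hne hx
  classical
  obtain ⟨-, -, hinv, -, -, hdYp, -, -, hst⟩ := hINM X
  unfold Dt.ZY at hne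
  split_ifs at hne with hle
  · unfold Cc at hne
    split_ifs at hne with h
    · have hN := h.choose_spec
      set N := h.choose with hNdef
      have hcnt : Nonempty {W : Submodule K N.T // N.St W ∧
          ∀ p, N.toRp.dmS W p = (X.dY (Pi.single i 1) - x) p} := by
        by_contra hemp
        rw [not_nonempty_iff] at hemp
        exact hne Nat.card_of_isEmpty
      obtain ⟨W, hW, hdm⟩ := hcnt
      have hdd := (hIDD X K D hr (Pi.single i 1)).2.1 N hN
      have hper : ∀ p, (⇑X.s)^[D.r] p = p := by
        intro p
        rw [hr]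
        exact X.adm.per p
      have hWinv := IY1_inv N W hW hper
      have hxd : ∀ p, N.toRp.dmS W p + x p = X.dY (Pi.single i 1) p := by
        intro p
        have h1 : N.toRp.dmS W p = X.dY (Pi.single i 1) p - x p := hdm p
        have h2 : x p ≤ X.dY (Pi.single i 1) p := hle p
        omega
      have hxinv : ∀ p, x (X.s p) = x p := by
        intro p
        have h1 := hxd (X.s p)
        have h2 := hxd p
        have h3 := (hinv (Pi.single i 1) p).2.2.2
        have h4 := hWinv p
        omega
      have hoth : ∀ j, X.c j = false → j ≠ i → x (X.pY j) = 0 := by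
        intro j hj hji
        have h1 := hle (X.pY j)
        rw [hdYp _ j hj, Pi.single_eq_of_ne hji] at h1
        exact Nat.le_zero.mp h1
      have hii : x (X.pY i) ≤ 1 := by
        have h1 := hle (X.pY i)
        rw [hdYp _ i hi, Pi.single_eq_same] at h1
        exact h1
      refine ⟨?_, hoth⟩
      by_contra hcon
      have h0 : x (X.pY i) = 0 := by omega
      have hsurj : Function.Surjective X.st := Finite.surjective_of_injective X.st_inj
      have hzero : ∀ w : X.V, x (w, ⟨X.L - 2, by have := X.L2; omega⟩) = 0 := by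
        intro w
        obtain ⟨v, rfl⟩ := hsurj w
        rcases hc : X.c (X.ob v) with _ | _
        · rw [hst x hxinv]
          by_cases hvi : X.ob v = i
          · rw [hvi]
            exact h0
          · exact hoth _ hc hvi
        · have h1 := hle (X.st v, ⟨X.L - 2, by have := X.L2; omega⟩)
          have h2 : X.dY (Pi.single i 1) (X.st v, ⟨X.L - 2, by have := X.L2; omega⟩) = 0 := by
            unfold Dt.dY
            refine Finset.sum_eq_zero fun u _ => ?_
            split_ifs with hu
            · unfold Dt.D0
              rw [X.top, if_neg, Nat.mul_zero]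
              intro huv
              have := X.st_inj huv
              rw [this] at hc
              rw [hc] at hu
              exact absurd hu (by decide)
            · rfl
          rw [h2] at h1
          exact Nat.le_zero.mp h1
      have htop : W = ⊤ := by
        refine hGEN X K D hr (Pi.single i 1) N hN W hW.1 fun w => ?_
        refine IY1_range N W hW.1 _ ?_
        have h1 := hxd (w, ⟨X.L - 2, by have := X.L2; omega⟩)
        rw [hzero w] at h1
        rw [hdd]
        omega
      apply hx
      funext p
      have h1 := hxd p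
      rw [htop, (hDQ1 X.P X.M K).2.2.1 N.toRp p, hdd] at h1
      simpa using h1
    · exact absurd rfl hne
  · exact absurd rfl hne

end Pool.Agent.Lib.MP_4c1f79_al
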