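import Pool.Agent.Lib.MP_4c1f79_al.StmI

/-!
# [IY2] the recursion for `P(a)`, by codimension
-/

set_option autoImplicit false

namespace Pool.Agent.Lib.MP_4c1f79_al

open Finset Module

private theorem IY2_eul {P : Type} [Fintype P] (M : Mesh P) (x y z : P → ℤ) :
    eul M (fun p => x p - y p) z = eul M x z - eul M y z := by
  classical
  unfold eul
  have h1 : ∑ p, (x p - y p) * z p = ∑ p, x p * z p - ∑ p, y p * z p := by
    rw [← Finset.sum_sub_distrib]
    exact Finset.sum_congr rfl fun p _ => by ring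
  have h2 : ∀ R : P → P → Prop, ∑ p, ∑ q, (if R p q then (x p - y p) * z q else 0) =
      ∑ p, ∑ q, (if R p q then x p * z q else 0) -
        ∑ p, ∑ q, (if R p q then y p * z q else 0) := by
    intro R
    rw [← Finset.sum_sub_distrib]
    refine Finset.sum_congr rfl fun p _ => ?_
    rw [← Finset.sum_sub_distrib]
    refine Finset.sum_congr rfl fun q _ => ?_
    split_ifs <;> ring
  rw [h1, h2 M.Ar, h2 M.Tau]
  ring

theorem IY2_holds (hCSP : S_CSP) (hIDD : S_IDD) (hINM : S_INM) (hIBA : S_IBA) (hIEX : S_IEX) :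
    S_IY2 := by
  classical
  intro X K _ D hD a i hi N
  obtain ⟨-, -, hinv, hadd, -, -, -, -, -⟩ := hINM X
  have hadm : Adm X.M X.s D.r Set.univ := by
    rw [hD]
    exact X.adm
  obtain ⟨e, he⟩ : ∃ e : X.ι → ℕ, e = Pi.single i 1 := ⟨_, rfl⟩
  rw [← he]
  have hq : (D.q : ℚ) ≠ 0 := by
    have := D.q_gt
    exact_mod_cast (by omega : D.q ≠ 0)
  have hDd : ∀ b : X.ι → ℕ, Dd X.M X.s K D Set.univ (X.tY b) = X.dY b := by
    intro b
    funext p
    exact (hIDD X K D hD b).2.2.2 p
  have hst : X.tY (a + e) = fun p => X.tY a p + X.tY e p := by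
    funext p
    exact (hadd a e p).2.1
  have hsd : ∀ p, X.dY (a + e) p = X.dY a p + X.dY e p := fun p => (hadd a e p).2.2.2
  have hbase : ∀ (b : X.ι → ℕ) (d : X.P → ℕ), Cc X.M X.s K D Set.univ (X.tY b) d ≠ 0 →
      (∀ p, d p ≤ X.dY b p) ∧ ∀ p, d (X.s p) = d p := by
    intro b d hb
    have h := (hIBA X.P X.M X.s K D hadm (X.tY b) (fun p => (hinv b p).2.1)).1 d hb
    rw [hDd] at h
    exact h
  have hZ : ∀ (b : X.ι → ℕ) (N' : X.P → ℕ), (∀ p, N' p ≤ X.dY b p) →
      X.ZY K D b N' = Cc X.M X.s K D Set.univ (X.tY b) (X.dY b - N') := by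
    intro b N' h
    unfold Dt.ZY
    rw [if_pos]
    exact h
  have hZ0 : ∀ (b : X.ι → ℕ) (N' : X.P → ℕ), X.ZY K D b N' ≠ 0 → ∀ p, N' p ≤ X.dY b p := by
    intro b N' h
    by_contra hc
    refine h ?_
    unfold Dt.ZY
    rw [if_neg]
    exact hc
  have hsplit := (hCSP X.P X.M X.s K D Set.univ hadm (X.tY a) (X.tY e)
    (fun p => (hinv a p).2.1) (fun p => (hinv e p).2.1) (fun p hp => absurd (Set.mem_univ p) hp)
    (fun p hp => absurd (Set.mem_univ p) hp)).2 (by
      intro p r hpr hp
      exfalso
      refine hp ?_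
      unfold Dt.tY
      rw [if_neg]
      rintro ⟨h1, -⟩
      have h2 : (p.2 : ℕ) = r.2 + 2 := hpr.2
      omega)
  rw [hDd a] at hsplit
  by_cases hN : ∀ p, N p ≤ X.dY (a + e) p
  · rw [hZ _ _ hN, hst]
    obtain ⟨d, hd⟩ : ∃ d, d = X.dY (a + e) - N := ⟨_, rfl⟩
    rw [← hd]
    have hdp : ∀ p, d p = X.dY a p + X.dY e p - N p := by
      intro p
      rw [hd, Pi.sub_apply, hsd]
    have hNp : ∀ p, N p ≤ X.dY a p + X.dY e p := by
      intro p
      rw [← hsd]
      exact hN p
    obtain ⟨h1, h2⟩ := hsplit d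
    rw [h1]
    push_cast
    -- the facts for a nonzero term
    have hfact : ∀ d₁ ∈ box d, ((D.q : ℚ) ^ (eul X.M (fun p => (d p : ℤ) - (d₁ p : ℤ))
        (fun p => (X.dY a p : ℤ) - (d₁ p : ℤ))).toNat *
        ((Cc X.M X.s K D Set.univ (X.tY a) d₁ : ℚ) *
          (Cc X.M X.s K D Set.univ (X.tY e) (d - d₁) : ℚ))) ≠ 0 →
        Cc X.M X.s K D Set.univ (X.tY a) d₁ ≠ 0 ∧
          Cc X.M X.s K D Set.univ (X.tY e) (d - d₁) ≠ 0 ∧ (∀ p, d₁ p ≤ d p) ∧
          (∀ p, d₁ p ≤ X.dY a p) ∧ ∀ p, d p - d₁ p ≤ X.dY e p := by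
      intro d₁ hd₁ hne
      have h3 : Cc X.M X.s K D Set.univ (X.tY a) d₁ ≠ 0 := by
        intro h
        refine hne ?_
        rw [h]
        simp
      have h4 : Cc X.M X.s K D Set.univ (X.tY e) (d - d₁) ≠ 0 := by
        intro h
        refine hne ?_
        rw [h]
        simp
      refine ⟨h3, h4, mem_box.mp hd₁, (hbase a d₁ h3).1, ?_⟩
      intro p
      have h5 := (hbase e (d - d₁) h4).1 p
      rw [Pi.sub_apply] at h5
      exact h5
    refine Finset.sum_bij_ne_zero (fun d₁ _ _ => X.dY e - (d - d₁)) ?_ ?_ ?_ ?_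
    · intro d₁ hd₁ hne
      obtain ⟨-, -, h3, h4, h5⟩ := hfact d₁ hd₁ hne
      rw [Finset.mem_Iic]
      intro p
      have k1 := hdp p
      have k2 := hNp p
      have k3 := h3 p
      have k4 := h4 p
      have k5 := h5 p
      simp only [Pi.sub_apply]
      omega
    · intro d₁ hd₁ hne d₁' hd₁' hne' heq
      obtain ⟨-, -, h3, h4, h5⟩ := hfact d₁ hd₁ hne
      obtain ⟨-, -, h3', h4', h5'⟩ := hfact d₁' hd₁' hne'
      funext p
      have k := congrFun heq p
      simp only [Pi.sub_apply] at k
      have k3 := h3 p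
      have k5 := h5 p
      have k3' := h3' p
      have k5' := h5' p
      omega
    · intro N₁ hN₁ hne
      rw [Finset.mem_Iic] at hN₁
      have h3 : X.ZY K D e N₁ ≠ 0 := by
        intro h
        refine hne ?_
        rw [h]
        simp
      have h4 : X.ZY K D a (N - N₁) ≠ 0 := by
        intro h
        refine hne ?_
        rw [h]
        simp
      have h5 := hZ0 _ _ h3
      have h6 := hZ0 _ _ h4
      rw [hZ _ _ h5] at h3
      rw [hZ _ _ h6] at h4
      simp only [Pi.sub_apply] at h6
      have h7 : d - (X.dY a - (N - N₁)) = X.dY e - N₁ := by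
        funext p
        have k1 := hdp p
        have k2 := hNp p
        have k3 : N₁ p ≤ N p := hN₁ p
        have k4 := h5 p
        have k5 := h6 p
        simp only [Pi.sub_apply]
        omega
      refine ⟨X.dY a - (N - N₁), ?_, ?_, ?_⟩
      · rw [mem_box]
        intro p
        have k1 := hdp p
        have k2 := hNp p
        have k3 : N₁ p ≤ N p := hN₁ p
        have k4 := h5 p
        have k5 := h6 p
        simp only [Pi.sub_apply]
        omega
      · rw [h7]
        refine mul_ne_zero (pow_ne_zero _ hq) (mul_ne_zero ?_ ?_)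
        · exact_mod_cast h4
        · exact_mod_cast h3
      · change X.dY e - (d - (X.dY a - (N - N₁))) = N₁
        rw [h7]
        funext p
        have k4 := h5 p
        simp only [Pi.sub_apply]
        omega
    · intro d₁ hd₁ hne
      obtain ⟨c1, c2, h3, h4, h5⟩ := hfact d₁ hd₁ hne
      have hpos := h2 d₁ h3 c1 c2
      obtain ⟨N₁, hN₁⟩ : ∃ N₁, N₁ = X.dY e - (d - d₁) := ⟨_, rfl⟩
      rw [← hN₁]
      have hN₁p : ∀ p, N₁ p = X.dY e p - (d p - d₁ p) := by
        intro p
        rw [hN₁]
        rfl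
      have h6 : N - N₁ = X.dY a - d₁ := by
        funext p
        have k1 := hdp p
        have k2 := hNp p
        have k3 := h3 p
        have k4 := h4 p
        have k5 := h5 p
        have k6 := hN₁p p
        simp only [Pi.sub_apply]
        omega
      have z1 : X.ZY K D e N₁ = Cc X.M X.s K D Set.univ (X.tY e) (d - d₁) := by
        rw [hZ]
        · congr 1
          funext p
          have k5 := h5 p
          have k6 := hN₁p p
          simp only [Pi.sub_apply]
          omega
        · intro p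
          rw [hN₁p]
          exact Nat.sub_le _ _
      have z2 : X.ZY K D a (N - N₁) = Cc X.M X.s K D Set.univ (X.tY a) d₁ := by
        rw [h6, hZ]
        · congr 1
          funext p
          have k4 := h4 p
          simp only [Pi.sub_apply]
          omega
        · intro p
          exact Nat.sub_le _ _
      rw [z1, z2]
      have hxinv : ∀ p, ((N - N₁) (X.s p) : ℤ) = ((N - N₁) p : ℤ) := by
        intro p
        rw [h6]
        simp only [Pi.sub_apply]
        rw [(hinv a p).2.2.2, (hbase a d₁ c1).2 p]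
      have hiex := (hIEX X e (fun p => ((N - N₁) p : ℤ)) hxinv).2
      have hsum : ∑ j, (if X.c j = false then (J4c.bd X.b j : ℤ) * e j *
          ((N - N₁) (X.pY j) : ℤ) else 0) = (J4c.bd X.b i : ℤ) * ((N - N₁) (X.pY i) : ℤ) := by
        rw [Finset.sum_eq_single i]
        · rw [if_pos hi, he, Pi.single_eq_same]
          push_cast
          ring
        · intro j _ hj
          rw [he, Pi.single_eq_of_ne hj]
          simp
        · intro h
          exact absurd (Finset.mem_univ i) h
      rw [hsum] at hiex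
      have hexp : eul X.M (fun p => (d p : ℤ) - (d₁ p : ℤ))
          (fun p => (X.dY a p : ℤ) - (d₁ p : ℤ)) =
          ((J4c.bd X.b i * (N - N₁) (X.pY i) : ℕ) : ℤ) - eulN X.M N₁ (N - N₁) := by
        have e1 : (fun p => (d p : ℤ) - (d₁ p : ℤ)) =
            fun p => (X.dY e p : ℤ) - (N₁ p : ℤ) := by
          funext p
          have k3 := h3 p
          have k5 := h5 p
          have k6 := hN₁p p
          omega
        have e2 : (fun p => (X.dY a p : ℤ) - (d₁ p : ℤ)) =
            fun p => ((N - N₁) p : ℤ) := by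
          funext p
          rw [h6]
          have k4 := h4 p
          simp only [Pi.sub_apply]
          omega
        rw [e1, e2, IY2_eul, hiex, eulN]
        push_cast
        rfl
      rw [hexp] at hpos
      rw [hexp, ← zpow_natCast, Int.toNat_of_nonneg hpos]
      push_cast
      ring
  · have h0 : X.ZY K D (a + e) N = 0 := by
      by_contra h
      exact hN (hZ0 _ _ h)
    rw [h0]
    symm
    rw [Nat.cast_zero]
    refine Finset.sum_eq_zero ?_
    intro N₁ hN₁
    rw [Finset.mem_Iic] at hN₁
    by_cases h3 : X.ZY K D e N₁ = 0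
    · rw [h3]
      simp
    · by_cases h4 : X.ZY K D a (N - N₁) = 0
      · rw [h4]
        simp
      · exfalso
        refine hN ?_
        intro p
        have h5 := hZ0 _ _ h3 p
        have h6 := hZ0 _ _ h4 p
        have h7 := hN₁ p
        rw [hsd]
        simp only [Pi.sub_apply] at h6
        omega

end Pool.Agent.Lib.MP_4c1f79_al
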