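import Pool.Agent.Lib.MP_4c1f79_al.P.P_IX3

/-! MP_4c1f79_al, the link: marks, by codimension. -/

set_option autoImplicit false

namespace Pool.Agent.Lib.MP_4c1f79_al

open Finset Module

private theorem IY3_tY (X : Dt) (a a' : X.ι → ℕ) (h : ∀ i, X.c i = false → a i = a' i) :
    X.tY a = X.tY a' := by
  funext p
  unfold Dt.tY
  split_ifs with h1
  · exact h _ h1.2
  · rfl

private theorem IY3_dY (X : Dt) (a a' : X.ι → ℕ) (h : ∀ i, X.c i = false → a i = a' i) :
    X.dY a = X.dY a' := by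
  funext p
  unfold Dt.dY
  refine Finset.sum_congr rfl fun v _ => ?_
  split_ifs with h1
  · rw [h _ h1]
  · rfl

private theorem IY3_tY0 (X : Dt) (p : X.P) : X.tY 0 p = 0 := by
  unfold Dt.tY
  split_ifs <;> rfl

private theorem IY3_dY0 (X : Dt) : X.dY 0 = 0 := by
  funext p
  unfold Dt.dY
  refine Finset.sum_eq_zero fun v _ => ?_
  split_ifs <;> simp

private theorem IY3_eul0 {P : Type} [Fintype P] (M : Mesh P) (x : P → ℕ) : eulN M 0 x = 0 := by
  unfold eulN eul
  simp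

theorem IY3_holds (hM : J4c.S_marks) (hIY1 : S_IY1) (hIY2 : S_IY2) (hIBA : S_IBA) (hIDD : S_IDD)
    (hINM : S_INM) : S_IY3 := by
  intro X K _ D hD a N
  have hadm : Adm X.M X.s D.r Set.univ := by
    rw [hD]
    exact X.adm
  have hinv : ∀ (a : X.ι → ℕ) p, X.tY a (X.s p) = X.tY a p := fun a p => ((hINM X).2.2.1 a p).2.1
  have hdd : ∀ a, Dd X.M X.s K D Set.univ (X.tY a) = X.dY a :=
    fun a => funext fun p => (hIDD X K D hD a).2.2.2 p
  refine IX3_gen hM D.q D.q_gt (J4c.bd X.b) X.pY (fun x y => eulN X.M y x) (IY3_eul0 X.M)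
    (fun i => X.c i = false) (X.ZY K D) ?_ ?_ ?_ (fun i hi => hIY1 X K D hD i hi)
    (fun a i hi => hIY2 X K D hD a i hi) a N
  · intro a a' h
    funext N
    unfold Dt.ZY
    rw [IY3_tY X a a' h, IY3_dY X a a' h]
  · intro N
    have hB := hIBA _ X.M X.s K D hadm (X.tY 0) (hinv 0)
    unfold Dt.ZY
    rw [IY3_dY0]
    by_cases h : N = 0
    · rw [h, if_pos le_rfl, if_pos rfl]
      have h0 : (0 - 0 : X.P → ℕ) = 0 := funext fun _ => rfl
      rw [h0]
      exact hB.2.1
    · rw [if_neg h, if_neg]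
      intro h'
      exact h (le_antisymm h' (fun p => Nat.zero_le _))
  · intro i _
    have hB := hIBA _ X.M X.s K D hadm (X.tY (Pi.single i 1)) (hinv _)
    unfold Dt.ZY
    have h1 : (0 : X.P → ℕ) ≤ X.dY (Pi.single i 1) := fun p => Nat.zero_le _
    have h0 : X.dY (Pi.single i 1) - 0 = X.dY (Pi.single i 1) := funext fun _ => rfl
    rw [if_pos h1, h0, ← hdd]
    exact hB.2.2.1

end Pool.Agent.Lib.MP_4c1f79_al
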