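import Pool.Agent.Lib.MP_4c1f79_al.StmI

/-! MP_4c1f79_al, the link. -/

set_option autoImplicit false

namespace Pool.Agent.Lib.MP_4c1f79_al

open Finset Module

theorem LNK_holds (hITH : S_ITH) (hIFD : S_IFD) (hCCD : S_CCD) (hEXM : S_EXM) (hINM : S_INM) :
    S_LNK := by
  intro X hpos a
  obtain ⟨Fs, hFs⟩ := hpos a (X.dY a)
  refine ⟨Fs, fun q hq => ?_⟩
  obtain ⟨K, _, D, hDq, hDr⟩ := hIFD q X.r hq X.r_pos
  have hadm : Adm X.M X.s D.r Set.univ := by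
    rw [hDr]
    exact X.adm
  have hinv : ∀ p, X.typ a (X.s p) = X.typ a p := by
    intro p
    unfold Dt.typ
    rw [((hINM X).2.2.1 a p).1, ((hINM X).2.2.1 a p).2.1]
  obtain ⟨N, hN⟩ := hEXM _ X.M X.s K D Set.univ hadm (X.typ a) hinv
    (fun p hp => absurd (Set.mem_univ p) hp)
  obtain ⟨f, hf, he⟩ := hFs K D hDr N hN
  refine ⟨f, hf, ?_⟩
  rw [← hDq, ← he, (hCCD _ X.M X.s K D Set.univ hadm (X.typ a) N hN).1 (X.dY a)]
  exact hITH X K D hDr a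

end Pool.Agent.Lib.MP_4c1f79_al
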