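import Pool.Agent.Lib.MP_4c1f79_al.StmN

/-!
# MP_4c1f79_al : type B, `NumPos` from the link (piece NPB)
-/

set_option autoImplicit false

namespace Pool.Agent.Lib.MP_4c1f79_al

open J4c

private theorem NPB_form (n : ℕ) (i j : Fin (n + 2)) :
    (DT.B n).form i j = if i = j then (if i.val = n + 1 then 2 else 4)
      else if i.val + 1 = j.val ∨ j.val + 1 = i.val then -2 else 0 := by
  have hi := i.2
  have hj := j.2
  have h : (DT.B n).form i j = CartanMatrix.B (n + 2) i j
      * (((if j.val = n + 1 then 1 else 2 : ℕ)) : ℤ) := rfl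
  rw [h]
  unfold CartanMatrix.B
  rw [Matrix.of_apply]
  by_cases hij : i = j
  · subst hij
    rw [if_pos rfl, if_pos rfl]
    split_ifs <;> rfl
  · rw [if_neg hij, if_neg hij]
    have hne : i.val ≠ j.val := fun e => hij (Fin.ext e)
    by_cases h1 : i.val + 1 = j.val
    · rw [if_pos h1, if_pos (Or.inl h1)]
      by_cases h2 : j.val = n + 1
      · rw [if_pos (by omega), if_pos h2]
        rfl
      · rw [if_neg (by omega), if_neg h2]
        rfl
    · rw [if_neg h1]
      by_cases h2 : j.val + 1 = i.val
      · rw [if_pos h2, if_pos (Or.inr h2), if_neg (by omega)]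
        rfl
      · rw [if_neg h2, zero_mul, if_neg (by omega)]

/-- The datum of type `B`. -/
private def NPB_X (hCKA : S_CKA) (hg : J4c.S_good_B) (n : ℕ) : Dt where
  V := Fin (2 * n + 3)
  adj := adjA (2 * n + 3)
  hs := adjA_symm (2 * n + 3)
  L := 2 * n + 4
  L2 := by omega
  T v w k := tabA 0 (2 * n + 2) v w k
  st := Fin.rev
  st_inj := Fin.rev_injective
  T0 v w := (hCKA (2 * n + 3) (adjA (2 * n + 3)) 0 (2 * n + 2) (by omega)
    (fun _ _ _ _ _ _ => Iff.rfl) v w (by omega) (by omega) (by omega) (by omega)).1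
  T1 v w := by
    obtain ⟨h0, h1, -⟩ := hCKA (2 * n + 3) (adjA (2 * n + 3)) 0 (2 * n + 2) (by omega)
      (fun _ _ _ _ _ _ => Iff.rfl) v w (by omega) (by omega) (by omega) (by omega)
    rw [h1]
    have h2 : ∀ u : Fin (2 * n + 3), tabA 0 (2 * n + 2) v u 0 = if u = v then 1 else 0 :=
      fun u => (hCKA (2 * n + 3) (adjA (2 * n + 3)) 0 (2 * n + 2) (by omega)
        (fun _ _ _ _ _ _ => Iff.rfl) v u (by omega) (by omega) (by omega) (by omega)).1
    rw [Finset.sum_eq_single v]
    · rw [h2 v, if_pos rfl]
    · intro u _ hu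
      rw [h2 u, if_neg hu, ite_self]
    · intro h
      exact absurd (Finset.mem_univ _) h
  tre v w k hk := (hCKA (2 * n + 3) (adjA (2 * n + 3)) 0 (2 * n + 2) (by omega)
    (fun _ _ _ _ _ _ => Iff.rfl) v w (by omega) (by omega) (by omega) (by omega)).2.2.1 k
      (by omega)
  top v w := by
    have h := (hCKA (2 * n + 3) (adjA (2 * n + 3)) 0 (2 * n + 2) (by omega)
      (fun _ _ _ _ _ _ => Iff.rfl) v w (by omega) (by omega) (by omega) (by omega)).2.2.2.2.1
    have e : 2 * n + 4 - 2 = 2 * n + 2 - 0 := by omega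
    rw [e, h]
    have e2 : (w.val + v.val = 0 + (2 * n + 2)) ↔ w = Fin.rev v := by
      rw [Fin.ext_iff, Fin.val_rev]
      omega
    simp only [e2]
  bot v w := (hCKA (2 * n + 3) (adjA (2 * n + 3)) 0 (2 * n + 2) (by omega)
    (fun _ _ _ _ _ _ => Iff.rfl) v w (by omega) (by omega) (by omega) (by omega)).2.2.2.2.2 _
      (by omega)
  ι := Fin (n + 2)
  b := (DT.B n).form
  hb := hg n
  σ := Fin.revPerm
  r := 2
  r_pos := by omega
  ob v := ⟨min v.val (2 * n + 2 - v.val), by omega⟩
  rep i := ⟨i.val, by omega⟩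
  ob_rep i := by
    apply Fin.ext
    have := i.2
    show min i.val (2 * n + 2 - i.val) = i.val
    omega
  orb v w := by
    rw [Fin.ext_iff]
    show min v.val (2 * n + 2 - v.val) = min w.val (2 * n + 2 - w.val) ↔ _
    constructor
    · intro h
      by_cases hvw : w = v
      · exact ⟨0, hvw⟩
      · refine ⟨1, ?_⟩
        show w = Fin.rev v
        have h1 : w.val ≠ v.val := fun e => hvw (Fin.ext e)
        rw [Fin.ext_iff, Fin.val_rev]
        omega
    · rintro ⟨k, hk⟩
      have h1 : ∀ m : ℕ, (⇑(Fin.revPerm (n := 2 * n + 3)))^[m] v = v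
          ∨ (⇑(Fin.revPerm (n := 2 * n + 3)))^[m] v = Fin.rev v := by
        intro m
        induction m with
        | zero => exact Or.inl rfl
        | succ m ih =>
          rw [Function.iterate_succ_apply']
          rcases ih with h | h
          · right
            rw [h]
            rfl
          · left
            rw [h]
            exact Fin.rev_rev v
      rcases h1 k with h | h
      · rw [h] at hk
        rw [hk]
      · rw [h] at hk
        rw [hk, Fin.val_rev]
        omega
  c i := decide (i.val % 2 = 0)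
  bip v w h := by
    intro e
    have hv := v.2
    have hw := w.2
    rw [decide_eq_decide] at e
    have e' : (min v.val (2 * n + 2 - v.val) % 2 = 0 ↔ min w.val (2 * n + 2 - w.val) % 2 = 0) := e
    rcases h with h | h <;> omega
  adj_σ v w := by
    show (Fin.rev v).val + 1 = (Fin.rev w).val ∨ (Fin.rev w).val + 1 = (Fin.rev v).val ↔
      v.val + 1 = w.val ∨ w.val + 1 = v.val
    rw [Fin.val_rev, Fin.val_rev]
    omega
  per v := Fin.rev_rev v
  st_σ v := rfl
  diag i := by
    rw [NPB_form, if_pos rfl]
    have hi := i.2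
    by_cases h : i.val = n + 1
    · rw [if_pos h]
      have e : (Finset.univ.filter fun v : Fin (2 * n + 3) =>
          (⟨min v.val (2 * n + 2 - v.val), by omega⟩ : Fin (n + 2)) = i)
          = {(⟨i.val, by omega⟩ : Fin (2 * n + 3))} := by
        ext v
        simp only [Finset.mem_filter, Finset.mem_univ, true_and, Finset.mem_singleton,
          Fin.ext_iff]
        omega
      rw [e, Finset.card_singleton]
      rfl
    · rw [if_neg h]
      have e : (Finset.univ.filter fun v : Fin (2 * n + 3) =>
          (⟨min v.val (2 * n + 2 - v.val), by omega⟩ : Fin (n + 2)) = i)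
          = {(⟨i.val, by omega⟩ : Fin (2 * n + 3)), ⟨2 * n + 2 - i.val, by omega⟩} := by
        ext v
        simp only [Finset.mem_filter, Finset.mem_univ, true_and, Finset.mem_singleton,
          Finset.mem_insert, Fin.ext_iff]
        omega
      rw [e, Finset.card_pair]
      · rfl
      · rw [Ne, Fin.ext_iff]
        show ¬ (i.val = 2 * n + 2 - i.val)
        omega
  off i j hij := by
    rw [NPB_form, if_neg hij]
    have hi := i.2
    have hj := j.2
    have hne : i.val ≠ j.val := fun e => hij (Fin.ext e)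
    by_cases h : i.val + 1 = j.val ∨ j.val + 1 = i.val
    · rw [if_pos h]
      have e : (Finset.univ.filter fun p : Fin (2 * n + 3) × Fin (2 * n + 3) =>
          (⟨min p.1.val (2 * n + 2 - p.1.val), by omega⟩ : Fin (n + 2)) = i ∧
          (⟨min p.2.val (2 * n + 2 - p.2.val), by omega⟩ : Fin (n + 2)) = j ∧
          adjA (2 * n + 3) p.1 p.2)
          = {((⟨i.val, by omega⟩ : Fin (2 * n + 3)), (⟨j.val, by omega⟩ : Fin (2 * n + 3))),
            ((⟨2 * n + 2 - i.val, by omega⟩ : Fin (2 * n + 3)),
              (⟨2 * n + 2 - j.val, by omega⟩ : Fin (2 * n + 3)))} := by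
        ext ⟨v, w⟩
        simp only [Finset.mem_filter, Finset.mem_univ, true_and, Finset.mem_singleton,
          Finset.mem_insert, Prod.mk.injEq, Fin.ext_iff, adjA]
        omega
      rw [e, Finset.card_pair]
      · rfl
      · intro e2
        rw [Prod.mk.injEq, Fin.ext_iff, Fin.ext_iff] at e2
        have e3 : i.val = 2 * n + 2 - i.val := e2.1
        have e4 : j.val = 2 * n + 2 - j.val := e2.2
        omega
    · rw [if_neg h]
      have e : (Finset.univ.filter fun p : Fin (2 * n + 3) × Fin (2 * n + 3) =>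
          (⟨min p.1.val (2 * n + 2 - p.1.val), by omega⟩ : Fin (n + 2)) = i ∧
          (⟨min p.2.val (2 * n + 2 - p.2.val), by omega⟩ : Fin (n + 2)) = j ∧
          adjA (2 * n + 3) p.1 p.2) = ∅ := by
        apply Finset.eq_empty_of_forall_notMem
        rintro ⟨v, w⟩
        simp only [Finset.mem_filter, Finset.mem_univ, true_and, Fin.ext_iff, adjA]
        omega
      rw [e, Finset.card_empty]
      rfl

theorem NPB_holds (hLNK : S_LNK) (hCKA : S_CKA) (hCLB : S_CLB) (hg : J4c.S_good_B) : S_NPB := by
  intro n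
  apply hLNK (NPB_X hCKA hg n)
  intro a
  have h := hCLB (2 * n + 3) (2 * n + 4) 0
  have e : rowI (2 * n + 3) (2 * n + 4) 0 (2 * n + 3 - 0) = Set.univ := by
    apply Set.eq_univ_of_forall
    intro p
    exact ⟨Nat.zero_le _, p.1.2⟩
  rw [e] at h
  exact h _

end Pool.Agent.Lib.MP_4c1f79_al
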