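import Pool.Agent.Lib.MP_4c1f79_al.StmN

/-!
# MP_4c1f79_al : the piece NPC

`NumPos` for the type `C`, from the link.
-/

set_option autoImplicit false

namespace Pool.Agent.Lib.MP_4c1f79_al

open J4c

/-- the entries of the form of type `C` -/
def NPC_b (n i j : ℕ) : ℤ :=
  if i = j then (if i = n + 2 then 4 else 2)
  else if i + 1 = j then (if j = n + 2 then -2 else -1)
  else if j + 1 = i then (if i = n + 2 then -2 else -1)
  else 0

theorem NPC_form (n : ℕ) (i j : Fin (DT.C n).rank) :
    (DT.C n).form i j = NPC_b n i.val j.val := by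
  have hi : i.val < n + 3 := i.2
  have hj : j.val < n + 3 := j.2
  have h1 : (DT.C n).form i j = (if i.val = j.val then (2 : ℤ)
      else if i.val + 1 = j.val then -1
      else if j.val + 1 = i.val then
        if i.val = n + 3 - 1 then -2 else -1
      else 0) * ((if j.val = n + 2 then 2 else 1 : ℕ) : ℤ) := by
    have h2 : (DT.C n).form i j = (if i = j then (2 : ℤ)
      else if i.val + 1 = j.val then -1
      else if j.val + 1 = i.val then
        if i.val = n + 3 - 1 then -2 else -1
      else 0) * ((if j.val = n + 2 then 2 else 1 : ℕ) : ℤ) := rfl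
    rw [h2]
    congr 1
    by_cases h : i = j
    · rw [if_pos h, if_pos (by rw [h])]
    · rw [if_neg h, if_neg (fun h' => h (Fin.ext h'))]
  rw [h1]
  unfold NPC_b
  split_ifs <;> omega

/-- The exchange of the last two vertices. -/
def NPC_sw (n : ℕ) : Equiv.Perm (Fin (n + 4)) :=
  Equiv.swap (⟨n + 4 - 2, by omega⟩ : Fin (n + 4)) ⟨n + 4 - 1, by omega⟩

theorem NPC_sw_val (n : ℕ) (v : Fin (n + 4)) : (NPC_sw n v).val
    = if v.val = n + 2 then n + 3 else if v.val = n + 3 then n + 2 else v.val := by
  unfold NPC_sw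
  rw [Equiv.swap_apply_def]
  have hv := v.2
  by_cases h1 : v.val = n + 2
  · have h2 : v = ⟨n + 4 - 2, by omega⟩ := Fin.ext (by simpa using h1)
    rw [if_pos h1, if_pos h2]
    rfl
  · have h2 : v ≠ ⟨n + 4 - 2, by omega⟩ := fun h => h1 (congrArg Fin.val h)
    rw [if_neg h1, if_neg h2]
    by_cases h3 : v.val = n + 3
    · have h4 : v = ⟨n + 4 - 1, by omega⟩ := Fin.ext (by simpa using h3)
      rw [if_pos h3, if_pos h4]
      rfl
    · have h4 : v ≠ ⟨n + 4 - 1, by omega⟩ := fun h => h3 (congrArg Fin.val h)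
      rw [if_neg h3, if_neg h4]

theorem NPC_sw_sw (n : ℕ) (v : Fin (n + 4)) : NPC_sw n (NPC_sw n v) = v := by
  unfold NPC_sw
  exact Equiv.swap_apply_self _ _ _

/-- The Nakayama permutation. -/
def NPC_st (n : ℕ) (v : Fin (n + 4)) : Fin (n + 4) :=
  if (n + 4) % 2 = 0 then v else NPC_sw n v

theorem NPC_st_val (n : ℕ) (v : Fin (n + 4)) : (NPC_st n v).val
    = if v.val + 2 < n + 4 ∨ (n + 4) % 2 = 0 then v.val else 2 * (n + 4) - 3 - v.val := by
  have hv := v.2
  unfold NPC_st
  by_cases h : (n + 4) % 2 = 0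
  · rw [if_pos h, if_pos (Or.inr h)]
  · rw [if_neg h, NPC_sw_val]
    split_ifs <;> omega

/-- The orbit of a vertex. -/
def NPC_ob (n : ℕ) (v : Fin (n + 4)) : Fin (DT.C n).rank :=
  (⟨min v.val (n + 2), by omega⟩ : Fin (n + 3))

theorem NPC_ob_eq (n : ℕ) (v : Fin (n + 4)) (i : Fin (DT.C n).rank) :
    NPC_ob n v = i ↔ min v.val (n + 2) = i.val := by
  constructor
  · rintro rfl
    rfl
  · intro h
    exact Fin.ext h

theorem NPC_ob_val (n : ℕ) (v : Fin (n + 4)) : (NPC_ob n v).val = min v.val (n + 2) := rfl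

/-- The representative of an orbit. -/
def NPC_rep (n : ℕ) (i : Fin (DT.C n).rank) : Fin (n + 4) :=
  ⟨i.val, by have : i.val < n + 3 := i.2; omega⟩

theorem NPC_ob_sw (n : ℕ) (v : Fin (n + 4)) : NPC_ob n (NPC_sw n v) = NPC_ob n v := by
  rw [NPC_ob_eq, NPC_sw_val]
  have hv := v.2
  change min _ _ = min v.val (n + 2)
  split_ifs <;> omega

theorem NPC_orb (n : ℕ) (v w : Fin (n + 4)) :
    NPC_ob n v = NPC_ob n w ↔ ∃ k : ℕ, w = (⇑(NPC_sw n))^[k] v := by
  constructor
  · intro h
    rw [NPC_ob_eq] at h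
    have h2 : min v.val (n + 2) = min w.val (n + 2) := h
    by_cases hvw : v = w
    · exact ⟨0, hvw.symm⟩
    · have h3 : v.val ≠ w.val := fun h => hvw (Fin.ext h)
      have hv := v.2
      have hw := w.2
      refine ⟨1, Fin.ext ?_⟩
      rw [Function.iterate_one, NPC_sw_val]
      split_ifs <;> omega
  · rintro ⟨k, rfl⟩
    induction k with
    | zero => rfl
    | succ k ih => rw [Function.iterate_succ_apply', NPC_ob_sw, ih]

theorem NPC_bip (n : ℕ) (v w : Fin (n + 4)) (h : adjD (n + 4) v w) :
    decide ((NPC_ob n v).val % 2 = 0) ≠ decide ((NPC_ob n w).val % 2 = 0) := by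
  intro h2
  have h3 : (NPC_ob n v).val = min v.val (n + 2) := rfl
  have h4 : (NPC_ob n w).val = min w.val (n + 2) := rfl
  rw [decide_eq_decide, h3, h4] at h2
  have hv := v.2
  have hw := w.2
  unfold adjD at h
  omega

theorem NPC_adj (n : ℕ) (v w : Fin (n + 4)) :
    adjD (n + 4) (NPC_sw n v) (NPC_sw n w) ↔ adjD (n + 4) v w := by
  have hv := v.2
  have hw := w.2
  unfold adjD
  rw [NPC_sw_val, NPC_sw_val]
  split_ifs <;> omega

theorem NPC_diag (n : ℕ) (i : Fin (DT.C n).rank) : (DT.C n).form i i
    = 2 * ((Finset.univ.filter fun v => NPC_ob n v = i).card : ℤ) := by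
  have hi : i.val < n + 3 := i.2
  rw [NPC_form]
  unfold NPC_b
  rw [if_pos rfl]
  by_cases h : i.val = n + 2
  · rw [if_pos h]
    have hs : (Finset.univ.filter fun v => NPC_ob n v = i)
        = {(⟨n + 2, by omega⟩ : Fin (n + 4)), ⟨n + 3, by omega⟩} := by
      ext v
      have hv := v.2
      simp only [Finset.mem_filter, Finset.mem_univ, true_and, NPC_ob_val, Finset.mem_insert,
        Finset.mem_singleton, Fin.ext_iff]
      omega
    rw [hs, Finset.card_pair]
    · norm_num
    · intro h2
      have h3 := congrArg Fin.val h2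
      simp at h3
  · rw [if_neg h]
    have hs : (Finset.univ.filter fun v => NPC_ob n v = i) = {NPC_rep n i} := by
      ext v
      have hv := v.2
      have hr : (NPC_rep n i).val = i.val := rfl
      simp only [Finset.mem_filter, Finset.mem_univ, true_and, NPC_ob_val,
        Finset.mem_singleton, Fin.ext_iff, hr]
      omega
    rw [hs, Finset.card_singleton]
    norm_num

theorem NPC_off (n : ℕ) (i j : Fin (DT.C n).rank) (hij : i ≠ j) : (DT.C n).form i j
    = - ((Finset.univ.filter fun p : Fin (n + 4) × Fin (n + 4) =>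
      NPC_ob n p.1 = i ∧ NPC_ob n p.2 = j ∧ adjD (n + 4) p.1 p.2).card : ℤ) := by
  have hi : i.val < n + 3 := i.2
  have hj : j.val < n + 3 := j.2
  have hij' : i.val ≠ j.val := fun h => hij (Fin.ext h)
  have hri : (NPC_rep n i).val = i.val := rfl
  have hrj : (NPC_rep n j).val = j.val := rfl
  rw [NPC_form]
  unfold NPC_b
  rw [if_neg hij']
  by_cases h1 : i.val + 1 = j.val
  · rw [if_pos h1]
    by_cases h2 : j.val = n + 2
    · rw [if_pos h2]
      have hs : (Finset.univ.filter fun p : Fin (n + 4) × Fin (n + 4) =>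
          NPC_ob n p.1 = i ∧ NPC_ob n p.2 = j ∧ adjD (n + 4) p.1 p.2)
          = {(NPC_rep n i, (⟨n + 2, by omega⟩ : Fin (n + 4))),
            (NPC_rep n i, (⟨n + 3, by omega⟩ : Fin (n + 4)))} := by
        ext ⟨v, w⟩
        have hv := v.2
        have hw := w.2
        simp only [Finset.mem_filter, Finset.mem_univ, true_and, NPC_ob_val, Finset.mem_insert,
          Finset.mem_singleton, Prod.mk.injEq, Fin.ext_iff, hri, adjD]
        omega
      rw [hs, Finset.card_pair]
      · norm_num
      · intro h3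
        have h4 := congrArg (fun p : Fin (n + 4) × Fin (n + 4) => p.2.val) h3
        simp at h4
    · rw [if_neg h2]
      have hs : (Finset.univ.filter fun p : Fin (n + 4) × Fin (n + 4) =>
          NPC_ob n p.1 = i ∧ NPC_ob n p.2 = j ∧ adjD (n + 4) p.1 p.2)
          = {(NPC_rep n i, NPC_rep n j)} := by
        ext ⟨v, w⟩
        have hv := v.2
        have hw := w.2
        simp only [Finset.mem_filter, Finset.mem_univ, true_and, NPC_ob_val,
          Finset.mem_singleton, Prod.mk.injEq, Fin.ext_iff, hri, hrj, adjD]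
        omega
      rw [hs, Finset.card_singleton]
      norm_num
  · rw [if_neg h1]
    by_cases h3 : j.val + 1 = i.val
    · rw [if_pos h3]
      by_cases h2 : i.val = n + 2
      · rw [if_pos h2]
        have hs : (Finset.univ.filter fun p : Fin (n + 4) × Fin (n + 4) =>
            NPC_ob n p.1 = i ∧ NPC_ob n p.2 = j ∧ adjD (n + 4) p.1 p.2)
            = {((⟨n + 2, by omega⟩ : Fin (n + 4)), NPC_rep n j),
              ((⟨n + 3, by omega⟩ : Fin (n + 4)), NPC_rep n j)} := by
          ext ⟨v, w⟩
          have hv := v.2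
          have hw := w.2
          simp only [Finset.mem_filter, Finset.mem_univ, true_and, NPC_ob_val, Finset.mem_insert,
            Finset.mem_singleton, Prod.mk.injEq, Fin.ext_iff, hrj, adjD]
          omega
        rw [hs, Finset.card_pair]
        · norm_num
        · intro h4
          have h5 := congrArg (fun p : Fin (n + 4) × Fin (n + 4) => p.1.val) h4
          simp at h5
      · rw [if_neg h2]
        have hs : (Finset.univ.filter fun p : Fin (n + 4) × Fin (n + 4) =>
            NPC_ob n p.1 = i ∧ NPC_ob n p.2 = j ∧ adjD (n + 4) p.1 p.2)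
            = {(NPC_rep n i, NPC_rep n j)} := by
          ext ⟨v, w⟩
          have hv := v.2
          have hw := w.2
          simp only [Finset.mem_filter, Finset.mem_univ, true_and, NPC_ob_val,
            Finset.mem_singleton, Prod.mk.injEq, Fin.ext_iff, hri, hrj, adjD]
          omega
        rw [hs, Finset.card_singleton]
        norm_num
    · rw [if_neg h3]
      have hs : (Finset.univ.filter fun p : Fin (n + 4) × Fin (n + 4) =>
          NPC_ob n p.1 = i ∧ NPC_ob n p.2 = j ∧ adjD (n + 4) p.1 p.2) = ∅ := by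
        ext ⟨v, w⟩
        have hv := v.2
        have hw := w.2
        simp only [Finset.mem_filter, Finset.mem_univ, true_and, NPC_ob_val, Fin.ext_iff,
          Finset.notMem_empty, iff_false, adjD]
        omega
      rw [hs, Finset.card_empty]
      norm_num

/-- The datum. -/
def NPC_X (hCKD : S_CKD) (hg : J4c.S_good_C) (n : ℕ) : Dt where
  V := Fin (n + 4)
  adj := adjD (n + 4)
  hs := adjD_symm (n + 4)
  L := 2 * (n + 4) - 2
  L2 := by omega
  T v w k := tabD (n + 4) v w k
  st := NPC_st n
  st_inj := by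
    intro v w h
    unfold NPC_st at h
    by_cases h1 : (n + 4) % 2 = 0
    · rw [if_pos h1, if_pos h1] at h
      exact h
    · rw [if_neg h1, if_neg h1] at h
      exact (NPC_sw n).injective h
  T0 v w := (hCKD (n + 4) (by omega) v w).1
  T1 v w := by
    rw [(hCKD (n + 4) (by omega) v w).2.1, Finset.sum_eq_single v]
    · rw [(hCKD (n + 4) (by omega) v v).1, if_pos rfl]
    · intro u _ hu
      rw [(hCKD (n + 4) (by omega) v u).1, if_neg hu]
      split_ifs <;> rfl
    · intro h
      exact absurd (Finset.mem_univ v) h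
  tre v w k hk := (hCKD (n + 4) (by omega) v w).2.2.1 k hk
  top v w := by
    have h1 : 2 * (n + 4) - 2 - 2 = 2 * (n + 4) - 4 := by omega
    rw [h1, (hCKD (n + 4) (by omega) v w).2.2.2.2.1, ← NPC_st_val]
    by_cases h : w = NPC_st n v
    · rw [if_pos h, if_pos (by rw [h])]
    · rw [if_neg h, if_neg (fun h' => h (Fin.ext h'))]
  bot v w := (hCKD (n + 4) (by omega) v w).2.2.2.2.2 _ (by omega)
  ι := Fin (DT.C n).rank
  b := (DT.C n).form
  hb := hg n
  σ := NPC_sw n
  r := 2
  r_pos := by omega
  ob := NPC_ob n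
  rep := NPC_rep n
  ob_rep i := by
    rw [NPC_ob_eq]
    have hi : i.val < n + 3 := i.2
    change min i.val (n + 2) = i.val
    omega
  orb := NPC_orb n
  c i := decide (i.val % 2 = 0)
  bip := NPC_bip n
  adj_σ := NPC_adj n
  per v := by
    change NPC_sw n (NPC_sw n v) = v
    exact NPC_sw_sw n v
  st_σ v := by
    unfold NPC_st
    split_ifs <;> rfl
  diag := NPC_diag n
  off := NPC_off n

theorem NPC_holds (hLNK : S_LNK) (hCKD : S_CKD) (hCLC : S_CLC) (hg : J4c.S_good_C) : S_NPC := by
  intro n
  exact hLNK (NPC_X hCKD hg n) fun a =>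
    hCLC (n + 4) (2 * (n + 4) - 2) (by omega) ((NPC_X hCKD hg n).typ a)

end Pool.Agent.Lib.MP_4c1f79_al
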