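import Pool.Agent.Lib.MP_4c1f79_al.StmN

/-!
# MP_4c1f79_al : type D, `NumPos` from the link
-/

set_option autoImplicit false

namespace Pool.Agent.Lib.MP_4c1f79_al

open J4c

private theorem NPD_form (n : ℕ) (i j : Fin (n + 4)) :
    (DT.D n).form i j = if i = j then 2 else if adjD (n + 4) i j then -1 else 0 := by
  have h4 : ¬ (n + 4 ≤ 2) := by omega
  have h : (DT.D n).form i j = if i.val = j.val then 2
      else if i.val + 1 = j.val ∧ j.val + 2 < n + 4 then -1
      else if j.val + 1 = i.val ∧ i.val + 2 < n + 4 then -1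
      else if i.val + 3 = n + 4 ∧ (j.val + 2 = n + 4 ∨ j.val + 1 = n + 4) then -1
      else if j.val + 3 = n + 4 ∧ (i.val + 2 = n + 4 ∨ i.val + 1 = n + 4) then -1
      else 0 := by
    simp only [DT.form, DT.cartan, DT.len, CartanMatrix.D, Matrix.of_apply, Nat.cast_one,
      mul_one, if_neg h4, Fin.ext_iff]
  rw [h]
  have hi := i.isLt
  have hj := j.isLt
  simp only [Fin.ext_iff, adjD]
  split_ifs <;> first | rfl | (exfalso; omega)

private theorem NPD_sum {N : ℕ} (u v : Fin N) :
    (∑ w : Fin N, if adjD N v w then (if w = u then 1 else 0) else 0)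
      = if adjD N v u then 1 else 0 := by
  rw [Finset.sum_eq_single u]
  · rw [if_pos rfl]
  · intro w _ hw
    rw [if_neg hw, ite_self]
  · intro h
    exact absurd (Finset.mem_univ u) h

/-- the permutation at the top -/
private def NPD_st (n : ℕ) (v : Fin (n + 4)) : Fin (n + 4) :=
  ⟨if v.1 + 2 < n + 4 ∨ (n + 4) % 2 = 0 then v.1 else 2 * (n + 4) - 3 - v.1, by
    have := v.isLt
    split_ifs <;> omega⟩

private theorem NPD_st_inj (n : ℕ) : Function.Injective (NPD_st n) := by
  intro v w h
  have h1 := congrArg Fin.val h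
  have hv := v.isLt
  have hw := w.isLt
  simp only [NPD_st] at h1
  apply Fin.ext
  split_ifs at h1 <;> omega

/-- the datum -/
private def NPD_X (hCKD : S_CKD) (hg : J4c.S_good_D) (n : ℕ) : Dt where
  V := Fin (n + 4)
  adj := adjD (n + 4)
  hs := adjD_symm (n + 4)
  L := 2 * (n + 4) - 2
  L2 := by omega
  T v w k := tabD (n + 4) v w k
  st := NPD_st n
  st_inj := NPD_st_inj n
  T0 v w := (hCKD (n + 4) (by omega) v w).1
  T1 v w := by
    have h := (hCKD (n + 4) (by omega) v w).2.1
    rw [h, ← NPD_sum]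
    apply Finset.sum_congr rfl
    intro u _
    rw [(hCKD (n + 4) (by omega) v u).1]
  tre v w k hk := (hCKD (n + 4) (by omega) v w).2.2.1 k hk
  top v w := by
    have h := (hCKD (n + 4) (by omega) v w).2.2.2.2.1
    have e : 2 * (n + 4) - 2 - 2 = 2 * (n + 4) - 4 := by omega
    rw [e, h]
    simp only [NPD_st, Fin.ext_iff]
  bot v w := (hCKD (n + 4) (by omega) v w).2.2.2.2.2 _ (by omega)
  ι := Fin (n + 4)
  b := (DT.D n).form
  hb := hg n
  σ := Equiv.refl _
  r := 1
  r_pos := Nat.one_pos
  ob := id
  rep := id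
  ob_rep _ := rfl
  orb v w := by
    constructor
    · intro h
      exact ⟨0, h.symm⟩
    · rintro ⟨k, hk⟩
      have h : ∀ k : ℕ, (⇑(Equiv.refl (Fin (n + 4))))^[k] v = v := by
        intro k
        induction k with
        | zero => rfl
        | succ k ih => rw [Function.iterate_succ_apply', ih]; rfl
      rw [h] at hk
      exact hk.symm
  c i := decide (min i.1 (n + 2) % 2 = 0)
  bip v w h := by
    have hv := v.isLt
    have hw := w.isLt
    intro h1
    have h2 : (min v.1 (n + 2) % 2 = 0) ↔ (min w.1 (n + 2) % 2 = 0) := decide_eq_decide.1 h1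
    unfold adjD at h
    omega
  adj_σ _ _ := Iff.rfl
  per _ := rfl
  st_σ _ := rfl
  diag i := by
    rw [NPD_form, if_pos rfl]
    have h : (Finset.univ.filter fun v : Fin (n + 4) => id v = i) = {i} := by
      ext v
      simp
    rw [h, Finset.card_singleton]
    norm_num
  off i j hij := by
    rw [NPD_form, if_neg hij]
    by_cases ha : adjD (n + 4) i j
    · rw [if_pos ha]
      have h : (Finset.univ.filter fun p : Fin (n + 4) × Fin (n + 4) =>
          id p.1 = i ∧ id p.2 = j ∧ adjD (n + 4) p.1 p.2) = {(i, j)} := by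
        ext ⟨v, w⟩
        simp only [Finset.mem_filter, Finset.mem_univ, true_and, id, Finset.mem_singleton,
          Prod.mk.injEq]
        constructor
        · rintro ⟨h1, h2, _⟩
          exact ⟨h1, h2⟩
        · rintro ⟨rfl, rfl⟩
          exact ⟨rfl, rfl, ha⟩
      rw [h, Finset.card_singleton]
      norm_num
    · rw [if_neg ha]
      have h : (Finset.univ.filter fun p : Fin (n + 4) × Fin (n + 4) =>
          id p.1 = i ∧ id p.2 = j ∧ adjD (n + 4) p.1 p.2) = ∅ := by
        ext ⟨v, w⟩
        simp only [Finset.mem_filter, Finset.mem_univ, true_and, id, Finset.notMem_empty,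
          iff_false]
        rintro ⟨rfl, rfl, h3⟩
        exact ha h3
      rw [h, Finset.card_empty]
      norm_num

theorem NPD_holds (hLNK : S_LNK) (hCKD : S_CKD) (hCLD : S_CLD) (hg : J4c.S_good_D) : S_NPD := by
  intro n
  exact hLNK (NPD_X hCKD hg n) fun a => hCLD (n + 4) (2 * (n + 4) - 2) (by omega) _

end Pool.Agent.Lib.MP_4c1f79_al
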