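import Pool.Agent.Lib.MP_4c1f79_al.StmI

/-!
# MP_4c1f79_al : piece ONT (if the numbers fit, the map is onto)
-/

set_option autoImplicit false

namespace Pool.Agent.Lib.MP_4c1f79_al

open Finset Module

section

variable {P : Type} [Fintype P] {M : Mesh P} {K : Type} [Field K]

/-- rank and nullity for the restriction of a linear map to a subspace -/
private theorem ONT_rn {T T' : Type} [AddCommGroup T] [Module K T] [AddCommGroup T'] [Module K T']
    [Module.Finite K T] (f : T →ₗ[K] T') (V : Submodule K T) :
    finrank K (V.map f) + finrank K (V ⊓ LinearMap.ker f : Submodule K T) = finrank K V := by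
  have h1 := LinearMap.finrank_range_add_finrank_ker (f.comp V.subtype)
  have h2 : LinearMap.range (f.comp V.subtype) = V.map f := by
    rw [LinearMap.range_comp, Submodule.range_subtype]
  have h3 : LinearMap.ker (f.comp V.subtype) = (LinearMap.ker f).comap V.subtype :=
    LinearMap.ker_comp _ _
  have h4 : finrank K (LinearMap.ker (f.comp V.subtype)) =
      finrank K (V ⊓ LinearMap.ker f : Submodule K T) := by
    rw [h3, ← Submodule.map_comap_subtype]
    exact (LinearEquiv.finrank_eq (Submodule.equivMapOfInjective V.subtype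
      V.injective_subtype _))
  rw [← h1, h2, h4]

/-- the vectors supported on the successors of `p` -/
private def ONT_Y (R : Rp M K) (p : P) : Submodule K R.T where
  carrier := {y | ∀ q, ¬ M.Ar p q → R.e q y = 0}
  zero_mem' := fun q _ => map_zero _
  add_mem' := fun {x y} hx hy q hq => by rw [map_add, hx q hq, hy q hq, add_zero]
  smul_mem' := fun c x hx q hq => by rw [map_smul, hx q hq, smul_zero]

private theorem ONT_mem {R : Rp M K} {p : P} {x : R.T} :
    x ∈ LinearMap.range (R.e p) ↔ R.e p x = x := by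
  constructor
  · rintro ⟨y, rfl⟩
    exact R.e_e p y
  · intro h
    exact ⟨x, h⟩

/-- the dimension of `ONT_Y` -/
private theorem ONT_Y_rank (R : Rp M K) (p : P) : finrank K (ONT_Y R p) = sA M R.dm p := by
  classical
  have hfin : Module.Finite K R.T := Module.Finite.of_finite
  let f : ONT_Y R p →ₗ[K] (∀ q : {q // M.Ar p q}, LinearMap.range (R.e q.1)) :=
    LinearMap.pi fun q => ((R.e q.1).rangeRestrict).comp (ONT_Y R p).subtype
  have hf : ∀ y q, ((f y q : LinearMap.range (R.e q.1)) : R.T) = R.e q.1 y.1 := fun y q => rfl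
  have hbij : Function.Bijective f := by
    constructor
    · rw [← LinearMap.ker_eq_bot, LinearMap.ker_eq_bot']
      intro y hy
      apply Subtype.ext
      show y.1 = 0
      rw [← R.e_sum y.1]
      refine Finset.sum_eq_zero fun q _ => ?_
      by_cases hq : M.Ar p q
      · rw [← hf y ⟨q, hq⟩, hy]
        rfl
      · exact y.2 q hq
    · intro v
      have key : ∀ q' : P, R.e q' (∑ q : {q // M.Ar p q}, (v q : R.T)) =
          if h : M.Ar p q' then (v ⟨q', h⟩ : R.T) else 0 := by
        intro q'
        rw [map_sum]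
        split_ifs with h
        · rw [Finset.sum_eq_single (⟨q', h⟩ : {q // M.Ar p q})]
          · exact ONT_mem.1 (v ⟨q', h⟩).2
          · intro q _ hq
            rw [← ONT_mem.1 (v q).2]
            exact R.e_ne q' q.1 _ fun e => hq (Subtype.ext e.symm)
          · intro h'
            exact absurd (Finset.mem_univ _) h'
        · refine Finset.sum_eq_zero fun q _ => ?_
          rw [← ONT_mem.1 (v q).2]
          exact R.e_ne q' q.1 _ fun e => h (e ▸ q.2)
      refine ⟨⟨∑ q : {q // M.Ar p q}, (v q : R.T), fun q hq => ?_⟩, ?_⟩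
      · rw [key, dif_neg hq]
      · funext q
        apply Subtype.ext
        rw [hf, key, dif_pos q.2]
  rw [LinearEquiv.finrank_eq (LinearEquiv.ofBijective f hbij), Module.finrank_pi_fintype]
  unfold sA Rp.dm
  rw [← Finset.sum_filter, Finset.sum_subtype (univ.filter (M.Ar p)) (p := M.Ar p)
    (fun q => by simp)]

end

/-- PIECE ONT -/
theorem ONT_holds : S_ONT := by
  classical
  intro P _ M K _ R p r hgood hr hnum
  have hfin : Module.Finite K R.T := Module.Finite.of_finite
  -- the kernel of `a` at `p`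
  have h1 := ONT_rn R.a (LinearMap.range (R.e p))
  have h1' : finrank K ((LinearMap.range (R.e p)).map R.a) + R.sc p = R.dm p := h1
  have hY := ONT_Y_rank R p
  have himg : ∀ y : R.T, y ∈ (LinearMap.range (R.e p)).map R.a ↔
      y ∈ ONT_Y R p ∧ ∀ r, M.Tau p r → R.e r (R.a y) = 0 := by
    intro y
    constructor
    · rintro ⟨x, hx, rfl⟩
      have hx' : R.e p x = x := ONT_mem.1 hx
      refine ⟨fun q hq => ?_, fun r hr => ?_⟩
      · rw [← hx']
        exact R.a_ar p q x hq
      · rw [← hx']
        exact R.mesh p r x hr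
    · rintro ⟨hy1, hy2⟩
      obtain ⟨x, hx1, hx2⟩ := hgood y hy1 hy2
      exact ⟨x, ONT_mem.2 hx1, hx2⟩
  have h2 := ONT_rn ((R.e r).comp R.a) (ONT_Y R p)
  have hker : (ONT_Y R p ⊓ LinearMap.ker ((R.e r).comp R.a) : Submodule K R.T) =
      (LinearMap.range (R.e p)).map R.a := by
    ext y
    rw [himg]
    constructor
    · rintro ⟨hy1, hy2⟩
      refine ⟨hy1, fun r' hr' => ?_⟩
      rw [M.tau_fun p r' r hr' hr]
      exact hy2
    · rintro ⟨hy1, hy2⟩
      exact ⟨hy1, hy2 r hr⟩
  rw [hker, hY] at h2
  have hle : (ONT_Y R p).map ((R.e r).comp R.a) ≤ LinearMap.range (R.e r) := by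
    rintro _ ⟨y, -, rfl⟩
    exact ⟨R.a y, rfl⟩
  have h3 : finrank K ((ONT_Y R p).map ((R.e r).comp R.a)) = R.dm r := by omega
  have h4 : (ONT_Y R p).map ((R.e r).comp R.a) = LinearMap.range (R.e r) :=
    Submodule.eq_of_le_of_finrank_eq hle h3
  intro y hy
  have hy' : y ∈ (ONT_Y R p).map ((R.e r).comp R.a) := by
    rw [h4]
    exact ONT_mem.2 hy
  obtain ⟨z, -, hz⟩ := hy'
  exact ⟨z, hz⟩

end Pool.Agent.Lib.MP_4c1f79_al
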