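import Pool.Agent.Lib.MP_4c1f79_al.StmB

/-!
# MP_4c1f79_al : piece BND (bounds for dimension vectors)
-/

set_option autoImplicit false

namespace Pool.Agent.Lib.MP_4c1f79_al

open Finset Module

theorem BND_step {P : Type} [Fintype P] {M : Mesh P} {K : Type} [Field K] (R : Rp M K) (p : P)
    (c : P → ℕ) (hc : ∀ q, M.Ar p q → R.dm q ≤ c q) : R.dm p ≤ R.sc p + ∑ q, c q := by
  classical
  have hfin : Module.Finite K R.T := Module.Finite.of_finite
  let V : Submodule K R.T := LinearMap.range (R.e p)
  let φ : V →ₗ[K] ((q : {q // M.Ar p q}) → LinearMap.range (R.e q.1)) :=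
    LinearMap.pi fun q => (R.e q.1).rangeRestrict ∘ₗ R.a ∘ₗ V.subtype
  have hφ : ∀ (x : V) (q : {q // M.Ar p q}), ((φ x q : LinearMap.range (R.e q.1)) : R.T) =
      R.e q.1 (R.a x.1) := fun x q => rfl
  have h1 := LinearMap.finrank_range_add_finrank_ker φ
  have h2 : finrank K (LinearMap.range φ) ≤ ∑ q, c q := by
    have h3 : finrank K (LinearMap.range φ) ≤
        finrank K ((q : {q // M.Ar p q}) → LinearMap.range (R.e q.1)) :=
      Submodule.finrank_le _
    rw [Module.finrank_pi_fintype] at h3
    refine h3.trans ?_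
    have h4 : ∑ q : {q // M.Ar p q}, finrank K (LinearMap.range (R.e q.1)) ≤
        ∑ q : {q // M.Ar p q}, c q.1 := Finset.sum_le_sum fun q _ => hc q.1 q.2
    refine h4.trans ?_
    have h5 := Fintype.sum_subtype_add_sum_subtype (fun q => M.Ar p q) c
    omega
  have h5 : finrank K (LinearMap.ker φ) ≤ R.sc p := by
    have h6 : (LinearMap.ker φ).map V.subtype ≤
        (LinearMap.range (R.e p) ⊓ LinearMap.ker R.a : Submodule K R.T) := by
      rintro _ ⟨x, hx, rfl⟩
      refine ⟨x.2, ?_⟩
      obtain ⟨y, hy⟩ := x.2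
      change R.a x.1 = 0
      rw [← R.e_sum (R.a x.1)]
      apply Finset.sum_eq_zero
      intro q _
      by_cases hq : M.Ar p q
      · have h7 : φ x = 0 := hx
        have h8 := hφ x ⟨q, hq⟩
        rw [h7] at h8
        exact h8.symm
      · rw [← hy]
        exact R.a_ar p q y hq
    have h9 := Submodule.finrank_mono h6
    rw [Submodule.finrank_map_subtype_eq] at h9
    exact h9
  have h10 : R.dm p = finrank K V := rfl
  omega

theorem BND_holds : S_BND := by
  intro P _ M
  constructor
  · intro m
    have key : ∀ n : ℕ, ∃ b : P → ℕ, ∀ (K : Type) [Field K] (R : Rp M K),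
        (∀ p, R.sc p ≤ m p) → ∀ p, M.lv p < n → R.dm p ≤ b p := by
      intro n
      induction n with
      | zero => exact ⟨0, fun K _ R _ p hp => absurd hp (Nat.not_lt_zero _)⟩
      | succ n ih =>
        obtain ⟨b, hb⟩ := ih
        refine ⟨fun p => m p + ∑ q, b q, ?_⟩
        intro K _ R hR p hp
        have h1 := BND_step R p b (fun q hq => hb K R hR q (by
          have := M.lv_ar p q hq
          omega))
        have h2 := hR p
        change R.dm p ≤ m p + ∑ q, b q
        omega
    obtain ⟨b, hb⟩ := key ((∑ p, M.lv p) + 1)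
    refine ⟨b, ?_⟩
    intro K _ R hR p
    apply hb K R hR p
    have h1 : M.lv p ≤ ∑ p, M.lv p :=
      Finset.single_le_sum (f := M.lv) (fun _ _ => Nat.zero_le _) (Finset.mem_univ p)
    omega
  · intro K _ R n h
    have key : ∀ k : ℕ, ∀ p, M.lv p = k → M.lv p < n → R.dm p = 0 := by
      intro k
      induction k using Nat.strong_induction_on with
      | _ k ih =>
        intro p hpk hp
        have h1 := BND_step R p (fun _ => 0) (fun q hq => by
          have h2 := M.lv_ar p q hq
          rw [ih (M.lv q) (by omega) q rfl (by omega)])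
        rw [h p hp, Finset.sum_const_zero] at h1
        omega
    exact fun p hp => key _ p rfl hp

end Pool.Agent.Lib.MP_4c1f79_al
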