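import Pool.Agent.Lib.MP_4c1f79_al.P.P_FAL

/-!
# MP_4c1f79_al : the rows `1, 2, 3, 5` of the F4 window
-/

set_option autoImplicit false

namespace Pool.Agent.Lib.MP_4c1f79_al

open Finset Module

namespace F4D

/-- The tables of D4 (rows `1, 2, 3, 5`). -/
def tabD : Fin 6 → List (List ℕ) := ![
  [],
  [[0, 1, 0, 0, 0, 0], [0, 0, 1, 0, 0, 0], [0, 0, 0, 1, 0, 1], [0, 0, 1, 0, 0, 0],
   [0, 1, 0, 0, 0, 0]],
  [[0, 0, 1, 0, 0, 0], [0, 1, 0, 1, 0, 1], [0, 0, 2, 0, 0, 0], [0, 1, 0, 1, 0, 1],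
   [0, 0, 1, 0, 0, 0]],
  [[0, 0, 0, 1, 0, 0], [0, 0, 1, 0, 0, 0], [0, 1, 0, 0, 0, 1], [0, 0, 1, 0, 0, 0],
   [0, 0, 0, 1, 0, 0]],
  [],
  [[0, 0, 0, 0, 0, 1], [0, 0, 1, 0, 0, 0], [0, 1, 0, 1, 0, 0], [0, 0, 1, 0, 0, 0],
   [0, 0, 0, 0, 0, 1]]]

/-- The tables of D4 for the socle at `(v, l)`. -/
def TD (v : Fin 6) (l : ℕ) : List (List ℕ) := List.replicate l [] ++ tabD v

/-- The tables of A2 (rows `2, 5`) for the socle at `(v, l)`. -/
def TA (v : Fin 6) (l : ℕ) : List (List ℕ) := List.replicate l [] ++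
  (if v = 2 then [[0, 0, 1, 0, 0, 0], [0, 0, 0, 0, 0, 1]]
    else [[0, 0, 0, 0, 0, 1], [0, 0, 1, 0, 0, 0]])

/-- The window of the rows `2, 5`. -/
def W25 : Fin 6 → ℕ → Bool := fun v _ => v == 2 || v == 5

theorem okD : ∀ (v : Fin 6) (l : Fin 12), (v ≠ 0 ∧ v ≠ 4) →
    okT eF (WF fun _ => true) (TD v l) v l 11 = true := by
  decide +kernel

theorem okA : ∀ (v : Fin 6) (l : Fin 12), (v = 2 ∨ v = 5) →
    okT eF W25 (TA v l) v l 11 = true := by
  decide +kernel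

theorem ncA : ncT W25 11 = true := by decide +kernel

theorem thinD : ∀ (v : Fin 6) (l : Fin 12), (v ≠ 0 ∧ v ≠ 4) → ∀ w : Fin 6,
    (w = 1 ∨ w = 3) → ∀ k : Fin 12, tval (TD v l) w k
      + (if sgF v = v then 0 else tval (TD (sgF v) l) w k) ≤ 1 := by
  decide +kernel

theorem thinA : ∀ (v : Fin 6) (l : Fin 12), (v = 2 ∨ v = 5) → ∀ w : Fin 6, ∀ k : Fin 12,
    tval (TA v l) w k ≤ 1 := by
  decide +kernel

theorem mem_W25 (p : Fin 6 × Fin 12) : p ∈ (winB W25 : Set (Fin 6 × Fin 12)) ↔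
    (p.1 = 2 ∨ p.1 = 5) := by
  simp [winB, W25]

/-- The dimensions of the module of type `ind E` for an orbit `E`. -/
theorem dm_le (hTBM : S_TBM) (W : Fin 6 → ℕ → Bool) (T : Fin 6 → ℕ → List (List ℕ))
    (hnc : ncT W 11 = true)
    (hok : ∀ (v : Fin 6) (l : Fin 12), (v, l) ∈ (winB W : Set (Fin 6 × Fin 12)) →
      okT eF W (T v l) v l 11 = true)
    (E : Set (Fin 6 × Fin 12)) (u : Fin 6 × Fin 12)
    (hEm : ∀ x, x ∈ E ↔ (x = u ∨ x = sF u)) (hEW : E ⊆ winB W)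
    (K : Type) [Field K] (D : Fd K) (N : FM MF sF K D)
    (hN : N.GT (winB W) (ind E)) (p : Fin 6 × Fin 12) :
    N.toRp.dm p ≤ tval (T u.1 u.2) p.1 p.2
      + (if sgF u.1 = u.1 then 0 else tval (T (sgF u.1) u.2) p.1 p.2) := by
  have hfin : Finite K := by
    apply Nat.finite_of_card_ne_zero
    rw [D.card_K]
    exact pow_ne_zero _ (by have := D.q_gt; omega)
  have h2 : N.toRp.dm p = ∑ x : Fin 6 × Fin 12, N.toRp.sc x * tval (T x.1 x.2) p.1 p.2 :=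
    hTBM 6 12 eF eF_symm W (fun v l => T v l) 11 (by norm_num)
      hnc K N.toRp hN.1 (fun v l hvl => hok v l (by
        apply hEW
        by_contra h
        apply hvl
        exact (hN.2 (v, l)).trans (Set.indicator_of_notMem h _))) p (by omega)
  have h3 : N.toRp.dm p ≤ tval (T u.1 u.2) p.1 p.2
      + (if sF u = u then 0 else tval (T (sF u).1 (sF u).2) p.1 p.2) := by
    rw [h2]
    have h4 := FAL.ind_sum E u (fun x hx => (hEm x).1 hx) (fun x => tval (T x.1 x.2) p.1 p.2)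
    calc ∑ x : Fin 6 × Fin 12, N.toRp.sc x * tval (T x.1 x.2) p.1 p.2
        = ∑ x : Fin 6 × Fin 12, ind E x * tval (T x.1 x.2) p.1 p.2 := by
          refine Finset.sum_congr rfl fun x _ => ?_
          rw [hN.2]
      _ ≤ _ := h4
  have h5 : (if sF u = u then 0 else tval (T (sF u).1 (sF u).2) p.1 p.2)
      = (if sgF u.1 = u.1 then 0 else tval (T (sgF u.1) u.2) p.1 p.2) := by
    have h6 : (sF u = u) ↔ (sgF u.1 = u.1) := by
      constructor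
      · intro h; exact congrArg Prod.fst h
      · intro h; exact Prod.ext h rfl
    by_cases h7 : sF u = u
    · rw [if_pos h7, if_pos (h6.1 h7)]
    · rw [if_neg h7, if_neg (fun h => h7 (h6.2 h))]
      rfl
  rwa [h5] at h3

theorem sg25 : ∀ v : Fin 6, (v = 2 ∨ v = 5) → sgF v = v := by decide

theorem sg13 : ∀ v : Fin 6, (sgF v = 1 ∨ sgF v = 3) ↔ (v = 1 ∨ v = 3) := by decide

theorem sg25' : ∀ v : Fin 6, (sgF v = 2 ∨ sgF v = 5) ↔ (v = 2 ∨ v = 5) := by decide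

theorem pos25 (hTH1 : S_TH1) (hPE0 : S_PE0) (hTBM : S_TBM) :
    PosC MF sF 2 (winB W25 : Set (Fin 6 × Fin 12)) := by
  refine hTH1 _ MF sF 2 (winB W25) (winB W25) ⟨sF_sym, sF_per, ?_⟩ ?_ (le_refl _) ?_ ?_ ?_
  · intro p
    rw [mem_W25, mem_W25]
    exact sg25' p.1
  · intro p
    rw [mem_W25, mem_W25]
    exact sg25' p.1
  · intro p hp hp'
    exact absurd hp hp'
  · intro E hE hEW K _ D _ N hN p _
    obtain ⟨u, hu⟩ := hE
    have hEm : ∀ x, x ∈ E ↔ (x = u ∨ x = sF u) := by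
      intro x
      rw [hu]
      exact FAL.orb u x
    have huW : u.1 = 2 ∨ u.1 = 5 := (mem_W25 u).1 (hEW ((hEm u).2 (Or.inl rfl)))
    have h1 := dm_le hTBM W25 TA ncA
      (fun v l hvl => okA v l ((mem_W25 (v, l)).1 hvl)) E u hEm hEW K D N hN p
    rw [if_pos (sg25 u.1 huW)] at h1
    have h2 := thinA u.1 u.2 huW p.1 p.2
    omega
  · rw [Set.sdiff_self]
    exact hPE0 _ MF sF 2

end F4D

/-- Positivity over the rows `1, 2, 3, 5`. -/
theorem F4_U4 (hTH1 : S_TH1) (hPE0 : S_PE0) (hTBM : S_TBM) : PosC MF sF 2 U4F := by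
  rw [← WF_all]
  refine hTH1 _ MF sF 2 (winB (WF fun _ => true)) {p | p.1 = 1 ∨ p.1 = 3} (adm_F _) ?_ ?_ ?_ ?_ ?_
  · intro p
    exact F4D.sg13 p.1
  · intro p hp
    rw [WF_all]
    rcases hp with h | h
    · constructor <;> rw [h] <;> decide
    · constructor <;> rw [h] <;> decide
  · intro p _ hp x hx ht
    apply hp
    have h1 : p.1 = x.1 := ht.1
    show p.1 = 1 ∨ p.1 = 3
    rw [h1]
    exact hx
  · intro E hE hEW K _ D _ N hN p hp
    obtain ⟨u, hu⟩ := hE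
    have hEm : ∀ x, x ∈ E ↔ (x = u ∨ x = sF u) := by
      intro x
      rw [hu]
      exact FAL.orb u x
    have hW : ∀ q : Fin 6 × Fin 12, q ∈ (winB (WF fun _ => true) : Set (Fin 6 × Fin 12)) →
        q.1 ≠ 0 ∧ q.1 ≠ 4 := by
      intro q hq
      rw [WF_all] at hq
      exact hq
    have huW := hW u (hEW ((hEm u).2 (Or.inl rfl)))
    have h1 := F4D.dm_le hTBM (WF fun _ => true) F4D.TD ncF5
      (fun v l hvl => F4D.okD v l (hW (v, l) hvl)) E u hEm hEW K D N hN p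
    have h2 := F4D.thinD u.1 u.2 huW p.1 hp p.2
    omega
  · have h : (winB (WF fun _ => true) : Set (Fin 6 × Fin 12)) \ {p | p.1 = 1 ∨ p.1 = 3}
        = winB F4D.W25 := by
      ext p
      rw [F4D.mem_W25, Set.mem_sdiff, WF_all]
      show ((p.1 ≠ 0 ∧ p.1 ≠ 4) ∧ ¬ (p.1 = 1 ∨ p.1 = 3)) ↔ _
      have : ∀ v : Fin 6, ((v ≠ 0 ∧ v ≠ 4) ∧ ¬ (v = 1 ∨ v = 3)) ↔ (v = 2 ∨ v = 5) := by decide
      exact this p.1
    rw [h]
    exact F4D.pos25 hTH1 hPE0 hTBM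

end Pool.Agent.Lib.MP_4c1f79_al
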