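import Pool.Agent.Lib.MP_4c1f79_al.StmF

/-!
# MP_4c1f79_al : the F4 window, all types which are needed
-/

set_option autoImplicit false

namespace Pool.Agent.Lib.MP_4c1f79_al

open Finset Module

namespace FAL

theorem sF2 (u : Fin 6 × Fin 12) : sF (sF u) = u := sF_per u

theorem orb (u x : Fin 6 × Fin 12) : (∃ i : ℕ, x = (⇑sF)^[i] u) ↔ (x = u ∨ x = sF u) := by
  constructor
  · rintro ⟨i, rfl⟩
    induction i with
    | zero => exact Or.inl rfl
    | succ i ih =>
      rw [Function.iterate_succ_apply']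
      rcases ih with h | h
      · exact Or.inr (by rw [h])
      · exact Or.inl (by rw [h, sF2])
  · rintro (h | h)
    · exact ⟨0, h⟩
    · exact ⟨1, h⟩

theorem thin : ∀ (v : Fin 6) (l : Fin 12), ¬ (v = 1 ∨ v = 3) → ∀ w : Fin 6,
    (w = 0 ∨ w = 4) → ∀ k : Fin 12, tval (TF v l) w k
      + (if sgF v = v then 0 else tval (TF (sgF v) l) w k) ≤ 1 := by
  decide +kernel

theorem ind_le (E : Set (Fin 6 × Fin 12)) (u : Fin 6 × Fin 12) : ind E u ≤ 1 := by
  by_cases h : u ∈ E
  · rw [ind, Set.indicator_of_mem h]; exact le_rfl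
  · rw [ind, Set.indicator_of_notMem h]; exact Nat.zero_le _

theorem ind_sum (E : Set (Fin 6 × Fin 12)) (u : Fin 6 × Fin 12)
    (hE : ∀ x ∈ E, x = u ∨ x = sF u) (f : Fin 6 × Fin 12 → ℕ) :
    ∑ x, ind E x * f x ≤ f u + (if sF u = u then 0 else f (sF u)) := by
  classical
  have h1 : ∀ x, ind E x * f x ≤ (if x = u then f u else 0)
      + (if x = sF u then (if sF u = u then 0 else f (sF u)) else 0) := by
    intro x
    by_cases hx : x ∈ E
    · have h2 : ind E x * f x ≤ f x := by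
        calc ind E x * f x ≤ 1 * f x := Nat.mul_le_mul_right _ (ind_le E x)
          _ = f x := one_mul _
      rcases eq_or_ne x u with h | h
      · rw [if_pos h]
        rw [h] at h2 ⊢
        exact h2.trans (Nat.le_add_right _ _)
      · have h3 : x = sF u := (hE x hx).resolve_left h
        rw [if_neg h, if_pos h3, if_neg (h3 ▸ h), zero_add, ← h3]
        exact h2
    · rw [ind, Set.indicator_of_notMem hx, zero_mul]
      exact Nat.zero_le _
  calc ∑ x, ind E x * f x ≤ ∑ x, ((if x = u then f u else 0)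
      + (if x = sF u then (if sF u = u then 0 else f (sF u)) else 0)) :=
        Finset.sum_le_sum fun x _ => h1 x
    _ = f u + (if sF u = u then 0 else f (sF u)) := by
        rw [Finset.sum_add_distrib, Finset.sum_ite_eq' Finset.univ u,
          Finset.sum_ite_eq' Finset.univ (sF u), if_pos (Finset.mem_univ _),
          if_pos (Finset.mem_univ _)]

/-- The orbits outside the rows `1, 3` are thin on the rows `0, 4`. -/
theorem thin_orb (hTBM : S_TBM) (E : Set (Fin 6 × Fin 12)) (hE : Orb sF E)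
    (h13 : ∀ p ∈ E, ¬ (p.1 = 1 ∨ p.1 = 3)) (K : Type) [Field K] (D : Fd K) (N : FM MF sF K D)
    (hN : N.GT Set.univ (ind E)) (p : Fin 6 × Fin 12) (hp : p ∈ LF) : N.toRp.dm p ≤ 1 := by
  have hfin : Finite K := by
    apply Nat.finite_of_card_ne_zero
    rw [D.card_K]
    exact pow_ne_zero _ (by have := D.q_gt; omega)
  obtain ⟨u, hu⟩ := hE
  have hEm : ∀ x, x ∈ E ↔ (x = u ∨ x = sF u) := by
    intro x
    rw [hu]
    exact orb u x
  have hG : N.toRp.Good (winB (WF fun _ => false)) := by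
    rw [WF_none]
    exact hN.1
  have h2 : N.toRp.dm p = ∑ x : Fin 6 × Fin 12, N.toRp.sc x * tval (TF x.1 x.2) p.1 p.2 :=
    hTBM 6 12 eF eF_symm (WF fun _ => false) (fun v l => TF v l) 11 (by norm_num)
      ncF K N.toRp hG (fun v l _ => okF v l) p (by omega)
  have h3 : N.toRp.dm p ≤ tval (TF u.1 u.2) p.1 p.2
      + (if sF u = u then 0 else tval (TF (sF u).1 (sF u).2) p.1 p.2) := by
    rw [h2]
    have h4 := ind_sum E u (fun x hx => (hEm x).1 hx) (fun x => tval (TF x.1 x.2) p.1 p.2)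
    calc ∑ x : Fin 6 × Fin 12, N.toRp.sc x * tval (TF x.1 x.2) p.1 p.2
        = ∑ x : Fin 6 × Fin 12, ind E x * tval (TF x.1 x.2) p.1 p.2 := by
          refine Finset.sum_congr rfl fun x _ => ?_
          rw [hN.2]
      _ ≤ _ := h4
  have h4 := thin u.1 u.2 (h13 u ((hEm u).2 (Or.inl rfl))) p.1 hp p.2
  have h5 : (if sF u = u then 0 else tval (TF (sF u).1 (sF u).2) p.1 p.2)
      = (if sgF u.1 = u.1 then 0 else tval (TF (sgF u.1) u.2) p.1 p.2) := by
    have h6 : (sF u = u) ↔ (sgF u.1 = u.1) := by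
      constructor
      · intro h; exact congrArg Prod.fst h
      · intro h; exact Prod.ext h rfl
    by_cases h7 : sF u = u
    · rw [if_pos h7, if_pos (h6.1 h7)]
    · rw [if_neg h7, if_neg (fun h => h7 (h6.2 h))]
      rfl
  rw [h5] at h3
  omega

end FAL

/-- The orbits outside the rows `1, 3`. -/
theorem F4_thin (hTHN : S_THN) (hTBM : S_TBM) (hP : PosC MF sF 2 U4F)
    (E : Set (Fin 6 × Fin 12)) (hE : Orb sF E) (h13 : ∀ p ∈ E, ¬ (p.1 = 1 ∨ p.1 = 3)) :
    PosT MF sF 2 Set.univ (ind E) := by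
  intro d
  refine hTHN _ MF sF 2 Set.univ LF E adm_univF LF_stab (Set.subset_univ _) hE
    (Set.subset_univ _) d ?_ ?_ ?_
  · intro p _ hp x hx ht
    exfalso
    apply hp
    have h1 : p.1 = x.1 := ht.1
    show p.1 = 0 ∨ p.1 = 4
    rw [h1]
    exact hx
  · intro K _ D _ N hN p hp
    have := FAL.thin_orb hTBM E hE h13 K D N hN p hp
    omega
  · intro m' _
    have h : (Set.univ : Set (Fin 6 × Fin 12)) \ LF = U4F := by
      ext p
      simp only [Set.mem_sdiff, Set.mem_univ, true_and, LF, U4F, Set.mem_ofPred_eq]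
      tauto
    rw [h]
    exact hP m'

/-- All types whose support on the rows `1, 3` is at level `0`. -/
theorem F4_all (hTHN : S_THN) (hPEM : S_PEM) (hTBM : S_TBM) (hP : PosC MF sF 2 U4F)
    (hb : PosT MF sF 2 Set.univ (ind bF)) (m : Fin 6 × Fin 12 → ℕ)
    (hm : ∀ p, (p.1 = 1 ∨ p.1 = 3) → p.2 ≠ 0 → m p = 0) : PosT MF sF 2 Set.univ m := by
  refine hPEM _ MF sF 2 Set.univ adm_univF m ?_
  intro E hE _ hEm
  by_cases h13 : ∀ p ∈ E, ¬ (p.1 = 1 ∨ p.1 = 3)
  · exact F4_thin hTHN hTBM hP E hE h13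
  · push Not at h13
    obtain ⟨p, hpE, hp⟩ := h13
    have hp2 : p.2 = 0 := by
      by_contra h
      exact hEm p hpE (hm p hp h)
    have : E = bF := by
      obtain ⟨u, hu⟩ := hE
      have hEm' : ∀ x, x ∈ E ↔ (x = u ∨ x = sF u) := by
        intro x
        rw [hu]
        exact FAL.orb u x
      have h7 : ∀ a : Fin 6, (a = 1 ∨ a = 3) → ∀ x : Fin 6 × Fin 12,
          (x = (a, 0) ∨ x = sF (a, 0)) ↔ ((x.1 = 1 ∨ x.1 = 3) ∧ x.2 = 0) := by decide
      have h8 : p = (p.1, 0) := Prod.ext rfl hp2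
      ext x
      rw [hEm']
      have h9 := h7 p.1 hp x
      rw [← h8] at h9
      rcases (hEm' p).1 hpE with h | h
      · rw [← h]; exact h9
      · have h10 : u = sF p := by rw [h, FAL.sF2]
        rw [h10, FAL.sF2]
        rw [or_comm]
        exact h9
    rw [this]
    exact hb

end Pool.Agent.Lib.MP_4c1f79_al
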