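import Pool.Agent.Lib.MP_4c1f79_al.StmF

set_option autoImplicit false

namespace Pool.Agent.Lib.MP_4c1f79_al

open Finset Module

section

variable {K : Type} [Field K]

private theorem FPT_one {V : Type} [AddCommGroup V] [Module K V] {L : Submodule K V}
    (h : finrank K L = 1) : ∃ x, x ∈ L ∧ x ≠ 0 ∧ L = Submodule.span K {x} := by
  obtain ⟨v, hv, hw⟩ := finrank_eq_one_iff'.1 h
  refine ⟨v.1, v.2, fun h0 => hv (Subtype.ext h0), le_antisymm ?_ ?_⟩
  · intro w hwL
    obtain ⟨c, hc⟩ := hw ⟨w, hwL⟩
    rw [Submodule.mem_span_singleton]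
    exact ⟨c, congrArg Subtype.val hc⟩
  · rw [Submodule.span_singleton_le_iff_mem]
    exact v.2

private theorem FPT_span {V : Type} [AddCommGroup V] [Module K V] [Finite V]
    {L : Submodule K V} {x : V} (hx : x ∈ L) (hx0 : x ≠ 0) (h : finrank K L = 1) :
    L = Submodule.span K {x} := by
  symm
  apply Submodule.eq_of_le_of_finrank_eq
  · rwa [Submodule.span_singleton_le_iff_mem]
  · rw [h, finrank_span_singleton hx0]

/-- the representatives of the lines -/
private def FPT_X {V : Type} [AddCommGroup V] [Module K V] (y₁ y₃ : V) : Option K → V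
  | none => y₁
  | some c => c • y₁ + y₃

private theorem FPT_uniq {V : Type} [AddCommGroup V] [Module K V] {y₁ y₃ : V}
    (hli : LinearIndependent K ![y₁, y₃]) {i j : Option K}
    (h : FPT_X y₁ y₃ i ∈ Submodule.span K {FPT_X y₁ y₃ j}) : i = j := by
  rw [LinearIndependent.pair_iff] at hli
  rw [Submodule.mem_span_singleton] at h
  obtain ⟨a, ha⟩ := h
  cases i with
  | none =>
    cases j with
    | none => rfl
    | some c =>
      exfalso
      change a • (c • y₁ + y₃) = y₁ at ha
      have h1 : (a * c - 1) • y₁ + a • y₃ = 0 := by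
        rw [sub_smul, mul_smul, one_smul]
        rw [smul_add] at ha
        rw [sub_add_eq_add_sub, ha, sub_self]
      have h2 := hli _ _ h1
      rw [h2.2] at h2
      simp at h2
  | some c' =>
    cases j with
    | none =>
      exfalso
      change a • y₁ = c' • y₁ + y₃ at ha
      have h1 : (c' - a) • y₁ + (1 : K) • y₃ = 0 := by
        rw [sub_smul, one_smul, ha]
        abel
      exact one_ne_zero (hli _ _ h1).2
    | some c =>
      change a • (c • y₁ + y₃) = c' • y₁ + y₃ at ha
      have h1 : (a * c - c') • y₁ + (a - 1) • y₃ = 0 := by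
        rw [sub_smul, sub_smul, mul_smul, one_smul]
        rw [smul_add] at ha
        rw [sub_add_sub_comm, ha, sub_self]
      have h2 := hli _ _ h1
      have h3 : a = 1 := sub_eq_zero.1 h2.2
      have h4 : a * c = c' := sub_eq_zero.1 h2.1
      rw [h3, one_mul] at h4
      rw [h4]

private theorem FPT_ex {V : Type} [AddCommGroup V] [Module K V] {y₁ y₃ : V}
    {L : Submodule K V} (h1 : finrank K L = 1)
    (h : ∀ x ∈ L, ∃ a b : K, x = a • y₁ + b • y₃) :
    ∃ i : Option K, L = Submodule.span K {FPT_X y₁ y₃ i} := by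
  obtain ⟨x, hx, hx0, hL⟩ := FPT_one h1
  obtain ⟨a, b, hab⟩ := h x hx
  by_cases hb : b = 0
  · refine ⟨none, ?_⟩
    have ha : a ≠ 0 := by
      rintro rfl
      apply hx0
      rw [hab, hb, zero_smul, zero_smul, add_zero]
    rw [hL, hab, hb, zero_smul, add_zero]
    show _ = Submodule.span K {y₁}
    exact Submodule.span_singleton_smul_eq (IsUnit.mk0 a ha) y₁
  · refine ⟨some (b⁻¹ * a), ?_⟩
    show _ = Submodule.span K {(b⁻¹ * a) • y₁ + y₃}
    have h2 : b • ((b⁻¹ * a) • y₁ + y₃) = x := by
      rw [smul_add, smul_smul, mul_inv_cancel_left₀ hb, hab]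
    rw [hL, ← h2]
    exact Submodule.span_singleton_smul_eq (IsUnit.mk0 b hb) _

end

theorem FPT_holds (hFGR : S_FGR) (hNO1 : S_NO1) (_hDQ1 : S_DQ1) (hFD1 : S_FD1) : S_FPT := by
  classical
  intro K _ D hr N hGT y₁ y₃ hy1 hy3 hli d hpat α β γ hα hβ hγ
  have hKf : Finite K := by
    apply Nat.finite_of_card_ne_zero
    rw [D.card_K]
    exact pow_ne_zero _ (by have := D.q_gt; omega)
  let _ : Fintype K := Fintype.ofFinite K
  have hX5 : ∀ i : Option K, N.e (0, 5) (FPT_X y₁ y₃ i) = FPT_X y₁ y₃ i := by
    intro i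
    cases i with
    | none => exact hy1
    | some c =>
      show N.e (0, 5) (c • y₁ + y₃) = c • y₁ + y₃
      rw [map_add, map_smul, hy1, hy3]
  have hX0 : ∀ i : Option K, FPT_X y₁ y₃ i ≠ 0 := by
    intro i h0
    have h1 := (LinearIndependent.pair_iff).1 hli
    cases i with
    | none =>
      have := h1 1 0 (by rw [one_smul, zero_smul, add_zero]; exact h0)
      exact one_ne_zero this.1
    | some c =>
      have := h1 c 1 (by rw [one_smul]; exact h0)
      exact one_ne_zero this.2
  have hs : sF (0, 5) = (4, 5) := by decide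
  have hFi : Function.Injective N.F := by
    intro x y hxy
    rw [← N.F_r x, ← N.F_r y, hr]
    show N.F (N.F x) = N.F (N.F y)
    rw [hxy]
  have hF5 : ∀ x, N.e (0, 5) x = x → N.e (4, 5) (N.F x) = N.F x := by
    intro x hx
    have := N.F_e (0, 5) x
    rw [hx, hs] at this
    exact this.symm
  -- the main equivalence
  have main : ∀ W : Submodule K N.T, N.St W → (∀ p, N.toRp.dmS W p = d p) → ∀ i : Option K,
      (N.Res LF (BxF N (FPT_X y₁ y₃ i)) W ↔
        W.map (N.e (0, 5)) = Submodule.span K {FPT_X y₁ y₃ i}) := by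
    intro W hW hdW i
    obtain ⟨_, g0, g4⟩ := hFGR K D hr N (FPT_X y₁ y₃ i) (hX5 i) (hX0 i)
    constructor
    · intro h
      have h1 := h (0, 5) (Or.inl rfl)
      have h2 := g0 5
      rw [if_neg (by decide), if_pos rfl] at h2
      rw [h1, h2]
    · intro h
      have hx : FPT_X y₁ y₃ i ∈ W := by
        have : FPT_X y₁ y₃ i ∈ W.map (N.e (0, 5)) := by
          rw [h]
          exact Submodule.mem_span_singleton_self _
        obtain ⟨w, hw, hwx⟩ := this
        rw [← hwx]
        exact hW.1.1 _ w hw
      have full : ∀ p, N.toRp.dm p = 1 → d p = 1 → W.map (N.e p) = LinearMap.range (N.e p) := by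
        intro p h1 h2
        apply Submodule.eq_of_le_of_finrank_eq
        · exact LinearMap.map_le_range
        · have h3 := hdW p
          unfold Rp.dmS at h3
          unfold Rp.dm at h1
          rw [h3, h1, h2]
      have zer : ∀ p, d p = 0 → W.map (N.e p) = ⊥ := by
        intro p h2
        have h3 := hdW p
        unfold Rp.dmS at h3
        rw [h2] at h3
        exact Submodule.finrank_eq_zero.1 h3
      rintro ⟨v, k⟩ hv
      have hd := hpat k
      have hdm := hFD1 K D N hGT k
      rcases hv with hv | hv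
      · change v = 0 at hv
        subst hv
        rw [g0 k]
        by_cases h13 : k = 1 ∨ k = 3
        · rw [if_pos h13]
          apply full
          · rw [hdm.1]
            rcases h13 with rfl | rfl <;> rfl
          · rw [hd.1]
            rcases h13 with rfl | rfl <;> rfl
        · rw [if_neg h13]
          by_cases h5 : k = 5
          · rw [if_pos h5, h5]
            exact h
          · rw [if_neg h5]
            apply zer
            rw [hd.1, if_neg]
            rintro (h6 | h6 | h6)
            · exact h13 (Or.inl h6)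
            · exact h13 (Or.inr h6)
            · exact h5 h6
      · change v = 4 at hv
        subst hv
        rw [g4 k]
        by_cases h13 : k = 1 ∨ k = 3
        · rw [if_pos h13]
          apply full
          · rw [hdm.2]
            rcases h13 with rfl | rfl <;> rfl
          · rw [hd.2]
            rcases h13 with rfl | rfl <;> rfl
        · rw [if_neg h13]
          by_cases h5 : k = 5
          · rw [if_pos h5, h5]
            apply FPT_span
            · exact ⟨N.F (FPT_X y₁ y₃ i), hW.2 _ hx, hF5 _ (hX5 i)⟩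
            · intro h0
              apply hX0 i
              apply hFi
              rw [h0, map_zero]
            · have h7 := hdW (4, 5)
              unfold Rp.dmS at h7
              rw [h7, (hpat 5).2, if_pos (by decide)]
          · rw [if_neg h5]
            apply zer
            rw [hd.2, if_neg]
            rintro (h6 | h6 | h6)
            · exact h13 (Or.inl h6)
            · exact h13 (Or.inr h6)
            · exact h5 h6
  -- the space at (0, 5)
  have hspan : ∀ x, N.e (0, 5) x = x → ∃ a b : K, x = a • y₁ + b • y₃ := by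
    have h1 : Submodule.span K (Set.range ![y₁, y₃]) = LinearMap.range (N.e (0, 5)) := by
      apply Submodule.eq_of_le_of_finrank_eq
      · rw [Submodule.span_le]
        rintro _ ⟨i, rfl⟩
        fin_cases i
        · exact ⟨y₁, hy1⟩
        · exact ⟨y₃, hy3⟩
      · rw [finrank_span_eq_card hli]
        have h2 := (hFD1 K D N hGT 5).1
        unfold Rp.dm at h2
        rw [h2]
        rfl
    intro x hx
    have h2 : x ∈ Submodule.span K (Set.range ![y₁, y₃]) := by
      rw [h1]
      exact ⟨x, hx⟩
    rw [Matrix.range_cons, Matrix.range_cons, Matrix.range_empty, Set.union_empty,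
      Set.singleton_union, Submodule.mem_span_pair] at h2
    obtain ⟨a, b, hab⟩ := h2
    exact ⟨a, b, hab.symm⟩
  have exi : ∀ W : {W : Submodule K N.T // N.St W ∧ ∀ p, N.toRp.dmS W p = d p},
      ∃ i : Option K, N.Res LF (BxF N (FPT_X y₁ y₃ i)) W.1 := by
    rintro ⟨W, hW, hdW⟩
    have h1 : finrank K (W.map (N.e (0, 5))) = 1 := by
      have h7 := hdW (0, 5)
      unfold Rp.dmS at h7
      rw [h7, (hpat 5).1, if_pos (by decide)]
    obtain ⟨i, hi⟩ := FPT_ex (y₁ := y₁) (y₃ := y₃) h1 (by
      rintro _ ⟨w, _, rfl⟩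
      exact hspan _ (N.e_e _ w))
    exact ⟨i, (main W hW hdW i).2 hi⟩
  choose f hf using exi
  have huniq : ∀ (W : {W : Submodule K N.T // N.St W ∧ ∀ p, N.toRp.dmS W p = d p})
      (i : Option K), N.Res LF (BxF N (FPT_X y₁ y₃ i)) W.1 → f W = i := by
    intro W i hi
    have h1 := (main W.1 W.2.1 W.2.2 i).1 hi
    have h2 := (main W.1 W.2.1 W.2.2 (f W)).1 (hf W)
    apply FPT_uniq hli
    rw [← h1, h2]
    exact Submodule.mem_span_singleton_self _
  have hfin : Finite (Submodule K N.T) := by
    apply Finite.of_injective (fun W : Submodule K N.T => (W : Set N.T))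
    exact SetLike.coe_injective
  have hcnt : N.cnt d = ∑ i : Option K, N.cntP (N.Res LF (BxF N (FPT_X y₁ y₃ i))) d := by
    unfold FM.cnt FM.cntP
    rw [← Nat.card_congr (Equiv.sigmaFiberEquiv f), Nat.card_sigma]
    apply Finset.sum_congr rfl
    intro i _
    apply Nat.card_congr
    refine ⟨fun t => ⟨t.1.1, t.1.2.1, ?_, t.1.2.2⟩, fun W => ⟨⟨W.1, W.2.1, W.2.2.2⟩, ?_⟩, ?_, ?_⟩
    · have := hf t.1
      rwa [t.2] at this
    · exact huniq _ _ W.2.2.1
    · intro t
      rfl
    · intro W
      rfl
  rw [hcnt, Fintype.sum_option]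
  have e1 : N.cntP (N.Res LF (BxF N (FPT_X y₁ y₃ (none : Option K)))) d = α := hα
  have e2 : ∀ c : K, N.cntP (N.Res LF (BxF N (FPT_X y₁ y₃ (some c)))) d =
      if c * D.φ c = 1 then β else γ := by
    intro c
    split_ifs with h
    · exact hβ c h
    · exact hγ c h
  rw [e1, Finset.sum_congr rfl (fun c _ => e2 c), Finset.sum_ite, Finset.sum_const,
    Finset.sum_const, smul_eq_mul, smul_eq_mul]
  obtain ⟨n1, n2⟩ := hNO1 K D hr
  rw [Nat.card_eq_fintype_card, Fintype.card_subtype] at n1 n2
  rw [n1, ← n2]
  ring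

end Pool.Agent.Lib.MP_4c1f79_al
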