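import Pool.Agent.Lib.MP_4c1f79_al.StmC

/-!
# MP_4c1f79_al : piece PE0 (positivity over the empty window)
-/

set_option autoImplicit false

namespace Pool.Agent.Lib.MP_4c1f79_al

open Finset Module

theorem PE0_holds : S_PE0 := by
  classical
  intro P _ M s r m d
  refine ⟨{0, 1}, fun K _ D hr N hN => ?_⟩
  have h7 : ∀ x : N.T, x = 0 := by
    intro x
    rw [← N.e_sum x]
    exact Finset.sum_eq_zero fun p _ => hN.1.1 p (Set.notMem_empty p) x
  have hsub : Subsingleton N.T := ⟨fun x y => by rw [h7 x, h7 y]⟩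
  have hle : N.cnt d ≤ 1 := by
    rw [FM.cnt]
    exact Finite.card_le_one_iff_subsingleton.2 inferInstance
  have h8 : N.cnt d = 0 ∨ N.cnt d = 1 := by omega
  rcases h8 with h8 | h8
  · exact ⟨0, by simp, by rw [h8]; simp⟩
  · exact ⟨1, by simp, by rw [h8]; simp⟩

end Pool.Agent.Lib.MP_4c1f79_al
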