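import Pool.Agent.Lib.MP_4c1f79_al.StmT

/-!
# MP_4c1f79_al : the table checker
-/

set_option autoImplicit false

namespace Pool.Agent.Lib.MP_4c1f79_al

open Finset Module

private theorem TBB_nsum {n : ℕ} (adj : Fin n → Fin n → Bool) (T : List (List ℕ)) (v : Fin n)
    (k : ℕ) : nsum adj T v k = ∑ w, if adj v w = true then tval T w k else 0 := by
  rw [Fin.sum_univ_def]
  rfl

private theorem TBB_ok {n : ℕ} {adj : Fin n → Fin n → Bool} {U : Fin n → ℕ → Bool}
    {T : List (List ℕ)} {v₀ : Fin n} {l₀ k₀ : ℕ} (h : okT adj U T v₀ l₀ k₀ = true) :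
    U v₀ l₀ = true ∧
    (∀ k ≤ k₀, ∀ v : Fin n, k < l₀ → tval T v k = 0) ∧
    (∀ k ≤ k₀, ∀ v : Fin n, k = l₀ → tval T v k = if v = v₀ then 1 else 0) ∧
    (∀ k ≤ k₀, ∀ v : Fin n, l₀ < k → U v k = false → tval T v k = 0) ∧
    (∀ k ≤ k₀, ∀ v : Fin n, l₀ < k → U v k = true →
      (tval T v k + (if 2 ≤ k ∧ U v (k - 2) = true then tval T v (k - 2) else 0)
        = nsum adj T v (k - 1)) ∨ (tval T v k = 0 ∧ ∀ w : Fin n, tval T w (k - 1) = 0)) := by
  unfold okT at h
  rw [Bool.and_eq_true, List.all_eq_true] at h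
  obtain ⟨h0, h1⟩ := h
  have h2 : ∀ k ≤ k₀, ∀ v : Fin n, (if k < l₀ then tval T v k == 0
    else if k = l₀ then tval T v k == (if v = v₀ then 1 else 0)
    else if U v k = false then tval T v k == 0
    else
      (tval T v k + (if 2 ≤ k ∧ U v (k - 2) = true then tval T v (k - 2) else 0)
        == nsum adj T v (k - 1))
      || (tval T v k == 0 && (List.finRange n).all fun w => tval T w (k - 1) == 0)) = true := by
    intro k hk v
    have h3 := h1 k (List.mem_range.2 (by omega))
    rw [List.all_eq_true] at h3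
    exact h3 v (List.mem_finRange v)
  refine ⟨h0, ?_, ?_, ?_, ?_⟩
  · intro k hk v hkl
    have h3 := h2 k hk v
    rw [if_pos hkl] at h3
    exact beq_iff_eq.1 h3
  · intro k hk v hkl
    have h3 := h2 k hk v
    rw [if_neg (by omega), if_pos hkl] at h3
    exact beq_iff_eq.1 h3
  · intro k hk v hkl hU
    have h3 := h2 k hk v
    rw [if_neg (by omega), if_neg (by omega), if_pos hU] at h3
    exact beq_iff_eq.1 h3
  · intro k hk v hkl hU
    have h3 := h2 k hk v
    rw [if_neg (by omega), if_neg (by omega), if_neg (by rw [hU]; decide), Bool.or_eq_true,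
      Bool.and_eq_true, List.all_eq_true] at h3
    rcases h3 with h3 | ⟨h3, h4⟩
    · exact Or.inl (beq_iff_eq.1 h3)
    · exact Or.inr ⟨beq_iff_eq.1 h3, fun w => beq_iff_eq.1 (h4 w (List.mem_finRange w))⟩

private theorem TBB_nc {n : ℕ} {U : Fin n → ℕ → Bool} {k₀ : ℕ} (h : ncT U k₀ = true) (k : ℕ)
    (v : Fin n) (hU : U v k = true) (hk : k + 2 ≤ k₀) : U v (k + 2) = true := by
  unfold ncT at h
  rw [List.all_eq_true] at h
  have h3 := h k (List.mem_range.2 (by omega))
  rw [List.all_eq_true] at h3
  have h4 := h3 v (List.mem_finRange v)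
  simp only [hU, hk, decide_true, Bool.and_true, Bool.not_true, Bool.false_or] at h4
  exact h4

theorem TBB_holds (hTAB : S_TAB) (hBND : S_BND) : S_TBB := by
  intro n L adj hs U T v₀ l₀ k₀ hkL hok hnc K _ R hG hsc
  classical
  obtain ⟨hU0, hlt, heq, hout, hin⟩ := TBB_ok hok
  have hscne : ∀ p, p ≠ (v₀, l₀) → R.sc p = 0 := by
    intro p hp
    rw [hsc]
    simp [ind, hp]
  have hlv : ∀ p : Fin n × Fin L, (grid (fun v w => adj v w = true) hs L).lv p = p.2 :=
    fun p => rfl
  by_cases hl : k₀ < l₀
  · intro p hp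
    rw [hlt _ hp p.1 (by omega)]
    refine (hBND _ (grid (fun v w => adj v w = true) hs L)).2 K R l₀ ?_ p ?_
    · intro q hq
      refine hscne q ?_
      rintro rfl
      rw [hlv] at hq
      exact absurd hq (lt_irrefl _)
    · rw [hlv]
      omega
  have hZ : ∀ k ≤ k₀, ∀ v : Fin n, U v k = false → tval T v k = 0 := by
    intro k hk v hU
    rcases lt_trichotomy k (l₀ : ℕ) with h | h | h
    · exact hlt k hk v h
    · rw [heq k hk v h, if_neg]
      rintro rfl
      rw [h, hU0] at hU
      exact absurd hU (by decide)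
    · exact hout k hk v h hU
  set D : Fin n × Fin L → ℕ := fun p => if (p.2 : ℕ) ≤ k₀ ∧ U p.1 p.2 = true
    then tval T p.1 p.2 else 0 with hD
  have hD1 : ∀ p : Fin n × Fin L, (p.2 : ℕ) ≤ k₀ → D p = tval T p.1 p.2 := by
    intro p hp
    rw [hD]
    dsimp only
    by_cases h : U p.1 p.2 = true
    · rw [if_pos ⟨hp, h⟩]
    · rw [if_neg fun h' => h h'.2, hZ _ hp p.1 (by simpa using h)]
  have hmain := hTAB _ (grid (fun v w => adj v w = true) hs L) K R (winB U) k₀ (v₀, l₀) hG hsc
    hU0 (by
      intro r hr hrk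
      rw [hlv] at hrk
      refine ⟨(r.1, ⟨r.2 + 2, by omega⟩), TBB_nc hnc r.2 r.1 hr hrk, rfl, rfl⟩) D ?_ ?_ ?_ ?_
  · intro p hp
    rw [hmain p hp, hD1 p hp]
  · rw [hD1 (v₀, l₀) (by show (l₀ : ℕ) ≤ k₀; omega)]
    have := heq l₀ (by omega) v₀ rfl
    rw [if_pos rfl] at this
    exact this
  · intro p hp hpl
    rw [hlv, hlv] at hpl
    have hpl' : (p.2 : ℕ) ≤ l₀ := hpl
    rw [hD1 p (by omega)]
    rcases Nat.lt_or_eq_of_le hpl' with h | h
    · exact hlt _ (by omega) _ h
    · rw [heq _ (by omega) _ h, if_neg]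
      intro h1
      exact hp (Prod.ext h1 (Fin.ext h))
  · intro p hp
    rw [hD]
    dsimp only
    rw [if_neg]
    intro h
    exact hp h.2
  · intro p hp hpl hpk
    rw [hlv] at hpl hpk
    have hpl' : (l₀ : ℕ) < p.2 := hpl
    obtain ⟨v, l⟩ := p
    have hpl2 : (l₀ : ℕ) < l := hpl'
    have hlk : (l : ℕ) ≤ k₀ := hpk
    have hUl : U v l = true := hp
    rcases hin l hlk v hpl2 hUl with h | ⟨h, h'⟩
    · left
      rw [hD1 (v, l) hlk]
      have hT : sT (grid (fun v w => adj v w = true) hs L) D (v, l)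
          = if 2 ≤ (l : ℕ) ∧ U v (l - 2) = true then tval T v (l - 2) else 0 := by
        unfold sT
        by_cases h2 : 2 ≤ (l : ℕ)
        · rw [Finset.sum_eq_single (v, (⟨l - 2, by omega⟩ : Fin L))]
          · have hT : (grid (fun v w => adj v w = true) hs L).Tau (v, l)
                (v, (⟨l - 2, by omega⟩ : Fin L)) := by
              refine ⟨rfl, ?_⟩
              show (l : ℕ) = l - 2 + 2
              omega
            rw [if_pos hT, hD]
            dsimp only
            by_cases hU2 : U v (l - 2) = true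
            · rw [if_pos ⟨by omega, hU2⟩, if_pos ⟨h2, hU2⟩]
            · rw [if_neg fun h => hU2 h.2, if_neg fun h => hU2 h.2]
          · rintro ⟨w, m⟩ _ hne
            rw [if_neg]
            rintro ⟨h3, h4⟩
            apply hne
            have h3' : v = w := h3
            have h4' : (l : ℕ) = m + 2 := h4
            refine Prod.ext h3'.symm (Fin.ext ?_)
            show (m : ℕ) = l - 2
            omega
          · intro h3
            exact absurd (Finset.mem_univ _) h3
        · rw [if_neg fun h => h2 h.1]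
          refine Finset.sum_eq_zero fun r _ => ?_
          rw [if_neg]
          rintro ⟨_, h4⟩
          have h4' : (l : ℕ) = r.2 + 2 := h4
          omega
      have hA : sA (grid (fun v w => adj v w = true) hs L) D (v, l) = nsum adj T v (l - 1) := by
        unfold sA
        rw [TBB_nsum, Fintype.sum_prod_type]
        refine Finset.sum_congr rfl fun w _ => ?_
        rw [Finset.sum_eq_single (⟨l - 1, by omega⟩ : Fin L)]
        · by_cases hw : adj v w = true
          · have hAr : (grid (fun v w => adj v w = true) hs L).Ar (v, l)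
                (w, (⟨l - 1, by omega⟩ : Fin L)) := by
              refine ⟨hw, ?_⟩
              show (l : ℕ) = l - 1 + 1
              omega
            rw [if_pos hAr, if_pos hw]
            exact hD1 _ (by show (l : ℕ) - 1 ≤ k₀; omega)
          · rw [if_neg hw, if_neg]
            rintro ⟨h3, _⟩
            exact hw h3
        · intro m _ hne
          rw [if_neg]
          rintro ⟨_, h4⟩
          apply hne
          have h4' : (l : ℕ) = m + 1 := h4
          apply Fin.ext
          show (m : ℕ) = l - 1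
          omega
        · intro h3
          exact absurd (Finset.mem_univ _) h3
      rw [hT, hA]
      exact h
    · right
      refine ⟨by rw [hD1 (v, l) hlk]; exact h, ?_⟩
      rintro ⟨w, m⟩ hm
      rw [hlv, hlv] at hm
      have hm' : (m : ℕ) + 1 = l := hm
      rw [hD1 (w, m) (by show (m : ℕ) ≤ k₀; omega)]
      have := h' w
      rw [← hm'] at this
      exact this

end Pool.Agent.Lib.MP_4c1f79_al
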