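import Pool.Agent.Lib.MP_4c1f79_al.StmE

/-!
# MP_4c1f79_al : piece COR (the core lemma, polynomials)
-/

set_option autoImplicit false

namespace Pool.Agent.Lib.MP_4c1f79_al

open Finset Module

private theorem cor_sums {ι : Type} (B : Finset ι) (C : Finset (Polynomial ℕ)) :
    ∃ Fs : Finset (Polynomial ℕ), ∀ c : ι → Polynomial ℕ, (∀ i ∈ B, c i ∈ C) →
      ∑ i ∈ B, c i ∈ Fs := by
  classical
  induction B using Finset.induction_on with
  | empty => exact ⟨{0}, fun c _ => by simp⟩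
  | insert i B hi ih =>
    obtain ⟨Fs, hFs⟩ := ih
    refine ⟨Finset.image₂ (· + ·) C Fs, fun c hc => ?_⟩
    rw [Finset.sum_insert hi]
    exact Finset.mem_image₂_of_mem (hc i (Finset.mem_insert_self i B))
      (hFs c fun j hj => hc j (Finset.mem_insert_of_mem hj))

theorem COR_holds (hCR2 : S_CR2) : S_COR := by
  classical
  intro P _ M s r U a b x hA hC hdm d hd
  choose F hF using fun S : Finset (P → ℕ) => cor_sums S
    ((Finset.range (Fintype.card P ^ 2 + 1)).image fun k => (Polynomial.X : Polynomial ℕ) ^ k)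
  refine ⟨(box d).powerset.biUnion F, fun K _ D hr Na Nb Nx hNa hNb hNx => ?_⟩
  obtain ⟨S, n, hS, hn, h⟩ := hCR2 P M s K D U a b x (hr ▸ hA) hC Na Nb Nx hNa hNb hNx
    (hdm K D hr Na (Or.inl hNa)) (hdm K D hr Nb (Or.inr hNb)) d hd
  refine ⟨∑ y ∈ S, Polynomial.X ^ n y, ?_, ?_⟩
  · rw [Finset.mem_biUnion]
    refine ⟨S, Finset.mem_powerset.2 hS, hF S _ fun y _ => ?_⟩
    exact Finset.mem_image.2 ⟨n y, Finset.mem_range.2 (Nat.lt_succ_of_le (hn y)), rfl⟩
  · rw [h, Polynomial.eval_finsetSum]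
    congr 1
    exact Finset.sum_congr rfl fun y _ => by rw [Polynomial.eval_pow, Polynomial.eval_X]

end Pool.Agent.Lib.MP_4c1f79_al
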