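import Pool.Agent.Lib.MP_4c1f79_al.StmB

/-!
# MP_4c1f79_al : existence of good modules of every type
-/

set_option autoImplicit false

namespace Pool.Agent.Lib.MP_4c1f79_al

theorem EXM_holds (hFUN : S_FUN) (hDQ2 : S_DQ2) : S_EXM := by
  intro P _ M s K _ D U hA
  have key : ∀ n : ℕ, ∀ m : P → ℕ, (∀ p, m p ≤ n) → (∀ p, m (s p) = m p) →
      (∀ p, p ∉ U → m p = 0) → ∃ N : FM M s K D, N.GT U m := by
    intro n
    induction n with
    | zero =>
      intro m hm _ _
      obtain ⟨N, hN⟩ := hFUN P M s K D U hA ∅ (Set.empty_subset U) (fun p => by simp)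
      refine ⟨N, hN.1, fun p => ?_⟩
      rw [hN.2 p]
      have h0 : m p = 0 := Nat.le_zero.1 (hm p)
      simp [ind, h0]
    | succ n ih =>
      intro m hm hs hU
      obtain ⟨N', hN'⟩ := ih (fun p => m p - 1)
        (fun p => by have := hm p; show m p - 1 ≤ n; omega)
        (fun p => by show m (s p) - 1 = m p - 1; rw [hs p])
        (fun p hp => by show m p - 1 = 0; rw [hU p hp])
      obtain ⟨I, hI⟩ := hFUN P M s K D U hA {p | m p ≠ 0}
        (fun p hp => by
          by_contra hpU
          exact hp (hU p hpU))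
        (fun p => by simp only [Set.mem_setOf_eq, hs p])
      obtain ⟨-, hsc, hgood, -, -⟩ := hDQ2 P M K
      refine ⟨N'.prod I, hgood N'.toRp I.toRp U hN'.1 hI.1, fun p => ?_⟩
      have h1 : (N'.toRp.prod I.toRp).sc p = N'.toRp.sc p + I.toRp.sc p :=
        hsc N'.toRp I.toRp p
      show (N'.toRp.prod I.toRp).sc p = m p
      rw [h1, hN'.2 p, hI.2 p]
      by_cases h : m p = 0
      · simp [ind, h]
      · have h2 : ind {p | m p ≠ 0} p = 1 := by
          unfold ind
          rw [Set.indicator_of_mem (show p ∈ {p | m p ≠ 0} from h)]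
          rfl
        rw [h2]
        show m p - 1 + 1 = m p
        omega
  intro m hs hU
  obtain ⟨n, hn⟩ : ∃ n, ∀ p, m p ≤ n := by
    classical
    exact ⟨∑ p, m p, fun p => Finset.single_le_sum (fun _ _ => Nat.zero_le _)
      (Finset.mem_univ p)⟩
  exact key n m hn hs hU

end Pool.Agent.Lib.MP_4c1f79_al
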