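import Pool.Agent.Lib.MP_4c1f79_al.G2F

/-! MP_4c1f79_al, G2 block: the structure of the module with socle the leaves at level zero. -/

set_option autoImplicit false

namespace Pool.Agent.Lib.MP_4c1f79_al

open Finset Module

private theorem n2 : (2 : Fin 6) ≠ 0 := by decide

private theorem n4 : (4 : Fin 6) ≠ 0 := by decide

section G1

variable {K : Type} [Field K] {R : Rp MG K}

private theorem not_Ar {q : Fin 4 × Fin 6} (k j : Fin 6) (hk : (k : ℕ) = j + 1)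
    (h : ¬ MG.Ar (3, k) q) : q ∉ EG j := by
  rintro ⟨h1, h2⟩
  obtain ⟨w, i⟩ := q
  simp only at h1 h2
  subst h2
  exact h (G2F.ar_cen' h1 hk)

/-- The last step: `(3, 5)` vanishes. -/
private theorem G1_35 (hinj : ∀ p : Fin 4 × Fin 6, p.2 ≠ 0 → ∀ x, R.e p x = x → R.a x = 0 → x = 0)
    (x : R.T) (hx : R.e (3, 5) x = x) : x = 0 := by
  have e4 : ∀ v : Fin 4, R.e (v, 4) (R.e (v, 4) (R.a x)) = R.e (v, 4) (R.a x) :=
    fun v => R.e_e _ _
  have z3 : ∀ v : Fin 4, v ≠ 3 → R.e (3, 3) (R.a (R.e (v, 4) (R.a x)))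
      = R.a (R.e (v, 4) (R.a x)) := fun v hv => G2F.a_leaf R hv rfl (e4 v)
  have zs : ∀ v : Fin 4, v ≠ 3 → ∀ p, p ∉ EG 2 → R.e p (R.a (R.a (R.e (v, 4) (R.a x)))) = 0 :=
    fun v hv p hp => G2F.a_cen R rfl (z3 v hv) hp
  have zaa : ∀ v : Fin 4, v ≠ 3 → R.a (R.a (R.a (R.e (v, 4) (R.a x)))) = 0 :=
    fun v hv => G2F.aa_cen R (m := 2) (j := 1) rfl rfl (z3 v hv)
  have Yvv : ∀ v : Fin 4, v ≠ 3 → R.e (v, 2) (R.a (R.a (R.e (v, 4) (R.a x)))) = 0 :=
    fun v _ => G2F.mesh' R (e4 v) (G2F.tau_mk rfl)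
  have xs : ∀ p, p ∉ EG 4 → R.e p (R.a x) = 0 := fun p hp => G2F.a_cen R rfl hx hp
  have xaa : R.a (R.a x) = 0 := G2F.aa_cen R (m := 4) (j := 3) rfl rfl hx
  have key : ∀ v j : Fin 4, v ≠ 3 → j ≠ 3 → v ≠ j →
      R.e (v, 2) (R.a (R.a (R.e (j, 4) (R.a x)))) = 0 := by
    intro v j hv hj hvj
    obtain ⟨l, hl, hvl, hjl, hall⟩ := G2F.third hv hj hvj
    -- notation
    have hsum : R.a (R.e (v, 4) (R.a x)) + R.a (R.e (j, 4) (R.a x)) + R.a (R.e (l, 4) (R.a x))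
        = 0 := by
      rw [← map_add, ← map_add, ← G2F.split3 R hvj hvl hjl hall xs, xaa]
    have h4 : R.e (v, 2) (R.a (R.a (R.e (j, 4) (R.a x))))
        = - R.e (v, 2) (R.a (R.a (R.e (l, 4) (R.a x)))) := by
      have h := congrArg (fun y => R.e (v, 2) (R.a y)) hsum
      simp only [map_add, map_zero] at h
      rw [Yvv v hv, zero_add] at h
      exact eq_neg_of_add_eq_zero_left h
    -- `a` on the components of `a z_j`
    have hj2 := G2F.split3 R hvj hvl hjl hall (zs j hj)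
    have hl2 := G2F.split3 R hvj hvl hjl hall (zs l hl)
    rw [Yvv j hj, add_zero] at hj2
    rw [Yvv l hl, add_zero] at hl2
    have hj3 := congrArg R.a hj2
    have hl3 := congrArg R.a hl2
    rw [zaa j hj, map_add] at hj3
    rw [zaa l hl, map_add] at hl3
    set y := R.e (v, 2) (R.a (R.a (R.e (j, 4) (R.a x)))) with hy
    have hyv : R.e (v, 2) y = y := R.e_e _ _
    have h31 : R.e (3, 1) (R.a y) = R.a y := G2F.a_leaf R hv rfl hyv
    have c1 : R.e (v, 0) (R.a (R.a y)) = 0 := G2F.mesh' R hyv (G2F.tau_mk rfl)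
    have c2 : R.e (l, 0) (R.a (R.a y)) = 0 := by
      have h : R.a y = - R.a (R.e (l, 2) (R.a (R.a (R.e (j, 4) (R.a x))))) :=
        eq_neg_of_add_eq_zero_left hj3.symm
      rw [h, map_neg, map_neg, G2F.mesh' R (R.e_e _ _) (G2F.tau_mk rfl), neg_zero]
    have c3 : R.e (j, 0) (R.a (R.a y)) = 0 := by
      have h : R.a y = R.a (R.e (j, 2) (R.a (R.a (R.e (l, 4) (R.a x))))) := by
        rw [h4, map_neg]
        exact neg_eq_of_add_eq_zero_right hl3.symm
      rw [h, G2F.mesh' R (R.e_e _ _) (G2F.tau_mk rfl)]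
    have h0 : R.a (R.a y) = 0 := by
      rw [G2F.split3 R hvj hvl hjl hall (k := 0) (y := R.a (R.a y))
        (fun p hp => G2F.a_cen R rfl h31 hp), c1, c2, c3, add_zero, add_zero]
    exact hinj (v, 2) n2 y hyv (hinj (3, 1) (by decide) _ h31 h0)
  have hw : ∀ v : Fin 4, v ≠ 3 → R.e (v, 4) (R.a x) = 0 := by
    intro v hv
    refine hinj (v, 4) n4 _ (e4 v) (hinj (3, 3) (by decide) _ (z3 v hv)
      (G2F.ext0 R fun p => ?_))
    by_cases hp : p ∈ EG 2
    · obtain ⟨w, i⟩ := p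
      obtain ⟨hw, hi⟩ := hp
      simp only at hw hi
      subst hi
      by_cases hwv : w = v
      · rw [hwv]
        exact Yvv v hv
      · exact key w v hw hv hwv
    · exact zs v hv p hp
  refine hinj (3, 5) (by decide) x hx (G2F.ext0 R fun p => ?_)
  by_cases hp : p ∈ EG 4
  · obtain ⟨w, i⟩ := p
    obtain ⟨hw', hi⟩ := hp
    simp only at hw' hi
    subst hi
    exact hw w hw'
  · exact xs p hp

end G1

theorem G1_holds : S_G1 := by
  intro K _ D N hN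
  have hsc : ∀ p, N.toRp.sc p = ind (EG 0) p := hN.2
  have hsc1 : ∀ v : Fin 4, v ≠ 3 → N.toRp.sc (v, 0) = 1 := by
    intro v hv
    have h : ((v, 0) : Fin 4 × Fin 6) ∈ EG 0 := ⟨hv, rfl⟩
    rw [hsc]
    simp [ind, h]
  have hsc0 : ∀ p, p ∉ EG 0 → N.toRp.sc p = 0 := by
    intro p hp
    rw [hsc]
    simp [ind, hp]
  have hinj : ∀ p : Fin 4 × Fin 6, p.2 ≠ 0 → ∀ x, N.e p x = x → N.a x = 0 → x = 0 := by
    intro p hp
    exact (G2F.sc_zero N.toRp).mp (hsc0 p fun h => hp h.2)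
  have hin : ∀ {v : Fin 4} {k : Fin 6}, k ≠ 0 → ((v, k) : Fin 4 × Fin 6) ∉ EG 0 :=
    fun h h' => h h'.2
  have z30 : ∀ x, N.e (3, 0) x = 0 := G2F.zz N.toRp (hsc0 _ fun h => h.1 rfl)
  have z1 : ∀ v, v ≠ 3 → ∀ x, N.e (v, 1) x = 0 := fun v hv =>
    G2F.zl N.toRp hv rfl z30 (hsc0 _ (hin (by decide)))
  have z32 : ∀ x, N.e (3, 2) x = 0 := G2F.zc N.toRp rfl z1 (hsc0 _ (hin (by decide)))
  have z3 : ∀ v, v ≠ 3 → ∀ x, N.e (v, 3) x = 0 := fun v hv =>
    G2F.zl N.toRp hv rfl z32 (hsc0 _ (hin (by decide)))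
  have z34 : ∀ x, N.e (3, 4) x = 0 := G2F.zc N.toRp rfl z3 (hsc0 _ (hin (by decide)))
  have z5 : ∀ v, v ≠ 3 → ∀ x, N.e (v, 5) x = 0 := fun v hv =>
    G2F.zl N.toRp hv rfl z34 (hsc0 _ (hin (by decide)))
  have z35 : ∀ x, N.e (3, 5) x = 0 := fun x => G1_35 hinj _ (N.e_e _ x)
  have dim0 : ∀ v, v ≠ 3 → finrank K (LinearMap.range (N.e (v, 0))) = 1 := by
    intro v hv
    have h := G2F.dm_eq_sc N.toRp (p := (v, 0)) (fun x hx => by
      rw [← hx]
      exact G2F.kill N.toRp v x)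
    rw [hsc1 v hv] at h
    exact h
  have a1 : ∀ x, N.e (3, 1) x = x → ∀ p, p ∉ EG 0 → N.e p (N.a x) = 0 :=
    fun x hx p hp => G2F.a_cen N.toRp rfl hx hp
  have s1 : ∀ y, (∀ p, p ∉ EG 0 → N.e p y = 0) → ∃ x, N.e (3, 1) x = x ∧ N.a x = y := by
    intro y hy
    refine hN.1.2 (3, 1) trivial y (fun q hq => hy q ?_) (fun r hr => ?_)
    · exact not_Ar (q := q) 1 0 rfl hq
    · have h2 : ((1 : Fin 6) : ℕ) = r.2 + 2 := hr.2
      simp at h2
  have a2 : ∀ v, v ≠ 3 → ∀ x, N.e (v, 2) x = x →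
      N.e (3, 1) (N.a x) = N.a x ∧ N.e (v, 0) (N.a (N.a x)) = 0 := fun v hv x hx =>
    ⟨G2F.a_leaf N.toRp hv rfl hx, G2F.mesh' N.toRp hx (G2F.tau_mk rfl)⟩
  have s2 : ∀ v, v ≠ 3 → ∀ y, N.e (3, 1) y = y → N.e (v, 0) (N.a y) = 0 →
      ∃ x, N.e (v, 2) x = x ∧ N.a x = y := by
    intro v hv y hy hy0
    refine hN.1.2 (v, 2) trivial y (fun q hq => ?_) (fun r hr => ?_)
    · refine G2F.e_ne' N.toRp hy ?_
      rintro rfl
      exact hq (G2F.ar_leaf' hv rfl)
    · rw [G2F.tau_eq (k := 2) (j := 0) rfl hr]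
      exact hy0
  have a3 : ∀ x, N.e (3, 3) x = x → (∀ p, p ∉ EG 2 → N.e p (N.a x) = 0) ∧ N.a (N.a x) = 0 :=
    fun x hx => ⟨fun p hp => G2F.a_cen N.toRp rfl hx hp,
      G2F.aa_cen N.toRp (m := 2) (j := 1) rfl rfl hx⟩
  have s3 : ∀ y, (∀ p, p ∉ EG 2 → N.e p y = 0) → N.a y = 0 →
      ∃ x, N.e (3, 3) x = x ∧ N.a x = y := by
    intro y hy hy0
    refine hN.1.2 (3, 3) trivial y (fun q hq => hy q ?_) (fun r hr => ?_)
    · exact not_Ar (q := q) 3 2 rfl hq
    · rw [hy0, map_zero]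
  have a4 : ∀ v, v ≠ 3 → ∀ x, N.e (v, 4) x = x →
      N.e (3, 3) (N.a x) = N.a x ∧ N.e (v, 2) (N.a (N.a x)) = 0 := fun v hv x hx =>
    ⟨G2F.a_leaf N.toRp hv rfl hx, G2F.mesh' N.toRp hx (G2F.tau_mk rfl)⟩
  -- dimension at `(3, 1)`
  have dim1 : finrank K (LinearMap.range (N.e (3, 1))) = 3 := by
    have hmem : ∀ (v : Fin 4) (x : N.T), N.e (v, 0) (N.a x) ∈ LinearMap.range (N.e (v, 0)) :=
      fun v x => ⟨_, rfl⟩
    let g : ∀ v : Fin 4, LinearMap.range (N.e (3, 1)) →ₗ[K] LinearMap.range (N.e (v, 0)) :=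
      fun v => LinearMap.codRestrict _ ((N.e (v, 0) ∘ₗ N.a).comp (Submodule.subtype _))
        (fun x => hmem v x.1)
    let G : LinearMap.range (N.e (3, 1)) →ₗ[K] LinearMap.range (N.e (0, 0)) ×
        LinearMap.range (N.e (1, 0)) × LinearMap.range (N.e (2, 0)) :=
      (g 0).prod ((g 1).prod (g 2))
    have hall : ∀ w : Fin 4, w ≠ 3 → w = 0 ∨ w = 1 ∨ w = 2 := by decide
    have hG : Function.Bijective G := by
      constructor
      · rw [← LinearMap.ker_eq_bot, LinearMap.ker_eq_bot']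
        rintro ⟨x, hx⟩ h0
        have hx' := (G2F.mem_rg N.toRp).mp hx
        have c0 : N.e (0, 0) (N.a x) = 0 := congrArg (fun y => (y.1 : N.T)) h0
        have c1 : N.e (1, 0) (N.a x) = 0 := congrArg (fun y => (y.2.1 : N.T)) h0
        have c2 : N.e (2, 0) (N.a x) = 0 := congrArg (fun y => (y.2.2 : N.T)) h0
        have h1 : N.a x = 0 := by
          rw [G2F.split3 N.toRp (v := 0) (j := 1) (l := 2) (by decide) (by decide) (by decide)
            hall (k := 0) (y := N.a x) (a1 x hx'), c0, c1, c2, add_zero, add_zero]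
        exact Subtype.ext (hinj (3, 1) (by decide) x hx' h1)
      · rintro ⟨⟨y0, h0⟩, ⟨y1, h1⟩, ⟨y2, h2⟩⟩
        have h0' := (G2F.mem_rg N.toRp).mp h0
        have h1' := (G2F.mem_rg N.toRp).mp h1
        have h2' := (G2F.mem_rg N.toRp).mp h2
        obtain ⟨x, hx, hax⟩ := s1 (y0 + y1 + y2) (by
          intro p hp
          have hne : ∀ w : Fin 4, w ≠ 3 → p ≠ (w, 0) := by
            rintro w hw rfl
            exact hp ⟨hw, rfl⟩
          rw [map_add, map_add, G2F.e_ne' N.toRp h0' (hne 0 (by decide)),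
            G2F.e_ne' N.toRp h1' (hne 1 (by decide)),
            G2F.e_ne' N.toRp h2' (hne 2 (by decide)), add_zero, add_zero])
        refine ⟨⟨x, (G2F.mem_rg N.toRp).mpr hx⟩, ?_⟩
        refine Prod.ext (Subtype.ext ?_) (Prod.ext (Subtype.ext ?_) (Subtype.ext ?_))
        · change N.e (0, 0) (N.a x) = y0
          rw [hax, map_add, map_add, h0', G2F.e_ne' N.toRp h1' (by decide),
            G2F.e_ne' N.toRp h2' (by decide), add_zero, add_zero]
        · change N.e (1, 0) (N.a x) = y1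
          rw [hax, map_add, map_add, h1', G2F.e_ne' N.toRp h0' (by decide),
            G2F.e_ne' N.toRp h2' (by decide), zero_add, add_zero]
        · change N.e (2, 0) (N.a x) = y2
          rw [hax, map_add, map_add, h2', G2F.e_ne' N.toRp h0' (by decide),
            G2F.e_ne' N.toRp h1' (by decide), zero_add, zero_add]
    rw [LinearEquiv.finrank_eq (LinearEquiv.ofBijective G hG), Module.finrank_prod,
      Module.finrank_prod, dim0 0 (by decide), dim0 1 (by decide), dim0 2 (by decide)]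
  -- dimension at `(v, 2)`
  have dim2 : ∀ v, v ≠ 3 → finrank K (LinearMap.range (N.e (v, 2))) = 2 := by
    intro v hv
    let g : LinearMap.range (N.e (3, 1)) →ₗ[K] LinearMap.range (N.e (v, 0)) :=
      LinearMap.codRestrict _ ((N.e (v, 0) ∘ₗ N.a).comp (Submodule.subtype _))
        (fun x => ⟨_, rfl⟩)
    have hg : Function.Surjective g := by
      rintro ⟨y, hy⟩
      have hy' := (G2F.mem_rg N.toRp).mp hy
      obtain ⟨x, hx, hax⟩ := s1 y fun p hp => G2F.e_ne' N.toRp hy' (by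
        rintro rfl
        exact hp ⟨hv, rfl⟩)
      refine ⟨⟨x, (G2F.mem_rg N.toRp).mpr hx⟩, Subtype.ext ?_⟩
      change N.e (v, 0) (N.a x) = y
      rw [hax, hy']
    have h1 := LinearMap.finrank_range_add_finrank_ker g
    rw [LinearMap.range_eq_top.mpr hg, finrank_top, dim1, dim0 v hv] at h1
    have hmem : ∀ x : LinearMap.range (N.e (v, 2)), N.a x.1 ∈ LinearMap.range (N.e (3, 1)) :=
      fun x => (G2F.mem_rg N.toRp).mpr (a2 v hv x.1 ((G2F.mem_rg N.toRp).mp x.2)).1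
    let f : LinearMap.range (N.e (v, 2)) →ₗ[K] LinearMap.range (N.e (3, 1)) :=
      LinearMap.codRestrict _ (N.a.comp (Submodule.subtype _)) hmem
    have hmem2 : ∀ x, f x ∈ LinearMap.ker g := by
      intro x
      rw [LinearMap.mem_ker]
      exact Subtype.ext (a2 v hv x.1 ((G2F.mem_rg N.toRp).mp x.2)).2
    let f' : LinearMap.range (N.e (v, 2)) →ₗ[K] LinearMap.ker g :=
      LinearMap.codRestrict _ f hmem2
    have hf' : Function.Bijective f' := by
      constructor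
      · rw [← LinearMap.ker_eq_bot, LinearMap.ker_eq_bot']
        rintro ⟨x, hx⟩ h0
        have h0' : N.a x = 0 := congrArg (fun y => (y.1.1 : N.T)) h0
        exact Subtype.ext (hinj (v, 2) n2 x ((G2F.mem_rg N.toRp).mp hx) h0')
      · rintro ⟨⟨y, hy⟩, hy0⟩
        have hy0' : N.e (v, 0) (N.a y) = 0 := congrArg Subtype.val (LinearMap.mem_ker.mp hy0)
        obtain ⟨x, hx, hax⟩ := s2 v hv y ((G2F.mem_rg N.toRp).mp hy) hy0'
        exact ⟨⟨x, (G2F.mem_rg N.toRp).mpr hx⟩, Subtype.ext (Subtype.ext hax)⟩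
    rw [LinearEquiv.finrank_eq (LinearEquiv.ofBijective f' hf')]
    omega
  -- dimension at `(v, 4)`
  have dim4 : ∀ v, v ≠ 3 → finrank K (LinearMap.range (N.e (v, 4))) ≤ 1 := by
    intro v hv
    obtain ⟨j, l, hj, hl, hvj, hvl, hjl, hall⟩ := G2F.three hv
    refine le_trans (G2F.dm_le N.toRp (p := (v, 4)) (q := (v, 0))
      (N.e (v, 0) ∘ₗ N.a ∘ₗ N.a ∘ₗ N.e (j, 2) ∘ₗ N.a ∘ₗ N.a) (fun x _ => N.e_e _ _)
      fun x hx h0 => ?_) (dim0 v hv).le
    have h0' : N.e (v, 0) (N.a (N.a (N.e (j, 2) (N.a (N.a x))))) = 0 := h0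
    obtain ⟨h1, h2⟩ := a4 v hv x hx
    obtain ⟨h3, h4⟩ := a3 _ h1
    have h5 := G2F.split3 N.toRp hvj hvl hjl hall h3
    rw [h2, zero_add] at h5
    have h6 := congrArg N.a h5
    rw [h4, map_add] at h6
    set y := N.e (j, 2) (N.a (N.a x)) with hy
    have hyj : N.e (j, 2) y = y := N.e_e _ _
    obtain ⟨h31, c2⟩ := a2 j hj y hyj
    have c3 : N.e (l, 0) (N.a (N.a y)) = 0 := by
      have h : N.a y = - N.a (N.e (l, 2) (N.a (N.a x))) := eq_neg_of_add_eq_zero_left h6.symm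
      rw [h, map_neg, map_neg, (a2 l hl _ (N.e_e _ _)).2, neg_zero]
    have h7 : N.a (N.a y) = 0 := by
      rw [G2F.split3 N.toRp hvj hvl hjl hall (k := 0) (y := N.a (N.a y)) (a1 _ h31), h0', c2, c3,
        add_zero, add_zero]
    have h8 : N.a y = 0 := hinj (3, 1) (by decide) _ h31 h7
    have h9 : y = 0 := hinj (j, 2) n2 _ hyj h8
    rw [h8, zero_add] at h6
    have h10 : N.e (l, 2) (N.a (N.a x)) = 0 := hinj (l, 2) n2 _ (N.e_e _ _) h6.symm
    rw [h9, h10, add_zero] at h5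
    exact hinj (v, 4) n4 x hx (hinj (3, 3) (by decide) _ h1 h5)
  refine ⟨?_, hinj, G2F.kill N.toRp, dim0, dim1, dim2, dim4, a1, s1, a2, s2, a3, s3, a4⟩
  rintro ⟨v, k⟩ hp
  rcases hp with ⟨hv, hk⟩ | ⟨hv, hk⟩ | hp
  · simp only at hv hk
    have h : k = 1 ∨ k = 3 ∨ k = 5 := by
      revert k
      decide
    rcases h with rfl | rfl | rfl
    · exact z1 v hv
    · exact z3 v hv
    · exact z5 v hv
  · simp only at hv hk
    subst hv
    have h : k = 0 ∨ k = 2 ∨ k = 4 := by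
      revert k
      decide
    rcases h with rfl | rfl | rfl
    · exact z30
    · exact z32
    · exact z34
  · rw [hp]
    exact z35

end Pool.Agent.Lib.MP_4c1f79_al
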