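import Pool.Agent.Lib.MP_4c1f79_al.StmI

/-!
# MP_4c1f79_al, piece [IFD]: Frobenius data exist
-/

set_option autoImplicit false

namespace Pool.Agent.Lib.MP_4c1f79_al

open Polynomial in
private theorem IFD_card (q : ℕ) [Fact q.Prime] (K : Type) [Field K] [Finite K] [CharP K q] :
    Nat.card {c : K // c ^ q = c} = q := by
  classical
  have hq : q.Prime := Fact.out
  apply le_antisymm
  · have h0 : (X ^ q - X : K[X]) ≠ 0 := FiniteField.X_pow_card_sub_X_ne_zero K hq.one_lt
    have h1 : (X ^ q - X : K[X]).natDegree = q :=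
      FiniteField.X_pow_card_sub_X_natDegree_eq K hq.one_lt
    have h2 : Nat.card {c : K // c ^ q = c} ≤ Nat.card ((X ^ q - X : K[X]).roots.toFinset) := by
      apply Nat.card_le_card_of_injective
        (f := fun c : {c : K // c ^ q = c} =>
          (⟨c.1, by
            rw [Multiset.mem_toFinset, mem_roots h0]
            simp [c.2]⟩ : ((X ^ q - X : K[X]).roots.toFinset)))
      intro a b hab
      have h4 : a.1 = b.1 := congrArg (fun z => z.1) hab
      exact Subtype.ext h4
    refine h2.trans ?_
    rw [Nat.card_eq_fintype_card, Fintype.card_coe]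
    refine (Multiset.toFinset_card_le _).trans ?_
    refine (card_roots' _).trans ?_
    rw [h1]
  · have h3 : Nat.card (ZMod q) ≤ Nat.card {c : K // c ^ q = c} := by
      apply Nat.card_le_card_of_injective
        (f := fun z : ZMod q => (⟨ZMod.castHom (dvd_refl q) K z, by
          rw [← map_pow, ZMod.pow_card]⟩ : {c : K // c ^ q = c}))
      intro a b hab
      exact (ZMod.castHom (dvd_refl q) K).injective (congrArg Subtype.val hab)
    rwa [Nat.card_zmod] at h3

theorem IFD_holds : S_IFD := by
  intro q r hq hr
  have hF : Fact q.Prime := ⟨hq⟩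
  have hc : Nat.card (GaloisField q r) = q ^ r := GaloisField.card q r hr.ne'
  refine ⟨GaloisField q r, inferInstance,
    ⟨frobeniusEquiv (GaloisField q r) q, r, q, hr, hq.one_lt, ?_, ?_, hc⟩, rfl, rfl⟩
  · intro c
    have h1 : (⇑(frobeniusEquiv (GaloisField q r) q))^[r] c = c ^ q ^ r := by
      have h2 : (⇑(frobeniusEquiv (GaloisField q r) q)) = ⇑(frobenius (GaloisField q r) q) := rfl
      rw [h2]
      exact iterate_frobenius q r c
    rw [h1, ← hc]
    have := Fintype.ofFinite (GaloisField q r)
    rw [Nat.card_eq_fintype_card]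
    exact FiniteField.pow_card c
  · exact IFD_card q (GaloisField q r)

end Pool.Agent.Lib.MP_4c1f79_al
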