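import Pool.Agent.Lib.MP_4c1f79_al.StmCl

/-!
# MP_4c1f79_al : piece CSO (dimension vectors of the modules of type `ind E`)
-/

set_option autoImplicit false

namespace Pool.Agent.Lib.MP_4c1f79_al

open Finset Module J4c

theorem CSO_holds (hDMS : S_DMS) (hRPE : S_RPE) : S_CSO := by
  classical
  intro P _ M s K _ D U E hEU N hN T hT p
  have hfK : Finite K := by
    apply Nat.finite_of_card_ne_zero
    rw [D.card_K]
    have := D.q_gt
    positivity
  have hex : ∀ u : P, ∃ R : Rp M K, u ∈ U → R.Good U ∧ ∀ p, R.sc p = ind {u} p := by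
    intro u
    by_cases hu : u ∈ U
    · obtain ⟨R, hR⟩ := hRPE P M K U (ind {u}) (by
        intro q hq
        unfold ind
        apply Set.indicator_of_notMem
        intro h
        have h1 : q = u := h
        exact hq (h1 ▸ hu))
      exact ⟨R, fun _ => hR⟩
    · exact ⟨N.toRp, fun h => absurd h hu⟩
  choose Ru hRu using hex
  rw [hDMS P M K U N.toRp hN.1 Ru hRu p]
  apply Finset.sum_congr rfl
  intro u _
  rw [hN.2 u]
  by_cases hu : u ∈ E
  · rw [hT u hu (Ru u) (hRu u (hEU hu)).1 (hRu u (hEU hu)).2 p]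
  · have h0 : ind E u = 0 := by
      unfold ind
      exact Set.indicator_of_notMem hu _
    rw [h0, zero_mul, zero_mul]

end Pool.Agent.Lib.MP_4c1f79_al
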