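import Pool.Agent.Lib.MP_4c1f79_al.Stm8

/-!
# MP_4c1f79_al : E8, the subquotient `T` and the comparison map
-/

set_option autoImplicit false

namespace Pool.Agent.Lib.MP_4c1f79_al

open Finset Module

section General

variable {P : Type} [Fintype P] {M : Mesh P} {s : Equiv.Perm P} {K : Type} [Field K] {D : Fd K}

private theorem E8b_gen_St (R : Rp M K) (B : Submodule K R.T) : R.St (R.gen B) := by
  constructor
  · intro p x hx
    refine Submodule.mem_sInf.2 fun W hW => hW.1.1 p x ?_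
    exact Submodule.mem_sInf.1 hx W hW
  · intro x hx
    refine Submodule.mem_sInf.2 fun W hW => hW.1.2 x ?_
    exact Submodule.mem_sInf.1 hx W hW

private theorem E8b_le_gen (R : Rp M K) (B : Submodule K R.T) : B ≤ R.gen B :=
  le_sInf fun _ hW => hW.2

private theorem E8b_gen_le (R : Rp M K) (B W : Submodule K R.T) (h : R.St W) (hB : B ≤ W) :
    R.gen B ≤ W := sInf_le ⟨h, hB⟩

/-- The subquotient in terms of the projection. -/
private theorem E8b_subq (hDQ3 : S_DQ3) (N : FM M s K D) (S O : Submodule K N.T) (hS : N.St S)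
    (hO : N.St O) : ∃ π : O →ₗ[K] (N.subq S O hS hO).T,
    (∀ y, ∃ z, π z = y) ∧ (∀ z, π z = 0 ↔ (z : N.T) ∈ S) ∧
    (∀ p (z : O) (h : N.e p z ∈ O), (N.subq S O hS hO).e p (π z) = π ⟨N.e p z, h⟩) ∧
    (∀ (z : O) (h : N.a z ∈ O), (N.subq S O hS hO).a (π z) = π ⟨N.a z, h⟩) ∧
    ∀ (V : Submodule K (N.subq S O hS hO).T) (w : P),
      (N.subq S O hS hO).toRp.dmS V w + N.toRp.dmS (S ⊓ O) w
        = N.toRp.dmS ((V.comap π).map O.subtype) w := by
  obtain ⟨h1, h2, _⟩ := hDQ3 P M K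
  let π : O →ₗ[K] (N.subq S O hS hO).T := (S.comap O.subtype).mkQ
  refine ⟨π, ?_, ?_, ?_, ?_, ?_⟩
  · exact Submodule.mkQ_surjective (p := S.comap O.subtype)
  · intro z
    exact Submodule.Quotient.mk_eq_zero (S.comap O.subtype)
  · intro p z h
    rfl
  · intro z h
    rfl
  · intro V w
    have h3 := h1 (N.toRp.sub O hO.1) (S.comap O.subtype) (FM.St.comap hO hS).1 V w
    have h4 := h2 N.toRp O hO.1 (S.comap O.subtype) w
    have h5 := h2 N.toRp O hO.1 (V.comap (S.comap O.subtype).mkQ) w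
    have h6 : (S.comap O.subtype).map O.subtype = S ⊓ O := by
      rw [Submodule.map_comap_subtype, inf_comm]
    have h7 : (N.toRp.sub O hO.1).dmS (S.comap O.subtype) w = N.toRp.dmS (S ⊓ O) w :=
      h4.trans (congrArg (fun z => N.toRp.dmS z w) h6)
    calc _ = (N.subq S O hS hO).toRp.dmS V w + (N.toRp.sub O hO.1).dmS (S.comap O.subtype) w := by
          rw [h7]
      _ = _ := h3.trans h5

/-- The subquotient generated by a vector. -/
private theorem E8b_gen (N : FM M s K D) (S O : Submodule K N.T) (hS : N.St S)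
    (hO : N.St O) (hSO : S ≤ O) (T : FM M s K D) (π : O →ₗ[K] T.T) (hsur : ∀ y, ∃ z, π z = y)
    (hker : ∀ z, π z = 0 ↔ (z : N.T) ∈ S)
    (he : ∀ p (z : O) (h : N.e p z ∈ O), T.e p (π z) = π ⟨N.e p z, h⟩)
    (ha : ∀ (z : O) (h : N.a z ∈ O), T.a (π z) = π ⟨N.a z, h⟩) (x : O) :
    ((T.toRp.gen (K ∙ π x)).comap π).map O.subtype = S ⊔ N.toRp.gen (K ∙ (x : N.T)) := by
  have hGst := E8b_gen_St N.toRp (K ∙ (x : N.T))
  have hxG : (x : N.T) ∈ N.toRp.gen (K ∙ (x : N.T)) :=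
    E8b_le_gen N.toRp _ (Submodule.mem_span_singleton_self _)
  apply le_antisymm
  · -- the image of `S ⊔ G`
    have hV : T.toRp.gen (K ∙ π x) ≤
        ((S ⊔ N.toRp.gen (K ∙ (x : N.T))).comap O.subtype).map π := by
      have hst : ∀ (f : N.T →ₗ[K] N.T), (∀ y ∈ S, f y ∈ S) →
          (∀ y ∈ N.toRp.gen (K ∙ (x : N.T)), f y ∈ N.toRp.gen (K ∙ (x : N.T))) →
          ∀ y ∈ S ⊔ N.toRp.gen (K ∙ (x : N.T)), f y ∈ S ⊔ N.toRp.gen (K ∙ (x : N.T)) := by
        intro f h1 h2 y hy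
        obtain ⟨u, hu, v, hv, rfl⟩ := Submodule.mem_sup.1 hy
        rw [map_add]
        exact Submodule.add_mem_sup (h1 u hu) (h2 v hv)
      refine E8b_gen_le T.toRp _ _ ⟨?_, ?_⟩ ?_
      · rintro p _ ⟨z, hz, rfl⟩
        refine ⟨⟨N.e p z, hO.1.1 p z z.2⟩, ?_, (he p z _).symm⟩
        exact hst (N.e p) (hS.1.1 p) (hGst.1 p) _ hz
      · rintro _ ⟨z, hz, rfl⟩
        refine ⟨⟨N.a z, hO.1.2 z z.2⟩, ?_, (ha z _).symm⟩
        exact hst N.a hS.1.2 hGst.2 _ hz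
      · rw [Submodule.span_singleton_le_iff_mem]
        exact ⟨x, Submodule.mem_sup_right hxG, rfl⟩
    rintro _ ⟨z, hz, rfl⟩
    obtain ⟨z', hz', hzz⟩ := hV hz
    have h1 : π (z - z') = 0 := by rw [map_sub, hzz, sub_self]
    have h2 : ((z - z' : O) : N.T) ∈ S := (hker _).1 h1
    have h3 : (z : N.T) = ((z - z' : O) : N.T) + z' := by
      rw [Submodule.coe_sub, sub_add_cancel]
    show (z : N.T) ∈ _
    rw [h3]
    exact Submodule.add_mem _ (Submodule.mem_sup_left h2) hz'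
  · have hVst := E8b_gen_St T.toRp (K ∙ π x)
    apply sup_le
    · intro y hy
      refine ⟨⟨y, hSO hy⟩, ?_, rfl⟩
      show π ⟨y, hSO hy⟩ ∈ T.toRp.gen (K ∙ π x)
      rw [(hker ⟨y, hSO hy⟩).2 hy]
      exact Submodule.zero_mem _
    · refine E8b_gen_le N.toRp _ _ ⟨?_, ?_⟩ ?_
      · rintro p _ ⟨z, hz, rfl⟩
        refine ⟨⟨N.e p z, hO.1.1 p z z.2⟩, ?_, rfl⟩
        show π ⟨N.e p z, _⟩ ∈ T.toRp.gen (K ∙ π x)
        rw [← he p z (hO.1.1 p z z.2)]
        exact hVst.1 p _ hz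
      · rintro _ ⟨z, hz, rfl⟩
        refine ⟨⟨N.a z, hO.1.2 z z.2⟩, ?_, rfl⟩
        show π ⟨N.a z, _⟩ ∈ T.toRp.gen (K ∙ π x)
        rw [← ha z (hO.1.2 z z.2)]
        exact hVst.2 _ hz
      · rw [Submodule.span_singleton_le_iff_mem]
        refine ⟨x, ?_, rfl⟩
        exact E8b_le_gen T.toRp _ (Submodule.mem_span_singleton_self _)

end General

/-- The positions of the comparison map. -/
private def E8b_Pos (p : P8) : Prop := p.1 ≠ 6 ∧ 12 ≤ (p.2 : ℕ) ∧ (p.2 : ℕ) ≤ 14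

theorem E8b_holds (hE8a : S_E8a) (hGC1 : S_GC1) (hGC2 : S_GC2) (hGC3 : S_GC3) (hFID : S_FID)
    (hFI8 : S_FI8) (hDQ1 : S_DQ1) (hDQ3 : S_DQ3) : S_E8b := by
  intro K _ D hr N hN
  classical
  obtain ⟨hgen, hSst, hGrd, hRes, hS12, _, _, _, hcog⟩ := hE8a K D hr N hN
  set B := B12 N.toRp with hB
  have hRes' : N.Res R6 B (N.gen B) := by rw [hgen]; exact hRes
  obtain ⟨g1, g2, g3, g4, g5, g6, g7, g8, g9, g10, g11⟩ := hGC1 P8 M8 s8 K D N R6 B hGrd
  have hSO : N.gen B ≤ N.cog R6 B := (g10 hRes').2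
  have htau : ∀ p ∈ (Set.univ : Set P8), p ∉ R6 → ∀ r ∈ R6, M8.Tau p r → ∀ x ∈ B,
      N.e r x = 0 := by
    intro p _ hp r hr' h
    exact absurd (h.1.trans hr') hp
  have hU7 : (Set.univ : Set P8) \ R6 = U7 := by
    ext p
    simp [U7, R6]
  obtain ⟨T, hT, π, hsur, hker, he, ha, hdim⟩ : ∃ T, T = N.subq (N.gen B) (N.cog R6 B) g1 g4 ∧
      ∃ π : N.cog R6 B →ₗ[K] T.T,
      (∀ y, ∃ z, π z = y) ∧ (∀ z, π z = 0 ↔ (z : N.T) ∈ N.gen B) ∧
      (∀ p (z : N.cog R6 B) (h : N.e p z ∈ N.cog R6 B), T.e p (π z) = π ⟨N.e p z, h⟩) ∧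
      (∀ (z : N.cog R6 B) (h : N.a z ∈ N.cog R6 B), T.a (π z) = π ⟨N.a z, h⟩) ∧
      ∀ (V : Submodule K T.T) (w : P8),
        T.toRp.dmS V w + N.toRp.dmS (N.gen B ⊓ N.cog R6 B) w
          = N.toRp.dmS ((V.comap π).map (N.cog R6 B).subtype) w :=
    ⟨_, rfl, E8b_subq hDQ3 N (N.gen B) (N.cog R6 B) g1 g4⟩
  have hgood := hGC2 P8 M8 s8 K D N Set.univ R6 B hGrd hN.1 hRes' htau g1 g4
  obtain ⟨hsc, _, _⟩ := hGC3 P8 M8 s8 K D N Set.univ R6 B hGrd hN.1 hRes' htau g1 g4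
  rw [hU7, ← hT] at hgood hsc
  -- the projection onto the positions
  let Q : N.T →ₗ[K] N.T := ∑ p : P8, if E8b_Pos p then N.e p else 0
  have hQ : ∀ x, Q x = ∑ p : P8, if E8b_Pos p then N.e p x else 0 := by
    intro x
    simp only [Q, LinearMap.sum_apply]
    refine Finset.sum_congr rfl fun p _ => ?_
    split_ifs
    · rfl
    · rfl
  have hQe : ∀ p x, Q (N.e p x) = if E8b_Pos p then N.e p x else 0 := by
    intro p x
    rw [hQ, Finset.sum_eq_single p]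
    · rw [N.e_e]
    · intro q _ hq
      rw [N.e_ne q p x hq, ite_self]
    · intro h
      exact absurd (Finset.mem_univ p) h
  have heQ : ∀ p x, N.e p (Q x) = if E8b_Pos p then N.e p x else 0 := by
    intro p x
    rw [hQ, map_sum, Finset.sum_eq_single p]
    · split_ifs
      · rw [N.e_e]
      · rw [map_zero]
    · intro q _ hq
      split_ifs
      · rw [N.e_ne p q x (Ne.symm hq)]
      · rw [map_zero]
    · intro h
      exact absurd (Finset.mem_univ p) h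
  have hPO : ∀ p, E8b_Pos p → ∀ x, N.e p x ∈ N.cog R6 B := fun p hp x =>
    hcog p hp.1 hp.2.2 _ (N.e_e p x)
  have hQO : ∀ x, Q x ∈ N.cog R6 B := by
    intro x
    rw [hQ]
    refine Submodule.sum_mem _ fun p _ => ?_
    split_ifs with h
    · exact hPO p h x
    · exact Submodule.zero_mem _
  let κ : N.T →ₗ[K] T.T := π ∘ₗ Q.codRestrict (N.cog R6 B) hQO
  have hκ : ∀ x, κ x = π ⟨Q x, hQO x⟩ := fun x => rfl
  have hκp : ∀ p (hp : E8b_Pos p) x, κ (N.e p x) = π ⟨N.e p x, hPO p hp x⟩ := by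
    intro p hp x
    rw [hκ]
    congr 1
    apply Subtype.ext
    show Q (N.e p x) = N.e p x
    rw [hQe, if_pos hp]
  refine ⟨T, κ, ?_⟩
  constructor
  · exact hgood
  · intro u hu
    rw [hsc u hu, hgen, hN.2 u]
  · intro p x
    rw [hκ, hκ, he p ⟨Q x, hQO x⟩ (g4.1.1 p _ (hQO x))]
    congr 1
    apply Subtype.ext
    show Q (N.e p x) = N.e p (Q x)
    rw [hQe, heQ]
  · intro p hp x
    rw [hκ]
    have h1 : (⟨Q (N.e p x), hQO _⟩ : N.cog R6 B) = 0 := by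
      apply Subtype.ext
      show Q (N.e p x) = 0
      rw [hQe, if_neg (show ¬ E8b_Pos p from hp)]
    rw [h1, map_zero]
  · intro p h1 h2 h3 x hx hκx
    have hp : E8b_Pos p := ⟨h1, h2, h3⟩
    rw [← hx, hκp p hp, hker] at hκx
    have h4 : N.e p x ∈ S12 N.toRp := by
      rw [← hgen]
      exact hκx
    have h5 := hS12 p h1 h2
    have h6 : (S12 N.toRp).map (N.e p) = ⊥ := Submodule.finrank_eq_zero.1 h5
    have h7 : N.e p (N.e p x) ∈ (S12 N.toRp).map (N.e p) := ⟨_, h4, rfl⟩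
    rw [h6, Submodule.mem_bot, N.e_e, hx] at h7
    exact h7
  · intro p h1 h2 h3 y hy
    have hp : E8b_Pos p := ⟨h1, h2, h3⟩
    obtain ⟨z, rfl⟩ := hsur y
    refine ⟨N.e p z, N.e_e p z, ?_⟩
    rw [hκp p hp, ← he p z (g4.1.1 p _ z.2)]
    exact hy
  · intro p h1 h2 h3 x
    have hp : E8b_Pos p := ⟨h1, by omega, h3⟩
    have hy : N.a (N.e p x) ∈ N.cog R6 B := g4.1.2 _ (hPO p hp x)
    rw [hκp p hp, ha _ hy, hκ, ← sub_eq_zero, ← map_sub, hker]
    show Q (N.a (N.e p x)) - N.a (N.e p x) ∈ N.gen B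
    rw [← Submodule.neg_mem_iff, neg_sub]
    have h4 : N.a (N.e p x) - Q (N.a (N.e p x))
        = ∑ q : P8, if E8b_Pos q then 0 else N.e q (N.a (N.e p x)) := by
      calc N.a (N.e p x) - Q (N.a (N.e p x))
          = (∑ q : P8, N.e q (N.a (N.e p x)))
            - ∑ q : P8, if E8b_Pos q then N.e q (N.a (N.e p x)) else 0 := by
            rw [N.e_sum, hQ]
        _ = _ := by
            rw [← Finset.sum_sub_distrib]
            refine Finset.sum_congr rfl fun q _ => ?_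
            split_ifs <;> simp
    rw [h4]
    refine Submodule.sum_mem _ fun q _ => ?_
    split_ifs with hq
    · exact Submodule.zero_mem _
    by_cases hpq : M8.Ar p q
    · have h5 : (p.2 : ℕ) = q.2 + 1 := hpq.2
      have h6 : q ∈ R6 := by
        by_contra h7
        exact hq ⟨h7, by omega, by omega⟩
      obtain ⟨b, hb, hbq⟩ := g5 q h6 ⟨_, hy, rfl⟩
      rw [← hbq]
      exact g2 (hGrd.e q b hb)
    · rw [N.a_ar p q x hpq]
      exact Submodule.zero_mem _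
  · intro p h1 h2 h3 x hx w
    have hp : E8b_Pos p := ⟨h1, h2, h3⟩
    have hxO : x ∈ N.cog R6 B := by
      rw [← hx]
      exact hPO p hp x
    have h4 : κ x = π ⟨x, hxO⟩ := by
      rw [hκ]
      congr 1
      apply Subtype.ext
      show Q x = x
      conv_lhs => rw [← hx]
      rw [hQe, if_pos hp, hx]
    have h5 := hdim (T.toRp.gen (K ∙ κ x)) w
    have h6 := E8b_gen N (N.gen B) (N.cog R6 B) g1 g4 hSO T π hsur hker he ha ⟨x, hxO⟩
    rw [← h4] at h6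
    rw [h6, inf_eq_left.2 hSO, hgen] at h5
    rw [← h5, add_comm]

end Pool.Agent.Lib.MP_4c1f79_al
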