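import Pool.Agent.Lib.MP_4c1f79_al.Stm8

/-!
# MP_4c1f79_al : E8n, the numerical part of the type theorem
-/

set_option autoImplicit false

namespace Pool.Agent.Lib.MP_4c1f79_al

open Finset Module

namespace E8n

/-- The candidates for the socle positions. -/
def cd (p : P8) : Prop := p.1 ≠ 6 ∧ (p.2 : ℕ) ≤ 12 ∧
    (((p.1 = 0 ∨ p.1 = 2 ∨ p.1 = 4) ∧ (p.2 : ℕ) % 2 = 0) ∨
     ((p.1 = 1 ∨ p.1 = 3 ∨ p.1 = 5 ∨ p.1 = 7) ∧ (p.2 : ℕ) % 2 = 1))

instance (p : P8) : Decidable (cd p) := by unfold cd; infer_instance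

theorem n1 : ∀ p : P8, b8 p 6 = 0 := by decide +kernel

theorem n2 : ∀ p : P8, cd p → e8 p p = 1 ∧ b8 p 5 ≤ 1 := by decide +kernel

/-- The candidates with entry one in row five. -/
def L1 : List P8 := [(0, 2), (0, 8), (1, 1), (1, 3), (1, 7), (1, 9), (2, 0), (2, 2), (2, 4), (2, 6),
  (2, 8), (2, 10), (3, 3), (3, 5), (3, 7), (3, 11), (4, 4), (4, 6), (4, 12), (5, 5), (7, 1), (7, 5),
  (7, 9)]

theorem n3 : ∀ p : P8, cd p → b8 p 5 = 1 → p ∈ L1 := by decide +kernel

/-- The pairs with vanishing form. -/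
def ok2 (x y : P8) : Bool := decide (x ≠ y) && decide (e8 x y = 0) && decide (e8 y x = 0)

theorem n4 : ∀ x ∈ L1, ∀ y ∈ L1, ok2 x y = true → ∀ z ∈ L1, ok2 x z = true → ok2 y z = true →
    (x = (3, 5) ∨ y = (3, 5) ∨ z = (3, 5)) ∧ (x = (5, 5) ∨ y = (5, 5) ∨ z = (5, 5)) ∧
      (x = (7, 5) ∨ y = (7, 5) ∨ z = (7, 5)) := by
  decide +kernel

theorem comm3 {A B C : Type} [Fintype A] [Fintype B] [Fintype C] (f : A → B → C → ℤ) :
    ∑ u, ∑ w, ∑ v, f u w v = ∑ v, ∑ u, ∑ w, f u w v := by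
  calc ∑ u, ∑ w, ∑ v, f u w v = ∑ u, ∑ v, ∑ w, f u w v :=
        Finset.sum_congr rfl fun u _ => Finset.sum_comm
    _ = ∑ v, ∑ u, ∑ w, f u w v := Finset.sum_comm

/-- The vector `t`. -/
def tt (v : Fin 8) : ℕ :=
  if v = 6 then 0 else tval T8 v (if v = 0 ∨ v = 2 ∨ v = 4 then 12 else 13)

theorem tnum : (∑ v, (tt v : ℤ) * tt v)
    - (∑ v, ∑ v', if (v = 1 ∨ v = 3 ∨ v = 5 ∨ v = 7) ∧ eB v v' = true ∧ v' ≠ 6 then
        (tt v : ℤ) * tt v' else 0) = 3 := by
  decide +kernel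

theorem expand (m : P8 → ℕ) (hB : ∀ v : Fin 8, ∑ u, (m u : ℤ) * b8 u v = tt v) :
    ∑ u, ∑ w, (m u : ℤ) * m w * e8 u w = 3 := by
  have h0 : ∀ v v' : Fin 8, ∑ u, ∑ w, (m u : ℤ) * m w * ((b8 u v : ℤ) * b8 w v')
      = (tt v : ℤ) * tt v' := by
    intro v v'
    rw [← hB v, ← hB v', Finset.sum_mul_sum]
    apply Finset.sum_congr rfl
    intro u _
    apply Finset.sum_congr rfl
    intro w _
    ring
  rw [← tnum]
  have h1 : ∑ u, ∑ w, (m u : ℤ) * m w * e8 u w
      = ∑ u, ∑ w, ((∑ v, (m u : ℤ) * m w * ((b8 u v : ℤ) * b8 w v))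
        - ∑ v, ∑ v', (if (v = 1 ∨ v = 3 ∨ v = 5 ∨ v = 7) ∧ eB v v' = true ∧ v' ≠ 6 then
          (m u : ℤ) * m w * ((b8 u v : ℤ) * b8 w v') else 0)) := by
    apply Finset.sum_congr rfl
    intro u _
    apply Finset.sum_congr rfl
    intro w _
    unfold e8
    rw [mul_sub, Finset.mul_sum, Finset.mul_sum]
    congr 1
    apply Finset.sum_congr rfl
    intro v _
    rw [Finset.mul_sum]
    apply Finset.sum_congr rfl
    intro v' _
    rw [mul_ite, mul_zero]
  rw [h1]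
  simp only [Finset.sum_sub_distrib]
  refine congrArg₂ (fun a b : ℤ => a - b) ?_ ?_
  · rw [comm3]
    exact Finset.sum_congr rfl fun v _ => h0 v v
  · rw [comm3]
    apply Finset.sum_congr rfl
    intro v _
    rw [comm3]
    apply Finset.sum_congr rfl
    intro v' _
    by_cases h : (v = 1 ∨ v = 3 ∨ v = 5 ∨ v = 7) ∧ eB v v' = true ∧ v' ≠ 6
    · simp only [if_pos h]
      exact h0 v v'
    · simp only [if_neg h, Finset.sum_const_zero]

end E8n

theorem E8n_holds : S_E8n := by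
  classical
  intro m h1 h2 h3
  have hB : ∀ v : Fin 8, ∑ u, (m u : ℤ) * b8 u v = E8n.tt v := by
    intro v
    unfold E8n.tt
    by_cases hv : v = 6
    · subst hv
      rw [if_pos rfl]
      apply Finset.sum_eq_zero
      intro u _
      rw [E8n.n1]
      simp
    · rw [if_neg hv, ← h2 v hv]
      push_cast
      rfl
  have htot := E8n.expand m hB
  have hsum5 : ∑ u, (m u : ℤ) * b8 u 5 = 3 := by
    rw [hB 5]
    decide +kernel
  -- nonnegativity of the terms
  have hnn : ∀ u w, 0 ≤ (m u : ℤ) * m w * e8 u w := by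
    intro u w
    by_cases hu : m u = 0
    · rw [hu]
      simp
    · by_cases hw : m w = 0
      · rw [hw]
        simp
      · exact mul_nonneg (by positivity) (h3 u w hu hw)
  have hdiag : ∀ u, (m u : ℤ) * m u * e8 u u ≤ ∑ w, (m u : ℤ) * m w * e8 u w := by
    intro u
    exact Finset.single_le_sum (f := fun w => (m u : ℤ) * m w * e8 u w)
      (fun w _ => hnn u w) (Finset.mem_univ u)
  have hle : ∀ u, (m u : ℤ) * b8 u 5 ≤ (m u : ℤ) * m u * e8 u u := by
    intro u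
    by_cases hu : m u = 0
    · rw [hu]
      simp
    · obtain ⟨he, hb⟩ := E8n.n2 u (h1 u hu)
      rw [he, mul_one]
      have hm : (1 : ℤ) ≤ m u := by exact_mod_cast Nat.one_le_iff_ne_zero.mpr hu
      have hb' : (b8 u 5 : ℤ) ≤ 1 := by exact_mod_cast hb
      have hm0 : (0 : ℤ) ≤ m u := by positivity
      exact mul_le_mul_of_nonneg_left (hb'.trans hm) hm0
  have heq : ∀ u, (m u : ℤ) * b8 u 5 = ∑ w, (m u : ℤ) * m w * e8 u w := by
    have h4 := (Finset.sum_eq_sum_iff_of_le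
      (s := (Finset.univ : Finset P8)) (f := fun u => (m u : ℤ) * b8 u 5)
      (g := fun u => ∑ w, (m u : ℤ) * m w * e8 u w)
      (fun u _ => (hle u).trans (hdiag u))).mp (by rw [hsum5, htot])
    exact fun u => h4 u (Finset.mem_univ u)
  have hone : ∀ u, m u ≠ 0 → m u = 1 ∧ b8 u 5 = 1 := by
    intro u hu
    obtain ⟨he, hb⟩ := E8n.n2 u (h1 u hu)
    have h5 := hdiag u
    rw [← heq u, he, mul_one] at h5
    have hm : (1 : ℤ) ≤ m u := by exact_mod_cast Nat.one_le_iff_ne_zero.mpr hu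
    have h6 : (m u : ℤ) ≤ b8 u 5 := le_of_mul_le_mul_left h5 (by linarith)
    have h7 : m u ≤ b8 u 5 := by exact_mod_cast h6
    omega
  have hzero : ∀ u w, m u ≠ 0 → m w ≠ 0 → u ≠ w → e8 u w = 0 := by
    intro u w hu hw huw
    have h5 := heq u
    obtain ⟨hmu, hbu⟩ := hone u hu
    obtain ⟨hmw, -⟩ := hone w hw
    obtain ⟨he, -⟩ := E8n.n2 u (h1 u hu)
    have h6 : (m u : ℤ) * m u * e8 u u + (m u : ℤ) * m w * e8 u w
        ≤ ∑ w, (m u : ℤ) * m w * e8 u w := by
      have h7 := Finset.sum_le_sum_of_subset_of_nonneg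
        (f := fun w => (m u : ℤ) * m w * e8 u w) (Finset.subset_univ {u, w})
        (fun x _ _ => hnn u x)
      rwa [Finset.sum_pair huw] at h7
    rw [← h5, hmu, hmw, he, hbu] at h6
    have h8 := h3 u w hu hw
    push_cast at h6
    linarith
  -- the support
  have hS : ∀ u, u ∈ Finset.univ.filter (fun u : P8 => m u ≠ 0) ↔ m u ≠ 0 := by
    intro u
    simp
  have hcard : (Finset.univ.filter (fun u : P8 => m u ≠ 0)).card = 3 := by
    have h5 : ((Finset.univ.filter (fun u : P8 => m u ≠ 0)).card : ℤ) = 3 := by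
      rw [← hsum5, Finset.card_filter]
      push_cast
      apply Finset.sum_congr rfl
      intro u _
      by_cases hu : m u = 0
      · rw [if_neg (not_not.mpr hu), hu]
        simp
      · obtain ⟨hmu, hbu⟩ := hone u hu
        rw [if_pos hu, hmu, hbu]
        simp
    exact_mod_cast h5
  obtain ⟨x, y, z, hxy, hxz, hyz, hSe⟩ := Finset.card_eq_three.mp hcard
  have hx : m x ≠ 0 := (hS x).mp (by rw [hSe]; simp)
  have hy : m y ≠ 0 := (hS y).mp (by rw [hSe]; simp)
  have hz : m z ≠ 0 := (hS z).mp (by rw [hSe]; simp)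
  have hok : ∀ u w, m u ≠ 0 → m w ≠ 0 → u ≠ w → E8n.ok2 u w = true := by
    intro u w hu hw huw
    unfold E8n.ok2
    rw [decide_eq_true huw, decide_eq_true (hzero u w hu hw huw),
      decide_eq_true (hzero w u hw hu (Ne.symm huw))]
    rfl
  have hL : ∀ u, m u ≠ 0 → u ∈ E8n.L1 := fun u hu => E8n.n3 u (h1 u hu) (hone u hu).2
  obtain ⟨k1, k2, k3⟩ := E8n.n4 x (hL x hx) y (hL y hy) (hok x y hx hy hxy) z (hL z hz)
    (hok x z hx hz hxz) (hok y z hy hz hyz)
  have key : ∀ p : P8, (x = p ∨ y = p ∨ z = p) → m p ≠ 0 := by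
    rintro p (rfl | rfl | rfl)
    · exact hx
    · exact hy
    · exact hz
  have hsub : ({(3, 5), (5, 5), (7, 5)} : Finset P8)
      ⊆ Finset.univ.filter (fun u : P8 => m u ≠ 0) := by
    intro p hp
    rw [hS]
    simp only [Finset.mem_insert, Finset.mem_singleton] at hp
    rcases hp with rfl | rfl | rfl
    · exact key _ k1
    · exact key _ k2
    · exact key _ k3
  have hSeq : ({(3, 5), (5, 5), (7, 5)} : Finset P8)
      = Finset.univ.filter (fun u : P8 => m u ≠ 0) := by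
    apply Finset.eq_of_subset_of_card_le hsub
    rw [hcard]
    decide
  intro p
  unfold mT8 ind
  by_cases hp : m p = 0
  · rw [Set.indicator_of_notMem, hp]
    intro hmem
    have h5 : p ∈ Finset.univ.filter (fun u : P8 => m u ≠ 0) := by
      rw [← hSeq]
      simpa using hmem
    exact (hS p).mp h5 hp
  · rw [Set.indicator_of_mem, (hone p hp).1]
    · rfl
    · have h5 := (hS p).mpr hp
      rw [← hSeq] at h5
      simpa using h5

end Pool.Agent.Lib.MP_4c1f79_al
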