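import Pool.Agent.Lib.MP_4c1f79_al.Stm8

set_option autoImplicit false

namespace Pool.Agent.Lib.MP_4c1f79_al

open Finset Module

theorem E8z_holds (hE8r : S_E8r) (hE8s : S_E8s) : S_E8z := by
  classical
  intro h7 d
  by_cases hd : S08 d
  · exact hE8s h7 d hd
  · exact hE8r h7 d hd

end Pool.Agent.Lib.MP_4c1f79_al
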