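import Pool.Agent.Lib.MP_4c1f79_al.StmG

/-!
# MP_4c1f79_al : piece GNV (helper68)
-/

set_option autoImplicit false

namespace Pool.Agent.Lib.MP_4c1f79_al

open Module

variable {P : Type} [Fintype P] {M : Mesh P} {K : Type} [Field K]

private theorem gnv_St (R : Rp M K) (B : Submodule K R.T) : R.St (R.gen B) := by
  constructor
  · intro p x hx
    unfold Rp.gen at hx ⊢
    rw [Submodule.mem_sInf] at hx ⊢
    intro W hW
    exact hW.1.1 p x (hx W hW)
  · intro x hx
    unfold Rp.gen at hx ⊢
    rw [Submodule.mem_sInf] at hx ⊢
    intro W hW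
    exact hW.1.2 x (hx W hW)

private theorem gnv_le (R : Rp M K) (B : Submodule K R.T) : B ≤ R.gen B := by
  unfold Rp.gen
  exact le_sInf fun W hW => hW.2

private theorem gnv_min (R : Rp M K) (B W : Submodule K R.T) (h : R.St W) (hB : B ≤ W) :
    R.gen B ≤ W := by
  unfold Rp.gen
  exact sInf_le ⟨h, hB⟩

/-- components of `a x` -/
private theorem gnv_comp (R : Rp M K) (q : P) (x : R.T) :
    R.e q (R.a x) = ∑ r, R.e q (R.a (R.e r x)) := by
  conv_lhs => rw [← R.e_sum x]
  rw [map_sum, map_sum]

theorem GNV_holds : S_GNV := by
  classical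
  intro P _ M K _ R p v hv hv0
  have hfin : Module.Finite K R.T := Module.Finite.of_finite
  set G := R.gen (K ∙ v) with hG
  have hst : R.St G := gnv_St R _
  have hvG : v ∈ G := gnv_le R _ (Submodule.mem_span_singleton_self v)
  -- the components of level at least `lv p`
  have hup : ∀ x ∈ G, R.e p x ∈ (K ∙ v) ∧ ∀ q, q ≠ p → M.lv p ≤ M.lv q → R.e q x = 0 := by
    set W : Submodule K R.T :=
      { carrier := {x | R.e p x ∈ (K ∙ v) ∧ ∀ q, q ≠ p → M.lv p ≤ M.lv q → R.e q x = 0}
        zero_mem' := ⟨by rw [map_zero]; exact Submodule.zero_mem _, fun q _ _ => map_zero _⟩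
        add_mem' := by
          intro x y hx hy
          refine ⟨?_, ?_⟩
          · rw [map_add]
            exact Submodule.add_mem _ hx.1 hy.1
          · intro q h1 h2
            rw [map_add, hx.2 q h1 h2, hy.2 q h1 h2, add_zero]
        smul_mem' := by
          intro c x hx
          refine ⟨?_, ?_⟩
          · rw [map_smul]
            exact Submodule.smul_mem _ c hx.1
          · intro q h1 h2
            rw [map_smul, hx.2 q h1 h2, smul_zero] } with hWdef
    have hmem : ∀ x, x ∈ W ↔ (R.e p x ∈ (K ∙ v) ∧
        ∀ q, q ≠ p → M.lv p ≤ M.lv q → R.e q x = 0) := fun x => Iff.rfl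
    have hW : R.St W := by
      constructor
      · intro r x hx
        rw [hmem] at hx ⊢
        constructor
        · by_cases hr : r = p
          · rw [hr, R.e_e]
            exact hx.1
          · rw [R.e_ne p r x (fun h => hr h.symm)]
            exact Submodule.zero_mem _
        · intro q h1 h2
          by_cases hr : r = q
          · rw [hr, R.e_e]
            exact hx.2 q h1 h2
          · exact R.e_ne q r x (fun h => hr h.symm)
      · intro x hx
        rw [hmem] at hx ⊢
        have key : ∀ q, M.lv p ≤ M.lv q → R.e q (R.a x) = 0 := by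
          intro q hq
          rw [gnv_comp]
          refine Finset.sum_eq_zero fun r _ => ?_
          by_cases har : M.Ar r q
          · have hlv := M.lv_ar r q har
            have hrp : r ≠ p := by
              rintro rfl
              omega
            rw [hx.2 r hrp (by omega), map_zero, map_zero]
          · exact R.a_ar r q x har
        refine ⟨?_, fun q _ h2 => key q h2⟩
        rw [key p le_rfl]
        exact Submodule.zero_mem _
    have hvW : (K ∙ v) ≤ W := by
      rw [Submodule.span_singleton_le_iff_mem, hmem, hv]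
      refine ⟨Submodule.mem_span_singleton_self v, fun q h1 _ => ?_⟩
      rw [← hv]
      exact R.e_ne q p v h1
    intro x hx
    exact (hmem x).1 (gnv_min R _ W hW hvW hx)
  -- (5)
  have h5 : ∀ x ∈ G, ∀ q, q ≠ p → ∃ y ∈ G, R.e q x = R.e q (R.a y) := by
    set W : Submodule K R.T :=
      { carrier := {x | x ∈ G ∧ ∀ q, q ≠ p → ∃ y ∈ G, R.e q x = R.e q (R.a y)}
        zero_mem' := ⟨Submodule.zero_mem _, fun q _ => ⟨0, Submodule.zero_mem _, by
          rw [map_zero, map_zero, map_zero]⟩⟩
        add_mem' := by
          intro x y hx hy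
          refine ⟨Submodule.add_mem _ hx.1 hy.1, fun q h1 => ?_⟩
          obtain ⟨x', hx', h2⟩ := hx.2 q h1
          obtain ⟨y', hy', h3⟩ := hy.2 q h1
          refine ⟨x' + y', Submodule.add_mem _ hx' hy', ?_⟩
          rw [map_add, map_add, map_add, h2, h3]
        smul_mem' := by
          intro c x hx
          refine ⟨Submodule.smul_mem _ c hx.1, fun q h1 => ?_⟩
          obtain ⟨x', hx', h2⟩ := hx.2 q h1
          refine ⟨c • x', Submodule.smul_mem _ c hx', ?_⟩
          rw [map_smul, map_smul, map_smul, h2] } with hWdef
    have hmem : ∀ x, x ∈ W ↔ (x ∈ G ∧ ∀ q, q ≠ p → ∃ y ∈ G, R.e q x = R.e q (R.a y)) :=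
      fun x => Iff.rfl
    have hW : R.St W := by
      constructor
      · intro r x hx
        rw [hmem] at hx ⊢
        refine ⟨hst.1 r x hx.1, fun q h1 => ?_⟩
        by_cases hr : r = q
        · subst hr
          rw [R.e_e]
          exact hx.2 r h1
        · refine ⟨0, Submodule.zero_mem _, ?_⟩
          rw [R.e_ne q r x (fun h => hr h.symm), map_zero, map_zero]
      · intro x hx
        rw [hmem] at hx ⊢
        exact ⟨hst.2 x hx.1, fun q _ => ⟨x, hx.1, rfl⟩⟩
    have hvW : (K ∙ v) ≤ W := by
      rw [Submodule.span_singleton_le_iff_mem, hmem]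
      refine ⟨hvG, fun q h1 => ⟨0, Submodule.zero_mem _, ?_⟩⟩
      rw [map_zero, map_zero, ← hv]
      exact R.e_ne q p v h1
    intro x hx
    exact ((hmem x).1 (gnv_min R _ W hW hvW hx)).2
  refine ⟨hst, hvG, ?_, ?_, fun q hq x hx => h5 x hx q hq, ?_⟩
  · unfold Rp.dmS
    have h1 : G.map (R.e p) = K ∙ v := by
      apply le_antisymm
      · rintro _ ⟨x, hx, rfl⟩
        exact (hup x hx).1
      · rw [Submodule.span_singleton_le_iff_mem]
        exact ⟨v, hvG, hv⟩
    rw [h1]
    exact finrank_span_singleton hv0
  · intro q h1 h2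
    unfold Rp.dmS
    have h3 : G.map (R.e q) = ⊥ := by
      rw [Submodule.eq_bot_iff]
      rintro _ ⟨x, hx, rfl⟩
      exact (hup x hx).2 q h1 h2
    rw [h3]
    exact finrank_bot K R.T
  · intro t q htq hqp hsc
    -- the sum of the components at the successors of `t`
    set W : P → Submodule K R.T := fun r => if M.Ar t r then G.map (R.e r) else ⊥ with hW
    set Φ : (∀ r, W r) →ₗ[K] R.T := ∑ r, (W r).subtype ∘ₗ LinearMap.proj r with hΦ
    have hΦa : ∀ f : ∀ r, W r, Φ f = ∑ r, (f r : R.T) := by
      intro f
      rw [hΦ, LinearMap.sum_apply]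
      rfl
    set V := LinearMap.range Φ with hV
    have hVdim : finrank K V ≤ sA M (R.dmS G) t := by
      have h1 : finrank K V ≤ finrank K (∀ r, W r) := LinearMap.finrank_range_le Φ
      have h2 : finrank K (∀ r, W r) = ∑ r, finrank K (W r) := Module.finrank_pi_fintype K
      have h3 : ∑ r, finrank K (W r) = sA M (R.dmS G) t := by
        unfold sA
        refine Finset.sum_congr rfl fun r _ => ?_
        by_cases har : M.Ar t r
        · rw [if_pos har]
          have h4 : W r = G.map (R.e r) := by
            rw [hW]
            exact if_pos har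
          rw [h4]
          rfl
        · rw [if_neg har]
          have h4 : W r = ⊥ := by
            rw [hW]
            exact if_neg har
          rw [h4]
          exact finrank_bot K R.T
      omega
    -- membership in `V`
    have hVm : ∀ y ∈ G, (∑ r, if M.Ar t r then R.e r y else 0) ∈ V := by
      intro y hy
      have hm : ∀ r, (if M.Ar t r then R.e r y else 0) ∈ W r := by
        intro r
        by_cases har : M.Ar t r
        · rw [if_pos har, hW]
          dsimp only
          rw [if_pos har]
          exact ⟨y, hy, rfl⟩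
        · rw [if_neg har]
          exact Submodule.zero_mem _
      refine ⟨fun r => ⟨if M.Ar t r then R.e r y else 0, hm r⟩, ?_⟩
      rw [hΦa]
    set φ : R.T →ₗ[K] R.T := R.e q ∘ₗ R.a with hφ
    have hφa : ∀ x, φ x = R.e q (R.a x) := fun x => rfl
    -- the image of `G_t`
    set A := G.map (R.e t) with hA
    have hAV : A.map R.a ≤ V ⊓ LinearMap.ker φ := by
      rintro _ ⟨_, ⟨x, hx, rfl⟩, rfl⟩
      rw [Submodule.mem_inf]
      constructor
      · have h1 : R.a (R.e t x) = ∑ r, if M.Ar t r then R.e r (R.a (R.e t x)) else 0 := by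
          conv_lhs => rw [← R.e_sum (R.a (R.e t x))]
          refine Finset.sum_congr rfl fun r _ => ?_
          split_ifs with har
          · rfl
          · exact R.a_ar t r x har
        rw [h1]
        exact hVm _ (hst.2 _ (hst.1 t x hx))
      · rw [LinearMap.mem_ker, hφa]
        exact R.mesh t q x htq
    have hAdim : finrank K (A.map R.a) = finrank K A := by
      have hinj : Function.Injective (R.a.domRestrict A) := by
        rw [← LinearMap.ker_eq_bot, Submodule.eq_bot_iff]
        intro z hz
        rw [LinearMap.mem_ker, LinearMap.domRestrict_apply] at hz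
        have h1 : (z : R.T) ∈ (LinearMap.range (R.e t) ⊓ LinearMap.ker R.a :
            Submodule K R.T) := by
          rw [Submodule.mem_inf]
          obtain ⟨x, _, hx⟩ := z.2
          exact ⟨⟨x, hx⟩, hz⟩
        have h2 : (LinearMap.range (R.e t) ⊓ LinearMap.ker R.a : Submodule K R.T) = ⊥ :=
          Submodule.finrank_eq_zero.1 hsc
        rw [h2, Submodule.mem_bot] at h1
        exact Subtype.ext h1
      have h1 : A.map R.a = LinearMap.range (R.a.domRestrict A) := by
        rw [LinearMap.range_domRestrict]
      rw [h1]
      exact LinearMap.finrank_range_of_inj hinj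
    -- the image of `V` in `G_q`
    have hB : G.map (R.e q) ≤ V.map φ := by
      rintro _ ⟨x, hx, rfl⟩
      obtain ⟨y, hy, hxy⟩ := h5 x hx q hqp
      refine ⟨_, hVm y hy, ?_⟩
      rw [hxy, hφa, gnv_comp R q y, map_sum, map_sum]
      refine Finset.sum_congr rfl fun r _ => ?_
      by_cases har : M.Ar t r
      · rw [if_pos har]
      · rw [if_neg har, map_zero, map_zero]
        exact (R.a_ar r q y (fun h => har ((M.mesh_ar t q r htq).2 h))).symm
    have hdim : finrank K (V.map φ) + finrank K (V ⊓ LinearMap.ker φ : Submodule K R.T) =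
        finrank K V := by
      have h1 := LinearMap.finrank_range_add_finrank_ker (φ.domRestrict V)
      have h2 : LinearMap.range (φ.domRestrict V) = V.map φ := LinearMap.range_domRestrict V φ
      have h3 : finrank K (LinearMap.ker (φ.domRestrict V)) =
          finrank K (V ⊓ LinearMap.ker φ : Submodule K R.T) := by
        have h4 : LinearMap.ker (φ.domRestrict V) =
            (V ⊓ LinearMap.ker φ : Submodule K R.T).comap V.subtype := by
          ext z
          rw [LinearMap.mem_ker, LinearMap.domRestrict_apply, Submodule.mem_comap,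
            Submodule.mem_inf, LinearMap.mem_ker]
          exact ⟨fun h => ⟨z.2, h⟩, fun h => h.2⟩
        rw [h4]
        exact LinearEquiv.finrank_eq (Submodule.comapSubtypeEquivOfLe inf_le_left)
      rw [← h2, ← h3]
      exact h1
    have i1 : R.dmS G t ≤ finrank K (V ⊓ LinearMap.ker φ : Submodule K R.T) := by
      have : R.dmS G t = finrank K (A.map R.a) := by
        rw [hAdim]
        rfl
      rw [this]
      exact Submodule.finrank_mono hAV
    have i2 : R.dmS G q ≤ finrank K (V.map φ) := Submodule.finrank_mono hB
    omega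

end Pool.Agent.Lib.MP_4c1f79_al
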