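import Pool.Agent.Lib.MP_4c1f79_al.StmK

/-!
# [K1] Similarity of Cartan forms
-/

set_option autoImplicit false

namespace Pool.Agent.Lib.MP_4c1f79_al

open Finset

private theorem K1_refl {ι : Type} (b : ι → ι → ℚ) : SimK b b :=
  ⟨1, Equiv.refl ι, one_pos, fun x y => by simp⟩

private theorem K1_symm {ι ι' : Type} {b : ι → ι → ℚ} {b' : ι' → ι' → ℚ} (h : SimK b b') :
    SimK b' b := by
  obtain ⟨c, e, hc, h⟩ := h
  refine ⟨c⁻¹, e.symm, inv_pos.mpr hc, fun x y => ?_⟩
  rw [h, Equiv.apply_symm_apply, Equiv.apply_symm_apply, inv_mul_cancel_left₀ hc.ne']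

private theorem K1_trans {ι ι' ι'' : Type} {b : ι → ι → ℚ} {b' : ι' → ι' → ℚ}
    {b'' : ι'' → ι'' → ℚ} (h : SimK b b') (h' : SimK b' b'') : SimK b b'' := by
  obtain ⟨c, e, hc, h⟩ := h
  obtain ⟨c', e', hc', h'⟩ := h'
  refine ⟨c * c', e.trans e', mul_pos hc hc', fun x y => ?_⟩
  rw [h, h', mul_assoc]
  rfl

private theorem K1_cf {ι ι' : Type} [Fintype ι] [Fintype ι'] {b : ι → ι → ℚ}
    {b' : ι' → ι' → ℚ} (h : SimK b b') (hb : CFK b) : CFK b' := by
  obtain ⟨d, g, hd, hg⟩ := K1_symm h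
  refine ⟨fun i j => ?_, fun i => ?_, fun i j hij => ?_, fun i j => ?_, fun x hx => ?_⟩
  · rw [hg, hg, hb.symm]
  · rw [hg]
    exact mul_pos hd (hb.pos _)
  · rw [hg]
    exact mul_nonpos_of_nonneg_of_nonpos hd.le (hb.nonpos _ _ fun h => hij (g.injective h))
  · obtain ⟨z, hz⟩ := hb.int (g i) (g j)
    refine ⟨z, ?_⟩
    rw [hg, hg]
    have h1 : 2 * (d * b (g i) (g j)) = d * (2 * b (g i) (g j)) := by ring
    rw [h1, hz]
    ring
  · have h1 : bilK b' x x = d * bilK b (fun i => x (g.symm i)) (fun i => x (g.symm i)) := by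
      unfold bilK
      rw [Finset.mul_sum, ← Equiv.sum_comp g]
      refine Finset.sum_congr rfl fun i _ => ?_
      rw [Finset.mul_sum, ← Equiv.sum_comp g]
      refine Finset.sum_congr rfl fun j _ => ?_
      simp only [hg, Equiv.symm_apply_apply]
      ring
    rw [h1]
    refine mul_pos hd (hb.pd _ ?_)
    intro h2
    apply hx
    funext i
    have h3 := congrFun h2 (g i)
    simpa using h3

private theorem K1_conn {ι ι' : Type} {b : ι → ι → ℚ} {b' : ι' → ι' → ℚ} (h : SimK b b')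
    (hb : ConnK b) : ConnK b' := by
  obtain ⟨c, e, hc, h⟩ := h
  intro x y
  have h1 := hb (e.symm x) (e.symm y)
  have h2 : ∀ a a', Relation.ReflTransGen (fun x y => b x y ≠ 0) a a' →
      Relation.ReflTransGen (fun x y => b' x y ≠ 0) (e a) (e a') := by
    intro a a' h3
    induction h3 with
    | refl => exact Relation.ReflTransGen.refl
    | tail _ h4 ih =>
      refine ih.tail ?_
      intro h5
      apply h4
      rw [h, h5, mul_zero]
  simpa using h2 _ _ h1

private theorem K1_shape {ι ι' : Type} {b : ι → ι → ℚ} {b' : ι' → ι' → ℚ} (h : SimK b b')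
    (hb : ShapeK b') : ShapeK b := by
  rcases hb with ⟨n, hn, h1⟩ | ⟨n, k, κ, h1, h2, h3, h4⟩ | ⟨p, q, r, h1, h2, h3, h4⟩
  · exact Or.inl ⟨n, hn, K1_trans h h1⟩
  · exact Or.inr (Or.inl ⟨n, k, κ, h1, h2, h3, K1_trans h h4⟩)
  · exact Or.inr (Or.inr ⟨p, q, r, h1, h2, h3, K1_trans h h4⟩)

private theorem K1_res {ι : Type} [Fintype ι] (b : ι → ι → ℚ) (p : ι → Prop)
    [Fintype {x // p x}] (hb : CFK b) : CFK fun x y : {x // p x} => b x y := by
  classical
  refine ⟨fun i j => hb.symm _ _, fun i => hb.pos _, fun i j hij => hb.nonpos _ _ ?_,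
    fun i j => hb.int _ _, fun x hx => ?_⟩
  · intro h
    exact hij (Subtype.ext h)
  · obtain ⟨y, hy⟩ : ∃ y : ι → ℚ, y = fun i => if h : p i then x ⟨i, h⟩ else 0 := ⟨_, rfl⟩
    have hy1 : ∀ i : {x // p x}, y i = x i := by
      intro i
      rw [hy]
      simp [i.2]
    have hy0 : ∀ i, i ∉ Set.range (Subtype.val : {x // p x} → ι) → y i = 0 := by
      intro i hi
      have h1 : ¬ p i := fun h => hi ⟨⟨i, h⟩, rfl⟩
      rw [hy]
      simp [h1]
    have h1 : bilK (fun x y : {x // p x} => b x y) x x = bilK b y y := by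
      unfold bilK
      refine Fintype.sum_of_injective (Subtype.val : {x // p x} → ι) Subtype.val_injective _ _
        ?_ ?_
      · intro i hi
        refine Finset.sum_eq_zero fun j _ => ?_
        rw [hy0 i hi]
        ring
      · intro i
        refine Fintype.sum_of_injective (Subtype.val : {x // p x} → ι) Subtype.val_injective _ _
          ?_ ?_
        · intro j hj
          rw [hy0 j hj]
          ring
        · intro j
          rw [hy1, hy1]
    rw [h1]
    apply hb.pd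
    intro h2
    apply hx
    funext i
    rw [← hy1, h2]
    rfl

theorem K1_holds : S_K1 :=
  ⟨fun _ b => K1_refl b, fun _ _ _ _ h => K1_symm h, fun _ _ _ _ _ _ h h' => K1_trans h h',
    fun _ _ _ _ _ _ h hb => K1_cf h hb, fun _ _ _ _ h hb => K1_conn h hb,
    fun _ _ _ _ h hb => K1_shape h hb, fun _ _ b p _ hb => K1_res b p hb⟩

end Pool.Agent.Lib.MP_4c1f79_al
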