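import Pool.Agent.Lib.MP_4c1f79_al.StmK

/-!
# MP_4c1f79_al : piece `KIN`

Every connected Cartan form has one of the shapes.
-/

set_option autoImplicit false

namespace Pool.Agent.Lib.MP_4c1f79_al

private theorem KIN_one {ι : Type} [Fintype ι] (b : ι → ι → ℚ) (hb : CFK b)
    (h1 : Fintype.card ι = 1) : ShapeK b := by
  classical
  obtain ⟨x, hx⟩ := Fintype.card_eq_one_iff.1 h1
  refine Or.inl ⟨1, le_rfl, b x x / 2, Fintype.equivFinOfCardEq h1, ?_, ?_⟩
  · have := hb.pos x
    positivity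
  · intro y z
    have hy := hx y
    have hz := hx z
    subst hy
    subst hz
    have h : ∀ u : Fin 1, linK 1 1 1 u u = 2 := by
      intro u
      simp [linK]
    rw [h]
    ring

private theorem KIN_att {ι : Type} [DecidableEq ι] (b : ι → ι → ℚ) (l j : ι) (hlj : l ≠ j)
    (hne : b l j ≠ 0) (heq : ∀ x, x ≠ l → x ≠ j → b l x = 0) :
    ∃ bo : Option {x // x ≠ l} → Option {x // x ≠ l} → ℚ,
      AttK (fun x y : {x // x ≠ l} => b x y) bo ⟨j, hlj.symm⟩ ∧ SimK b bo := by
  refine ⟨fun x y => b (Equiv.optionSubtypeNe l x) (Equiv.optionSubtypeNe l y), ⟨?_, ?_, ?_⟩,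
    1, (Equiv.optionSubtypeNe l).symm, one_pos, ?_⟩
  · intro x y
    simp
  · simpa using hne
  · intro x hx
    have : (x : ι) ≠ j := fun h => hx (Subtype.ext h)
    simpa using heq x x.2 this
  · intro x y
    beta_reduce
    rw [Equiv.apply_symm_apply, Equiv.apply_symm_apply, one_mul]

theorem KIN_holds (hK1 : S_K1) (hKLF : S_KLF) (hKTP : S_KTP) (hKA : S_KA) (hKL : S_KL)
    (hKT : S_KT) : S_KIN := by
  obtain ⟨hrefl, hsymm, htrans, hcfk, hconn, hshape, hres⟩ := hK1
  have main : ∀ n : ℕ, ∀ (ι : Type) [Fintype ι] [Nonempty ι] (b : ι → ι → ℚ),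
      Fintype.card ι = n → CFK b → ConnK b → ShapeK b := by
    intro n
    induction n using Nat.strong_induction_on with
    | _ n ih =>
      intro ι _ _ b hn hb hc
      classical
      by_cases h2 : 2 ≤ Fintype.card ι
      · obtain ⟨l, j, hlj, hne, heq, hcc⟩ := hKLF ι b hb hc h2
        have hb0 : CFK fun x y : {x // x ≠ l} => b x y := hres ι b (fun x => x ≠ l) hb
        have hcard : Fintype.card {x // x ≠ l} < n := by
          rw [← hn]
          exact Fintype.card_subtype_lt (x := l) (by simp)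
        have : Nonempty {x // x ≠ l} := ⟨⟨j, hlj.symm⟩⟩
        have hsh : ShapeK fun x y : {x // x ≠ l} => b x y := ih _ hcard _ _ rfl hb0 hcc
        obtain ⟨bo, hatt, hsim⟩ := KIN_att b l j hlj hne heq
        rcases hsh with ⟨n', hn', hs⟩ | ⟨n', k, κ, hk, hkn, hκ, hs⟩ | ⟨p, q, r, hp, hq, hr, hs⟩
        · obtain ⟨b'', j', hatt', hsim'⟩ := hKTP _ _ _ _ _ _ hatt hs
          have hs2 := htrans _ _ _ _ _ _ hsim hsim'
          exact hshape _ _ _ _ hs2 (hKA n' hn' b'' j' (hcfk _ _ _ _ hs2 hb) hatt')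
        · obtain ⟨b'', j', hatt', hsim'⟩ := hKTP _ _ _ _ _ _ hatt hs
          have hs2 := htrans _ _ _ _ _ _ hsim hsim'
          exact hshape _ _ _ _ hs2 (hKL n' k κ hk hkn hκ b'' j' (hcfk _ _ _ _ hs2 hb) hatt')
        · obtain ⟨b'', j', hatt', hsim'⟩ := hKTP _ _ _ _ _ _ hatt hs
          have hs2 := htrans _ _ _ _ _ _ hsim hsim'
          exact hshape _ _ _ _ hs2 (hKT p q r hp hq hr b'' j' (hcfk _ _ _ _ hs2 hb) hatt')
      · have h1 : Fintype.card ι = 1 := by
          have := Fintype.card_pos (α := ι)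
          omega
        exact KIN_one b hb h1
  intro ι _ _ b hb hc
  exact main _ ι b rfl hb hc

end Pool.Agent.Lib.MP_4c1f79_al
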