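import Pool.Agent.Lib.MP_4c1f79_al.StmK

set_option autoImplicit false

namespace Pool.Agent.Lib.MP_4c1f79_al

open Finset

private theorem sform_same {r : ℕ} (t : Fin r → J4c.DT) (k : Fin r) (a a' : Fin (t k).rank) :
    J4c.sform t ⟨k, a⟩ ⟨k, a'⟩ = (t k).form a a' := by
  simp [J4c.sform]

private theorem cfk_of_rfk {ι : Type} [Fintype ι] (b : ι → ι → ℤ) (h : RFK b) :
    CFK (fun i j => (b i j : ℚ)) where
  symm := fun i j => by rw [h.symm i j]
  pos := fun i => by exact_mod_cast h.pos i
  nonpos := fun i j hij => by exact_mod_cast h.nonpos i j hij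
  int := fun i j => by
    obtain ⟨z, hz⟩ := h.int i j
    refine ⟨z, ?_⟩
    have : ((2 * b i j : ℤ) : ℚ) = ((b i i * z : ℤ) : ℚ) := by rw [hz]
    push_cast at this
    rw [this]; ring
  pd := h.pd

private theorem lift_chain {ι : Type} (b : ι → ι → ℤ) {r : ℕ} (f : ι → Fin r)
    (hf : ∀ x y, b x y ≠ 0 → f x = f y) (k : Fin r) {x y : ι}
    (h : Relation.ReflTransGen (fun x y => b x y ≠ 0) x y) (hx : f x = k) :
    ∃ hy : f y = k, Relation.ReflTransGen
      (fun x y : {x // f x = k} => b x y ≠ 0) ⟨x, hx⟩ ⟨y, hy⟩ := by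
  induction h with
  | refl => exact ⟨hx, Relation.ReflTransGen.refl⟩
  | tail h1 h2 ih =>
    obtain ⟨hy, hc⟩ := ih
    refine ⟨(hf _ _ h2).symm.trans hy, hc.tail ?_⟩
    exact h2

theorem KSF_holds (hK1 : S_K1) (hKNO : S_KNO) : S_KSF := by
  classical
  intro ι _ b hb
  -- the classes
  let R : ι → ι → Prop := fun x y => b x y ≠ 0
  have hRsymm : ∀ x y, Relation.ReflTransGen R x y → Relation.ReflTransGen R y x := by
    intro x y h
    have hs : ∀ u v, R u v → R v u := by
      intro u v huv
      show b v u ≠ 0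
      rw [hb.symm v u]; exact huv
    induction h with
    | refl => exact Relation.ReflTransGen.refl
    | tail h1 h2 ih => exact Relation.ReflTransGen.head (hs _ _ h2) ih
  let s : Setoid ι :=
    { r := Relation.ReflTransGen R
      iseqv := ⟨fun _ => Relation.ReflTransGen.refl, fun {x y} h => hRsymm x y h,
        fun h1 h2 => h1.trans h2⟩ }
  let Q := Quotient s
  let eQ : Q ≃ Fin (Fintype.card Q) := Fintype.equivFin Q
  let r := Fintype.card Q
  let f : ι → Fin r := fun x => eQ (Quotient.mk s x)
  have hff : ∀ x y, f x = f y → Relation.ReflTransGen R x y := by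
    intro x y h
    have h2 : (Quotient.mk s x) = (Quotient.mk s y) := eQ.injective h
    exact Quotient.exact h2
  have hf : ∀ x y, b x y ≠ 0 → f x = f y := by
    intro x y h
    have h2 : (Quotient.mk s x) = (Quotient.mk s y) :=
      Quotient.sound (Relation.ReflTransGen.single h : Relation.ReflTransGen R x y)
    exact congrArg eQ h2
  have hsurj : ∀ k : Fin r, ∃ x, f x = k := by
    intro k
    obtain ⟨x, hx⟩ := Quotient.exists_rep (eQ.symm k)
    refine ⟨x, ?_⟩
    show eQ (Quotient.mk s x) = k
    have : (Quotient.mk s x) = eQ.symm k := hx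
    rw [this]; exact eQ.apply_symm_apply k
  have key : ∀ k : Fin r, ∃ (t : J4c.DT) (e : {x // f x = k} ≃ Fin t.rank),
      ∀ x y : {x // f x = k}, b x y = t.form (e x) (e y) := by
    intro k
    have : Nonempty {x // f x = k} := by
      obtain ⟨x, hx⟩ := hsurj k
      exact ⟨⟨x, hx⟩⟩
    have hC := hK1.2.2.2.2.2.2 ι (fun i j => (b i j : ℚ)) (fun x => f x = k) (cfk_of_rfk b hb)
    refine hKNO {x // f x = k} (fun x y => b x y) ?_ ?_
    · exact
        { symm := fun i j => hb.symm i j
          even := fun i => hb.even i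
          pos := fun i => hb.pos i
          nonpos := fun i j hij => hb.nonpos i j (fun h => hij (Subtype.ext h))
          int := fun i j => hb.int i j
          pd := hC.pd
          norm := fun i => by
            obtain ⟨j, hj, hj2⟩ := hb.norm i
            obtain ⟨hy, hc⟩ := lift_chain b f hf k hj i.2
            exact ⟨⟨j, hy⟩, hc, hj2⟩ }
    · intro x y
      have h := hff x y (x.2.trans y.2.symm)
      obtain ⟨hy, hc⟩ := lift_chain b f hf k h x.2
      have hm : ∀ u v : {x // f x = k}, b u v ≠ 0 → ((b u v : ℤ) : ℚ) ≠ 0 := by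
        intro u v huv
        exact_mod_cast huv
      have hgen : ∀ z : {x // f x = k}, Relation.ReflTransGen
          (fun x y : {x // f x = k} => b x y ≠ 0) x z →
          Relation.ReflTransGen (fun x y : {x // f x = k} => ((b x y : ℤ) : ℚ) ≠ 0) x z := by
        intro z hz
        induction hz with
        | refl => exact Relation.ReflTransGen.refl
        | tail h1 h2 ih => exact ih.tail (hm _ _ h2)
      exact hgen y hc
  choose t e he using key
  let E : ι ≃ (k : Fin r) × Fin (t k).rank :=
    (Equiv.sigmaFiberEquiv f).symm.trans (Equiv.sigmaCongrRight e)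
  have hE : ∀ (k : Fin r) (x : ι) (hx : f x = k), E x = ⟨k, e k ⟨x, hx⟩⟩ := by
    intro k x hx
    subst hx
    rfl
  refine ⟨r, t, E, ?_⟩
  intro x y
  by_cases h : f y = f x
  · rw [hE (f x) x rfl, hE (f x) y h, sform_same]
    exact he (f x) ⟨x, rfl⟩ ⟨y, h⟩
  · rw [hE (f x) x rfl, hE (f y) y rfl]
    have h0 : b x y = 0 := by
      by_contra hne
      exact h (hf x y hne).symm
    rw [h0]
    simp [J4c.sform, h]

end Pool.Agent.Lib.MP_4c1f79_al
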