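import Pool.Agent.Lib.MP_4c1f79_al.StmN

/-! Piece J4 NPA: type A. -/

set_option autoImplicit false

namespace Pool.Agent.Lib.MP_4c1f79_al

open J4c Finset

private theorem NPA_path (n : ℕ) : PathOn (adjA (n + 1)) 0 (n + 1) :=
  fun _ _ _ _ _ _ => Iff.rfl

private theorem NPA_form (n : ℕ) (i j : Fin (n + 1)) :
    (DT.A n).form i j = if (i : ℕ) = j then 2
      else if (i : ℕ) + 1 = j ∨ (j : ℕ) + 1 = i then -1 else 0 := by
  show (CartanMatrix.A (n + 1)) i j * ((1 : ℕ) : ℤ) = _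
  rw [Nat.cast_one, mul_one]
  simp only [CartanMatrix.A, Matrix.of_apply, Fin.ext_iff]

/-- the datum of type `A` -/
private noncomputable def NPA_X (hCKA : S_CKA) (hg : J4c.S_good_A) (n : ℕ) : Dt where
  V := Fin (n + 1)
  adj := adjA (n + 1)
  hs := adjA_symm (n + 1)
  L := n + 2
  L2 := by omega
  T := fun v w k => tabA 0 n v w k
  st := Fin.rev
  st_inj := Fin.rev_injective
  T0 v w := (hCKA (n + 1) (adjA (n + 1)) 0 n (Nat.lt_succ_self n) (NPA_path n) v w
    (Nat.zero_le _) (Nat.lt_succ_iff.1 v.2) (Nat.zero_le _) (Nat.lt_succ_iff.1 w.2)).1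
  T1 v w := by
    have h1 := (hCKA (n + 1) (adjA (n + 1)) 0 n (Nat.lt_succ_self n) (NPA_path n) v w
      (Nat.zero_le _) (Nat.lt_succ_iff.1 v.2) (Nat.zero_le _) (Nat.lt_succ_iff.1 w.2)).2.1
    have h0 : ∀ u : Fin (n + 1), tabA 0 n v u 0 = if u = v then 1 else 0 := fun u =>
      (hCKA (n + 1) (adjA (n + 1)) 0 n (Nat.lt_succ_self n) (NPA_path n) v u
      (Nat.zero_le _) (Nat.lt_succ_iff.1 v.2) (Nat.zero_le _) (Nat.lt_succ_iff.1 u.2)).1
    rw [h1]
    rw [Finset.sum_eq_single v]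
    · rw [h0, if_pos rfl]
    · intro u _ hu
      rw [h0, if_neg hu, ite_self]
    · intro h
      exact absurd (Finset.mem_univ v) h
  tre v w k hk := (hCKA (n + 1) (adjA (n + 1)) 0 n (Nat.lt_succ_self n) (NPA_path n) v w
    (Nat.zero_le _) (Nat.lt_succ_iff.1 v.2) (Nat.zero_le _) (Nat.lt_succ_iff.1 w.2)).2.2.1 k
      (by omega)
  top v w := by
    have h1 := (hCKA (n + 1) (adjA (n + 1)) 0 n (Nat.lt_succ_self n) (NPA_path n) v w
      (Nat.zero_le _) (Nat.lt_succ_iff.1 v.2) (Nat.zero_le _) (Nat.lt_succ_iff.1 w.2)).2.2.2.2.1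
    have h2 : n + 2 - 2 = n - 0 := by omega
    rw [h2, h1]
    have h3 : ((w : ℕ) + v = 0 + n) ↔ w = Fin.rev v := by
      rw [Fin.ext_iff, Fin.val_rev]
      have := v.2
      have := w.2
      omega
    by_cases h : (w : ℕ) + v = 0 + n
    · rw [if_pos h, if_pos (h3.1 h)]
    · rw [if_neg h, if_neg (fun h4 => h (h3.2 h4))]
  bot v w := (hCKA (n + 1) (adjA (n + 1)) 0 n (Nat.lt_succ_self n) (NPA_path n) v w
    (Nat.zero_le _) (Nat.lt_succ_iff.1 v.2) (Nat.zero_le _) (Nat.lt_succ_iff.1 w.2)).2.2.2.2.2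
      (n + 2 - 1) (by omega)
  ι := Fin (n + 1)
  b := (DT.A n).form
  hb := hg n
  σ := 1
  r := 1
  r_pos := Nat.one_pos
  ob := id
  rep := id
  ob_rep _ := rfl
  orb v w := by
    constructor
    · intro h
      exact ⟨0, h.symm⟩
    · rintro ⟨k, hk⟩
      have h1 : (⇑(1 : Equiv.Perm (Fin (n + 1))))^[k] v = v := by
        rw [Equiv.Perm.coe_one]
        exact Function.iterate_fixed rfl k
      rw [h1] at hk
      exact hk.symm
  c i := decide ((i : ℕ) % 2 = 0)
  bip v w h := by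
    show decide ((v : ℕ) % 2 = 0) ≠ decide ((w : ℕ) % 2 = 0)
    intro h1
    rw [decide_eq_decide] at h1
    have h2 : (v : ℕ) + 1 = w ∨ (w : ℕ) + 1 = v := h
    omega
  adj_σ _ _ := Iff.rfl
  per _ := rfl
  st_σ _ := rfl
  diag i := by
    show (DT.A n).form i i = 2 * ((Finset.univ.filter fun v : Fin (n + 1) => v = i).card : ℤ)
    rw [NPA_form, if_pos rfl, Finset.filter_eq', if_pos (Finset.mem_univ _),
      Finset.card_singleton]
    norm_num
  off i j hij := by
    show (DT.A n).form i j = - ((Finset.univ.filter fun p : Fin (n + 1) × Fin (n + 1) =>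
      p.1 = i ∧ p.2 = j ∧ adjA (n + 1) p.1 p.2).card : ℤ)
    rw [NPA_form, if_neg (fun h => hij (Fin.ext h))]
    by_cases h : (i : ℕ) + 1 = j ∨ (j : ℕ) + 1 = i
    · rw [if_pos h]
      have h1 : (Finset.univ.filter fun p : Fin (n + 1) × Fin (n + 1) =>
          p.1 = i ∧ p.2 = j ∧ adjA (n + 1) p.1 p.2) = {(i, j)} := by
        ext p
        rw [Finset.mem_filter, Finset.mem_singleton]
        constructor
        · rintro ⟨-, h2, h3, -⟩
          exact Prod.ext h2 h3
        · rintro rfl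
          exact ⟨Finset.mem_univ _, rfl, rfl, h⟩
      rw [h1, Finset.card_singleton, Nat.cast_one]
    · rw [if_neg h]
      have h1 : (Finset.univ.filter fun p : Fin (n + 1) × Fin (n + 1) =>
          p.1 = i ∧ p.2 = j ∧ adjA (n + 1) p.1 p.2) = ∅ := by
        rw [Finset.filter_eq_empty_iff]
        rintro ⟨x, y⟩ - ⟨h2, h3, h4⟩
        apply h
        have h5 : x = i := h2
        have h6 : y = j := h3
        subst h5
        subst h6
        exact h4
      rw [h1, Finset.card_empty, Nat.cast_zero, neg_zero]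

theorem NPA_holds (hLNK : S_LNK) (hCKA : S_CKA) (hCLA : S_CLA) (hg : J4c.S_good_A) : S_NPA := by
  intro n
  refine hLNK (NPA_X hCKA hg n) (fun a => ?_)
  have h1 := hCLA (n + 1) (n + 2) (adjA (n + 1)) (adjA_symm (n + 1)) 1 1 (fun _ _ => Iff.rfl)
    (fun _ => rfl) 0 (n + 1) (by omega) (by rw [zero_add]; exact NPA_path n)
    (fun _ _ _ => rfl)
  have h2 : rowI (n + 1) (n + 2) 0 (0 + (n + 1)) = Set.univ := by
    ext p
    constructor
    · intro _
      exact Set.mem_univ p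
    · intro _
      have := p.1.2
      exact ⟨Nat.zero_le _, by omega⟩
  rw [h2] at h1
  exact h1 _

end Pool.Agent.Lib.MP_4c1f79_al
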