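import Pool.Agent.Lib.MP_4c1f79_al.Stm8

/-!
# MP_4c1f79_al : piece T8a (the table of the module with socle `(2, 0)` of type E8)
-/

set_option autoImplicit false

namespace Pool.Agent.Lib.MP_4c1f79_al

open Finset Module

/-- the full window -/
def T8a_U (_ : Fin 8) (_ : ℕ) : Bool := true

theorem T8a_win : (winB T8a_U : Set (Fin 8 × Fin 30)) = Set.univ := by
  ext p
  exact ⟨fun _ => trivial, fun _ => rfl⟩

theorem T8a_ok : okT eB T8a_U T8 2 0 29 = true := by decide +kernel

theorem T8a_nc : ncT T8a_U 29 = true := by decide +kernel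

theorem T8a_holds (hTBB : S_TBB) : S_T8a := by
  intro K _ R hR hsc p
  rw [← T8a_win] at hR
  have hp : (p.2 : ℕ) ≤ 29 := by
    have := p.2.isLt
    omega
  exact hTBB 8 30 eB eB_symm T8a_U T8 2 0 29 (by norm_num) T8a_ok T8a_nc K R hR hsc p hp

end Pool.Agent.Lib.MP_4c1f79_al
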